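import Pool.Agent.Work.MP_0b7501_nt.LargeSieve

/-!
A Brun-Titchmarsh type bound: the number of primes in `(x, x+h]` is `≤ C h / log h`.
-/

namespace Pool.Agent.Work.MP_0b7501_nt

open Finset ArithmeticFunction
open scoped ArithmeticFunction.Moebius ArithmeticFunction.zeta

lemma sum_moebius_div (t : ℕ) :
    ∑ s ∈ t.divisors, (μ (t / s) : ℝ) = if t = 1 then 1 else 0 := by
  have h1 : ∑ s ∈ t.divisors, (μ (t / s) : ℝ) = ∑ s ∈ t.divisors, (μ s : ℝ) :=
    Nat.sum_div_divisors t (fun s => (μ s : ℝ))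
  rw [h1]
  have h2 : ((μ * ζ : ArithmeticFunction ℤ) t) = (1 : ArithmeticFunction ℤ) t := by
    rw [moebius_mul_coe_zeta]
  rw [ArithmeticFunction.coe_mul_zeta_apply, ArithmeticFunction.one_apply] at h2
  have h3 : ((∑ s ∈ t.divisors, μ s : ℤ) : ℝ) = ((if t = 1 then 1 else 0 : ℤ) : ℝ) := by rw [h2]
  push_cast at h3
  exact h3

lemma sum_moebius_mult (e q : ℕ) (he : 0 < e) (hq : 0 < q) :
    ∑ d ∈ q.divisors, (if e ∣ d then (μ (q / d) : ℝ) else 0) = if q = e then 1 else 0 := by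
  by_cases hdvd : e ∣ q
  · obtain ⟨t, rfl⟩ := hdvd
    have ht : 0 < t := by
      rcases Nat.eq_zero_or_pos t with h0 | h0
      · subst h0; simp at hq
      · exact h0
    rw [← Finset.sum_filter]
    have h1 : ∑ d ∈ (e * t).divisors.filter (fun d => e ∣ d), (μ (e * t / d) : ℝ) =
        ∑ s ∈ t.divisors, (μ (t / s) : ℝ) := by
      symm
      refine Finset.sum_bij (fun s _ => e * s) ?_ ?_ ?_ ?_
      · intro s hs
        rw [Nat.mem_divisors] at hs
        rw [mem_filter, Nat.mem_divisors]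
        exact ⟨⟨Nat.mul_dvd_mul_left e hs.1, hq.ne'⟩, Dvd.intro _ rfl⟩
      · intro s _ s' _ h
        exact Nat.eq_of_mul_eq_mul_left he h
      · intro d hd
        rw [mem_filter, Nat.mem_divisors] at hd
        obtain ⟨⟨hd1, _⟩, s, rfl⟩ := hd
        refine ⟨s, ?_, rfl⟩
        rw [Nat.mem_divisors]
        exact ⟨Nat.dvd_of_mul_dvd_mul_left he hd1, ht.ne'⟩
      · intro s _
        rw [Nat.mul_div_mul_left _ _ he]
    rw [h1, sum_moebius_div t]
    congr 1
    apply propext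
    constructor
    · rintro rfl; simp
    · intro h
      have : e * t = e * 1 := by rw [h, mul_one]
      exact Nat.eq_of_mul_eq_mul_left he this
  · rw [if_neg]
    · apply Finset.sum_eq_zero
      intro d hd
      rw [if_neg]
      intro h
      exact hdvd (h.trans (Nat.dvd_of_mem_divisors hd))
    · rintro rfl
      exact hdvd dvd_rfl

lemma gcd_eq_sum (d d' K : ℕ) (hd : 0 < d) (hdK : d ≤ K) :
    (Nat.gcd d d' : ℝ) = ∑ e ∈ Icc 1 K, (Nat.totient e : ℝ) *
      ((if e ∣ d then 1 else 0) * (if e ∣ d' then 1 else 0)) := by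
  have hg : 0 < Nat.gcd d d' := Nat.gcd_pos_of_pos_left _ hd
  conv_lhs => rw [← Nat.sum_totient (Nat.gcd d d')]
  push_cast
  have h1 : (Nat.gcd d d').divisors = (Icc 1 K).filter (fun e => e ∣ d ∧ e ∣ d') := by
    ext e
    rw [Nat.mem_divisors, mem_filter, mem_Icc, Nat.dvd_gcd_iff]
    constructor
    · rintro ⟨⟨h1, h2⟩, _⟩
      exact ⟨⟨Nat.pos_of_dvd_of_pos h1 hd, (Nat.le_of_dvd hd h1).trans hdK⟩, h1, h2⟩
    · rintro ⟨_, h1, h2⟩
      exact ⟨⟨h1, h2⟩, hg.ne'⟩
  rw [h1, Finset.sum_filter]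
  refine Finset.sum_congr rfl fun e _ => ?_
  by_cases h1 : e ∣ d <;> by_cases h2 : e ∣ d' <;> simp [h1, h2]

lemma orthogonality (q q' : ℕ) (hq : 0 < q) (hq' : 0 < q') :
    ∑ d ∈ q.divisors, ∑ d' ∈ q'.divisors,
      (μ (q / d) : ℝ) * (μ (q' / d') : ℝ) * (Nat.gcd d d' : ℝ) =
      if q = q' then (Nat.totient q : ℝ) else 0 := by
  have h1 : ∀ d ∈ q.divisors, ∀ d' ∈ q'.divisors,
      (μ (q / d) : ℝ) * (μ (q' / d') : ℝ) * (Nat.gcd d d' : ℝ) =
      ∑ e ∈ Icc 1 q, (Nat.totient e : ℝ) * ((if e ∣ d then (μ (q / d) : ℝ) else 0) *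
        (if e ∣ d' then (μ (q' / d') : ℝ) else 0)) := by
    intro d hd d' hd'
    have hd0 := Nat.pos_of_mem_divisors hd
    have hdq := Nat.divisor_le hd
    rw [gcd_eq_sum d d' q hd0 hdq, Finset.mul_sum]
    refine Finset.sum_congr rfl fun e _ => ?_
    by_cases h1 : e ∣ d <;> by_cases h2 : e ∣ d' <;> simp [h1, h2]
    ring
  rw [Finset.sum_congr rfl fun d hd => Finset.sum_congr rfl fun d' hd' => h1 d hd d' hd']
  have h2 : ∑ d ∈ q.divisors, ∑ d' ∈ q'.divisors, ∑ e ∈ Icc 1 q, (Nat.totient e : ℝ) *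
      ((if e ∣ d then (μ (q / d) : ℝ) else 0) * (if e ∣ d' then (μ (q' / d') : ℝ) else 0)) =
      ∑ e ∈ Icc 1 q, (Nat.totient e : ℝ) * ((∑ d ∈ q.divisors, if e ∣ d then (μ (q / d) : ℝ) else 0) *
        (∑ d' ∈ q'.divisors, if e ∣ d' then (μ (q' / d') : ℝ) else 0)) := by
    simp_rw [Finset.sum_mul_sum, Finset.mul_sum]
    rw [Finset.sum_congr rfl fun d _ => Finset.sum_comm, Finset.sum_comm]
  rw [h2]
  have h3 : ∀ e ∈ Icc 1 q, (Nat.totient e : ℝ) *
      ((∑ d ∈ q.divisors, if e ∣ d then (μ (q / d) : ℝ) else 0) *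
        (∑ d' ∈ q'.divisors, if e ∣ d' then (μ (q' / d') : ℝ) else 0)) =
      if e = q then (if q = q' then (Nat.totient q : ℝ) else 0) else 0 := by
    intro e he
    have he1 : 0 < e := (mem_Icc.mp he).1
    rw [sum_moebius_mult e q he1 hq, sum_moebius_mult e q' he1 hq']
    by_cases h : q = e
    · subst h
      by_cases h' : q' = q
      · subst h'; simp
      · simp [h', Ne.symm h']
    · simp [h, Ne.symm h]
  rw [Finset.sum_congr rfl h3, Finset.sum_ite_eq']
  rw [if_pos (mem_Icc.mpr ⟨hq, le_rfl⟩)]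

/-- truncated Ramanujan-type sum -/
noncomputable def cq (q n : ℕ) : ℝ :=
  ∑ d ∈ q.divisors, (μ (q / d) : ℝ) * ((d : ℝ) * (if d ∣ n then 1 else 0))

lemma cq_coprime (q n : ℕ) (hq : 0 < q) (h : Nat.Coprime q n) : cq q n = μ q := by
  unfold cq
  rw [Finset.sum_eq_single 1]
  · simp
  · intro d hd hd1
    rw [if_neg]
    · simp
    · intro hdn
      exact hd1 (Nat.eq_one_of_dvd_coprimes h (Nat.dvd_of_mem_divisors hd) hdn)
  · intro h1
    exact absurd (Nat.one_mem_divisors.mpr hq.ne') h1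

lemma dvd_add_iff_mod (l x m : ℕ) (hl : 0 < l) :
    l ∣ x + m ↔ m % l = (l - x % l) % l := by
  have hx : x % l < l := Nat.mod_lt _ hl
  constructor
  · intro h
    have h1 : (x + m) % l = 0 := Nat.mod_eq_zero_of_dvd h
    have h2 : (x % l + m % l) % l = 0 := by rw [← Nat.add_mod]; exact h1
    have hm : m % l < l := Nat.mod_lt _ hl
    rcases Nat.eq_zero_or_pos (x % l) with h0 | h0
    · rw [h0] at h2 ⊢
      simp only [Nat.zero_add, Nat.mod_mod, Nat.sub_zero, Nat.mod_self] at h2 ⊢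
      exact h2
    · rw [Nat.mod_eq_of_lt (show l - x % l < l by omega)]
      obtain ⟨k, hk⟩ := Nat.dvd_of_mod_eq_zero h2
      have hk1 : k = 1 := by
        have h3 : x % l + m % l < l * 2 := by omega
        rw [hk] at h3
        have h4 : k < 2 := Nat.lt_of_mul_lt_mul_left h3
        have h5 : k ≠ 0 := by rintro rfl; omega
        omega
      subst hk1
      omega
  · intro h
    apply Nat.dvd_of_mod_eq_zero
    rw [Nat.add_mod, h]
    rcases Nat.eq_zero_or_pos (x % l) with h0 | h0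
    · rw [h0]; simp
    · rw [Nat.mod_eq_of_lt (show l - x % l < l by omega)]
      rw [show x % l + (l - x % l) = l by omega]
      exact Nat.mod_self l

lemma harmonic_le_sqfree (R : ℕ) :
    ∑ k ∈ Icc 1 R, (1 : ℝ) / k ≤ 2 * ∑ q ∈ (Icc 1 R).filter Squarefree, (1 : ℝ) / q := by
  classical
  have hsq : ∑ b ∈ Icc 1 R, (1 : ℝ) / (b : ℝ) ^ 2 ≤ 2 := by
    have h : ∀ R : ℕ, ∑ b ∈ Icc 1 (R + 1), (1 : ℝ) / (b : ℝ) ^ 2 ≤ 2 - 1 / (R + 1) := by
      intro R
      induction R with
      | zero => norm_num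
      | succ R ih =>
        rw [Finset.sum_Icc_succ_top (by omega)]
        have h1 : (1 : ℝ) / ((R + 1 + 1 : ℕ) : ℝ) ^ 2 ≤ 1 / (R + 1) - 1 / ((R + 1 : ℕ) + 1) := by
          push_cast
          rw [div_sub_div _ _ (by positivity) (by positivity), div_le_div_iff₀ (by positivity) (by positivity)]
          have : (0 : ℝ) ≤ R := by positivity
          nlinarith
        linarith
    rcases Nat.eq_zero_or_pos R with h0 | h0
    · subst h0; simp
    · have := h (R - 1)
      rw [Nat.sub_add_cancel h0] at this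
      have h2 : (0 : ℝ) ≤ 1 / (((R - 1 : ℕ) : ℝ) + 1) := by positivity
      linarith
  have key : ∑ k ∈ Icc 1 R, (1 : ℝ) / k ≤
      ∑ z ∈ ((Icc 1 R).filter Squarefree) ×ˢ (Icc 1 R), (1 : ℝ) / z.1 * (1 / (z.2 : ℝ) ^ 2) := by
    choose a b hab hsf using Nat.sq_mul_squarefree
    have hinj : Set.InjOn (fun k => (a k, b k)) (Icc 1 R : Finset ℕ) := by
      intro k _ k' _ h
      have h' := Prod.mk.inj h
      rw [← hab k, ← hab k', h'.1, h'.2]
    have hsub : (Icc 1 R).image (fun k => (a k, b k)) ⊆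
        ((Icc 1 R).filter Squarefree) ×ˢ (Icc 1 R) := by
      intro z hz
      rw [mem_image] at hz
      obtain ⟨k, hk, rfl⟩ := hz
      rw [mem_Icc] at hk
      have hk0 : 0 < b k ^ 2 * a k := by rw [hab k]; exact hk.1
      have ha0 : 0 < a k := Nat.pos_of_ne_zero fun h => by rw [h] at hk0; simp at hk0
      have hb0 : 0 < b k := Nat.pos_of_ne_zero fun h => by rw [h] at hk0; simp at hk0
      rw [mem_product, mem_filter, mem_Icc, mem_Icc]
      refine ⟨⟨⟨ha0, ?_⟩, hsf k⟩, hb0, ?_⟩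
      · calc a k ≤ b k ^ 2 * a k := Nat.le_mul_of_pos_left _ (by positivity)
          _ = k := hab k
          _ ≤ R := hk.2
      · calc b k ≤ b k ^ 2 := Nat.le_self_pow two_ne_zero _
          _ ≤ b k ^ 2 * a k := Nat.le_mul_of_pos_right _ ha0
          _ = k := hab k
          _ ≤ R := hk.2
    calc ∑ k ∈ Icc 1 R, (1 : ℝ) / k
        = ∑ k ∈ Icc 1 R, (1 : ℝ) / (a k) * (1 / (b k : ℝ) ^ 2) := by
          refine Finset.sum_congr rfl fun k _ => ?_
          rw [div_mul_div_comm, one_mul]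
          congr 1
          have := hab k
          have h2 : ((b k ^ 2 * a k : ℕ) : ℝ) = k := by rw [this]
          push_cast at h2
          rw [← h2]; ring
      _ = ∑ z ∈ (Icc 1 R).image (fun k => (a k, b k)), (1 : ℝ) / z.1 * (1 / (z.2 : ℝ) ^ 2) := by
          rw [Finset.sum_image hinj]
      _ ≤ _ := by
          apply Finset.sum_le_sum_of_subset_of_nonneg hsub
          intro z _ _; positivity
  calc ∑ k ∈ Icc 1 R, (1 : ℝ) / k ≤ _ := key
    _ = (∑ q ∈ (Icc 1 R).filter Squarefree, (1 : ℝ) / q) * ∑ b ∈ Icc 1 R, (1 : ℝ) / (b : ℝ) ^ 2 := by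
      rw [Finset.sum_mul_sum, Finset.sum_product]
    _ ≤ (∑ q ∈ (Icc 1 R).filter Squarefree, (1 : ℝ) / q) * 2 := by
      apply mul_le_mul_of_nonneg_left hsq
      apply Finset.sum_nonneg
      intro i _; positivity
    _ = _ := by ring

open Classical in
lemma sieve_bound (x h R : ℕ) (hR : 1 ≤ R) :
    (((Icc 1 h).filter (fun m => ∀ q, 0 < q → q ≤ R → Nat.Coprime q (x + m))).card : ℝ) *
      (Real.log (R + 1) / 2) ≤ 16 * (max h (R ^ 2) : ℕ) := by
  classical
  obtain ⟨D, w, hND, hw0, hw1, hdvd, heq⟩ := exists_weight h (R ^ 2) (Nat.one_le_pow _ _ hR)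
  set W : ℝ := 16 * (max h (R ^ 2) : ℕ) with hW
  set Qs := (Icc 1 R).filter Squarefree with hQs
  set G : ℝ := ∑ q ∈ Qs, (μ q : ℝ) ^ 2 / Nat.totient q with hG
  have hGlow : Real.log (R + 1) / 2 ≤ G := by
    have h1 : ∑ q ∈ Qs, (1 : ℝ) / q ≤ G := by
      apply Finset.sum_le_sum
      intro q hq
      rw [hQs, mem_filter, mem_Icc] at hq
      have h2 : (μ q : ℝ) ^ 2 = 1 := by
        have := ArithmeticFunction.moebius_sq_eq_one_of_squarefree hq.2
        exact_mod_cast this
      rw [h2]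
      have hpos : 0 < Nat.totient q := Nat.totient_pos.mpr hq.1.1
      apply one_div_le_one_div_of_le (by exact_mod_cast hpos)
      exact_mod_cast Nat.totient_le q
    have h2 := harmonic_le_sqfree R
    have h3 : Real.log (R + 1) ≤ ∑ k ∈ Icc 1 R, (1 : ℝ) / k := by
      have := log_add_one_le_harmonic R
      rw [harmonic_eq_sum_Icc] at this
      push_cast at this
      simpa [one_div] using this
    linarith
  have hG0 : 0 < G := lt_of_lt_of_le (by
    have : (1 : ℝ) < R + 1 := by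
      have : (1 : ℝ) ≤ R := by exact_mod_cast hR
      linarith
    have := Real.log_pos this
    linarith) hGlow
  have hind : ∀ l, 1 ≤ l → l ≤ R ^ 2 →
      ∑ m ∈ range D, w m * (if l ∣ x + m then (1 : ℝ) else 0) = W / l := by
    intro l h1 h2
    rw [← heq l ((l - x % l) % l) h1 h2 (Nat.mod_lt _ h1), Finset.sum_filter]
    refine Finset.sum_congr rfl fun m _ => ?_
    simp only [dvd_add_iff_mod l x m h1]
    split_ifs <;> simp
  have hcross : ∀ q ∈ Qs, ∀ q' ∈ Qs, ∑ m ∈ range D, w m * (cq q (x + m) * cq q' (x + m)) =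
      W * (if q = q' then (Nat.totient q : ℝ) else 0) := by
    intro q hq q' hq'
    rw [hQs, mem_filter, mem_Icc] at hq hq'
    rw [← orthogonality q q' hq.1.1 hq'.1.1]
    unfold cq
    simp_rw [Finset.sum_mul_sum, Finset.mul_sum]
    rw [Finset.sum_comm]
    refine Finset.sum_congr rfl fun d hd => ?_
    rw [Finset.sum_comm]
    refine Finset.sum_congr rfl fun d' hd' => ?_
    have hd0 := Nat.pos_of_mem_divisors hd
    have hd'0 := Nat.pos_of_mem_divisors hd'
    have hdR : d ≤ R := (Nat.divisor_le hd).trans hq.1.2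
    have hd'R : d' ≤ R := (Nat.divisor_le hd').trans hq'.1.2
    have hl1 : 1 ≤ Nat.lcm d d' := Nat.lcm_pos hd0 hd'0
    have hl2 : Nat.lcm d d' ≤ R ^ 2 := by
      calc Nat.lcm d d' ≤ d * d' := Nat.lcm_le_mul hd0 hd'0
        _ ≤ R * R := Nat.mul_le_mul hdR hd'R
        _ = R ^ 2 := by ring
    have h1 : ∀ m, w m * ((μ (q / d) : ℝ) * ((d : ℝ) * (if d ∣ x + m then 1 else 0)) *
        ((μ (q' / d') : ℝ) * ((d' : ℝ) * (if d' ∣ x + m then 1 else 0)))) =
        ((μ (q / d) : ℝ) * (μ (q' / d') : ℝ) * (d * d')) *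
          (w m * (if Nat.lcm d d' ∣ x + m then (1 : ℝ) else 0)) := by
      intro m
      have h2 : Nat.lcm d d' ∣ x + m ↔ (d ∣ x + m ∧ d' ∣ x + m) := Nat.lcm_dvd_iff
      by_cases hA : d ∣ x + m <;> by_cases hB : d' ∣ x + m <;> simp [hA, hB, h2]
      ring
    simp_rw [h1]
    rw [← Finset.mul_sum, hind _ hl1 hl2]
    have hgl : (Nat.gcd d d' : ℝ) * Nat.lcm d d' = d * d' := by
      exact_mod_cast Nat.gcd_mul_lcm d d'
    have hl0 : (Nat.lcm d d' : ℝ) ≠ 0 := by positivity
    rw [← hgl]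
    field_simp
  let f : ℕ → ℝ := fun m => ∑ q ∈ Qs, (μ q : ℝ) / Nat.totient q * cq q (x + m)
  have hf2 : ∑ m ∈ range D, w m * (f m) ^ 2 = W * G := by
    have h1 : ∀ m, w m * (f m) ^ 2 = ∑ q ∈ Qs, ∑ q' ∈ Qs,
        ((μ q : ℝ) / Nat.totient q) * ((μ q' : ℝ) / Nat.totient q') *
          (w m * (cq q (x + m) * cq q' (x + m))) := by
      intro m
      simp only [f]
      rw [sq, Finset.sum_mul_sum, Finset.mul_sum]
      refine Finset.sum_congr rfl fun q _ => ?_
      rw [Finset.mul_sum]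
      refine Finset.sum_congr rfl fun q' _ => ?_
      ring
    simp_rw [h1]
    rw [Finset.sum_comm, hG, Finset.mul_sum]
    refine Finset.sum_congr rfl fun q hq => ?_
    rw [Finset.sum_comm]
    have h2 : ∀ q' ∈ Qs, ∑ m ∈ range D, ((μ q : ℝ) / Nat.totient q) *
        ((μ q' : ℝ) / Nat.totient q') * (w m * (cq q (x + m) * cq q' (x + m))) =
        if q = q' then W * ((μ q : ℝ) ^ 2 / Nat.totient q) else 0 := by
      intro q' hq'
      rw [← Finset.mul_sum, hcross q hq q' hq']
      by_cases h : q = q'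
      · subst h
        rw [hQs, mem_filter, mem_Icc] at hq
        have hpos : (0 : ℝ) < Nat.totient q := by exact_mod_cast Nat.totient_pos.mpr hq.1.1
        simp only [if_true]
        field_simp
      · simp [h]
    rw [Finset.sum_congr rfl h2, Finset.sum_ite_eq, if_pos hq]
  set B := (Icc 1 h).filter (fun m => ∀ q, 0 < q → q ≤ R → Nat.Coprime q (x + m)) with hB
  have hfB : ∀ m ∈ B, f m = G := by
    intro m hm
    rw [hB, mem_filter] at hm
    simp only [f, hG]
    refine Finset.sum_congr rfl fun q hq => ?_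
    rw [hQs, mem_filter, mem_Icc] at hq
    rw [cq_coprime q _ hq.1.1 (hm.2 q hq.1.1 hq.1.2)]
    ring
  have hmain : (B.card : ℝ) * G ^ 2 ≤ W * G := by
    calc (B.card : ℝ) * G ^ 2 = ∑ _m ∈ B, G ^ 2 := by simp
      _ ≤ ∑ m ∈ B, w m * (f m) ^ 2 := by
        apply Finset.sum_le_sum
        intro m hm
        rw [hfB m hm]
        rw [hB, mem_filter, mem_Icc] at hm
        have := hw1 m hm.1.2
        nlinarith [sq_nonneg G]
      _ ≤ ∑ m ∈ range D, w m * (f m) ^ 2 := by
        apply Finset.sum_le_sum_of_subset_of_nonneg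
        · intro m hm
          rw [hB, mem_filter, mem_Icc] at hm
          rw [mem_range]; omega
        · intro m _ _
          exact mul_nonneg (hw0 m) (sq_nonneg _)
      _ = W * G := hf2
  have h1 : (B.card : ℝ) * G ≤ W := by
    have : (B.card : ℝ) * G * G ≤ W * G := by nlinarith
    exact le_of_mul_le_mul_right this hG0
  calc (B.card : ℝ) * (Real.log (R + 1) / 2) ≤ (B.card : ℝ) * G := by
        apply mul_le_mul_of_nonneg_left hGlow; positivity
    _ ≤ W := h1

/-- A Brun-Titchmarsh type inequality. -/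
theorem brun_titchmarsh (x h : ℕ) (hh : 2 ≤ h) :
    ((((Ioc x (x + h)).filter Nat.Prime).card : ℕ) : ℝ) ≤ 70 * h / Real.log h := by
  classical
  set R := Nat.sqrt h with hRdef
  have hR : 1 ≤ R := by
    rw [hRdef, Nat.one_le_iff_ne_zero]
    intro h0
    rw [Nat.sqrt_eq_zero] at h0
    omega
  have hR2 : R ^ 2 ≤ h := by rw [hRdef, sq]; exact Nat.sqrt_le h
  have hlogh : 0 < Real.log h := Real.log_pos (by exact_mod_cast (by omega : 1 < h))
  have hlogR : Real.log h / 2 ≤ Real.log (R + 1) := by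
    have h1 : (h : ℝ) ≤ ((R : ℝ) + 1) ^ 2 := by
      have := Nat.lt_succ_sqrt h
      have h2 : h ≤ (R + 1) ^ 2 := by rw [sq]; exact this.le
      exact_mod_cast h2
    have h2 := Real.log_le_log (by exact_mod_cast (by omega : 0 < h)) h1
    rw [Real.log_pow] at h2
    push_cast at h2
    linarith
  have hsb := sieve_bound x h R hR
  rw [max_eq_left hR2] at hsb
  set B := (Icc 1 h).filter (fun m => ∀ q, 0 < q → q ≤ R → Nat.Coprime q (x + m)) with hB
  have hBle : (B.card : ℝ) ≤ 64 * h / Real.log h := by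
    rw [le_div_iff₀ hlogh]
    have : (B.card : ℝ) * (Real.log h / 4) ≤ (B.card : ℝ) * (Real.log (R + 1) / 2) := by
      apply mul_le_mul_of_nonneg_left _ (by positivity)
      linarith
    nlinarith
  have hsub : (Ioc x (x + h)).filter Nat.Prime ⊆ (B.image (fun m => x + m)) ∪ Icc 1 R := by
    intro p hp
    rw [mem_filter, mem_Ioc] at hp
    rw [mem_union, mem_image, mem_Icc]
    by_cases hpR : p ≤ R
    · right; exact ⟨hp.2.one_lt.le, hpR⟩
    · left
      refine ⟨p - x, ?_, by omega⟩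
      rw [hB, mem_filter, mem_Icc]
      refine ⟨by omega, ?_⟩
      intro q hq0 hqR
      rw [show x + (p - x) = p by omega]
      rw [Nat.coprime_comm, Nat.Prime.coprime_iff_not_dvd hp.2]
      intro hdvd
      have := Nat.le_of_dvd hq0 hdvd
      omega
  have hcard : (((Ioc x (x + h)).filter Nat.Prime).card : ℝ) ≤ B.card + R := by
    have h1 := Finset.card_le_card hsub
    have h2 := Finset.card_union_le (B.image (fun m => x + m)) (Icc 1 R)
    have h3 : (B.image (fun m => x + m)).card ≤ B.card := Finset.card_image_le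
    have h4 : (Icc 1 R).card = R := by simp
    have h5 : ((Ioc x (x + h)).filter Nat.Prime).card ≤ B.card + R := by omega
    exact_mod_cast h5
  have hRle : (R : ℝ) ≤ 2 * h / Real.log h := by
    rw [le_div_iff₀ hlogh]
    have h1 : Real.log h ≤ 2 * Real.sqrt h := by
      have h2 : Real.log (Real.sqrt h) ≤ Real.sqrt h := by
        have := Real.log_le_sub_one_of_pos (Real.sqrt_pos.mpr (by exact_mod_cast (by omega : 0 < h) : (0:ℝ) < h))
        linarith
      rw [Real.log_sqrt (by positivity)] at h2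
      linarith
    have h3 : (R : ℝ) ≤ Real.sqrt h := by
      apply Real.le_sqrt_of_sq_le
      exact_mod_cast hR2
    have h4 : Real.sqrt h * Real.sqrt h = h := Real.mul_self_sqrt (by positivity)
    have h5 : 0 ≤ Real.sqrt h := Real.sqrt_nonneg _
    nlinarith
  have hfin : (64 * h / Real.log h : ℝ) + 2 * h / Real.log h ≤ 70 * h / Real.log h := by
    rw [← add_div]
    apply div_le_div_of_nonneg_right _ hlogh.le
    have : (0 : ℝ) ≤ h := by positivity
    linarith
  linarith

end Pool.Agent.Work.MP_0b7501_nt
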