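import Pool.Agent.Work.MP_0b7501_nt.Weight

/-!
Existence of the weight, and the variance form of the large sieve for prime moduli.
-/

namespace Pool.Agent.Work.MP_0b7501_nt

open Finset

lemma sum_filter_mod (D k c : ℕ) (hk : 0 < k) (hkD : k ∣ D) (hc : c < k) (w : ℕ → ℝ) :
    ∑ m ∈ (range D).filter (fun m => m % k = c), w m = ∑ t ∈ range (D / k), w (c + k * t) := by
  symm
  refine Finset.sum_bij (fun t _ => c + k * t) ?_ ?_ ?_ ?_
  · intro t ht
    have ht' := mem_range.mp ht
    simp only [mem_filter, mem_range]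
    refine ⟨?_, ?_⟩
    · calc c + k * t < k + k * t := by omega
        _ = k * (t + 1) := by ring
        _ ≤ k * (D / k) := Nat.mul_le_mul_left _ ht'
        _ = D := Nat.mul_div_cancel' hkD
    · rw [Nat.add_mul_mod_self_left, Nat.mod_eq_of_lt hc]
  · intro t _ t' _ h
    have h' : c + k * t = c + k * t' := h
    have : k * t = k * t' := by omega
    exact Nat.eq_of_mul_eq_mul_left hk this
  · intro m hm
    simp only [mem_filter, mem_range] at hm
    refine ⟨m / k, ?_, ?_⟩
    · rw [mem_range]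
      apply Nat.div_lt_of_lt_mul
      rw [Nat.mul_div_cancel' hkD]
      exact hm.1
    · rw [← hm.2]
      exact Nat.mod_add_div m k
  · intro t _
    rfl

/-- existence of a good weight -/
lemma exists_weight (N M : ℕ) (hM : 1 ≤ M) :
    ∃ (D : ℕ) (w : ℕ → ℝ), N < D ∧ (∀ m, 0 ≤ w m) ∧ (∀ m ≤ N, 1 ≤ w m) ∧
      (∀ k, 1 ≤ k → k ≤ M → k ∣ D) ∧
      (∀ k c, 1 ≤ k → k ≤ M → c < k →
        ∑ m ∈ (range D).filter (fun m => m % k = c), w m = 16 * (max N M : ℕ) / (k : ℝ)) := by
  have hmax : 1 ≤ max N M := le_trans hM (le_max_right _ _)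
  have hfac : 0 < M.factorial := Nat.factorial_pos M
  have hDpos : 0 < M.factorial * (8 * max N M) := by positivity
  refine ⟨M.factorial * (8 * max N M), wt M.factorial (M.factorial * (8 * max N M)),
    ?_, ?_, ?_, ?_, ?_⟩
  · have h1 : 8 * max N M ≤ M.factorial * (8 * max N M) := Nat.le_mul_of_pos_left _ hfac
    have h2 : N ≤ max N M := le_max_left _ _
    omega
  · intro m; exact wt_nonneg _ _ _
  · intro m hm
    apply wt_ge_one _ _ _ hfac hDpos
    have : m ≤ max N M := le_trans hm (le_max_left _ _)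
    calc 8 * (M.factorial * m) = M.factorial * (8 * m) := by ring
      _ ≤ _ := by gcongr
  · intro k hk1 hk2
    exact Dvd.dvd.mul_right (Nat.dvd_factorial hk1 hk2) _
  · intro k c hk1 hk2 hc
    have hdvd : k ∣ M.factorial * (8 * max N M) := Dvd.dvd.mul_right (Nat.dvd_factorial hk1 hk2) _
    rw [sum_filter_mod _ _ _ hk1 hdvd hc, sum_wt _ _ _ _ hfac hDpos hk1 hdvd]
    · push_cast
      have h1 : (M.factorial : ℝ) ≠ 0 := by positivity
      have h2 : (k : ℝ) ≠ 0 := by positivity
      field_simp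
      ring
    · apply Nat.mul_le_mul_left
      have : M ≤ max N M := le_max_right _ _
      omega

/-- variance form of the large sieve for prime moduli -/
theorem large_sieve_variance (N Q : ℕ) (hQ : 1 ≤ Q) (S : Finset ℕ) (hS : ∀ q ∈ S, q.Prime ∧ q ≤ Q)
    (Ω : ℕ → Finset ℕ) (hΩ : ∀ q ∈ S, ∀ c ∈ Ω q, c < q) (μ : ℝ)
    (hμ : μ = ∑ q ∈ S, ((Ω q).card : ℝ) / q) (hμ0 : 0 < μ) :
    (((range (N + 1)).filter (fun m => ((S.filter (fun q => m % q ∈ Ω q)).card : ℝ) ≤ μ / 2)).card : ℝ)
      ≤ 64 * (max N (Q ^ 2) : ℕ) / μ := by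
  classical
  obtain ⟨D, w, hND, hw0, hw1, hdvd, heq⟩ := exists_weight N (Q ^ 2) (Nat.one_le_pow _ _ hQ)
  set W : ℝ := 16 * (max N (Q ^ 2) : ℕ) with hW
  have hW0 : 0 ≤ W := by positivity
  let X : ℕ → ℝ := fun m => ∑ q ∈ S, (if m % q ∈ Ω q then (1 : ℝ) else 0)
  have hX : ∀ m, ((S.filter (fun q => m % q ∈ Ω q)).card : ℝ) = X m := by
    intro m
    simp [X]
  -- total mass
  have hmass : ∑ m ∈ range D, w m = W := by
    have := heq 1 0 le_rfl (Nat.one_le_pow _ _ hQ) Nat.zero_lt_one
    simp only [Nat.mod_one, Finset.filter_true, Nat.cast_one, div_one] at this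
    exact this
  have hind : ∀ k c, 1 ≤ k → k ≤ Q ^ 2 → c < k →
      ∑ m ∈ range D, w m * (if m % k = c then (1 : ℝ) else 0) = W / k := by
    intro k c h1 h2 h3
    rw [← heq k c h1 h2 h3, Finset.sum_filter]
    refine Finset.sum_congr rfl fun m _ => ?_
    split_ifs <;> simp
  have hmem : ∀ q ∈ S, ∀ m : ℕ, (if m % q ∈ Ω q then (1 : ℝ) else 0) =
      ∑ c ∈ Ω q, (if m % q = c then (1 : ℝ) else 0) := by
    intro q _ m
    rw [Finset.sum_ite_eq]
  -- first moment
  have hfirst : ∀ q ∈ S, ∑ m ∈ range D, w m * (if m % q ∈ Ω q then (1 : ℝ) else 0)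
      = W * ((Ω q).card / q) := by
    intro q hq
    have hq1 : 1 ≤ q := (hS q hq).1.one_lt.le
    have hq2 : q ≤ Q ^ 2 := le_trans (hS q hq).2 (Nat.le_self_pow two_ne_zero Q)
    simp_rw [hmem q hq, Finset.mul_sum]
    rw [Finset.sum_comm]
    rw [Finset.sum_congr rfl fun c hc => hind q c hq1 hq2 (hΩ q hq c hc)]
    simp only [Finset.sum_const, nsmul_eq_mul]
    ring
  have hXm : ∑ m ∈ range D, w m * X m = W * μ := by
    simp only [X, Finset.mul_sum]
    rw [Finset.sum_comm, Finset.sum_congr rfl hfirst, hμ, Finset.mul_sum]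
  -- second moment
  have hcross : ∀ q ∈ S, ∀ q' ∈ S, q ≠ q' →
      ∑ m ∈ range D, w m * ((if m % q ∈ Ω q then (1 : ℝ) else 0) *
        (if m % q' ∈ Ω q' then (1 : ℝ) else 0)) = W * (((Ω q).card / q) * ((Ω q').card / q')) := by
    intro q hq q' hq' hne
    have hq1 : 0 < q := (hS q hq).1.pos
    have hq'1 : 0 < q' := (hS q' hq').1.pos
    have hcop : Nat.Coprime q q' := (Nat.coprime_primes (hS q hq).1 (hS q' hq').1).mpr hne
    have hqq : q * q' ≤ Q ^ 2 := by
      rw [sq]; exact Nat.mul_le_mul (hS q hq).2 (hS q' hq').2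
    simp_rw [hmem q hq, hmem q' hq', Finset.sum_mul_sum, Finset.mul_sum]
    rw [Finset.sum_comm]
    have h1 : ∀ c ∈ Ω q, ∑ m ∈ range D, ∑ c' ∈ Ω q', w m * ((if m % q = c then (1 : ℝ) else 0) *
        (if m % q' = c' then (1 : ℝ) else 0)) = (Ω q').card * (W / (q * q')) := by
      intro c hc
      rw [Finset.sum_comm]
      have h2 : ∀ c' ∈ Ω q', ∑ m ∈ range D, w m * ((if m % q = c then (1 : ℝ) else 0) *
          (if m % q' = c' then (1 : ℝ) else 0)) = W / (q * q') := by
        intro c' hc'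
        have hcl := hΩ q hq c hc
        have hcl' := hΩ q' hq' c' hc'
        set z := Nat.chineseRemainder hcop c c' with hz
        have hzlt : (z : ℕ) < q * q' := Nat.chineseRemainder_lt_mul hcop c c' hq1.ne' hq'1.ne'
        have := hind (q * q') z (Nat.mul_pos hq1 hq'1) hqq hzlt
        push_cast at this
        rw [← this]
        refine Finset.sum_congr rfl fun m _ => ?_
        congr 1
        have hiff : m % (q * q') = z ↔ (m % q = c ∧ m % q' = c') := by
          constructor
          · intro h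
            have hzc := z.2
            constructor
            · have h3 : m ≡ z [MOD q * q'] := by
                rw [Nat.ModEq, h, Nat.mod_eq_of_lt hzlt]
              have h4 : m ≡ z [MOD q] := Nat.ModEq.of_mul_right q' h3
              have h5 := h4.trans hzc.1
              rw [Nat.ModEq, Nat.mod_eq_of_lt hcl] at h5
              exact h5
            · have h3 : m ≡ z [MOD q * q'] := by
                rw [Nat.ModEq, h, Nat.mod_eq_of_lt hzlt]
              have h4 : m ≡ z [MOD q'] := Nat.ModEq.of_mul_left q h3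
              have h5 := h4.trans hzc.2
              rw [Nat.ModEq, Nat.mod_eq_of_lt hcl'] at h5
              exact h5
          · rintro ⟨h3, h4⟩
            have h5 : m ≡ c [MOD q] := by rw [Nat.ModEq, h3, Nat.mod_eq_of_lt hcl]
            have h6 : m ≡ c' [MOD q'] := by rw [Nat.ModEq, h4, Nat.mod_eq_of_lt hcl']
            have h7 := Nat.chineseRemainder_modEq_unique hcop h5 h6
            rw [Nat.ModEq, Nat.mod_eq_of_lt hzlt] at h7
            exact h7
        by_cases hA : m % q = c <;> by_cases hB : m % q' = c' <;> simp [hA, hB, hiff]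
      rw [Finset.sum_congr rfl h2]
      simp
    rw [Finset.sum_congr rfl h1]
    simp only [Finset.sum_const, nsmul_eq_mul]
    have : (q : ℝ) ≠ 0 := by positivity
    have : (q' : ℝ) ≠ 0 := by positivity
    field_simp
  have hsecond : ∑ m ∈ range D, w m * (X m) ^ 2 ≤ W * (μ ^ 2 + μ) := by
    have h1 : ∀ m, w m * (X m) ^ 2 = ∑ q ∈ S, ∑ q' ∈ S, w m *
        ((if m % q ∈ Ω q then (1 : ℝ) else 0) * (if m % q' ∈ Ω q' then (1 : ℝ) else 0)) := by
      intro m
      simp only [X]
      rw [sq, Finset.sum_mul_sum, Finset.mul_sum]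
      refine Finset.sum_congr rfl fun q _ => ?_
      rw [Finset.mul_sum]
    simp_rw [h1]
    rw [Finset.sum_comm]
    have h2 : ∀ q ∈ S, ∑ m ∈ range D, ∑ q' ∈ S, w m *
        ((if m % q ∈ Ω q then (1 : ℝ) else 0) * (if m % q' ∈ Ω q' then (1 : ℝ) else 0)) ≤
        W * ((Ω q).card / q) * μ + W * ((Ω q).card / q) := by
      intro q hq
      rw [Finset.sum_comm]
      rw [← Finset.add_sum_erase _ _ hq]
      have h3 : ∑ m ∈ range D, w m * ((if m % q ∈ Ω q then (1 : ℝ) else 0) *
          (if m % q ∈ Ω q then (1 : ℝ) else 0)) = W * ((Ω q).card / q) := by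
        rw [← hfirst q hq]
        refine Finset.sum_congr rfl fun m _ => ?_
        split_ifs <;> simp
      rw [h3]
      have h4 : ∑ q' ∈ S.erase q, ∑ m ∈ range D, w m * ((if m % q ∈ Ω q then (1 : ℝ) else 0) *
          (if m % q' ∈ Ω q' then (1 : ℝ) else 0)) =
          ∑ q' ∈ S.erase q, W * (((Ω q).card / q) * ((Ω q').card / q')) := by
        refine Finset.sum_congr rfl fun q' hq' => ?_
        exact hcross q hq q' (Finset.mem_of_mem_erase hq') (Finset.ne_of_mem_erase hq').symm
      rw [h4]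
      have h5 : ∑ q' ∈ S.erase q, W * (((Ω q).card / q : ℝ) * ((Ω q').card / q')) ≤
          ∑ q' ∈ S, W * (((Ω q).card / q) * ((Ω q').card / q')) := by
        apply Finset.sum_le_sum_of_subset_of_nonneg (Finset.erase_subset _ _)
        intro i _ _
        positivity
      have h6 : ∑ q' ∈ S, W * (((Ω q).card / q : ℝ) * ((Ω q').card / q')) =
          W * ((Ω q).card / q) * μ := by
        rw [hμ, Finset.mul_sum]
        refine Finset.sum_congr rfl fun q' _ => ?_
        ring
      linarith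
    refine le_trans (Finset.sum_le_sum h2) (le_of_eq ?_)
    rw [Finset.sum_add_distrib, ← Finset.sum_mul, ← Finset.mul_sum, ← hμ]
    ring
  -- variance
  have hvar : ∑ m ∈ range D, w m * (X m - μ) ^ 2 ≤ W * μ := by
    have h1 : ∀ m, w m * (X m - μ) ^ 2 = w m * (X m) ^ 2 - 2 * μ * (w m * X m) + μ ^ 2 * w m := by
      intro m; ring
    simp_rw [h1]
    rw [Finset.sum_add_distrib, Finset.sum_sub_distrib, ← Finset.mul_sum, ← Finset.mul_sum, hXm,
      hmass]
    nlinarith [hsecond]
  -- Chebyshev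
  set B := (range (N + 1)).filter
    (fun m => ((S.filter (fun q => m % q ∈ Ω q)).card : ℝ) ≤ μ / 2) with hB
  have hBsum : (B.card : ℝ) * (μ / 2) ^ 2 ≤ W * μ := by
    calc (B.card : ℝ) * (μ / 2) ^ 2 = ∑ _m ∈ B, (μ / 2) ^ 2 := by simp
      _ ≤ ∑ m ∈ B, w m * (X m - μ) ^ 2 := by
        apply Finset.sum_le_sum
        intro m hm
        rw [hB, mem_filter, mem_range] at hm
        have hwm : 1 ≤ w m := hw1 m (by omega)
        have hXle : X m ≤ μ / 2 := by rw [← hX m]; exact hm.2
        have h2 : (μ / 2) ^ 2 ≤ (X m - μ) ^ 2 := by nlinarith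
        nlinarith [sq_nonneg (X m - μ), sq_nonneg (μ / 2)]
      _ ≤ ∑ m ∈ range D, w m * (X m - μ) ^ 2 := by
        apply Finset.sum_le_sum_of_subset_of_nonneg
        · intro m hm
          rw [hB, mem_filter, mem_range] at hm
          rw [mem_range]; omega
        · intro m _ _
          exact mul_nonneg (hw0 m) (sq_nonneg _)
      _ ≤ W * μ := hvar
  rw [le_div_iff₀ hμ0]
  have h64 : (B.card : ℝ) * μ * μ ≤ 4 * W * μ := by nlinarith
  have := le_of_mul_le_mul_right h64 hμ0
  rw [hW] at this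
  linarith

end Pool.Agent.Work.MP_0b7501_nt
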