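import Mathlib

/-!
Exponential sums: Kusmin-Landau inequality and Weyl-van der Corput inequality
(helper70, block E of MP_0b7501_nt).
-/

set_option autoImplicit false

namespace Pool.Agent.Work.MP_0b7501_nt

open Finset Complex

/-- `e(x) = exp(2 pi i x)` -/
noncomputable def ex (x : ℝ) : ℂ := Complex.exp ((2 * Real.pi * x : ℝ) * I)

lemma norm_ex (x : ℝ) : ‖ex x‖ = 1 := by
  unfold ex; exact Complex.norm_exp_ofReal_mul_I _

lemma ex_add (x y : ℝ) : ex (x + y) = ex x * ex y := by
  unfold ex; rw [← Complex.exp_add]; congr 1; push_cast; ring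

lemma ex_zero : ex 0 = 1 := by simp [ex]

lemma ex_neg (x : ℝ) : ex (-x) = (starRingEnd ℂ) (ex x) := by
  unfold ex
  rw [← Complex.exp_conj, map_mul, Complex.conj_ofReal, Complex.conj_I]
  congr 1
  push_cast
  ring

lemma ex_int (n : ℤ) : ex n = 1 := by
  unfold ex
  have : (((2 * Real.pi * (n : ℝ) : ℝ) : ℂ) * I) = n * (2 * Real.pi * I) := by push_cast; ring
  rw [this]
  exact Complex.exp_int_mul_two_pi_mul_I n

lemma ex_sub_conj (x y : ℝ) : ex (x - y) = ex x * (starRingEnd ℂ) (ex y) := by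
  rw [← ex_neg, ← ex_add]; congr 1

/-- `t(θ) = cos(πθ)/(2 sin(πθ))` -/
noncomputable def tt (θ : ℝ) : ℝ := Real.cos (Real.pi * θ) / (2 * Real.sin (Real.pi * θ))

/-- `c(θ) = 1/2 + i t(θ) = 1/(1-e(θ))`. -/
noncomputable def cc (θ : ℝ) : ℂ := 1 / 2 + (tt θ : ℂ) * I

lemma sin_pos' {θ : ℝ} (h0 : 0 < θ) (h1 : θ ≤ 1 / 2) : 0 < Real.sin (Real.pi * θ) := by
  apply Real.sin_pos_of_pos_of_lt_pi
  · positivity
  · have := Real.pi_pos; nlinarith

lemma sin_ge {θ : ℝ} (h0 : 0 < θ) (h1 : θ ≤ 1 / 2) : 2 * θ ≤ Real.sin (Real.pi * θ) := by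
  have h := Real.mul_le_sin (x := Real.pi * θ) (by positivity) (by have := Real.pi_pos; nlinarith)
  have : 2 / Real.pi * (Real.pi * θ) = 2 * θ := by
    have := Real.pi_pos; field_simp
  linarith

lemma cc_mul {θ : ℝ} (h0 : 0 < θ) (h1 : θ ≤ 1 / 2) : cc θ * (1 - ex θ) = 1 := by
  have hs := sin_pos' h0 h1
  unfold cc tt ex
  rw [Complex.exp_mul_I, ← Complex.ofReal_cos, ← Complex.ofReal_sin]
  have e1 : Real.cos (2 * Real.pi * θ) = 1 - 2 * Real.sin (Real.pi * θ) ^ 2 := by
    rw [mul_assoc, Real.cos_two_mul]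
    have := Real.sin_sq_add_cos_sq (Real.pi * θ)
    linarith
  have e2 : Real.sin (2 * Real.pi * θ) = 2 * Real.sin (Real.pi * θ) * Real.cos (Real.pi * θ) := by
    rw [mul_assoc, Real.sin_two_mul]
  rw [e1, e2]
  have hs' : (Real.sin (Real.pi * θ) : ℂ) ≠ 0 := by exact_mod_cast hs.ne'
  have hsc : (Real.sin (Real.pi * θ) : ℂ) ^ 2 + (Real.cos (Real.pi * θ) : ℂ) ^ 2 = 1 := by
    exact_mod_cast Real.sin_sq_add_cos_sq (Real.pi * θ)
  push_cast at *
  set s := Complex.sin (Real.pi * θ) with hsdef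
  set c := Complex.cos (Real.pi * θ) with hcdef
  have hI : I ^ 2 = -1 := Complex.I_sq
  field_simp
  linear_combination (2 * s) * hsc + (-2 * s * c ^ 2) * hI

lemma tt_nonneg {θ : ℝ} (h0 : 0 < θ) (h1 : θ ≤ 1 / 2) : 0 ≤ tt θ := by
  unfold tt
  apply div_nonneg
  · apply Real.cos_nonneg_of_neg_pi_div_two_le_of_le
    · have := Real.pi_pos; nlinarith
    · have := Real.pi_pos; nlinarith
  · have := sin_pos' h0 h1; positivity

lemma norm_cc {θ : ℝ} (h0 : 0 < θ) (h1 : θ ≤ 1 / 2) : ‖cc θ‖ ≤ 1 / (4 * θ) := by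
  have hs := sin_pos' h0 h1
  have h2 := sin_ge h0 h1
  have : ‖cc θ‖ = 1 / (2 * Real.sin (Real.pi * θ)) := by
    have e : ‖cc θ‖ ^ 2 = (1 / (2 * Real.sin (Real.pi * θ))) ^ 2 := by
      rw [← Complex.normSq_eq_norm_sq]
      unfold cc tt
      have : (1 / 2 + ((Real.cos (Real.pi * θ) / (2 * Real.sin (Real.pi * θ)) : ℝ) : ℂ) * I) =
        (((1 / 2 : ℝ) : ℂ) + ((Real.cos (Real.pi * θ) / (2 * Real.sin (Real.pi * θ)) : ℝ) : ℂ) * I) := by
        push_cast; rfl
      rw [this, Complex.normSq_add_mul_I]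
      have := Real.sin_sq_add_cos_sq (Real.pi * θ)
      field_simp
      nlinarith
    have h3 : 0 ≤ 1 / (2 * Real.sin (Real.pi * θ)) := by positivity
    exact (pow_left_inj₀ (norm_nonneg _) h3 two_ne_zero).1 e
  rw [this]
  apply one_div_le_one_div_of_le (by positivity)
  linarith

lemma tt_le {θ : ℝ} (h0 : 0 < θ) (h1 : θ ≤ 1 / 2) : tt θ ≤ 1 / (4 * θ) := by
  refine le_trans ?_ (norm_cc h0 h1)
  have : (cc θ).im = tt θ := by simp [cc]
  rw [← this]
  exact (le_abs_self _).trans (Complex.abs_im_le_norm _)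

lemma tt_anti {a b : ℝ} (h0 : 0 < a) (hab : a ≤ b) (h1 : b ≤ 1 / 2) : tt b ≤ tt a := by
  have hpi := Real.pi_pos
  have hs1 := sin_pos' h0 (hab.trans h1)
  have hs2 := sin_pos' (h0.trans_le hab) h1
  unfold tt
  have hc : Real.cos (Real.pi * b) ≤ Real.cos (Real.pi * a) := by
    apply Real.cos_le_cos_of_nonneg_of_le_pi (by positivity) (by nlinarith) (by nlinarith)
  have hc0 : 0 ≤ Real.cos (Real.pi * b) := by
    apply Real.cos_nonneg_of_neg_pi_div_two_le_of_le <;> nlinarith
  have hs : Real.sin (Real.pi * a) ≤ Real.sin (Real.pi * b) := by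
    apply Real.sin_le_sin_of_le_of_le_pi_div_two <;> nlinarith
  apply div_le_div₀ (hc0.trans hc) hc (by positivity) (by linarith)

lemma cc_sub (a b : ℝ) : ‖cc a - cc b‖ = |tt a - tt b| := by
  have : cc a - cc b = ((tt a - tt b : ℝ) : ℂ) * I := by
    unfold cc; push_cast; ring
  rw [this, norm_mul, Complex.norm_I, mul_one, Complex.norm_real]
  rfl

/-- the Kusmin-Landau inequality, one-sided version with positive first differences -/
theorem kusmin_landau (g : ℕ → ℝ) (M : ℕ) (u : ℝ) (hu : 0 < u)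
    (h1 : ∀ n < M, u ≤ g (n + 1) - g n) (h2 : ∀ n < M, g (n + 1) - g n ≤ 1 / 2)
    (hmono : (∀ n, n + 1 < M → g (n + 1) - g n ≤ g (n + 2) - g (n + 1)) ∨
      (∀ n, n + 1 < M → g (n + 2) - g (n + 1) ≤ g (n + 1) - g n)) :
    ‖∑ n ∈ range M, ex (g n)‖ ≤ 1 / u := by
  rcases Nat.eq_zero_or_pos M with hM | hM
  · subst hM; simp; positivity
  set θ : ℕ → ℝ := fun n => g (n + 1) - g n with hθ
  have hpos : ∀ n < M, 0 < θ n := fun n hn => hu.trans_le (h1 n hn)
  -- the step identity
  have hstep : ∀ n < M, ex (g n) = cc (θ n) * (ex (g n) - ex (g (n + 1))) := by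
    intro n hn
    have := cc_mul (hpos n hn) (h2 n hn)
    have e : ex (g (n + 1)) = ex (g n) * ex (θ n) := by
      rw [← ex_add]; congr 1; simp [hθ]
    rw [e]
    linear_combination (-ex (g n)) * this
  have hmono' : (∀ n, n + 1 < M → |tt (θ (n + 1)) - tt (θ n)| = tt (θ n) - tt (θ (n + 1))) ∨
      (∀ n, n + 1 < M → |tt (θ (n + 1)) - tt (θ n)| = tt (θ (n + 1)) - tt (θ n)) := by
    rcases hmono with h | h
    · left
      intro n hn
      have := tt_anti (hpos n (by omega)) (h n hn) (h2 (n + 1) hn)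
      rw [abs_sub_comm, abs_of_nonneg (by simp only [hθ]; linarith)]
    · right
      intro n hn
      have := tt_anti (hpos (n + 1) hn) (h n hn) (h2 n (by omega))
      rw [abs_of_nonneg (by simp only [hθ]; linarith)]
  have main : ∀ k, k + 1 ≤ M → ‖(∑ n ∈ range (k + 1), ex (g n)) + cc (θ k) * ex (g (k + 1))‖ ≤
      ‖cc (θ 0)‖ + |tt (θ k) - tt (θ 0)| := by
    intro k
    induction k with
    | zero =>
      intro hk
      have h3 := hstep 0 (by omega)
      have : (∑ n ∈ range (0 + 1), ex (g n)) + cc (θ 0) * ex (g (0 + 1)) = cc (θ 0) * ex (g 0) := by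
        simp only [zero_add, sum_range_one]
        have h3' : ex (g 0) = cc (θ 0) * (ex (g 0) - ex (g 1)) := h3
        linear_combination h3'
      rw [this, norm_mul, norm_ex, mul_one]
      simp
    | succ k ih =>
      intro hk
      have ihk := ih (by omega)
      have h3 := hstep (k + 1) (by omega)
      rw [sum_range_succ]
      have e : (∑ n ∈ range (k + 1), ex (g n)) + ex (g (k + 1)) + cc (θ (k + 1)) * ex (g (k + 1 + 1))
          = ((∑ n ∈ range (k + 1), ex (g n)) + cc (θ k) * ex (g (k + 1))) +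
            (cc (θ (k + 1)) - cc (θ k)) * ex (g (k + 1)) := by
        linear_combination h3
      rw [e]
      have h4 : ‖(cc (θ (k + 1)) - cc (θ k)) * ex (g (k + 1))‖ = |tt (θ (k + 1)) - tt (θ k)| := by
        rw [norm_mul, norm_ex, mul_one, cc_sub]
      have h5 := norm_add_le ((∑ n ∈ range (k + 1), ex (g n)) + cc (θ k) * ex (g (k + 1)))
        ((cc (θ (k + 1)) - cc (θ k)) * ex (g (k + 1)))
      rw [h4] at h5
      have h6 : |tt (θ (k + 1)) - tt (θ k)| + |tt (θ k) - tt (θ 0)| = |tt (θ (k + 1)) - tt (θ 0)| := by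
        rcases hmono' with h | h
        · have h7 : ∀ j, j ≤ k → tt (θ (k+1)) ≤ tt (θ k) ∧ tt (θ j) ≤ tt (θ 0) := by
            intro j hj
            constructor
            · have := h k (by omega)
              have := abs_nonneg (tt (θ (k + 1)) - tt (θ k)); linarith
            · induction j with
              | zero => exact le_rfl
              | succ j ihj =>
                have := h j (by omega)
                have h8 := abs_nonneg (tt (θ (j + 1)) - tt (θ j))
                have := ihj (by omega)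
                linarith
          have h8 := h7 k le_rfl
          rw [abs_of_nonpos (by linarith), abs_of_nonpos (by linarith), abs_of_nonpos (by linarith)]
          ring
        · have h7 : ∀ j, j ≤ k → tt (θ k) ≤ tt (θ (k+1)) ∧ tt (θ 0) ≤ tt (θ j) := by
            intro j hj
            constructor
            · have := h k (by omega)
              have := abs_nonneg (tt (θ (k + 1)) - tt (θ k)); linarith
            · induction j with
              | zero => exact le_rfl
              | succ j ihj =>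
                have := h j (by omega)
                have h8 := abs_nonneg (tt (θ (j + 1)) - tt (θ j))
                have := ihj (by omega)
                linarith
          have h8 := h7 k le_rfl
          rw [abs_of_nonneg (by linarith), abs_of_nonneg (by linarith), abs_of_nonneg (by linarith)]
          ring
      linarith
  obtain ⟨k, hk⟩ : ∃ k, M = k + 1 := ⟨M - 1, by omega⟩
  subst hk
  have hm := main k (by omega)
  have hk1 : k < k + 1 := by omega
  have b1 := norm_cc (hpos k hk1) (h2 k hk1)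
  have b2 := norm_cc (hpos 0 hM) (h2 0 hM)
  have b3 := tt_le (hpos k hk1) (h2 k hk1)
  have b4 := tt_le (hpos 0 hM) (h2 0 hM)
  have b5 := tt_nonneg (hpos k hk1) (h2 k hk1)
  have b6 := tt_nonneg (hpos 0 hM) (h2 0 hM)
  have hinv : ∀ n < k + 1, 1 / (4 * θ n) ≤ 1 / (4 * u) := by
    intro n hn
    apply one_div_le_one_div_of_le (by positivity)
    have := h1 n hn
    simp only [hθ]; linarith
  have c1 := hinv k hk1
  have c2 := hinv 0 hM
  have habs : |tt (θ k) - tt (θ 0)| ≤ 1 / (4 * u) := by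
    rw [abs_le]; constructor <;> linarith
  have hn : ‖cc (θ k) * ex (g (k + 1))‖ ≤ 1 / (4 * u) := by
    rw [norm_mul, norm_ex, mul_one]; linarith
  have hfin : ‖∑ n ∈ range (k + 1), ex (g n)‖ ≤
      ‖(∑ n ∈ range (k + 1), ex (g n)) + cc (θ k) * ex (g (k + 1))‖ + ‖cc (θ k) * ex (g (k + 1))‖ := by
    have := norm_sub_le ((∑ n ∈ range (k + 1), ex (g n)) + cc (θ k) * ex (g (k + 1)))
      (cc (θ k) * ex (g (k + 1)))
    rwa [add_sub_cancel_right] at this
  have hq : 1 / (4 * u) = (1 / u) / 4 := by field_simp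
  have hup : 0 < 1 / u := by positivity
  have : ‖cc (θ 0)‖ ≤ 1 / (4 * u) := by linarith
  linarith

/-- version with a sign -/
theorem kusmin_landau' (g : ℕ → ℝ) (M : ℕ) (u : ℝ) (hu : 0 < u) (σ : ℝ) (hσ : σ = 1 ∨ σ = -1)
    (h1 : ∀ n < M, u ≤ σ * (g (n + 1) - g n)) (h2 : ∀ n < M, σ * (g (n + 1) - g n) ≤ 1 / 2)
    (τ : ℝ) (hτ : τ = 1 ∨ τ = -1)
    (hmono : ∀ n, n < M → 0 ≤ τ * ((g (n + 2) - g (n + 1)) - (g (n + 1) - g n))) :
    ‖∑ n ∈ range M, ex (g n)‖ ≤ 1 / u := by
  rcases hσ with rfl | rfl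
  · apply kusmin_landau g M u hu
    · intro n hn; have := h1 n hn; linarith
    · intro n hn; have := h2 n hn; linarith
    · rcases hτ with rfl | rfl
      · left; intro n hn; have := hmono n (by omega); linarith
      · right; intro n hn; have := hmono n (by omega); linarith
  · have h := kusmin_landau (fun n => -g n) M u hu
      (by intro n hn; have := h1 n hn; linarith)
      (by intro n hn; have := h2 n hn; linarith)
      (by
        rcases hτ with rfl | rfl
        · right; intro n hn; have := hmono n (by omega); linarith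
        · left; intro n hn; have := hmono n (by omega); linarith)
    have e : ∑ n ∈ range M, ex (-g n) = (starRingEnd ℂ) (∑ n ∈ range M, ex (g n)) := by
      rw [map_sum]
      exact sum_congr rfl fun n _ => ex_neg _
    rw [e, Complex.norm_conj] at h
    exact h

/-- the Weyl-van der Corput inequality -/
theorem weyl_vdc (z : ℕ → ℂ) (M H : ℕ) (hH : 1 ≤ H) (hz : ∀ n, ‖z n‖ ≤ 1) (B : ℕ → ℝ)
    (hB : ∀ h, 1 ≤ h → h < H →
      ‖∑ n ∈ range (M - h), z (n + h) * (starRingEnd ℂ) (z n)‖ ≤ B h) :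
    (H : ℝ) * ‖∑ n ∈ range M, z n‖ ^ 2 ≤
      ((M : ℝ) + H) * (M + 2 * ∑ h ∈ Ico 1 H, B h) := by
  classical
  set S := ∑ n ∈ range M, z n with hS
  let b : ℤ → ℂ := fun n => if 0 ≤ n ∧ n < M then z n.toNat else 0
  have hB0 : ∀ h, 1 ≤ h → h < H → 0 ≤ B h := fun h h1 h2 => (norm_nonneg _).trans (hB h h1 h2)
  have hbout : ∀ n : ℤ, ¬ (0 ≤ n ∧ n < M) → b n = 0 := fun n hn => if_neg hn
  have hbnat : ∀ n : ℕ, n < M → b (n : ℤ) = z n := by
    intro n hn
    simp only [b]
    rw [if_pos ⟨by positivity, by exact_mod_cast hn⟩]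
    simp
  -- full sums
  have hfull : ∀ r : ℕ, r < H → ∑ m ∈ Ico (-(H : ℤ)) M, b (m + r) = S := by
    intro r hr
    have h1 : ∑ m ∈ Ico (-(H : ℤ)) M, b (m + r) = ∑ n ∈ Ico (-(H : ℤ) + r) (M + r), b n := by
      rw [← Finset.map_add_right_Ico, Finset.sum_map]
      rfl
    rw [h1, hS]
    symm
    apply sum_of_injOn (fun n : ℕ => (n : ℤ))
    · intro a _ c _ h
      have h' : (a : ℤ) = c := h
      exact_mod_cast h'
    · intro n hn
      have hn' : n < M := by simpa using hn
      simp only [coe_Ico, Set.mem_Ico]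
      constructor <;> omega
    · intro n _ hn
      apply hbout
      rintro ⟨h0, h1⟩
      apply hn
      refine ⟨n.toNat, ?_, ?_⟩
      · simp only [coe_range, Set.mem_Iio]; omega
      · simp only; omega
    · intro n hn
      exact (hbnat n (by simpa using hn)).symm
  have hcorr : ∀ r s : ℕ, r < H → s < H → s ≤ r →
      ∑ m ∈ Ico (-(H : ℤ)) M, b (m + r) * (starRingEnd ℂ) (b (m + s)) =
      ∑ n ∈ range (M - (r - s)), z (n + (r - s)) * (starRingEnd ℂ) (z n) := by
    intro r s hr hs hsr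
    have h1 : ∑ m ∈ Ico (-(H : ℤ)) M, b (m + r) * (starRingEnd ℂ) (b (m + s)) =
        ∑ n ∈ Ico (-(H : ℤ) + s) (M + s), b (n + (r - s : ℕ)) * (starRingEnd ℂ) (b n) := by
      rw [← Finset.map_add_right_Ico, Finset.sum_map]
      apply sum_congr rfl
      intro m _
      have : (m : ℤ) + s + ((r - s : ℕ) : ℤ) = m + r := by push_cast [hsr]; ring
      simp only [addRightEmbedding_apply]
      rw [this]
    rw [h1]
    symm
    apply sum_of_injOn (fun n : ℕ => (n : ℤ))
    · intro a _ c _ h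
      have h' : (a : ℤ) = c := h
      exact_mod_cast h'
    · intro n hn
      have hn' : n < M - (r - s) := by simpa using hn
      simp only [coe_Ico, Set.mem_Ico]
      constructor <;> omega
    · intro n _ hn
      by_cases h0 : 0 ≤ n ∧ n < M
      · have : b (n + (r - s : ℕ)) = 0 := by
          apply hbout
          rintro ⟨h2, h3⟩
          apply hn
          refine ⟨n.toNat, ?_, ?_⟩
          · simp only [coe_range, Set.mem_Iio]; omega
          · simp only; omega
        rw [this, zero_mul]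
      · rw [hbout n h0, map_zero, mul_zero]
    · intro n hn
      have hn' : n < M - (r - s) := by simpa using hn
      rw [hbnat n (by omega)]
      have := hbnat (n + (r - s)) (by omega)
      push_cast at this
      push_cast
      rw [this]
  -- the bound for correlations
  let W : ℕ → ℝ := fun h => if h = 0 then (M : ℝ) else B h
  have hW : ∀ r s : ℕ, r < H → s < H → s ≤ r →
      ‖∑ m ∈ Ico (-(H : ℤ)) M, b (m + r) * (starRingEnd ℂ) (b (m + s))‖ ≤ W (r - s) := by
    intro r s hr hs hsr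
    rw [hcorr r s hr hs hsr]
    by_cases h0 : r - s = 0
    · simp only [W, h0, if_true, Nat.sub_zero, Nat.add_zero]
      refine (norm_sum_le _ _).trans ?_
      calc ∑ n ∈ range M, ‖z n * (starRingEnd ℂ) (z n)‖ ≤ ∑ n ∈ range M, (1 : ℝ) := by
            apply sum_le_sum
            intro n _
            rw [norm_mul, Complex.norm_conj]
            have := hz n
            have h0 := norm_nonneg (z n)
            nlinarith
        _ = M := by simp
    · simp only [W, if_neg h0]
      exact hB _ (by omega) (by omega)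
  have hsum : (H : ℂ) * S = ∑ m ∈ Ico (-(H : ℤ)) M, ∑ r ∈ range H, b (m + r) := by
    rw [sum_comm, sum_congr rfl fun r hr => hfull r (mem_range.1 hr)]
    simp
  have hcs : ((H : ℝ) * ‖S‖) ^ 2 ≤ ((M : ℝ) + H) *
      ∑ m ∈ Ico (-(H : ℤ)) M, ‖∑ r ∈ range H, b (m + r)‖ ^ 2 := by
    have h1 : (H : ℝ) * ‖S‖ ≤ ∑ m ∈ Ico (-(H : ℤ)) M, ‖∑ r ∈ range H, b (m + r)‖ := by
      have : (H : ℝ) * ‖S‖ = ‖(H : ℂ) * S‖ := by rw [norm_mul]; simp
      rw [this, hsum]
      exact norm_sum_le _ _
    have h2 := sq_sum_le_card_mul_sum_sq (s := Ico (-(H : ℤ)) M)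
      (f := fun m => ‖∑ r ∈ range H, b (m + r)‖)
    have hc : ((Ico (-(H : ℤ)) M).card : ℝ) = (M : ℝ) + H := by
      rw [Int.card_Ico]
      have : ((M : ℤ) - -(H : ℤ)).toNat = M + H := by omega
      rw [this]; push_cast; ring
    rw [hc] at h2
    refine le_trans ?_ h2
    apply pow_le_pow_left₀ (by positivity) h1
  have hexp : ∑ m ∈ Ico (-(H : ℤ)) M, ‖∑ r ∈ range H, b (m + r)‖ ^ 2 ≤
      ∑ r ∈ range H, ∑ s ∈ range H, W (max r s - min r s) := by
    have h1 : ((∑ m ∈ Ico (-(H : ℤ)) M, ‖∑ r ∈ range H, b (m + r)‖ ^ 2 : ℝ) : ℂ) =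
        ∑ r ∈ range H, ∑ s ∈ range H,
          ∑ m ∈ Ico (-(H : ℤ)) M, b (m + r) * (starRingEnd ℂ) (b (m + s)) := by
      have h2 : ∀ m : ℤ, ((‖∑ r ∈ range H, b (m + r)‖ ^ 2 : ℝ) : ℂ) =
          ∑ r ∈ range H, ∑ s ∈ range H, b (m + r) * (starRingEnd ℂ) (b (m + s)) := by
        intro m
        rw [← sum_mul_sum, ← map_sum, Complex.mul_conj, Complex.normSq_eq_norm_sq]
      rw [Complex.ofReal_sum, sum_congr rfl fun m _ => h2 m, sum_comm]
      apply sum_congr rfl
      intro r _
      rw [sum_comm]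
    have h3 : (∑ m ∈ Ico (-(H : ℤ)) M, ‖∑ r ∈ range H, b (m + r)‖ ^ 2 : ℝ) =
        ‖((∑ m ∈ Ico (-(H : ℤ)) M, ‖∑ r ∈ range H, b (m + r)‖ ^ 2 : ℝ) : ℂ)‖ := by
      rw [Complex.norm_real, Real.norm_of_nonneg]
      positivity
    rw [h3, h1]
    refine (norm_sum_le _ _).trans (sum_le_sum fun r hr => (norm_sum_le _ _).trans
      (sum_le_sum fun s hs => ?_))
    rw [mem_range] at hr hs
    rcases le_total s r with h | h
    · rw [max_eq_left h, min_eq_right h]
      exact hW r s hr hs h
    · rw [max_eq_right h, min_eq_left h]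
      have h4 := hW s r hs hr h
      have h5 : ∑ m ∈ Ico (-(H : ℤ)) M, b (m + r) * (starRingEnd ℂ) (b (m + s)) =
          (starRingEnd ℂ) (∑ m ∈ Ico (-(H : ℤ)) M, b (m + s) * (starRingEnd ℂ) (b (m + r))) := by
        rw [map_sum]
        apply sum_congr rfl
        intro m _
        rw [map_mul, Complex.conj_conj, mul_comm]
      rw [h5, Complex.norm_conj]
      exact h4
  have hrow : ∀ r ∈ range H, ∑ s ∈ range H, W (max r s - min r s) ≤
      (M : ℝ) + 2 * ∑ h ∈ Ico 1 H, B h := by
    intro r hr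
    rw [mem_range] at hr
    have hsplit : ∑ s ∈ range H, W (max r s - min r s) =
        (∑ s ∈ range r, B (r - s)) + M + ∑ s ∈ Ico (r + 1) H, B (s - r) := by
      rw [range_eq_Ico, ← sum_Ico_consecutive _ (Nat.zero_le r) hr.le,
        sum_eq_sum_Ico_succ_bot hr, ← range_eq_Ico, add_assoc]
      congr 1
      · apply sum_congr rfl
        intro s hs
        rw [mem_range] at hs
        rw [max_eq_left hs.le, min_eq_right hs.le]
        simp only [W]
        rw [if_neg (by omega)]
      · congr 1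
        · simp [W]
        · apply sum_congr rfl
          intro s hs
          rw [mem_Ico] at hs
          rw [max_eq_right (by omega), min_eq_left (by omega)]
          simp only [W]
          rw [if_neg (by omega)]
    have ha : ∑ s ∈ range r, B (r - s) ≤ ∑ h ∈ Ico 1 H, B h := by
      have e : ∑ s ∈ range r, B (r - s) = ∑ h ∈ (range r).image (fun s => r - s), B h := by
        rw [sum_image]
        intro x hx y hy h
        simp only [coe_range, Set.mem_Iio] at hx hy
        simp only at h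
        omega
      rw [e]
      apply sum_le_sum_of_subset_of_nonneg
      · intro h hh
        rw [mem_image] at hh
        obtain ⟨s, hs, rfl⟩ := hh
        rw [mem_range] at hs
        rw [mem_Ico]; omega
      · intro h hh _
        rw [mem_Ico] at hh
        exact hB0 h hh.1 hh.2
    have hb' : ∑ s ∈ Ico (r + 1) H, B (s - r) ≤ ∑ h ∈ Ico 1 H, B h := by
      have e : ∑ s ∈ Ico (r + 1) H, B (s - r) = ∑ h ∈ (Ico (r + 1) H).image (fun s => s - r), B h := by
        rw [sum_image]
        intro x hx y hy h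
        simp only [coe_Ico, Set.mem_Ico] at hx hy
        simp only at h
        omega
      rw [e]
      apply sum_le_sum_of_subset_of_nonneg
      · intro h hh
        rw [mem_image] at hh
        obtain ⟨s, hs, rfl⟩ := hh
        rw [mem_Ico] at hs
        rw [mem_Ico]; omega
      · intro h hh _
        rw [mem_Ico] at hh
        exact hB0 h hh.1 hh.2
    rw [hsplit]; linarith
  have htot : ∑ r ∈ range H, ∑ s ∈ range H, W (max r s - min r s) ≤
      H * ((M : ℝ) + 2 * ∑ h ∈ Ico 1 H, B h) := by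
    refine (sum_le_sum hrow).trans ?_
    rw [sum_const, card_range, nsmul_eq_mul]
  have hHpos : (0 : ℝ) < H := by exact_mod_cast hH
  have h7 : ((H : ℝ) * ‖S‖) ^ 2 ≤ ((M : ℝ) + H) * (H * ((M : ℝ) + 2 * ∑ h ∈ Ico 1 H, B h)) :=
    hcs.trans (mul_le_mul_of_nonneg_left (hexp.trans htot) (by positivity))
  have h8 : (H : ℝ) * ((H : ℝ) * ‖S‖ ^ 2) ≤ H * (((M : ℝ) + H) * ((M : ℝ) + 2 * ∑ h ∈ Ico 1 H, B h)) := by
    nlinarith
  exact le_of_mul_le_mul_left h8 hHpos

end Pool.Agent.Work.MP_0b7501_nt
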