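import Pool.Agent.Work.MP_0b7501_nt.Basic

/-!
Counting primes in `(P, 4P]` with a multiple in a given interval, via Brun-Titchmarsh.
-/

namespace Pool.Agent.Work.MP_0b7501_nt

open Finset

/-- primes in `(P, 4P]` with a multiple in `(a, a+l]` -/
noncomputable def S4 (a l P : ℕ) : Finset ℕ :=
  (Ioc P (4 * P)).filter (fun q => q.Prime ∧ ∃ j ∈ Ioc a (a + l), q ∣ j)

lemma mem_S4 {a l P q : ℕ} : q ∈ S4 a l P ↔
    (P < q ∧ q ≤ 4 * P) ∧ q.Prime ∧ ∃ j ∈ Ioc a (a + l), q ∣ j := by
  unfold S4; rw [mem_filter, mem_Ioc]

lemma log_four_le : Real.log 4 ≤ 1.4 := by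
  have h : Real.log 4 = 2 * Real.log 2 := by
    rw [show (4:ℝ) = 2 ^ 2 by norm_num, Real.log_pow]; push_cast; ring
  rw [h]
  have := Real.log_two_lt_d9
  linarith

theorem bt_count (m a l P : ℕ) (hm : 2 ≤ m) (hal : a + l ≤ m) (hlP : m ^ 11 ≤ (l * P) ^ 10) :
    ∑ q ∈ S4 a l P, Real.log q ≤ 11200 * l := by
  have hmpos : (0:ℝ) < m := by exact_mod_cast (by omega : 0 < m)
  have hlogm : 0 < Real.log m := Real.log_pos (by exact_mod_cast (by omega : 1 < m))
  by_cases hcase : a < l
  · -- trivial bound
    have h1 : ∑ q ∈ S4 a l P, Real.log q ≤ Chebyshev.theta ((2 * l : ℕ) : ℝ) := by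
      unfold Chebyshev.theta
      rw [Nat.floor_natCast]
      apply Finset.sum_le_sum_of_subset_of_nonneg
      · intro q hq
        have h := mem_S4.mp hq
        obtain ⟨j, hj, hd⟩ := h.2.2
        rw [mem_Ioc] at hj
        have := Nat.le_of_dvd (by omega) hd
        rw [mem_filter, mem_Ioc]
        exact ⟨⟨h.2.1.pos, by omega⟩, h.2.1⟩
      · intro q hq _
        rw [mem_filter] at hq
        exact Real.log_nonneg (by exact_mod_cast hq.2.one_lt.le)
    have h2 := Chebyshev.theta_le_log4_mul_x (x := ((2 * l : ℕ) : ℝ)) (Nat.cast_nonneg _)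
    have h3 := log_four_le
    push_cast at h1 h2
    have h4 : (0:ℝ) ≤ l := Nat.cast_nonneg l
    nlinarith
  · push Not at hcase
    have hP : 0 < P := by
      rcases Nat.eq_zero_or_pos P with h | h
      · subst h
        have : 0 < m ^ 11 := by positivity
        simp at hlP
        omega
      · exact h
    have hl : 0 < l := by
      rcases Nat.eq_zero_or_pos l with h | h
      · subst h
        simp at hlP
        omega
      · exact h
    have ha : 0 < a := by omega
    have hPR : (0:ℝ) < P := by exact_mod_cast hP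
    have hlR : (0:ℝ) < l := by exact_mod_cast hl
    have haR : (0:ℝ) < a := by exact_mod_cast ha
    set Ks := Ioc (a / (4 * P)) ((a + l) / P) with hKs
    -- covering
    have hsub : S4 a l P ⊆ Ks.biUnion
        (fun k => (Ioc (a / k) (a / k + (l / k + 1))).filter Nat.Prime) := by
      intro q hq
      obtain ⟨⟨hq1, hq2⟩, hqp, j, hj, k, hk⟩ := mem_S4.mp hq
      rw [mem_Ioc] at hj
      subst hk
      have hk0 : 0 < k := by
        rcases Nat.eq_zero_or_pos k with h | h
        · subst h; omega
        · exact h
      rw [mem_biUnion]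
      refine ⟨k, ?_, ?_⟩
      · rw [hKs, mem_Ioc]
        constructor
        · rw [Nat.div_lt_iff_lt_mul (by omega)]
          calc a < q * k := hj.1
            _ ≤ (4 * P) * k := Nat.mul_le_mul_right _ hq2
            _ = k * (4 * P) := by ring
        · rw [Nat.le_div_iff_mul_le hP]
          calc k * P ≤ k * q := Nat.mul_le_mul_left _ hq1.le
            _ = q * k := by ring
            _ ≤ a + l := hj.2
      · rw [mem_filter, mem_Ioc]
        refine ⟨⟨?_, ?_⟩, hqp⟩
        · rw [Nat.div_lt_iff_lt_mul hk0]; exact hj.1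
        · have h1 : q ≤ (a + l) / k := by
            rw [Nat.le_div_iff_mul_le hk0]; exact hj.2
          have h2 : (a + l) / k ≤ a / k + l / k + 1 := by
            rw [← Nat.lt_succ_iff, Nat.div_lt_iff_lt_mul hk0]
            have e1 := Nat.lt_div_mul_add (a := a) hk0
            have e2 := Nat.lt_div_mul_add (a := l) hk0
            have e3 : (a / k + l / k + 1).succ * k = a / k * k + l / k * k + 2 * k := by
              rw [Nat.succ_eq_add_one]; ring
            rw [e3]; omega
          omega
    -- bound for each k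
    have hbound : ∀ k ∈ Ks, ((((Ioc (a / k) (a / k + (l / k + 1))).filter Nat.Prime).card : ℕ) : ℝ)
        ≤ 11200 * l * P / ((a + l) * Real.log m) := by
      intro k hk
      rw [hKs, mem_Ioc] at hk
      have hk0 : 0 < k := lt_of_le_of_lt (Nat.zero_le _) hk.1
      have hkR : (0:ℝ) < k := by exact_mod_cast hk0
      have hk1 : k * P ≤ a + l := by
        rw [← Nat.le_div_iff_mul_le hP]; exact hk.2
      have hk1R : (k:ℝ) * P ≤ m := by
        have : k * P ≤ m := hk1.trans hal
        exact_mod_cast this
      have hk2 : a < k * (4 * P) := by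
        rw [← Nat.div_lt_iff_lt_mul (by omega)]; exact hk.1
      have hk2R : (a:ℝ) < k * (4 * P) := by exact_mod_cast hk2
      -- l / k is large
      set x : ℝ := (l:ℝ) / k with hx
      have hx10 : (m:ℝ) ≤ x ^ 10 := by
        have h1 : (l * P : ℝ) / m ≤ x := by
          rw [hx, div_le_div_iff₀ hmpos hkR]
          nlinarith
        have h2 : (m:ℝ) ≤ ((l * P : ℝ) / m) ^ 10 := by
          rw [div_pow, le_div_iff₀ (by positivity)]
          have : ((m:ℝ)) ^ 11 ≤ ((l:ℝ) * P) ^ 10 := by exact_mod_cast hlP
          calc (m:ℝ) * (m:ℝ) ^ 10 = (m:ℝ) ^ 11 := by ring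
            _ ≤ _ := this
        exact h2.trans (pow_le_pow_left₀ (by positivity) h1 10)
      have hxpos : 0 < x := by positivity
      have hlogx : Real.log m / 10 ≤ Real.log x := by
        have := Real.log_le_log hmpos hx10
        rw [Real.log_pow] at this
        push_cast at this
        linarith
      have hlogxpos : 0 < Real.log x := by linarith [div_pos hlogm (by norm_num : (0:ℝ) < 10)]
      have hx1 : 1 ≤ x := by
        by_contra hcon
        push Not at hcon
        have := Real.log_nonpos hxpos.le hcon.le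
        linarith
      have hkl : k ≤ l := by
        rw [hx, le_div_iff₀ hkR, one_mul] at hx1
        exact_mod_cast hx1
      have hdiv1 : 1 ≤ l / k := (Nat.one_le_div_iff hk0).mpr hkl
      set h := l / k + 1 with hh
      have hh2 : 2 ≤ h := by omega
      have hhR1 : x ≤ (h:ℝ) := by
        rw [hx, div_le_iff₀ hkR]
        have e2 := Nat.lt_div_mul_add (a := l) hk0
        have e3 : l ≤ h * k := by rw [hh, add_mul, one_mul]; omega
        exact_mod_cast e3
      have hhR2 : (h:ℝ) ≤ 2 * x := by
        rw [hh]
        push_cast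
        have e1 : ((l / k : ℕ) : ℝ) ≤ x := Nat.cast_div_le
        linarith
      have hbt := brun_titchmarsh (a / k) h hh2
      refine hbt.trans ?_
      have hloghpos : 0 < Real.log h := Real.log_pos (by exact_mod_cast (by omega : 1 < h))
      have hlogh : Real.log m / 10 ≤ Real.log h := hlogx.trans (Real.log_le_log hxpos hhR1)
      have step1 : 70 * (h:ℝ) / Real.log h ≤ 70 * (2 * x) / (Real.log m / 10) := by
        apply div_le_div₀ (by positivity) _ (by positivity) hlogh
        linarith
      refine step1.trans ?_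
      have step2 : 70 * (2 * x) / (Real.log m / 10) = 1400 * x / Real.log m := by
        field_simp
        ring
      rw [step2, div_le_div_iff₀ hlogm (by positivity)]
      -- x ≤ 8 l P/(a+l)
      have step3 : x * (a + l) ≤ 8 * l * P := by
        rw [hx, div_mul_eq_mul_div, div_le_iff₀ hkR]
        have e1 : (l:ℝ) ≤ a := by exact_mod_cast hcase
        have e2 : (a + l : ℝ) ≤ 8 * P * k := by nlinarith
        calc (l:ℝ) * (a + l) ≤ l * (8 * P * k) := mul_le_mul_of_nonneg_left e2 hlR.le
          _ = 8 * l * P * k := by ring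
      calc 1400 * x * ((a + l) * Real.log m) = 1400 * (x * (a + l)) * Real.log m := by ring
        _ ≤ 1400 * (8 * l * P) * Real.log m := by
            apply mul_le_mul_of_nonneg_right _ hlogm.le
            linarith
        _ = 11200 * l * P * Real.log m := by ring
    -- the number of k
    have hKcard : ((Ks.card : ℕ) : ℝ) ≤ (a + l) / P := by
      rw [hKs, Nat.card_Ioc]
      calc ((((a + l) / P - a / (4 * P) : ℕ)) : ℝ) ≤ (((a + l) / P : ℕ) : ℝ) := by
            exact_mod_cast Nat.sub_le _ _
        _ ≤ ((a + l : ℕ) : ℝ) / P := Nat.cast_div_le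
        _ = (a + l) / P := by push_cast; ring
    have hcard : ((S4 a l P).card : ℝ) ≤ 11200 * l / Real.log m := by
      have h1 : (S4 a l P).card ≤ ∑ k ∈ Ks,
          ((Ioc (a / k) (a / k + (l / k + 1))).filter Nat.Prime).card :=
        (Finset.card_le_card hsub).trans Finset.card_biUnion_le
      calc ((S4 a l P).card : ℝ) ≤ ((∑ k ∈ Ks,
          ((Ioc (a / k) (a / k + (l / k + 1))).filter Nat.Prime).card : ℕ) : ℝ) := by
            exact_mod_cast h1
        _ = ∑ k ∈ Ks, ((((Ioc (a / k) (a / k + (l / k + 1))).filter Nat.Prime).card : ℕ) : ℝ) := by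
            push_cast; rfl
        _ ≤ ∑ k ∈ Ks, 11200 * l * P / ((a + l) * Real.log m) := Finset.sum_le_sum hbound
        _ = Ks.card * (11200 * l * P / ((a + l) * Real.log m)) := by
            rw [Finset.sum_const, nsmul_eq_mul]
        _ ≤ (a + l) / P * (11200 * l * P / ((a + l) * Real.log m)) := by
            apply mul_le_mul_of_nonneg_right hKcard; positivity
        _ = 11200 * l / Real.log m := by field_simp
    calc ∑ q ∈ S4 a l P, Real.log q ≤ ∑ q ∈ S4 a l P, Real.log m := by
          apply Finset.sum_le_sum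
          intro q hq
          obtain ⟨⟨hq1, hq2⟩, hqp, j, hj, hd⟩ := mem_S4.mp hq
          rw [mem_Ioc] at hj
          have := Nat.le_of_dvd (by omega) hd
          apply Real.log_le_log (by exact_mod_cast hqp.pos)
          exact_mod_cast (by omega : q ≤ m)
      _ = (S4 a l P).card * Real.log m := by rw [Finset.sum_const, nsmul_eq_mul]
      _ ≤ 11200 * l / Real.log m * Real.log m := mul_le_mul_of_nonneg_right hcard hlogm.le
      _ = 11200 * l := by field_simp

end Pool.Agent.Work.MP_0b7501_nt
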