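import Mathlib

/-!
The parameter `X = n^{1/D}` and elementary asymptotics.
-/

namespace Pool.Agent.Work.MP_0b7501_nt

open Finset Filter

noncomputable def XX (D n : ℕ) : ℝ := (n:ℝ) ^ ((1:ℝ) / D)

lemma XX_nonneg (D n : ℕ) : 0 ≤ XX D n := Real.rpow_nonneg (Nat.cast_nonneg _) _

lemma XX_pow {D : ℕ} (hD : 0 < D) (n : ℕ) : XX D n ^ D = n := by
  unfold XX
  rw [← Real.rpow_natCast, ← Real.rpow_mul (Nat.cast_nonneg _)]
  have : (D:ℝ) ≠ 0 := by exact_mod_cast hD.ne'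
  rw [one_div_mul_cancel this, Real.rpow_one]

lemma XX_tendsto {D : ℕ} (hD : 0 < D) : Tendsto (XX D) atTop atTop := by
  unfold XX
  apply (tendsto_rpow_atTop _).comp tendsto_natCast_atTop_atTop
  have : (0:ℝ) < D := by exact_mod_cast hD
  positivity

lemma one_le_XX {D n : ℕ} (hn : 1 ≤ n) : 1 ≤ XX D n := by
  unfold XX
  apply Real.one_le_rpow
  · exact_mod_cast hn
  · positivity

lemma log_eq_XX {D : ℕ} (hD : 0 < D) (n : ℕ) : Real.log n = D * Real.log (XX D n) := by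
  rw [← Real.log_pow, XX_pow hD]

lemma XX_ge {D : ℕ} (hD : 0 < D) (B : ℝ) : ∀ᶠ n : ℕ in atTop, B ≤ XX D n :=
  (XX_tendsto hD).eventually_ge_atTop B

/-- powers of the logarithm are smaller than `X` -/
lemma polylog_le {D : ℕ} (hD : 0 < D) (C : ℝ) (k : ℕ) :
    ∀ᶠ n : ℕ in atTop, C * (Real.log n) ^ k ≤ XX D n := by
  have h1 : ∀ᶠ x : ℝ in atTop, |C| * (D:ℝ) ^ k * |Real.log x ^ k| ≤ |x| := by
    have h2 := (Real.isLittleO_pow_log_id_atTop (n := k)).def
      (c := 1 / (|C| * (D:ℝ) ^ k + 1)) (by positivity)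
    filter_upwards [h2] with x hx
    simp only [id, Real.norm_eq_abs] at hx
    have h3 : 0 ≤ |C| * (D:ℝ) ^ k := by positivity
    have h4 : 0 ≤ |x| := abs_nonneg x
    calc |C| * (D:ℝ) ^ k * |Real.log x ^ k|
        ≤ |C| * (D:ℝ) ^ k * (1 / (|C| * (D:ℝ) ^ k + 1) * |x|) := mul_le_mul_of_nonneg_left hx h3
      _ = (|C| * (D:ℝ) ^ k / (|C| * (D:ℝ) ^ k + 1)) * |x| := by ring
      _ ≤ 1 * |x| := by
          apply mul_le_mul_of_nonneg_right _ h4
          rw [div_le_one (by positivity)]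
          linarith
      _ = |x| := one_mul _
  have h5 := (XX_tendsto hD).eventually h1
  filter_upwards [h5, eventually_ge_atTop 1] with n hn hn1
  have hX : 0 ≤ XX D n := XX_nonneg D n
  rw [abs_of_nonneg hX] at hn
  rw [log_eq_XX hD, mul_pow]
  calc C * ((D:ℝ) ^ k * Real.log (XX D n) ^ k)
      ≤ |C * ((D:ℝ) ^ k * Real.log (XX D n) ^ k)| := le_abs_self _
    _ = |C| * (D:ℝ) ^ k * |Real.log (XX D n) ^ k| := by
        rw [abs_mul, abs_mul, abs_of_nonneg (by positivity : (0:ℝ) ≤ (D:ℝ) ^ k)]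
        ring
    _ ≤ XX D n := hn

/-- if `B n ≤ C n (log n)^k / X` then `B n ≤ ε n` eventually -/
lemma small_of_saving {D : ℕ} (hD : 0 < D) (C : ℝ) (k : ℕ) (ε : ℝ) (hε : 0 < ε) :
    ∀ᶠ n : ℕ in atTop, C * n * (Real.log n) ^ k / XX D n ≤ ε * n := by
  filter_upwards [polylog_le hD (C / ε) k, XX_ge hD 1] with n hn hX
  have hX0 : 0 < XX D n := by linarith
  rw [div_le_iff₀ hX0]
  have h1 : C * (Real.log n) ^ k ≤ ε * XX D n := by
    calc C * (Real.log n) ^ k = ε * (C / ε * (Real.log n) ^ k) := by field_simp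
      _ ≤ _ := mul_le_mul_of_nonneg_left hn hε.le
  calc C * n * (Real.log n) ^ k = (C * (Real.log n) ^ k) * n := by ring
    _ ≤ (ε * XX D n) * n := mul_le_mul_of_nonneg_right h1 (Nat.cast_nonneg n)
    _ = _ := by ring

lemma log_ge {B : ℝ} : ∀ᶠ n : ℕ in atTop, B ≤ Real.log n :=
  (Real.tendsto_log_atTop.comp tendsto_natCast_atTop_atTop).eventually_ge_atTop _

end Pool.Agent.Work.MP_0b7501_nt
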