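import Pool.Agent.Work.MP_0b7501_nt.Struct
import Pool.Agent.Work.MP_0b7501_nt.Params

/-!
Bounds for the exceptional sets.
-/

namespace Pool.Agent.Work.MP_0b7501_nt

open Finset Filter

open Classical in
/-- exceptional set A: `m-1` is (smooth) times a square -/
noncomputable def badA (D n : ℕ) : Finset ℕ :=
  (Icc 1 n).filter (fun m => SmSq ⌊XX D n ^ 10⌋₊ (m - 1))

lemma badA_bound (D : ℕ) (hD : 1 ≤ D) : ∀ᶠ n : ℕ in atTop,
    ((badA D n).card : ℝ) ≤ 400 * n / (D:ℝ) ^ 2 := by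
  classical
  obtain ⟨U, hU⟩ : ∃ U : ℕ, U = 4 * D ^ 2 := ⟨_, rfl⟩
  have hU1 : 1 ≤ U := by
    rw [hU]
    have : 0 < D ^ 2 := by positivity
    omega
  have hDR : (1:ℝ) ≤ D := by exact_mod_cast hD
  have hev1 : ∀ᶠ n : ℕ in atTop, (2 * (D:ℝ) ^ 2) ≤ (n:ℝ) :=
    tendsto_natCast_atTop_atTop.eventually_ge_atTop _
  filter_upwards [hev1, eventually_gt_atTop (U ^ 3), XX_ge (by omega : 0 < D) 1,
    log_ge (B := 10 * Real.log ((U:ℝ) ^ 3)), log_ge (B := 1.4 * D), log_ge (B := 1),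
    eventually_ge_atTop 1] with n h1 h2 h3 h4 h5 h6 h7
  obtain ⟨Z, hZ⟩ : ∃ Z, Z = ⌊XX D n ^ 10⌋₊ := ⟨_, rfl⟩
  have hnR : (0:ℝ) < n := by exact_mod_cast (by omega : 0 < n)
  have hX10 : (1:ℝ) ≤ XX D n ^ 10 := one_le_pow₀ h3
  have hZ1 : 1 ≤ Z := by
    rw [hZ]; exact Nat.le_floor (by exact_mod_cast hX10)
  have hcard : (badA D n).card ≤ 1 + ((Icc 1 n).filter (fun N => SmSq Z N)).card := by
    have hsub : badA D n ⊆ insert 1 (((Icc 1 n).filter (fun N => SmSq Z N)).image (· + 1)) := by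
      intro m hm
      unfold badA at hm
      rw [mem_filter, mem_Icc, ← hZ] at hm
      rw [mem_insert]
      by_cases hm1 : m = 1
      · left; exact hm1
      · right
        rw [mem_image]
        refine ⟨m - 1, ?_, by omega⟩
        rw [mem_filter, mem_Icc]
        exact ⟨⟨by omega, by omega⟩, hm.2⟩
    calc (badA D n).card ≤ _ := Finset.card_le_card hsub
      _ ≤ (((Icc 1 n).filter (fun N => SmSq Z N)).image (· + 1)).card + 1 :=
          Finset.card_insert_le _ _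
      _ ≤ ((Icc 1 n).filter (fun N => SmSq Z N)).card + 1 :=
          Nat.add_le_add_right Finset.card_image_le 1
      _ = _ := by ring
  have hsm := smsq_count Z n U hZ1 hU1 h2
  have hlogZ : Real.log Z ≤ (10 / D) * Real.log n := by
    have e1 : Real.log Z ≤ Real.log (XX D n ^ 10) := by
      apply Real.log_le_log
      · exact_mod_cast (by omega : 0 < Z)
      · rw [hZ]; exact Nat.floor_le (by positivity)
    rw [Real.log_pow] at e1
    rw [log_eq_XX (by omega : 0 < D) n]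
    calc Real.log Z ≤ 10 * Real.log (XX D n) := by exact_mod_cast e1
      _ = 10 / D * (D * Real.log (XX D n)) := by field_simp
  have hlogZ0 : 0 ≤ Real.log Z := Real.log_nonneg (by exact_mod_cast hZ1)
  obtain ⟨ell, hell⟩ : ∃ ell, ell = Real.log n := ⟨_, rfl⟩
  rw [← hell] at h4 h5 h6 hlogZ
  have hellpos : 0 < ell := by linarith
  have hA : (Real.log Z + 1.4) ^ 2 ≤ (11 / D * ell) ^ 2 := by
    apply pow_le_pow_left₀ (by linarith)
    have : (1.4:ℝ) ≤ 1 / D * ell := by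
      rw [div_mul_eq_mul_div, le_div_iff₀ (by linarith)]
      linarith
    calc Real.log Z + 1.4 ≤ 10 / D * ell + 1 / D * ell := add_le_add hlogZ this
      _ = 11 / D * ell := by ring
  have hB : (9 / 10 * ell) ^ 2 ≤ (Real.log (n / (U:ℝ) ^ 3)) ^ 2 := by
    apply pow_le_pow_left₀ (by positivity)
    have hU3 : (0:ℝ) < (U:ℝ) ^ 3 := by
      have : (0:ℝ) < U := by exact_mod_cast hU1
      positivity
    rw [Real.log_div hnR.ne' hU3.ne', ← hell]
    linarith
  have hC : 2 * (n:ℝ) * (Real.log Z + 1.4) ^ 2 / (Real.log (n / (U:ℝ) ^ 3)) ^ 2 ≤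
      2 * n * (11 / D * ell) ^ 2 / (9 / 10 * ell) ^ 2 := by
    apply div_le_div₀ (by positivity) _ (by positivity) hB
    exact mul_le_mul_of_nonneg_left hA (by positivity)
  have hC2 : 2 * (n:ℝ) * (11 / D * ell) ^ 2 / (9 / 10 * ell) ^ 2 = (24200 / 81) * (n / (D:ℝ) ^ 2) := by
    field_simp
    norm_num
  have hE : 2 * (n:ℝ) / U = (1 / 2) * (n / (D:ℝ) ^ 2) := by
    rw [hU]; push_cast; field_simp; norm_num
  have hF : (1:ℝ) ≤ (1 / 2) * (n / (D:ℝ) ^ 2) := by
    rw [← mul_div_assoc, le_div_iff₀ (by positivity)]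
    linarith
  have hcardR : ((badA D n).card : ℝ) ≤ 1 + (((Icc 1 n).filter (fun N => SmSq Z N)).card : ℝ) := by
    exact_mod_cast hcard
  have hG : 0 ≤ (n:ℝ) / (D:ℝ) ^ 2 := by positivity
  rw [mul_div_assoc]
  linarith

/-- uniform bound for the number of dyadic scales -/
lemma two_pow_le_imp {s n : ℕ} (h : 2 ^ s ≤ n) : s ∈ range (Nat.log 2 n + 1) := by
  rw [mem_range]
  have hn : n ≠ 0 := by
    have : 0 < 2 ^ s := by positivity
    omega
  have := Nat.le_log_of_pow_le (by norm_num : 1 < 2) h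
  omega

lemma log2_le (n : ℕ) (hn : 1 ≤ n) : ((Nat.log 2 n + 1 : ℕ) : ℝ) ≤ 2 * Real.log n + 1 := by
  have h1 : (2:ℝ) ^ (Nat.log 2 n) ≤ n := by exact_mod_cast Nat.pow_log_le_self 2 (by omega)
  have h2 := Real.log_le_log (by positivity) h1
  rw [Real.log_pow] at h2
  have h3 := Real.log_two_gt_d9
  have h4 : (0:ℝ) ≤ (Nat.log 2 n : ℝ) := Nat.cast_nonneg _
  push_cast
  nlinarith

open Classical in
/-- integers whose window of length `T` has few exact divisors in `(Q, 2Q]` -/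
noncomputable def badW (T Q l n : ℕ) : Finset ℕ :=
  (Icc 1 n).filter (fun N => ((wset T Q l N).card : ℝ) ≤ T / (64 * Real.log (2 * Q)))

/-- size bound for `badW` when `Q = T H` -/
lemma badW_bound : ∃ C : ℝ, 0 < C ∧ ∀ D : ℕ, 300 ≤ D → ∀ᶠ n : ℕ in atTop, ∀ T H l : ℕ,
    2 ≤ l → 2 ≤ T → 1 ≤ H → XX D n ^ 5 ≤ 4 * T → T ^ 10 ≤ n ^ 9 → (H:ℝ) ≤ 2 * XX D n ^ 5 →
    ((badW T (T * H) l n).card : ℝ) ≤ C * n * Real.log n / XX D n ^ 5 := by
  obtain ⟨Q0, hQ0⟩ := window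
  refine ⟨200000, by norm_num, ?_⟩
  intro D hD
  have hD0 : 0 < D := by omega
  filter_upwards [XX_ge hD0 (4 * Q0 + 4), eventually_ge_atTop 2] with n hX hn T H l hl hT hH hT1 hT2
    hH2
  obtain ⟨X, hXdef⟩ : ∃ X, X = XX D n := ⟨_, rfl⟩
  rw [← hXdef] at hX hT1 hH2 ⊢
  have hXD : X ^ D = n := by rw [hXdef]; exact XX_pow hD0 n
  have hQ0R : (0:ℝ) ≤ Q0 := Nat.cast_nonneg _
  have hX4 : 4 ≤ X := by linarith
  have hX1 : 1 ≤ X := by linarith
  have hX0 : 0 < X := by linarith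
  have hTR : (2:ℝ) ≤ T := by exact_mod_cast hT
  have hHR : (1:ℝ) ≤ H := by exact_mod_cast hH
  have hnR : (2:ℝ) ≤ n := by exact_mod_cast hn
  have hX5 : X ≤ X ^ 5 := le_self_pow₀ hX1 (by norm_num)
  have hQ0T : Q0 ≤ T * H := by
    have h1 : (Q0:ℝ) ≤ T := by linarith
    have h2 : Q0 ≤ T := by exact_mod_cast h1
    exact h2.trans (Nat.le_mul_of_pos_right _ hH)
  have hw := hQ0 n T (T * H) l hQ0T hl hT (Nat.le_mul_of_pos_right _ hH)
  have hTn : (T:ℝ) * X ^ 30 ≤ n := by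
    -- T^10 ≤ n^9 and X^300 ≤ n
    have h1 : ((T:ℝ) * X ^ 30) ^ 10 ≤ (n:ℝ) ^ 10 := by
      have e1 : ((T:ℝ)) ^ 10 ≤ (n:ℝ) ^ 9 := by exact_mod_cast hT2
      have e2 : (X ^ 30) ^ 10 ≤ n := by
        rw [← hXD, ← pow_mul]
        exact pow_le_pow_right₀ hX1 (by omega)
      rw [mul_pow]
      calc ((T:ℝ)) ^ 10 * (X ^ 30) ^ 10 ≤ (n:ℝ) ^ 9 * n :=
            mul_le_mul e1 e2 (by positivity) (by positivity)
        _ = (n:ℝ) ^ 10 := by ring
    exact le_of_pow_le_pow_left₀ (by norm_num) (by positivity) h1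
  have hlogQ : Real.log (2 * ((T * H : ℕ) : ℝ)) ≤ 4 * Real.log n := by
    have h1 : 2 * ((T * H : ℕ) : ℝ) ≤ (n:ℝ) ^ 4 := by
      push_cast
      have e1 : (H:ℝ) ≤ 2 * X ^ 30 := by
        have : X ^ 5 ≤ X ^ 30 := pow_le_pow_right₀ hX1 (by norm_num)
        linarith
      have e2 : (T:ℝ) * H ≤ 2 * n := by
        calc (T:ℝ) * H ≤ T * (2 * X ^ 30) := mul_le_mul_of_nonneg_left e1 (by positivity)
          _ = 2 * (T * X ^ 30) := by ring
          _ ≤ 2 * n := by linarith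
      have e3 : (4:ℝ) ≤ (n:ℝ) ^ 3 := by
        calc (4:ℝ) ≤ 2 ^ 3 := by norm_num
          _ ≤ (n:ℝ) ^ 3 := pow_le_pow_left₀ (by norm_num) hnR 3
      calc 2 * ((T:ℝ) * H) ≤ 4 * n := by linarith
        _ ≤ (n:ℝ) ^ 3 * n := mul_le_mul_of_nonneg_right e3 (by positivity)
        _ = (n:ℝ) ^ 4 := by ring
    have h2 := Real.log_le_log (by positivity) h1
    rw [Real.log_pow] at h2
    exact_mod_cast h2
  have hlogn : 0 ≤ Real.log n := Real.log_nonneg (by linarith)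
  unfold badW
  refine hw.trans ?_
  have hQ2 : (n:ℝ) + ((T * H : ℕ) : ℝ) ^ 2 ≤ (8 * n / X ^ 5) * T := by
    have e1 : (n:ℝ) ≤ (4 * n / X ^ 5) * T := by
      calc (n:ℝ) = (n / X ^ 5) * X ^ 5 := by field_simp
        _ ≤ (n / X ^ 5) * (4 * T) := mul_le_mul_of_nonneg_left hT1 (by positivity)
        _ = _ := by ring
    have e2 : ((T * H : ℕ) : ℝ) ^ 2 ≤ (4 * n / X ^ 5) * T := by
      push_cast
      have e3 : (H:ℝ) ^ 2 ≤ 4 * X ^ 10 := by
        calc (H:ℝ) ^ 2 ≤ (2 * X ^ 5) ^ 2 := pow_le_pow_left₀ (by positivity) hH2 2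
          _ = 4 * X ^ 10 := by ring
      calc ((T:ℝ) * H) ^ 2 = T ^ 2 * (H:ℝ) ^ 2 := by ring
        _ ≤ T ^ 2 * (4 * X ^ 10) := mul_le_mul_of_nonneg_left e3 (by positivity)
        _ = (4 * (T * X ^ 15) / X ^ 5) * T := by field_simp
        _ ≤ (4 * n / X ^ 5) * T := by
            apply mul_le_mul_of_nonneg_right _ (by positivity)
            apply div_le_div_of_nonneg_right _ (by positivity)
            have : (T:ℝ) * X ^ 15 ≤ T * X ^ 30 :=
              mul_le_mul_of_nonneg_left (pow_le_pow_right₀ hX1 (by norm_num)) (by positivity)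
            linarith
    calc (n:ℝ) + ((T * H : ℕ) : ℝ) ^ 2 ≤ (4 * n / X ^ 5) * T + (4 * n / X ^ 5) * T :=
          add_le_add e1 e2
      _ = _ := by ring
  calc 5000 * ((n:ℝ) + ((T * H : ℕ) : ℝ) ^ 2) * Real.log (2 * ((T * H : ℕ) : ℝ)) / T
      ≤ 5000 * ((8 * n / X ^ 5) * T) * (4 * Real.log n) / T := by
        apply div_le_div_of_nonneg_right _ (by positivity)
        apply mul_le_mul _ hlogQ _ (by positivity)
        · exact mul_le_mul_of_nonneg_left hQ2 (by norm_num)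
        · apply Real.log_nonneg
          have : (1:ℝ) ≤ ((T * H : ℕ) : ℝ) := by
            have : 1 ≤ T * H := Nat.mul_pos (by omega) hH
            exact_mod_cast this
          linarith
    _ = 160000 * n * Real.log n / X ^ 5 := by field_simp; norm_num; ring
    _ ≤ _ := by
        apply div_le_div_of_nonneg_right _ (by positivity)
        have : 0 ≤ (n:ℝ) * Real.log n := by positivity
        linarith

end Pool.Agent.Work.MP_0b7501_nt
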