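import Pool.Agent.Work.MP_0b7501_nt.Bad

/-!
More exceptional sets.
-/

namespace Pool.Agent.Work.MP_0b7501_nt

open Finset Filter

open Classical in
/-- exceptional set G -/
noncomputable def badG (D n : ℕ) : Finset ℕ :=
  ((range (Nat.log 2 n + 1)).filter (fun s => XX D n ^ 5 ≤ 4 * (2:ℝ) ^ s ∧ 1 ≤ s ∧
    (2 ^ s) ^ 10 ≤ n ^ 9)).biUnion (fun s =>
    (Icc 2 ⌊XX D n⌋₊).biUnion (fun l => badW (2 ^ s) (2 ^ s * (⌊XX D n ^ 5⌋₊ + 1)) l n))

lemma badG_bound (D : ℕ) (hD : 300 ≤ D) (ε : ℝ) (hε : 0 < ε) : ∀ᶠ n : ℕ in atTop,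
    ((badG D n).card : ℝ) ≤ ε * n := by
  classical
  obtain ⟨C, hC, hW⟩ := badW_bound
  have hD0 : 0 < D := by omega
  filter_upwards [hW D hD, small_of_saving hD0 (3 * C) 2 ε hε, XX_ge hD0 1, log_ge (B := 1),
    eventually_ge_atTop 1] with n h1 h2 h3 h4 h5
  obtain ⟨X, hXdef⟩ : ∃ X, X = XX D n := ⟨_, rfl⟩
  have hXe : XX D n = X := hXdef.symm
  rw [hXe] at h1 h2 h3
  have hX0 : 0 < X := by linarith
  have hnR : (0:ℝ) < n := by exact_mod_cast (by omega : 0 < n)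
  unfold badG
  rw [hXe]
  obtain ⟨M, hM⟩ : ∃ M, M = C * n * Real.log n / X ^ 5 := ⟨_, rfl⟩
  have hM0 : 0 ≤ M := by rw [hM]; positivity
  have hX5 : (1:ℝ) ≤ X ^ 5 := one_le_pow₀ h3
  have hH : ((⌊X ^ 5⌋₊ + 1 : ℕ) : ℝ) ≤ 2 * X ^ 5 := by
    push_cast
    have := Nat.floor_le (by positivity : 0 ≤ X ^ 5)
    linarith
  have step : ∀ s ∈ (range (Nat.log 2 n + 1)).filter (fun s => X ^ 5 ≤ 4 * (2:ℝ) ^ s ∧ 1 ≤ s ∧
      (2 ^ s) ^ 10 ≤ n ^ 9), (((Icc 2 ⌊X⌋₊).biUnion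
        (fun l => badW (2 ^ s) (2 ^ s * (⌊X ^ 5⌋₊ + 1)) l n)).card : ℝ) ≤ X * M := by
    intro s hs
    rw [mem_filter] at hs
    obtain ⟨_, hs1, hs2, hs3⟩ := hs
    have hT2 : 2 ≤ 2 ^ s := by
      calc 2 = 2 ^ 1 := by norm_num
        _ ≤ 2 ^ s := Nat.pow_le_pow_right (by norm_num) hs2
    calc (((Icc 2 ⌊X⌋₊).biUnion
          (fun l => badW (2 ^ s) (2 ^ s * (⌊X ^ 5⌋₊ + 1)) l n)).card : ℝ)
        ≤ ∑ l ∈ Icc 2 ⌊X⌋₊, ((badW (2 ^ s) (2 ^ s * (⌊X ^ 5⌋₊ + 1)) l n).card : ℝ) := by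
          exact_mod_cast Finset.card_biUnion_le
      _ ≤ ∑ l ∈ Icc 2 ⌊X⌋₊, M := by
          apply Finset.sum_le_sum
          intro l hl
          rw [mem_Icc] at hl
          rw [hM]
          exact h1 (2 ^ s) (⌊X ^ 5⌋₊ + 1) l hl.1 hT2 (by omega) (by push_cast; exact hs1) hs3 hH
      _ = ((Icc 2 ⌊X⌋₊).card : ℝ) * M := by rw [Finset.sum_const, nsmul_eq_mul]
      _ ≤ X * M := by
          apply mul_le_mul_of_nonneg_right _ hM0
          have e1 : (Icc 2 ⌊X⌋₊).card ≤ ⌊X⌋₊ := by rw [Nat.card_Icc]; omega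
          calc ((Icc 2 ⌊X⌋₊).card : ℝ) ≤ (⌊X⌋₊ : ℝ) := by exact_mod_cast e1
            _ ≤ X := Nat.floor_le hX0.le
  have hlog := log2_le n h5
  refine le_trans (b := ∑ s ∈ (range (Nat.log 2 n + 1)).filter (fun s => X ^ 5 ≤ 4 * (2:ℝ) ^ s ∧
      1 ≤ s ∧ (2 ^ s) ^ 10 ≤ n ^ 9), (((Icc 2 ⌊X⌋₊).biUnion
        (fun l => badW (2 ^ s) (2 ^ s * (⌊X ^ 5⌋₊ + 1)) l n)).card : ℝ)) ?_ ?_
  · exact_mod_cast Finset.card_biUnion_le
  refine (Finset.sum_le_sum step).trans ?_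
  rw [Finset.sum_const, nsmul_eq_mul]
  have e1 : (((range (Nat.log 2 n + 1)).filter (fun s => X ^ 5 ≤ 4 * (2:ℝ) ^ s ∧
      1 ≤ s ∧ (2 ^ s) ^ 10 ≤ n ^ 9)).card : ℝ) ≤ 3 * Real.log n := by
    have e2 : ((range (Nat.log 2 n + 1)).filter (fun s => X ^ 5 ≤ 4 * (2:ℝ) ^ s ∧
      1 ≤ s ∧ (2 ^ s) ^ 10 ≤ n ^ 9)).card ≤ Nat.log 2 n + 1 := by
      calc _ ≤ (range (Nat.log 2 n + 1)).card := Finset.card_filter_le _ _
        _ = _ := card_range _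
    have e3 : (((range (Nat.log 2 n + 1)).filter (fun s => X ^ 5 ≤ 4 * (2:ℝ) ^ s ∧
      1 ≤ s ∧ (2 ^ s) ^ 10 ≤ n ^ 9)).card : ℝ) ≤ ((Nat.log 2 n + 1 : ℕ) : ℝ) := by
      exact_mod_cast e2
    linarith
  refine (mul_le_mul_of_nonneg_right e1 (by positivity)).trans ?_
  refine le_trans ?_ h2
  rw [hM]
  have e4 : 3 * Real.log n * (X * (C * n * Real.log n / X ^ 5)) =
      (3 * C * n * Real.log n ^ 2) / X ^ 4 := by field_simp
  rw [e4]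
  apply div_le_div_of_nonneg_left (by positivity) hX0
  exact le_self_pow₀ h3 (by norm_num)

open Classical in
/-- integers `m = p v` such that `p w ∈ 𝒩 v` for some `w` -/
noncomputable def lift (D n : ℕ) (𝒩 : ℕ → Finset ℕ) : Finset ℕ :=
  (Icc 1 n).filter (fun m => ∃ p v w : ℕ, p.Prime ∧ m = p * v ∧ 1 ≤ v ∧ (v:ℝ) ≤ XX D n ∧
    n < 2 * m ∧ p * w ∈ 𝒩 v)

lemma lift_card (D n : ℕ) (𝒩 : ℕ → Finset ℕ) (h𝒩 : ∀ v, 𝒩 v ⊆ Icc 1 n)
    (hX : 4 * XX D n ^ 2 < n) :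
    (lift D n 𝒩).card ≤ ∑ v ∈ Icc 1 ⌊XX D n⌋₊, (𝒩 v).card := by
  classical
  have hX0 := XX_nonneg D n
  have hsub : lift D n 𝒩 ⊆ (Icc 1 ⌊XX D n⌋₊).biUnion (fun v => (𝒩 v).biUnion (fun N =>
      (Icc 1 n).filter (fun m => ∃ p, p.Prime ∧ m = p * v ∧ n < 2 * m ∧ p ∣ N))) := by
    intro m hm
    unfold lift at hm
    rw [mem_filter] at hm
    obtain ⟨hm1, p, v, w, hp, hmv, hv1, hvX, hn, hpw⟩ := hm
    rw [mem_biUnion]
    refine ⟨v, mem_Icc.mpr ⟨hv1, Nat.le_floor hvX⟩, ?_⟩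
    rw [mem_biUnion]
    refine ⟨p * w, hpw, ?_⟩
    rw [mem_filter]
    exact ⟨hm1, p, hp, hmv, hn, Dvd.intro _ rfl⟩
  refine (Finset.card_le_card hsub).trans (Finset.card_biUnion_le.trans ?_)
  apply Finset.sum_le_sum
  intro v hv
  rw [mem_Icc] at hv
  have hvX : (v:ℝ) ≤ XX D n := by
    have : (v:ℝ) ≤ (⌊XX D n⌋₊ : ℝ) := by exact_mod_cast hv.2
    exact this.trans (Nat.floor_le hX0)
  refine Finset.card_biUnion_le.trans ?_
  calc ∑ N ∈ 𝒩 v, ((Icc 1 n).filter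
        (fun m => ∃ p, p.Prime ∧ m = p * v ∧ n < 2 * m ∧ p ∣ N)).card
      ≤ ∑ N ∈ 𝒩 v, 1 := by
        apply Finset.sum_le_sum
        intro N hN
        have hN1 := mem_Icc.mp (h𝒩 v hN)
        rw [Finset.card_le_one]
        intro m hm m' hm'
        rw [mem_filter] at hm hm'
        obtain ⟨_, p, hp, rfl, hn, hpN⟩ := hm
        obtain ⟨_, p', hp', rfl, hn', hpN'⟩ := hm'
        by_contra hne
        have hpp : p ≠ p' := by rintro rfl; exact hne rfl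
        have hcop : Nat.Coprime p p' := (Nat.coprime_primes hp hp').mpr hpp
        have hdvd : p * p' ∣ N := hcop.mul_dvd_of_dvd_of_dvd hpN hpN'
        have hle : p * p' ≤ n := (Nat.le_of_dvd (by omega) hdvd).trans hN1.2
        have h1 : (n:ℝ) < 2 * (p * v) := by exact_mod_cast hn
        have h2 : (n:ℝ) < 2 * (p' * v) := by exact_mod_cast hn'
        have h3 : (p:ℝ) * p' ≤ n := by exact_mod_cast hle
        have hv0 : (0:ℝ) < v := by exact_mod_cast (by omega : 0 < v)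
        have hn0 : (0:ℝ) ≤ n := Nat.cast_nonneg n
        have h4 : (n:ℝ) * n ≤ (2 * (p * v)) * (2 * (p' * v)) :=
          mul_le_mul h1.le h2.le hn0 (by positivity)
        have h5 : (2 * ((p:ℝ) * v)) * (2 * (p' * v)) = 4 * (v:ℝ) ^ 2 * (p * p') := by ring
        have h6 : 4 * (v:ℝ) ^ 2 ≤ 4 * XX D n ^ 2 := by
          have := pow_le_pow_left₀ hv0.le hvX 2
          linarith
        have h7 : 4 * (v:ℝ) ^ 2 * (p * p') ≤ 4 * (v:ℝ) ^ 2 * n :=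
          mul_le_mul_of_nonneg_left h3 (by positivity)
        have hnpos : (0:ℝ) < n := by
          have : 0 ≤ 4 * XX D n ^ 2 := by positivity
          linarith
        have h8 : (n:ℝ) * n ≤ 4 * (v:ℝ) ^ 2 * n := by rw [h5] at h4; linarith
        have h9 : (n:ℝ) ≤ 4 * (v:ℝ) ^ 2 := le_of_mul_le_mul_right h8 hnpos
        linarith
    _ = (𝒩 v).card := by simp

lemma four_sq_lt {D : ℕ} (hD : 4 ≤ D) : ∀ᶠ n : ℕ in atTop, 4 * XX D n ^ 2 < n := by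
  filter_upwards [XX_ge (by omega : 0 < D) 5] with n hn
  have h1 : XX D n ^ D = n := XX_pow (by omega) n
  rw [← h1]
  calc 4 * XX D n ^ 2 < XX D n ^ 2 * XX D n ^ 2 := by
        rw [mul_comm]
        apply mul_lt_mul_of_pos_left _ (by positivity)
        nlinarith
    _ = XX D n ^ 4 := by ring
    _ ≤ XX D n ^ D := pow_le_pow_right₀ (by linarith) hD

open Classical in
/-- the windows used for the exceptional set B -/
noncomputable def setB (D n : ℕ) : Finset ℕ :=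
  (Icc 1 n).filter (fun N => ∃ s, s ∈ range (Nat.log 2 n + 1) ∧ XX D n ^ 5 ≤ 4 * (2:ℝ) ^ s ∧ 1 ≤ s ∧
    (2 ^ s) ^ 10 ≤ n ^ 9 ∧
    (N ∈ badW (2 ^ s) (2 ^ s * ⌈Real.log n ^ 2⌉₊) (2 ^ s) n ∨
     N + (2 ^ s - 1) ∈ badW (2 ^ s) (2 ^ s * ⌈Real.log n ^ 2⌉₊) (2 ^ s) n))

lemma badB_bound (D : ℕ) (hD : 300 ≤ D) (ε : ℝ) (hε : 0 < ε) : ∀ᶠ n : ℕ in atTop,
    ((lift D n (fun _ => setB D n)).card : ℝ) ≤ ε * n := by
  classical
  obtain ⟨C, hC, hW⟩ := badW_bound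
  have hD0 : 0 < D := by omega
  filter_upwards [hW D hD, small_of_saving hD0 (6 * C) 2 ε hε, XX_ge hD0 1, log_ge (B := 1),
    eventually_ge_atTop 1, four_sq_lt (by omega : 4 ≤ D), polylog_le hD0 1 2]
    with n h1 h2 h3 h4 h5 h6 h7
  have hlift := lift_card D n (fun _ => setB D n)
    (fun _ => Finset.filter_subset _ _) h6
  obtain ⟨X, hXdef⟩ : ∃ X, X = XX D n := ⟨_, rfl⟩
  have hXe : XX D n = X := hXdef.symm
  rw [hXe] at h1 h2 h3 h7 hlift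
  have hX0 : 0 < X := by linarith
  have hnR : (0:ℝ) < n := by exact_mod_cast (by omega : 0 < n)
  obtain ⟨M, hM⟩ : ∃ M, M = C * n * Real.log n / X ^ 5 := ⟨_, rfl⟩
  have hM0 : 0 ≤ M := by rw [hM]; positivity
  obtain ⟨H, hHdef⟩ : ∃ H, H = ⌈Real.log n ^ 2⌉₊ := ⟨_, rfl⟩
  have hlog2 : (1:ℝ) ≤ Real.log n ^ 2 := one_le_pow₀ h4
  have hH1 : 1 ≤ H := by
    rw [hHdef]; exact Nat.one_le_iff_ne_zero.mpr (by
      intro h0
      rw [Nat.ceil_eq_zero] at h0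
      linarith)
  have hH : (H : ℝ) ≤ 2 * X ^ 5 := by
    have e1 := Nat.ceil_lt_add_one (by positivity : 0 ≤ Real.log n ^ 2)
    rw [← hHdef] at e1
    have e2 : X ≤ X ^ 5 := le_self_pow₀ h3 (by norm_num)
    have e3 : (1:ℝ) ≤ X ^ 5 := one_le_pow₀ h3
    linarith
  -- count setB
  have hset : ((setB D n).card : ℝ) ≤ 3 * Real.log n * (2 * M) := by
    have hsub : setB D n ⊆ ((range (Nat.log 2 n + 1)).filter (fun s => X ^ 5 ≤ 4 * (2:ℝ) ^ s ∧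
        1 ≤ s ∧ (2 ^ s) ^ 10 ≤ n ^ 9)).biUnion (fun s =>
        badW (2 ^ s) (2 ^ s * H) (2 ^ s) n ∪
        (badW (2 ^ s) (2 ^ s * H) (2 ^ s) n).image (fun N => N - (2 ^ s - 1))) := by
      intro N hN
      unfold setB at hN
      rw [mem_filter, hXe, ← hHdef] at hN
      obtain ⟨hN1, s, hs0, hs1, hs2, hs3, hs4⟩ := hN
      rw [mem_biUnion]
      refine ⟨s, mem_filter.mpr ⟨hs0, hs1, hs2, hs3⟩, ?_⟩
      rw [mem_union]
      rcases hs4 with h | h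
      · left; exact h
      · right
        rw [mem_image]
        exact ⟨_, h, Nat.add_sub_cancel _ _⟩
    have step : ∀ s ∈ (range (Nat.log 2 n + 1)).filter (fun s => X ^ 5 ≤ 4 * (2:ℝ) ^ s ∧ 1 ≤ s ∧
        (2 ^ s) ^ 10 ≤ n ^ 9), ((badW (2 ^ s) (2 ^ s * H) (2 ^ s) n ∪
        (badW (2 ^ s) (2 ^ s * H) (2 ^ s) n).image (fun N => N - (2 ^ s - 1))).card : ℝ)
        ≤ 2 * M := by
      intro s hs
      rw [mem_filter] at hs
      obtain ⟨_, hs1, hs2, hs3⟩ := hs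
      have hT2 : 2 ≤ 2 ^ s := by
        calc 2 = 2 ^ 1 := by norm_num
          _ ≤ 2 ^ s := Nat.pow_le_pow_right (by norm_num) hs2
      have e1 := h1 (2 ^ s) H (2 ^ s) hT2 hT2 hH1 (by push_cast; exact hs1) hs3 hH
      rw [← hM] at e1
      have e2 := Finset.card_union_le (badW (2 ^ s) (2 ^ s * H) (2 ^ s) n)
        ((badW (2 ^ s) (2 ^ s * H) (2 ^ s) n).image (fun N => N - (2 ^ s - 1)))
      have e3 : ((badW (2 ^ s) (2 ^ s * H) (2 ^ s) n).image (fun N => N - (2 ^ s - 1))).card ≤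
        (badW (2 ^ s) (2 ^ s * H) (2 ^ s) n).card := Finset.card_image_le
      have e4 : ((badW (2 ^ s) (2 ^ s * H) (2 ^ s) n ∪
        (badW (2 ^ s) (2 ^ s * H) (2 ^ s) n).image (fun N => N - (2 ^ s - 1))).card : ℝ) ≤
        2 * ((badW (2 ^ s) (2 ^ s * H) (2 ^ s) n).card : ℝ) := by
        have : (badW (2 ^ s) (2 ^ s * H) (2 ^ s) n ∪
          (badW (2 ^ s) (2 ^ s * H) (2 ^ s) n).image (fun N => N - (2 ^ s - 1))).card ≤
          2 * (badW (2 ^ s) (2 ^ s * H) (2 ^ s) n).card := by omega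
        exact_mod_cast this
      linarith
    have hlog := log2_le n h5
    calc ((setB D n).card : ℝ) ≤ ∑ s ∈ (range (Nat.log 2 n + 1)).filter (fun s =>
          X ^ 5 ≤ 4 * (2:ℝ) ^ s ∧ 1 ≤ s ∧ (2 ^ s) ^ 10 ≤ n ^ 9),
          ((badW (2 ^ s) (2 ^ s * H) (2 ^ s) n ∪
          (badW (2 ^ s) (2 ^ s * H) (2 ^ s) n).image (fun N => N - (2 ^ s - 1))).card : ℝ) := by
          exact_mod_cast (Finset.card_le_card hsub).trans Finset.card_biUnion_le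
      _ ≤ ∑ s ∈ (range (Nat.log 2 n + 1)).filter (fun s =>
          X ^ 5 ≤ 4 * (2:ℝ) ^ s ∧ 1 ≤ s ∧ (2 ^ s) ^ 10 ≤ n ^ 9), 2 * M := Finset.sum_le_sum step
      _ = (((range (Nat.log 2 n + 1)).filter (fun s =>
          X ^ 5 ≤ 4 * (2:ℝ) ^ s ∧ 1 ≤ s ∧ (2 ^ s) ^ 10 ≤ n ^ 9)).card : ℝ) * (2 * M) := by
          rw [Finset.sum_const, nsmul_eq_mul]
      _ ≤ 3 * Real.log n * (2 * M) := by
          apply mul_le_mul_of_nonneg_right _ (by positivity)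
          have e2 : ((range (Nat.log 2 n + 1)).filter (fun s => X ^ 5 ≤ 4 * (2:ℝ) ^ s ∧
            1 ≤ s ∧ (2 ^ s) ^ 10 ≤ n ^ 9)).card ≤ Nat.log 2 n + 1 := by
            calc _ ≤ (range (Nat.log 2 n + 1)).card := Finset.card_filter_le _ _
              _ = _ := card_range _
          have e3 : (((range (Nat.log 2 n + 1)).filter (fun s => X ^ 5 ≤ 4 * (2:ℝ) ^ s ∧
            1 ≤ s ∧ (2 ^ s) ^ 10 ≤ n ^ 9)).card : ℝ) ≤ ((Nat.log 2 n + 1 : ℕ) : ℝ) := by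
            exact_mod_cast e2
          linarith
  rw [Finset.sum_const, Nat.card_Icc, Nat.add_sub_cancel, smul_eq_mul] at hlift
  have hliftR : ((lift D n (fun _ => setB D n)).card : ℝ) ≤ X * (3 * Real.log n * (2 * M)) := by
    calc ((lift D n (fun _ => setB D n)).card : ℝ) ≤ ((⌊X⌋₊ * (setB D n).card : ℕ) : ℝ) := by
          exact_mod_cast hlift
      _ = (⌊X⌋₊ : ℝ) * ((setB D n).card : ℝ) := by push_cast; rfl
      _ ≤ X * (3 * Real.log n * (2 * M)) :=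
          mul_le_mul (Nat.floor_le hX0.le) hset (Nat.cast_nonneg _) hX0.le
  refine hliftR.trans (le_trans ?_ h2)
  rw [hM]
  have e4 : X * (3 * Real.log n * (2 * (C * n * Real.log n / X ^ 5))) =
      (6 * C * n * Real.log n ^ 2) / X ^ 4 := by field_simp; norm_num
  rw [e4]
  apply div_le_div_of_nonneg_left (by positivity) hX0
  exact le_self_pow₀ h3 (by norm_num)

end Pool.Agent.Work.MP_0b7501_nt
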