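import Pool.Agent.Work.MP_0b7501_nt.Bad2

/-!
Exceptional sets for the case of a last interval of length one.
-/

namespace Pool.Agent.Work.MP_0b7501_nt

open Finset Filter

open Classical in
/-- integers with a large divisor built from primes `≤ y`, for some `y > K` -/
noncomputable def badE1 (K n : ℕ) : Finset ℕ :=
  (Icc 1 n).filter (fun m => ∃ y, K < y ∧ y ≤ n ∧ ∃ g, g ∣ m ∧ Squarefree g ∧
    (∀ q, q.Prime → q ∣ g → q ≤ y) ∧ Real.exp ((y:ℝ) / 8) < g)

lemma exp_tele (y : ℕ) (hy : 1 ≤ y) : Real.exp (-((y:ℝ) / 16)) ≤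
    16 * (Real.exp (-(((y - 1 : ℕ) : ℝ) / 16)) - Real.exp (-((y:ℝ) / 16))) := by
  have h1 : Real.exp (-(((y - 1 : ℕ) : ℝ) / 16)) = Real.exp (-((y:ℝ) / 16)) * Real.exp (1 / 16) := by
    rw [← Real.exp_add, Nat.cast_sub hy]
    congr 1
    push_cast
    ring
  rw [h1]
  have h2 := Real.add_one_le_exp (1 / 16 : ℝ)
  have h3 := Real.exp_pos (-((y:ℝ) / 16))
  nlinarith

lemma sum_exp_le (K n : ℕ) : ∑ y ∈ Ioc K n, Real.exp (-((y:ℝ) / 16)) ≤
    16 * Real.exp (-((K:ℝ) / 16)) := by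
  have h : ∀ m : ℕ, K ≤ m → ∑ y ∈ Ioc K m, Real.exp (-((y:ℝ) / 16)) ≤
      16 * (Real.exp (-((K:ℝ) / 16)) - Real.exp (-((m:ℝ) / 16))) := by
    intro m hm
    induction m, hm using Nat.le_induction with
    | base => simp
    | succ m hm ih =>
      rw [← Finset.insert_Ioc_right_eq_Ioc_add_one (by omega), Finset.sum_insert (by simp)]
      have := exp_tele (m + 1) (by omega)
      rw [Nat.add_sub_cancel] at this
      linarith
  by_cases hKn : K ≤ n
  · have h1 := h n hKn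
    have h2 := Real.exp_pos (-((n:ℝ) / 16))
    linarith
  · rw [Finset.Ioc_eq_empty (by omega), Finset.sum_empty]
    positivity

lemma badE1_bound (K n : ℕ) (hK : ∀ y : ℕ, K < y →
    (2:ℝ) ^ ((Ioc 0 y).filter Nat.Prime).card ≤ Real.exp ((y:ℝ) / 16)) :
    ((badE1 K n).card : ℝ) ≤ 16 * Real.exp (-((K:ℝ) / 16)) * n := by
  classical
  have hsub : badE1 K n ⊆ (Ioc K n).biUnion (fun y =>
      (((Ioc 0 y).filter Nat.Prime).powerset.filter
        (fun S => Real.exp ((y:ℝ) / 8) < ((∏ q ∈ S, q : ℕ) : ℝ))).biUnion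
      (fun S => (Icc 1 n).filter (fun m => (∏ q ∈ S, q) ∣ m))) := by
    intro m hm
    unfold badE1 at hm
    rw [mem_filter] at hm
    obtain ⟨hm1, y, hy1, hy2, g, hg1, hg2, hg3, hg4⟩ := hm
    rw [mem_biUnion]
    refine ⟨y, mem_Ioc.mpr ⟨hy1, hy2⟩, ?_⟩
    rw [mem_biUnion]
    have hprod : ∏ q ∈ g.primeFactors, q = g := Nat.prod_primeFactors_of_squarefree hg2
    refine ⟨g.primeFactors, ?_, ?_⟩
    · rw [mem_filter, mem_powerset, hprod]
      refine ⟨?_, hg4⟩
      intro q hq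
      have hqp := Nat.prime_of_mem_primeFactors hq
      rw [mem_filter, mem_Ioc]
      exact ⟨⟨hqp.pos, hg3 q hqp (Nat.dvd_of_mem_primeFactors hq)⟩, hqp⟩
    · rw [mem_filter, hprod]
      exact ⟨hm1, hg1⟩
  have hstep : ∀ y ∈ Ioc K n, ((((((Ioc 0 y).filter Nat.Prime).powerset.filter
        (fun S => Real.exp ((y:ℝ) / 8) < ((∏ q ∈ S, q : ℕ) : ℝ))).biUnion
      (fun S => (Icc 1 n).filter (fun m => (∏ q ∈ S, q) ∣ m))).card : ℕ) : ℝ) ≤
      n * Real.exp (-((y:ℝ) / 16)) := by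
    intro y hy
    rw [mem_Ioc] at hy
    calc ((((((Ioc 0 y).filter Nat.Prime).powerset.filter
        (fun S => Real.exp ((y:ℝ) / 8) < ((∏ q ∈ S, q : ℕ) : ℝ))).biUnion
      (fun S => (Icc 1 n).filter (fun m => (∏ q ∈ S, q) ∣ m))).card : ℕ) : ℝ)
        ≤ ∑ S ∈ (((Ioc 0 y).filter Nat.Prime).powerset.filter
        (fun S => Real.exp ((y:ℝ) / 8) < ((∏ q ∈ S, q : ℕ) : ℝ))),
        (((Icc 1 n).filter (fun m => (∏ q ∈ S, q) ∣ m)).card : ℝ) := by
          exact_mod_cast Finset.card_biUnion_le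
      _ ≤ ∑ S ∈ (((Ioc 0 y).filter Nat.Prime).powerset.filter
        (fun S => Real.exp ((y:ℝ) / 8) < ((∏ q ∈ S, q : ℕ) : ℝ))),
        (n * Real.exp (-((y:ℝ) / 8))) := by
          apply Finset.sum_le_sum
          intro S hS
          rw [mem_filter, mem_powerset] at hS
          have hpos : 0 < ∏ q ∈ S, q := by
            apply Finset.prod_pos
            intro q hq
            have := hS.1 hq
            rw [mem_filter] at this
            exact this.2.pos
          refine (card_mult_le n _ hpos).trans ?_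
          rw [div_eq_mul_inv]
          apply mul_le_mul_of_nonneg_left _ (Nat.cast_nonneg n)
          rw [Real.exp_neg]
          exact inv_anti₀ (Real.exp_pos _) hS.2.le
      _ = ((((Ioc 0 y).filter Nat.Prime).powerset.filter
        (fun S => Real.exp ((y:ℝ) / 8) < ((∏ q ∈ S, q : ℕ) : ℝ))).card : ℝ) *
        (n * Real.exp (-((y:ℝ) / 8))) := by rw [Finset.sum_const, nsmul_eq_mul]
      _ ≤ (2:ℝ) ^ ((Ioc 0 y).filter Nat.Prime).card * (n * Real.exp (-((y:ℝ) / 8))) := by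
          apply mul_le_mul_of_nonneg_right _ (by positivity)
          have h1 := Finset.card_filter_le ((Ioc 0 y).filter Nat.Prime).powerset
            (fun S => Real.exp ((y:ℝ) / 8) < ((∏ q ∈ S, q : ℕ) : ℝ))
          rw [Finset.card_powerset] at h1
          exact_mod_cast h1
      _ ≤ Real.exp ((y:ℝ) / 16) * (n * Real.exp (-((y:ℝ) / 8))) :=
          mul_le_mul_of_nonneg_right (hK y hy.1) (by positivity)
      _ = n * (Real.exp ((y:ℝ) / 16) * Real.exp (-((y:ℝ) / 8))) := by ring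
      _ = n * Real.exp (-((y:ℝ) / 16)) := by
          rw [← Real.exp_add]
          congr 2
          ring
  calc ((badE1 K n).card : ℝ) ≤ ∑ y ∈ Ioc K n, ((((((Ioc 0 y).filter Nat.Prime).powerset.filter
        (fun S => Real.exp ((y:ℝ) / 8) < ((∏ q ∈ S, q : ℕ) : ℝ))).biUnion
      (fun S => (Icc 1 n).filter (fun m => (∏ q ∈ S, q) ∣ m))).card : ℕ) : ℝ) := by
        exact_mod_cast (Finset.card_le_card hsub).trans Finset.card_biUnion_le
    _ ≤ ∑ y ∈ Ioc K n, n * Real.exp (-((y:ℝ) / 16)) := Finset.sum_le_sum hstep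
    _ = n * ∑ y ∈ Ioc K n, Real.exp (-((y:ℝ) / 16)) := by rw [Finset.mul_sum]
    _ ≤ n * (16 * Real.exp (-((K:ℝ) / 16))) :=
        mul_le_mul_of_nonneg_left (sum_exp_le K n) (Nat.cast_nonneg n)
    _ = _ := by ring

open Classical in
/-- integers of the form `t x²` with small `t` -/
noncomputable def setJ (D e n : ℕ) : Finset ℕ :=
  (Icc 1 n).filter (fun j => ∃ t x : ℕ, j = t * x ^ 2 ∧ (t:ℝ) ≤ XX D n ^ e)

lemma setJ_card (e n : ℕ) (he : 1 ≤ e) :
    ((setJ (6 * e) e n).card : ℝ) ≤ XX (6 * e) n ^ (4 * e) := by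
  classical
  have hX0 := XX_nonneg (6 * e) n
  have hXD : XX (6 * e) n ^ (6 * e) = n := XX_pow (by omega) n
  obtain ⟨X, hX⟩ : ∃ X, X = XX (6 * e) n := ⟨_, rfl⟩
  rw [← hX] at hX0 hXD ⊢
  have hsub : setJ (6 * e) e n ⊆ ((Icc 1 ⌊X ^ e⌋₊) ×ˢ (Icc 1 ⌊X ^ (3 * e)⌋₊)).image
      (fun p => p.1 * p.2 ^ 2) := by
    intro j hj
    unfold setJ at hj
    rw [mem_filter, mem_Icc] at hj
    obtain ⟨⟨hj1, hj2⟩, t, x, rfl, ht⟩ := hj
    rw [← hX] at ht
    rw [mem_image]
    have ht0 : 0 < t := by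
      rcases Nat.eq_zero_or_pos t with h | h
      · subst h; simp at hj1
      · exact h
    have hx0 : 0 < x := by
      rcases Nat.eq_zero_or_pos x with h | h
      · subst h; simp at hj1
      · exact h
    refine ⟨(t, x), ?_, rfl⟩
    rw [mem_product, mem_Icc, mem_Icc]
    refine ⟨⟨ht0, Nat.le_floor ht⟩, hx0, Nat.le_floor ?_⟩
    have h1 : x ^ 2 ≤ n := by
      calc x ^ 2 ≤ t * x ^ 2 := Nat.le_mul_of_pos_left _ ht0
        _ ≤ n := hj2
    have h2 : (x:ℝ) ^ 2 ≤ (X ^ (3 * e)) ^ 2 := by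
      rw [← pow_mul, show 3 * e * 2 = 6 * e by ring, hXD]
      exact_mod_cast h1
    exact le_of_pow_le_pow_left₀ (by norm_num) (by positivity) h2
  have h1 := (Finset.card_le_card hsub).trans Finset.card_image_le
  rw [card_product, Nat.card_Icc, Nat.card_Icc, Nat.add_sub_cancel, Nat.add_sub_cancel] at h1
  calc ((setJ (6 * e) e n).card : ℝ) ≤ ((⌊X ^ e⌋₊ * ⌊X ^ (3 * e)⌋₊ : ℕ) : ℝ) := by exact_mod_cast h1
    _ = (⌊X ^ e⌋₊ : ℝ) * (⌊X ^ (3 * e)⌋₊ : ℝ) := by push_cast; rfl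
    _ ≤ X ^ e * X ^ (3 * e) := mul_le_mul (Nat.floor_le (by positivity))
        (Nat.floor_le (by positivity)) (Nat.cast_nonneg _) (by positivity)
    _ = X ^ (4 * e) := by rw [← pow_add]; congr 1; ring

open Classical in
/-- integers close to an element of `setJ` -/
noncomputable def setE3 (D e n : ℕ) : Finset ℕ :=
  (Icc 1 n).filter (fun N => ∃ j ∈ setJ D e n, N ≤ j + ⌊XX D n ^ 5⌋₊ ∧ j ≤ N + ⌊XX D n ^ 5⌋₊)

lemma badE3_bound (e : ℕ) (he : 4 ≤ e) (ε : ℝ) (hε : 0 < ε) : ∀ᶠ n : ℕ in atTop,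
    ((lift (6 * e) n (fun _ => setE3 (6 * e) e n)).card : ℝ) ≤ ε * n := by
  classical
  have hD0 : 0 < 6 * e := by omega
  filter_upwards [XX_ge hD0 (3 / ε + 1), four_sq_lt (by omega : 4 ≤ 6 * e)] with n h1 h2
  have hlift := lift_card (6 * e) n (fun _ => setE3 (6 * e) e n)
    (fun _ => Finset.filter_subset _ _) h2
  have hJ := setJ_card e n (by omega)
  have hXD : XX (6 * e) n ^ (6 * e) = n := XX_pow hD0 n
  obtain ⟨X, hXdef⟩ : ∃ X, X = XX (6 * e) n := ⟨_, rfl⟩
  have hXe : XX (6 * e) n = X := hXdef.symm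
  rw [hXe] at h1 hlift hJ hXD
  have hε3 : 0 < 3 / ε := by positivity
  have hX1 : 1 ≤ X := by linarith
  have hX0 : 0 < X := by linarith
  have hsub : setE3 (6 * e) e n ⊆ (setJ (6 * e) e n).biUnion (fun j =>
      Icc (j - ⌊X ^ 5⌋₊) (j + ⌊X ^ 5⌋₊)) := by
    intro N hN
    unfold setE3 at hN
    rw [mem_filter, hXe] at hN
    obtain ⟨_, j, hj, h3, h4⟩ := hN
    rw [mem_biUnion]
    exact ⟨j, hj, mem_Icc.mpr ⟨by omega, h3⟩⟩
  have hX5 : (1:ℝ) ≤ X ^ 5 := one_le_pow₀ hX1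
  have hcard : ((setE3 (6 * e) e n).card : ℝ) ≤ X ^ (4 * e) * (3 * X ^ 5) := by
    calc ((setE3 (6 * e) e n).card : ℝ) ≤ ∑ j ∈ setJ (6 * e) e n,
          (((Icc (j - ⌊X ^ 5⌋₊) (j + ⌊X ^ 5⌋₊)).card : ℕ) : ℝ) := by
          exact_mod_cast (Finset.card_le_card hsub).trans Finset.card_biUnion_le
      _ ≤ ∑ j ∈ setJ (6 * e) e n, (3 * X ^ 5) := by
          apply Finset.sum_le_sum
          intro j _
          rw [Nat.card_Icc]
          have e1 : j + ⌊X ^ 5⌋₊ + 1 - (j - ⌊X ^ 5⌋₊) ≤ 2 * ⌊X ^ 5⌋₊ + 1 := by omega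
          have e2 : ((j + ⌊X ^ 5⌋₊ + 1 - (j - ⌊X ^ 5⌋₊) : ℕ) : ℝ) ≤ 2 * (⌊X ^ 5⌋₊ : ℝ) + 1 := by
            exact_mod_cast e1
          have e3 := Nat.floor_le (by positivity : 0 ≤ X ^ 5)
          linarith
      _ = ((setJ (6 * e) e n).card : ℝ) * (3 * X ^ 5) := by rw [Finset.sum_const, nsmul_eq_mul]
      _ ≤ _ := mul_le_mul_of_nonneg_right hJ (by positivity)
  rw [Finset.sum_const, Nat.card_Icc, Nat.add_sub_cancel, smul_eq_mul] at hlift
  calc ((lift (6 * e) n (fun _ => setE3 (6 * e) e n)).card : ℝ)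
      ≤ ((⌊X⌋₊ * (setE3 (6 * e) e n).card : ℕ) : ℝ) := by exact_mod_cast hlift
    _ = (⌊X⌋₊ : ℝ) * ((setE3 (6 * e) e n).card : ℝ) := by push_cast; rfl
    _ ≤ X * (X ^ (4 * e) * (3 * X ^ 5)) :=
        mul_le_mul (Nat.floor_le hX0.le) hcard (Nat.cast_nonneg _) hX0.le
    _ = 3 * X ^ (4 * e + 6) := by ring
    _ ≤ (ε * X) * X ^ (4 * e + 6) := by
        apply mul_le_mul_of_nonneg_right _ (by positivity)
        have : 3 / ε ≤ X := by linarith
        rw [div_le_iff₀ hε] at this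
        linarith
    _ = ε * X ^ (4 * e + 7) := by ring
    _ ≤ ε * X ^ (6 * e) := by
        apply mul_le_mul_of_nonneg_left _ hε.le
        exact pow_le_pow_right₀ hX1 (by omega)
    _ = ε * n := by rw [hXD]

/-- residues allowed by the middle interval -/
def Rset (q L : ℕ) : Finset ℕ :=
  (range L).image (fun h => h % q) ∪ (range L).image (fun h => (q - h % q) % q)

lemma Rset_card (q L : ℕ) : (Rset q L).card ≤ 2 * L := by
  unfold Rset
  refine (Finset.card_union_le _ _).trans ?_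
  have h1 := Finset.card_image_le (s := range L) (f := fun h => h % q)
  have h2 := Finset.card_image_le (s := range L) (f := fun h => (q - h % q) % q)
  rw [card_range] at h1 h2
  omega

lemma mem_Rset_of {q L N j : ℕ} (hq : 0 < q) (hd : q ∣ j) (h1 : N < j + L) (h2 : j < N + L) :
    N % q ∈ Rset q L := by
  unfold Rset
  rw [mem_union, mem_image, mem_image]
  rcases le_total j N with h | h
  · left
    refine ⟨N - j, mem_range.mpr (by omega), ?_⟩
    obtain ⟨k, rfl⟩ := hd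
    have e1 : N = (N - q * k) + q * k := by omega
    conv_rhs => rw [e1]
    rw [Nat.add_mul_mod_self_left]
  · right
    refine ⟨j - N, mem_range.mpr (by omega), ?_⟩
    have e1 : (N + (j - N)) % q = 0 := by
      rw [Nat.add_sub_cancel' h]; exact Nat.mod_eq_zero_of_dvd hd
    rw [Nat.add_mod] at e1
    have e2 : N % q < q := Nat.mod_lt _ hq
    have e3 : (j - N) % q < q := Nat.mod_lt _ hq
    rcases Nat.eq_zero_or_pos ((j - N) % q) with h0 | h0
    · rw [h0, Nat.sub_zero, Nat.mod_self]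
      rw [h0, Nat.add_zero, Nat.mod_mod] at e1
      exact e1.symm
    · have e4 : q ∣ N % q + (j - N) % q := Nat.dvd_of_mod_eq_zero e1
      obtain ⟨k, hk⟩ := e4
      have hk1 : k < 2 := by
        by_contra hcon
        push Not at hcon
        have : q * 2 ≤ q * k := Nat.mul_le_mul_left _ hcon
        omega
      interval_cases k
      · omega
      · rw [mul_one] at hk
        rw [Nat.mod_eq_of_lt (by omega)]
        omega

open Classical in
/-- integers excluded by the larger sieve -/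
noncomputable def setE4 (v y L n : ℕ) : Finset ℕ :=
  (Icc 1 n).filter (fun N => ∀ q, q.Prime → y / 2 < q → q ≤ y → ¬ q ∣ v → N % q ∈ Rset q L)

lemma setE4_card (v y L n Xl : ℕ) (hXl : 1 ≤ Xl) (hL : 1 ≤ L)
    (hlogX : Real.log Xl ≤ Real.log n / 640) (hlogn : 640 ≤ Real.log n)
    (hy : (L:ℝ) * Real.log n ≤ 20 * y)
    (hΘ : (y:ℝ) / 8 ≤ ∑ q ∈ ((Ioc (y / 2) y).filter Nat.Prime).filter (fun q => ¬ q ∣ v),
      Real.log q) :
    ((setE4 v y L n).card : ℝ) ≤ ((n:ℝ) / Xl + 1) * (1.4 * y) := by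
  classical
  obtain ⟨S, hS⟩ : ∃ S, S = ((Ioc (y / 2) y).filter Nat.Prime).filter (fun q => ¬ q ∣ v) := ⟨_, rfl⟩
  rw [← hS] at hΘ
  have hSf : ∀ q ∈ S, y / 2 < q ∧ q ≤ y ∧ q.Prime ∧ ¬ q ∣ v := by
    intro q hq; rw [hS, mem_filter, mem_filter, mem_Ioc] at hq
    exact ⟨hq.1.1.1, hq.1.1.2, hq.1.2, hq.2⟩
  have hLR : (1:ℝ) ≤ L := by exact_mod_cast hL
  -- upper bound for the weight
  have hΘup : ∑ q ∈ S, Real.log q ≤ 1.4 * y := by
    refine le_trans ?_ (theta_nat_le y)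
    apply Finset.sum_le_sum_of_subset_of_nonneg
    · intro q hq
      have := hSf q hq
      rw [mem_filter, mem_Ioc]
      exact ⟨⟨this.2.2.1.pos, this.2.1⟩, this.2.2.1⟩
    · intro q hq _; exact log_pos_of_mem hq
  have hblock : ∀ k ∈ range (n / Xl + 1),
      (((setE4 v y L n).filter (fun N => N / Xl = k)).card : ℝ) ≤ 1.4 * y := by
    intro k _
    have hls := larger_sieve ((setE4 v y L n).filter (fun N => N / Xl = k)) Xl hXl (by
      intro a ha b hb hab
      rw [mem_filter] at ha hb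
      have h1 := Nat.div_add_mod a Xl
      have h2 := Nat.div_add_mod b Xl
      rw [ha.2] at h1
      rw [hb.2] at h2
      have h3 := Nat.mod_lt b (by omega : 0 < Xl)
      omega) S (fun q hq => (hSf q hq).2.2.1) (2 * L) (by linarith) (fun q => Rset q L)
      (fun q _ => by exact_mod_cast Rset_card q L) (by
      intro q hq a ha
      rw [mem_filter] at ha
      unfold setE4 at ha
      rw [mem_filter] at ha
      have := hSf q hq
      exact ha.1.2 q this.2.2.1 this.1 this.2.1 this.2.2.2)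
    have h1 : 1 ≤ (∑ q ∈ S, Real.log q) / (2 * L) - Real.log Xl := by
      have h2 : Real.log n / 320 ≤ (∑ q ∈ S, Real.log q) / (2 * L) := by
        rw [le_div_iff₀ (by positivity)]
        calc Real.log n / 320 * (2 * L) = (L * Real.log n) / 160 := by ring
          _ ≤ (20 * y) / 160 := div_le_div_of_nonneg_right hy (by norm_num)
          _ = y / 8 := by ring
          _ ≤ _ := hΘ
      linarith
    calc (((setE4 v y L n).filter (fun N => N / Xl = k)).card : ℝ)
        = (((setE4 v y L n).filter (fun N => N / Xl = k)).card : ℝ) * 1 := by rw [mul_one]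
      _ ≤ (((setE4 v y L n).filter (fun N => N / Xl = k)).card : ℝ) *
          ((∑ q ∈ S, Real.log q) / (2 * L) - Real.log Xl) :=
          mul_le_mul_of_nonneg_left h1 (Nat.cast_nonneg _)
      _ ≤ ∑ q ∈ S, Real.log q := hls
      _ ≤ 1.4 * y := hΘup
  have hcard : (setE4 v y L n).card = ∑ k ∈ range (n / Xl + 1),
      ((setE4 v y L n).filter (fun N => N / Xl = k)).card := by
    apply Finset.card_eq_sum_card_fiberwise
    intro N hN
    have hN' : N ∈ setE4 v y L n := hN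
    unfold setE4 at hN'
    rw [mem_filter, mem_Icc] at hN'
    simp only [coe_range, Set.mem_Iio]
    have := Nat.div_le_div_right (c := Xl) hN'.1.2
    omega
  rw [hcard]
  push_cast
  refine (Finset.sum_le_sum hblock).trans ?_
  rw [Finset.sum_const, card_range, nsmul_eq_mul]
  apply mul_le_mul_of_nonneg_right _ (by positivity)
  push_cast
  have : ((n / Xl : ℕ) : ℝ) ≤ (n:ℝ) / Xl := Nat.cast_div_le
  linarith

end Pool.Agent.Work.MP_0b7501_nt
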