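import Pool.Agent.Work.MP_0b7501_nt.Bad3

/-!
The union of the larger sieve sets.
-/

namespace Pool.Agent.Work.MP_0b7501_nt

open Finset Filter

open Classical in
noncomputable def setE4U (D n v : ℕ) : Finset ℕ :=
  (Icc 1 n).filter (fun N => ∃ y L : ℕ, 1 ≤ L ∧ (L:ℝ) ≤ XX D n ^ 5 ∧ (y:ℝ) ≤ XX D n ^ 6 ∧
    (L:ℝ) * Real.log n ≤ 20 * y ∧ N ∈ setE4 v y L n)

lemma badE4_bound (f : ℕ) (hf : 7 ≤ f) (ε : ℝ) (hε : 0 < ε) : ∀ᶠ n : ℕ in atTop,
    ((lift (1920 * f) n (fun v => setE4U (1920 * f) n v)).card : ℝ) ≤ ε * n := by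
  classical
  obtain ⟨Y0, hY0⟩ := eventually_atTop.mp (primes_short (1/2) (by norm_num) (by norm_num))
  have hD0 : 0 < 1920 * f := by omega
  filter_upwards [XX_ge hD0 (17 / ε + 3), four_sq_lt (by omega : 4 ≤ 1920 * f),
    log_ge (B := 640), log_ge (B := 20 * Y0), eventually_ge_atTop 1] with n h1 h2 h3 h4 h5
  have hlift := lift_card (1920 * f) n (fun v => setE4U (1920 * f) n v)
    (fun _ => Finset.filter_subset _ _) h2
  have hXD : XX (1920 * f) n ^ (1920 * f) = n := XX_pow hD0 n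
  have hlogX := log_eq_XX hD0 n
  obtain ⟨X, hXdef⟩ : ∃ X, X = XX (1920 * f) n := ⟨_, rfl⟩
  have hXe : XX (1920 * f) n = X := hXdef.symm
  rw [hXe] at h1 hlift hXD hlogX
  have hε3 : 0 < 17 / ε := by positivity
  have hX3 : 3 ≤ X := by linarith
  have hX1 : 1 ≤ X := by linarith
  have hX0 : 0 < X := by linarith
  have hlX : 0 ≤ Real.log X := Real.log_nonneg hX1
  have hnR : (0:ℝ) < n := by exact_mod_cast (by omega : 0 < n)
  obtain ⟨Xl, hXl⟩ : ∃ Xl, Xl = ⌊X ^ (3 * f)⌋₊ := ⟨_, rfl⟩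
  have hX3f : (1:ℝ) ≤ X ^ (3 * f) := one_le_pow₀ hX1
  have hXl1 : 1 ≤ Xl := by rw [hXl]; exact Nat.le_floor (by exact_mod_cast hX3f)
  have hXlR : (1:ℝ) ≤ Xl := by exact_mod_cast hXl1
  have hXl2 : X ^ (3 * f) ≤ 2 * Xl := by
    have := Nat.lt_floor_add_one (X ^ (3 * f))
    rw [← hXl] at this
    linarith
  have hXl3 : (Xl:ℝ) ≤ X ^ (3 * f) := by rw [hXl]; exact Nat.floor_le (by positivity)
  have hlogXl : Real.log Xl ≤ Real.log n / 640 := by
    have e1 := Real.log_le_log (by linarith) hXl3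
    rw [Real.log_pow] at e1
    rw [hlogX]
    push_cast at e1 ⊢
    linarith
  -- bound for one v
  have hone : ∀ v ∈ Icc 1 ⌊X⌋₊, ((setE4U (1920 * f) n v).card : ℝ) ≤
      (2 * X ^ 6) * (X ^ 5 * (3 * n / X ^ (3 * f) * (1.4 * X ^ 6))) := by
    intro v hv
    rw [mem_Icc] at hv
    have hvX : (v:ℝ) ≤ X := by
      have : (v:ℝ) ≤ (⌊X⌋₊ : ℝ) := by exact_mod_cast hv.2
      exact this.trans (Nat.floor_le hX0.le)
    have hsub : setE4U (1920 * f) n v ⊆ (range (⌊X ^ 6⌋₊ + 1)).biUnion (fun y =>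
        (Icc 1 ⌊X ^ 5⌋₊).biUnion (fun L => if (L:ℝ) * Real.log n ≤ 20 * y then
          setE4 v y L n else ∅)) := by
      intro N hN
      unfold setE4U at hN
      rw [mem_filter, hXe] at hN
      obtain ⟨_, y, L, hL1, hL2, hy1, hy2, hN2⟩ := hN
      rw [mem_biUnion]
      refine ⟨y, mem_range.mpr (Nat.lt_succ_of_le (Nat.le_floor hy1)), ?_⟩
      rw [mem_biUnion]
      refine ⟨L, mem_Icc.mpr ⟨hL1, Nat.le_floor hL2⟩, ?_⟩
      rw [if_pos hy2]
      exact hN2
    have hin : ∀ y ∈ range (⌊X ^ 6⌋₊ + 1), ∀ L ∈ Icc 1 ⌊X ^ 5⌋₊,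
        ((if (L:ℝ) * Real.log n ≤ 20 * y then setE4 v y L n else ∅).card : ℝ) ≤
        3 * n / X ^ (3 * f) * (1.4 * X ^ 6) := by
      intro y hy L hL
      rw [mem_range] at hy
      rw [mem_Icc] at hL
      split_ifs with hc
      · have hLR : (1:ℝ) ≤ L := by exact_mod_cast hL.1
        have hyX : (y:ℝ) ≤ X ^ 6 := by
          have : (y:ℝ) ≤ (⌊X ^ 6⌋₊ : ℝ) := by exact_mod_cast (by omega : y ≤ ⌊X ^ 6⌋₊)
          exact this.trans (Nat.floor_le (by positivity))
        have hy20 : Real.log n ≤ 20 * y := by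
          have : 1 * Real.log n ≤ L * Real.log n := mul_le_mul_of_nonneg_right hLR (by linarith)
          linarith
        have hyY : Y0 ≤ y := by
          have : (Y0:ℝ) ≤ y := by linarith
          exact_mod_cast this
        have hΘ : (y:ℝ) / 8 ≤ ∑ q ∈ ((Ioc (y / 2) y).filter Nat.Prime).filter
            (fun q => ¬ q ∣ v), Real.log q := by
          have e1 := hY0 y hyY (y / 2) (by
            have : ((y / 2 : ℕ) : ℝ) ≤ (y : ℝ) / 2 := Nat.cast_div_le
            linarith)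
          have e2 := Finset.sum_filter_add_sum_filter_not ((Ioc (y / 2) y).filter Nat.Prime)
            (fun q => q ∣ v) (fun q : ℕ => Real.log q)
          have e3 : ∑ q ∈ ((Ioc (y / 2) y).filter Nat.Prime).filter (fun q => q ∣ v),
              Real.log q ≤ Real.log X := by
            rw [Finset.sum_filter]
            refine (sum_log_dvd_le _ (fun q hq => (mem_filter.mp hq).2) v v hv.1 le_rfl).trans ?_
            apply Real.log_le_log _ hvX
            exact_mod_cast hv.1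
          have e4 : Real.log X ≤ y / 8 := by
            have e5 : 13440 * Real.log X ≤ Real.log n := by
              rw [hlogX]
              apply mul_le_mul_of_nonneg_right _ hlX
              have : 1920 * 7 ≤ 1920 * f := Nat.mul_le_mul_left _ hf
              exact_mod_cast this
            linarith
          linarith
        refine (setE4_card v y L n Xl hXl1 hL.1 hlogXl h3 hc hΘ).trans ?_
        apply mul_le_mul _ _ (by positivity) (by positivity)
        · have e1 : (n:ℝ) / Xl ≤ 2 * n / X ^ (3 * f) := by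
            rw [div_le_div_iff₀ (by linarith) (by positivity)]
            calc (n:ℝ) * X ^ (3 * f) ≤ n * (2 * Xl) := mul_le_mul_of_nonneg_left hXl2 hnR.le
              _ = 2 * n * Xl := by ring
          have e2 : (1:ℝ) ≤ n / X ^ (3 * f) := by
            rw [le_div_iff₀ (by positivity), one_mul, ← hXD]
            exact pow_le_pow_right₀ hX1 (by omega)
          have e3 : 3 * (n:ℝ) / X ^ (3 * f) = 2 * n / X ^ (3 * f) + n / X ^ (3 * f) := by ring
          rw [e3]
          linarith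
        · linarith
      · simp only [card_empty, Nat.cast_zero]
        positivity
    calc ((setE4U (1920 * f) n v).card : ℝ) ≤ ∑ y ∈ range (⌊X ^ 6⌋₊ + 1),
          (((Icc 1 ⌊X ^ 5⌋₊).biUnion (fun L => if (L:ℝ) * Real.log n ≤ 20 * y then
          setE4 v y L n else ∅)).card : ℝ) := by
          exact_mod_cast (Finset.card_le_card hsub).trans Finset.card_biUnion_le
      _ ≤ ∑ y ∈ range (⌊X ^ 6⌋₊ + 1), X ^ 5 * (3 * n / X ^ (3 * f) * (1.4 * X ^ 6)) := by
          apply Finset.sum_le_sum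
          intro y hy
          calc (((Icc 1 ⌊X ^ 5⌋₊).biUnion (fun L => if (L:ℝ) * Real.log n ≤ 20 * y then
              setE4 v y L n else ∅)).card : ℝ) ≤ ∑ L ∈ Icc 1 ⌊X ^ 5⌋₊,
              ((if (L:ℝ) * Real.log n ≤ 20 * y then setE4 v y L n else ∅).card : ℝ) := by
                exact_mod_cast Finset.card_biUnion_le
            _ ≤ ∑ L ∈ Icc 1 ⌊X ^ 5⌋₊, 3 * n / X ^ (3 * f) * (1.4 * X ^ 6) :=
                Finset.sum_le_sum (hin y hy)
            _ = (⌊X ^ 5⌋₊ : ℝ) * (3 * n / X ^ (3 * f) * (1.4 * X ^ 6)) := by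
                rw [Finset.sum_const, Nat.card_Icc, Nat.add_sub_cancel, nsmul_eq_mul]
            _ ≤ _ := mul_le_mul_of_nonneg_right (Nat.floor_le (by positivity)) (by positivity)
      _ = ((⌊X ^ 6⌋₊ + 1 : ℕ) : ℝ) * (X ^ 5 * (3 * n / X ^ (3 * f) * (1.4 * X ^ 6))) := by
          rw [Finset.sum_const, card_range, nsmul_eq_mul]
      _ ≤ _ := by
          apply mul_le_mul_of_nonneg_right _ (by positivity)
          push_cast
          have e1 := Nat.floor_le (by positivity : 0 ≤ X ^ 6)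
          have e2 : (1:ℝ) ≤ X ^ 6 := one_le_pow₀ hX1
          linarith
  calc ((lift (1920 * f) n (fun v => setE4U (1920 * f) n v)).card : ℝ)
      ≤ ∑ v ∈ Icc 1 ⌊X⌋₊, ((setE4U (1920 * f) n v).card : ℝ) := by exact_mod_cast hlift
    _ ≤ ∑ v ∈ Icc 1 ⌊X⌋₊, (2 * X ^ 6) * (X ^ 5 * (3 * n / X ^ (3 * f) * (1.4 * X ^ 6))) :=
        Finset.sum_le_sum hone
    _ = (⌊X⌋₊ : ℝ) * ((2 * X ^ 6) * (X ^ 5 * (3 * n / X ^ (3 * f) * (1.4 * X ^ 6)))) := by
        rw [Finset.sum_const, Nat.card_Icc, Nat.add_sub_cancel, nsmul_eq_mul]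
    _ ≤ X * ((2 * X ^ 6) * (X ^ 5 * (3 * n / X ^ (3 * f) * (1.4 * X ^ 6)))) :=
        mul_le_mul_of_nonneg_right (Nat.floor_le hX0.le) (by positivity)
    _ = (8.4 * X ^ 18 / X ^ (3 * f)) * n := by ring
    _ ≤ ε * n := by
        apply mul_le_mul_of_nonneg_right _ hnR.le
        rw [div_le_iff₀ (by positivity)]
        calc 8.4 * X ^ 18 ≤ (ε * X) * X ^ 18 := by
              apply mul_le_mul_of_nonneg_right _ (by positivity)
              have : 17 / ε ≤ X := by linarith
              rw [div_le_iff₀ hε] at this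
              linarith
          _ = ε * X ^ 19 := by ring
          _ ≤ ε * X ^ (3 * f) := by
              apply mul_le_mul_of_nonneg_left _ hε.le
              exact pow_le_pow_right₀ hX1 (by omega)

end Pool.Agent.Work.MP_0b7501_nt
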