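import Pool.Agent.Work.MP_0b7501_nt.BT

/-!
Basic arithmetic of products over intervals: exponents, binomial coefficients, primes with a
multiple in an interval.
-/

namespace Pool.Agent.Work.MP_0b7501_nt

open Finset

/-- exponent of `q` in the product of the integers in `(lo, hi]` -/
def ev (q lo hi : ℕ) : ℕ := ∑ j ∈ Ioc lo hi, j.factorization q

lemma ev_add {q lo mid hi : ℕ} (h1 : lo ≤ mid) (h2 : mid ≤ hi) :
    ev q lo mid + ev q mid hi = ev q lo hi := by
  unfold ev
  rw [← Finset.sum_union (by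
    rw [Finset.disjoint_left]; intro j hj hj'
    rw [mem_Ioc] at hj hj'; omega)]
  congr 1
  exact Ioc_union_Ioc_eq_Ioc h1 h2

lemma ev_zero_eq (q n : ℕ) : ev q 0 n = (n.factorial).factorization q := by
  induction n with
  | zero => simp [ev]
  | succ n ih =>
    have h := ev_add (q := q) (Nat.zero_le n) (Nat.le_succ n)
    rw [Nat.factorial_succ, Nat.factorization_mul (Nat.succ_ne_zero n) (Nat.factorial_ne_zero n),
      Finsupp.add_apply, ← ih, ← h, add_comm]
    congr 1
    unfold ev
    have : Ioc n n.succ = {n + 1} := by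
      ext j; simp only [mem_Ioc, mem_singleton]; omega
    rw [this, Finset.sum_singleton]

lemma ev_eq_zero {q lo hi : ℕ} (h : ∀ j ∈ Ioc lo hi, ¬ q ∣ j) : ev q lo hi = 0 := by
  unfold ev
  apply Finset.sum_eq_zero
  intro j hj
  exact Nat.factorization_eq_zero_of_not_dvd (h j hj)

lemma ev_eq_single {q lo hi N : ℕ} (hq : hi - lo < q) (hN : N ∈ Ioc lo hi) (hd : q ∣ N) :
    ev q lo hi = N.factorization q := by
  unfold ev
  apply Finset.sum_eq_single_of_mem N hN
  intro j hj hne
  apply Nat.factorization_eq_zero_of_not_dvd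
  intro hqj
  rw [mem_Ioc] at hN hj
  rcases lt_or_gt_of_ne hne with h | h
  · have h1 : q ∣ N - j := Nat.dvd_sub hd hqj
    have h2 := Nat.le_of_dvd (by omega) h1
    omega
  · have h1 : q ∣ j - N := Nat.dvd_sub hqj hd
    have h2 := Nat.le_of_dvd (by omega) h1
    omega

/-- for large primes the exponent is at most one -/
lemma ev_le_one {q lo hi : ℕ} (hq : q.Prime) (h1 : hi - lo < q) (h2 : hi < q ^ 2) :
    ev q lo hi ≤ 1 := by
  by_cases h : ∃ j ∈ Ioc lo hi, q ∣ j
  · obtain ⟨N, hN, hd⟩ := h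
    rw [ev_eq_single h1 hN hd]
    by_contra hcon
    push Not at hcon
    have h3 : q ^ 2 ∣ N := by
      have := Nat.ordProj_dvd N q
      exact (pow_dvd_pow q hcon).trans this
    rw [mem_Ioc] at hN
    have := Nat.le_of_dvd (by omega) h3
    omega
  · push Not at h
    rw [ev_eq_zero h]
    omega

lemma ev_eq_one_iff {q lo hi : ℕ} (hq : q.Prime) (h1 : hi - lo < q) (h2 : hi < q ^ 2) :
    ev q lo hi = 1 ↔ ∃ j ∈ Ioc lo hi, q ∣ j := by
  constructor
  · intro h
    by_contra hcon
    push Not at hcon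
    rw [ev_eq_zero hcon] at h
    omega
  · rintro ⟨N, hN, hd⟩
    have h3 := ev_le_one hq h1 h2
    rw [ev_eq_single h1 hN hd] at h3 ⊢
    rw [mem_Ioc] at hN
    have h4 : 0 < N.factorization q := hq.factorization_pos_of_dvd (by omega) hd
    omega

/-- primes `q > z` with a multiple in `(lo, hi]`, weighted by `log q` -/
noncomputable def PS (z lo hi : ℕ) : Finset ℕ :=
  (Ioc z hi).filter (fun q => q.Prime ∧ ∃ j ∈ Ioc lo hi, q ∣ j)

noncomputable def W (z lo hi : ℕ) : ℝ := ∑ q ∈ PS z lo hi, Real.log q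

lemma mem_PS {z lo hi q : ℕ} : q ∈ PS z lo hi ↔
    (z < q ∧ q ≤ hi) ∧ q.Prime ∧ ∃ j ∈ Ioc lo hi, q ∣ j := by
  unfold PS
  rw [mem_filter, mem_Ioc]

lemma mem_PS_of {z lo hi q : ℕ} (hz : z < q) (hq : q.Prime) (h : ∃ j ∈ Ioc lo hi, q ∣ j) :
    q ∈ PS z lo hi := by
  rw [mem_PS]
  refine ⟨⟨hz, ?_⟩, hq, h⟩
  obtain ⟨j, hj, hd⟩ := h
  rw [mem_Ioc] at hj
  have := Nat.le_of_dvd (by omega) hd
  omega

lemma dvd_descFactorial {lo hi j : ℕ} (hj : j ∈ Ioc lo hi) :
    j ∣ hi.descFactorial (hi - lo) := by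
  rw [Nat.descFactorial_eq_prod_range]
  rw [mem_Ioc] at hj
  have : hi - (hi - j) = j := by omega
  rw [← this]
  exact Finset.dvd_prod_of_mem (fun i => hi - i) (mem_range.mpr (by omega))

lemma prime_dvd_choose_of {q lo hi : ℕ} (hq : q.Prime) (hl : hi - lo < q)
    (h : ∃ j ∈ Ioc lo hi, q ∣ j) : q ∣ hi.choose (hi - lo) := by
  obtain ⟨j, hj, hd⟩ := h
  have h1 : q ∣ hi.descFactorial (hi - lo) := hd.trans (dvd_descFactorial hj)
  rw [Nat.descFactorial_eq_factorial_mul_choose] at h1
  rcases (hq.dvd_mul).mp h1 with h2 | h2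
  · rw [hq.dvd_factorial] at h2
    omega
  · exact h2

lemma exists_dvd_of_dvd_choose {q lo hi : ℕ} (hq : q.Prime) (hlo : lo ≤ hi)
    (h : q ∣ hi.choose (hi - lo)) : ∃ j ∈ Ioc lo hi, q ∣ j := by
  have h1 : q ∣ hi.descFactorial (hi - lo) := by
    rw [Nat.descFactorial_eq_factorial_mul_choose]
    exact h.mul_left _
  rw [Nat.descFactorial_eq_prod_range, hq.prime.dvd_finset_prod_iff] at h1
  obtain ⟨i, hi', hd⟩ := h1
  rw [mem_range] at hi'
  exact ⟨hi - i, by rw [mem_Ioc]; omega, hd⟩

lemma choose_pos' {lo hi : ℕ} : 0 < hi.choose (hi - lo) :=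
  Nat.choose_pos (Nat.sub_le _ _)

lemma W_le {z lo hi : ℕ} (hz : hi - lo ≤ z) : W z lo hi ≤ Real.log (hi.choose (hi - lo)) := by
  unfold W
  have h1 : ∑ q ∈ PS z lo hi, Real.log q = Real.log (∏ q ∈ PS z lo hi, (q : ℝ)) := by
    rw [Real.log_prod]
    intro q hq
    have := (mem_PS.mp hq).2.1.pos
    exact_mod_cast this.ne'
  rw [h1]
  have h2 : (∏ q ∈ PS z lo hi, q) ∣ hi.choose (hi - lo) := by
    apply Finset.prod_primes_dvd
    · intro q hq
      exact (mem_PS.mp hq).2.1.prime
    · intro q hq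
      have h3 := mem_PS.mp hq
      exact prime_dvd_choose_of h3.2.1 (by omega) h3.2.2
  have h3 := Nat.le_of_dvd choose_pos' h2
  apply Real.log_le_log
  · apply Finset.prod_pos
    intro q hq
    have := (mem_PS.mp hq).2.1.pos
    exact_mod_cast this
  · calc (∏ q ∈ PS z lo hi, (q : ℝ)) = ((∏ q ∈ PS z lo hi, q : ℕ) : ℝ) := by push_cast; rfl
      _ ≤ _ := by exact_mod_cast h3

lemma W_nonneg (z lo hi : ℕ) : 0 ≤ W z lo hi := by
  unfold W
  apply Finset.sum_nonneg
  intro q hq
  have := (mem_PS.mp hq).2.1.one_lt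
  exact Real.log_nonneg (by exact_mod_cast this.le)

lemma W_ge {lo hi : ℕ} (hlo : lo ≤ hi) (h : hi < (hi - lo + 1) ^ 2) :
    Real.log (hi.choose (hi - lo)) ≤
      ((Ioc 0 (hi - lo)).filter Nat.Prime).card * Real.log hi + W (hi - lo) lo hi := by
  set l := hi - lo with hl
  rcases Nat.eq_zero_or_pos hi with h0 | hpos
  · subst h0
    have : l = 0 := by omega
    rw [this]
    simp
    exact W_nonneg _ _ _
  have h1 : Real.log (hi.choose l) = ∑ p ∈ range (hi + 1),
      ((hi.choose l).factorization p : ℝ) * Real.log p := by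
    conv_lhs => rw [← Nat.prod_pow_factorization_choose hi l (Nat.sub_le _ _)]
    push_cast
    rw [Real.log_prod]
    · apply Finset.sum_congr rfl
      intro p _
      rw [Real.log_pow]
    · intro p hp hz
      rw [pow_eq_zero_iff'] at hz
      obtain ⟨hp0, hf⟩ := hz
      have hp0' : p = 0 := by exact_mod_cast hp0
      subst hp0'
      simp at hf
  rw [h1]
  have h2 : ∀ p ∈ range (hi + 1), ((hi.choose l).factorization p : ℝ) * Real.log p ≤
      (if p ∈ (Ioc 0 l).filter Nat.Prime then Real.log hi else 0) +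
      (if p ∈ PS l lo hi then Real.log p else 0) := by
    intro p hp
    rw [mem_range] at hp
    have hlogp : 0 ≤ (if p ∈ PS l lo hi then Real.log p else 0) := by
      split_ifs with hh
      · exact Real.log_nonneg (by exact_mod_cast (mem_PS.mp hh).2.1.one_lt.le)
      · exact le_rfl
    have hlogh : 0 ≤ (if p ∈ (Ioc 0 l).filter Nat.Prime then Real.log hi else 0) := by
      split_ifs
      · exact Real.log_nonneg (by exact_mod_cast hpos)
      · exact le_rfl
    by_cases hpp : p.Prime
    · by_cases hpl : p ≤ l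
      · have hmem : p ∈ (Ioc 0 l).filter Nat.Prime := by
          rw [mem_filter, mem_Ioc]; exact ⟨⟨hpp.pos, hpl⟩, hpp⟩
        rw [if_pos hmem]
        have h3 := Nat.pow_factorization_choose_le (p := p) (k := l) hpos
        have h4 : ((hi.choose l).factorization p : ℝ) * Real.log p ≤ Real.log hi := by
          rw [← Real.log_pow]
          apply Real.log_le_log
          · have := hpp.pos; positivity
          · exact_mod_cast h3
        linarith
      · push Not at hpl
        have h3 : (hi.choose l).factorization p ≤ 1 := by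
          apply Nat.factorization_choose_le_one
          calc hi < (l + 1) ^ 2 := h
            _ ≤ p ^ 2 := Nat.pow_le_pow_left hpl 2
        by_cases hd : p ∣ hi.choose l
        · have hmem : p ∈ PS l lo hi := by
            rw [mem_PS]
            exact ⟨⟨hpl, by omega⟩, hpp, exists_dvd_of_dvd_choose hpp hlo hd⟩
          rw [if_pos hmem]
          have h4 : ((hi.choose l).factorization p : ℝ) ≤ 1 := by exact_mod_cast h3
          have h5 : 0 ≤ Real.log p := Real.log_nonneg (by exact_mod_cast hpp.one_lt.le)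
          nlinarith
        · rw [Nat.factorization_eq_zero_of_not_dvd hd]
          simp only [Nat.cast_zero, zero_mul]
          linarith
    · rw [Nat.factorization_eq_zero_of_not_prime _ hpp]
      simp only [Nat.cast_zero, zero_mul]
      linarith
  refine (Finset.sum_le_sum h2).trans ?_
  rw [Finset.sum_add_distrib]
  apply add_le_add
  · rw [← Finset.sum_filter, Finset.sum_const, nsmul_eq_mul]
    apply mul_le_mul_of_nonneg_right _ (Real.log_nonneg (by exact_mod_cast hpos))
    have : ((range (hi + 1)).filter (fun p => p ∈ (Ioc 0 l).filter Nat.Prime)) ⊆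
        (Ioc 0 l).filter Nat.Prime := by
      intro p hp; rw [mem_filter] at hp; exact hp.2
    exact_mod_cast Finset.card_le_card this
  · rw [← Finset.sum_filter]
    unfold W
    apply Finset.sum_le_sum_of_subset_of_nonneg
    · intro p hp; rw [mem_filter] at hp; exact hp.2
    · intro q hq _
      exact Real.log_nonneg (by exact_mod_cast (mem_PS.mp hq).2.1.one_lt.le)

lemma log_choose_le (n k : ℕ) (ρ : ℝ) (hρ : 0 < ρ) (hk : k ≤ n) :
    Real.log (n.choose k) ≤ ρ * n - k * Real.log ρ := by
  have h1 : (n.choose k : ℝ) * ρ ^ k ≤ (ρ + 1) ^ n := by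
    rw [add_pow]
    have := Finset.single_le_sum (f := fun m => ρ ^ m * (1:ℝ) ^ (n - m) * (n.choose m : ℝ))
      (s := range (n + 1)) (fun m _ => by positivity) (mem_range.mpr (by omega : k < n + 1))
    simp only [one_pow, mul_one] at this ⊢
    linarith
  have h2 : (ρ + 1) ^ n ≤ Real.exp (ρ * n) := by
    rw [mul_comm, Real.exp_nat_mul]
    exact pow_le_pow_left₀ (by positivity) (Real.add_one_le_exp ρ) n
  have h3 : 0 < (n.choose k : ℝ) := by exact_mod_cast Nat.choose_pos hk
  have h4 : Real.log (n.choose k * ρ ^ k) ≤ ρ * n := by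
    rw [Real.log_le_iff_le_exp (by positivity)]
    exact h1.trans h2
  rw [Real.log_mul h3.ne' (by positivity), Real.log_pow] at h4
  linarith

lemma log_choose_ge (n k : ℕ) (hk : 1 ≤ k) (hkn : k ≤ n) :
    k * Real.log (((n + 1 - k : ℕ) : ℝ) / k) ≤ Real.log (n.choose k) := by
  have h1 := Nat.pow_le_choose (α := ℝ) k n
  have h2 : (0:ℝ) < k := by exact_mod_cast hk
  have h3 : (0:ℝ) < ((n + 1 - k : ℕ) : ℝ) := by
    have : 0 < n + 1 - k := by omega
    exact_mod_cast this
  rw [← Real.log_pow]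
  apply Real.log_le_log (by positivity)
  refine le_trans ?_ h1
  rw [div_pow]
  apply div_le_div_of_nonneg_left (by positivity) (by positivity)
  exact_mod_cast Nat.factorial_le_pow k

end Pool.Agent.Work.MP_0b7501_nt
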