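import Mathlib
import Pool.Agent.Work.MP_0b7501_nt.BlockE1

/-!
The `k`-th difference test with a power saving (helper70, block E of MP_0b7501_nt).
-/

set_option autoImplicit false

namespace Pool.Agent.Work.MP_0b7501_nt

open Finset Complex

/-- iterated forward differences -/
def Dk : ℕ → (ℕ → ℝ) → ℕ → ℝ
  | 0, f => f
  | k + 1, f => fun n => Dk k f (n + 1) - Dk k f n

lemma Dk_zero (f : ℕ → ℝ) (n : ℕ) : Dk 0 f n = f n := rfl
lemma Dk_succ (k : ℕ) (f : ℕ → ℝ) (n : ℕ) : Dk (k + 1) f n = Dk k f (n + 1) - Dk k f n := rfl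

lemma Dk_shift (k : ℕ) (f : ℕ → ℝ) (h n : ℕ) :
    Dk k (fun n => f (n + h) - f n) n = Dk k f (n + h) - Dk k f n := by
  induction k generalizing n with
  | zero => rfl
  | succ k ih =>
    rw [Dk_succ, ih, ih, Dk_succ, Dk_succ]
    rw [show n + 1 + h = n + h + 1 by ring]
    ring

lemma Dk_tele (k : ℕ) (f : ℕ → ℝ) (h n : ℕ) :
    Dk k f (n + h) - Dk k f n = ∑ i ∈ range h, Dk (k + 1) f (n + i) := by
  induction h with
  | zero => simp
  | succ h ih =>
    rw [sum_range_succ, ← ih, Dk_succ]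
    rw [show n + (h + 1) = n + h + 1 by ring]
    ring

/-- the class of phases: `k`-th difference of size `lam`, with `(k+1)`-st difference of
constant sign -/
def Cls (k : ℕ) (f : ℕ → ℝ) (M : ℕ) (lam a : ℝ) : Prop :=
  ∃ σ τ : ℝ, (σ = 1 ∨ σ = -1) ∧ (τ = 1 ∨ τ = -1) ∧
    ∀ n < M, lam ≤ σ * Dk k f n ∧ σ * Dk k f n ≤ a * lam ∧ 0 ≤ τ * Dk (k + 1) f n

lemma Cls_diff {k : ℕ} {f : ℕ → ℝ} {M : ℕ} {lam a : ℝ} (hc : Cls (k + 1) f M lam a) (h : ℕ) :
    Cls k (fun n => f (n + h) - f n) (M - h) (h * lam) a := by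
  obtain ⟨σ, τ, hσ, hτ, H⟩ := hc
  refine ⟨σ, τ, hσ, hτ, ?_⟩
  intro n hn
  refine ⟨?_, ?_, ?_⟩
  · rw [Dk_shift, Dk_tele, mul_sum]
    calc (h : ℝ) * lam = ∑ _i ∈ range h, lam := by simp
      _ ≤ _ := sum_le_sum fun i hi => (H (n + i) (by rw [mem_range] at hi; omega)).1
  · rw [Dk_shift, Dk_tele, mul_sum]
    calc _ ≤ ∑ _i ∈ range h, a * lam :=
          sum_le_sum fun i hi => (H (n + i) (by rw [mem_range] at hi; omega)).2.1
      _ = a * (h * lam) := by simp; ring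
  · rw [Dk_shift, Dk_tele, mul_sum]
    exact sum_nonneg fun i hi => (H (n + i) (by rw [mem_range] at hi; omega)).2.2

/-- the statement of the `k`-th difference test -/
def SB (k : ℕ) : Prop := ∀ a β : ℝ, 1 ≤ a → 0 < β → β ≤ 1 → ∃ C c : ℝ, 1 ≤ C ∧ 0 < c ∧ c ≤ 1 ∧
  ∀ N : ℝ, 1 ≤ N → ∀ M : ℕ, (M : ℝ) ≤ 2 * N → ∀ lam : ℝ, N ^ (-(3 / 2) : ℝ) ≤ lam →
    lam ≤ N ^ (-β) → ∀ f : ℕ → ℝ, Cls k f M lam a →
      ‖∑ n ∈ range M, ex (f n)‖ ≤ C * N ^ (1 - c)

lemma norm_sum_ex_le (f : ℕ → ℝ) (M : ℕ) : ‖∑ n ∈ range M, ex (f n)‖ ≤ M := by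
  refine (norm_sum_le _ _).trans ?_
  simp [norm_ex]

lemma corr_eq (f : ℕ → ℝ) (M h : ℕ) :
    ∑ n ∈ range (M - h), ex (f (n + h)) * (starRingEnd ℂ) (ex (f n)) =
      ∑ n ∈ range (M - h), ex (f (n + h) - f n) :=
  sum_congr rfl fun n _ => (ex_sub_conj _ _).symm

lemma sum_inv_le (H : ℕ) : ∑ h ∈ Ico 1 H, (1 : ℝ) / h ≤ 1 + Real.log (max 1 H) := by
  rcases Nat.lt_or_ge H 2 with h | h
  · rw [Ico_eq_empty (by omega)]
    simp only [sum_empty]
    have : 0 ≤ Real.log (max 1 (H : ℝ)) := Real.log_nonneg (le_max_left _ _)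
    linarith
  · have h1 : ∑ h ∈ Ico 1 H, (1 : ℝ) / h = ((harmonic (H - 1) : ℚ) : ℝ) := by
      rw [harmonic_eq_sum_Icc]
      push_cast
      have : Ico 1 H = Icc 1 (H - 1) := by ext x; simp only [mem_Ico, mem_Icc]; omega
      rw [this]
      exact sum_congr rfl fun x _ => one_div _
    rw [h1]
    refine (harmonic_le_one_add_log _).trans ?_
    have : Real.log ((H - 1 : ℕ) : ℝ) ≤ Real.log (max 1 (H : ℝ)) := by
      apply Real.log_le_log
      · exact_mod_cast (by omega : 0 < H - 1)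
      · refine le_trans ?_ (le_max_right _ _)
        exact_mod_cast (by omega : H - 1 ≤ H)
    linarith

theorem SB_two : SB 2 := by
  intro a β ha hβ hβ1
  set γ := min β (1 / 4) with hγ
  have hγ0 : 0 < γ := lt_min hβ (by norm_num)
  have hγβ : γ ≤ β := min_le_left _ _
  have hγ4 : γ ≤ 1 / 4 := min_le_right _ _
  set C0 : ℝ := 2 * (2 * a) ^ (1 / β) with hC0
  have hC0' : 1 ≤ C0 := by
    have : (1 : ℝ) ≤ (2 * a) ^ (1 / β) := Real.one_le_rpow (by linarith) (by positivity)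
    linarith
  refine ⟨max (72 + 144 * a) C0, γ / 2, ?_, by positivity, by linarith, ?_⟩
  · exact hC0'.trans (le_max_right _ _)
  intro N hN M hM lam hl1 hl2 f hf
  have hN0 : 0 < N := by linarith
  have hlam : 0 < lam := lt_of_lt_of_le (Real.rpow_pos_of_pos hN0 _) hl1
  have hNpow : 1 ≤ N ^ (1 - γ / 2) := Real.one_le_rpow hN (by linarith)
  by_cases hcase : 2 * a * N ^ (-β) ≤ 1
  swap
  · push Not at hcase
    have h1 : N ^ β < 2 * a := by
      rw [Real.rpow_neg hN0.le] at hcase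
      have hp : 0 < N ^ β := Real.rpow_pos_of_pos hN0 _
      have := mul_lt_mul_of_pos_right hcase hp
      rw [one_mul, mul_assoc, inv_mul_cancel₀ hp.ne', mul_one] at this
      exact this
    have h2 : N ≤ (2 * a) ^ (1 / β) := by
      have h3 : (N ^ β) ^ (1 / β) ≤ (2 * a) ^ (1 / β) :=
        Real.rpow_le_rpow (by positivity) h1.le (by positivity)
      rw [← Real.rpow_mul hN0.le, mul_one_div_cancel hβ.ne', Real.rpow_one] at h3
      exact h3
    calc ‖∑ n ∈ range M, ex (f n)‖ ≤ M := norm_sum_ex_le f M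
      _ ≤ 2 * N := hM
      _ ≤ C0 := by rw [hC0]; linarith
      _ ≤ max (72 + 144 * a) C0 * 1 := by rw [mul_one]; exact le_max_right _ _
      _ ≤ _ := by
        apply mul_le_mul_of_nonneg_left hNpow
        exact le_trans (by linarith) (le_max_right _ _)
  -- main case
  have hal : 2 * a * lam ≤ 1 := by
    refine le_trans ?_ hcase
    apply mul_le_mul_of_nonneg_left hl2; linarith
  set x : ℝ := min N (1 / (2 * a * lam)) with hx
  have hx1 : 1 ≤ x := le_min hN (by rw [le_div_iff₀ (by positivity)]; linarith)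
  set H : ℕ := ⌊x⌋₊ with hH
  have hH1 : 1 ≤ H := by rw [hH]; exact Nat.le_floor (by exact_mod_cast hx1)
  have hHx : (H : ℝ) ≤ x := Nat.floor_le (by linarith)
  have hHN : (H : ℝ) ≤ N := hHx.trans (min_le_left _ _)
  have hHl : (H : ℝ) ≤ 1 / (2 * a * lam) := hHx.trans (min_le_right _ _)
  have hHx2 : x ≤ 2 * H := by
    have h1 : x < H + 1 := Nat.lt_floor_add_one x
    have h2 : (1 : ℝ) ≤ H := by exact_mod_cast hH1
    linarith
  have hHpos : (0 : ℝ) < H := by exact_mod_cast hH1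
  have hvdc := weyl_vdc (fun n => ex (f n)) M H hH1 (fun n => (norm_ex _).le)
    (fun h => 1 / (h * lam)) (by
      intro h h1 hh
      rw [corr_eq]
      have hcl := Cls_diff hf h
      obtain ⟨σ, τ, hσ, hτ, hcl⟩ := hcl
      have hhpos : (0 : ℝ) < h := by exact_mod_cast h1
      apply kusmin_landau' (fun n => f (n + h) - f n) (M - h) (h * lam) (by positivity) σ hσ
        (fun n hn => (hcl n hn).1) ?_ τ hτ ?_
      · intro n hn
        refine (hcl n hn).2.1.trans ?_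
        have h3 : (h : ℝ) ≤ H := by exact_mod_cast hh.le
        have h4 : (H : ℝ) * (2 * a * lam) ≤ 1 := by
          rw [le_div_iff₀ (by positivity)] at hHl; exact hHl
        have h5 : (h : ℝ) * (2 * a * lam) ≤ H * (2 * a * lam) :=
          mul_le_mul_of_nonneg_right h3 (by positivity)
        nlinarith
      · intro n hn
        exact (hcl n hn).2.2)
  set S := ‖∑ n ∈ range M, ex (f n)‖ with hS
  have hlogN : 1 + Real.log N ≤ 5 * N ^ (1 / 4 : ℝ) := by
    have h1 := Real.log_le_rpow_div hN0.le (show (0 : ℝ) < 1 / 4 by norm_num)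
    have h2 : 1 ≤ N ^ (1 / 4 : ℝ) := Real.one_le_rpow hN (by norm_num)
    linarith
  have hlog0 : 0 ≤ Real.log N := Real.log_nonneg hN
  have hsumle : ∑ h ∈ Ico 1 H, 1 / ((h : ℝ) * lam) ≤ (1 + Real.log N) / lam := by
    have h1 : ∑ h ∈ Ico 1 H, 1 / ((h : ℝ) * lam) = (∑ h ∈ Ico 1 H, 1 / (h : ℝ)) / lam := by
      rw [sum_div]
      exact sum_congr rfl fun h _ => by rw [div_div]
    rw [h1]
    apply div_le_div_of_nonneg_right _ hlam.le
    refine (sum_inv_le H).trans ?_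
    have : Real.log (max 1 (H : ℝ)) ≤ Real.log N := Real.log_le_log (by positivity)
      (max_le hN hHN)
    linarith
  have hMN : ((M : ℝ) + H) ≤ 3 * N := by linarith
  have h1 : (H : ℝ) * S ^ 2 ≤ 3 * N * (2 * N + 2 * ((1 + Real.log N) / lam)) := by
    refine hvdc.trans ?_
    apply mul_le_mul hMN _ _ (by positivity)
    · linarith
    · have : 0 ≤ ∑ h ∈ Ico 1 H, 1 / ((h : ℝ) * lam) := sum_nonneg fun _ _ => by positivity
      positivity
  -- 1/H ≤ 2/N + 4 a lam
  have hHinv : 1 / (H : ℝ) ≤ 2 / N + 4 * a * lam := by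
    have h2 : 1 / (H : ℝ) ≤ 2 / x := by
      rw [div_le_div_iff₀ hHpos (by linarith)]; linarith
    have h3 : 1 / x ≤ 1 / N + 2 * a * lam := by
      rcases min_choice N (1 / (2 * a * lam)) with h | h
      · rw [hx, h]; have : 0 ≤ 2 * a * lam := by positivity
        linarith
      · rw [hx, h, one_div_one_div]
        have : 0 ≤ 1 / N := by positivity
        linarith
    have h4 : 2 / x = 2 * (1 / x) := by ring
    have h5 : 2 / N = 2 * (1 / N) := by ring
    rw [h4] at h2; rw [h5]; linarith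
  have h6 : S ^ 2 ≤ (2 / N + 4 * a * lam) * (3 * N * (2 * N + 2 * ((1 + Real.log N) / lam))) := by
    have e : S ^ 2 = 1 / (H : ℝ) * (H * S ^ 2) := by field_simp
    rw [e]
    apply mul_le_mul hHinv h1 (by positivity) (by positivity)
  have h7 : (2 / N + 4 * a * lam) * (3 * N * (2 * N + 2 * ((1 + Real.log N) / lam))) =
      12 * N + 12 * (1 + Real.log N) * (1 / lam) + 24 * a * (N ^ 2 * lam) +
        24 * a * N * (1 + Real.log N) := by
    field_simp
    ring
  rw [h7] at h6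
  have hL1 : 1 / lam ≤ N ^ (3 / 2 : ℝ) := by
    rw [Real.rpow_neg hN0.le] at hl1
    have hp : 0 < N ^ (3 / 2 : ℝ) := Real.rpow_pos_of_pos hN0 _
    rw [one_div]
    exact inv_le_of_inv_le₀ hp hl1
  have hL2 : N ^ 2 * lam ≤ N ^ (2 - γ) := by
    have : N ^ (2 - γ) = N ^ 2 * N ^ (-γ) := by
      rw [← Real.rpow_natCast N 2, ← Real.rpow_add hN0]
      congr 1
    rw [this]
    apply mul_le_mul_of_nonneg_left _ (by positivity)
    exact hl2.trans (Real.rpow_le_rpow_of_exponent_le hN (by linarith))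
  have hp74 : N ^ (1 / 4 : ℝ) * N ^ (3 / 2 : ℝ) ≤ N ^ (2 - γ) := by
    rw [← Real.rpow_add hN0]
    exact Real.rpow_le_rpow_of_exponent_le hN (by linarith)
  have hp1 : N ≤ N ^ (2 - γ) := by
    nth_rw 1 [← Real.rpow_one N]
    exact Real.rpow_le_rpow_of_exponent_le hN (by linarith)
  have hp54 : N * N ^ (1 / 4 : ℝ) ≤ N ^ (2 - γ) := by
    nth_rw 1 [← Real.rpow_one N]
    rw [← Real.rpow_add hN0]
    exact Real.rpow_le_rpow_of_exponent_le hN (by linarith)
  have h8 : S ^ 2 ≤ (72 + 144 * a) * N ^ (2 - γ) := by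
    have t1 : 12 * (1 + Real.log N) * (1 / lam) ≤ 60 * N ^ (2 - γ) := by
      calc 12 * (1 + Real.log N) * (1 / lam) ≤ 12 * (5 * N ^ (1 / 4 : ℝ)) * N ^ (3 / 2 : ℝ) := by
            apply mul_le_mul _ hL1 (by positivity) (by positivity)
            linarith
        _ = 60 * (N ^ (1 / 4 : ℝ) * N ^ (3 / 2 : ℝ)) := by ring
        _ ≤ _ := by linarith
    have t2 : 24 * a * (N ^ 2 * lam) ≤ 24 * a * N ^ (2 - γ) :=
      mul_le_mul_of_nonneg_left hL2 (by positivity)
    have t3 : 24 * a * N * (1 + Real.log N) ≤ 120 * a * N ^ (2 - γ) := by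
      calc 24 * a * N * (1 + Real.log N) ≤ 24 * a * N * (5 * N ^ (1 / 4 : ℝ)) :=
            mul_le_mul_of_nonneg_left hlogN (by positivity)
        _ = 120 * a * (N * N ^ (1 / 4 : ℝ)) := by ring
        _ ≤ _ := mul_le_mul_of_nonneg_left hp54 (by positivity)
    nlinarith
  have h9 : S ≤ (72 + 144 * a) * N ^ (1 - γ / 2) := by
    have hS0 : 0 ≤ S := norm_nonneg _
    apply (sq_le_sq₀ hS0 (by positivity)).1
    refine h8.trans ?_
    have e : ((72 + 144 * a) * N ^ (1 - γ / 2)) ^ 2 = (72 + 144 * a) ^ 2 * N ^ (2 - γ) := by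
      rw [mul_pow]
      congr 1
      rw [← Real.rpow_natCast, ← Real.rpow_mul hN0.le]
      congr 1
      push_cast; ring
    rw [e]
    apply mul_le_mul_of_nonneg_right _ (by positivity)
    nlinarith
  refine h9.trans ?_
  apply mul_le_mul_of_nonneg_right (le_max_left _ _) (by positivity)

theorem SB_succ (k : ℕ) (hk : SB k) : SB (k + 1) := by
  intro a β ha hβ hβ1
  obtain ⟨C', c', hC', hc', hc'1, hSB⟩ := hk a (β / 2) ha (by positivity) (by linarith)
  set γ := min (β / 2) c' with hγ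
  have hγ0 : 0 < γ := lt_min (by positivity) hc'
  have hγβ : γ ≤ β / 2 := min_le_left _ _
  have hγc : γ ≤ c' := min_le_right _ _
  refine ⟨8 + 8 * C', γ / 2, by linarith, by positivity, by linarith, ?_⟩
  intro N hN M hM lam hl1 hl2 f hf
  have hN0 : 0 < N := by linarith
  have hlam : 0 < lam := lt_of_lt_of_le (Real.rpow_pos_of_pos hN0 _) hl1
  set H : ℕ := ⌊N ^ (β / 2)⌋₊ + 1 with hH
  have hH1 : 1 ≤ H := by omega
  have hNb : 1 ≤ N ^ (β / 2) := Real.one_le_rpow hN (by positivity)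
  have hNb2 : N ^ (β / 2) ≤ N := by
    nth_rw 2 [← Real.rpow_one N]
    exact Real.rpow_le_rpow_of_exponent_le hN (by linarith)
  have hHlow : N ^ (β / 2) ≤ H := by
    rw [hH]; push_cast
    exact (Nat.lt_floor_add_one _).le
  have hHup : (H : ℝ) ≤ N + 1 := by
    rw [hH]; push_cast
    have := Nat.floor_le (show 0 ≤ N ^ (β / 2) by positivity)
    linarith
  have hHpos : (0 : ℝ) < H := by exact_mod_cast hH1
  have hB0 : 0 ≤ C' * N ^ (1 - c') := by positivity
  have hvdc := weyl_vdc (fun n => ex (f n)) M H hH1 (fun n => (norm_ex _).le)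
    (fun _ => C' * N ^ (1 - c')) (by
      intro h h1 hh
      rw [corr_eq]
      have hcl := Cls_diff hf h
      have hhpos : (1 : ℝ) ≤ h := by exact_mod_cast h1
      apply hSB N hN (M - h) _ (h * lam) _ _ (fun n => f (n + h) - f n) hcl
      · refine le_trans ?_ hM
        exact_mod_cast Nat.sub_le _ _
      · nlinarith
      · have h3 : (h : ℝ) ≤ N ^ (β / 2) := by
          have : h ≤ ⌊N ^ (β / 2)⌋₊ := by omega
          exact (Nat.le_floor_iff (by positivity)).1 this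
        calc (h : ℝ) * lam ≤ N ^ (β / 2) * N ^ (-β) :=
              mul_le_mul h3 hl2 hlam.le (by positivity)
          _ = N ^ (-(β / 2)) := by
              rw [← Real.rpow_add hN0]; congr 1; ring)
  set S := ‖∑ n ∈ range M, ex (f n)‖ with hS
  have hsumle : ∑ _h ∈ Ico 1 H, C' * N ^ (1 - c') ≤ H * (C' * N ^ (1 - c')) := by
    rw [sum_const, nsmul_eq_mul, Nat.card_Ico]
    apply mul_le_mul_of_nonneg_right _ hB0
    exact_mod_cast Nat.sub_le _ _
  have hMN : ((M : ℝ) + H) ≤ 4 * N := by linarith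
  have h1 : (H : ℝ) * S ^ 2 ≤ 4 * N * (2 * N + 2 * (H * (C' * N ^ (1 - c')))) := by
    refine hvdc.trans ?_
    apply mul_le_mul hMN _ _ (by positivity)
    · linarith
    · have : 0 ≤ ∑ _h ∈ Ico 1 H, C' * N ^ (1 - c') := sum_nonneg fun _ _ => hB0
      positivity
  have h2 : S ^ 2 ≤ 8 * N ^ 2 * (1 / H) + 8 * C' * (N * N ^ (1 - c')) := by
    have e : S ^ 2 = 1 / (H : ℝ) * (H * S ^ 2) := by field_simp
    rw [e]
    calc 1 / (H : ℝ) * (H * S ^ 2) ≤
        1 / (H : ℝ) * (4 * N * (2 * N + 2 * (H * (C' * N ^ (1 - c'))))) :=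
          mul_le_mul_of_nonneg_left h1 (by positivity)
      _ = _ := by field_simp; ring
  have h3 : 1 / (H : ℝ) ≤ N ^ (-(β / 2)) := by
    rw [Real.rpow_neg hN0.le, one_div]
    exact inv_anti₀ (by positivity) hHlow
  have h4 : N ^ 2 * (1 / H) ≤ N ^ (2 - γ) := by
    calc N ^ 2 * (1 / H) ≤ N ^ 2 * N ^ (-(β / 2)) := mul_le_mul_of_nonneg_left h3 (by positivity)
      _ = N ^ (2 + -(β / 2)) := by
          rw [← Real.rpow_natCast N 2, ← Real.rpow_add hN0]; norm_num
      _ ≤ _ := Real.rpow_le_rpow_of_exponent_le hN (by linarith)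
  have h5 : N * N ^ (1 - c') ≤ N ^ (2 - γ) := by
    nth_rw 1 [← Real.rpow_one N]
    rw [← Real.rpow_add hN0]
    exact Real.rpow_le_rpow_of_exponent_le hN (by linarith)
  have h8 : S ^ 2 ≤ (8 + 8 * C') * N ^ (2 - γ) := by nlinarith
  have hS0 : 0 ≤ S := norm_nonneg _
  apply (sq_le_sq₀ hS0 (by positivity)).1
  refine h8.trans ?_
  have e : ((8 + 8 * C') * N ^ (1 - γ / 2)) ^ 2 = (8 + 8 * C') ^ 2 * N ^ (2 - γ) := by
    rw [mul_pow]
    congr 1
    rw [← Real.rpow_natCast, ← Real.rpow_mul hN0.le]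
    congr 1
    push_cast; ring
  rw [e]
  apply mul_le_mul_of_nonneg_right _ (by positivity)
  nlinarith

theorem SB_all (k : ℕ) : SB (k + 2) := by
  induction k with
  | zero => exact SB_two
  | succ k ih => exact SB_succ _ ih

/-- `y(y+1)...(y+k)` -/
noncomputable def Pk (k : ℕ) (y : ℝ) : ℝ := ∏ i ∈ range (k + 1), (y + i)

lemma Pk_pos (k : ℕ) {y : ℝ} (hy : 0 < y) : 0 < Pk k y :=
  prod_pos fun i _ => by positivity

lemma Dk_recip (A x0 : ℝ) (hx : 0 < x0) (k n : ℕ) :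
    Dk k (fun n => A / (x0 + n)) n = (-1) ^ k * k.factorial * A / Pk k (x0 + n) := by
  induction k generalizing n with
  | zero => simp [Dk, Pk]
  | succ k ih =>
    rw [Dk_succ, ih, ih]
    have hy : 0 < x0 + n := by positivity
    set y := x0 + n with hyd
    have e1 : x0 + ((n + 1 : ℕ) : ℝ) = y + 1 := by push_cast; rw [hyd]; ring
    rw [e1]
    have p1 : Pk (k + 1) y = Pk k y * (y + (k + 1 : ℕ)) := by
      unfold Pk; rw [prod_range_succ]
    have p2 : Pk (k + 1) y = y * Pk k (y + 1) := by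
      unfold Pk
      rw [prod_range_succ']
      rw [mul_comm]
      congr 1
      · simp
      · apply prod_congr rfl
        intro i _
        push_cast; ring
    have q1 := Pk_pos k hy
    have q2 := Pk_pos k (show 0 < y + 1 by linarith)
    have q3 := Pk_pos (k + 1) hy
    have f1 : 1 / Pk k y = (y + (k + 1 : ℕ)) / Pk (k + 1) y := by
      rw [p1]; field_simp
    have f2 : 1 / Pk k (y + 1) = y / Pk (k + 1) y := by
      rw [p2]; field_simp
    have g1 : (-1 : ℝ) ^ k * k.factorial * A / Pk k (y + 1) =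
        (-1) ^ k * k.factorial * A * (1 / Pk k (y + 1)) := by ring
    have g2 : (-1 : ℝ) ^ k * k.factorial * A / Pk k y =
        (-1) ^ k * k.factorial * A * (1 / Pk k y) := by ring
    rw [g1, g2, f1, f2, Nat.factorial_succ, pow_succ]
    push_cast
    field_simp
    ring

lemma Pk_lower (k : ℕ) {y N : ℝ} (hN : 0 < N) (hy : N ≤ y) : N ^ (k + 1) ≤ Pk k y := by
  unfold Pk
  calc N ^ (k + 1) = ∏ _i ∈ range (k + 1), N := by simp
    _ ≤ _ := prod_le_prod (fun _ _ => hN.le) fun i _ => by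
      have : (0 : ℝ) ≤ i := by positivity
      linarith

lemma Pk_upper (k : ℕ) {y N : ℝ} (hN : 1 ≤ N) (hy0 : 0 ≤ y) (hy : y ≤ 3 * N) :
    Pk k y ≤ ((k + 3) * N) ^ (k + 1) := by
  unfold Pk
  calc _ ≤ ∏ _i ∈ range (k + 1), ((k + 3) * N) := prod_le_prod (fun _ _ => by positivity) fun i hi => by
        have h1 : (i : ℝ) ≤ k := by exact_mod_cast Nat.lt_succ_iff.1 (mem_range.1 hi)
        have h2 : (0 : ℝ) ≤ i := by positivity
        nlinarith
    _ = _ := by simp

lemma Cls_recip (k : ℕ) {A N : ℝ} (hA : 0 < A) (hN : 1 ≤ N) (x0 M : ℕ) (hx : N ≤ x0)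
    (hM : (x0 : ℝ) + M ≤ 3 * N) :
    Cls k (fun n => A / ((x0 : ℝ) + n)) M (k.factorial * A / ((k + 3) * N) ^ (k + 1))
      ((k + 3) ^ (k + 1)) := by
  have hN0 : 0 < N := by linarith
  have hx0 : (0 : ℝ) < x0 := by linarith
  have hsq : ∀ k : ℕ, ((-1 : ℝ) ^ k) * (-1) ^ k = 1 := by
    intro k; rw [← mul_pow]; norm_num
  refine ⟨(-1) ^ k, (-1) ^ (k + 1), neg_one_pow_eq_or ℝ k, neg_one_pow_eq_or ℝ (k + 1), ?_⟩
  intro n hn
  have hn' : (n : ℝ) ≤ M := by exact_mod_cast hn.le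
  have hfac : (0 : ℝ) < k.factorial := by exact_mod_cast k.factorial_pos
  have hfac' : (0 : ℝ) < (k + 1).factorial := by exact_mod_cast (k + 1).factorial_pos
  have hy : N ≤ (x0 : ℝ) + n := by have : (0 : ℝ) ≤ n := by positivity
                                   linarith
  have hy2 : (x0 : ℝ) + n ≤ 3 * N := by linarith
  have hp := Pk_pos k (show 0 < (x0 : ℝ) + n by linarith)
  have hp' := Pk_pos (k + 1) (show 0 < (x0 : ℝ) + n by linarith)
  rw [Dk_recip A x0 hx0, Dk_recip A x0 hx0]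
  have e1 : (-1 : ℝ) ^ k * ((-1) ^ k * k.factorial * A / Pk k (x0 + n)) =
      k.factorial * A / Pk k (x0 + n) := by
    have := hsq k
    linear_combination (k.factorial * A / Pk k (x0 + n)) * this
  have e2 : (-1 : ℝ) ^ (k + 1) * ((-1) ^ (k + 1) * (k + 1).factorial * A / Pk (k + 1) (x0 + n)) =
      (k + 1).factorial * A / Pk (k + 1) (x0 + n) := by
    have := hsq (k + 1)
    linear_combination ((k + 1).factorial * A / Pk (k + 1) (x0 + n)) * this
  rw [e1, e2]
  refine ⟨?_, ?_, by positivity⟩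
  · apply div_le_div_of_nonneg_left (by positivity) hp
    exact Pk_upper k hN (by linarith) hy2
  · have h1 : k.factorial * A / Pk k (x0 + n) ≤ k.factorial * A / N ^ (k + 1) :=
      div_le_div_of_nonneg_left (by positivity) (by positivity) (Pk_lower k hN0 hy)
    refine h1.trans (le_of_eq ?_)
    rw [mul_pow]
    field_simp

/-- exponential sums `∑ e(A/n)` in the range of the `k`-th difference test -/
theorem exp_sum_k (k : ℕ) (hk : 2 ≤ k) : ∃ C c : ℝ, 1 ≤ C ∧ 0 < c ∧ c ≤ 1 ∧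
    ∀ N : ℝ, 1 ≤ N → ∀ A : ℝ, N ^ ((k : ℝ) - 2 / 5) ≤ A → A ≤ N ^ ((k : ℝ) + 3 / 4) →
      ∀ x0 M : ℕ, N ≤ x0 → (x0 : ℝ) + M ≤ 3 * N →
      ‖∑ n ∈ range M, ex (A / ((x0 : ℝ) + n))‖ ≤ C * N ^ (1 - c) := by
  obtain ⟨j, rfl⟩ : ∃ j, k = j + 2 := ⟨k - 2, by omega⟩
  set k := j + 2 with hkd
  obtain ⟨C, c, hC, hc, hc1, hS⟩ := SB_all j (((k : ℝ) + 3) ^ (k + 1)) (1 / 4)
    (one_le_pow₀ (by have : (0 : ℝ) ≤ k := by positivity
                     linarith)) (by norm_num) (by norm_num)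
  set Q : ℝ := ((k : ℝ) + 3) ^ (k + 1) with hQ
  have hQ1 : 1 ≤ Q := one_le_pow₀ (by have : (0 : ℝ) ≤ k := by positivity
                                      linarith)
  refine ⟨max C (2 * Q ^ 10), c, hC.trans (le_max_left _ _), hc, hc1, ?_⟩
  intro N hN A hA1 hA2 x0 M hx hM
  have hN0 : 0 < N := by linarith
  have hA : 0 < A := lt_of_lt_of_le (Real.rpow_pos_of_pos hN0 _) hA1
  have hMN : (M : ℝ) ≤ 2 * N := by linarith
  have hNpow : 1 ≤ N ^ (1 - c) := Real.one_le_rpow hN (by linarith)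
  by_cases hcase : N ≤ Q ^ 10
  · calc ‖∑ n ∈ range M, ex (A / ((x0 : ℝ) + n))‖ ≤ M :=
          norm_sum_ex_le (fun n => A / ((x0 : ℝ) + n)) M
      _ ≤ 2 * N := hMN
      _ ≤ 2 * Q ^ 10 := by linarith
      _ ≤ max C (2 * Q ^ 10) * 1 := by rw [mul_one]; exact le_max_right _ _
      _ ≤ _ := by
        apply mul_le_mul_of_nonneg_left hNpow
        have : (1 : ℝ) ≤ Q ^ 10 := one_le_pow₀ hQ1
        exact le_trans (by linarith) (le_max_right _ _)
  push Not at hcase
  have hcl := Cls_recip k hA hN x0 M hx hM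
  have hfac : (1 : ℝ) ≤ k.factorial := by exact_mod_cast k.factorial_pos
  have hfacQ : (k.factorial : ℝ) ≤ Q := by
    have h1 : k.factorial ≤ k ^ k := Nat.factorial_le_pow k
    have h2 : (k.factorial : ℝ) ≤ (k : ℝ) ^ k := by exact_mod_cast h1
    have h3 : (k : ℝ) ^ k ≤ ((k : ℝ) + 3) ^ k := pow_le_pow_left₀ (by positivity) (by linarith) _
    have h4 : ((k : ℝ) + 3) ^ k ≤ Q := by
      rw [hQ]
      apply pow_le_pow_right₀ _ (by omega)
      have : (0 : ℝ) ≤ k := by positivity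
      linarith
    linarith
  set lam : ℝ := k.factorial * A / ((k + 3) * N) ^ (k + 1) with hlam
  have hlamQ : lam = (k.factorial / Q) * (A / N ^ ((k : ℝ) + 1)) := by
    have : N ^ ((k : ℝ) + 1) = N ^ (k + 1) := by
      rw [← Real.rpow_natCast]; push_cast; rfl
    rw [hlam, this, hQ, mul_pow]
    field_simp
  have hu : A / N ^ ((k : ℝ) + 1) ≤ N ^ (-(1 / 4) : ℝ) := by
    rw [div_le_iff₀ (by positivity), ← Real.rpow_add hN0]
    refine hA2.trans (le_of_eq ?_)
    congr 1; ring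
  have hl : N ^ (-(7 / 5) : ℝ) ≤ A / N ^ ((k : ℝ) + 1) := by
    rw [le_div_iff₀ (by positivity), ← Real.rpow_add hN0]
    refine (le_of_eq ?_).trans hA1
    congr 1; ring
  have hlam_up : lam ≤ N ^ (-(1 / 4) : ℝ) := by
    rw [hlamQ]
    calc (k.factorial / Q) * (A / N ^ ((k : ℝ) + 1)) ≤ 1 * N ^ (-(1 / 4) : ℝ) := by
          apply mul_le_mul _ hu (by positivity) (by norm_num)
          rw [div_le_one (by linarith)]; exact hfacQ
      _ = _ := one_mul _
  have hlam_low : N ^ (-(3 / 2) : ℝ) ≤ lam := by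
    rw [hlamQ]
    have h1 : N ^ (-(1 / 10) : ℝ) ≤ k.factorial / Q := by
      have h2 : Q ≤ N ^ (1 / 10 : ℝ) := by
        have h3 : (Q ^ 10) ^ (1 / 10 : ℝ) ≤ N ^ (1 / 10 : ℝ) :=
          Real.rpow_le_rpow (by positivity) hcase.le (by norm_num)
        rw [← Real.rpow_natCast Q 10, ← Real.rpow_mul (by linarith)] at h3
        norm_num at h3
        exact h3
      rw [Real.rpow_neg hN0.le, inv_eq_one_div]
      apply div_le_div₀ (by linarith) hfac (by linarith) h2
    calc N ^ (-(3 / 2) : ℝ) = N ^ (-(1 / 10) : ℝ) * N ^ (-(7 / 5) : ℝ) := by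
          rw [← Real.rpow_add hN0]; norm_num
      _ ≤ _ := mul_le_mul h1 hl (by positivity) (by positivity)
  have := hS N hN M hMN lam hlam_low hlam_up (fun n => A / ((x0 : ℝ) + n)) hcl
  refine this.trans ?_
  apply mul_le_mul_of_nonneg_right (le_max_left _ _) (by positivity)

/-- exponential sums `∑ e(A/n)` over `n ~ N`, `N^{8/5} ≤ A ≤ N^{K}`. -/
theorem exp_sum_recip (K : ℕ) : ∃ C c : ℝ, 1 ≤ C ∧ 0 < c ∧ c ≤ 1 ∧
    ∀ N : ℝ, 1 ≤ N → ∀ A : ℝ, N ^ (8 / 5 : ℝ) ≤ A → A ≤ N ^ ((K : ℝ) + 2 + 3 / 4) →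
      ∀ x0 M : ℕ, N ≤ x0 → (x0 : ℝ) + M ≤ 3 * N →
      ‖∑ n ∈ range M, ex (A / ((x0 : ℝ) + n))‖ ≤ C * N ^ (1 - c) := by
  induction K with
  | zero =>
    obtain ⟨C, c, h1, h2, h3, h4⟩ := exp_sum_k 2 le_rfl
    refine ⟨C, c, h1, h2, h3, ?_⟩
    intro N hN A hA1 hA2
    apply h4 N hN A
    · refine le_trans (le_of_eq ?_) hA1
      norm_num
    · refine hA2.trans (le_of_eq ?_)
      norm_num
  | succ K ih =>
    obtain ⟨C1, c1, h1, h2, h3, h4⟩ := ih
    obtain ⟨C2, c2, g1, g2, g3, g4⟩ := exp_sum_k (K + 3) (by omega)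
    refine ⟨max C1 C2, min c1 c2, h1.trans (le_max_left _ _), lt_min h2 g2,
      (min_le_left _ _).trans h3, ?_⟩
    intro N hN A hA1 hA2 x0 M hx hM
    have hN0 : 0 < N := by linarith
    by_cases hcase : A ≤ N ^ ((K : ℝ) + 2 + 3 / 4)
    · refine (h4 N hN A hA1 hcase x0 M hx hM).trans ?_
      apply mul_le_mul (le_max_left _ _) _ (by positivity) (by positivity)
      apply Real.rpow_le_rpow_of_exponent_le hN
      linarith [min_le_left c1 c2]
    · push Not at hcase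
      refine (g4 N hN A ?_ ?_ x0 M hx hM).trans ?_
      · refine le_trans ?_ hcase.le
        apply Real.rpow_le_rpow_of_exponent_le hN
        push_cast; linarith
      · refine hA2.trans (le_of_eq ?_)
        congr 1; push_cast; ring
      · apply mul_le_mul (le_max_right _ _) _ (by positivity) (by positivity)
        apply Real.rpow_le_rpow_of_exponent_le hN
        linarith [min_le_right c1 c2]

end Pool.Agent.Work.MP_0b7501_nt
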