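import Mathlib
import Pool.Agent.Work.MP_0b7501_nt.BT
import Pool.Agent.Work.MP_0b7501_nt.BlockE2

/-!
Block E of MP_0b7501_nt: primes `q ~ P` with `m % q < L` (helper70).
-/

set_option autoImplicit false

namespace Pool.Agent.Work.MP_0b7501_nt

open Finset Complex ArithmeticFunction
open scoped ArithmeticFunction.Moebius

/-- the Fejer type kernel -/
noncomputable def Ker (H : ℕ) (x : ℝ) : ℝ := ‖∑ h ∈ range H, ex (h * x)‖ ^ 2

lemma Ker_nonneg (H : ℕ) (x : ℝ) : 0 ≤ Ker H x := by unfold Ker; positivity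

lemma Ker_expand (H : ℕ) (x : ℝ) :
    ((Ker H x : ℝ) : ℂ) = ∑ i ∈ range H, ∑ j ∈ range H, ex (((i : ℝ) - j) * x) := by
  unfold Ker
  rw [← Complex.normSq_eq_norm_sq, ← Complex.mul_conj, map_sum, sum_mul_sum]
  refine sum_congr rfl fun i _ => sum_congr rfl fun j _ => ?_
  rw [← ex_sub_conj]; congr 1; ring

lemma ex_nat_mul (h k : ℕ) : ex ((h : ℝ) * (k : ℝ)) = 1 := by
  have := ex_int ((h : ℤ) * (k : ℤ))
  rw [← this]; congr 1; push_cast; ring

lemma Ker_lower (H : ℕ) (hH : 1 ≤ H) (m q L P : ℕ) (hq : P < q) (hHL : 6 * H * L ≤ P)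
    (hm : m % q < L) : (H : ℝ) ^ 2 / 4 ≤ Ker H ((m : ℝ) / q) := by
  have hq0 : 0 < q := by omega
  have hq0' : (0 : ℝ) < q := by exact_mod_cast hq0
  have hHpos : (0 : ℝ) < H := by exact_mod_cast hH
  set t : ℝ := ((m % q : ℕ) : ℝ) / q with ht
  have hdecomp : (m : ℝ) / q = ((m / q : ℕ) : ℝ) + t := by
    have := Nat.div_add_mod m q
    have h2 : (m : ℝ) = q * ((m / q : ℕ) : ℝ) + ((m % q : ℕ) : ℝ) := by exact_mod_cast this.symm
    rw [ht]; field_simp; linarith
  have ht0 : 0 ≤ t := by positivity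
  have ht1 : t * (6 * H) ≤ 1 := by
    rw [ht, div_mul_eq_mul_div, div_le_one hq0']
    have h1 : (m % q) * (6 * H) ≤ q := by
      calc (m % q) * (6 * H) ≤ L * (6 * H) := Nat.mul_le_mul_right _ hm.le
        _ = 6 * H * L := by ring
        _ ≤ P := hHL
        _ ≤ q := hq.le
    exact_mod_cast h1
  have hterm : ∀ h ∈ range H, ex (h * ((m : ℝ) / q)) = ex (h * t) := by
    intro h _
    rw [hdecomp, mul_add, ex_add]
    rw [ex_nat_mul, one_mul]
  unfold Ker
  rw [sum_congr rfl hterm]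
  have hre : (H : ℝ) / 2 ≤ (∑ h ∈ range H, ex (h * t)).re := by
    rw [Complex.re_sum]
    calc (H : ℝ) / 2 = ∑ _h ∈ range H, (1 / 2 : ℝ) := by simp; ring
      _ ≤ _ := sum_le_sum fun h hh => by
        rw [mem_range] at hh
        unfold ex
        rw [Complex.exp_ofReal_mul_I_re]
        have hh' : (h : ℝ) ≤ H := by exact_mod_cast hh.le
        have h1 : 0 ≤ (h : ℝ) * t := by positivity
        have h2 : (h : ℝ) * t * 6 ≤ 1 := by nlinarith
        have h3 : 2 * Real.pi * (h * t) ≤ Real.pi / 3 := by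
          have := Real.pi_pos; nlinarith
        rw [← Real.cos_pi_div_three]
        apply Real.cos_le_cos_of_nonneg_of_le_pi (by positivity) _ h3
        have := Real.pi_pos; linarith
  have h1 := (le_abs_self _).trans (Complex.abs_re_le_norm (∑ h ∈ range H, ex (h * t)))
  have h2 : (H : ℝ) / 2 ≤ ‖∑ h ∈ range H, ex (h * t)‖ := hre.trans h1
  calc (H : ℝ) ^ 2 / 4 = ((H : ℝ) / 2) ^ 2 := by ring
    _ ≤ _ := pow_le_pow_left₀ (by positivity) h2 2

/-- the sum over multiples of `l` -/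
lemma sum_multiples (P l : ℕ) (hl : 1 ≤ l) (F : ℕ → ℝ) :
    ∑ n ∈ Ioc P (2 * P), F n * (if l ∣ n then 1 else 0) = ∑ n ∈ Ioc (P / l) (2 * P / l), F (l * n) := by
  have h1 : ∑ n ∈ Ioc P (2 * P), F n * (if l ∣ n then 1 else 0) =
      ∑ n ∈ (Ioc P (2 * P)).filter (fun n => l ∣ n), F n := by
    rw [sum_filter]
    refine sum_congr rfl fun n _ => ?_
    split_ifs <;> simp
  rw [h1]
  symm
  refine sum_bij (fun n _ => l * n) ?_ ?_ ?_ ?_
  · intro n hn
    rw [mem_Ioc] at hn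
    rw [mem_filter, mem_Ioc]
    refine ⟨⟨?_, ?_⟩, dvd_mul_right _ _⟩
    · have := (Nat.div_lt_iff_lt_mul hl).1 hn.1
      rw [mul_comm]; exact this
    · have := (Nat.le_div_iff_mul_le hl).1 hn.2
      rw [mul_comm]; exact this
  · intro a _ b _ h
    exact Nat.eq_of_mul_eq_mul_left hl h
  · intro n hn
    rw [mem_filter, mem_Ioc] at hn
    obtain ⟨⟨h1, h2⟩, k, rfl⟩ := hn
    refine ⟨k, ?_, rfl⟩
    rw [mem_Ioc]
    constructor
    · rw [Nat.div_lt_iff_lt_mul hl, mul_comm]; exact h1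
    · rw [Nat.le_div_iff_mul_le hl, mul_comm]; exact h2
  · intro n _; rfl

/-- evaluation of the kernel over multiples of `l` -/
lemma T_eval (m P H l : ℕ) (hl : 1 ≤ l) (E : ℝ) (hE0 : 0 ≤ E)
    (hE : ∀ j : ℕ, 1 ≤ j → j < H →
      ‖∑ n ∈ Ioc (P / l) (2 * P / l), ex (((j : ℝ) * m / l) / n)‖ ≤ E) :
    |∑ n ∈ Ioc P (2 * P), Ker H ((m : ℝ) / n) * (if l ∣ n then 1 else 0) - H * (P / l)| ≤
      H + H ^ 2 * E := by
  rw [sum_multiples P l hl (fun n => Ker H ((m : ℝ) / n))]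
  set I := Ioc (P / l) (2 * P / l) with hI
  have hl0 : (0 : ℝ) < l := by exact_mod_cast hl
  have hdiag : ∀ i ∈ range H, ∀ j ∈ range H,
      ‖∑ n ∈ I, ex (((i : ℝ) - j) * ((m : ℝ) / ((l * n : ℕ) : ℝ))) -
        (if i = j then (I.card : ℂ) else 0)‖ ≤ if i = j then 0 else E := by
    intro i hi j hj
    rw [mem_range] at hi hj
    rcases lt_trichotomy i j with h | h | h
    · rw [if_neg h.ne, if_neg h.ne, sub_zero]
      have hEj := hE (j - i) (by omega) (by omega)
      have e : ∑ n ∈ I, ex (((i : ℝ) - j) * ((m : ℝ) / ((l * n : ℕ) : ℝ))) =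
          (starRingEnd ℂ) (∑ n ∈ I, ex ((((j - i : ℕ) : ℝ) * m / l) / n)) := by
        rw [map_sum]
        refine sum_congr rfl fun n hn => ?_
        rw [← ex_neg]
        congr 1
        have hn0 : (0 : ℝ) < n := by
          rw [hI, mem_Ioc] at hn
          exact_mod_cast (Nat.zero_le _).trans_lt hn.1
        push_cast [h.le]
        field_simp
        ring
      rw [e, Complex.norm_conj]
      exact hEj
    · subst h
      simp [ex_zero]
    · rw [if_neg h.ne', if_neg h.ne', sub_zero]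
      have hEj := hE (i - j) (by omega) (by omega)
      have e : ∑ n ∈ I, ex (((i : ℝ) - j) * ((m : ℝ) / ((l * n : ℕ) : ℝ))) =
          ∑ n ∈ I, ex ((((i - j : ℕ) : ℝ) * m / l) / n) := by
        refine sum_congr rfl fun n hn => ?_
        congr 1
        have hn0 : (0 : ℝ) < n := by
          rw [hI, mem_Ioc] at hn
          exact_mod_cast (Nat.zero_le _).trans_lt hn.1
        push_cast [h.le]
        field_simp
      rw [e]
      exact hEj
  have hexp : ((∑ n ∈ I, Ker H ((m : ℝ) / ((l * n : ℕ) : ℝ)) : ℝ) : ℂ) =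
      ∑ i ∈ range H, ∑ j ∈ range H, ∑ n ∈ I, ex (((i : ℝ) - j) * ((m : ℝ) / ((l * n : ℕ) : ℝ))) := by
    rw [Complex.ofReal_sum]
    simp_rw [Ker_expand]
    rw [sum_comm]
    refine sum_congr rfl fun i _ => ?_
    rw [sum_comm]
  have hmain : ((H * I.card : ℝ) : ℂ) =
      ∑ i ∈ range H, ∑ j ∈ range H, (if i = j then (I.card : ℂ) else 0) := by
    rw [sum_congr rfl (fun i hi => by rw [sum_ite_eq, if_pos hi])]
    simp
  have h1 : |∑ n ∈ I, Ker H ((m : ℝ) / ((l * n : ℕ) : ℝ)) - H * I.card| ≤ H ^ 2 * E := by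
    have e : |∑ n ∈ I, Ker H ((m : ℝ) / ((l * n : ℕ) : ℝ)) - H * I.card| =
        ‖((∑ n ∈ I, Ker H ((m : ℝ) / ((l * n : ℕ) : ℝ)) : ℝ) : ℂ) - ((H * I.card : ℝ) : ℂ)‖ := by
      rw [← Complex.ofReal_sub, Complex.norm_real]; rfl
    rw [e, hexp, hmain, ← sum_sub_distrib]
    simp_rw [← sum_sub_distrib]
    refine (norm_sum_le _ _).trans ?_
    calc ∑ i ∈ range H, ‖∑ j ∈ range H, (∑ n ∈ I, ex (((i : ℝ) - j) * ((m : ℝ) / ((l * n : ℕ) : ℝ))) -
          (if i = j then (I.card : ℂ) else 0))‖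
        ≤ ∑ i ∈ range H, ∑ j ∈ range H, (if i = j then 0 else E) :=
          sum_le_sum fun i hi => (norm_sum_le _ _).trans (sum_le_sum fun j hj => hdiag i hi j hj)
      _ ≤ H ^ 2 * E := by
          calc ∑ i ∈ range H, ∑ j ∈ range H, (if i = j then 0 else E)
                ≤ ∑ _i ∈ range H, ∑ _j ∈ range H, E :=
                  sum_le_sum fun i _ => sum_le_sum fun j _ => by split_ifs <;> linarith
            _ = H ^ 2 * E := by simp; ring
  have hcard : |(I.card : ℝ) - P / l| ≤ 1 := by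
    have hc : (I.card : ℝ) = ((2 * P / l : ℕ) : ℝ) - ((P / l : ℕ) : ℝ) := by
      rw [hI, Nat.card_Ioc, Nat.cast_sub]
      exact Nat.div_le_div_right (by omega)
    have a1 : ((P / l : ℕ) : ℝ) ≤ P / l := Nat.cast_div_le
    have a2 : ((2 * P / l : ℕ) : ℝ) ≤ ((2 * P : ℕ) : ℝ) / l := Nat.cast_div_le
    have a3 : (P : ℝ) / l < ((P / l : ℕ) : ℝ) + 1 := by
      rw [div_lt_iff₀ hl0]
      have h2 : P < (P / l + 1) * l := by
        rw [mul_comm]; exact Nat.lt_mul_div_succ P (by omega)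
      exact_mod_cast h2
    have a4 : ((2 * P : ℕ) : ℝ) / l < ((2 * P / l : ℕ) : ℝ) + 1 := by
      rw [div_lt_iff₀ hl0]
      have h2 : 2 * P < (2 * P / l + 1) * l := by
        rw [mul_comm (2 * P / l + 1)]; exact Nat.lt_mul_div_succ (2 * P) (by omega)
      exact_mod_cast h2
    have a5 : ((2 * P : ℕ) : ℝ) / l = 2 * (P / l) := by push_cast; ring
    rw [a5] at a2 a4
    rw [hc, abs_le]
    constructor <;> linarith
  have h2 : |(H : ℝ) * I.card - H * (P / l)| ≤ H := by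
    rw [← mul_sub, abs_mul, abs_of_nonneg (show (0 : ℝ) ≤ H by positivity)]
    nlinarith [show (0 : ℝ) ≤ H by positivity]
  calc |∑ n ∈ I, Ker H ((m : ℝ) / ((l * n : ℕ) : ℝ)) - H * (P / l)|
      ≤ |∑ n ∈ I, Ker H ((m : ℝ) / ((l * n : ℕ) : ℝ)) - H * I.card| +
        |(H : ℝ) * I.card - H * (P / l)| := abs_sub_le _ _ _
    _ ≤ H + H ^ 2 * E := by linarith

/-- the finite form -/
theorem count_bound (m P L H R : ℕ) (E : ℝ) (hH : 1 ≤ H) (hR : 1 ≤ R) (hRP : R ≤ P)
    (hHL : 6 * H * L ≤ P) (hE0 : 0 ≤ E)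
    (hE : ∀ l, 1 ≤ l → l ≤ R ^ 2 → ∀ j : ℕ, 1 ≤ j → j < H →
      ‖∑ n ∈ Ioc (P / l) (2 * P / l), ex (((j : ℝ) * m / l) / n)‖ ≤ E) :
    (((Ioc P (2 * P)).filter (fun q => q.Prime ∧ m % q < L)).card : ℝ) * (Real.log (R + 1) / 2) ≤
      4 * P / H + 4 * R ^ 6 * (1 + E) := by
  classical
  set Qs := (Icc 1 R).filter Squarefree with hQs
  set G : ℝ := ∑ q ∈ Qs, (μ q : ℝ) ^ 2 / Nat.totient q with hG
  have hGlow : Real.log (R + 1) / 2 ≤ G := by
    have h1 : ∑ q ∈ Qs, (1 : ℝ) / q ≤ G := by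
      apply Finset.sum_le_sum
      intro q hq
      rw [hQs, mem_filter, mem_Icc] at hq
      have h2 : (μ q : ℝ) ^ 2 = 1 := by
        have := ArithmeticFunction.moebius_sq_eq_one_of_squarefree hq.2
        exact_mod_cast this
      rw [h2]
      have hpos : 0 < Nat.totient q := Nat.totient_pos.mpr hq.1.1
      apply one_div_le_one_div_of_le (by exact_mod_cast hpos)
      exact_mod_cast Nat.totient_le q
    have h2 := harmonic_le_sqfree R
    have h3 : Real.log (R + 1) ≤ ∑ k ∈ Icc 1 R, (1 : ℝ) / k := by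
      have := log_add_one_le_harmonic R
      rw [harmonic_eq_sum_Icc] at this
      push_cast at this
      simpa [one_div] using this
    linarith
  have hG1 : 1 ≤ G := by
    have h1 : (1 : ℕ) ∈ Qs := by
      rw [hQs, mem_filter, mem_Icc]; exact ⟨⟨le_rfl, hR⟩, squarefree_one⟩
    have := Finset.single_le_sum (f := fun q : ℕ => (μ q : ℝ) ^ 2 / (Nat.totient q : ℝ))
      (fun q _ => by positivity) h1
    simpa using this
  have hHpos : (0 : ℝ) < H := by exact_mod_cast hH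
  set E' : ℝ := H + H ^ 2 * E with hE'
  have hE'0 : 0 ≤ E' := by positivity
  let T : ℕ → ℝ := fun l => ∑ n ∈ Ioc P (2 * P), Ker H ((m : ℝ) / n) * (if l ∣ n then 1 else 0)
  have hT : ∀ l, 1 ≤ l → l ≤ R ^ 2 → |T l - H * (P / l)| ≤ E' := fun l h1 h2 =>
    T_eval m P H l h1 E hE0 (hE l h1 h2)
  let f : ℕ → ℝ := fun n => ∑ q ∈ Qs, (μ q : ℝ) / Nat.totient q * cq q n
  -- cross terms
  have hcross : ∀ q ∈ Qs, ∀ q' ∈ Qs,
      |∑ n ∈ Ioc P (2 * P), Ker H ((m : ℝ) / n) * (cq q n * cq q' n) -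
        H * P * (if q = q' then (Nat.totient q : ℝ) else 0)| ≤ (R : ℝ) ^ 4 * E' := by
    intro q hq q' hq'
    rw [hQs, mem_filter, mem_Icc] at hq hq'
    have e1 : ∑ n ∈ Ioc P (2 * P), Ker H ((m : ℝ) / n) * (cq q n * cq q' n) =
        ∑ d ∈ q.divisors, ∑ d' ∈ q'.divisors,
          ((μ (q / d) : ℝ) * (μ (q' / d') : ℝ) * (d * d')) * T (Nat.lcm d d') := by
      unfold cq
      simp_rw [Finset.sum_mul_sum, Finset.mul_sum]
      rw [Finset.sum_comm]
      refine Finset.sum_congr rfl fun d hd => ?_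
      rw [Finset.sum_comm]
      refine Finset.sum_congr rfl fun d' hd' => ?_
      simp only [T]
      rw [Finset.mul_sum]
      refine Finset.sum_congr rfl fun n _ => ?_
      have h2 : Nat.lcm d d' ∣ n ↔ (d ∣ n ∧ d' ∣ n) := Nat.lcm_dvd_iff
      by_cases hA : d ∣ n <;> by_cases hB : d' ∣ n <;> simp [hA, hB, h2]
      ring
    have e2 : H * P * (if q = q' then (Nat.totient q : ℝ) else 0) =
        ∑ d ∈ q.divisors, ∑ d' ∈ q'.divisors,
          ((μ (q / d) : ℝ) * (μ (q' / d') : ℝ) * (d * d')) * (H * (P / (Nat.lcm d d' : ℝ))) := by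
      rw [← orthogonality q q' hq.1.1 hq'.1.1, Finset.mul_sum]
      refine Finset.sum_congr rfl fun d hd => ?_
      rw [Finset.mul_sum]
      refine Finset.sum_congr rfl fun d' hd' => ?_
      have hd0 := Nat.pos_of_mem_divisors hd
      have hd'0 := Nat.pos_of_mem_divisors hd'
      have hl1 : 1 ≤ Nat.lcm d d' := Nat.lcm_pos hd0 hd'0
      have hgl : (Nat.gcd d d' : ℝ) * Nat.lcm d d' = d * d' := by
        exact_mod_cast Nat.gcd_mul_lcm d d'
      have hl0 : (Nat.lcm d d' : ℝ) ≠ 0 := by positivity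
      rw [← hgl]
      field_simp
    rw [e1, e2, ← sum_sub_distrib]
    simp_rw [← sum_sub_distrib, ← mul_sub]
    have hmu : ∀ k : ℕ, |(μ k : ℝ)| ≤ 1 := fun k => by
      exact_mod_cast ArithmeticFunction.abs_moebius_le_one
    have hone : ∀ d ∈ q.divisors, ∀ d' ∈ q'.divisors,
        |((μ (q / d) : ℝ) * (μ (q' / d') : ℝ) * (d * d')) *
          (T (Nat.lcm d d') - H * (P / (Nat.lcm d d' : ℝ)))| ≤ (R : ℝ) ^ 2 * E' := by
      intro d hd d' hd'
      have hd0 := Nat.pos_of_mem_divisors hd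
      have hd'0 := Nat.pos_of_mem_divisors hd'
      have hdR : d ≤ R := (Nat.divisor_le hd).trans hq.1.2
      have hd'R : d' ≤ R := (Nat.divisor_le hd').trans hq'.1.2
      have hl1 : 1 ≤ Nat.lcm d d' := Nat.lcm_pos hd0 hd'0
      have hl2 : Nat.lcm d d' ≤ R ^ 2 := by
        calc Nat.lcm d d' ≤ d * d' := Nat.lcm_le_mul hd0 hd'0
          _ ≤ R * R := Nat.mul_le_mul hdR hd'R
          _ = R ^ 2 := by ring
      rw [abs_mul]
      apply mul_le_mul _ (hT _ hl1 hl2) (abs_nonneg _) (by positivity)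
      rw [abs_mul, abs_mul]
      have h1 : |(d : ℝ) * d'| ≤ (R : ℝ) ^ 2 := by
        rw [abs_of_nonneg (by positivity), sq]
        apply mul_le_mul (by exact_mod_cast hdR) (by exact_mod_cast hd'R) (by positivity)
          (by positivity)
      calc |(μ (q / d) : ℝ)| * |(μ (q' / d') : ℝ)| * |(d : ℝ) * d'| ≤ 1 * 1 * (R : ℝ) ^ 2 := by
            apply mul_le_mul _ h1 (abs_nonneg _) (by norm_num)
            apply mul_le_mul (hmu _) (hmu _) (abs_nonneg _) (by norm_num)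
        _ = _ := by ring
    have hcardq : ∀ q : ℕ, q ≤ R → (q.divisors.card : ℝ) ≤ R := by
      intro q hq
      have : q.divisors.card ≤ q := Nat.card_divisors_le_self q
      exact_mod_cast this.trans hq
    calc _ ≤ ∑ d ∈ q.divisors, ∑ d' ∈ q'.divisors, (R : ℝ) ^ 2 * E' := by
          refine (abs_sum_le_sum_abs _ _).trans (sum_le_sum fun d hd => ?_)
          exact (abs_sum_le_sum_abs _ _).trans (sum_le_sum fun d' hd' => hone d hd d' hd')
      _ = (q.divisors.card : ℝ) * (q'.divisors.card * ((R : ℝ) ^ 2 * E')) := by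
          simp [sum_const, nsmul_eq_mul]
      _ ≤ R * (R * ((R : ℝ) ^ 2 * E')) := by
          apply mul_le_mul (hcardq q hq.1.2) _ (by positivity) (by positivity)
          apply mul_le_mul_of_nonneg_right (hcardq q' hq'.1.2) (by positivity)
      _ = _ := by ring
  have hf2 : ∑ n ∈ Ioc P (2 * P), Ker H ((m : ℝ) / n) * (f n) ^ 2 ≤
      H * P * G + (R : ℝ) ^ 6 * E' := by
    have h1 : ∀ n : ℕ, Ker H ((m : ℝ) / n) * (f n) ^ 2 = ∑ q ∈ Qs, ∑ q' ∈ Qs,
        ((μ q : ℝ) / Nat.totient q) * ((μ q' : ℝ) / Nat.totient q') *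
          (Ker H ((m : ℝ) / n) * (cq q n * cq q' n)) := by
      intro n
      simp only [f]
      rw [sq, Finset.sum_mul_sum, Finset.mul_sum]
      refine Finset.sum_congr rfl fun q _ => ?_
      rw [Finset.mul_sum]
      refine Finset.sum_congr rfl fun q' _ => ?_
      ring
    simp_rw [h1]
    rw [Finset.sum_comm]
    have h3 : ∀ q ∈ Qs, ∑ n ∈ Ioc P (2 * P), ∑ q' ∈ Qs,
        ((μ q : ℝ) / Nat.totient q) * ((μ q' : ℝ) / Nat.totient q') *
          (Ker H ((m : ℝ) / n) * (cq q n * cq q' n)) =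
        ∑ q' ∈ Qs, ((μ q : ℝ) / Nat.totient q) * ((μ q' : ℝ) / Nat.totient q') *
          ∑ n ∈ Ioc P (2 * P), Ker H ((m : ℝ) / n) * (cq q n * cq q' n) := by
      intro q _
      rw [Finset.sum_comm]
      refine sum_congr rfl fun q' _ => ?_
      rw [Finset.mul_sum]
    rw [sum_congr rfl h3]
    have hw : ∀ q ∈ Qs, |(μ q : ℝ) / Nat.totient q| ≤ 1 := by
      intro q hq
      rw [hQs, mem_filter, mem_Icc] at hq
      have hpos : (1 : ℝ) ≤ Nat.totient q := by exact_mod_cast Nat.totient_pos.mpr hq.1.1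
      rw [abs_div, abs_of_pos (show (0 : ℝ) < Nat.totient q by linarith), div_le_one (by linarith)]
      have : |(μ q : ℝ)| ≤ 1 := by exact_mod_cast ArithmeticFunction.abs_moebius_le_one
      linarith
    have h4 : ∀ q ∈ Qs, ∑ q' ∈ Qs, ((μ q : ℝ) / Nat.totient q) * ((μ q' : ℝ) / Nat.totient q') *
          ∑ n ∈ Ioc P (2 * P), Ker H ((m : ℝ) / n) * (cq q n * cq q' n) ≤
        H * P * ((μ q : ℝ) ^ 2 / Nat.totient q) + R * ((R : ℝ) ^ 4 * E') := by
      intro q hq
      have h5 : ∀ q' ∈ Qs, ((μ q : ℝ) / Nat.totient q) * ((μ q' : ℝ) / Nat.totient q') *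
          ∑ n ∈ Ioc P (2 * P), Ker H ((m : ℝ) / n) * (cq q n * cq q' n) ≤
          (if q = q' then H * P * ((μ q : ℝ) ^ 2 / Nat.totient q) else 0) + (R : ℝ) ^ 4 * E' := by
        intro q' hq'
        have hc := hcross q hq q' hq'
        set X := ∑ n ∈ Ioc P (2 * P), Ker H ((m : ℝ) / n) * (cq q n * cq q' n) with hX
        set Y := H * P * (if q = q' then (Nat.totient q : ℝ) else 0) with hY
        have hwq := hw q hq
        have hwq' := hw q' hq'
        have hw2 : |((μ q : ℝ) / Nat.totient q) * ((μ q' : ℝ) / Nat.totient q')| ≤ 1 := by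
          rw [abs_mul]
          calc _ ≤ 1 * 1 := mul_le_mul hwq hwq' (abs_nonneg _) (by norm_num)
            _ = 1 := one_mul _
        have h6 : ((μ q : ℝ) / Nat.totient q) * ((μ q' : ℝ) / Nat.totient q') * (X - Y) ≤
            (R : ℝ) ^ 4 * E' := by
          refine (le_abs_self _).trans ?_
          rw [abs_mul]
          calc _ ≤ 1 * ((R : ℝ) ^ 4 * E') := mul_le_mul hw2 hc (abs_nonneg _) (by norm_num)
            _ = _ := one_mul _
        have h7 : ((μ q : ℝ) / Nat.totient q) * ((μ q' : ℝ) / Nat.totient q') * Y =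
            (if q = q' then H * P * ((μ q : ℝ) ^ 2 / Nat.totient q) else 0) := by
          by_cases h : q = q'
          · subst h
            rw [hQs, mem_filter, mem_Icc] at hq
            have hpos : (0 : ℝ) < Nat.totient q := by exact_mod_cast Nat.totient_pos.mpr hq.1.1
            rw [hY, if_pos rfl, if_pos rfl]
            field_simp
          · rw [hY, if_neg h, if_neg h]; ring
        have h8 : ((μ q : ℝ) / Nat.totient q) * ((μ q' : ℝ) / Nat.totient q') * X =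
          ((μ q : ℝ) / Nat.totient q) * ((μ q' : ℝ) / Nat.totient q') * (X - Y) +
          ((μ q : ℝ) / Nat.totient q) * ((μ q' : ℝ) / Nat.totient q') * Y := by ring
        rw [h8, h7]; linarith
      refine (sum_le_sum h5).trans ?_
      rw [sum_add_distrib, sum_ite_eq, if_pos hq, sum_const, nsmul_eq_mul]
      have hcQ : (Qs.card : ℝ) ≤ R := by
        have : Qs.card ≤ R := by
          refine (card_filter_le _ _).trans ?_
          simp
        exact_mod_cast this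
      have : (Qs.card : ℝ) * ((R : ℝ) ^ 4 * E') ≤ R * ((R : ℝ) ^ 4 * E') :=
        mul_le_mul_of_nonneg_right hcQ (by positivity)
      linarith
    refine (sum_le_sum h4).trans ?_
    rw [sum_add_distrib, ← mul_sum, sum_const, nsmul_eq_mul]
    have hcQ : (Qs.card : ℝ) ≤ R := by
      have : Qs.card ≤ R := by
        refine (card_filter_le _ _).trans ?_
        simp
      exact_mod_cast this
    have : (Qs.card : ℝ) * (R * ((R : ℝ) ^ 4 * E')) ≤ R * (R * ((R : ℝ) ^ 4 * E')) :=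
      mul_le_mul_of_nonneg_right hcQ (by positivity)
    have e : (R : ℝ) * (R * ((R : ℝ) ^ 4 * E')) = (R : ℝ) ^ 6 * E' := by ring
    rw [← hG]
    linarith
  set B := (Ioc P (2 * P)).filter (fun q => q.Prime ∧ m % q < L) with hB
  have hfB : ∀ q ∈ B, f q = G := by
    intro p hp
    rw [hB, mem_filter, mem_Ioc] at hp
    simp only [f, hG]
    refine Finset.sum_congr rfl fun q hq => ?_
    rw [hQs, mem_filter, mem_Icc] at hq
    have hcop : Nat.Coprime q p := by
      rw [Nat.coprime_comm, Nat.Prime.coprime_iff_not_dvd hp.2.1]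
      intro hdvd
      have := Nat.le_of_dvd hq.1.1 hdvd
      omega
    rw [cq_coprime q _ hq.1.1 hcop]
    ring
  have hmain : (B.card : ℝ) * (G ^ 2 * (H ^ 2 / 4)) ≤ H * P * G + (R : ℝ) ^ 6 * E' := by
    calc (B.card : ℝ) * (G ^ 2 * (H ^ 2 / 4)) = ∑ _q ∈ B, G ^ 2 * ((H : ℝ) ^ 2 / 4) := by
          simp
      _ ≤ ∑ n ∈ B, Ker H ((m : ℝ) / n) * (f n) ^ 2 := by
        apply Finset.sum_le_sum
        intro q hq
        rw [hfB q hq]
        rw [hB, mem_filter, mem_Ioc] at hq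
        have := Ker_lower H hH m q L P hq.1.1 hHL hq.2.2
        nlinarith [sq_nonneg G]
      _ ≤ ∑ n ∈ Ioc P (2 * P), Ker H ((m : ℝ) / n) * (f n) ^ 2 := by
        apply Finset.sum_le_sum_of_subset_of_nonneg
        · exact filter_subset _ _
        · intro n _ _
          exact mul_nonneg (Ker_nonneg _ _) (sq_nonneg _)
      _ ≤ _ := hf2
  have hG0 : 0 < G := by linarith
  have h1 : (B.card : ℝ) * G * (G * (H ^ 2 / 4)) ≤ (4 * P / H + 4 * R ^ 6 * (1 + E)) * (G * (H ^ 2 / 4)) := by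
    have e : (4 * P / H + 4 * R ^ 6 * (1 + E)) * (G * ((H : ℝ) ^ 2 / 4)) =
        H * P * G + (R : ℝ) ^ 6 * ((H : ℝ) ^ 2 * (1 + E)) * G := by
      field_simp
    rw [e]
    have h2 : E' ≤ (H : ℝ) ^ 2 * (1 + E) := by
      rw [hE']
      have : (1 : ℝ) ≤ H := by exact_mod_cast hH
      nlinarith
    have h3 : (R : ℝ) ^ 6 * E' ≤ (R : ℝ) ^ 6 * ((H : ℝ) ^ 2 * (1 + E)) * G := by
      calc (R : ℝ) ^ 6 * E' ≤ (R : ℝ) ^ 6 * ((H : ℝ) ^ 2 * (1 + E)) :=
            mul_le_mul_of_nonneg_left h2 (by positivity)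
        _ = (R : ℝ) ^ 6 * ((H : ℝ) ^ 2 * (1 + E)) * 1 := (mul_one _).symm
        _ ≤ _ := mul_le_mul_of_nonneg_left hG1 (by positivity)
    calc (B.card : ℝ) * G * (G * (H ^ 2 / 4)) = (B.card : ℝ) * (G ^ 2 * (H ^ 2 / 4)) := by ring
      _ ≤ _ := hmain
      _ ≤ _ := by linarith
  have h2 : (B.card : ℝ) * G ≤ 4 * P / H + 4 * R ^ 6 * (1 + E) :=
    le_of_mul_le_mul_right h1 (by positivity)
  calc (B.card : ℝ) * (Real.log (R + 1) / 2) ≤ (B.card : ℝ) * G := by
        apply mul_le_mul_of_nonneg_left hGlow; positivity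
    _ ≤ _ := h2

end Pool.Agent.Work.MP_0b7501_nt
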