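import Mathlib
import Pool.Agent.Work.MP_0b7501_nt.BlockE3

/-!
Block E of MP_0b7501_nt, final statement: primes `q ~ P` with `m % q < L` (helper70).
-/

set_option autoImplicit false

namespace Pool.Agent.Work.MP_0b7501_nt

open Finset Complex Filter

lemma sum_Ioc_ex (a b : ℕ) (A : ℝ) :
    ∑ n ∈ Ioc a b, ex (A / (n : ℝ)) = ∑ n ∈ range (b - a), ex (A / (((a + 1 : ℕ) : ℝ) + n)) := by
  have : Ioc a b = Ico (a + 1) (b + 1) := by
    ext x; simp only [mem_Ioc, mem_Ico]; omega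
  rw [this, sum_Ico_eq_sum_range, Nat.add_sub_add_right]
  refine sum_congr rfl fun n _ => ?_
  push_cast; rfl

lemma eventually_log_sq (K s : ℝ) (hs : 0 < s) :
    ∀ᶠ m : ℕ in atTop, K * (Real.log m) ^ 2 ≤ (m : ℝ) ^ s := by
  have h1 : (fun x : ℝ => Real.log x) =o[atTop] fun x => x ^ (s / 4) :=
    isLittleO_log_rpow_atTop (by positivity)
  have h2 : ∀ᶠ x : ℝ in atTop, ‖Real.log x‖ ≤ 1 * ‖x ^ (s / 4)‖ := h1.bound one_pos
  have h3 : Tendsto (fun x : ℝ => x ^ (s / 2)) atTop atTop := tendsto_rpow_atTop (by positivity)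
  have h4 : ∀ᶠ x : ℝ in atTop, |K| ≤ x ^ (s / 2) := h3.eventually_ge_atTop _
  have h5 : ∀ᶠ x : ℝ in atTop, K * (Real.log x) ^ 2 ≤ x ^ s := by
    filter_upwards [h2, h4, eventually_ge_atTop 1] with x hx hK h1
    have hx0 : 0 < x := by linarith
    have hlog : 0 ≤ Real.log x := Real.log_nonneg h1
    rw [one_mul, Real.norm_of_nonneg hlog, Real.norm_of_nonneg (by positivity)] at hx
    calc K * (Real.log x) ^ 2 ≤ |K| * (Real.log x) ^ 2 :=
          mul_le_mul_of_nonneg_right (le_abs_self _) (by positivity)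
      _ ≤ x ^ (s / 2) * (x ^ (s / 4)) ^ 2 :=
          mul_le_mul hK (pow_le_pow_left₀ hlog hx 2) (by positivity) (by positivity)
      _ = x ^ s := by
          rw [← Real.rpow_natCast, ← Real.rpow_mul hx0.le, ← Real.rpow_add hx0]
          congr 1; push_cast; ring
  exact tendsto_natCast_atTop_atTop.eventually h5

/-- the exponential sums over multiples -/
lemma E_bound (K : ℕ) (C c δ : ℝ) (hc : 0 < c) (hc1 : c ≤ 1) (hC : 1 ≤ C) (hδ : 0 < δ)
    (hK : 2 / δ ≤ K)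
    (hexp : ∀ N : ℝ, 1 ≤ N → ∀ A : ℝ, N ^ (8 / 5 : ℝ) ≤ A → A ≤ N ^ ((K : ℝ) + 2 + 3 / 4) →
      ∀ x0 M : ℕ, N ≤ x0 → (x0 : ℝ) + M ≤ 3 * N →
      ‖∑ n ∈ range M, ex (A / ((x0 : ℝ) + n))‖ ≤ C * N ^ (1 - c))
    (m P : ℕ) (hm1 : 1 ≤ m) (hP1 : 1 ≤ P) (hmP : (m : ℝ) ^ δ ≤ P) (hPm : (P : ℝ) ≤ (m : ℝ) ^ (3 / 5 : ℝ))
    (l : ℕ) (hl1 : 1 ≤ l) (hl : (l : ℝ) ≤ (P : ℝ) ^ (1 / 2 : ℝ)) (j : ℕ) (hj : 1 ≤ j) (hjP : j ≤ P) :
    ‖∑ n ∈ Ioc (P / l) (2 * P / l), ex (((j : ℝ) * m / l) / n)‖ ≤ C * (P : ℝ) ^ (1 - c) := by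
  have hl0 : (0 : ℝ) < l := by exact_mod_cast hl1
  have hl1' : (1 : ℝ) ≤ l := by exact_mod_cast hl1
  have hP0 : (0 : ℝ) < P := by exact_mod_cast hP1
  have hP1' : (1 : ℝ) ≤ P := by exact_mod_cast hP1
  have hm0 : (0 : ℝ) < m := by exact_mod_cast hm1
  have hm1' : (1 : ℝ) ≤ m := by exact_mod_cast hm1
  have hj1' : (1 : ℝ) ≤ j := by exact_mod_cast hj
  have hjP' : (j : ℝ) ≤ P := by exact_mod_cast hjP
  set N : ℝ := (P : ℝ) / l with hN
  have hNlow : (P : ℝ) ^ (1 / 2 : ℝ) ≤ N := by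
    rw [hN, le_div_iff₀ hl0]
    calc (P : ℝ) ^ (1 / 2 : ℝ) * l ≤ (P : ℝ) ^ (1 / 2 : ℝ) * (P : ℝ) ^ (1 / 2 : ℝ) :=
          mul_le_mul_of_nonneg_left hl (by positivity)
      _ = P := by rw [← Real.rpow_add hP0]; norm_num
  have hN1 : 1 ≤ N := (Real.one_le_rpow hP1' (by norm_num)).trans hNlow
  have hN0 : 0 < N := by linarith
  have hNP : N ≤ P := by rw [hN]; exact div_le_self hP0.le hl1'
  have hA1 : N ^ (8 / 5 : ℝ) ≤ (j : ℝ) * m / l := by
    have h1 : N ^ (8 / 5 : ℝ) = (P : ℝ) ^ (8 / 5 : ℝ) / (l : ℝ) ^ (8 / 5 : ℝ) := by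
      rw [hN, Real.div_rpow hP0.le hl0.le]
    have h2 : (l : ℝ) ≤ (l : ℝ) ^ (8 / 5 : ℝ) := by
      nth_rw 1 [← Real.rpow_one (l : ℝ)]
      exact Real.rpow_le_rpow_of_exponent_le hl1' (by norm_num)
    have h3 : (P : ℝ) ^ (8 / 5 : ℝ) ≤ m := by
      calc (P : ℝ) ^ (8 / 5 : ℝ) ≤ ((m : ℝ) ^ (3 / 5 : ℝ)) ^ (8 / 5 : ℝ) :=
            Real.rpow_le_rpow hP0.le hPm (by norm_num)
        _ = (m : ℝ) ^ (24 / 25 : ℝ) := by rw [← Real.rpow_mul hm0.le]; norm_num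
        _ ≤ (m : ℝ) ^ (1 : ℝ) := Real.rpow_le_rpow_of_exponent_le hm1' (by norm_num)
        _ = m := Real.rpow_one _
    rw [h1]
    apply div_le_div₀ (by positivity) _ hl0 h2
    nlinarith
  have hmP' : (m : ℝ) ≤ (P : ℝ) ^ (1 / δ) := by
    have h1 : ((m : ℝ) ^ δ) ^ (1 / δ) ≤ (P : ℝ) ^ (1 / δ) :=
      Real.rpow_le_rpow (by positivity) hmP (by positivity)
    rw [← Real.rpow_mul hm0.le, mul_one_div_cancel hδ.ne', Real.rpow_one] at h1
    exact h1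
  have hA2 : (j : ℝ) * m / l ≤ N ^ ((K : ℝ) + 2 + 3 / 4) := by
    have hK0 : (0 : ℝ) ≤ K := by positivity
    calc (j : ℝ) * m / l ≤ j * m := div_le_self (by positivity) hl1'
      _ ≤ P * (P : ℝ) ^ (1 / δ) := mul_le_mul hjP' hmP' hm0.le hP0.le
      _ = (P : ℝ) ^ (1 + 1 / δ) := by rw [Real.rpow_add hP0, Real.rpow_one]
      _ ≤ (P : ℝ) ^ (1 / 2 * ((K : ℝ) + 2 + 3 / 4)) := by
          apply Real.rpow_le_rpow_of_exponent_le hP1'
          have : 2 / δ = 2 * (1 / δ) := by ring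
          rw [this] at hK
          linarith
      _ = ((P : ℝ) ^ (1 / 2 : ℝ)) ^ ((K : ℝ) + 2 + 3 / 4) := by rw [Real.rpow_mul hP0.le]
      _ ≤ _ := Real.rpow_le_rpow (by positivity) hNlow (by positivity)
  have e : ∑ n ∈ Ioc (P / l) (2 * P / l), ex (((j : ℝ) * m / l) / n) =
      ∑ n ∈ range (2 * P / l - P / l), ex (((j : ℝ) * m / l) / (((P / l + 1 : ℕ) : ℝ) + n)) :=
    sum_Ioc_ex _ _ _
  rw [e]
  have a2 : ((2 * P / l : ℕ) : ℝ) ≤ ((2 * P : ℕ) : ℝ) / l := Nat.cast_div_le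
  have a3 : (P : ℝ) / l < ((P / l : ℕ) : ℝ) + 1 := by
    rw [div_lt_iff₀ hl0]
    have h2 : P < (P / l + 1) * l := by
      rw [mul_comm]; exact Nat.lt_mul_div_succ P (by omega)
    exact_mod_cast h2
  have a5 : ((2 * P : ℕ) : ℝ) / l = 2 * N := by rw [hN]; push_cast; ring
  refine (hexp N hN1 _ hA1 hA2 (P / l + 1) (2 * P / l - P / l) ?_ ?_).trans ?_
  · push_cast; rw [hN]; exact a3.le
  · have h1 : P / l ≤ 2 * P / l := Nat.div_le_div_right (by omega)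
    have h2 : (((P / l + 1 : ℕ) : ℝ) + ((2 * P / l - P / l : ℕ) : ℝ)) = ((2 * P / l : ℕ) : ℝ) + 1 := by
      rw [Nat.cast_sub h1]; push_cast; ring
    rw [h2]
    rw [a5] at a2
    linarith
  · apply mul_le_mul_of_nonneg_left _ (by linarith)
    exact Real.rpow_le_rpow hN0.le hNP (by linarith)

/-- **Block E.** For primes `q ~ P` the fractional parts of `m/q` hit `[0, L/q)` at most a constant
times the expected number of times. -/
theorem blockE (δ : ℝ) (hδ : 0 < δ) : ∃ C : ℝ, 0 < C ∧ ∀ᶠ m : ℕ in Filter.atTop, ∀ L P : ℕ,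
    (m:ℝ)^δ ≤ (L:ℝ) → L ≤ P → (P:ℝ) ≤ L * (Real.log m)^2 → (P:ℝ) ≤ (m:ℝ)^(3/5:ℝ) →
    (((Finset.Ioc P (2*P)).filter (fun q => q.Prime ∧ m % q < L)).card : ℝ) ≤
      C * L / Real.log m := by
  obtain ⟨C1, c, hC1, hc, hc1, hexp⟩ := exp_sum_recip (⌈2 / δ⌉₊)
  have hK : 2 / δ ≤ ((⌈2 / δ⌉₊ : ℕ) : ℝ) := Nat.le_ceil _
  refine ⟨420 / δ + 1176 / (c * δ), by positivity, ?_⟩
  have ev1 : ∀ᶠ m : ℕ in atTop, (2 : ℝ) ≤ (m : ℝ) ^ δ :=
    ((tendsto_rpow_atTop hδ).comp tendsto_natCast_atTop_atTop).eventually_ge_atTop 2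
  have ev2 := eventually_log_sq (8 * C1) (δ * (c / 2)) (by positivity)
  filter_upwards [ev1, ev2, eventually_ge_atTop 2] with m hm2 hmlog hmge L P hL hLP hPL hPm
  have hm1 : 1 ≤ m := by omega
  have hm0 : (0 : ℝ) < m := by exact_mod_cast hm1
  have hlogm : 0 < Real.log m := Real.log_pos (by exact_mod_cast (by omega : 1 < m))
  have hLP' : (L : ℝ) ≤ P := by exact_mod_cast hLP
  have hmP : (m : ℝ) ^ δ ≤ P := hL.trans hLP'
  have hP2' : (2 : ℝ) ≤ P := hm2.trans hmP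
  have hP2 : 2 ≤ P := by exact_mod_cast hP2'
  have hL2' : (2 : ℝ) ≤ L := hm2.trans hL
  have hL1 : 1 ≤ L := by
    have : (1 : ℝ) ≤ L := by linarith
    exact_mod_cast this
  have hL0 : (0 : ℝ) < L := by linarith
  have hP0 : (0 : ℝ) < P := by linarith
  have hP1' : (1 : ℝ) ≤ P := by linarith
  have hlogP : δ * Real.log m ≤ Real.log P := by
    rw [← Real.log_rpow hm0]
    exact Real.log_le_log (by positivity) hmP
  have hlogP0 : 0 < Real.log P := lt_of_lt_of_le (by positivity) hlogP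
  have hsplit : (420 / δ + 1176 / (c * δ)) * L / Real.log m =
      420 / δ * L / Real.log m + 1176 / (c * δ) * L / Real.log m := by ring
  rw [hsplit]
  have ht1 : 0 ≤ 420 / δ * L / Real.log m := by positivity
  have ht2 : 0 ≤ 1176 / (c * δ) * L / Real.log m := by positivity
  by_cases hcase : P < 6 * L
  · -- Brun-Titchmarsh
    have hbt := brun_titchmarsh P P hP2
    have hsub : (((Ioc P (2 * P)).filter (fun q => q.Prime ∧ m % q < L)).card : ℝ) ≤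
        (((Ioc P (P + P)).filter Nat.Prime).card : ℝ) := by
      have : (Ioc P (2 * P)).filter (fun q => q.Prime ∧ m % q < L) ⊆
          (Ioc P (P + P)).filter Nat.Prime := by
        intro q hq
        rw [mem_filter, mem_Ioc] at *
        exact ⟨⟨hq.1.1, by omega⟩, hq.2.1⟩
      exact_mod_cast card_le_card this
    have h1 : 70 * (P : ℝ) / Real.log P ≤ 420 / δ * L / Real.log m := by
      have h2 : (P : ℝ) ≤ 6 * L := by exact_mod_cast hcase.le
      have e : 420 / δ * L / Real.log m = 420 * L / (δ * Real.log m) := by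
        field_simp
      rw [e]
      apply div_le_div₀ (by positivity) (by linarith) (by positivity) hlogP
    linarith
  push Not at hcase
  set H : ℕ := P / (6 * L) with hH
  have h6L : 0 < 6 * L := by omega
  have hH1 : 1 ≤ H := by rw [hH]; exact (Nat.one_le_div_iff h6L).2 hcase
  have hHpos : (0 : ℝ) < H := by exact_mod_cast hH1
  have hHL : 6 * H * L ≤ P := by
    calc 6 * H * L = H * (6 * L) := by ring
      _ ≤ P := Nat.div_mul_le_self _ _
  have hHP : H ≤ P := Nat.div_le_self _ _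
  have hPH : (P : ℝ) / H ≤ 12 * L := by
    rw [div_le_iff₀ hHpos]
    have h1 : P < 6 * L * (H + 1) := Nat.lt_mul_div_succ P h6L
    have h2 : P ≤ 12 * L * H := by nlinarith
    exact_mod_cast h2
  set R : ℕ := ⌊(P : ℝ) ^ (c / 12)⌋₊ with hR
  have hPc : 1 ≤ (P : ℝ) ^ (c / 12) := Real.one_le_rpow hP1' (by positivity)
  have hR1 : 1 ≤ R := by rw [hR]; exact Nat.le_floor (by exact_mod_cast hPc)
  have hRle : (R : ℝ) ≤ (P : ℝ) ^ (c / 12) := Nat.floor_le (by positivity)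
  have hRP : R ≤ P := by
    have : (R : ℝ) ≤ P := hRle.trans (by
      nth_rw 2 [← Real.rpow_one (P : ℝ)]
      exact Real.rpow_le_rpow_of_exponent_le hP1' (by linarith))
    exact_mod_cast this
  have hcb := count_bound m P L H R (C1 * (P : ℝ) ^ (1 - c)) hH1 hR1 hRP hHL (by positivity) (by
    intro l hl1 hl2 j hj1 hj2
    apply E_bound _ C1 c δ hc hc1 hC1 hδ hK hexp m P hm1 (by omega) hmP hPm l hl1 _ j hj1 (by omega)
    calc (l : ℝ) ≤ (R : ℝ) ^ 2 := by exact_mod_cast hl2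
      _ ≤ ((P : ℝ) ^ (c / 12)) ^ 2 := pow_le_pow_left₀ (by positivity) hRle 2
      _ = (P : ℝ) ^ (c / 6) := by
          rw [← Real.rpow_natCast, ← Real.rpow_mul hP0.le]; congr 1; push_cast; ring
      _ ≤ (P : ℝ) ^ (1 / 2 : ℝ) := Real.rpow_le_rpow_of_exponent_le hP1' (by linarith))
  set B := (((Ioc P (2 * P)).filter (fun q => q.Prime ∧ m % q < L)).card : ℝ) with hB
  have hB0 : 0 ≤ B := by positivity
  -- the log factor
  have hlogR : c / 12 * (δ * Real.log m) ≤ Real.log (R + 1) := by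
    calc c / 12 * (δ * Real.log m) ≤ c / 12 * Real.log P :=
          mul_le_mul_of_nonneg_left hlogP (by positivity)
      _ = Real.log ((P : ℝ) ^ (c / 12)) := (Real.log_rpow hP0 _).symm
      _ ≤ _ := Real.log_le_log (by positivity) (Nat.lt_floor_add_one _).le
  -- the error term
  have hPc1 : 1 ≤ (P : ℝ) ^ (1 - c) := Real.one_le_rpow hP1' (by linarith)
  have herr : 4 * (R : ℝ) ^ 6 * (1 + C1 * (P : ℝ) ^ (1 - c)) ≤ L := by
    have h1 : (R : ℝ) ^ 6 ≤ (P : ℝ) ^ (c / 2) := by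
      calc (R : ℝ) ^ 6 ≤ ((P : ℝ) ^ (c / 12)) ^ 6 := pow_le_pow_left₀ (by positivity) hRle 6
        _ = _ := by
          rw [← Real.rpow_natCast, ← Real.rpow_mul hP0.le]; congr 1; push_cast; ring
    have h2 : 1 + C1 * (P : ℝ) ^ (1 - c) ≤ 2 * C1 * (P : ℝ) ^ (1 - c) := by nlinarith
    have h3 : 4 * (R : ℝ) ^ 6 * (1 + C1 * (P : ℝ) ^ (1 - c)) ≤
        4 * (P : ℝ) ^ (c / 2) * (2 * C1 * (P : ℝ) ^ (1 - c)) := by
      apply mul_le_mul _ h2 (by positivity) (by positivity)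
      linarith
    have h4 : 4 * (P : ℝ) ^ (c / 2) * (2 * C1 * (P : ℝ) ^ (1 - c)) = 8 * C1 * (P : ℝ) ^ (1 - c / 2) := by
      have : (P : ℝ) ^ (1 - c / 2) = (P : ℝ) ^ (c / 2) * (P : ℝ) ^ (1 - c) := by
        rw [← Real.rpow_add hP0]; congr 1; ring
      rw [this]; ring
    have h5 : 8 * C1 * (Real.log m) ^ 2 ≤ (P : ℝ) ^ (c / 2) := by
      refine hmlog.trans ?_
      rw [Real.rpow_mul hm0.le]
      exact Real.rpow_le_rpow (by positivity) hmP (by positivity)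
    have h6 : (P : ℝ) ^ (1 - c / 2) * (P : ℝ) ^ (c / 2) = P := by
      rw [← Real.rpow_add hP0]; norm_num
    have hpos2 : 0 < (P : ℝ) ^ (c / 2) := by positivity
    -- 8 C1 P^{1-c/2} ≤ L
    have h7 : 8 * C1 * (P : ℝ) ^ (1 - c / 2) * (P : ℝ) ^ (c / 2) ≤ L * (P : ℝ) ^ (c / 2) := by
      calc 8 * C1 * (P : ℝ) ^ (1 - c / 2) * (P : ℝ) ^ (c / 2) = 8 * C1 * P := by
            rw [mul_assoc, h6]
        _ ≤ 8 * C1 * (L * (Real.log m) ^ 2) := mul_le_mul_of_nonneg_left hPL (by positivity)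
        _ = L * (8 * C1 * (Real.log m) ^ 2) := by ring
        _ ≤ _ := mul_le_mul_of_nonneg_left h5 hL0.le
    have h8 := le_of_mul_le_mul_right h7 hpos2
    linarith
  have hmain : B * (c / 12 * (δ * Real.log m) / 2) ≤ 49 * L := by
    calc B * (c / 12 * (δ * Real.log m) / 2) ≤ B * (Real.log (R + 1) / 2) := by
          apply mul_le_mul_of_nonneg_left _ hB0; linarith
      _ ≤ 4 * P / H + 4 * R ^ 6 * (1 + C1 * (P : ℝ) ^ (1 - c)) := hcb
      _ ≤ 48 * L + L := by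
          have : 4 * (P : ℝ) / H = 4 * (P / H) := by ring
          rw [this]; linarith
      _ = _ := by ring
  have hfin : B ≤ 1176 / (c * δ) * L / Real.log m := by
    rw [le_div_iff₀ hlogm, div_mul_eq_mul_div, le_div_iff₀ (by positivity)]
    nlinarith
  linarith

end Pool.Agent.Work.MP_0b7501_nt
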