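import Pool.Agent.Work.MP_0b7501_nt.R1c

/-!
Lower bounds for the number of `m = p v`.
-/

namespace Pool.Agent.Work.MP_0b7501_nt

open Finset Filter

open Classical in
/-- integers `m = p v` in `(n/2, n]` with `v ∈ 𝒱` -/
noncomputable def MV (n : ℕ) (𝒱 : Finset ℕ) : Finset ℕ :=
  (Icc 1 n).filter (fun m => ∃ p v : ℕ, p.Prime ∧ v ∈ 𝒱 ∧ m = p * v ∧ n < 2 * m)

lemma MV_card (D : ℕ) (hD : 4 ≤ D) : ∀ᶠ n : ℕ in atTop, ∀ 𝒱 : Finset ℕ,
    (∀ v ∈ 𝒱, 1 ≤ v ∧ (v:ℝ) ≤ XX D n) →
    n / (8 * Real.log n) * ∑ v ∈ 𝒱, 1 / (v:ℝ) ≤ ((MV n 𝒱).card : ℝ) := by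
  classical
  obtain ⟨Y0, hY0⟩ := exists_half_primes
  filter_upwards [XX_ge (by omega : 0 < D) (Y0 + 2), four_sq_lt hD, log_ge (B := 1),
    eventually_ge_atTop 2] with n hXY h4 hlog hn2 𝒱 h𝒱
  obtain ⟨X, hX⟩ : ∃ X, X = XX D n := ⟨_, rfl⟩
  rw [← hX] at hXY h4 h𝒱
  have hY0R : (0:ℝ) ≤ Y0 := Nat.cast_nonneg Y0
  have hX0 : 0 < X := by linarith
  have hn0 : (0:ℝ) < n := by
    have : 0 < n := by omega
    exact_mod_cast this
  have hlog0 : 0 < Real.log n := by linarith
  -- the pieces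
  obtain ⟨P, hP⟩ : ∃ P : ℕ → Finset ℕ, P = fun v => (Ioc (n / v / 2) (n / v)).filter Nat.Prime :=
    ⟨_, rfl⟩
  have hmemP : ∀ v p, p ∈ P v → p.Prime ∧ n < 2 * (p * v) ∧ p * v ≤ n := by
    intro v p hp
    rw [hP] at hp
    simp only [mem_filter, mem_Ioc] at hp
    obtain ⟨⟨h1, h2⟩, h3⟩ := hp
    refine ⟨h3, ?_, ?_⟩
    · have h5 : n / v < 2 * p := by omega
      rcases Nat.eq_zero_or_pos v with hv | hv
      · subst hv
        simp only [Nat.div_zero] at h2
        have := h3.pos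
        omega
      · have h6 := (Nat.div_lt_iff_lt_mul hv).mp h5
        calc n < 2 * p * v := h6
          _ = 2 * (p * v) := by ring
    · calc p * v ≤ n / v * v := Nat.mul_le_mul_right v h2
        _ ≤ n := Nat.div_mul_le_self n v
  have hsub : 𝒱.biUnion (fun v => (P v).image (fun p => p * v)) ⊆ MV n 𝒱 := by
    intro m hm
    rw [mem_biUnion] at hm
    obtain ⟨v, hv, hm⟩ := hm
    rw [mem_image] at hm
    obtain ⟨p, hp, rfl⟩ := hm
    obtain ⟨h1, h2, h3⟩ := hmemP v p hp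
    unfold MV
    rw [mem_filter, mem_Icc]
    refine ⟨⟨?_, h3⟩, p, v, h1, hv, rfl, h2⟩
    have := h1.pos
    have := (h𝒱 v hv).1
    exact Nat.mul_pos h1.pos this
  have hdisj : (𝒱 : Set ℕ).PairwiseDisjoint (fun v => (P v).image (fun p => p * v)) := by
    intro v hv v' hv' hne
    simp only [Function.onFun]
    rw [Finset.disjoint_left]
    intro m hm hm'
    rw [mem_image] at hm hm'
    obtain ⟨p, hp, rfl⟩ := hm
    obtain ⟨p', hp', he⟩ := hm'
    obtain ⟨h1, h2, h3⟩ := hmemP v p hp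
    obtain ⟨h1', h2', h3'⟩ := hmemP v' p' hp'
    have hv0 := h𝒱 v hv
    have hv0' := h𝒱 v' hv'
    by_cases hpp : p = p'
    · subst hpp
      have := Nat.eq_of_mul_eq_mul_left h1.pos he
      exact hne this.symm
    · have hd : p ∣ v' := by
        have hd1 : p ∣ p' * v' := by rw [he]; exact Dvd.intro v rfl
        rcases (Nat.Prime.dvd_mul h1).mp hd1 with h | h
        · exact absurd ((Nat.prime_dvd_prime_iff_eq h1 h1').mp h) hpp
        · exact h
      have hle : p ≤ v' := Nat.le_of_dvd hv0'.1 hd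
      have hleR : (p:ℝ) ≤ X := le_trans (by exact_mod_cast hle) hv0'.2
      have h2R : (n:ℝ) < 2 * ((p:ℝ) * v) := by exact_mod_cast h2
      have : (p:ℝ) * v ≤ X * X := mul_le_mul hleR hv0.2 (Nat.cast_nonneg v) hX0.le
      nlinarith
  have hcard : ∑ v ∈ 𝒱, (P v).card ≤ (MV n 𝒱).card := by
    rw [← Finset.sum_congr rfl (fun v hv => Finset.card_image_of_injective (P v)
      (f := fun p => p * v) (fun p p' h => by
        exact Nat.eq_of_mul_eq_mul_right (h𝒱 v hv).1 h))]
    rw [← Finset.card_biUnion hdisj]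
    exact Finset.card_le_card hsub
  have hone : ∀ v ∈ 𝒱, n / (8 * Real.log n) * (1 / (v:ℝ)) ≤ ((P v).card : ℝ) := by
    intro v hv
    obtain ⟨hv1, hvX⟩ := h𝒱 v hv
    have hv0 : (0:ℝ) < v := by exact_mod_cast hv1
    have hnv : (n:ℝ) / v - 1 ≤ ((n / v : ℕ) : ℝ) := by
      have h1 : n < (n / v + 1) * v := by
        have := Nat.lt_div_mul_add (a := n) (b := v) hv1
        calc n < n / v * v + v := this
          _ = _ := by ring
      have h2 : (n:ℝ) < (((n / v : ℕ) : ℝ) + 1) * v := by exact_mod_cast h1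
      rw [← div_lt_iff₀ hv0] at h2
      linarith
    have hnvX : 4 * X ≤ (n:ℝ) / v := by
      rw [le_div_iff₀ hv0]
      calc 4 * X * v ≤ 4 * X * X := mul_le_mul_of_nonneg_left hvX (by linarith)
        _ = 4 * X ^ 2 := by ring
        _ ≤ n := h4.le
    have hxY : Y0 ≤ n / v := by
      have : (Y0:ℝ) ≤ ((n / v : ℕ) : ℝ) := by linarith
      exact_mod_cast this
    have hsum := hY0 (n / v) hxY
    have hsum2 : ∑ q ∈ (Ioc (n / v / 2) (n / v)).filter Nat.Prime, Real.log q ≤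
        ((P v).card : ℝ) * Real.log n := by
      rw [hP]
      simp only
      rw [← nsmul_eq_mul]
      apply Finset.sum_le_card_nsmul
      intro q hq
      rw [mem_filter, mem_Ioc] at hq
      apply Real.log_le_log
      · exact_mod_cast hq.2.pos
      · have : q ≤ n := le_trans hq.1.2 (Nat.div_le_self n v)
        exact_mod_cast this
    have h5 : (n:ℝ) / v / 2 ≤ ((n / v : ℕ) : ℝ) := by linarith
    have h6 : (n:ℝ) / v / 8 ≤ ((P v).card : ℝ) * Real.log n := by linarith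
    have h7 : n / (8 * Real.log n) * (1 / (v:ℝ)) = ((n:ℝ) / v / 8) / Real.log n := by
      field_simp
    rw [h7, div_le_iff₀ hlog0]
    exact h6
  calc n / (8 * Real.log n) * ∑ v ∈ 𝒱, 1 / (v:ℝ) = ∑ v ∈ 𝒱, n / (8 * Real.log n) * (1 / (v:ℝ)) := by
        rw [Finset.mul_sum]
    _ ≤ ∑ v ∈ 𝒱, ((P v).card : ℝ) := Finset.sum_le_sum hone
    _ = ((∑ v ∈ 𝒱, (P v).card : ℕ) : ℝ) := by push_cast; rfl
    _ ≤ _ := by exact_mod_cast hcard

open Classical in
/-- integers up to `Y` free of prime factors `≤ K` -/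
noncomputable def rough (K Y : ℕ) : Finset ℕ :=
  (Icc 1 Y).filter (fun v => ∀ q, q.Prime → q ∣ v → K < q)

lemma rough_sum (K Y : ℕ) (hK : 1 ≤ K) : Real.log Y / K ≤ ∑ v ∈ rough K Y, 1 / (v:ℝ) := by
  classical
  induction K, hK using Nat.le_induction with
  | base =>
    have h1 : rough 1 Y = Icc 1 Y := by
      unfold rough
      apply Finset.filter_true_of_mem
      intro v _ q hq _
      exact hq.one_lt
    rw [h1, Nat.cast_one, div_one]
    have h2 := log_add_one_le_harmonic Y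
    rcases Nat.eq_zero_or_pos Y with h | h
    · subst h; simp
    · have h3 : Real.log Y ≤ Real.log ((Y + 1 : ℕ) : ℝ) := by
        apply Real.log_le_log
        · exact_mod_cast h
        · push_cast; linarith
      refine (h3.trans h2).trans (le_of_eq ?_)
      unfold harmonic
      push_cast
      have e0 : ∀ x : ℕ, ((x:ℝ) + 1)⁻¹ = (((x + 1 : ℕ) : ℝ))⁻¹ := fun x => by push_cast; rfl
      rw [Finset.sum_congr rfl (fun x _ => e0 x)]
      rw [Finset.range_eq_Ico, Finset.sum_Ico_add' (fun x : ℕ => ((x:ℝ))⁻¹) 0 Y 1]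
      apply Finset.sum_congr
      · ext x; simp only [mem_Ico, mem_Icc]; omega
      · intro x _; rw [one_div]
  | succ K hK ih =>
    have hKR : (1:ℝ) ≤ K := by exact_mod_cast hK
    have hA0 : 0 ≤ ∑ v ∈ rough K Y, 1 / (v:ℝ) := by
      apply Finset.sum_nonneg; intro v _; positivity
    have hstep : (1 - 1 / ((K:ℝ) + 1)) * ∑ v ∈ rough K Y, 1 / (v:ℝ) ≤
        ∑ v ∈ rough (K + 1) Y, 1 / (v:ℝ) := by
      have hsplit : rough K Y ⊆ rough (K + 1) Y ∪ ((rough K Y).image (fun v => (K + 1) * v)) := by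
        intro v hv
        rw [mem_union]
        by_cases hv2 : v ∈ rough (K + 1) Y
        · exact Or.inl hv2
        · right
          unfold rough at hv hv2
          rw [mem_filter, mem_Icc] at hv hv2
          obtain ⟨⟨h1, h2⟩, h3⟩ := hv
          have : ¬ ∀ q, q.Prime → q ∣ v → K + 1 < q := fun h => hv2 ⟨⟨h1, h2⟩, h⟩
          push Not at this
          obtain ⟨q, hq, hqv, hqK⟩ := this
          have h4 := h3 q hq hqv
          have h5 : q = K + 1 := by omega
          subst h5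
          obtain ⟨u, rfl⟩ := hqv
          rw [mem_image]
          refine ⟨u, ?_, rfl⟩
          unfold rough
          rw [mem_filter, mem_Icc]
          have hu : 0 < u := Nat.pos_of_mul_pos_right (by omega : 0 < (K + 1) * u) |> fun _ => by
            rcases Nat.eq_zero_or_pos u with h | h
            · subst h; omega
            · exact h
          refine ⟨⟨hu, ?_⟩, fun r hr hru => h3 r hr (Dvd.dvd.mul_left hru _)⟩
          calc u = 1 * u := (one_mul u).symm
            _ ≤ (K + 1) * u := Nat.mul_le_mul_right u (by omega)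
            _ ≤ Y := h2
      have h1 : ∑ v ∈ rough K Y, 1 / (v:ℝ) ≤ ∑ v ∈ rough (K + 1) Y, 1 / (v:ℝ) +
          ∑ v ∈ (rough K Y).image (fun v => (K + 1) * v), 1 / (v:ℝ) := by
        refine (Finset.sum_le_sum_of_subset_of_nonneg hsplit
          (fun v _ _ => by positivity)).trans ?_
        rw [← Finset.sum_union_inter]
        have : 0 ≤ ∑ v ∈ rough (K + 1) Y ∩ (rough K Y).image (fun v => (K + 1) * v), 1 / (v:ℝ) := by
          apply Finset.sum_nonneg; intro v _; positivity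
        linarith
      have h2 : ∑ v ∈ (rough K Y).image (fun v => (K + 1) * v), 1 / (v:ℝ) =
          1 / ((K:ℝ) + 1) * ∑ v ∈ rough K Y, 1 / (v:ℝ) := by
        rw [Finset.sum_image (fun a _ b _ h => Nat.eq_of_mul_eq_mul_left (by omega) h),
          Finset.mul_sum]
        apply Finset.sum_congr rfl
        intro v _
        push_cast
        rw [one_div_mul_one_div]
      rw [h2] at h1
      linarith
    calc Real.log Y / ((K + 1 : ℕ) : ℝ) = (1 - 1 / ((K:ℝ) + 1)) * (Real.log Y / K) := by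
          push_cast
          field_simp
          ring
      _ ≤ (1 - 1 / ((K:ℝ) + 1)) * ∑ v ∈ rough K Y, 1 / (v:ℝ) := by
          apply mul_le_mul_of_nonneg_left ih
          rw [sub_nonneg, div_le_one (by linarith)]
          linarith
      _ ≤ _ := hstep

lemma sum_inv_sq_le (Y : ℕ) : ∑ d ∈ Icc 1 Y, 1 / ((d:ℝ) ^ 2) ≤ 2 := by
  have h : ∀ Y : ℕ, 1 ≤ Y → ∑ d ∈ Icc 1 Y, 1 / ((d:ℝ) ^ 2) ≤ 2 - 1 / (Y:ℝ) := by
    intro Y hY
    induction Y, hY using Nat.le_induction with
    | base => norm_num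
    | succ Y hY ih =>
      rw [Finset.sum_Icc_succ_top (by omega)]
      have hYR : (1:ℝ) ≤ Y := by exact_mod_cast hY
      have : 1 / (((Y + 1 : ℕ) : ℝ) ^ 2) ≤ 1 / (Y:ℝ) - 1 / ((Y + 1 : ℕ) : ℝ) := by
        push_cast
        rw [div_sub_div _ _ (by positivity) (by positivity), div_le_div_iff₀ (by positivity)
          (by positivity)]
        ring_nf
        nlinarith
      linarith
  rcases Nat.eq_zero_or_pos Y with h0 | h0
  · subst h0; simp
  · have := h Y h0
    have h2 : 0 ≤ 1 / (Y:ℝ) := by positivity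
    linarith

open Classical in
lemma rough_sf_sum (K Y : ℕ) (hK : 1 ≤ K) :
    Real.log Y / (2 * K) ≤ ∑ v ∈ (rough K Y).filter Squarefree, 1 / (v:ℝ) := by
  have h0 := rough_sum K Y hK
  have hsub : rough K Y ⊆ (((rough K Y).filter Squarefree) ×ˢ (Icc 1 Y)).image
      (fun sd => sd.1 * sd.2 ^ 2) := by
    intro v hv
    unfold rough at hv
    rw [mem_filter, mem_Icc] at hv
    obtain ⟨⟨h1, h2⟩, h3⟩ := hv
    obtain ⟨s, d, h4, h5⟩ := Nat.sq_mul_squarefree v
    rw [mem_image]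
    have hs0 : s ≠ 0 := h5.ne_zero
    have hd0 : d ≠ 0 := by
      rintro rfl
      simp at h4
      omega
    have hdpos : 0 < d := Nat.pos_of_ne_zero hd0
    have hspos : 0 < s := Nat.pos_of_ne_zero hs0
    refine ⟨(s, d), ?_, by simp only; rw [← h4]; ring⟩
    rw [mem_product, mem_filter, mem_Icc]
    refine ⟨⟨?_, h5⟩, hdpos, ?_⟩
    · unfold rough
      rw [mem_filter, mem_Icc]
      refine ⟨⟨hspos, ?_⟩, fun q hq hqs => h3 q hq (by rw [← h4]; exact Dvd.dvd.mul_left hqs _)⟩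
      calc s ≤ d ^ 2 * s := Nat.le_mul_of_pos_left s (by positivity)
        _ = v := h4
        _ ≤ Y := h2
    · calc d ≤ d ^ 2 := Nat.le_self_pow (by norm_num) d
        _ ≤ d ^ 2 * s := Nat.le_mul_of_pos_right _ hspos
        _ = v := h4
        _ ≤ Y := h2
  have h1 : ∑ v ∈ rough K Y, 1 / (v:ℝ) ≤
      ∑ sd ∈ ((rough K Y).filter Squarefree) ×ˢ (Icc 1 Y), 1 / ((sd.1 * sd.2 ^ 2 : ℕ) : ℝ) := by
    refine (Finset.sum_le_sum_of_subset_of_nonneg hsub (fun v _ _ => by positivity)).trans ?_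
    exact Finset.sum_image_le_of_nonneg (f := fun v : ℕ => 1 / (v:ℝ))
      (fun u _ => by positivity)
  have h2 : ∑ sd ∈ ((rough K Y).filter Squarefree) ×ˢ (Icc 1 Y), 1 / ((sd.1 * sd.2 ^ 2 : ℕ) : ℝ) =
      (∑ v ∈ (rough K Y).filter Squarefree, 1 / (v:ℝ)) * ∑ d ∈ Icc 1 Y, 1 / ((d:ℝ) ^ 2) := by
    rw [Finset.sum_product, Finset.sum_mul]
    apply Finset.sum_congr rfl
    intro s _
    rw [Finset.mul_sum]
    apply Finset.sum_congr rfl
    intro d _
    push_cast
    rw [one_div_mul_one_div]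
  have h3 : 0 ≤ ∑ v ∈ (rough K Y).filter Squarefree, 1 / (v:ℝ) := by
    apply Finset.sum_nonneg; intro v _; positivity
  have h4 := mul_le_mul_of_nonneg_left (sum_inv_sq_le Y) h3
  have h5 : Real.log Y / (2 * K) = Real.log Y / K / 2 := by
    rw [mul_comm, div_div]
  rw [h5]
  linarith

end Pool.Agent.Work.MP_0b7501_nt
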