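import Pool.Agent.Work.MP_0b7501_nt.R2a

/-!
Representations `a₁! ⋯ a_k!` that are squares, and the counting functions.
-/

namespace Pool.Agent.Work.MP_0b7501_nt

open Finset Filter

/-- `m` has a representation of length `k` -/
def HasRep (k m : ℕ) : Prop :=
  ∃ A : Finset ℕ, A.card = k ∧ m ∈ A ∧ (∀ a ∈ A, 1 ≤ a ∧ a ≤ m) ∧
    IsSquare (∏ a ∈ A, a.factorial)

/-- `m ∈ D_k`, that is `F(m) = k` -/
def InD (k m : ℕ) : Prop := 2 ≤ k ∧ HasRep k m ∧ ∀ j, 2 ≤ j → j < k → ¬ HasRep j m

open Classical in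
/-- `N_k(n)` -/
noncomputable def cnt (k n : ℕ) : ℕ := ((Icc 1 n).filter (fun m => InD k m)).card

lemma rep_seq {k m : ℕ} (h : HasRep (k + 1) m) : ∃ a : Fin (k + 1) → ℕ, StrictMono a ∧
    a (Fin.last k) = m ∧ (∀ i, 1 ≤ a i) ∧ ∀ q : ℕ, q.Prime → Even (∑ i, ev q 0 (a i)) := by
  obtain ⟨A, hc, hm, hA, r, hr⟩ := h
  have hmem := fun i => Finset.orderEmbOfFin_mem A hc i
  refine ⟨A.orderEmbOfFin hc, (A.orderEmbOfFin hc).strictMono, ?_, fun i => (hA _ (hmem i)).1, ?_⟩
  · apply le_antisymm
    · exact (hA _ (hmem _)).2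
    · have h1 : m ∈ Set.range (A.orderEmbOfFin hc) := by
        rw [Finset.range_orderEmbOfFin]; exact hm
      obtain ⟨i, hi⟩ := h1
      rw [← hi]
      exact (A.orderEmbOfFin hc).monotone (Fin.le_last i)
  · intro q hq
    have h1 : ∑ i, ev q 0 (A.orderEmbOfFin hc i) = ∑ a ∈ A, ev q 0 a := by
      conv_rhs => rw [← Finset.map_orderEmbOfFin_univ A hc]
      rw [Finset.sum_map]
      rfl
    rw [h1]
    have h2 : (∏ a ∈ A, a.factorial).factorization q = ∑ a ∈ A, ev q 0 a := by
      rw [Nat.factorization_prod (fun a _ => Nat.factorial_ne_zero a), Finsupp.finsetSum_apply]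
      exact Finset.sum_congr rfl fun a _ => (ev_zero_eq q a).symm
    rw [← h2, hr]
    have h3 : r ≠ 0 := by
      rintro rfl
      have : ∏ a ∈ A, a.factorial ≠ 0 := Finset.prod_ne_zero_iff.mpr
        (fun a _ => Nat.factorial_ne_zero a)
      exact this hr
    rw [Nat.factorization_mul h3 h3, Finsupp.add_apply]
    exact ⟨_, rfl⟩

lemma ev_self (q a : ℕ) : ev q a a = 0 := by
  unfold ev
  rw [Finset.Ioc_self, Finset.sum_empty]

lemma conf2 {m : ℕ} (h : HasRep 2 m) : ∃ c, Conf 0 c c c m := by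
  obtain ⟨a, ha, hm, h1, hp⟩ := rep_seq h
  have h01 : a 0 < a 1 := ha (by decide)
  have hm' : a 1 = m := hm
  subst hm'
  refine ⟨a 0, ⟨Nat.zero_le _, le_rfl, le_rfl, h01, fun q hq => ?_⟩⟩
  have h2 := hp q hq
  have e1 := ev_add (q := q) (Nat.zero_le (a 0)) h01.le
  have e2 := ev_self q 0
  rw [Fin.sum_univ_two] at h2
  rw [ev_self, ev_self]
  rw [Nat.even_iff] at h2 ⊢
  omega

lemma conf3 {m : ℕ} (h : HasRep 3 m) : ∃ y c, Conf y c c c m := by
  obtain ⟨a, ha, hm, h1, hp⟩ := rep_seq h
  have h01 : a 0 < a 1 := ha (by decide)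
  have h12 : a 1 < a 2 := ha (by decide)
  have hm' : a 2 = m := hm
  subst hm'
  refine ⟨a 0, a 1, ⟨h01.le, le_rfl, le_rfl, h12, fun q hq => ?_⟩⟩
  have h2 := hp q hq
  have e1 := ev_add (q := q) (Nat.zero_le (a 1)) h12.le
  rw [Fin.sum_univ_three] at h2
  rw [ev_self]
  rw [Nat.even_iff] at h2 ⊢
  omega

lemma conf4 {m : ℕ} (h : HasRep 4 m) : ∃ a b c, Conf 0 a b c m := by
  obtain ⟨a, ha, hm, h1, hp⟩ := rep_seq h
  have h01 : a 0 < a 1 := ha (by decide)
  have h12 : a 1 < a 2 := ha (by decide)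
  have h23 : a 2 < a 3 := ha (by decide)
  have hm' : a 3 = m := hm
  subst hm'
  refine ⟨a 0, a 1, a 2, ⟨Nat.zero_le _, h01.le, h12.le, h23, fun q hq => ?_⟩⟩
  have h2 := hp q hq
  have e1 := ev_add (q := q) (Nat.zero_le (a 2)) h23.le
  have e2 := ev_add (q := q) (Nat.zero_le (a 0)) h01.le
  rw [Fin.sum_univ_four] at h2
  rw [ev_self]
  rw [Nat.even_iff] at h2 ⊢
  omega

lemma conf5 {m : ℕ} (h : HasRep 5 m) : ∃ y a b c, Conf y a b c m := by
  obtain ⟨a, ha, hm, h1, hp⟩ := rep_seq h
  have h01 : a 0 < a 1 := ha (by decide)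
  have h12 : a 1 < a 2 := ha (by decide)
  have h23 : a 2 < a 3 := ha (by decide)
  have h34 : a 3 < a 4 := ha (by decide)
  have hm' : a 4 = m := hm
  subst hm'
  refine ⟨a 0, a 1, a 2, a 3, ⟨h01.le, h12.le, h23.le, h34, fun q hq => ?_⟩⟩
  have h2 := hp q hq
  have e1 := ev_add (q := q) (Nat.zero_le (a 3)) h34.le
  have e2 := ev_add (q := q) (Nat.zero_le (a 1)) h12.le
  rw [Fin.sum_univ_five] at h2
  rw [Nat.even_iff] at h2 ⊢
  omega

lemma fac_succ' {u : ℕ} (hu : 1 ≤ u) : u.factorial = u * (u - 1).factorial := by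
  obtain ⟨v, rfl⟩ : ∃ v, u = v + 1 := ⟨u - 1, by omega⟩
  rw [Nat.factorial_succ, Nat.add_sub_cancel]

/-- `m = 4u` has a representation of length 4 -/
lemma rep4_of {u : ℕ} (hu : 2 ≤ u) : HasRep 4 (4 * u) := by
  refine ⟨{u - 1, u, 4 * u - 1, 4 * u}, ?_, by simp, ?_, ?_⟩
  · rw [Finset.card_insert_of_notMem, Finset.card_insert_of_notMem, Finset.card_insert_of_notMem,
      Finset.card_singleton]
    all_goals simp only [mem_insert, mem_singleton]; omega
  · intro a ha
    simp only [mem_insert, mem_singleton] at ha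
    omega
  · rw [Finset.prod_insert (by simp only [mem_insert, mem_singleton]; omega),
      Finset.prod_insert (by simp only [mem_insert, mem_singleton]; omega),
      Finset.prod_insert (by simp only [mem_singleton]; omega), Finset.prod_singleton,
      fac_succ' (by omega : 1 ≤ u), fac_succ' (by omega : 1 ≤ 4 * u)]
    exact ⟨2 * u * (u - 1).factorial * (4 * u - 1).factorial, by ring⟩

/-- `m = 2u` has a representation of length 5 -/
lemma rep5_of {u : ℕ} (hu : 4 ≤ u) : HasRep 5 (2 * u) := by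
  refine ⟨{2, u - 1, u, 2 * u - 1, 2 * u}, ?_, by simp, ?_, ?_⟩
  · rw [Finset.card_insert_of_notMem, Finset.card_insert_of_notMem, Finset.card_insert_of_notMem,
      Finset.card_insert_of_notMem, Finset.card_singleton]
    all_goals simp only [mem_insert, mem_singleton]; omega
  · intro a ha
    simp only [mem_insert, mem_singleton] at ha
    omega
  · rw [Finset.prod_insert (by simp only [mem_insert, mem_singleton]; omega),
      Finset.prod_insert (by simp only [mem_insert, mem_singleton]; omega),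
      Finset.prod_insert (by simp only [mem_insert, mem_singleton]; omega),
      Finset.prod_insert (by simp only [mem_singleton]; omega), Finset.prod_singleton,
      fac_succ' (by omega : 1 ≤ u), fac_succ' (by omega : 1 ≤ 2 * u)]
    exact ⟨2 * u * (u - 1).factorial * (2 * u - 1).factorial, by
      rw [Nat.factorial_two]; ring⟩

/-- `m = ab` has a representation of length 6 -/
lemma rep6_of {a b : ℕ} (ha : 2 ≤ a) (hb : a + 2 ≤ b) : HasRep 6 (a * b) := by
  have h1 : 2 * b ≤ a * b := Nat.mul_le_mul_right b ha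
  refine ⟨{a - 1, a, b - 1, b, a * b - 1, a * b}, ?_, by simp, ?_, ?_⟩
  · rw [Finset.card_insert_of_notMem, Finset.card_insert_of_notMem, Finset.card_insert_of_notMem,
      Finset.card_insert_of_notMem, Finset.card_insert_of_notMem, Finset.card_singleton]
    all_goals simp only [mem_insert, mem_singleton]; omega
  · intro x hx
    simp only [mem_insert, mem_singleton] at hx
    omega
  · rw [Finset.prod_insert (by simp only [mem_insert, mem_singleton]; omega),
      Finset.prod_insert (by simp only [mem_insert, mem_singleton]; omega),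
      Finset.prod_insert (by simp only [mem_insert, mem_singleton]; omega),
      Finset.prod_insert (by simp only [mem_insert, mem_singleton]; omega),
      Finset.prod_insert (by simp only [mem_singleton]; omega), Finset.prod_singleton,
      fac_succ' (by omega : 1 ≤ a), fac_succ' (by omega : 1 ≤ b), fac_succ' (by omega : 1 ≤ a * b)]
    exact ⟨a * b * (a - 1).factorial * (b - 1).factorial * (a * b - 1).factorial, by ring⟩

lemma cnt_le (k n : ℕ) : cnt k n ≤ n := by
  classical
  unfold cnt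
  refine (Finset.card_filter_le _ _).trans ?_
  rw [Nat.card_Icc, Nat.add_sub_cancel]

end Pool.Agent.Work.MP_0b7501_nt
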