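import Pool.Agent.Work.MP_0b7501_nt.R2b

/-!
Step D: the last interval is long only if it has positive proportion; conclusion `R2`.
-/

namespace Pool.Agent.Work.MP_0b7501_nt

open Finset Filter

/-- the ratio of the two multiples of `q` -/
noncomputable def fr (b m q : ℕ) : ℚ := ((b / q : ℕ) : ℚ) / ((m / q : ℕ) : ℚ)

lemma mult_eq {q lo hi : ℕ} (hq : 0 < q) (h : ∃ j ∈ Ioc lo hi, q ∣ j) :
    lo < q * (hi / q) ∧ q * (hi / q) ≤ hi := by
  obtain ⟨j, hj, k, rfl⟩ := h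
  rw [mem_Ioc] at hj
  refine ⟨lt_of_lt_of_le hj.1 ?_, Nat.mul_div_le _ _⟩
  apply Nat.mul_le_mul_left
  rw [Nat.le_div_iff_mul_le hq]
  linarith [hj.2, mul_comm q k]

lemma fr_den_dvd (b m q : ℕ) : (fr b m q).den ∣ m / q := by
  have h := Rat.den_dvd ((b / q : ℕ) : ℤ) ((m / q : ℕ) : ℤ)
  have e : (((b / q : ℕ) : ℤ) : ℚ) / (((m / q : ℕ) : ℤ) : ℚ) = fr b m q := by
    unfold fr; push_cast; rfl
  have e2 : Rat.divInt ((b / q : ℕ) : ℤ) ((m / q : ℕ) : ℤ) = fr b m q := by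
    rw [Rat.divInt_eq_div, e]
  rw [e2] at h
  exact_mod_cast h

/-- choice of bound for one fibre -/
lemma fibre_bound {c m z d L1 : ℕ} (hd : 0 < d) (hL1 : m - c = L1) (hcm : c < m)
    (hz : L1 + 1 ≤ z) (S : Finset ℕ) (hS : ∀ q ∈ S, z < q ∧ q.Prime ∧ (∃ j ∈ Ioc c m, q ∣ j) ∧
      d ∣ m / q) :
    ∑ q ∈ S, Real.log q ≤ (L1:ℝ) / d + ((L1:ℝ) / d + 1) * Real.log (m / L1) := by
  have hm0 : 0 < m := by omega
  have hmR : (0:ℝ) < m := by exact_mod_cast hm0
  have hL1pos : 0 < L1 := by omega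
  have hL1R : (0:ℝ) < L1 := by exact_mod_cast hL1pos
  have hdR : (0:ℝ) < d := by exact_mod_cast hd
  have hsub : S ⊆ PS z (c / d) (m / d) := by
    intro q hq
    obtain ⟨h1, h2, h3, k, hk⟩ := hS q hq
    have h4 := mult_eq h2.pos h3
    rw [hk] at h4
    apply mem_PS_of h1 h2
    refine ⟨q * k, ?_, Dvd.intro _ rfl⟩
    rw [mem_Ioc]
    constructor
    · apply Nat.div_lt_of_lt_mul
      calc c < q * (d * k) := h4.1
        _ = d * (q * k) := by ring
    · rw [Nat.le_div_iff_mul_le hd]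
      calc q * k * d = q * (d * k) := by ring
        _ ≤ m := h4.2
  have h1 : ∑ q ∈ S, Real.log q ≤ W z (c / d) (m / d) := by
    unfold W
    apply Finset.sum_le_sum_of_subset_of_nonneg hsub
    intro q hq _
    exact Real.log_nonneg (by exact_mod_cast (mem_PS.mp hq).2.1.one_lt.le)
  have hdiff : m / d - c / d ≤ L1 / d + 1 := by
    have e1 : m / d ≤ c / d + L1 / d + 1 := by
      rw [← Nat.lt_succ_iff, Nat.div_lt_iff_lt_mul hd]
      have e1 := Nat.lt_div_mul_add (a := c) hd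
      have e2 := Nat.lt_div_mul_add (a := L1) hd
      have e3 : (c / d + L1 / d + 1).succ * d = c / d * d + L1 / d * d + 2 * d := by
        rw [Nat.succ_eq_add_one]; ring
      rw [e3]; omega
    rw [Nat.sub_le_iff_le_add]
    linarith
  have hdiff2 : ((m / d - c / d : ℕ) : ℝ) ≤ (L1:ℝ) / d + 1 := by
    have e1 : ((m / d - c / d : ℕ) : ℝ) ≤ ((L1 / d + 1 : ℕ) : ℝ) := by exact_mod_cast hdiff
    have e2 : ((L1 / d : ℕ) : ℝ) ≤ (L1:ℝ) / d := Nat.cast_div_le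
    push_cast at e1
    linarith
  have h2 := W_le (z := z) (lo := c / d) (hi := m / d)
    (hdiff.trans ((Nat.succ_le_succ (Nat.div_le_self _ _)).trans hz))
  have h3 := log_choose_le (m / d) (m / d - c / d) ((L1:ℝ) / m) (by positivity)
    (Nat.sub_le _ _)
  have h4 : (L1:ℝ) / m * ((m / d : ℕ) : ℝ) ≤ (L1:ℝ) / d := by
    have e1 : ((m / d : ℕ) : ℝ) ≤ (m:ℝ) / d := Nat.cast_div_le
    calc (L1:ℝ) / m * ((m / d : ℕ) : ℝ) ≤ (L1:ℝ) / m * ((m:ℝ) / d) :=
          mul_le_mul_of_nonneg_left e1 (by positivity)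
      _ = (L1:ℝ) / d := by field_simp
  have h5 : Real.log ((L1:ℝ) / m) = - Real.log (m / L1) := by
    rw [← Real.log_inv, inv_div]
  have h6 : 0 ≤ Real.log ((m:ℝ) / L1) := by
    apply Real.log_nonneg
    rw [le_div_iff₀ hL1R, one_mul]
    exact_mod_cast (by omega : L1 ≤ m)
  rw [h5] at h3
  have h7 : ((m / d - c / d : ℕ) : ℝ) * Real.log (m / L1) ≤
      ((L1:ℝ) / d + 1) * Real.log (m / L1) := mul_le_mul_of_nonneg_right hdiff2 h6
  linarith

lemma two_le_den {f : ℚ} (h0 : 0 < f) (h1 : f < 1) : 2 ≤ f.den := by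
  by_contra hcon
  have hp := f.pos
  have hd : f.den = 1 := by omega
  have h2 : f = f.num := by
    conv_lhs => rw [← Rat.num_div_den f, hd]
    simp
  rw [h2] at h0 h1
  have h3 : (0:ℤ) < f.num := by exact_mod_cast h0
  have h4 : f.num < (1:ℤ) := by exact_mod_cast h1
  omega

/-- the total weight of the large primes dividing the last interval -/
lemma weight_bound {y a b c m z L1 : ℕ} (hC : Conf y a b c m) (hL1 : m - c = L1)
    (hzy : y ≤ z) (hzL1 : L1 + 1 ≤ z) (hzm : m ≤ z ^ 2)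
    (hzL : m ≤ z * L1)
    (hJ : (m:ℝ) / z * ((b:ℝ) / c - (a:ℝ) / m) ≤ 1 / 8) (hc : 0 < c) :
    V z m c m ≤ (L1:ℝ) / 2 + ((L1:ℝ) / 2 + 1) * Real.log (m / L1) +
      (1 + 2 * Real.log (m / L1)) * L1 / 8 := by
  classical
  have hya := hC.hya
  have hab := hC.hab
  have hbc := hC.hbc
  have hcm := hC.hcm
  have hL1pos : 0 < L1 := by omega
  have hL1R : (0:ℝ) < L1 := by exact_mod_cast hL1pos
  have hmR : (0:ℝ) < m := by exact_mod_cast (by omega : 0 < m)
  have hcR : (0:ℝ) < c := by exact_mod_cast hc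
  have hzR : (0:ℝ) < z := by exact_mod_cast (by omega : 0 < z)
  obtain ⟨Λ, hΛ⟩ : ∃ Λ, Λ = Real.log ((m:ℝ) / L1) := ⟨_, rfl⟩
  rw [← hΛ]
  have hΛ0 : 0 ≤ Λ := by
    rw [hΛ]
    apply Real.log_nonneg
    rw [le_div_iff₀ hL1R, one_mul]
    exact_mod_cast (by omega : L1 ≤ m)
  set S := PM z m c m with hS
  -- facts about q in S
  have hfacts : ∀ q ∈ S, z < q ∧ q.Prime ∧ (∃ j ∈ Ioc c m, q ∣ j) ∧ (∃ j ∈ Ioc a b, q ∣ j) := by
    intro q hq
    obtain ⟨⟨h1, h2⟩, h3, h4⟩ := mem_PM.mp hq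
    refine ⟨h1, h3, h4, ?_⟩
    have hqsq : m < q ^ 2 := by
      have : z ^ 2 < q ^ 2 := Nat.pow_lt_pow_left h1 (by norm_num)
      omega
    have e1 : ev q c m = 1 := (ev_eq_one_iff h3 (by omega) hqsq).mpr h4
    have e2 : ev q 0 y = 0 := ev_zero_of_lt (by omega)
    have e3 := hC.par q h3
    rw [e1, e2] at e3
    have e4 : ev q a b ≠ 0 := by
      intro h0
      rw [h0] at e3
      exact absurd e3 (by decide)
    exact exists_mult_of_ev e4
  -- properties of the fraction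
  have hfr : ∀ q ∈ S, (a:ℝ) / m ≤ (fr b m q : ℝ) ∧ (fr b m q : ℝ) ≤ (b:ℝ) / c ∧
      ((fr b m q).den : ℝ) ≤ m / z ∧ 0 < fr b m q ∧ fr b m q < 1 := by
    intro q hq
    obtain ⟨h1, h2, h3, h4⟩ := hfacts q hq
    obtain ⟨u1, u2⟩ := mult_eq h2.pos h3
    obtain ⟨v1, v2⟩ := mult_eq h2.pos h4
    have hqR : (0:ℝ) < q := by exact_mod_cast h2.pos
    have hk1 : 0 < m / q := by
      rcases Nat.eq_zero_or_pos (m / q) with h | h
      · rw [h] at u1; omega
      · exact h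
    have hk2 : 0 < b / q := by
      rcases Nat.eq_zero_or_pos (b / q) with h | h
      · rw [h] at v1; omega
      · exact h
    have hk1R : (0:ℝ) < ((m / q : ℕ) : ℝ) := by exact_mod_cast hk1
    have hfe : (fr b m q : ℝ) = ((b / q : ℕ) : ℝ) / ((m / q : ℕ) : ℝ) := by
      unfold fr; push_cast; rfl
    have U1 : (c:ℝ) < q * ((m / q : ℕ) : ℝ) := by exact_mod_cast u1
    have U2 : (q:ℝ) * ((m / q : ℕ) : ℝ) ≤ m := by exact_mod_cast u2
    have V1 : (a:ℝ) < q * ((b / q : ℕ) : ℝ) := by exact_mod_cast v1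
    have V2 : (q:ℝ) * ((b / q : ℕ) : ℝ) ≤ b := by exact_mod_cast v2
    obtain ⟨x1, hx1⟩ : ∃ x1 : ℝ, x1 = ((m / q : ℕ) : ℝ) := ⟨_, rfl⟩
    obtain ⟨x2, hx2⟩ : ∃ x2 : ℝ, x2 = ((b / q : ℕ) : ℝ) := ⟨_, rfl⟩
    rw [← hx1] at hfe U1 U2 hk1R
    rw [← hx2] at hfe V1 V2
    have ha0 : (0:ℝ) ≤ a := Nat.cast_nonneg a
    have hb0 : (0:ℝ) ≤ b := Nat.cast_nonneg b
    refine ⟨?_, ?_, ?_, ?_, ?_⟩
    · rw [hfe, div_le_div_iff₀ hmR hk1R]
      have e1 : (q:ℝ) * (a * x1) ≤ q * (x2 * m) := by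
        calc (q:ℝ) * (a * x1) = a * (q * x1) := by ring
          _ ≤ a * m := mul_le_mul_of_nonneg_left U2 ha0
          _ ≤ (q * x2) * m := mul_le_mul_of_nonneg_right V1.le hmR.le
          _ = q * (x2 * m) := by ring
      exact le_of_mul_le_mul_left e1 hqR
    · rw [hfe, div_le_div_iff₀ hk1R hcR]
      have e1 : (q:ℝ) * (x2 * c) ≤ q * (b * x1) := by
        calc (q:ℝ) * (x2 * c) = (q * x2) * c := by ring
          _ ≤ b * c := mul_le_mul_of_nonneg_right V2 hcR.le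
          _ ≤ b * (q * x1) := mul_le_mul_of_nonneg_left U1.le hb0
          _ = q * (b * x1) := by ring
      exact le_of_mul_le_mul_left e1 hqR
    · have e1 : (fr b m q).den ≤ m / q := Nat.le_of_dvd hk1 (fr_den_dvd b m q)
      have e2 : m / q ≤ m / z := Nat.div_le_div_left (by omega) (by omega)
      have e3 : ((m / z : ℕ) : ℝ) ≤ (m:ℝ) / z := Nat.cast_div_le
      have e4 : ((fr b m q).den : ℝ) ≤ ((m / z : ℕ) : ℝ) := by exact_mod_cast e1.trans e2
      linarith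
    · unfold fr
      apply div_pos <;> exact_mod_cast (by assumption)
    · have e1 : (fr b m q : ℝ) < 1 := by
        rw [hfe, div_lt_one hk1R]
        have hbc' : (b:ℝ) ≤ c := by exact_mod_cast hbc
        have e1 : (q:ℝ) * x2 < q * x1 := by linarith
        exact lt_of_mul_lt_mul_left e1 hqR.le
      exact_mod_cast e1
  -- fibre sums
  have hfib : ∀ g ∈ S.image (fr b m), ∑ q ∈ S.filter (fun q => fr b m q = g), Real.log q ≤
      (L1:ℝ) / g.den + ((L1:ℝ) / g.den + 1) * Λ := by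
    intro g hg
    rw [hΛ]
    apply fibre_bound g.pos hL1 hcm hzL1
    intro q hq
    rw [mem_filter] at hq
    obtain ⟨h1, h2, h3, h4⟩ := hfacts q hq.1
    refine ⟨h1, h2, h3, ?_⟩
    rw [← hq.2]
    exact fr_den_dvd b m q
  have hsum : V z m c m = ∑ g ∈ S.image (fr b m),
      ∑ q ∈ S.filter (fun q => fr b m q = g), Real.log q := by
    unfold V
    rw [← Finset.sum_fiberwise_of_maps_to (g := fr b m) (t := S.image (fr b m))]
    intro q hq
    exact mem_image_of_mem _ hq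
  rw [hsum]
  rcases (S.image (fr b m)).eq_empty_or_nonempty with hE | ⟨g0, hg0⟩
  · rw [hE, sum_empty]
    positivity
  · rw [← Finset.add_sum_erase _ _ hg0]
    apply add_le_add
    · -- the special fraction
      refine (hfib g0 hg0).trans ?_
      obtain ⟨q0, hq0, hq0e⟩ := mem_image.mp hg0
      obtain ⟨_, _, _, h5, h6⟩ := hfr q0 hq0
      rw [hq0e] at h5 h6
      have hden := two_le_den h5 h6
      have hdenR : (2:ℝ) ≤ g0.den := by exact_mod_cast hden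
      have e1 : (L1:ℝ) / g0.den ≤ L1 / 2 :=
        div_le_div_of_nonneg_left hL1R.le (by norm_num) hdenR
      have e2 : ((L1:ℝ) / g0.den + 1) * Λ ≤ ((L1:ℝ) / 2 + 1) * Λ :=
        mul_le_mul_of_nonneg_right (by linarith) hΛ0
      linarith
    · -- the others
      obtain ⟨q0, hq0, hq0e⟩ := mem_image.mp hg0
      have hfar := farey_sum g0 ((m:ℝ) / z) ((a:ℝ) / m) ((b:ℝ) / c)
        (by rw [← hq0e]; exact (hfr q0 hq0).2.2.1)
        (by rw [← hq0e]; exact ⟨(hfr q0 hq0).1, (hfr q0 hq0).2.1⟩)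
        ((S.image (fr b m)).erase g0) (by
          intro g hg
          rw [mem_erase, mem_image] at hg
          obtain ⟨hne, q, hq, rfl⟩ := hg
          exact ⟨hne, (hfr q hq).2.2.1, (hfr q hq).1, (hfr q hq).2.1⟩)
      have h1 : ∀ g ∈ (S.image (fr b m)).erase g0,
          ∑ q ∈ S.filter (fun q => fr b m q = g), Real.log q ≤
          ((1 + 2 * Λ) * L1) * (1 / (g.den : ℝ)) := by
        intro g hg
        rw [mem_erase] at hg
        refine (hfib g hg.2).trans ?_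
        obtain ⟨q, hq, hqe⟩ := mem_image.mp hg.2
        have hd1 := (hfr q hq).2.2.1
        rw [hqe] at hd1
        have hgpos : (0:ℝ) < g.den := by exact_mod_cast g.pos
        have hd2 : (g.den:ℝ) ≤ L1 := by
          refine hd1.trans ?_
          rw [div_le_iff₀ hzR]
          have : (m:ℝ) ≤ z * L1 := by exact_mod_cast hzL
          linarith
        have e1 : 1 ≤ (L1:ℝ) / g.den := by rw [le_div_iff₀ hgpos]; linarith
        have e2 : ((L1:ℝ) / g.den + 1) * Λ ≤ (2 * (L1 / g.den)) * Λ :=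
          mul_le_mul_of_nonneg_right (by linarith) hΛ0
        calc (L1:ℝ) / g.den + ((L1:ℝ) / g.den + 1) * Λ
            ≤ (L1:ℝ) / g.den + (2 * (L1 / g.den)) * Λ := by linarith
          _ = ((1 + 2 * Λ) * L1) * (1 / (g.den : ℝ)) := by ring
      refine (Finset.sum_le_sum h1).trans ?_
      rw [← Finset.mul_sum]
      have h2 : ((1 + 2 * Λ) * L1) * ∑ g ∈ (S.image (fr b m)).erase g0, 1 / (g.den : ℝ) ≤
          ((1 + 2 * Λ) * L1) * (1 / 8) :=
        mul_le_mul_of_nonneg_left (hfar.trans hJ) (by positivity)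
      linarith

theorem stepD (κ : ℝ) (hκ : 0 < κ) (hκ1 : κ ≤ 1) : ∃ ε : ℝ, 0 < ε ∧ ∀ᶠ m : ℕ in atTop,
    ∀ y a b c, Conf y a b c m → m ^ 9 ≤ (max (m - c) (b - a)) ^ 10 →
    κ * ((b - a : ℕ) : ℝ) ≤ ((m - c : ℕ) : ℝ) → ε * m ≤ ((m - c : ℕ) : ℝ) := by
  obtain ⟨s, hs⟩ : ∃ s : ℕ, 89600 / κ ≤ s := exists_nat_ge _
  obtain ⟨T, hT⟩ : ∃ T : ℕ, T = 4 ^ s := ⟨_, rfl⟩
  have hTs : (s:ℝ) ≤ T := by
    have : s < 4 ^ s := Nat.lt_pow_self (by norm_num)
    rw [← hT] at this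
    exact_mod_cast this.le
  have hκT : 89600 ≤ κ * T := by
    have h1 : 89600 / κ ≤ T := hs.trans hTs
    rw [div_le_iff₀ hκ] at h1
    linarith
  refine ⟨Real.exp (-(8 * (142 + 11200 * s))), Real.exp_pos _, ?_⟩
  have hev : ∀ᶠ m : ℕ in atTop, (1 / κ) ^ 20 ≤ (m : ℝ) :=
    tendsto_natCast_atTop_atTop.eventually_ge_atTop _
  filter_upwards [hev, y_le, L1_le (1/2) (by norm_num) (by norm_num), eventually_ge_atTop 100]
    with m hm1 hyle hL1le hm3 y a b c hC hL hκL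
  have hya := hC.hya
  have hab := hC.hab
  have hbc := hC.hbc
  have hcm := hC.hcm
  have hy := hyle y a b c hC hL
  have hL1' := hL1le y a b c hC
  obtain ⟨L, hLdef⟩ : ∃ L, L = max (m - c) (b - a) := ⟨_, rfl⟩
  obtain ⟨L1, hL1⟩ : ∃ L1, L1 = m - c := ⟨_, rfl⟩
  obtain ⟨L2, hL2⟩ : ∃ L2, L2 = b - a := ⟨_, rfl⟩
  rw [← hLdef] at hL hy
  rw [← hL1] at hκL hL1' hLdef ⊢
  rw [← hL2] at hκL hLdef
  have hm1R : (1:ℝ) ≤ m := by exact_mod_cast (by omega : 1 ≤ m)
  have hmR : (0:ℝ) < m := by linarith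
  have hL1pos : 0 < L1 := by omega
  have hL1R : (0:ℝ) < L1 := by exact_mod_cast hL1pos
  -- κ L ≤ L1
  have hκLL : κ * L ≤ L1 := by
    rcases max_cases L1 L2 with ⟨h, _⟩ | ⟨h, _⟩
    · rw [hLdef, h]
      calc κ * L1 ≤ 1 * L1 := mul_le_mul_of_nonneg_right hκ1 hL1R.le
        _ = L1 := one_mul _
    · rw [hLdef, h]; exact hκL
  -- L1 ^ 20 ≥ m ^ 17
  have h20 : m ^ 17 ≤ L1 ^ 20 := by
    have h1 : (m:ℝ) ^ 17 ≤ (L1:ℝ) ^ 20 := by
      have e1 : (κ * L) ^ 20 ≤ (L1:ℝ) ^ 20 := pow_le_pow_left₀ (by positivity) hκLL 20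
      refine le_trans ?_ e1
      have e3 : (m:ℝ) ^ 9 ≤ (L:ℝ) ^ 10 := by exact_mod_cast hL
      have e5 : (m:ℝ) ^ 9 * (m:ℝ) ^ 9 ≤ (L:ℝ) ^ 10 * (L:ℝ) ^ 10 :=
        mul_le_mul e3 e3 (by positivity) (by positivity)
      have e6 : 1 ≤ κ ^ 20 * m := by
        have h5 : κ ^ 20 * (1 / κ) ^ 20 = 1 := by
          rw [← mul_pow]
          have : κ * (1 / κ) = 1 := by field_simp
          rw [this, one_pow]
        calc (1:ℝ) = κ ^ 20 * (1 / κ) ^ 20 := h5.symm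
          _ ≤ κ ^ 20 * m := mul_le_mul_of_nonneg_left hm1 (by positivity)
      calc (m:ℝ) ^ 17 = 1 * (m:ℝ) ^ 17 := by ring
        _ ≤ (κ ^ 20 * m) * (m:ℝ) ^ 17 := mul_le_mul_of_nonneg_right e6 (by positivity)
        _ = κ ^ 20 * ((m:ℝ) ^ 9 * (m:ℝ) ^ 9) := by ring
        _ ≤ κ ^ 20 * ((L:ℝ) ^ 10 * (L:ℝ) ^ 10) := mul_le_mul_of_nonneg_left e5 (by positivity)
        _ = (κ * L) ^ 20 := by ring
    exact_mod_cast h1
  have hmL1 : m ≤ L1 ^ 2 := by
    by_contra hcon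
    push Not at hcon
    have h1 : (L1 ^ 2) ^ 10 < m ^ 10 := Nat.pow_lt_pow_left hcon (by norm_num)
    have h2 : m ^ 10 ≤ m ^ 17 := Nat.pow_le_pow_right (by omega) (by norm_num)
    have h3 : (L1 ^ 2) ^ 10 = L1 ^ 20 := by ring
    omega
  have hL1ten : 10 ≤ L1 := by
    by_contra hcon
    push Not at hcon
    have : L1 ^ 2 ≤ 9 ^ 2 := Nat.pow_le_pow_left (by omega) 2
    omega
  have hL1tenR : (10:ℝ) ≤ L1 := by exact_mod_cast hL1ten
  -- the threshold z
  obtain ⟨z, hz⟩ : ∃ z, z = 4 ^ s * L1 := ⟨_, rfl⟩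
  have hzR : (z:ℝ) = T * L1 := by rw [hz, hT]; push_cast; ring
  have hT1 : (89600:ℝ) ≤ T := by
    have : κ * T ≤ 1 * T := mul_le_mul_of_nonneg_right hκ1 (Nat.cast_nonneg _)
    linarith
  have hzL1 : L1 + 1 ≤ z := by
    have : (L1:ℝ) + 1 ≤ z := by
      rw [hzR]
      have : 89600 * (L1:ℝ) ≤ T * L1 := mul_le_mul_of_nonneg_right hT1 hL1R.le
      linarith
    exact_mod_cast this
  have hL89 : 89600 * (L:ℝ) ≤ z := by
    rw [hzR]
    have e1 : 89600 * (L:ℝ) ≤ (κ * T) * L := mul_le_mul_of_nonneg_right hκT (Nat.cast_nonneg _)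
    have e2 : (κ * T) * (L:ℝ) = T * (κ * L) := by ring
    have e3 : (T:ℝ) * (κ * L) ≤ T * L1 := mul_le_mul_of_nonneg_left hκLL (Nat.cast_nonneg _)
    linarith
  have hyz : y ≤ z := by
    have e1 : (y:ℝ) ≤ 89600 * L := by exact_mod_cast hy
    have : (y:ℝ) ≤ z := by linarith
    exact_mod_cast this
  have hzm : m ≤ z ^ 2 := hmL1.trans (Nat.pow_le_pow_left (by omega) 2)
  have hzLm : m ≤ z * L1 := by
    calc m ≤ L1 ^ 2 := hmL1
      _ = L1 * L1 := by ring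
      _ ≤ z * L1 := Nat.mul_le_mul_right _ (by omega)
  have hcR : (m:ℝ) / 2 ≤ c := by
    have e1 : ((L1:ℕ):ℝ) = m - c := by rw [hL1, Nat.cast_sub hcm.le]
    linarith
  have hc0 : 0 < c := by
    have : (0:ℝ) < c := by linarith
    exact_mod_cast this
  have hc0R : (0:ℝ) < c := by exact_mod_cast hc0
  have hzpos : (0:ℝ) < z := by
    have : (0:ℝ) ≤ L := Nat.cast_nonneg _
    have h1 : (0:ℝ) < T * L1 := mul_pos (by linarith) hL1R
    rw [hzR]; exact h1
  -- the length of the interval of fractions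
  have hJ : (m:ℝ) / z * ((b:ℝ) / c - (a:ℝ) / m) ≤ 1 / 8 := by
    have e1 : (L1:ℝ) ≤ L := by exact_mod_cast (by rw [hLdef]; exact le_max_left _ _)
    have e2 : (L2:ℝ) ≤ L := by exact_mod_cast (by rw [hLdef]; exact le_max_right _ _)
    have e3 : (L1:ℝ) = m - c := by rw [hL1, Nat.cast_sub hcm.le]
    have e4 : (L2:ℝ) = b - a := by rw [hL2, Nat.cast_sub hab]
    have ham : (a:ℝ) ≤ m := by exact_mod_cast (by omega : a ≤ m)
    have e5 : (b:ℝ) / c - (a:ℝ) / m ≤ 2 * L / c := by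
      rw [div_sub_div _ _ hc0R.ne' hmR.ne', div_le_div_iff₀ (by positivity) hc0R]
      have e6 : (b:ℝ) * m - c * a ≤ 2 * L * m := by
        have e7 : (b:ℝ) * m - c * a = L2 * m + a * L1 := by rw [e3, e4]; ring
        have e8 : (L2:ℝ) * m ≤ L * m := mul_le_mul_of_nonneg_right e2 hmR.le
        have e9 : (a:ℝ) * L1 ≤ m * L := mul_le_mul ham e1 hL1R.le hmR.le
        linarith
      calc ((b:ℝ) * m - c * a) * c ≤ (2 * L * m) * c := mul_le_mul_of_nonneg_right e6 hc0R.le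
        _ = 2 * L * (c * m) := by ring
    calc (m:ℝ) / z * ((b:ℝ) / c - (a:ℝ) / m) ≤ (m:ℝ) / z * (2 * L / c) :=
          mul_le_mul_of_nonneg_left e5 (by positivity)
      _ = (m / c) * (2 * L / z) := by field_simp
      _ ≤ 2 * (2 * L / z) := by
          apply mul_le_mul_of_nonneg_right _ (by positivity)
          rw [div_le_iff₀ hc0R]; linarith
      _ ≤ 1 / 8 := by
          rw [← mul_div_assoc, div_le_iff₀ hzpos]
          linarith
  have hW2 := weight_bound hC hL1.symm hyz hzL1 hzm hzLm hJ hc0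
  -- lower bound
  obtain ⟨Λ, hΛdef⟩ : ∃ Λ, Λ = Real.log ((m:ℝ) / L1) := ⟨_, rfl⟩
  have hW := W_ge (lo := c) (hi := m) hcm.le (by
    rw [← hL1]
    have : L1 ^ 2 < (L1 + 1) ^ 2 := Nat.pow_lt_pow_left (by omega) (by norm_num)
    omega)
  rw [← hL1] at hW
  have hlow := low_choose (b := m) (L := L1) (by omega) (by
    have : (2:ℝ) * L1 ≤ m := by linarith
    exact_mod_cast this)
  have hsplit : W L1 c m = V L1 z c m + V z m c m := by
    rw [W_eq_V]
    by_cases hzm' : z ≤ m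
    · exact V_split (by omega) hzm'
    · push Not at hzm'
      have e1 : V L1 z c m = V L1 m c m := by
        apply le_antisymm
        · apply V_le_of_subset
          intro q hq
          obtain ⟨⟨h1, h2⟩, h3, j, hj, hd⟩ := mem_PM.mp hq
          rw [mem_Ioc] at hj
          have := Nat.le_of_dvd (by omega) hd
          exact mem_PM.mpr ⟨⟨h1, by omega⟩, h3, j, mem_Ioc.mpr hj, hd⟩
        · exact V_mono le_rfl hzm'.le le_rfl le_rfl
      have e2 : V z m c m = 0 := by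
        have e0 : Ioc z m = ∅ := Ioc_eq_empty_of_le hzm'.le
        unfold V PM
        rw [e0, filter_empty, sum_empty]
      rw [e1, e2, add_zero]
  have hV1 : V L1 z c m ≤ s * (11200 * L1) := by
    have h1 := V_pow m c L1 L1 s (by omega) (by omega) (by
      calc m ^ 11 ≤ m ^ 17 := Nat.pow_le_pow_right (by omega) (by norm_num)
        _ ≤ L1 ^ 20 := h20
        _ = (L1 * L1) ^ 10 := by ring)
    have h2 : c + L1 = m := by omega
    rw [h2, ← hz] at h1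
    exact h1
  have hpi : (((Ioc 0 L1).filter Nat.Prime).card : ℝ) * Real.log m ≤ 140 * L1 := by
    have h1 := brun_titchmarsh 0 L1 (by omega)
    rw [zero_add] at h1
    have hlog : 0 < Real.log L1 := Real.log_pos (by linarith)
    have h2 : Real.log m ≤ 2 * Real.log L1 := by
      have h3 : (m:ℝ) ≤ (L1:ℝ) ^ 2 := by exact_mod_cast hmL1
      have h4 := Real.log_le_log hmR h3
      rw [Real.log_pow] at h4
      exact_mod_cast h4
    calc (((Ioc 0 L1).filter Nat.Prime).card : ℝ) * Real.log m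
        ≤ (70 * L1 / Real.log L1) * (2 * Real.log L1) :=
          mul_le_mul h1 h2 (Real.log_nonneg hm1R) (by positivity)
      _ = 140 * L1 := by field_simp; norm_num
  rw [hsplit] at hW
  rw [← hΛdef] at hW2 hlow
  have hΛ0 : 0 ≤ Λ := by
    rw [hΛdef]
    apply Real.log_nonneg
    rw [le_div_iff₀ hL1R, one_mul]
    exact_mod_cast (by omega : L1 ≤ m)
  have hfin : (L1:ℝ) * (Λ - 1) ≤ L1 * (140 + s * 11200 + 1 / 2 + Λ / 2 + Λ / 10 +
      (1 + 2 * Λ) / 8) := by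
    have e1 : Λ ≤ L1 * (Λ / 10) := by
      have : 10 * (Λ / 10) ≤ L1 * (Λ / 10) := mul_le_mul_of_nonneg_right hL1tenR (by positivity)
      linarith
    have e2 : (L1:ℝ) * (140 + s * 11200 + 1 / 2 + Λ / 2 + Λ / 10 + (1 + 2 * Λ) / 8) =
      140 * L1 + s * (11200 * L1) + L1 / 2 + L1 / 2 * Λ + L1 * (Λ / 10) +
      (1 + 2 * Λ) * L1 / 8 := by ring
    rw [e2]
    linarith
  have hfin2 := le_of_mul_le_mul_left hfin hL1R
  have hΛle : Λ ≤ 8 * (142 + 11200 * s) := by linarith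
  rw [hΛdef, Real.log_le_iff_le_exp (by positivity), div_le_iff₀ hL1R] at hΛle
  rw [Real.exp_neg]
  rw [inv_mul_le_iff₀ (Real.exp_pos _)]
  exact hΛle

/-- **R2**: both intervals are short -/
theorem R2 : ∀ᶠ m : ℕ in atTop, ∀ y a b c, Conf y a b c m →
    (max (m - c) (b - a)) ^ 10 < m ^ 9 := by
  obtain ⟨κ, hκ, hκ1, hstepC⟩ := stepC
  obtain ⟨ε, hε, hstepD⟩ := stepD κ hκ hκ1
  filter_upwards [hstepC, hstepD, L1_le (min ε (1/2)) (by positivity) (min_le_right _ _),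
    eventually_gt_atTop 0] with m h1 h2 h3 h0 y a b c hC
  by_contra hcon
  push Not at hcon
  have hmR : (0:ℝ) < m := by exact_mod_cast h0
  have h4 : κ * ((b - a : ℕ) : ℝ) ≤ ((m - c : ℕ) : ℝ) := by
    rcases max_cases (m - c) (b - a) with ⟨h, h'⟩ | ⟨h, _⟩
    · have e1 : ((b - a : ℕ) : ℝ) ≤ ((m - c : ℕ) : ℝ) := by exact_mod_cast h'
      have e2 : (0:ℝ) ≤ ((b - a : ℕ) : ℝ) := Nat.cast_nonneg _
      calc κ * ((b - a : ℕ) : ℝ) ≤ 1 * ((b - a : ℕ) : ℝ) := mul_le_mul_of_nonneg_right hκ1 e2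
        _ ≤ _ := by rw [one_mul]; exact e1
    · rw [h] at hcon
      exact h1 y a b c hC hcon
  have h5 := h2 y a b c hC hcon h4
  have h6 := h3 y a b c hC
  have h7 : min ε (1/2) * (m:ℝ) ≤ ε * m := mul_le_mul_of_nonneg_right (min_le_left _ _) hmR.le
  linarith

end Pool.Agent.Work.MP_0b7501_nt
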