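import Mathlib

/-!
Gallagher's larger sieve.
-/

namespace Pool.Agent.Work.MP_0b7501_nt

open Finset

lemma sum_log_dvd_le (S : Finset ℕ) (hS : ∀ q ∈ S, q.Prime) (D X : ℕ) (hD : 0 < D) (hX : D ≤ X) :
    ∑ q ∈ S, (if q ∣ D then Real.log q else 0) ≤ Real.log X := by
  rw [← Finset.sum_filter, ← Real.log_prod]
  · have h1 : (∏ q ∈ S.filter (fun q => q ∣ D), q) ∣ D := by
      apply Finset.prod_primes_dvd
      · intro q hq; rw [mem_filter] at hq; exact (hS q hq.1).prime
      · intro q hq; rw [mem_filter] at hq; exact hq.2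
    have h2 := (Nat.le_of_dvd hD h1).trans hX
    apply Real.log_le_log
    · apply Finset.prod_pos
      intro q hq
      rw [mem_filter] at hq
      exact_mod_cast (hS q hq.1).pos
    · calc (∏ q ∈ S.filter (fun q => q ∣ D), (q:ℝ)) =
          ((∏ q ∈ S.filter (fun q => q ∣ D), q : ℕ) : ℝ) := by push_cast; rfl
        _ ≤ X := by exact_mod_cast h2
  · intro q hq
    rw [mem_filter] at hq
    exact_mod_cast (hS q hq.1).pos.ne'

/-- Gallagher's larger sieve -/
theorem larger_sieve (A : Finset ℕ) (X : ℕ) (hX1 : 1 ≤ X)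
    (hX : ∀ a ∈ A, ∀ b ∈ A, a < b → b - a ≤ X)
    (S : Finset ℕ) (hS : ∀ q ∈ S, q.Prime) (ρ : ℝ) (hρ : 0 < ρ) (R : ℕ → Finset ℕ)
    (hR : ∀ q ∈ S, ((R q).card : ℝ) ≤ ρ) (hA : ∀ q ∈ S, ∀ a ∈ A, a % q ∈ R q) :
    (A.card : ℝ) * ((∑ q ∈ S, Real.log q) / ρ - Real.log X) ≤ ∑ q ∈ S, Real.log q := by
  have hlog : ∀ q ∈ S, 0 ≤ Real.log q := fun q hq =>
    Real.log_nonneg (by exact_mod_cast (hS q hq).one_lt.le)
  have hlogX : 0 ≤ Real.log X := Real.log_nonneg (by exact_mod_cast hX1)
  rcases A.eq_empty_or_nonempty with hE | hne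
  · subst hE
    simp only [card_empty, Nat.cast_zero, zero_mul]
    exact Finset.sum_nonneg hlog
  have hApos : (0:ℝ) < A.card := by exact_mod_cast hne.card_pos
  obtain ⟨Θ, hΘ⟩ : ∃ Θ, Θ = ∑ q ∈ S, Real.log q := ⟨_, rfl⟩
  have hΘ0 : 0 ≤ Θ := by rw [hΘ]; exact Finset.sum_nonneg hlog
  rw [← hΘ]
  -- lower bound for one prime
  have hlow : ∀ q ∈ S, (A.card : ℝ) ^ 2 / ρ ≤
      ∑ a ∈ A, ∑ b ∈ A, (if a % q = b % q then (1:ℝ) else 0) := by
    intro q hq
    have h1 : (A.card : ℝ) = ∑ r ∈ R q, ((A.filter (fun a => a % q = r)).card : ℝ) := by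
      have := Finset.card_eq_sum_card_fiberwise (f := fun a => a % q) (s := A) (t := R q)
        (fun a ha => hA q hq a ha)
      exact_mod_cast this
    have h2 : (A.card : ℝ) ^ 2 ≤ (R q).card * ∑ r ∈ R q,
        ((A.filter (fun a => a % q = r)).card : ℝ) ^ 2 := by
      rw [h1]; exact sq_sum_le_card_mul_sum_sq
    have h3 : ∑ r ∈ R q, ((A.filter (fun a => a % q = r)).card : ℝ) ^ 2 ≤
        ∑ a ∈ A, ∑ b ∈ A, (if a % q = b % q then (1:ℝ) else 0) := by
      have h4 : ∀ r ∈ R q, ((A.filter (fun a => a % q = r)).card : ℝ) ^ 2 =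
          ∑ a ∈ A, ∑ b ∈ A, (if a % q = r then (1:ℝ) else 0) * (if b % q = r then 1 else 0) := by
        intro r _
        rw [sq, Finset.card_filter]
        push_cast
        rw [Finset.sum_mul_sum]
      rw [Finset.sum_congr rfl h4, Finset.sum_comm]
      apply Finset.sum_le_sum
      intro a _
      rw [Finset.sum_comm]
      apply Finset.sum_le_sum
      intro b _
      by_cases hab : a % q = b % q
      · rw [if_pos hab]
        calc ∑ r ∈ R q, (if a % q = r then (1:ℝ) else 0) * (if b % q = r then 1 else 0)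
            ≤ ∑ r ∈ R q, (if a % q = r then (1:ℝ) else 0) := by
              apply Finset.sum_le_sum
              intro r _
              split_ifs <;> norm_num
          _ ≤ 1 := by
              rw [Finset.sum_ite_eq]
              split_ifs <;> norm_num
      · rw [if_neg hab]
        apply le_of_eq
        apply Finset.sum_eq_zero
        intro r _
        by_cases h5 : a % q = r
        · have : b % q ≠ r := fun h => hab (h5.trans h.symm)
          simp [this]
        · simp [h5]
    rw [div_le_iff₀ hρ]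
    have h6 : 0 ≤ ∑ a ∈ A, ∑ b ∈ A, (if a % q = b % q then (1:ℝ) else 0) := by
      apply Finset.sum_nonneg; intro a _; apply Finset.sum_nonneg; intro b _
      split_ifs <;> norm_num
    calc (A.card : ℝ) ^ 2 ≤ (R q).card * ∑ r ∈ R q,
          ((A.filter (fun a => a % q = r)).card : ℝ) ^ 2 := h2
      _ ≤ ρ * ∑ a ∈ A, ∑ b ∈ A, (if a % q = b % q then (1:ℝ) else 0) := by
          apply mul_le_mul (hR q hq) h3 _ hρ.le
          apply Finset.sum_nonneg; intro r _; positivity
      _ = _ := by ring
  -- total lower bound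
  have hlowT : (A.card : ℝ) ^ 2 / ρ * Θ ≤ ∑ q ∈ S, Real.log q *
      ∑ a ∈ A, ∑ b ∈ A, (if a % q = b % q then (1:ℝ) else 0) := by
    rw [hΘ, Finset.mul_sum]
    apply Finset.sum_le_sum
    intro q hq
    rw [mul_comm]
    exact mul_le_mul_of_nonneg_left (hlow q hq) (hlog q hq)
  -- total upper bound
  have hup : ∑ q ∈ S, Real.log q *
      ∑ a ∈ A, ∑ b ∈ A, (if a % q = b % q then (1:ℝ) else 0) ≤
      A.card * Θ + (A.card : ℝ) ^ 2 * Real.log X := by
    simp_rw [Finset.mul_sum]
    rw [Finset.sum_comm]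
    have h1 : ∀ a ∈ A, ∑ q ∈ S, ∑ b ∈ A, Real.log q * (if a % q = b % q then (1:ℝ) else 0) ≤
        Θ + A.card * Real.log X := by
      intro a ha
      rw [Finset.sum_comm]
      have h2 : ∀ b ∈ A, ∑ q ∈ S, Real.log q * (if a % q = b % q then (1:ℝ) else 0) ≤
          (if b = a then Θ else 0) + Real.log X := by
        intro b hb
        by_cases hab : b = a
        · subst hab
          rw [if_pos rfl, hΘ]
          simp only [if_true, mul_one]
          linarith
        · rw [if_neg hab, zero_add]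
          rcases lt_or_gt_of_ne hab with h | h
          · refine le_trans ?_ (sum_log_dvd_le S hS (a - b) X (by omega) (hX b hb a ha h))
            apply Finset.sum_le_sum
            intro q hq
            by_cases h3 : a % q = b % q
            · have h4 : q ∣ a - b := (Nat.modEq_iff_dvd' h.le).mp h3.symm
              rw [if_pos h3, if_pos h4, mul_one]
            · rw [if_neg h3, mul_zero]
              split_ifs
              · exact hlog q hq
              · exact le_rfl
          · refine le_trans ?_ (sum_log_dvd_le S hS (b - a) X (by omega) (hX a ha b hb h))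
            apply Finset.sum_le_sum
            intro q hq
            by_cases h3 : a % q = b % q
            · have h4 : q ∣ b - a := (Nat.modEq_iff_dvd' h.le).mp h3
              rw [if_pos h3, if_pos h4, mul_one]
            · rw [if_neg h3, mul_zero]
              split_ifs
              · exact hlog q hq
              · exact le_rfl
      refine (Finset.sum_le_sum h2).trans ?_
      rw [Finset.sum_add_distrib, Finset.sum_ite_eq' A a, if_pos ha, Finset.sum_const,
        nsmul_eq_mul]
    refine (Finset.sum_le_sum h1).trans ?_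
    rw [Finset.sum_const, nsmul_eq_mul]
    apply le_of_eq; ring
  have hfin := hlowT.trans hup
  have h1 : (A.card : ℝ) * ((A.card : ℝ) * (Θ / ρ - Real.log X)) ≤ A.card * Θ := by
    have e1 : (A.card : ℝ) * ((A.card : ℝ) * (Θ / ρ - Real.log X)) =
      (A.card : ℝ) ^ 2 / ρ * Θ - (A.card : ℝ) ^ 2 * Real.log X := by ring
    rw [e1]; linarith
  exact le_of_mul_le_mul_left h1 hApos

end Pool.Agent.Work.MP_0b7501_nt
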