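import Pool.Agent.Work.MP_0b7501_nt.Tauber

/-!
The prime number theorem, `ψ x ~ x`, and primes in short intervals `((1-ε)x, x]`.
-/

namespace Pool.Agent.Work.MP_0b7501_nt

open MeasureTheory Filter Topology Set

/-- auxiliary function: continuous on `1 ≤ re s`, equal to `-ζ'/ζ - 1/(s-1)` -/
noncomputable def aux (s : ℂ) : ℂ :=
  ArithmeticFunction.vonMangoldt.LFunctionResidueClassAux (q := 1) 1 s

lemma residueClass_one (n : ℕ) :
    ArithmeticFunction.vonMangoldt.residueClass (1 : ZMod 1) n = ArithmeticFunction.vonMangoldt n := by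
  unfold ArithmeticFunction.vonMangoldt.residueClass
  rw [Set.indicator_of_mem]
  exact Subsingleton.elim _ _

lemma aux_cont : ContinuousOn aux {s | 1 ≤ s.re} :=
  ArithmeticFunction.vonMangoldt.continuousOn_LFunctionResidueClassAux (q := 1) 1

lemma aux_eq {s : ℂ} (hs : 1 < s.re) :
    aux s = LSeries (fun n => (ArithmeticFunction.vonMangoldt n : ℂ)) s - 1 / (s - 1) := by
  have h := ArithmeticFunction.vonMangoldt.eqOn_LFunctionResidueClassAux (q := 1)
    (a := 1) isUnit_one (x := s) hs
  unfold aux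
  rw [h]
  simp only [residueClass_one, Nat.totient_one, Nat.cast_one, inv_one]

/-- the normalised Chebyshev function -/
noncomputable def H (t : ℝ) : ℝ := Chebyshev.psi (Real.exp t) * Real.exp (-t)

lemma H_nonneg (t : ℝ) : 0 ≤ H t :=
  mul_nonneg (Chebyshev.psi_nonneg _) (Real.exp_pos _).le

lemma H_le (t : ℝ) : H t ≤ Real.log 4 + 4 := by
  have h := Chebyshev.psi_le_const_mul_self (x := Real.exp t) (Real.exp_pos t).le
  unfold H
  rw [Real.exp_neg, ← div_eq_mul_inv, div_le_iff₀ (Real.exp_pos t)]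
  exact h

lemma H_meas : Measurable H := by
  unfold H
  have h1 : Measurable (fun t : ℝ => Chebyshev.psi (Real.exp t)) :=
    (Chebyshev.psi_mono.comp Real.exp_monotone).measurable
  fun_prop

lemma H_mono (s t : ℝ) (hst : s ≤ t) : H s * Real.exp s ≤ H t * Real.exp t := by
  unfold H
  rw [mul_assoc, mul_assoc, ← Real.exp_add, ← Real.exp_add]
  simp only [neg_add_cancel, Real.exp_zero, mul_one]
  exact Chebyshev.psi_mono (Real.exp_le_exp.mpr hst)

lemma lap_H {s : ℂ} (hs : 0 < s.re) :
    lap H s = LSeries (fun n => (ArithmeticFunction.vonMangoldt n : ℂ)) (1 + s) / (1 + s) := by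
  have hs1 : (1:ℝ) < (1 + s).re := by simpa using hs
  have hne : (1 + s) ≠ 0 := by
    intro h
    rw [h] at hs1
    simp at hs1
    linarith
  have h1 := LSeries_eq_mul_integral_of_nonneg
    (fun n => ArithmeticFunction.vonMangoldt n) (r := 1) zero_le_one hs1 ?_
    (fun n => ArithmeticFunction.vonMangoldt_nonneg)
  · rw [h1, mul_div_cancel_left₀ _ hne]
    have himg : Real.exp '' (Ioi (0:ℝ)) = Ioi (1:ℝ) := by
      ext x
      simp only [mem_image, mem_Ioi]
      constructor
      · rintro ⟨t, ht, rfl⟩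
        exact Real.one_lt_exp_iff.mpr ht
      · intro hx
        exact ⟨Real.log x, Real.log_pos hx, Real.exp_log (by linarith)⟩
    have h2 := integral_image_eq_integral_abs_deriv_smul (s := Ioi (0:ℝ)) (f := Real.exp)
      (f' := Real.exp) measurableSet_Ioi (fun x _ => (Real.hasDerivAt_exp x).hasDerivWithinAt)
      Real.exp_injective.injOn
      (fun t : ℝ => (∑ k ∈ Finset.Icc 1 ⌊t⌋₊, ((ArithmeticFunction.vonMangoldt k : ℝ) : ℂ)) *
        (t : ℂ) ^ (-((1 + s) + 1)))
    rw [himg] at h2
    rw [h2]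
    unfold lap
    refine setIntegral_congr_fun measurableSet_Ioi fun t _ => ?_
    simp only [Real.abs_exp]
    have e1 : (∑ k ∈ Finset.Icc 1 ⌊Real.exp t⌋₊, ((ArithmeticFunction.vonMangoldt k : ℝ) : ℂ))
        = ((Chebyshev.psi (Real.exp t) : ℝ) : ℂ) := by
      rw [Chebyshev.psi]
      push_cast
      rfl
    rw [e1]
    have e2 : (((Real.exp t : ℝ)) : ℂ) ^ (-((1 + s) + 1)) = Complex.exp (-((1 + s) + 1) * t) := by
      rw [Complex.ofReal_exp, Complex.cpow_def_of_ne_zero (Complex.exp_ne_zero _)]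
      rw [← Complex.ofReal_exp, ← Complex.ofReal_log (Real.exp_pos t).le, Real.log_exp]
      ring_nf
    rw [e2]
    unfold H
    rw [Complex.real_smul]
    push_cast
    rw [mul_left_comm, mul_assoc, ← Complex.exp_add, ← Complex.exp_add]
    congr 2
    ring
  · simp only [Real.rpow_one]
    apply Asymptotics.IsBigO.of_bound (Real.log 4 + 4)
    refine Eventually.of_forall fun n => ?_
    have h3 := Chebyshev.psi_le_const_mul_self (x := (n : ℝ)) (Nat.cast_nonneg n)
    have h4 : ∑ k ∈ Finset.Icc 1 n, ArithmeticFunction.vonMangoldt k = Chebyshev.psi n := by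
      rw [Chebyshev.psi, Nat.floor_natCast]
      rfl
    rw [h4, Real.norm_eq_abs, Real.norm_eq_abs, abs_of_nonneg (Chebyshev.psi_nonneg _),
      abs_of_nonneg (Nat.cast_nonneg n)]
    exact h3

lemma lap_one {s : ℂ} (hs : 0 < s.re) : ∫ t in Ioi (0:ℝ), Complex.exp (-(s * t)) = 1 / s := by
  have h := integral_exp_mul_complex_Ioi (a := -s) (by simpa using hs) 0
  simp only [Complex.ofReal_zero, mul_zero, Complex.exp_zero] at h
  simp only [neg_mul] at h
  rw [h, div_neg, neg_div, neg_neg]

lemma lap_H_sub_one {s : ℂ} (hs : 0 < s.re) :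
    lap (fun t => H t - 1) s = (aux (1 + s) - 1) / (1 + s) := by
  have hs1 : (1:ℝ) < (1 + s).re := by simpa using hs
  have hne : (1 + s) ≠ 0 := by
    intro h
    rw [h] at hs1
    simp at hs1
    linarith
  have hne' : s ≠ 0 := by
    rintro rfl
    simp at hs
  have h1 : lap (fun t => H t - 1) s = lap H s - 1 / s := by
    rw [← lap_one hs]
    unfold lap
    rw [← integral_sub]
    · refine setIntegral_congr_fun measurableSet_Ioi fun t _ => ?_
      simp only []
      push_cast
      ring
    · exact lap_integrable H (Real.log 4 + 4)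
        (fun t => by rw [abs_of_nonneg (H_nonneg t)]; exact H_le t) H_meas s hs
    · have := lap_integrable (fun _ => 1) 1 (fun t => by simp) measurable_const s hs
      simp only [Complex.ofReal_one, one_mul] at this
      exact this
  rw [h1, lap_H hs, aux_eq hs1]
  have e : (1 + s - 1) = s := by ring
  rw [e]
  field_simp
  ring

theorem H_tendsto : Tendsto H atTop (𝓝 1) := by
  refine tauber H (Real.log 4 + 4) H_nonneg H_le H_meas (fun s t _ hst => H_mono s t hst)
    (fun s => (aux (1 + s) - 1) / (1 + s)) ?_ (fun s hs => lap_H_sub_one hs)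
  apply ContinuousOn.div
  · apply ContinuousOn.sub _ continuousOn_const
    apply aux_cont.comp (by fun_prop)
    intro s hs
    simpa using hs
  · fun_prop
  · intro s hs h
    have hs' : 0 ≤ s.re := hs
    have := congrArg Complex.re h
    simp at this
    linarith

/-- **Prime number theorem** -/
theorem pnt_psi : Tendsto (fun x : ℝ => Chebyshev.psi x / x) atTop (𝓝 1) := by
  have h := H_tendsto.comp Real.tendsto_log_atTop
  refine h.congr' ?_
  filter_upwards [eventually_gt_atTop 0] with x hx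
  simp only [Function.comp, H, Real.exp_log hx, Real.exp_neg]
  rw [div_eq_mul_inv]

theorem pnt_theta : Tendsto (fun x : ℝ => Chebyshev.theta x / x) atTop (𝓝 1) := by
  obtain ⟨C, hC⟩ := Chebyshev.psi_sub_theta_le_mul_sqrt
  have h1 : Tendsto (fun x : ℝ => C * (Real.sqrt x)⁻¹) atTop (𝓝 (C * 0)) := by
    apply Tendsto.const_mul
    exact tendsto_inv_atTop_zero.comp Real.tendsto_sqrt_atTop
  rw [mul_zero] at h1
  have h2 : Tendsto (fun x : ℝ => Chebyshev.psi x / x - Chebyshev.theta x / x) atTop (𝓝 0) := by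
    refine squeeze_zero' ?_ ?_ h1
    · filter_upwards [eventually_gt_atTop 0] with x hx
      rw [← sub_div]
      exact div_nonneg (sub_nonneg.mpr (Chebyshev.theta_le_psi x)) hx.le
    · filter_upwards [eventually_gt_atTop 0] with x hx
      rw [← sub_div, div_le_iff₀ hx]
      have h3 : C * (Real.sqrt x)⁻¹ * x = C * Real.sqrt x := by
        have : x = Real.sqrt x * Real.sqrt x := (Real.mul_self_sqrt hx.le).symm
        have hs : Real.sqrt x ≠ 0 := (Real.sqrt_pos.mpr hx).ne'
        calc C * (Real.sqrt x)⁻¹ * x = C * (Real.sqrt x)⁻¹ * (Real.sqrt x * Real.sqrt x) := by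
              rw [← this]
          _ = C * Real.sqrt x := by field_simp
      rw [h3]
      exact hC x
  have h3 := pnt_psi.sub h2
  simpa using h3

/-- primes in short intervals: the number of primes in `(a, x]` with `a ≤ (1-ε)x` is at least
`(ε/2) x / log x` for large `x` -/
theorem primes_short (ε : ℝ) (hε : 0 < ε) (hε1 : ε ≤ 1) :
    ∀ᶠ x : ℕ in atTop, ∀ a : ℕ, (a : ℝ) ≤ (1 - ε) * x →
      ε / 2 * x ≤ ∑ p ∈ (Finset.Ioc a x).filter Nat.Prime, Real.log p := by
  have h1 : ∀ᶠ x : ℝ in atTop, |Chebyshev.theta x / x - 1| < ε / 8 := by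
    have := pnt_theta.eventually (Metric.ball_mem_nhds (1:ℝ) (by positivity : 0 < ε / 8))
    filter_upwards [this] with x hx
    rwa [Real.dist_eq] at hx
  obtain ⟨X, hX⟩ := eventually_atTop.mp h1
  have h2 : ∀ᶠ x : ℕ in atTop, max X 1 ≤ (x : ℝ) ∧ (Real.log 4) * max X 1 ≤ ε / 8 * x := by
    have e1 : Tendsto (fun x : ℕ => (x : ℝ)) atTop atTop := tendsto_natCast_atTop_atTop
    have e2 : Tendsto (fun x : ℕ => ε / 8 * (x : ℝ)) atTop atTop :=
      e1.const_mul_atTop (by positivity)
    exact (e1.eventually_ge_atTop _).and (e2.eventually_ge_atTop _)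
  filter_upwards [h2] with x hx a ha
  obtain ⟨hx1, hx2⟩ := hx
  have hXx : X ≤ x := (le_max_left _ _).trans hx1
  have h1x : (1:ℝ) ≤ x := (le_max_right _ _).trans hx1
  have hx0 : (0:ℝ) < x := by linarith
  have e1 : (1 - ε / 8) * x ≤ Chebyshev.theta x := by
    have := (abs_lt.mp (hX x hXx)).1
    have h3 : 1 - ε / 8 ≤ Chebyshev.theta x / x := by linarith
    exact (le_div_iff₀ hx0).mp h3
  have hax : a ≤ x := by
    have : (a : ℝ) ≤ x := by nlinarith
    exact_mod_cast this
  -- upper bound for theta a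
  have e2 : Chebyshev.theta a ≤ (1 - ε) * x + ε / 4 * x := by
    by_cases haX : max X 1 ≤ (a : ℝ)
    · have h4 := (abs_lt.mp (hX a ((le_max_left _ _).trans haX))).2
      have ha0 : (0:ℝ) < a := by linarith [le_max_right X 1]
      have h5 : Chebyshev.theta a / a ≤ 1 + ε / 8 := by linarith
      have h6 := (div_le_iff₀ ha0).mp h5
      have h7 : (1 + ε / 8) * a ≤ (1 + ε / 8) * ((1 - ε) * x) :=
        mul_le_mul_of_nonneg_left ha (by linarith)
      have h8 : 0 ≤ ε * ε * x := by positivity
      have h9 : 0 ≤ ε * x := by positivity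
      nlinarith
    · push Not at haX
      have h4 := Chebyshev.theta_le_log4_mul_x (x := (a:ℝ)) (Nat.cast_nonneg a)
      have h5 : Real.log 4 * a ≤ Real.log 4 * max X 1 :=
        mul_le_mul_of_nonneg_left haX.le (Real.log_nonneg (by norm_num))
      nlinarith
  have e3 : Chebyshev.theta x = Chebyshev.theta a +
      ∑ p ∈ (Finset.Ioc a x).filter Nat.Prime, Real.log p := by
    unfold Chebyshev.theta
    rw [Nat.floor_natCast, Nat.floor_natCast]
    rw [← Finset.sum_union]
    · congr 1
      rw [← Finset.filter_union, Finset.Ioc_union_Ioc_eq_Ioc (Nat.zero_le a) hax]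
    · apply Finset.disjoint_filter_filter
      rw [Finset.disjoint_left]
      intro p hp hp1
      have h3 := Finset.mem_Ioc.mp hp
      have h4 := Finset.mem_Ioc.mp hp1
      omega
  nlinarith

lemma exists_half_primes : ∃ Y0 : ℕ, ∀ x : ℕ, Y0 ≤ x →
    (x:ℝ) / 4 ≤ ∑ q ∈ (Finset.Ioc (x / 2) x).filter Nat.Prime, Real.log q := by
  obtain ⟨Y0, hY0⟩ := eventually_atTop.mp (primes_short (1/2) (by norm_num) (by norm_num))
  refine ⟨Y0, fun x hx => ?_⟩
  have h1 := hY0 x hx (x / 2) (by
    have : ((x / 2 : ℕ) : ℝ) ≤ (x:ℝ) / 2 := Nat.cast_div_le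
    linarith)
  linarith

end Pool.Agent.Work.MP_0b7501_nt
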