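import Pool.Agent.Work.MP_0b7501_nt.Mertens
import Pool.Agent.Work.MP_0b7501_nt.LargeSieve
import Pool.Agent.Work.MP_0b7501_nt.PNT

/-!
Most windows `(N-T, N]` contain many integers exactly divisible by a prime of `(Q, 2Q]`.
-/

namespace Pool.Agent.Work.MP_0b7501_nt

open Finset Filter

open Classical in
/-- the primes `q ∈ (Q, 2Q]` exactly dividing some `N - i`, `i < T`, `l ∤ i` -/
noncomputable def wset (T Q l N : ℕ) : Finset ℕ :=
  (Ioc Q (2 * Q)).filter (fun q => q.Prime ∧ ∃ i < T, ¬ l ∣ i ∧ i < N ∧ q ∣ N - i ∧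
    ¬ q ^ 2 ∣ N - i)

open Classical in
lemma omega_card (T l : ℕ) (hl : 2 ≤ l) (hT : 2 ≤ T) :
    (T:ℝ) / 4 ≤ (((range T).filter (fun i => ¬ l ∣ i)).card : ℝ) := by
  have h1 : ((range T).filter (fun i => l ∣ i)).card ≤
      ((range T).filter (fun i => ¬ l ∣ i)).card + 1 := by
    have h2 : ((range T).filter (fun i => l ∣ i)) ⊆
        insert (T - 1) (((range T).filter (fun i => ¬ l ∣ i)).image (fun i => i - 1)) := by
      intro i hi
      rw [mem_filter, mem_range] at hi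
      rw [mem_insert]
      by_cases h : i = T - 1
      · left; exact h
      · right
        rw [mem_image]
        refine ⟨i + 1, ?_, by omega⟩
        rw [mem_filter, mem_range]
        refine ⟨by omega, ?_⟩
        intro hd
        have h3 : l ∣ 1 := (Nat.dvd_add_right hi.2).mp hd
        have := Nat.le_of_dvd (by norm_num) h3
        omega
    calc ((range T).filter (fun i => l ∣ i)).card
        ≤ (insert (T - 1) (((range T).filter (fun i => ¬ l ∣ i)).image (fun i => i - 1))).card :=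
          Finset.card_le_card h2
      _ ≤ (((range T).filter (fun i => ¬ l ∣ i)).image (fun i => i - 1)).card + 1 :=
          Finset.card_insert_le _ _
      _ ≤ _ := Nat.add_le_add_right Finset.card_image_le 1
  have h2 := Finset.card_filter_add_card_filter_not (s := range T) (fun i => l ∣ i)
  rw [card_range] at h2
  have h3 : T ≤ 2 * ((range T).filter (fun i => ¬ l ∣ i)).card + 1 := by omega
  have h4 : (T:ℝ) ≤ 2 * (((range T).filter (fun i => ¬ l ∣ i)).card : ℝ) + 1 := by exact_mod_cast h3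
  have h5 : (2:ℝ) ≤ T := by exact_mod_cast hT
  linarith

open Classical in
/-- first moment bound for the square divisors -/
lemma sq_moment (n T Q l : ℕ) (S : Finset ℕ) (hS : ∀ q ∈ S, Q < q) (hQ : 1 ≤ Q) :
    ∑ N ∈ Icc 1 n, (((S.filter (fun q => ∃ i < T, ¬ l ∣ i ∧ i < N ∧ q ^ 2 ∣ N - i)).card : ℕ) : ℝ)
      ≤ (S.card : ℝ) * (T * n / (Q:ℝ) ^ 2) := by
  have h1 : ∀ N ∈ Icc 1 n,
      (((S.filter (fun q => ∃ i < T, ¬ l ∣ i ∧ i < N ∧ q ^ 2 ∣ N - i)).card : ℕ) : ℝ) ≤
      ∑ q ∈ S, ∑ i ∈ range T, (if i < N ∧ q ^ 2 ∣ N - i then (1:ℝ) else 0) := by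
    intro N _
    rw [Finset.card_filter]
    push_cast
    apply Finset.sum_le_sum
    intro q _
    split_ifs with h
    · obtain ⟨i, hi, _, h2, h3⟩ := h
      have := Finset.single_le_sum (f := fun i => if i < N ∧ q ^ 2 ∣ N - i then (1:ℝ) else 0)
        (s := range T) (fun i _ => by split_ifs <;> norm_num) (mem_range.mpr hi)
      rw [if_pos ⟨h2, h3⟩] at this
      exact this
    · apply Finset.sum_nonneg
      intro i _
      split_ifs <;> norm_num
  refine (Finset.sum_le_sum h1).trans ?_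
  rw [Finset.sum_comm]
  have h2 : ∀ q ∈ S, ∑ N ∈ Icc 1 n, ∑ i ∈ range T, (if i < N ∧ q ^ 2 ∣ N - i then (1:ℝ) else 0) ≤
      T * n / (Q:ℝ) ^ 2 := by
    intro q hq
    have hqQ := hS q hq
    rw [Finset.sum_comm]
    have h3 : ∀ i ∈ range T, ∑ N ∈ Icc 1 n, (if i < N ∧ q ^ 2 ∣ N - i then (1:ℝ) else 0) ≤
        n / (Q:ℝ) ^ 2 := by
      intro i _
      rw [← Finset.sum_filter, Finset.sum_const, nsmul_eq_mul, mul_one]
      have h4 : ((Icc 1 n).filter (fun N => i < N ∧ q ^ 2 ∣ N - i)).card ≤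
          ((Icc 1 n).filter (fun N => q ^ 2 ∣ N)).card := by
        apply Finset.card_le_card_of_injOn (fun N => N - i)
        · intro N hN
          simp only [coe_filter, mem_Icc, Set.mem_ofPred_eq] at hN ⊢
          exact ⟨⟨by omega, by omega⟩, hN.2.2⟩
        · intro N hN N' hN' h
          simp only [coe_filter, mem_Icc, Set.mem_ofPred_eq] at hN hN'
          have : N - i = N' - i := h
          omega
      have h5 := card_mult_le n (q ^ 2) (by have : 0 < q := by omega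
                                            positivity)
      have h6 : (n:ℝ) / ((q ^ 2 : ℕ) : ℝ) ≤ n / (Q:ℝ) ^ 2 := by
        apply div_le_div_of_nonneg_left (Nat.cast_nonneg _)
        · have : (0:ℝ) < Q := by exact_mod_cast hQ
          positivity
        · push_cast
          apply pow_le_pow_left₀ (Nat.cast_nonneg _)
          exact_mod_cast hqQ.le
      calc ((((Icc 1 n).filter (fun N => i < N ∧ q ^ 2 ∣ N - i)).card : ℕ) : ℝ)
          ≤ ((((Icc 1 n).filter (fun N => q ^ 2 ∣ N)).card : ℕ) : ℝ) := by exact_mod_cast h4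
        _ ≤ _ := h5.trans h6
    refine (Finset.sum_le_sum h3).trans ?_
    rw [Finset.sum_const, card_range, nsmul_eq_mul]
    apply le_of_eq; ring
  refine (Finset.sum_le_sum h2).trans ?_
  rw [Finset.sum_const, nsmul_eq_mul]

open Classical in
theorem window : ∃ Q0 : ℕ, ∀ n T Q l : ℕ, Q0 ≤ Q → 2 ≤ l → 2 ≤ T → T ≤ Q →
    (((Icc 1 n).filter (fun N => ((wset T Q l N).card : ℝ) ≤
      T / (64 * Real.log (2 * Q)))).card : ℝ) ≤
      5000 * (n + (Q:ℝ) ^ 2) * Real.log (2 * Q) / T := by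
  obtain ⟨X0, hX0⟩ := eventually_atTop.mp (primes_short (1/2) (by norm_num) (by norm_num))
  refine ⟨X0 + 2, ?_⟩
  intro n T Q l hQ0 hl hT hTQ
  obtain ⟨S, hS⟩ : ∃ S, S = (Ioc Q (2 * Q)).filter Nat.Prime := ⟨_, rfl⟩
  obtain ⟨Om, hOm⟩ : ∃ Om, Om = (range T).filter (fun i => ¬ l ∣ i) := ⟨_, rfl⟩
  obtain ⟨ell, hell⟩ : ∃ ell, ell = Real.log (2 * Q) := ⟨_, rfl⟩
  rw [← hell]
  have hQR : (0:ℝ) < Q := by exact_mod_cast (by omega : 0 < Q)
  have hTR : (2:ℝ) ≤ T := by exact_mod_cast hT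
  have hTQR : (T:ℝ) ≤ Q := by exact_mod_cast hTQ
  have hell1 : 1 ≤ ell := by
    rw [hell, Real.le_log_iff_exp_le (by positivity)]
    have := Real.exp_one_lt_d9
    have : (2:ℝ) ≤ Q := by exact_mod_cast (by omega : 2 ≤ Q)
    linarith
  have hOmc : (T:ℝ) / 4 ≤ (Om.card : ℝ) := by rw [hOm]; exact omega_card T l hl hT
  have hOmlt : ∀ i ∈ Om, i < T := by
    intro i hi; rw [hOm, mem_filter, mem_range] at hi; exact hi.1
  have hSfacts : ∀ q ∈ S, Q < q ∧ q ≤ 2 * Q ∧ q.Prime := by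
    intro q hq; rw [hS, mem_filter, mem_Ioc] at hq; exact ⟨hq.1.1, hq.1.2, hq.2⟩
  -- number of primes
  have hScard : (Q:ℝ) / (2 * ell) ≤ (S.card : ℝ) := by
    have h1 := hX0 (2 * Q) (by omega) Q (by push_cast; linarith)
    rw [← hS] at h1
    have h2 : ∑ p ∈ S, Real.log p ≤ S.card * ell := by
      rw [← nsmul_eq_mul, ← Finset.sum_const]
      apply Finset.sum_le_sum
      intro q hq
      rw [hell]
      apply Real.log_le_log
      · exact_mod_cast (hSfacts q hq).2.2.pos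
      · exact_mod_cast (hSfacts q hq).2.1
    push_cast at h1
    rw [div_le_iff₀ (by positivity)]
    linarith
  obtain ⟨μ, hμ⟩ : ∃ μ, μ = ∑ q ∈ S, ((Om.card : ℕ) : ℝ) / (q:ℝ) := ⟨_, rfl⟩
  have hμ1 : (S.card : ℝ) * (T / (8 * Q)) ≤ μ := by
    rw [hμ, ← nsmul_eq_mul, ← Finset.sum_const]
    apply Finset.sum_le_sum
    intro q hq
    have h1 : (q:ℝ) ≤ 2 * Q := by exact_mod_cast (hSfacts q hq).2.1
    have h2 : (0:ℝ) < q := by exact_mod_cast (hSfacts q hq).2.2.pos
    calc (T:ℝ) / (8 * Q) = (T / 4) / (2 * Q) := by ring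
      _ ≤ (Om.card : ℝ) / (2 * Q) := div_le_div_of_nonneg_right hOmc (by positivity)
      _ ≤ (Om.card : ℝ) / q := div_le_div_of_nonneg_left (Nat.cast_nonneg _) h2 h1
  have hμ2 : (T:ℝ) / (16 * ell) ≤ μ := by
    refine le_trans ?_ hμ1
    calc (T:ℝ) / (16 * ell) = (Q / (2 * ell)) * (T / (8 * Q)) := by field_simp; norm_num
      _ ≤ _ := mul_le_mul_of_nonneg_right hScard (by positivity)
  have hμpos : 0 < μ := lt_of_lt_of_le (by positivity) hμ2
  have hSpos : (0:ℝ) < S.card := lt_of_lt_of_le (by positivity) hScard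
  -- bad set 1
  have hb1 := large_sieve_variance n (2 * Q) (by omega) S
    (fun q hq => ⟨(hSfacts q hq).2.2, (hSfacts q hq).2.1⟩) (fun _ => Om)
    (fun q hq c hc => by have := hOmlt c hc; have := (hSfacts q hq).1; omega) μ hμ hμpos
  -- bad set 2
  have hb2 := sq_moment n T Q l S (fun q hq => (hSfacts q hq).1) (by omega)
  obtain ⟨E, hE⟩ : ∃ E : ℕ → ℝ, E = fun N =>
    (((S.filter (fun q => ∃ i < T, ¬ l ∣ i ∧ i < N ∧ q ^ 2 ∣ N - i)).card : ℕ) : ℝ) := ⟨_, rfl⟩
  have hb2' : ∑ N ∈ Icc 1 n, E N ≤ (S.card : ℝ) * (T * n / (Q:ℝ) ^ 2) := by rw [hE]; exact hb2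
  have hEnn : ∀ N, 0 ≤ E N := by intro N; rw [hE]; positivity
  have hb3 : (((Icc 1 n).filter (fun N => μ / 4 ≤ E N)).card : ℝ) ≤ 32 * n / Q := by
    have h1 : (((Icc 1 n).filter (fun N => μ / 4 ≤ E N)).card : ℝ) * (μ / 4) ≤
        (S.card : ℝ) * (T * n / (Q:ℝ) ^ 2) := by
      calc (((Icc 1 n).filter (fun N => μ / 4 ≤ E N)).card : ℝ) * (μ / 4)
          = ∑ N ∈ (Icc 1 n).filter (fun N => μ / 4 ≤ E N), μ / 4 := by
            rw [Finset.sum_const, nsmul_eq_mul]
        _ ≤ ∑ N ∈ (Icc 1 n).filter (fun N => μ / 4 ≤ E N), E N := by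
            apply Finset.sum_le_sum
            intro N hN; rw [mem_filter] at hN; exact hN.2
        _ ≤ ∑ N ∈ Icc 1 n, E N := by
            apply Finset.sum_le_sum_of_subset_of_nonneg (Finset.filter_subset _ _)
            intro N _ _; exact hEnn N
        _ ≤ _ := hb2'
    have h2 : (((Icc 1 n).filter (fun N => μ / 4 ≤ E N)).card : ℝ) *
        ((S.card : ℝ) * (T / (8 * Q)) / 4) ≤ (S.card : ℝ) * (T * n / (Q:ℝ) ^ 2) := by
      refine le_trans ?_ h1
      apply mul_le_mul_of_nonneg_left _ (Nat.cast_nonneg _)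
      linarith
    have h3 : (((Icc 1 n).filter (fun N => μ / 4 ≤ E N)).card : ℝ) *
        ((S.card : ℝ) * (T / (8 * Q)) / 4) =
        (((Icc 1 n).filter (fun N => μ / 4 ≤ E N)).card : ℝ) * (S.card * T / (32 * Q)) := by
      congr 1
      field_simp
      norm_num
    have h4 : (S.card : ℝ) * (T * n / (Q:ℝ) ^ 2) = (32 * n / Q) * (S.card * T / (32 * Q)) := by
      field_simp
    rw [h3, h4] at h2
    exact le_of_mul_le_mul_right h2 (by positivity)
  -- the inclusion
  have hsub : (Icc 1 n).filter (fun N => ((wset T Q l N).card : ℝ) ≤ T / (64 * ell)) ⊆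
      (((range (n + 1)).filter (fun m => ((S.filter (fun q => m % q ∈ Om)).card : ℝ) ≤ μ / 2)) ∪
      (Icc 1 n).filter (fun N => μ / 4 ≤ E N)) ∪ Icc 1 T := by
    intro N hN
    rw [mem_filter, mem_Icc] at hN
    obtain ⟨⟨hN1, hN2⟩, hw⟩ := hN
    by_cases hNT : N ≤ T
    · apply mem_union_right; rw [mem_Icc]; exact ⟨hN1, hNT⟩
    apply mem_union_left
    by_contra hcon
    rw [mem_union, not_or, mem_filter, mem_filter, mem_range, mem_Icc] at hcon
    obtain ⟨hc1, hc2⟩ := hcon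
    have hc1' : μ / 2 < ((S.filter (fun q => N % q ∈ Om)).card : ℝ) := by
      by_contra h
      push Not at h
      exact hc1 ⟨by omega, h⟩
    have hc2' : E N < μ / 4 := by
      by_contra h
      push Not at h
      exact hc2 ⟨⟨hN1, hN2⟩, h⟩
    have h1 : S.filter (fun q => N % q ∈ Om) ⊆ wset T Q l N ∪
        S.filter (fun q => ∃ i < T, ¬ l ∣ i ∧ i < N ∧ q ^ 2 ∣ N - i) := by
      intro q hq
      rw [mem_filter] at hq
      obtain ⟨hqS, hqOm⟩ := hq
      have hf := hSfacts q hqS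
      have h2 := hOmlt _ hqOm
      rw [hOm, mem_filter] at hqOm
      have h3 : q ∣ N - N % q := Nat.dvd_sub_mod N
      rw [mem_union]
      by_cases h4 : q ^ 2 ∣ N - N % q
      · right
        rw [mem_filter]
        exact ⟨hqS, N % q, h2, hqOm.2, by omega, h4⟩
      · left
        unfold wset
        rw [mem_filter, mem_Ioc]
        exact ⟨⟨hf.1, hf.2.1⟩, hf.2.2, N % q, h2, hqOm.2, by omega, h3, h4⟩
    have h2 := (Finset.card_le_card h1).trans (Finset.card_union_le _ _)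
    have h3 : ((S.filter (fun q => N % q ∈ Om)).card : ℝ) ≤ ((wset T Q l N).card : ℝ) + E N := by
      rw [hE]; simp only []; exact_mod_cast h2
    have h4 : (T:ℝ) / (64 * ell) ≤ μ / 4 := by
      calc (T:ℝ) / (64 * ell) = (T / (16 * ell)) / 4 := by field_simp; norm_num
        _ ≤ μ / 4 := by linarith
    linarith
  have hcard := (Finset.card_le_card hsub).trans ((Finset.card_union_le _ _).trans
    (Nat.add_le_add_right (Finset.card_union_le _ _) _))
  rw [Nat.card_Icc, Nat.add_sub_cancel] at hcard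
  have hcardR : (((Icc 1 n).filter (fun N => ((wset T Q l N).card : ℝ) ≤ T / (64 * ell))).card : ℝ)
      ≤ (((range (n + 1)).filter (fun m =>
        ((S.filter (fun q => m % q ∈ Om)).card : ℝ) ≤ μ / 2)).card : ℝ) +
      (((Icc 1 n).filter (fun N => μ / 4 ≤ E N)).card : ℝ) + T := by
    exact_mod_cast hcard
  refine hcardR.trans ?_
  have hmax : ((max n ((2 * Q) ^ 2) : ℕ) : ℝ) ≤ n + 4 * (Q:ℝ) ^ 2 := by
    push_cast
    apply max_le
    · have : 0 ≤ 4 * (Q:ℝ) ^ 2 := by positivity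
      linarith
    · have : (0:ℝ) ≤ n := Nat.cast_nonneg n
      have e1 : (2 * (Q:ℝ)) ^ 2 = 4 * (Q:ℝ) ^ 2 := by ring
      rw [e1]
      linarith
  have hn0 : (0:ℝ) ≤ n := Nat.cast_nonneg n
  have hA : 64 * ((max n ((2 * Q) ^ 2) : ℕ) : ℝ) / μ ≤ 1024 * (n + 4 * (Q:ℝ) ^ 2) * ell / T := by
    calc 64 * ((max n ((2 * Q) ^ 2) : ℕ) : ℝ) / μ ≤ 64 * (n + 4 * (Q:ℝ) ^ 2) / (T / (16 * ell)) := by
          apply div_le_div₀ (by positivity) _ (by positivity) hμ2
          linarith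
      _ = _ := by field_simp; norm_num
  have hB : 32 * (n:ℝ) / Q ≤ 32 * n * ell / T := by
    apply div_le_div₀ (by positivity) _ (by positivity) hTQR
    exact le_mul_of_one_le_right (by positivity) hell1
  have hC : (T:ℝ) ≤ (Q:ℝ) ^ 2 * ell / T := by
    rw [le_div_iff₀ (by positivity)]
    have h1 : (T:ℝ) * T ≤ Q * Q := mul_le_mul hTQR hTQR (by positivity) hQR.le
    have h2 : (Q:ℝ) * Q * 1 ≤ Q * Q * ell := mul_le_mul_of_nonneg_left hell1 (by positivity)
    have h3 : (Q:ℝ) ^ 2 * ell = Q * Q * ell := by ring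
    rw [h3]
    linarith
  have hfinal : 1024 * (n + 4 * (Q:ℝ) ^ 2) * ell / T + 32 * n * ell / T + (Q:ℝ) ^ 2 * ell / T ≤
      5000 * (n + (Q:ℝ) ^ 2) * ell / T := by
    rw [← add_div, ← add_div]
    apply div_le_div_of_nonneg_right _ (by positivity)
    have h1 : 0 ≤ (n:ℝ) * ell := by positivity
    have h2 : 0 ≤ (Q:ℝ) ^ 2 * ell := by positivity
    have h3 : 1024 * (n + 4 * (Q:ℝ) ^ 2) * ell + 32 * n * ell + (Q:ℝ) ^ 2 * ell =
      1056 * (n * ell) + 4097 * ((Q:ℝ) ^ 2 * ell) := by ring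
    have h4 : 5000 * (n + (Q:ℝ) ^ 2) * ell = 5000 * (n * ell) + 5000 * ((Q:ℝ) ^ 2 * ell) := by ring
    rw [h3, h4]
    linarith
  linarith

end Pool.Agent.Work.MP_0b7501_nt
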