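import Pool.Agent.Work.MP_0b7501_nt.R2a
import Pool.Agent.Work.MP_0b7501_nt.Window
import Pool.Agent.Work.MP_0b7501_nt.Larger

/-!
Structural consequences of a configuration when `m = p v` with a large prime `p`.
-/

namespace Pool.Agent.Work.MP_0b7501_nt

open Finset Filter

/-- the sum of `log q` over the primes in `S` dividing an element of an interval -/
lemma sum_log_le_interval (S : Finset ℕ) (hS : ∀ q ∈ S, q.Prime) (lo hi m : ℕ) (hhi : hi ≤ m)
    (hex : ∀ q ∈ S, ∃ j ∈ Ioc lo hi, q ∣ j) :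
    ∑ q ∈ S, Real.log q ≤ ((hi - lo : ℕ) : ℝ) * Real.log m := by
  have hlog : ∀ q ∈ S, 0 ≤ Real.log q := fun q hq =>
    Real.log_nonneg (by exact_mod_cast (hS q hq).one_lt.le)
  calc ∑ q ∈ S, Real.log q ≤ ∑ q ∈ S, ∑ j ∈ Ioc lo hi, (if q ∣ j then Real.log q else 0) := by
        apply Finset.sum_le_sum
        intro q hq
        obtain ⟨j, hj, hd⟩ := hex q hq
        have := Finset.single_le_sum (f := fun j => if q ∣ j then Real.log q else 0)
          (s := Ioc lo hi) (fun j _ => by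
            split_ifs
            · exact hlog q hq
            · exact le_rfl) hj
        rw [if_pos hd] at this
        exact this
    _ = ∑ j ∈ Ioc lo hi, ∑ q ∈ S, (if q ∣ j then Real.log q else 0) := Finset.sum_comm
    _ ≤ ∑ j ∈ Ioc lo hi, Real.log m := by
        apply Finset.sum_le_sum
        intro j hj
        rw [mem_Ioc] at hj
        exact sum_log_dvd_le S hS j m (by omega) (by omega)
    _ = _ := by rw [Finset.sum_const, Nat.card_Ioc, nsmul_eq_mul]

lemma ybound : ∀ᶠ m : ℕ in atTop, ∀ y a b c, Conf y a b c m →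
    (y:ℝ) ≤ 4 * (((m - c : ℕ) : ℝ) + ((b - a : ℕ) : ℝ)) * Real.log m := by
  obtain ⟨Y0, hY0⟩ := eventually_atTop.mp (primes_short (1/2) (by norm_num) (by norm_num))
  have hev : ∀ᶠ m : ℕ in atTop, (Y0 : ℝ) ≤ Real.log m :=
    (Real.tendsto_log_atTop.comp tendsto_natCast_atTop_atTop).eventually_ge_atTop _
  filter_upwards [hev, eventually_ge_atTop 1] with m hm hm1 y a b c hC
  have hya := hC.hya
  have hab := hC.hab
  have hbc := hC.hbc
  have hcm := hC.hcm
  have hlogm : 0 ≤ Real.log m := Real.log_nonneg (by exact_mod_cast hm1)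
  have hL1 : (1:ℝ) ≤ ((m - c : ℕ) : ℝ) := by exact_mod_cast (by omega : 1 ≤ m - c)
  have hL2 : (0:ℝ) ≤ ((b - a : ℕ) : ℝ) := Nat.cast_nonneg _
  by_cases hy : y < Y0
  · have h1 : (y:ℝ) ≤ Y0 := by exact_mod_cast hy.le
    have h2 : 1 * Real.log m ≤ 4 * (((m - c : ℕ) : ℝ) + ((b - a : ℕ) : ℝ)) * Real.log m := by
      apply mul_le_mul_of_nonneg_right _ hlogm
      linarith
    linarith
  · push Not at hy
    have h1 := hY0 y hy (y / 2) (by
      have : ((y / 2 : ℕ) : ℝ) ≤ (y : ℝ) / 2 := Nat.cast_div_le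
      linarith)
    obtain ⟨S, hS⟩ : ∃ S, S = (Ioc (y / 2) y).filter Nat.Prime := ⟨_, rfl⟩
    rw [← hS] at h1
    have hSf : ∀ q ∈ S, y / 2 < q ∧ q ≤ y ∧ q.Prime := by
      intro q hq; rw [hS, mem_filter, mem_Ioc] at hq; exact ⟨hq.1.1, hq.1.2, hq.2⟩
    have hodd : ∀ q ∈ S, ev q a b ≠ 0 ∨ ev q c m ≠ 0 := by
      intro q hq
      obtain ⟨q1, q2, q3⟩ := hSf q hq
      have e1 : ev q 0 y = 1 := ev_short q3 q3.pos q2 (by omega)
      have e2 := hC.par q q3
      rw [e1] at e2
      by_contra hcon3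
      push Not at hcon3
      rw [hcon3.1, hcon3.2] at e2
      exact absurd e2 (by decide)
    classical
    have h2 := sum_log_le_interval (S.filter (fun q => ev q a b ≠ 0))
      (fun q hq => (hSf q (mem_filter.mp hq).1).2.2) a b m (by omega)
      (fun q hq => exists_mult_of_ev (mem_filter.mp hq).2)
    have h3 := sum_log_le_interval (S.filter (fun q => ev q c m ≠ 0))
      (fun q hq => (hSf q (mem_filter.mp hq).1).2.2) c m m le_rfl
      (fun q hq => exists_mult_of_ev (mem_filter.mp hq).2)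
    have h4 : ∑ q ∈ S, Real.log q ≤ ∑ q ∈ S.filter (fun q => ev q a b ≠ 0), Real.log q +
        ∑ q ∈ S.filter (fun q => ev q c m ≠ 0), Real.log q := by
      rw [Finset.sum_filter, Finset.sum_filter, ← Finset.sum_add_distrib]
      apply Finset.sum_le_sum
      intro q hq
      have hl : 0 ≤ Real.log q := Real.log_nonneg (by exact_mod_cast (hSf q hq).2.2.one_lt.le)
      rcases hodd q hq with h | h
      · rw [if_pos h]
        split_ifs <;> linarith
      · rw [if_pos h]
        split_ifs <;> linarith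
    have h5 : (1:ℝ) / 2 / 2 * y = y / 4 := by ring
    rw [h5] at h1
    have h6 : 4 * (((m - c : ℕ) : ℝ) + ((b - a : ℕ) : ℝ)) * Real.log m =
      4 * (((b - a : ℕ) : ℝ) * Real.log m + ((m - c : ℕ) : ℝ) * Real.log m) := by ring
    rw [h6]
    linarith

/-- the large prime of `m` divides the middle product -/
lemma exists_w {y a b c m p v : ℕ} (hC : Conf y a b c m) (hm : m = p * v) (hp : p.Prime)
    (hpv : ¬ p ∣ v) (hpy : y < p) (hpc : m - c < p) (hpb : b - a < p) :
    ∃ w, 1 ≤ w ∧ w < v ∧ p * w ∈ Ioc a b := by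
  have hbc := hC.hbc
  have hcm := hC.hcm
  have hv0 : v ≠ 0 := by rintro rfl; exact hpv (dvd_zero p)
  have e1 : ev p c m = 1 := by
    rw [ev_eq_single hpc (mem_Ioc.mpr ⟨hcm, le_rfl⟩) (by rw [hm]; exact Dvd.intro v rfl), hm,
      Nat.factorization_mul hp.ne_zero hv0, Finsupp.add_apply, hp.factorization_self,
      Nat.factorization_eq_zero_of_not_dvd hpv]
  have e2 : ev p 0 y = 0 := ev_zero_of_lt hpy
  have e3 := hC.par p hp
  rw [e1, e2] at e3
  have e4 : ev p a b ≠ 0 := by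
    intro h0
    rw [h0] at e3
    exact absurd e3 (by decide)
  obtain ⟨j, hj, w, rfl⟩ := exists_mult_of_ev e4
  rw [mem_Ioc] at hj
  refine ⟨w, ?_, ?_, mem_Ioc.mpr hj⟩
  · rcases Nat.eq_zero_or_pos w with h | h
    · subst h; omega
    · exact h
  · by_contra hcon
    push Not at hcon
    have : p * v ≤ p * w := Nat.mul_le_mul_left _ hcon
    omega

/-- evenness of the exponents of large primes in `m - i` -/
lemma even_of_large {y a b c m p v w i q : ℕ} (hC : Conf y a b c m) (hm : m = p * v)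
    (hw1 : 1 ≤ w) (hwv : w < v) (hw : p * w ∈ Ioc a b) (hq : q.Prime) (hqy : y < q)
    (hqL : v * ((m - c) + (b - a)) < q) (hi : i < m - c) (hvi : ¬ v ∣ w * i) :
    Even ((m - i).factorization q) := by
  have hcm := hC.hcm
  have hL1 : m - c ≤ v * ((m - c) + (b - a)) := by
    calc m - c ≤ 1 * ((m - c) + (b - a)) := by omega
      _ ≤ _ := Nat.mul_le_mul_right _ (by omega)
  by_cases hd : q ∣ m - i
  · by_contra hodd
    have e1 : ev q c m = (m - i).factorization q :=
      ev_eq_single (by omega) (mem_Ioc.mpr ⟨by omega, by omega⟩) hd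
    have e2 : ev q 0 y = 0 := ev_zero_of_lt hqy
    have e3 := hC.par q hq
    rw [e1, e2, zero_add] at e3
    have e4 : ev q a b ≠ 0 := by
      intro h0
      rw [h0, zero_add] at e3
      exact hodd e3
    obtain ⟨j, hj, hjd⟩ := exists_mult_of_ev e4
    rw [mem_Ioc] at hj hw
    -- the integer combination
    have h1 : (q:ℤ) ∣ (w:ℤ) * ((m - i : ℕ) : ℤ) - v * (j:ℤ) :=
      dvd_sub ((Int.natCast_dvd_natCast.mpr hd).mul_left _)
        ((Int.natCast_dvd_natCast.mpr hjd).mul_left _)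
    have h2 : (w:ℤ) * ((m - i : ℕ) : ℤ) - v * (j:ℤ) = v * ((p * w : ℕ) - j : ℤ) - w * i := by
      rw [Nat.cast_sub (by omega), hm]
      push_cast
      ring
    rw [h2] at h1
    obtain ⟨L2, hL2⟩ : ∃ L2 : ℤ, L2 = ((b - a : ℕ) : ℤ) := ⟨_, rfl⟩
    obtain ⟨L1, hL1'⟩ : ∃ L1 : ℤ, L1 = ((m - c : ℕ) : ℤ) := ⟨_, rfl⟩
    have hpj : |((p * w : ℕ) - j : ℤ)| ≤ L2 := by
      rw [abs_le, hL2]; constructor <;> omega
    have hi0 : (0:ℤ) ≤ i := Int.natCast_nonneg i
    have hiL : (i:ℤ) < L1 := by rw [hL1']; exact_mod_cast hi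
    have hv0 : (0:ℤ) < v := by exact_mod_cast (by omega : 0 < v)
    have hw0 : (0:ℤ) ≤ w := Int.natCast_nonneg w
    have hwv' : (w:ℤ) ≤ v := by exact_mod_cast hwv.le
    have hqL' : (v:ℤ) * (L1 + L2) < q := by
      rw [hL1', hL2]; exact_mod_cast hqL
    have habs : |v * ((p * w : ℕ) - j : ℤ) - w * i| < q := by
      have e5 : |(v:ℤ) * ((p * w : ℕ) - j : ℤ)| ≤ v * L2 := by
        rw [abs_mul, abs_of_pos hv0]
        exact mul_le_mul_of_nonneg_left hpj hv0.le
      have e6 : |(w:ℤ) * i| ≤ v * L1 := by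
        rw [abs_of_nonneg (mul_nonneg hw0 hi0)]
        exact mul_le_mul hwv' hiL.le hi0 hv0.le
      calc |v * ((p * w : ℕ) - j : ℤ) - w * i|
          ≤ |(v:ℤ) * ((p * w : ℕ) - j : ℤ)| + |(w:ℤ) * i| := abs_sub _ _
        _ ≤ v * L2 + v * L1 := add_le_add e5 e6
        _ = v * (L1 + L2) := by ring
        _ < q := hqL'
    have h3 := Int.eq_zero_of_abs_lt_dvd h1 habs
    apply hvi
    have h4 : (v:ℤ) ∣ (w:ℤ) * i := ⟨((p * w : ℕ) - j : ℤ), by linarith⟩
    exact_mod_cast h4
  · rw [Nat.factorization_eq_zero_of_not_dvd hd]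
    exact Even.zero

/-- primes exactly dividing an element of the middle interval transfer to the last one -/
lemma transfer_exact {y a b c m q j : ℕ} (hC : Conf y a b c m) (hq : q.Prime) (hqy : y < q)
    (hqb : b - a < q) (hj : j ∈ Ioc a b) (hd : q ∣ j) (hd2 : ¬ q ^ 2 ∣ j) :
    ∃ j' ∈ Ioc c m, q ∣ j' := by
  have e1 : ev q a b = 1 := by
    rw [ev_eq_single hqb hj hd]
    rw [mem_Ioc] at hj
    apply le_antisymm
    · by_contra hcon
      push Not at hcon
      exact hd2 ((pow_dvd_pow q hcon).trans (Nat.ordProj_dvd j q))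
    · exact hq.factorization_pos_of_dvd (by omega) hd
  have e2 : ev q 0 y = 0 := ev_zero_of_lt hqy
  have e3 := hC.par q hq
  rw [e1, e2] at e3
  have e4 : ev q c m ≠ 0 := by
    intro h0
    rw [h0] at e3
    exact absurd e3 (by decide)
  exact exists_mult_of_ev e4

lemma factorization_eq_one {q j : ℕ} (hq : q.Prime) (hj : j ≠ 0) (hd : q ∣ j)
    (hd2 : ¬ q ^ 2 ∣ j) : j.factorization q = 1 := by
  apply le_antisymm
  · by_contra hcon
    push Not at hcon
    exact hd2 ((pow_dvd_pow q hcon).trans (Nat.ordProj_dvd j q))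
  · exact hq.factorization_pos_of_dvd hj hd

end Pool.Agent.Work.MP_0b7501_nt
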