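import Pool.Agent.Work.MP_0b7501_nt.G2
import Pool.Agent.Work.MP_0b7501_nt.Struct
import Pool.Agent.Work.MP_0b7501_nt.R2c
import Pool.Agent.Work.MP_0b7501_nt.BlockE

/-!
Three factorials, long intervals: `y ≤ C L` and `L² < m`.
-/

namespace Pool.Agent.Work.MP_0b7501_nt

open Finset Filter

lemma y_le3 (δ : ℝ) (hδ : 0 < δ) : ∃ C : ℝ, 0 < C ∧ ∀ᶠ m : ℕ in atTop, ∀ y c, Conf y c c c m →
    (m:ℝ) ^ δ ≤ ((m - c : ℕ) : ℝ) → (y:ℝ) ≤ C * ((m - c : ℕ) : ℝ) := by
  classical
  obtain ⟨C, hC0, hE⟩ := blockE δ hδ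
  obtain ⟨Y0, hY0⟩ := exists_half_primes
  refine ⟨44800 + 4 * C + 3 + Y0, by positivity, ?_⟩
  have hlog20 : ∀ᶠ m : ℕ in atTop, (2 * Real.log m) ^ 20 ≤ m := by
    have h1 := polylog_le (D := 1) (by norm_num) (2 ^ 20) 20
    filter_upwards [h1] with m hm
    rw [mul_pow]
    have h2 : XX 1 m = m := by
      have := XX_pow (D := 1) (by norm_num) m
      rwa [pow_one] at this
    rw [h2] at hm
    exact hm
  filter_upwards [hE, ybound, hlog20, log_ge (B := 2), eventually_ge_atTop 2] with m hEm hyb hl20 hlog2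
    hm2 y c hConf hL
  obtain ⟨L, hLdef⟩ : ∃ L, L = m - c := ⟨_, rfl⟩
  have hy4 := hyb y c c c hConf
  rw [Nat.sub_self, Nat.cast_zero, add_zero] at hy4
  have hcm := hConf.hcm
  rw [← hLdef] at hL hy4 ⊢
  have hL1 : 1 ≤ L := by omega
  have hLR : (1:ℝ) ≤ L := by exact_mod_cast hL1
  have hY0R : (0:ℝ) ≤ Y0 := Nat.cast_nonneg _
  have hmR : (2:ℝ) ≤ m := by exact_mod_cast hm2
  have hlogpos : 0 < Real.log m := by linarith
  -- trivial cases
  by_cases hyY : y ≤ 2 * L + 1
  · have h1 : (y:ℝ) ≤ 2 * L + 1 := by exact_mod_cast hyY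
    have h2 : (3:ℝ) * L ≤ (44800 + 4 * C + 3 + Y0) * L := by
      apply mul_le_mul_of_nonneg_right _ (by linarith)
      linarith
    linarith
  push Not at hyY
  obtain ⟨P, hP⟩ : ∃ P, P = y / 2 := ⟨_, rfl⟩
  have hLP : L ≤ P := by omega
  by_cases hYsmall : y ≤ Y0
  · have h1 : (y:ℝ) ≤ Y0 := by exact_mod_cast hYsmall
    have h2 : (Y0:ℝ) * 1 ≤ (44800 + 4 * C + 3 + Y0) * L := by
      apply mul_le_mul _ hLR (by norm_num) (by positivity)
      linarith
    linarith
  push Not at hYsmall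
  -- primes in (P, y]
  have hprime : ∀ q, q.Prime → P < q → q ≤ y → q ∈ QQ y L := by
    intro q hq h1 h2
    have e1 : ev q 0 y = 1 := ev_short hq hq.pos h2 (by omega)
    rw [mem_QQ, e1]
    exact ⟨⟨by omega, h2⟩, hq, by norm_num⟩
  by_cases hcase : m ^ 11 ≤ (L * L) ^ 10
  · -- Brun-Titchmarsh counting
    have h1 := hY0 y hYsmall.le
    have hcond : m ^ 11 ≤ (L * P) ^ 10 :=
      hcase.trans (Nat.pow_le_pow_left (Nat.mul_le_mul_left _ hLP) 10)
    have h2 := V_four m (m - L) L P hm2 (by omega) hcond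
    have h3 : ∑ q ∈ (Ioc (y / 2) y).filter Nat.Prime, Real.log q ≤
        V P (4 * P) (m - L) (m - L + L) := by
      unfold V
      apply Finset.sum_le_sum_of_subset_of_nonneg
      · intro q hq
        rw [mem_filter, mem_Ioc, ← hP] at hq
        have h4 := ev_odd_of_QQ hConf (q := q) (by rw [← hLdef]; exact hprime q hq.2 hq.1.1 hq.1.2)
        obtain ⟨j, hj, hd⟩ := exists_mult_of_ev h4
        rw [mem_Ioc] at hj
        exact mem_PM.mpr ⟨⟨hq.1.1, by omega⟩, hq.2, j, mem_Ioc.mpr ⟨by omega, by omega⟩, hd⟩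
      · intro q hq _
        exact PM_log_nonneg hq
    have h4 : (y:ℝ) ≤ 44800 * L := by linarith
    refine h4.trans ?_
    apply mul_le_mul_of_nonneg_right _ (by linarith)
    linarith
  · -- exponential sums
    push Not at hcase
    have hP2R : 2 * (P:ℝ) ≤ y := by
      have : 2 * P ≤ y := by omega
      exact_mod_cast this
    have hyPR : (y:ℝ) ≤ 2 * P + 1 := by
      have : y ≤ 2 * P + 1 := by omega
      exact_mod_cast this
    have hPle : (P:ℝ) ≤ 2 * Real.log m * L := by linarith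
    have hPL2 : (P:ℝ) ≤ L * (Real.log m) ^ 2 := by
      calc (P:ℝ) ≤ 2 * Real.log m * L := hPle
        _ ≤ Real.log m * Real.log m * L := by
            apply mul_le_mul_of_nonneg_right _ (by linarith)
            apply mul_le_mul_of_nonneg_right hlog2 hlogpos.le
        _ = _ := by ring
    have hP35 : (P:ℝ) ≤ (m:ℝ) ^ (3 / 5 : ℝ) := by
      have h1 : (P:ℝ) ^ 20 ≤ (m:ℝ) ^ 12 := by
        calc (P:ℝ) ^ 20 ≤ (2 * Real.log m * L) ^ 20 := pow_le_pow_left₀ (Nat.cast_nonneg _) hPle 20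
          _ = (2 * Real.log m) ^ 20 * (L:ℝ) ^ 20 := by rw [mul_pow]
          _ ≤ m * (m:ℝ) ^ 11 := by
              apply mul_le_mul hl20 _ (by positivity) (by positivity)
              have h2 : (L * L) ^ 10 ≤ m ^ 11 := hcase.le
              have h3 : ((L:ℝ) * L) ^ 10 ≤ (m:ℝ) ^ 11 := by exact_mod_cast h2
              calc (L:ℝ) ^ 20 = ((L:ℝ) * L) ^ 10 := by ring
                _ ≤ _ := h3
          _ = (m:ℝ) ^ 12 := by ring
      by_contra hcon
      push Not at hcon
      have h2 : ((m:ℝ) ^ (3 / 5 : ℝ)) ^ 20 < (P:ℝ) ^ 20 :=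
        pow_lt_pow_left₀ hcon (by positivity) (by norm_num)
      have h3 : ((m:ℝ) ^ (3 / 5 : ℝ)) ^ 20 = (m:ℝ) ^ 12 := by
        rw [← Real.rpow_natCast, ← Real.rpow_mul (Nat.cast_nonneg _)]
        have : (3 / 5 : ℝ) * ((20 : ℕ) : ℝ) = ((12 : ℕ) : ℝ) := by norm_num
        rw [this, Real.rpow_natCast]
      linarith
    have h1 := hEm L P hL hLP hPL2 hP35
    by_cases hP0 : Y0 ≤ 2 * P
    · have h2 := hY0 (2 * P) hP0
      have h3 : 2 * P / 2 = P := by omega
      rw [h3] at h2
      have h4 : ∑ q ∈ (Ioc P (2 * P)).filter Nat.Prime, Real.log q ≤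
          (((Ioc P (2 * P)).filter (fun q => q.Prime ∧ m % q < L)).card : ℝ) * Real.log m := by
        have hsub : (Ioc P (2 * P)).filter Nat.Prime ⊆
            (Ioc P (2 * P)).filter (fun q => q.Prime ∧ m % q < L) := by
          intro q hq
          rw [mem_filter, mem_Ioc] at hq
          rw [mem_filter, mem_Ioc]
          refine ⟨hq.1, hq.2, ?_⟩
          have h5 := hprime q hq.2 hq.1.1 (by omega)
          rw [hLdef] at h5 ⊢
          exact mod_lt_of_QQ hConf h5
        refine (Finset.sum_le_sum_of_subset_of_nonneg hsub ?_).trans ?_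
        · intro q hq _
          rw [mem_filter] at hq
          exact Real.log_nonneg (by exact_mod_cast hq.2.1.one_lt.le)
        · rw [← nsmul_eq_mul]
          apply Finset.sum_le_card_nsmul
          intro q hq
          rw [mem_filter, mem_Ioc] at hq
          apply Real.log_le_log
          · exact_mod_cast hq.2.1.pos
          · -- q ≤ m
            have h6 : q ≤ m := by
              have h5 := hprime q hq.2.1 hq.1.1 (by omega)
              have h7 := ev_odd_of_QQ hConf (q := q) (by rw [← hLdef]; exact h5)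
              obtain ⟨j, hj, hd⟩ := exists_mult_of_ev h7
              rw [mem_Ioc] at hj
              have := Nat.le_of_dvd (by omega) hd
              omega
            exact_mod_cast h6
      push_cast at h2
      have h5 : (((Ioc P (2 * P)).filter (fun q => q.Prime ∧ m % q < L)).card : ℝ) * Real.log m ≤
          C * L := by
        calc _ ≤ (C * L / Real.log m) * Real.log m := mul_le_mul_of_nonneg_right h1 hlogpos.le
          _ = C * L := by field_simp
      have h6 : (P:ℝ) ≤ 2 * C * L := by linarith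
      have h7 : (y:ℝ) ≤ (4 * C + 1) * L := by
        calc (y:ℝ) ≤ 2 * P + 1 := hyPR
          _ ≤ 2 * (2 * C * L) + L := by linarith
          _ = _ := by ring
      refine h7.trans ?_
      apply mul_le_mul_of_nonneg_right _ (by linarith)
      linarith
    · push Not at hP0
      omega

lemma pi_le_eps (ε : ℝ) (hε : 0 < ε) : ∃ K0 : ℕ, ∀ y : ℕ, K0 ≤ y →
    (((Ioc 0 y).filter Nat.Prime).card : ℝ) ≤ ε * y := by
  obtain ⟨K0, hK0⟩ := two_pow_pi_eps (ε / 2) (by positivity)
  refine ⟨K0, fun y hy => ?_⟩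
  have h1 := hK0 y hy
  have h2 := Real.log_le_log (by positivity) h1
  rw [Real.log_exp, Real.log_pow] at h2
  have h3 := Real.log_two_gt_d9
  have h4 : (0:ℝ) ≤ (((Ioc 0 y).filter Nat.Prime).card : ℝ) := Nat.cast_nonneg _
  have h5 : (((Ioc 0 y).filter Nat.Prime).card : ℝ) * (1 / 2) ≤
      (((Ioc 0 y).filter Nat.Prime).card : ℝ) * Real.log 2 :=
    mul_le_mul_of_nonneg_left (by linarith) h4
  linarith

/-- the interval is shorter than `√m` -/
lemma sq_lt (δ : ℝ) (hδ : 0 < δ) : ∀ᶠ m : ℕ in atTop, ∀ y c, Conf y c c c m →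
    (m:ℝ) ^ δ ≤ ((m - c : ℕ) : ℝ) → (m - c) ^ 2 < m := by
  classical
  obtain ⟨C, hC0, hy⟩ := y_le3 δ hδ
  obtain ⟨K0, hK0⟩ := pi_le_eps (1 / 20) (by norm_num)
  filter_upwards [hy, R2, log_ge (B := 20 * (2 + 1.4 * C) + 1), eventually_ge_atTop (K0 ^ 2 + 16)]
    with m hym hR2 hlog hm y c hConf hL
  by_contra hcon
  push Not at hcon
  have hy1 := hym y c hConf hL
  have hR := hR2 y c c c hConf
  rw [Nat.sub_self, Nat.max_zero] at hR
  have hcm := hConf.hcm
  obtain ⟨L, hLdef⟩ : ∃ L, L = m - c := ⟨_, rfl⟩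
  rw [← hLdef] at hcon hy1 hR
  have hL1 : 1 ≤ L := by omega
  have hLm : L ≤ m := by omega
  have hLR : (1:ℝ) ≤ L := by exact_mod_cast hL1
  have hL0 : (0:ℝ) < L := by linarith
  have hm0 : (0:ℝ) < m := by
    have : 0 < m := by omega
    exact_mod_cast this
  have hlogm : 0 < Real.log m := by
    have : 0 ≤ C := hC0.le
    linarith
  have hlogL : 10 * Real.log L ≤ 9 * Real.log m := by
    have h1 : (L:ℝ) ^ 10 ≤ (m:ℝ) ^ 9 := by exact_mod_cast hR.le
    have h2 := Real.log_le_log (by positivity) h1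
    rw [Real.log_pow, Real.log_pow] at h2
    push_cast at h2
    exact h2
  -- L ≤ m / 2
  have hL2 : 2 * L ≤ m := by
    by_contra h
    push Not at h
    have h1 : m ^ 10 < (2 * L) ^ 10 := Nat.pow_lt_pow_left h (by norm_num)
    have h2 : (2 * L) ^ 10 = 1024 * L ^ 10 := by ring
    have h3 : (1024:ℝ) ≤ m := by
      have h4 : (10:ℝ) ≤ Real.log m := by linarith
      have h5 : Real.exp 10 ≤ m := by rwa [← Real.le_log_iff_exp_le hm0]
      have h6 : (1024:ℝ) ≤ Real.exp 10 := by
        have h7 : Real.exp 10 = Real.exp 1 ^ 10 := by rw [← Real.exp_nat_mul]; norm_num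
        rw [h7]
        calc (1024:ℝ) = 2 ^ 10 := by norm_num
          _ ≤ Real.exp 1 ^ 10 := by
            apply pow_le_pow_left₀ (by norm_num)
            have := Real.add_one_le_exp (1:ℝ)
            linarith
      linarith
    have h4 : 1024 ≤ m := by exact_mod_cast h3
    have h5 : 1024 * m ^ 9 ≤ m ^ 10 := by
      calc 1024 * m ^ 9 ≤ m * m ^ 9 := Nat.mul_le_mul_right _ h4
        _ = m ^ 10 := by ring
    omega
  have hW := W_ge (lo := c) (hi := m) hcm.le (by
    rw [← hLdef]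
    calc m ≤ L ^ 2 := hcon
      _ < (L + 1) ^ 2 := Nat.pow_lt_pow_left (by omega) (by norm_num))
  rw [← hLdef] at hW
  have hWle : W L c m ≤ 1.4 * y := by
    refine le_trans ?_ (theta_nat_le y)
    unfold W
    apply Finset.sum_le_sum_of_subset_of_nonneg
    · intro q hq
      rw [mem_PS] at hq
      obtain ⟨⟨hq1, hq2⟩, hqp, j, hj, hd⟩ := hq
      rw [mem_filter, mem_Ioc]
      refine ⟨⟨hqp.pos, ?_⟩, hqp⟩
      by_contra hqy
      push Not at hqy
      have hj' := mem_Ioc.mp hj
      have e1 : ev q c m = j.factorization q := ev_eq_single (by omega) hj hd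
      have e2 := hConf.par q hqp
      have e3 : ev q c c = 0 := by unfold ev; rw [Finset.Ioc_self, Finset.sum_empty]
      rw [e3, ev_zero_of_lt hqy, zero_add, zero_add, e1] at e2
      have e4 : 1 ≤ j.factorization q := hqp.factorization_pos_of_dvd (by omega) hd
      have e5 : 2 ≤ j.factorization q := by
        rcases e2 with ⟨r, hr⟩
        omega
      have e6 : q ^ 2 ∣ j := by
        exact (hqp.pow_dvd_iff_le_factorization (by omega)).mpr e5
      have e7 := Nat.le_of_dvd (by omega) e6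
      have e8 : L ^ 2 < q ^ 2 := Nat.pow_lt_pow_left hq1 (by norm_num)
      omega
    · intro q hq _
      exact log_pos_of_mem hq
  have hK0L : K0 ≤ L := by
    by_contra h
    push Not at h
    have : L ^ 2 < K0 ^ 2 := Nat.pow_lt_pow_left h (by norm_num)
    omega
  have hpi := hK0 L hK0L
  have hch := log_choose_ge m L hL1 hLm
  have h1 : Real.log m - Real.log L - 1 ≤ Real.log (((m + 1 - L : ℕ) : ℝ) / L) := by
    have h2 : (m:ℝ) / 2 ≤ ((m + 1 - L : ℕ) : ℝ) := by
      have : m ≤ 2 * (m + 1 - L) := by omega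
      have h3 : (m:ℝ) ≤ 2 * ((m + 1 - L : ℕ) : ℝ) := by exact_mod_cast this
      linarith
    have h3 : Real.log ((m:ℝ) / 2 / L) ≤ Real.log (((m + 1 - L : ℕ) : ℝ) / L) := by
      apply Real.log_le_log (by positivity)
      exact div_le_div_of_nonneg_right h2 hL0.le
    rw [Real.log_div (by positivity) hL0.ne', Real.log_div hm0.ne' (by norm_num)] at h3
    have := Real.log_two_lt_d9
    linarith
  have h2 : (L:ℝ) * (Real.log m / 10 - 1) ≤ L * Real.log (((m + 1 - L : ℕ) : ℝ) / L) := by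
    apply mul_le_mul_of_nonneg_left _ hL0.le
    linarith
  have h3 : (((Ioc 0 L).filter Nat.Prime).card : ℝ) * Real.log m ≤ (1 / 20 * L) * Real.log m :=
    mul_le_mul_of_nonneg_right hpi hlogm.le
  have h4 : (L:ℝ) * (Real.log m / 10 - 1) ≤ (1 / 20 * L) * Real.log m + 1.4 * (C * L) := by
    linarith
  have h5 : (L:ℝ) * (Real.log m / 20) ≤ L * (1 + 1.4 * C) := by linarith
  have h6 := le_of_mul_le_mul_left h5 hL0
  linarith

end Pool.Agent.Work.MP_0b7501_nt
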