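import Pool.Agent.Work.MP_0b7501_nt.G1

/-!
Three factorials, long intervals: squarefree parts are distinct and of size `O(L)`.
-/

namespace Pool.Agent.Work.MP_0b7501_nt

open Finset Filter

/-- the squarefree parts are distinct on short intervals -/
lemma tf_inj {c m : ℕ} (hm : 16 ≤ m) (hL : (m - c) ^ 2 < m) :
    Set.InjOn tf (Ioc c m : Finset ℕ) := by
  have key : ∀ i ∈ Ioc c m, ∀ j ∈ Ioc c m, i < j → tf i ≠ tf j := by
    intro i hi j hj hij h
    rw [mem_Ioc] at hi hj
    have h1 := tx_eq i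
    have h2 := tx_eq j
    rw [← h] at h2
    have hx : xf i < xf j := by
      by_contra hcon
      push Not at hcon
      have : tf i * xf j ^ 2 ≤ tf i * xf i ^ 2 :=
        Nat.mul_le_mul_left _ (Nat.pow_le_pow_left hcon 2)
      omega
    have h3 : tf i * (xf i + 1) ^ 2 ≤ tf i * xf j ^ 2 :=
      Nat.mul_le_mul_left _ (Nat.pow_le_pow_left hx 2)
    have h4 : tf i * (xf i + 1) ^ 2 = tf i * xf i ^ 2 + 2 * (tf i * xf i) + tf i := by ring
    have h5 : 2 * (tf i * xf i) ≤ j - i := by omega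
    have h6 : (2 * (tf i * xf i)) ^ 2 ≤ (j - i) ^ 2 := Nat.pow_le_pow_left h5 2
    have h7 : (2 * (tf i * xf i)) ^ 2 = 4 * (tf i * (tf i * xf i ^ 2)) := by ring
    have h8 : 1 ≤ tf i := Nat.pos_of_ne_zero (tf_ne_zero i)
    have h9 : i ≤ tf i * (tf i * xf i ^ 2) := by
      rw [← h1]
      exact Nat.le_mul_of_pos_left i h8
    have h10 : (j - i) ^ 2 ≤ (m - c) ^ 2 := Nat.pow_le_pow_left (by omega) 2
    have h11 : 4 * (m - c) ≤ m := by
      by_contra hcon
      push Not at hcon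
      have h12 : m ^ 2 < (4 * (m - c)) ^ 2 := Nat.pow_lt_pow_left hcon (by norm_num)
      have h13 : (4 * (m - c)) ^ 2 = 16 * (m - c) ^ 2 := by ring
      have h14 : 16 * m ≤ m ^ 2 := by
        rw [sq]; exact Nat.mul_le_mul_right m hm
      omega
    omega
  intro i hi j hj h
  by_contra hne
  rcases lt_or_gt_of_ne hne with h1 | h1
  · exact key i hi j hj h1 h
  · exact key j hj i hi h1 h.symm

lemma sum_log_Icc (L : ℕ) : ∑ t ∈ Icc 1 L, Real.log (t:ℝ) = Real.log (L.factorial : ℝ) := by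
  induction L with
  | zero => simp
  | succ L ih =>
    rw [Finset.sum_Icc_succ_top (by omega), ih, Nat.factorial_succ]
    push_cast
    rw [Real.log_mul (by positivity) (by positivity)]
    ring

/-- few large squarefree parts -/
lemma few_large {y c m K : ℕ} {C : ℝ} (hC : Conf y c c c m)
    (hinj : Set.InjOn tf (Ioc c m : Finset ℕ)) (hy : (y:ℝ) ≤ C * ((m - c : ℕ) : ℝ))
    (hK : 1 ≤ K) (hKC : 4 * (2.4 + 1.4 * C) ≤ Real.log K) :
    (((Ioc c m).filter (fun j => K * (m - c) < tf j)).card : ℝ) ≤ ((m - c : ℕ) : ℝ) / 4 := by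
  classical
  have hcm := hC.hcm
  have hsum := sum_log_tf hC
  obtain ⟨L, hL⟩ : ∃ L, L = m - c := ⟨_, rfl⟩
  rw [← hL] at hsum hy ⊢
  have hL1 : 1 ≤ L := by omega
  have hLR : (1:ℝ) ≤ L := by exact_mod_cast hL1
  have hL0 : (0:ℝ) < L := by linarith
  have hKR : (1:ℝ) ≤ K := by exact_mod_cast hK
  have hTh := Th_le y L
  have hlogL : 0 ≤ Real.log L := Real.log_nonneg hLR
  have hlogK : 0 ≤ Real.log K := Real.log_nonneg hKR
  -- pointwise lower bound
  have hpt : ∀ j ∈ Ioc c m, Real.log L + (if K * L < tf j then Real.log K else 0) -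
      (if tf j ≤ L then Real.log L - Real.log (tf j) else 0) ≤ Real.log (tf j) := by
    intro j _
    have htpos : 0 < tf j := Nat.pos_of_ne_zero (tf_ne_zero j)
    by_cases h1 : K * L < tf j
    · have h2 : L < tf j := lt_of_le_of_lt (Nat.le_mul_of_pos_left L hK) h1
      rw [if_pos h1, if_neg (by omega), sub_zero]
      rw [add_comm, ← Real.log_mul (by linarith) hL0.ne']
      apply Real.log_le_log (by positivity)
      exact_mod_cast h1.le
    · rw [if_neg h1, add_zero]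
      by_cases h2 : tf j ≤ L
      · rw [if_pos h2]; linarith
      · rw [if_neg h2, sub_zero]
        push Not at h2
        apply Real.log_le_log hL0
        exact_mod_cast h2.le
  have h1 := Finset.sum_le_sum hpt
  rw [Finset.sum_sub_distrib, Finset.sum_add_distrib, Finset.sum_const, Nat.card_Ioc, ← hL,
    nsmul_eq_mul, ← Finset.sum_filter, Finset.sum_const, nsmul_eq_mul, ← Finset.sum_filter] at h1
  -- the small ones
  have h2 : ∑ j ∈ (Ioc c m).filter (fun j => tf j ≤ L), (Real.log L - Real.log (tf j)) ≤ L := by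
    have h3 : ∑ j ∈ (Ioc c m).filter (fun j => tf j ≤ L), (Real.log L - Real.log (tf j)) =
        ∑ t ∈ ((Ioc c m).filter (fun j => tf j ≤ L)).image tf, (Real.log L - Real.log t) := by
      rw [Finset.sum_image]
      intro i hi j hj h
      exact hinj (Finset.mem_coe.mpr (Finset.mem_of_mem_filter i hi))
        (Finset.mem_coe.mpr (Finset.mem_of_mem_filter j hj)) h
    rw [h3]
    have h4 : ∑ t ∈ ((Ioc c m).filter (fun j => tf j ≤ L)).image tf, (Real.log L - Real.log t) ≤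
        ∑ t ∈ Icc 1 L, (Real.log L - Real.log (t:ℝ)) := by
      apply Finset.sum_le_sum_of_subset_of_nonneg
      · intro t ht
        rw [mem_image] at ht
        obtain ⟨j, hj, rfl⟩ := ht
        rw [mem_filter] at hj
        rw [mem_Icc]
        exact ⟨Nat.pos_of_ne_zero (tf_ne_zero j), hj.2⟩
      · intro t ht _
        rw [mem_Icc] at ht
        rw [sub_nonneg]
        apply Real.log_le_log
        · exact_mod_cast ht.1
        · exact_mod_cast ht.2
    refine h4.trans ?_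
    rw [Finset.sum_sub_distrib, Finset.sum_const, Nat.card_Icc, Nat.add_sub_cancel, nsmul_eq_mul]
    rw [sum_log_Icc L]
    have h6 := Real.pow_div_factorial_le_exp (L:ℝ) hL0.le L
    have h7 := Real.log_le_log (by positivity) h6
    rw [Real.log_exp, Real.log_div (by positivity) (by positivity), Real.log_pow] at h7
    exact h7
  have h3 : (((Ioc c m).filter (fun j => K * L < tf j)).card : ℝ) * Real.log K ≤
      (2.4 + 1.4 * C) * L := by
    have : (2.4 + 1.4 * C) * L = 2.4 * L + 1.4 * (C * L) := by ring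
    linarith
  have h4 : (((Ioc c m).filter (fun j => K * L < tf j)).card : ℝ) * (4 * (2.4 + 1.4 * C)) ≤
      (2.4 + 1.4 * C) * L := by
    refine le_trans (mul_le_mul_of_nonneg_left hKC (Nat.cast_nonneg _)) h3
  have hCnn : 0 ≤ C := by
    by_contra hcon
    push Not at hcon
    have : C * L < 0 := mul_neg_of_neg_of_pos hcon hL0
    have : (0:ℝ) ≤ y := Nat.cast_nonneg y
    linarith
  have h5 : 0 < 2.4 + 1.4 * C := by linarith
  have h6 : (2.4 + 1.4 * C) * ((((Ioc c m).filter (fun j => K * L < tf j)).card : ℝ) * 4) ≤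
      (2.4 + 1.4 * C) * L := by linarith
  have h7 := le_of_mul_le_mul_left h6 h5
  linarith

/-- `∑_{V ≤ x ≤ U} 1/x² ≤ 2/V` -/
lemma sum_inv_sq_tail (V U : ℕ) (hV : 2 ≤ V) : ∑ x ∈ Icc V U, 1 / ((x:ℝ) ^ 2) ≤ 1 / ((V:ℝ) - 1) := by
  have hVR : (2:ℝ) ≤ V := by exact_mod_cast hV
  rcases Nat.lt_or_ge U V with h | h
  · rw [Finset.Icc_eq_empty (by omega), Finset.sum_empty]
    apply div_nonneg zero_le_one
    linarith
  · have key : ∀ U, V ≤ U → ∑ x ∈ Icc V U, 1 / ((x:ℝ) ^ 2) ≤ 1 / ((V:ℝ) - 1) - 1 / (U:ℝ) := by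
      intro U hU
      induction U, hU using Nat.le_induction with
      | base =>
        rw [Finset.Icc_self, Finset.sum_singleton, div_sub_div _ _ (by linarith) (by linarith),
          div_le_div_iff₀ (by positivity) (mul_pos (by linarith) (by linarith))]
        nlinarith
      | succ U hU ih =>
        have hUR : (2:ℝ) ≤ U := by exact_mod_cast hV.trans hU
        rw [Finset.sum_Icc_succ_top (by omega)]
        have : 1 / (((U + 1 : ℕ) : ℝ) ^ 2) ≤ 1 / (U:ℝ) - 1 / ((U + 1 : ℕ) : ℝ) := by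
          push_cast
          rw [div_sub_div _ _ (by positivity) (by positivity), div_le_div_iff₀ (by positivity)
            (by positivity)]
          ring_nf
          nlinarith
        linarith
    have h1 := key U h
    have h2 : (0:ℝ) ≤ 1 / (U:ℝ) := by positivity
    linarith

/-- multiples of squares in an interval -/
lemma card_sq_mult {c m V U : ℕ} (hcm : c ≤ m) (hV : 2 ≤ V) :
    (((Ioc c m).filter (fun j => ∃ x ∈ Icc V U, x ^ 2 ∣ j)).card : ℝ) ≤
      ((m - c : ℕ) : ℝ) / ((V:ℝ) - 1) + U := by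
  classical
  have hsub : (Ioc c m).filter (fun j => ∃ x ∈ Icc V U, x ^ 2 ∣ j) ⊆
      (Icc V U).biUnion (fun x => (Ioc c m).filter (fun j => x ^ 2 ∣ j)) := by
    intro j hj
    rw [mem_filter] at hj
    obtain ⟨hj1, x, hx, hd⟩ := hj
    rw [mem_biUnion]
    exact ⟨x, hx, mem_filter.mpr ⟨hj1, hd⟩⟩
  have h1 : (((Ioc c m).filter (fun j => ∃ x ∈ Icc V U, x ^ 2 ∣ j)).card : ℝ) ≤
      ∑ x ∈ Icc V U, (((Ioc c m).filter (fun j => x ^ 2 ∣ j)).card : ℝ) := by
    exact_mod_cast (Finset.card_le_card hsub).trans Finset.card_biUnion_le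
  have h2 : ∀ x ∈ Icc V U, (((Ioc c m).filter (fun j => x ^ 2 ∣ j)).card : ℝ) ≤
      ((m - c : ℕ) : ℝ) * (1 / (x:ℝ) ^ 2) + 1 := by
    intro x hx
    rw [mem_Icc] at hx
    have hx0 : 0 < x := by omega
    have h3 := card_mult_Ioc (a := c) (b := m) (L := m - c) (q := x ^ 2) rfl hcm (by positivity)
    have h4 : (((Ioc c m).filter (fun j => x ^ 2 ∣ j)).card : ℝ) ≤
        (((m - c) / x ^ 2 : ℕ) : ℝ) + 1 := by exact_mod_cast h3
    have h5 : (((m - c) / x ^ 2 : ℕ) : ℝ) ≤ ((m - c : ℕ) : ℝ) / ((x ^ 2 : ℕ) : ℝ) := Nat.cast_div_le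
    push_cast at h5
    have h6 : ((m - c : ℕ) : ℝ) / (x:ℝ) ^ 2 = ((m - c : ℕ) : ℝ) * (1 / (x:ℝ) ^ 2) := by ring
    rw [← h6]
    linarith
  refine h1.trans ((Finset.sum_le_sum h2).trans ?_)
  rw [Finset.sum_add_distrib, ← Finset.mul_sum, Finset.sum_const, nsmul_eq_mul, mul_one]
  have h3 := sum_inv_sq_tail V U hV
  have h4 : ((m - c : ℕ) : ℝ) * ∑ x ∈ Icc V U, 1 / ((x:ℝ) ^ 2) ≤
      ((m - c : ℕ) : ℝ) * (1 / ((V:ℝ) - 1)) := mul_le_mul_of_nonneg_left h3 (Nat.cast_nonneg _)
  have h5 : ((Icc V U).card : ℝ) ≤ U := by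
    rw [Nat.card_Icc]
    exact_mod_cast (by omega : U + 1 - V ≤ U)
  have h6 : ((m - c : ℕ) : ℝ) * (1 / ((V:ℝ) - 1)) = ((m - c : ℕ) : ℝ) / ((V:ℝ) - 1) := by ring
  linarith

/-- few small squarefree parts -/
lemma few_small {c m T : ℕ} (hinj : Set.InjOn tf (Ioc c m : Finset ℕ)) :
    ((Ioc c m).filter (fun j => tf j ≤ T)).card ≤ T := by
  classical
  have h1 : ((Ioc c m).filter (fun j => tf j ≤ T)).card ≤ (Icc 1 T).card := by
    apply Finset.card_le_card_of_injOn tf
    · intro j hj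
      rw [Finset.mem_coe, mem_filter] at hj
      rw [Finset.mem_coe, mem_Icc]
      exact ⟨Nat.pos_of_ne_zero (tf_ne_zero j), hj.2⟩
    · intro i hi j hj h
      exact hinj (Finset.mem_coe.mpr (Finset.mem_of_mem_filter i hi))
        (Finset.mem_coe.mpr (Finset.mem_of_mem_filter j hj)) h
  rw [Nat.card_Icc, Nat.add_sub_cancel] at h1
  exact h1

/-- the interval is shorter than `m^{2/5}` -/
lemma L_le {c m n K : ℕ} {X : ℝ} (hcm : c < m) (hm1 : n < 2 * m) (hm2 : m ≤ n)
    (hXn : X ^ 2000 = n) (hX : 16 ≤ X) (hXK : 4 * (K:ℝ) ≤ X) (hK : 1 ≤ K)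
    (hinj : Set.InjOn tf (Ioc c m : Finset ℕ)) (hL2 : (m - c) ^ 2 < m)
    (hB : (((Ioc c m).filter (fun j => K * (m - c) < tf j)).card : ℝ) ≤ ((m - c : ℕ) : ℝ) / 4) :
    ((m - c : ℕ) : ℝ) ≤ 4 * X ^ 800 + 8 := by
  classical
  obtain ⟨L, hL⟩ : ∃ L, L = m - c := ⟨_, rfl⟩
  rw [← hL] at hL2 hB ⊢
  have hX0 : 0 < X := by linarith
  have hX1 : 1 ≤ X := by linarith
  have hL1 : 1 ≤ L := by omega
  have hL0 : (0:ℝ) < L := by exact_mod_cast hL1
  have hKR : (1:ℝ) ≤ K := by exact_mod_cast hK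
  have hnR : (0:ℝ) < n := by rw [← hXn]; positivity
  have hLX : (L:ℝ) ≤ X ^ 1000 := by
    have h1 : (L:ℝ) ^ 2 ≤ (X ^ 1000) ^ 2 := by
      rw [← pow_mul, hXn]
      have : L ^ 2 ≤ n := by omega
      exact_mod_cast this
    exact le_of_sq_le_sq h1 (by positivity)
  -- size of xf
  have hxf : ∀ j ∈ Ioc c m, tf j ≤ K * L → X ^ 499 ≤ xf j := by
    intro j hj ht
    rw [mem_Ioc] at hj
    by_contra hcon
    push Not at hcon
    have h1 := tx_eq j
    have h2 : (j:ℝ) = tf j * (xf j : ℝ) ^ 2 := by exact_mod_cast h1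
    have h3 : (tf j : ℝ) ≤ K * L := by exact_mod_cast ht
    have h4 : (j:ℝ) ≤ (K * L) * (X ^ 499) ^ 2 := by
      rw [h2]
      apply mul_le_mul h3 _ (by positivity) (by positivity)
      exact pow_le_pow_left₀ (Nat.cast_nonneg _) hcon.le 2
    have h5 : (n:ℝ) < 4 * j := by
      have hLsmall : 4 * L ≤ m := by
        by_contra hc
        push Not at hc
        have h12 : m ^ 2 < (4 * L) ^ 2 := Nat.pow_lt_pow_left hc (by norm_num)
        have h13 : (4 * L) ^ 2 = 16 * L ^ 2 := by ring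
        have hm16 : 16 ≤ m := by
          have : (16:ℝ) * 2 ≤ n := by
            rw [← hXn]
            calc (16:ℝ) * 2 ≤ X * X := by nlinarith
              _ = X ^ 2 := by ring
              _ ≤ X ^ 2000 := pow_le_pow_right₀ hX1 (by norm_num)
          have : 16 * 2 ≤ n := by exact_mod_cast this
          omega
        have h14 : 16 * m ≤ m ^ 2 := by
          rw [sq]; exact Nat.mul_le_mul_right m hm16
        omega
      have : n < 4 * j := by omega
      exact_mod_cast this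
    have h6 : (K * L) * (X ^ 499) ^ 2 * 4 ≤ X ^ 1999 := by
      calc (K * L) * (X ^ 499) ^ 2 * 4 = (4 * K) * L * X ^ 998 := by ring
        _ ≤ X * X ^ 1000 * X ^ 998 := by gcongr
        _ = X ^ 1999 := by ring
    have h7 : X ^ 1999 ≤ (n:ℝ) := by
      rw [← hXn]
      exact pow_le_pow_right₀ hX1 (by norm_num)
    linarith
  obtain ⟨V, hV⟩ : ∃ V, V = ⌊X⌋₊ := ⟨_, rfl⟩
  have hV15 : 15 ≤ V := by
    rw [hV]; apply Nat.le_floor; push_cast; linarith
  obtain ⟨U, hU⟩ : ∃ U, U = ⌊X ^ 800⌋₊ := ⟨_, rfl⟩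
  have hUle : (U:ℝ) ≤ X ^ 800 := by rw [hU]; exact Nat.floor_le (by positivity)
  obtain ⟨T, hT⟩ : ∃ T, T = ⌊X ^ 400⌋₊ := ⟨_, rfl⟩
  have hTle : (T:ℝ) ≤ X ^ 400 := by rw [hT]; exact Nat.floor_le (by positivity)
  -- cover
  have hcov : Ioc c m ⊆ ((Ioc c m).filter (fun j => K * L < tf j) ∪
      (Ioc c m).filter (fun j => ∃ x ∈ Icc V U, x ^ 2 ∣ j)) ∪
      (Ioc c m).filter (fun j => tf j ≤ T) := by
    intro j hj
    rw [mem_union, mem_union, mem_filter, mem_filter, mem_filter]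
    by_cases h1 : K * L < tf j
    · exact Or.inl (Or.inl ⟨hj, h1⟩)
    · push Not at h1
      have h2 := hxf j hj h1
      by_cases h3 : xf j ≤ U
      · refine Or.inl (Or.inr ⟨hj, xf j, ?_, ?_⟩)
        · rw [mem_Icc]
          refine ⟨?_, h3⟩
          have h4 : (V:ℝ) ≤ xf j := by
            calc (V:ℝ) ≤ X := by rw [hV]; exact Nat.floor_le hX0.le
              _ ≤ X ^ 499 := le_self_pow₀ hX1 (by norm_num)
              _ ≤ _ := h2
          exact_mod_cast h4
        · conv_rhs => rw [tx_eq j]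
          exact Dvd.intro_left _ rfl
      · push Not at h3
        refine Or.inr ⟨hj, ?_⟩
        rw [hT]
        apply Nat.le_floor
        have h4 : X ^ 800 < xf j := by
          rw [hU] at h3
          exact (Nat.floor_lt (by positivity)).mp h3
        have hj' := mem_Ioc.mp hj
        have h5 : (tf j : ℝ) * (xf j : ℝ) ^ 2 ≤ n := by
          have : tf j * xf j ^ 2 ≤ n := by rw [← tx_eq]; omega
          exact_mod_cast this
        have h6 : (tf j : ℝ) * (X ^ 800) ^ 2 ≤ X ^ 400 * (X ^ 800) ^ 2 := by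
          calc (tf j : ℝ) * (X ^ 800) ^ 2 ≤ (tf j : ℝ) * (xf j : ℝ) ^ 2 := by
                apply mul_le_mul_of_nonneg_left _ (Nat.cast_nonneg _)
                exact pow_le_pow_left₀ (by positivity) h4.le 2
            _ ≤ (n:ℝ) := h5
            _ = X ^ 400 * (X ^ 800) ^ 2 := by rw [← hXn]; ring
        exact le_of_mul_le_mul_right h6 (by positivity)
  have h1 := Finset.card_le_card hcov
  have h2 := h1.trans (Finset.card_union_le _ _)
  have h3 := Finset.card_union_le ((Ioc c m).filter (fun j => K * L < tf j))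
    ((Ioc c m).filter (fun j => ∃ x ∈ Icc V U, x ^ 2 ∣ j))
  rw [Nat.card_Ioc, ← hL] at h2
  have h4 : (L:ℝ) ≤ (((Ioc c m).filter (fun j => K * L < tf j)).card : ℝ) +
      (((Ioc c m).filter (fun j => ∃ x ∈ Icc V U, x ^ 2 ∣ j)).card : ℝ) +
      (((Ioc c m).filter (fun j => tf j ≤ T)).card : ℝ) := by
    have : L ≤ ((Ioc c m).filter (fun j => K * L < tf j)).card +
      ((Ioc c m).filter (fun j => ∃ x ∈ Icc V U, x ^ 2 ∣ j)).card +
      ((Ioc c m).filter (fun j => tf j ≤ T)).card := by omega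
    exact_mod_cast this
  have h5 := card_sq_mult (c := c) (m := m) (V := V) (U := U) hcm.le (by omega)
  rw [← hL] at h5
  have h6 : (((Ioc c m).filter (fun j => tf j ≤ T)).card : ℝ) ≤ T := by
    exact_mod_cast few_small hinj
  have h7 : (L:ℝ) / ((V:ℝ) - 1) ≤ L / 14 := by
    apply div_le_div_of_nonneg_left hL0.le (by norm_num)
    have : (15:ℝ) ≤ V := by exact_mod_cast hV15
    linarith
  have h8 : X ^ 400 ≤ X ^ 800 / 16 := by
    have : (16:ℝ) ≤ X ^ 400 := hX.trans (le_self_pow₀ hX1 (by norm_num))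
    have h9 : X ^ 800 = X ^ 400 * X ^ 400 := by ring
    rw [h9]
    have h10 : 0 < X ^ 400 := by positivity
    nlinarith
  linarith

end Pool.Agent.Work.MP_0b7501_nt
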