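import Pool.Agent.Work.MP_0b7501_nt.G1

/-!
Three factorials, long intervals: counting.
-/

namespace Pool.Agent.Work.MP_0b7501_nt

open Finset Filter

lemma det_bound {t t' H N D x1 y1 x2 y2 : ℕ} (ht : 1 ≤ t) (ht' : 1 ≤ t')
    (hD : 64 * H ^ 2 ≤ D ^ 2 * (t * t')) (h1 : t * x1 ^ 2 < t' * y1 ^ 2 + H)
    (h2 : t' * y1 ^ 2 < t * x1 ^ 2 + H) (h1' : t * x2 ^ 2 < t' * y2 ^ 2 + H)
    (h2' : t' * y2 ^ 2 < t * x2 ^ 2 + H) (h4 : t' * y1 ^ 2 ≤ N) (h5 : N < 4 * (t * x1 ^ 2))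
    (hpp1 : 0 < x1) (hpp2 : 0 < y1) (hqp1 : 0 < x2) (hqp2 : 0 < y2) (hd1 : y2 < 2 * y1)
    (hd2 : y1 < 2 * y2) : |(x1:ℤ) * y2 - x2 * y1| ≤ D := by
  have htZ : (1:ℤ) ≤ t := by exact_mod_cast ht
  have htZ' : (1:ℤ) ≤ t' := by exact_mod_cast ht'
  obtain ⟨d, hd⟩ : ∃ d, d = (x1:ℤ) * y2 - x2 * y1 := ⟨_, rfl⟩
  rw [← hd]
  have hx1 : (0:ℤ) < x1 := by exact_mod_cast hpp1
  have hy1 : (0:ℤ) < y1 := by exact_mod_cast hpp2
  have hx2 : (0:ℤ) < x2 := by exact_mod_cast hqp1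
  have hy2 : (0:ℤ) < y2 := by exact_mod_cast hqp2
  have hd1Z : (y2:ℤ) < 2 * y1 := by exact_mod_cast hd1
  have hd2Z : (y1:ℤ) < 2 * y2 := by exact_mod_cast hd2
  have hHZ : (0:ℤ) ≤ H := Int.natCast_nonneg _
  obtain ⟨k1, hk1⟩ : ∃ k1, k1 = (t:ℤ) * x1 ^ 2 - t' * y1 ^ 2 := ⟨_, rfl⟩
  obtain ⟨k2, hk2⟩ : ∃ k2, k2 = (t:ℤ) * x2 ^ 2 - t' * y2 ^ 2 := ⟨_, rfl⟩
  have hk1a : |k1| ≤ H := by
    rw [abs_le, hk1]
    have e1 : (t:ℤ) * x1 ^ 2 < t' * y1 ^ 2 + H := by exact_mod_cast h1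
    have e2 : (t':ℤ) * y1 ^ 2 < t * x1 ^ 2 + H := by exact_mod_cast h2
    constructor <;> linarith
  have hk2a : |k2| ≤ H := by
    rw [abs_le, hk2]
    have e1 : (t:ℤ) * x2 ^ 2 < t' * y2 ^ 2 + H := by exact_mod_cast h1'
    have e2 : (t':ℤ) * y2 ^ 2 < t * x2 ^ 2 + H := by exact_mod_cast h2'
    constructor <;> linarith
  have h9 : (t:ℤ) * d * (x1 * y2 + x2 * y1) = k1 * (y2:ℤ) ^ 2 - k2 * y1 ^ 2 := by
    rw [hd, hk1, hk2]; ring
  have hsq2 : (y2:ℤ) ^ 2 ≤ 2 * y1 * y2 := by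
    rw [sq]; exact mul_le_mul_of_nonneg_right hd1Z.le hy2.le
  have hsq1 : (y1:ℤ) ^ 2 ≤ 2 * y1 * y2 := by
    have : (y1:ℤ) * y1 ≤ y1 * (2 * y2) := mul_le_mul_of_nonneg_left hd2Z.le hy1.le
    calc (y1:ℤ) ^ 2 = y1 * y1 := sq _
      _ ≤ y1 * (2 * y2) := this
      _ = _ := by ring
  have h10 : |d| * (t * x1) * y2 ≤ (4 * H * y1) * y2 := by
    calc |d| * (t * x1) * y2 ≤ |d| * (t * (x1 * y2 + x2 * y1)) := by
          have : |d| * (t * x1) * y2 = |d| * (t * (x1 * y2)) := by ring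
          rw [this]
          apply mul_le_mul_of_nonneg_left _ (abs_nonneg _)
          apply mul_le_mul_of_nonneg_left _ (by linarith)
          have : (0:ℤ) ≤ x2 * y1 := by positivity
          linarith
      _ = |(t:ℤ) * d * (x1 * y2 + x2 * y1)| := by
          rw [abs_mul, abs_mul, abs_of_nonneg (by linarith : (0:ℤ) ≤ t),
            abs_of_nonneg (by positivity : (0:ℤ) ≤ x1 * y2 + x2 * y1)]
          ring
      _ = |k1 * (y2:ℤ) ^ 2 - k2 * y1 ^ 2| := by rw [h9]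
      _ ≤ |k1 * (y2:ℤ) ^ 2| + |k2 * y1 ^ 2| := abs_sub _ _
      _ = |k1| * (y2:ℤ) ^ 2 + |k2| * y1 ^ 2 := by
          rw [abs_mul, abs_mul, abs_of_nonneg (by positivity : (0:ℤ) ≤ (y2:ℤ) ^ 2),
            abs_of_nonneg (by positivity : (0:ℤ) ≤ (y1:ℤ) ^ 2)]
      _ ≤ H * (y2:ℤ) ^ 2 + H * y1 ^ 2 :=
          add_le_add (mul_le_mul_of_nonneg_right hk1a (by positivity))
            (mul_le_mul_of_nonneg_right hk2a (by positivity))
      _ ≤ H * (2 * y1 * y2) + H * (2 * y1 * y2) :=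
          add_le_add (mul_le_mul_of_nonneg_left hsq2 hHZ) (mul_le_mul_of_nonneg_left hsq1 hHZ)
      _ = (4 * H * y1) * y2 := by ring
  have h11 : |d| * (t * x1) ≤ 4 * H * y1 := le_of_mul_le_mul_right h10 hy2
  have h12 : (|d| * (t * x1)) ^ 2 ≤ (4 * H * y1) ^ 2 :=
    pow_le_pow_left₀ (by positivity) h11 2
  have h4Z : (t':ℤ) * y1 ^ 2 ≤ N := by exact_mod_cast h4
  have h5Z : (N:ℤ) ≤ 4 * (t * x1 ^ 2) := by exact_mod_cast h5.le
  have h13 : (d ^ 2 * (t * t')) * (t * x1 ^ 2) ≤ (64 * H ^ 2) * (t * x1 ^ 2) := by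
    calc (d ^ 2 * (t * t')) * (t * x1 ^ 2) = (|d| * (t * x1)) ^ 2 * t' := by
          rw [mul_pow, sq_abs]; ring
      _ ≤ (4 * (H:ℤ) * y1) ^ 2 * t' := mul_le_mul_of_nonneg_right h12 (by linarith)
      _ = 16 * (H:ℤ) ^ 2 * (t' * y1 ^ 2) := by ring
      _ ≤ 16 * (H:ℤ) ^ 2 * (N:ℤ) := mul_le_mul_of_nonneg_left h4Z (by positivity)
      _ ≤ 16 * (H:ℤ) ^ 2 * (4 * (t * x1 ^ 2)) := mul_le_mul_of_nonneg_left h5Z (by positivity)
      _ = _ := by ring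
  have h14 : d ^ 2 * (t * t') ≤ 64 * H ^ 2 := le_of_mul_le_mul_right h13 (by positivity)
  have h15 : (64:ℤ) * H ^ 2 ≤ D ^ 2 * (t * t') := by exact_mod_cast hD
  have h16 : d ^ 2 ≤ (D:ℤ) ^ 2 := le_of_mul_le_mul_right (h14.trans h15) (by positivity)
  exact abs_le_of_sq_le_sq h16 (Int.natCast_nonneg _)

/-- spacing for all differences at once -/
lemma spacing2 (t t' H N g0 D : ℕ) (ht : 1 ≤ t) (ht' : 1 ≤ t')
    (hD : 64 * H ^ 2 ≤ D ^ 2 * (t * t')) (A : Finset (ℕ × ℕ))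
    (hA : ∀ p ∈ A, t * p.1 ^ 2 < t' * p.2 ^ 2 + H ∧ t' * p.2 ^ 2 < t * p.1 ^ 2 + H ∧
      t * p.1 ^ 2 ≤ N ∧ t' * p.2 ^ 2 ≤ N ∧ N < 4 * (t * p.1 ^ 2) ∧ N < 4 * (t' * p.2 ^ 2) ∧
      Nat.gcd p.1 p.2 < g0) :
    A.card ≤ (2 * D + 1) * (2 * g0) := by
  classical
  rcases A.eq_empty_or_nonempty with hE | ⟨p0, hp0⟩
  · subst hE; simp
  have hpos : ∀ p ∈ A, 0 < p.1 ∧ 0 < p.2 := by
    intro p hp
    obtain ⟨h1, h2, h3, h4, h5, h6, h7⟩ := hA p hp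
    constructor
    · rcases Nat.eq_zero_or_pos p.1 with h | h
      · rw [h] at h5; simp at h5
      · exact h
    · rcases Nat.eq_zero_or_pos p.2 with h | h
      · rw [h] at h6; simp at h6
      · exact h
  have hdbl : ∀ p ∈ A, ∀ q ∈ A, q.2 < 2 * p.2 ∧ q.1 < 2 * p.1 := by
    intro p hp q hq
    obtain ⟨h1, h2, h3, h4, h5, h6, h7⟩ := hA p hp
    obtain ⟨h1', h2', h3', h4', h5', h6', h7'⟩ := hA q hq
    constructor
    · by_contra hcon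
      push Not at hcon
      have : 4 * (t' * p.2 ^ 2) ≤ t' * q.2 ^ 2 := by
        calc 4 * (t' * p.2 ^ 2) = t' * (2 * p.2) ^ 2 := by ring
          _ ≤ t' * q.2 ^ 2 := Nat.mul_le_mul_left _ (Nat.pow_le_pow_left hcon 2)
      omega
    · by_contra hcon
      push Not at hcon
      have : 4 * (t * p.1 ^ 2) ≤ t * q.1 ^ 2 := by
        calc 4 * (t * p.1 ^ 2) = t * (2 * p.1) ^ 2 := by ring
          _ ≤ t * q.1 ^ 2 := Nat.mul_le_mul_left _ (Nat.pow_le_pow_left hcon 2)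
      omega
  have htZ : (1:ℤ) ≤ t := by exact_mod_cast ht
  have htZ' : (1:ℤ) ≤ t' := by exact_mod_cast ht'
  have hdet : ∀ p ∈ A, ∀ q ∈ A, |(p.1:ℤ) * q.2 - q.1 * p.2| ≤ D := by
    intro p hp q hq
    obtain ⟨h1, h2, h3, h4, h5, h6, h7⟩ := hA p hp
    obtain ⟨h1', h2', h3', h4', h5', h6', h7'⟩ := hA q hq
    exact det_bound ht ht' hD h1 h2 h1' h2' h4 h5 (hpos p hp).1 (hpos p hp).2 (hpos q hq).1
      (hpos q hq).2 (hdbl p hp q hq).1 (hdbl q hq p hp).1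
  obtain ⟨x0, y0⟩ := p0
  obtain ⟨hx0pos, hy0pos⟩ := hpos _ hp0
  have hg0 := (hA _ hp0).2.2.2.2.2.2
  simp only at hx0pos hy0pos hg0
  obtain ⟨g, hg⟩ : ∃ g, g = Nat.gcd x0 y0 := ⟨_, rfl⟩
  rw [← hg] at hg0
  have hgpos : 0 < g := by rw [hg]; exact Nat.gcd_pos_of_pos_left _ hx0pos
  obtain ⟨u, hu⟩ : g ∣ x0 := by rw [hg]; exact Nat.gcd_dvd_left _ _
  obtain ⟨u', hu'⟩ : g ∣ y0 := by rw [hg]; exact Nat.gcd_dvd_right _ _
  have hupos : 0 < u := Nat.pos_of_ne_zero (by rintro rfl; omega)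
  have hcop : Nat.Coprime u u' := by
    have h1 : Nat.gcd x0 y0 = g * Nat.gcd u u' := by rw [hu, hu', Nat.gcd_mul_left]
    rw [← hg] at h1
    have h2 : g * 1 = g * Nat.gcd u u' := by rw [mul_one]; exact h1
    exact (Nat.eq_of_mul_eq_mul_left hgpos h2).symm
  have hinj : Set.InjOn (fun p : ℕ × ℕ => ((p.1:ℤ) * y0 - x0 * p.2, p.1 / u)) A := by
    intro p hp q hq hpq
    simp only [Prod.mk.injEq] at hpq
    obtain ⟨h1, h2⟩ := hpq
    have h3 : ((p.1:ℤ) - q.1) * u' = u * ((p.2 : ℤ) - q.2) := by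
      have h4 : ((p.1:ℤ) - q.1) * y0 = x0 * ((p.2 : ℤ) - q.2) := by linarith
      rw [hu, hu'] at h4
      push_cast at h4
      have h5 : (g:ℤ) * (((p.1:ℤ) - q.1) * u') = g * (u * ((p.2 : ℤ) - q.2)) := by linarith
      exact mul_left_cancel₀ (by exact_mod_cast hgpos.ne') h5
    have h4 : (u:ℤ) ∣ ((p.1:ℤ) - q.1) := by
      have h5 : (u:ℤ) ∣ ((p.1:ℤ) - q.1) * u' := Dvd.intro _ h3.symm
      exact (Int.isCoprime_iff_gcd_eq_one.mpr (by exact_mod_cast hcop)).dvd_of_dvd_mul_right h5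
    have h5 : p.1 % u = q.1 % u := by
      have h6 : p.1 ≡ q.1 [MOD u] := by
        apply Nat.ModEq.symm
        exact (Nat.modEq_iff_dvd).mpr (by exact_mod_cast h4)
      exact h6
    have h6 := Nat.div_add_mod p.1 u
    have h7 := Nat.div_add_mod q.1 u
    rw [h2, h5] at h6
    have h8 : p.1 = q.1 := by omega
    rw [h8, sub_self, zero_mul] at h3
    have h9 : (p.2 : ℤ) - q.2 = 0 := by
      rcases mul_eq_zero.mp h3.symm with h | h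
      · exact absurd (by exact_mod_cast h) hupos.ne'
      · exact h
    ext
    · exact h8
    · omega
  have hmaps : ∀ p ∈ A, ((fun p : ℕ × ℕ => ((p.1:ℤ) * y0 - x0 * p.2, p.1 / u)) p) ∈
      (Icc (-(D:ℤ)) D) ×ˢ (range (2 * g)) := by
    intro p hp
    rw [mem_product, mem_Icc, mem_range]
    refine ⟨abs_le.mp (hdet p hp (x0, y0) hp0), ?_⟩
    simp only
    rw [Nat.div_lt_iff_lt_mul hupos]
    have h1 := (hdbl (x0, y0) hp0 p hp).2
    simp only at h1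
    calc p.1 < 2 * x0 := h1
      _ = 2 * g * u := by rw [hu]; ring
  have h1 := Finset.card_le_card_of_injOn _ hmaps hinj
  refine h1.trans ?_
  rw [Finset.card_product, card_range, Int.card_Icc]
  have h2 : ((D:ℤ) + 1 - -(D:ℤ)).toNat = 2 * D + 1 := by omega
  rw [h2]
  exact Nat.mul_le_mul_left _ (by omega)

/-- a window with many good elements -/
def GoodI (K L0 n m : ℕ) : Prop := ∃ G : Finset ℕ,
  (∀ j ∈ G, m < j + 2 * L0 ∧ j ≤ m ∧ n < 4 * j ∧ L0 ≤ 16 * tf j ∧ tf j ≤ K * (2 * L0)) ∧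
  (∀ j ∈ G, ∀ g, 17 ≤ g → g ^ 2 < 2 * L0 → ¬ g ^ 2 ∣ j) ∧ L0 ≤ 2 * G.card

open Classical in
noncomputable def PP (K L0 n : ℕ) : Finset (ℕ × ℕ) :=
  ((Icc 1 n) ×ˢ (Icc 1 n)).filter (fun p => (p.1 < p.2 + 2 * L0 ∧ p.2 < p.1 + 2 * L0) ∧
    (n < 4 * p.1 ∧ n < 4 * p.2) ∧ (L0 ≤ 16 * tf p.1 ∧ tf p.1 ≤ K * (2 * L0)) ∧
    (L0 ≤ 16 * tf p.2 ∧ tf p.2 ≤ K * (2 * L0)) ∧ Nat.gcd (xf p.1) (xf p.2) < 17)

lemma PP_card (K L0 n : ℕ) : (PP K L0 n).card ≤ 17442 * (K * (2 * L0)) ^ 2 := by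
  classical
  have h1 := Finset.card_le_mul_card_image_of_maps_to (f := fun p : ℕ × ℕ => (tf p.1, tf p.2))
    (s := PP K L0 n) (t := (Icc 1 (K * (2 * L0))) ×ˢ (Icc 1 (K * (2 * L0)))) (by
    intro p hp
    unfold PP at hp
    rw [mem_filter] at hp
    obtain ⟨_, _, _, ⟨_, h1⟩, ⟨_, h2⟩, _⟩ := hp
    rw [mem_product, mem_Icc, mem_Icc]
    exact ⟨⟨Nat.pos_of_ne_zero (tf_ne_zero _), h1⟩, Nat.pos_of_ne_zero (tf_ne_zero _), h2⟩) 17442 (by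
    rintro ⟨t, t'⟩ htt
    rw [mem_product, mem_Icc, mem_Icc] at htt
    obtain ⟨⟨ht1, _⟩, ht2, _⟩ := htt
    simp only at ht1 ht2
    obtain ⟨F, hF⟩ : ∃ F, F = (PP K L0 n).filter (fun a => (tf a.1, tf a.2) = (t, t')) := ⟨_, rfl⟩
    rw [← hF]
    rcases F.eq_empty_or_nonempty with hE | ⟨p0, hp0⟩
    · rw [hE]; simp
    have hprop : ∀ p ∈ F, p ∈ PP K L0 n ∧ tf p.1 = t ∧ tf p.2 = t' := by
      intro p hp
      rw [hF, mem_filter, Prod.mk.injEq] at hp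
      exact hp
    have hinj : Set.InjOn (fun p : ℕ × ℕ => (xf p.1, xf p.2)) F := by
      intro p hp q hq h
      simp only [Prod.mk.injEq] at h
      obtain ⟨_, hp1, hp2⟩ := hprop p hp
      obtain ⟨_, hq1, hq2⟩ := hprop q hq
      ext
      · rw [tx_eq p.1, tx_eq q.1, hp1, hq1, h.1]
      · rw [tx_eq p.2, tx_eq q.2, hp2, hq2, h.2]
    rw [← Finset.card_image_of_injOn hinj]
    have hsz : L0 ≤ 16 * t ∧ L0 ≤ 16 * t' := by
      obtain ⟨h1, h2, h3⟩ := hprop p0 hp0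
      unfold PP at h1
      rw [mem_filter] at h1
      rw [← h2, ← h3]
      exact ⟨h1.2.2.2.1.1, h1.2.2.2.2.1.1⟩
    have h2 := spacing2 t t' (2 * L0) n 17 256 ht1 ht2 (by
      have h3 : L0 * L0 ≤ (16 * t) * (16 * t') := Nat.mul_le_mul hsz.1 hsz.2
      calc 64 * (2 * L0) ^ 2 = 256 * (L0 * L0) := by ring
        _ ≤ 256 * ((16 * t) * (16 * t')) := Nat.mul_le_mul_left _ h3
        _ = 256 ^ 2 * (t * t') := by ring) (F.image (fun p : ℕ × ℕ => (xf p.1, xf p.2))) (by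
      intro r hr
      rw [mem_image] at hr
      obtain ⟨p, hp, rfl⟩ := hr
      obtain ⟨h1, h2, h3⟩ := hprop p hp
      have e1 := tx_eq p.1
      have e2 := tx_eq p.2
      rw [h2] at e1
      rw [h3] at e2
      unfold PP at h1
      rw [mem_filter, mem_product, mem_Icc, mem_Icc] at h1
      obtain ⟨⟨⟨_, h4⟩, _, h5⟩, ⟨h6, h7⟩, ⟨h8, h9⟩, _, _, h10⟩ := h1
      simp only
      rw [← e1, ← e2]
      exact ⟨h6, h7, h4, h5, h8, h9, h10⟩)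
    exact h2)
  rw [Finset.card_product, Nat.card_Icc, Nat.add_sub_cancel] at h1
  calc _ ≤ 17442 * (K * (2 * L0) * (K * (2 * L0))) := h1
    _ = _ := by ring

open Classical in
lemma good_count (K L0 n : ℕ) (hL0 : 4 ≤ L0) :
    ((Icc 1 n).filter (fun m => GoodI K L0 n m)).card ≤ 1116288 * K ^ 2 * L0 := by
  obtain ⟨M, hM⟩ : ∃ M, M = (Icc 1 n).filter (fun m => GoodI K L0 n m) := ⟨_, rfl⟩
  rw [← hM]
  have hG : ∀ m, ∃ G : Finset ℕ, m ∈ M → (∀ j ∈ G, m < j + 2 * L0 ∧ j ≤ m ∧ n < 4 * j ∧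
    L0 ≤ 16 * tf j ∧ tf j ≤ K * (2 * L0)) ∧
    (∀ j ∈ G, ∀ g, 17 ≤ g → g ^ 2 < 2 * L0 → ¬ g ^ 2 ∣ j) ∧ L0 ≤ 2 * G.card := by
    intro m
    by_cases hm : m ∈ M
    · have h1 := hm
      rw [hM, mem_filter] at h1
      obtain ⟨G, hG⟩ := h1.2
      exact ⟨G, fun _ => hG⟩
    · exact ⟨∅, fun h => absurd h hm⟩
  choose G hG using hG
  -- pairs
  have hpairs : ∀ m ∈ M, (G m).offDiag ⊆
      (PP K L0 n).filter (fun p => p.1 ≤ m ∧ m < p.1 + 2 * L0) := by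
    intro m hm p hp
    obtain ⟨h1, h2, h3⟩ := hG m hm
    rw [Finset.mem_offDiag] at hp
    obtain ⟨hp1, hp2, hp3⟩ := hp
    obtain ⟨a1, a2, a3, a4, a5⟩ := h1 p.1 hp1
    obtain ⟨b1, b2, b3, b4, b5⟩ := h1 p.2 hp2
    have hmn : m ≤ n := by rw [hM, mem_filter, mem_Icc] at hm; exact hm.1.2
    rw [mem_filter]
    refine ⟨?_, a2, a1⟩
    unfold PP
    rw [mem_filter, mem_product, mem_Icc, mem_Icc]
    refine ⟨⟨⟨by omega, by omega⟩, by omega, by omega⟩, ⟨by omega, by omega⟩, ⟨a3, b3⟩, ⟨a4, a5⟩,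
      ⟨b4, b5⟩, ?_⟩
    by_contra hcon
    push Not at hcon
    obtain ⟨g, hg⟩ : ∃ g, g = Nat.gcd (xf p.1) (xf p.2) := ⟨_, rfl⟩
    rw [← hg] at hcon
    have hd1 : g ^ 2 ∣ p.1 := by
      conv_rhs => rw [tx_eq p.1]
      apply Dvd.dvd.mul_left
      apply pow_dvd_pow_of_dvd
      rw [hg]; exact Nat.gcd_dvd_left _ _
    have hd2 : g ^ 2 ∣ p.2 := by
      conv_rhs => rw [tx_eq p.2]
      apply Dvd.dvd.mul_left
      apply pow_dvd_pow_of_dvd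
      rw [hg]; exact Nat.gcd_dvd_right _ _
    have hlt : g ^ 2 < 2 * L0 := by
      rcases lt_or_gt_of_ne hp3 with h | h
      · have := Nat.le_of_dvd (by omega) (Nat.dvd_sub hd2 hd1)
        omega
      · have := Nat.le_of_dvd (by omega) (Nat.dvd_sub hd1 hd2)
        omega
    exact h2 p.1 hp1 g hcon hlt hd1
  have hlow : ∀ m ∈ M, L0 ^ 2 ≤ 8 * (G m).offDiag.card := by
    intro m hm
    obtain ⟨_, _, h3⟩ := hG m hm
    rw [Finset.offDiag_card]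
    obtain ⟨s, hs⟩ : ∃ s, s = (G m).card := ⟨_, rfl⟩
    rw [← hs] at h3 ⊢
    have h4 : 2 ≤ s := by omega
    have h5 : s * s - s = s * (s - 1) := by rw [Nat.mul_sub, mul_one]
    rw [h5]
    have h6 : L0 ≤ 4 * (s - 1) := by omega
    calc L0 ^ 2 = L0 * L0 := sq L0
      _ ≤ (2 * s) * (4 * (s - 1)) := Nat.mul_le_mul h3 h6
      _ = 8 * (s * (s - 1)) := by ring
  have hdc : ∑ m ∈ M, ((PP K L0 n).filter (fun p => p.1 ≤ m ∧ m < p.1 + 2 * L0)).card ≤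
      (PP K L0 n).card * (2 * L0) := by
    simp_rw [Finset.card_filter]
    rw [Finset.sum_comm]
    calc ∑ p ∈ PP K L0 n, ∑ m ∈ M, (if p.1 ≤ m ∧ m < p.1 + 2 * L0 then 1 else 0)
        ≤ ∑ p ∈ PP K L0 n, (2 * L0) := by
          apply Finset.sum_le_sum
          intro p _
          rw [← Finset.card_filter]
          calc (M.filter (fun m => p.1 ≤ m ∧ m < p.1 + 2 * L0)).card
              ≤ (Ico p.1 (p.1 + 2 * L0)).card := by
                apply Finset.card_le_card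
                intro m hm
                rw [mem_filter] at hm
                rw [mem_Ico]
                exact hm.2
            _ = 2 * L0 := by rw [Nat.card_Ico]; omega
      _ = _ := by rw [Finset.sum_const, smul_eq_mul]
  have h1 : M.card * L0 ^ 2 ≤ 8 * ((PP K L0 n).card * (2 * L0)) := by
    calc M.card * L0 ^ 2 = ∑ m ∈ M, L0 ^ 2 := by rw [Finset.sum_const, smul_eq_mul]
      _ ≤ ∑ m ∈ M, 8 * (G m).offDiag.card := Finset.sum_le_sum hlow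
      _ = 8 * ∑ m ∈ M, (G m).offDiag.card := by rw [Finset.mul_sum]
      _ ≤ 8 * ∑ m ∈ M, ((PP K L0 n).filter (fun p => p.1 ≤ m ∧ m < p.1 + 2 * L0)).card := by
          apply Nat.mul_le_mul_left
          apply Finset.sum_le_sum
          intro m hm
          exact Finset.card_le_card (hpairs m hm)
      _ ≤ _ := Nat.mul_le_mul_left _ hdc
  have h2 : M.card * L0 ^ 2 ≤ (1116288 * K ^ 2 * L0) * L0 ^ 2 := by
    calc M.card * L0 ^ 2 ≤ 8 * ((PP K L0 n).card * (2 * L0)) := h1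
      _ ≤ 8 * ((17442 * (K * (2 * L0)) ^ 2) * (2 * L0)) := by
          apply Nat.mul_le_mul_left
          apply Nat.mul_le_mul_right
          exact PP_card K L0 n
      _ = (1116288 * K ^ 2 * L0) * L0 ^ 2 := by ring
  exact Nat.le_of_mul_le_mul_right h2 (by positivity)

end Pool.Agent.Work.MP_0b7501_nt
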