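import Pool.Agent.Work.MP_0b7501_nt.F1
import Pool.Agent.Work.MP_0b7501_nt.F2
import Pool.Agent.Work.MP_0b7501_nt.F3
import Pool.Agent.Work.MP_0b7501_nt.Bad

/-!
Three factorials, long intervals: conclusion.
-/

namespace Pool.Agent.Work.MP_0b7501_nt

open Finset Filter

/-- the window of `m` is good -/
lemma goodI_of {c m n K L0 : ℕ} (hcm : c < m) (hm1 : n < 2 * m)
    (hL0 : 128 ≤ L0) (h1 : L0 ≤ m - c) (h2 : m - c < 2 * L0) (h4L : 4 * (m - c) ≤ m)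
    (hinj : Set.InjOn tf (Ioc c m : Finset ℕ))
    (hB : (((Ioc c m).filter (fun j => K * (m - c) < tf j)).card : ℝ) ≤ ((m - c : ℕ) : ℝ) / 4) :
    GoodI K L0 n m := by
  classical
  obtain ⟨L, hL⟩ : ∃ L, L = m - c := ⟨_, rfl⟩
  rw [← hL] at h1 h2 h4L hB
  obtain ⟨U, hU⟩ : ∃ U, U = Nat.sqrt (2 * L0) := ⟨_, rfl⟩
  obtain ⟨T, hT⟩ : ∃ T, T = (L0 - 1) / 16 := ⟨_, rfl⟩
  obtain ⟨G, hG⟩ : ∃ G, G = (Ioc c m).filter (fun j => ¬ (K * L < tf j) ∧
    ¬ (∃ x ∈ Icc 17 U, x ^ 2 ∣ j) ∧ ¬ (tf j ≤ T)) := ⟨_, rfl⟩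
  refine ⟨G, ?_, ?_, ?_⟩
  · intro j hj
    rw [hG, mem_filter, mem_Ioc] at hj
    obtain ⟨⟨hj1, hj2⟩, hj3, hj4, hj5⟩ := hj
    push Not at hj3 hj5
    refine ⟨by omega, hj2, by omega, by omega, ?_⟩
    refine hj3.trans ?_
    apply Nat.mul_le_mul_left
    omega
  · intro j hj g hg1 hg2 hd
    rw [hG, mem_filter] at hj
    apply hj.2.2.1
    refine ⟨g, ?_, hd⟩
    rw [mem_Icc]
    refine ⟨hg1, ?_⟩
    rw [hU, Nat.le_sqrt']
    exact hg2.le
  · have hcov : Ioc c m ⊆ (((Ioc c m).filter (fun j => K * L < tf j)) ∪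
        (Ioc c m).filter (fun j => ∃ x ∈ Icc 17 U, x ^ 2 ∣ j)) ∪
        (Ioc c m).filter (fun j => tf j ≤ T) ∪ G := by
      intro j hj
      rw [mem_union, mem_union, mem_union, mem_filter, mem_filter, mem_filter, hG, mem_filter]
      by_cases e1 : K * L < tf j
      · exact Or.inl (Or.inl (Or.inl ⟨hj, e1⟩))
      · by_cases e2 : ∃ x ∈ Icc 17 U, x ^ 2 ∣ j
        · exact Or.inl (Or.inl (Or.inr ⟨hj, e2⟩))
        · by_cases e3 : tf j ≤ T
          · exact Or.inl (Or.inr ⟨hj, e3⟩)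
          · exact Or.inr ⟨hj, e1, e2, e3⟩
    have u1 := (Finset.card_le_card hcov).trans (Finset.card_union_le _ _)
    have u2 := Finset.card_union_le (((Ioc c m).filter (fun j => K * L < tf j)) ∪
        (Ioc c m).filter (fun j => ∃ x ∈ Icc 17 U, x ^ 2 ∣ j)) ((Ioc c m).filter (fun j => tf j ≤ T))
    have u3 := Finset.card_union_le ((Ioc c m).filter (fun j => K * L < tf j))
        ((Ioc c m).filter (fun j => ∃ x ∈ Icc 17 U, x ^ 2 ∣ j))
    rw [Nat.card_Ioc, ← hL] at u1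
    have u4 : (L:ℝ) ≤ (((Ioc c m).filter (fun j => K * L < tf j)).card : ℝ) +
        (((Ioc c m).filter (fun j => ∃ x ∈ Icc 17 U, x ^ 2 ∣ j)).card : ℝ) +
        (((Ioc c m).filter (fun j => tf j ≤ T)).card : ℝ) + (G.card : ℝ) := by
      have : L ≤ ((Ioc c m).filter (fun j => K * L < tf j)).card +
        ((Ioc c m).filter (fun j => ∃ x ∈ Icc 17 U, x ^ 2 ∣ j)).card +
        ((Ioc c m).filter (fun j => tf j ≤ T)).card + G.card := by omega
      exact_mod_cast this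
    have u5 := card_sq_mult (c := c) (m := m) (V := 17) (U := U) hcm.le (by norm_num)
    rw [← hL] at u5
    have u6 : (((Ioc c m).filter (fun j => tf j ≤ T)).card : ℝ) ≤ T := by
      exact_mod_cast few_small hinj
    have hTle : (T:ℝ) ≤ L0 / 16 := by
      have h5 : 16 * T ≤ L0 := by omega
      have h6 : (16:ℝ) * T ≤ L0 := by exact_mod_cast h5
      linarith
    have hUle : (U:ℝ) ≤ L0 / 8 := by
      have h5 : 8 * U ≤ L0 := by
        by_contra hcon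
        push Not at hcon
        have h6 : U * U ≤ 2 * L0 := by rw [hU]; exact Nat.sqrt_le _
        have h7 : L0 * L0 < (8 * U) * (8 * U) := Nat.mul_lt_mul'' hcon hcon
        have h8 : (8 * U) * (8 * U) = 64 * (U * U) := by ring
        have h9 : 128 * L0 ≤ L0 * L0 := Nat.mul_le_mul_right L0 hL0
        omega
      have h6 : (8:ℝ) * U ≤ L0 := by exact_mod_cast h5
      linarith
    have hLL0 : (L0:ℝ) ≤ L := by exact_mod_cast h1
    have e17 : ((17 : ℕ) : ℝ) - 1 = 16 := by norm_num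
    rw [e17] at u5
    have hfin : (L0:ℝ) ≤ 2 * G.card := by linarith
    exact_mod_cast hfin

open Classical in
/-- long intervals: `L ≥ n^{1/2000}` -/
theorem blockF : ∀ᶠ n : ℕ in atTop,
    (((Ioc (n / 2) n).filter (fun m => ∃ y c, Conf y c c c m ∧
      XX 2000 n ≤ ((m - c : ℕ) : ℝ))).card : ℝ) ≤ XX 2000 n ^ 801 := by
  have hD0 : 0 < 2000 := by norm_num
  have hδ : (0:ℝ) < 1 / ((2000 : ℕ) : ℝ) := by norm_num
  obtain ⟨C, hC0, hy⟩ := y_le3 (1 / ((2000 : ℕ) : ℝ)) hδ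
  have hsq := sq_lt (1 / ((2000 : ℕ) : ℝ)) hδ
  obtain ⟨K, hK1, hKC⟩ : ∃ K : ℕ, 1 ≤ K ∧ 4 * (2.4 + 1.4 * C) ≤ Real.log K := by
    have := (log_ge (B := 4 * (2.4 + 1.4 * C))).and (eventually_ge_atTop 1)
    obtain ⟨K, hK⟩ := this.exists
    exact ⟨K, hK.2, hK.1⟩
  obtain ⟨M0, hM0⟩ := eventually_atTop.mp (hy.and hsq)
  filter_upwards [XX_ge hD0 (256), XX_ge hD0 (4 * K), log_ge (B := 1),
    polylog_le hD0 (20 * (1116288 * K ^ 2)) 1, eventually_ge_atTop (2 * M0 + 40)] with n hX256 hXK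
    hell1 hpoly hnM
  have hXD : XX 2000 n ^ 2000 = n := XX_pow hD0 n
  obtain ⟨X, hX⟩ : ∃ X, X = XX 2000 n := ⟨_, rfl⟩
  have hXdef : X = (n:ℝ) ^ (1 / ((2000 : ℕ) : ℝ)) := hX
  obtain ⟨ell, hell⟩ : ∃ ell, ell = Real.log n := ⟨_, rfl⟩
  rw [← hX] at hX256 hXK hpoly hXD ⊢
  rw [← hell] at hell1 hpoly
  have hX0 : 0 < X := by linarith
  have hX1 : 1 ≤ X := by linarith
  have hsub : (Ioc (n / 2) n).filter (fun m => ∃ y c, Conf y c c c m ∧
      X ≤ ((m - c : ℕ) : ℝ)) ⊆ ((range (Nat.log 2 n + 1)).filter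
        (fun s => 128 ≤ 2 ^ s ∧ ((2:ℝ) ^ s) ≤ 5 * X ^ 800)).biUnion
        (fun s => (Icc 1 n).filter (fun m => GoodI K (2 ^ s) n m)) := by
    intro m hm
    rw [mem_filter, mem_Ioc] at hm
    obtain ⟨⟨hm1, hm2⟩, y, c, hConf, hXL⟩ := hm
    have hcm := hConf.hcm
    have hnm : n < 2 * m := by omega
    obtain ⟨hym, hsqm⟩ := hM0 m (by omega)
    have hXm : (m:ℝ) ^ (1 / ((2000 : ℕ) : ℝ)) ≤ ((m - c : ℕ) : ℝ) := by
      refine le_trans ?_ hXL
      rw [hXdef]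
      apply Real.rpow_le_rpow (Nat.cast_nonneg _) _ hδ.le
      exact_mod_cast hm2
    have hy1 := hym y c hConf hXm
    have hL2 := hsqm y c hConf hXm
    have hinj := tf_inj (by omega : 16 ≤ m) hL2
    have hB := few_large hConf hinj hy1 hK1 hKC
    have hLle := L_le hcm hnm hm2 hXD (by linarith) hXK hK1 hinj hL2 hB
    obtain ⟨L, hL⟩ : ∃ L, L = m - c := ⟨_, rfl⟩
    have h4L : 4 * (m - c) ≤ m := by
      by_contra hcon
      push Not at hcon
      have h12 : m ^ 2 < (4 * (m - c)) ^ 2 := Nat.pow_lt_pow_left hcon (by norm_num)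
      have h13 : (4 * (m - c)) ^ 2 = 16 * (m - c) ^ 2 := by ring
      have h14 : 16 * m ≤ m ^ 2 := by
        rw [sq]; exact Nat.mul_le_mul_right m (by omega)
      omega
    rw [← hL] at hXL hLle
    have hL1 : L ≠ 0 := by omega
    obtain ⟨s, hs⟩ : ∃ s, s = Nat.log 2 L := ⟨_, rfl⟩
    have hs1 : 2 ^ s ≤ L := by rw [hs]; exact Nat.pow_log_le_self 2 hL1
    have hs2 : L < 2 * 2 ^ s := by
      rw [hs, ← pow_succ']
      exact Nat.lt_pow_succ_log_self (by norm_num) L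
    have hs128 : 128 ≤ 2 ^ s := by
      have h1 : (256:ℝ) ≤ L := by linarith
      have h2 : 256 ≤ L := by exact_mod_cast h1
      omega
    rw [mem_biUnion]
    refine ⟨s, ?_, ?_⟩
    · rw [mem_filter]
      refine ⟨two_pow_le_imp (by omega : 2 ^ s ≤ n), hs128, ?_⟩
      have h1 : ((2:ℝ) ^ s) ≤ L := by exact_mod_cast hs1
      have h2 : (8:ℝ) ≤ X ^ 800 := by
        have : X ≤ X ^ 800 := le_self_pow₀ hX1 (by norm_num)
        linarith
      linarith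
    · rw [mem_filter, mem_Icc]
      refine ⟨⟨by omega, hm2⟩, ?_⟩
      exact goodI_of hcm hnm hs128 (by omega) (by omega) h4L hinj hB
  have h1 : (((Ioc (n / 2) n).filter (fun m => ∃ y c, Conf y c c c m ∧
      X ≤ ((m - c : ℕ) : ℝ))).card : ℝ) ≤ ((range (Nat.log 2 n + 1)).filter
        (fun s => 128 ≤ 2 ^ s ∧ ((2:ℝ) ^ s) ≤ 5 * X ^ 800)).card * (1116288 * K ^ 2 * (5 * X ^ 800)) := by
    refine (Nat.cast_le.mpr (Finset.card_le_card hsub)).trans ?_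
    apply card_biUnion_real
    intro s hs
    rw [mem_filter] at hs
    have h2 := good_count K (2 ^ s) n (by omega)
    calc (((Icc 1 n).filter (fun m => GoodI K (2 ^ s) n m)).card : ℝ) ≤
        ((1116288 * K ^ 2 * 2 ^ s : ℕ) : ℝ) := by exact_mod_cast h2
      _ = 1116288 * (K:ℝ) ^ 2 * (2:ℝ) ^ s := by push_cast; ring
      _ ≤ 1116288 * (K:ℝ) ^ 2 * (5 * X ^ 800) :=
          mul_le_mul_of_nonneg_left hs.2.2 (by positivity)
  have h2 : (((range (Nat.log 2 n + 1)).filter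
        (fun s => 128 ≤ 2 ^ s ∧ ((2:ℝ) ^ s) ≤ 5 * X ^ 800)).card : ℝ) ≤ 4 * ell := by
    have h3 : ((range (Nat.log 2 n + 1)).filter
        (fun s => 128 ≤ 2 ^ s ∧ ((2:ℝ) ^ s) ≤ 5 * X ^ 800)).card ≤ Nat.log 2 n + 1 := by
      refine (Finset.card_filter_le _ _).trans ?_
      rw [card_range]
    have h4 := log2_le n (by omega)
    rw [← hell] at h4
    have h5 : (((range (Nat.log 2 n + 1)).filter
        (fun s => 128 ≤ 2 ^ s ∧ ((2:ℝ) ^ s) ≤ 5 * X ^ 800)).card : ℝ) ≤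
        ((Nat.log 2 n + 1 : ℕ) : ℝ) := by exact_mod_cast h3
    linarith
  calc _ ≤ _ := h1
    _ ≤ (4 * ell) * (1116288 * K ^ 2 * (5 * X ^ 800)) :=
        mul_le_mul_of_nonneg_right h2 (by positivity)
    _ = (20 * (1116288 * K ^ 2) * ell ^ 1) * X ^ 800 := by ring
    _ ≤ X * X ^ 800 := mul_le_mul_of_nonneg_right hpoly (by positivity)
    _ = X ^ 801 := by ring

end Pool.Agent.Work.MP_0b7501_nt
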