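import Mathlib

/-!
A Farey-type inequality: distinct fractions in a short interval with bounded denominators.
-/

namespace Pool.Agent.Work.MP_0b7501_nt

open Finset

lemma rat_gap {x y : ℚ} (h : x < y) {Q : ℝ} (hQ : (x.den : ℝ) ≤ Q) :
    1 / (y.den : ℝ) ≤ Q * ((y : ℝ) - x) := by
  have hx : (0:ℝ) < x.den := by exact_mod_cast x.pos
  have hy : (0:ℝ) < y.den := by exact_mod_cast y.pos
  have h1 : (1:ℤ) ≤ y.num * x.den - x.num * y.den := by
    have := (Rat.lt_iff x y).mp h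
    omega
  have h2 : (y : ℝ) - x = ((y.num * x.den - x.num * y.den : ℤ) : ℝ) / (x.den * y.den) := by
    have e1 : (y : ℝ) = y.num / y.den := by
      exact_mod_cast (Rat.num_div_den y).symm
    have e2 : (x : ℝ) = x.num / x.den := by
      exact_mod_cast (Rat.num_div_den x).symm
    rw [e1, e2]
    push_cast
    field_simp
  have h3 : (1:ℝ) ≤ ((y.num * x.den - x.num * y.den : ℤ) : ℝ) := by exact_mod_cast h1
  have h4 : 1 / (x.den * y.den : ℝ) ≤ (y : ℝ) - x := by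
    rw [h2]
    apply div_le_div_of_nonneg_right h3 (by positivity)
  have hpos : 0 < (y:ℝ) - x := by
    have : (x:ℝ) < y := by exact_mod_cast h
    linarith
  calc 1 / (y.den : ℝ) = x.den * (1 / (x.den * y.den : ℝ)) := by field_simp
    _ ≤ x.den * ((y : ℝ) - x) := mul_le_mul_of_nonneg_left h4 hx.le
    _ ≤ Q * ((y : ℝ) - x) := mul_le_mul_of_nonneg_right hQ hpos.le

lemma farey_up (f0 : ℚ) (Q : ℝ) (hf0 : (f0.den : ℝ) ≤ Q) (S : Finset ℚ) :
    (∀ f ∈ S, f0 < f ∧ (f.den : ℝ) ≤ Q) → ∀ β : ℝ, (f0 : ℝ) ≤ β → (∀ f ∈ S, (f : ℝ) ≤ β) →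
    ∑ f ∈ S, 1 / (f.den : ℝ) ≤ Q * (β - f0) := by
  have hQ0 : 0 ≤ Q := le_trans (Nat.cast_nonneg _) hf0
  induction S using Finset.induction_on_max with
  | empty =>
    intro _ β hβ _
    simp only [sum_empty]
    exact mul_nonneg hQ0 (by linarith)
  | insert a S hmax ih =>
    intro hS β hβ hSβ
    have ha : a ∉ S := fun h => lt_irrefl _ (hmax a h)
    rw [sum_insert ha]
    have haS := hS a (mem_insert_self a S)
    have hS' : ∀ f ∈ S, f0 < f ∧ (f.den : ℝ) ≤ Q := fun f hf => hS f (mem_insert_of_mem hf)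
    have haβ := hSβ a (mem_insert_self a S)
    rcases S.eq_empty_or_nonempty with hE | hN
    · subst hE
      simp only [sum_empty, add_zero]
      have h1 := rat_gap haS.1 hf0
      nlinarith
    · set p := S.max' hN with hp
      have hpS : p ∈ S := Finset.max'_mem S hN
      have hpa : p < a := hmax p hpS
      have h1 := rat_gap hpa (hS' p hpS).2
      have h2 := ih hS' (p : ℝ) (by exact_mod_cast (hS' p hpS).1.le)
        (fun f hf => by exact_mod_cast Finset.le_max' S f hf)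
      nlinarith

lemma farey_down (f0 : ℚ) (Q : ℝ) (hf0 : (f0.den : ℝ) ≤ Q) (S : Finset ℚ)
    (hS : ∀ f ∈ S, f < f0 ∧ (f.den : ℝ) ≤ Q) (α : ℝ) (hα : α ≤ (f0 : ℝ))
    (hSα : ∀ f ∈ S, α ≤ (f : ℝ)) :
    ∑ f ∈ S, 1 / (f.den : ℝ) ≤ Q * (f0 - α) := by
  have h := farey_up (-f0) Q (by simpa using hf0) (S.image (fun f => -f)) ?_ (-α)
    (by push_cast; linarith) ?_
  · rw [sum_image (by intro x _ y _ hxy; simpa using hxy)] at h
    simp only [Rat.den_neg_eq_den] at h
    push_cast at h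
    linarith
  · intro f hf
    rw [mem_image] at hf
    obtain ⟨g, hg, rfl⟩ := hf
    refine ⟨by linarith [(hS g hg).1], ?_⟩
    simpa using (hS g hg).2
  · intro f hf
    rw [mem_image] at hf
    obtain ⟨g, hg, rfl⟩ := hf
    push_cast
    linarith [hSα g hg]

/-- fractions in `[α, β]` other than `f0` with denominators at most `Q` -/
theorem farey_sum (f0 : ℚ) (Q α β : ℝ) (hf0 : (f0.den : ℝ) ≤ Q) (h0 : α ≤ (f0 : ℝ) ∧ (f0 : ℝ) ≤ β)
    (S : Finset ℚ) (hS : ∀ f ∈ S, f ≠ f0 ∧ (f.den : ℝ) ≤ Q ∧ α ≤ (f : ℝ) ∧ (f : ℝ) ≤ β) :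
    ∑ f ∈ S, 1 / (f.den : ℝ) ≤ Q * (β - α) := by
  classical
  have h1 := farey_up f0 Q hf0 (S.filter (fun f => f0 < f))
    (fun f hf => by rw [mem_filter] at hf; exact ⟨hf.2, (hS f hf.1).2.1⟩) β h0.2
    (fun f hf => by rw [mem_filter] at hf; exact (hS f hf.1).2.2.2)
  have h2 := farey_down f0 Q hf0 (S.filter (fun f => ¬ f0 < f))
    (fun f hf => by
      rw [mem_filter] at hf
      exact ⟨lt_of_le_of_ne (not_lt.mp hf.2) (hS f hf.1).1, (hS f hf.1).2.1⟩) α h0.1
    (fun f hf => by rw [mem_filter] at hf; exact (hS f hf.1).2.2.1)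
  rw [← Finset.sum_filter_add_sum_filter_not S (fun f => f0 < f)]
  linarith

end Pool.Agent.Work.MP_0b7501_nt
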