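import Mathlib

/-!
A Tauberian theorem of Wiener-Ikehara type with the Fejer kernel.
-/

namespace Pool.Agent.Work.MP_0b7501_nt

open MeasureTheory Filter Topology Set

/-- the Fejer kernel -/
noncomputable def K (v : ℝ) : ℝ := ∫ u in (0:ℝ)..1, (1 - u) * Real.cos (u * v)

lemma K_eq {v : ℝ} (hv : v ≠ 0) : K v = (1 - Real.cos v) / v ^ 2 := by
  have h : ∀ u ∈ uIcc (0:ℝ) 1, HasDerivAt
      (fun u : ℝ => (1 - u) * Real.sin (u * v) / v - Real.cos (u * v) / v ^ 2)
      ((1 - u) * Real.cos (u * v)) u := by
    intro u _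
    have h1 : HasDerivAt (fun u : ℝ => u * v) v u := by
      simpa using (hasDerivAt_id u).mul_const v
    have h2 : HasDerivAt (fun u : ℝ => 1 - u) (-1) u := by
      simpa using (hasDerivAt_id u).const_sub 1
    have h3 := (h2.mul h1.sin).div_const v
    have h4 := h1.cos.div_const (v ^ 2)
    have h5 := h3.sub h4
    convert! h5 using 1
    field_simp
    ring
  rw [K, intervalIntegral.integral_eq_sub_of_hasDerivAt h]
  · simp
    ring
  · apply Continuous.intervalIntegrable
    fun_prop

lemma K_cont : Continuous K := by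
  unfold K
  apply intervalIntegral.continuous_parametric_intervalIntegral_of_continuous'
  fun_prop

lemma K_le_one (v : ℝ) : K v ≤ 1 := by
  unfold K
  have : ∫ u in (0:ℝ)..1, (1 - u) * Real.cos (u * v) ≤ ∫ u in (0:ℝ)..1, (1 : ℝ) := by
    apply intervalIntegral.integral_mono_on (by norm_num)
    · apply Continuous.intervalIntegrable; fun_prop
    · apply Continuous.intervalIntegrable; fun_prop
    · intro u hu
      have h1 := Real.cos_le_one (u * v)
      have h2 : 0 ≤ 1 - u := by linarith [hu.2]
      have h3 : 1 - u ≤ 1 := by linarith [hu.1]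
      nlinarith
  simpa using this

lemma K_zero : K 0 = 1 / 2 := by
  unfold K
  simp only [mul_zero, Real.cos_zero, mul_one]
  rw [intervalIntegral.integral_sub (by simp) (by simp)]
  simp
  norm_num

lemma K_nonneg (v : ℝ) : 0 ≤ K v := by
  by_cases hv : v = 0
  · rw [hv, K_zero]; norm_num
  · rw [K_eq hv]
    have := Real.cos_le_one v
    apply div_nonneg <;> nlinarith [sq_nonneg v]

lemma K_le (v : ℝ) : K v ≤ 4 * (1 + v ^ 2)⁻¹ := by
  have hpos : 0 < 1 + v ^ 2 := by positivity
  rw [← div_eq_mul_inv, le_div_iff₀ hpos]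
  by_cases h : v ^ 2 ≤ 1
  · have h1 := K_le_one v
    have h2 := K_nonneg v
    nlinarith
  · push Not at h
    have hv : v ≠ 0 := by
      rintro rfl
      norm_num at h
    rw [K_eq hv, div_mul_eq_mul_div, div_le_iff₀ (by positivity)]
    have := Real.neg_one_le_cos v
    have := Real.cos_le_one v
    nlinarith

lemma K_int : Integrable K := by
  refine Integrable.mono' (integrable_inv_one_add_sq.const_mul 4)
    K_cont.aestronglyMeasurable ?_
  refine Eventually.of_forall fun v => ?_
  rw [Real.norm_eq_abs, abs_of_nonneg (K_nonneg v)]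
  exact K_le v

lemma K_pos : 0 < ∫ v, K v := by
  apply integral_pos_of_integrable_nonneg_nonzero K_cont K_int (fun v => K_nonneg v) (x := 0)
  rw [K_zero]; norm_num

/-- Laplace-type transform of a bounded measurable function -/
noncomputable def lap (h : ℝ → ℝ) (s : ℂ) : ℂ :=
  ∫ t in Ioi (0:ℝ), (h t : ℂ) * Complex.exp (-(s * t))

lemma integrable_exp_neg {ε : ℝ} (hε : 0 < ε) :
    IntegrableOn (fun t : ℝ => Real.exp (-(ε * t))) (Ioi 0) := by
  have := exp_neg_integrableOn_Ioi 0 hε
  simpa [neg_mul] using this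

lemma lap_integrable (h : ℝ → ℝ) (C : ℝ) (hC : ∀ t, |h t| ≤ C) (hm : Measurable h)
    (s : ℂ) (hs : 0 < s.re) :
    IntegrableOn (fun t : ℝ => (h t : ℂ) * Complex.exp (-(s * t))) (Ioi 0) := by
  refine Integrable.mono' ((integrable_exp_neg hs).const_mul C) ?_ ?_
  · apply Measurable.aestronglyMeasurable
    fun_prop
  · refine Eventually.of_forall fun t => ?_
    rw [norm_mul, Complex.norm_exp, Complex.norm_real]
    simp only [Complex.neg_re, Complex.mul_re, Complex.ofReal_re, Complex.ofReal_im, mul_zero,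
      sub_zero, Real.norm_eq_abs]
    exact mul_le_mul_of_nonneg_right (hC t) (Real.exp_pos _).le

lemma re_lap (h : ℝ → ℝ) (C : ℝ) (hC : ∀ t, |h t| ≤ C) (hm : Measurable h)
    (ε a y : ℝ) (hε : 0 < ε) :
    (Complex.exp ((a * y : ℝ) * Complex.I) * lap h (ε + a * Complex.I)).re
      = ∫ t in Ioi (0:ℝ), h t * Real.exp (-(ε * t)) * Real.cos (a * (y - t)) := by
  have hs : 0 < (ε + a * Complex.I : ℂ).re := by simpa using hε
  unfold lap
  rw [← integral_const_mul]
  have h1 := (lap_integrable h C hC hm _ hs).const_mul (Complex.exp ((a * y : ℝ) * Complex.I))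
  have h2 := integral_re h1
  simp only [RCLike.re_to_complex] at h2
  rw [← h2]
  refine setIntegral_congr_fun measurableSet_Ioi fun t _ => ?_
  have : Complex.exp ((a * y : ℝ) * Complex.I) *
      ((h t : ℂ) * Complex.exp (-((ε + a * Complex.I) * t)))
      = ((h t * Real.exp (-(ε * t)) : ℝ) : ℂ) * Complex.exp ((a * (y - t) : ℝ) * Complex.I) := by
    rw [Complex.ofReal_mul (h t), Complex.ofReal_exp]
    rw [mul_left_comm, ← Complex.exp_add, mul_assoc, ← Complex.exp_add]
    congr 2
    push_cast
    ring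
  rw [this, Complex.re_ofReal_mul, Complex.exp_ofReal_mul_I_re]

lemma main_identity (h : ℝ → ℝ) (C : ℝ) (hC : ∀ t, |h t| ≤ C) (hm : Measurable h)
    (l y ε : ℝ) (hε : 0 < ε) :
    ∫ u in (0:ℝ)..1, (1 - u) *
      (Complex.exp (((l * u) * y : ℝ) * Complex.I) * lap h (ε + (l * u : ℝ) * Complex.I)).re
      = ∫ t in Ioi (0:ℝ), h t * Real.exp (-(ε * t)) * K (l * (y - t)) := by
  have h1 : ∀ u : ℝ, (1 - u) *
      (Complex.exp (((l * u) * y : ℝ) * Complex.I) * lap h (ε + (l * u : ℝ) * Complex.I)).re
      = ∫ t in Ioi (0:ℝ), (h t * Real.exp (-(ε * t))) *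
        ((1 - u) * Real.cos (u * (l * (y - t)))) := by
    intro u
    rw [re_lap h C hC hm ε (l * u) y hε, ← integral_const_mul]
    refine setIntegral_congr_fun measurableSet_Ioi fun t _ => ?_
    rw [show l * u * (y - t) = u * (l * (y - t)) by ring]
    ring
  simp_rw [h1]
  rw [intervalIntegral.integral_of_le (by norm_num)]
  rw [integral_integral_swap]
  · refine setIntegral_congr_fun measurableSet_Ioi fun t _ => ?_
    rw [integral_const_mul]
    unfold K
    rw [intervalIntegral.integral_of_le (by norm_num)]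
  · have hprod : Integrable (fun p : ℝ × ℝ => (1 : ℝ) * (C * Real.exp (-(ε * p.2))))
        ((volume.restrict (Ioc (0:ℝ) 1)).prod (volume.restrict (Ioi (0:ℝ)))) := by
      apply Integrable.mul_prod (f := fun _ : ℝ => (1:ℝ))
        (g := fun t : ℝ => C * Real.exp (-(ε * t)))
      · exact integrable_const _
      · exact (integrable_exp_neg hε).const_mul C
    refine Integrable.mono' hprod ?_ ?_
    · apply Measurable.aestronglyMeasurable
      simp only [Function.uncurry_def]
      fun_prop
    · rw [Measure.prod_restrict]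
      refine (ae_restrict_iff' (measurableSet_Ioc.prod measurableSet_Ioi)).mpr ?_
      refine Eventually.of_forall fun p hp => ?_
      simp only [Function.uncurry_def, one_mul]
      rw [norm_mul, norm_mul, norm_mul, Real.norm_eq_abs, Real.norm_eq_abs, Real.norm_eq_abs,
        Real.norm_eq_abs, Real.abs_exp]
      have e1 := hC p.2
      have e2 : |1 - p.1| ≤ 1 := by
        have := hp.1.1
        have := hp.1.2
        rw [abs_le]; constructor <;> linarith
      have e3 := Real.abs_cos_le_one (p.1 * (l * (y - p.2)))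
      have e4 : 0 ≤ |h p.2| := abs_nonneg _
      have e5 : |1 - p.1| * |Real.cos (p.1 * (l * (y - p.2)))| ≤ 1 :=
        mul_le_one₀ e2 (abs_nonneg _) e3
      have e6 := Real.exp_pos (-(ε * p.2))
      calc |h p.2| * Real.exp (-(ε * p.2)) * (|1 - p.1| * |Real.cos (p.1 * (l * (y - p.2)))|)
          ≤ |h p.2| * Real.exp (-(ε * p.2)) * 1 :=
            mul_le_mul_of_nonneg_left e5 (mul_nonneg e4 e6.le)
        _ ≤ C * Real.exp (-(ε * p.2)) := by
            rw [mul_one]; exact mul_le_mul_of_nonneg_right e1 e6.le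

end Pool.Agent.Work.MP_0b7501_nt
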