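import Pool.Agent.Work.MP_0b7501_nt.Count
import Pool.Agent.Work.MP_0b7501_nt.Defs

/-!
`N_4`, `N_5`, `N_6` have positive lower density.
-/

namespace Pool.Agent.Work.MP_0b7501_nt

open Finset Filter

lemma two_pow_pi_le : ∃ K0 : ℕ, ∀ y : ℕ, K0 < y →
    (2:ℝ) ^ ((Ioc 0 y).filter Nat.Prime).card ≤ Real.exp ((y:ℝ) / 16) := by
  classical
  obtain ⟨K0, hK0⟩ := eventually_atTop.mp (log_ge (B := 80))
  refine ⟨K0 + 1000, fun y hy => ?_⟩
  have hlog := hK0 y (by omega)
  have hy0 : (1000:ℝ) ≤ y := by exact_mod_cast (by omega : 1000 ≤ y)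
  have hypos : (0:ℝ) < y := by linarith
  obtain ⟨s, hs⟩ : ∃ s : ℕ, s = Nat.sqrt y := ⟨_, rfl⟩
  have hs1 : s * s ≤ y := by rw [hs]; exact Nat.sqrt_le y
  have hs2 : y < (s + 1) * (s + 1) := by rw [hs]; exact Nat.lt_succ_sqrt y
  have hsle : s ≤ y := by rw [hs]; exact Nat.sqrt_le_self y
  have hsR : (s:ℝ) * s ≤ y := by exact_mod_cast hs1
  have hs31 : 31 ≤ s := by
    by_contra h
    push Not at h
    have : (s + 1) * (s + 1) ≤ 31 * 31 := Nat.mul_le_mul (by omega) (by omega)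
    omega
  have hs31R : (31:ℝ) ≤ s := by exact_mod_cast hs31
  have hsplit : ((Ioc 0 y).filter Nat.Prime).card ≤ s + ((Ioc s y).filter Nat.Prime).card := by
    rw [← Ioc_union_Ioc_eq_Ioc (Nat.zero_le s) hsle, filter_union]
    refine (Finset.card_union_le _ _).trans ?_
    have : ((Ioc 0 s).filter Nat.Prime).card ≤ s := by
      refine (Finset.card_filter_le _ _).trans ?_
      rw [Nat.card_Ioc]; omega
    omega
  have hcount : (((Ioc s y).filter Nat.Prime).card : ℝ) * (Real.log y / 2) ≤ 1.4 * y := by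
    have h1 : ∑ q ∈ (Ioc s y).filter Nat.Prime, Real.log q ≤ 1.4 * y := by
      refine le_trans ?_ (theta_nat_le y)
      apply Finset.sum_le_sum_of_subset_of_nonneg
      · apply Finset.filter_subset_filter
        intro j hj
        rw [mem_Ioc] at hj ⊢
        omega
      · intro q hq _
        rw [mem_filter] at hq
        apply Real.log_nonneg
        exact_mod_cast hq.2.one_lt.le
    refine le_trans ?_ h1
    rw [← nsmul_eq_mul]
    apply Finset.card_nsmul_le_sum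
    intro q hq
    rw [mem_filter, mem_Ioc] at hq
    have h2 : y < q * q := lt_of_lt_of_le hs2 (Nat.mul_le_mul hq.1.1 hq.1.1)
    have h3 : (y:ℝ) ≤ (q:ℝ) * q := by exact_mod_cast h2.le
    have hq0 : (0:ℝ) < q := by exact_mod_cast hq.2.pos
    have h4 := Real.log_le_log hypos h3
    rw [Real.log_mul hq0.ne' hq0.ne'] at h4
    linarith
  have hcount2 : (((Ioc s y).filter Nat.Prime).card : ℝ) ≤ 0.035 * y := by
    have h0 : (0:ℝ) ≤ (((Ioc s y).filter Nat.Prime).card : ℝ) := Nat.cast_nonneg _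
    have : (((Ioc s y).filter Nat.Prime).card : ℝ) * 40 ≤
      (((Ioc s y).filter Nat.Prime).card : ℝ) * (Real.log y / 2) :=
      mul_le_mul_of_nonneg_left (by linarith) h0
    linarith
  have hpi : (((Ioc 0 y).filter Nat.Prime).card : ℝ) ≤ 0.07 * y := by
    have h1 : (((Ioc 0 y).filter Nat.Prime).card : ℝ) ≤ s + (((Ioc s y).filter Nat.Prime).card : ℝ) := by
      exact_mod_cast hsplit
    have h2 : (s:ℝ) ≤ y / 31 := by
      rw [le_div_iff₀ (by norm_num)]
      nlinarith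
    linarith
  have h2 : (2:ℝ) = Real.exp (Real.log 2) := (Real.exp_log (by norm_num)).symm
  rw [h2, ← Real.exp_nat_mul]
  apply Real.exp_le_exp.mpr
  have h3 := Real.log_two_lt_d9
  have h4 : (0:ℝ) < Real.log 2 := Real.log_pos (by norm_num)
  calc (((Ioc 0 y).filter Nat.Prime).card : ℝ) * Real.log 2 ≤ (0.07 * y) * 0.7 := by
        apply mul_le_mul hpi (by linarith) h4.le (by positivity)
    _ ≤ _ := by linarith

/-- no representations of length 2 or 3 -/
lemma no23 (D : ℕ) (hD : 300 ≤ D) :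
    ∀ᶠ n : ℕ in atTop, ∀ m p v : ℕ, p.Prime → m = p * v → n < 2 * m → m ≤ n →
      1 ≤ v → (v:ℝ) ≤ XX D n → ¬ HasRep 2 m ∧ ¬ HasRep 3 m := by
  filter_upwards [exists_setup D hD] with n hset m p v hp hm hn hmn hv1 hvX
  have key : ∀ y c, ¬ Conf y c c c m := by
    intro y c hC
    obtain ⟨w, S⟩ := hset m p v y c c c hp hm hn hmn hv1 hvX hC
    have := S.hw
    simp at this
  constructor
  · intro h
    obtain ⟨c, hc⟩ := conf2 h
    exact key 0 c hc
  · intro h
    obtain ⟨y, c, hc⟩ := conf3 h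
    exact key y c hc

lemma sum_image_mul (k : ℕ) (hk : 1 ≤ k) (S : Finset ℕ) :
    ∑ v ∈ S.image (fun u => k * u), 1 / (v:ℝ) = 1 / (k:ℝ) * ∑ v ∈ S, 1 / (v:ℝ) := by
  rw [Finset.sum_image (fun a _ b _ h => Nat.eq_of_mul_eq_mul_left hk h), Finset.mul_sum]
  apply Finset.sum_congr rfl
  intro v _
  push_cast
  rw [one_div_mul_one_div]

lemma log_floor_ge {Z : ℝ} (hZ : 2 ≤ Z) : Real.log Z - 1 ≤ Real.log (⌊Z⌋₊ : ℝ) := by
  have h1 : Z / 2 ≤ (⌊Z⌋₊ : ℝ) := by
    have := Nat.lt_floor_add_one Z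
    linarith
  have h2 := Real.log_le_log (by linarith : 0 < Z / 2) h1
  rw [Real.log_div (by linarith) (by norm_num)] at h2
  have := Real.log_two_lt_d9
  linarith

theorem n4_lower : ∃ c : ℝ, 0 < c ∧ ∀ᶠ n : ℕ in atTop, c * n ≤ (cnt 4 n : ℝ) := by
  classical
  refine ⟨1 / 19200, by norm_num, ?_⟩
  filter_upwards [no23 300 le_rfl, MV_card 300 (by norm_num), XX_ge (by norm_num : 0 < 300) 1000,
    XX_ge (by norm_num : 0 < 300) (Real.exp 6), log_ge (B := 1),
    eventually_ge_atTop 1] with n h23 hMV hX1000 hXe hlog hn1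
  have hXD := XX_pow (by norm_num : 0 < 300) n
  have hlogX := log_eq_XX (by norm_num : 0 < 300) n
  obtain ⟨X, hX⟩ : ∃ X, X = XX 300 n := ⟨_, rfl⟩
  rw [← hX] at h23 hMV hX1000 hXe hXD hlogX
  have hX0 : 0 < X := by linarith
  have hlogX6 : 6 ≤ Real.log X := by
    rw [Real.le_log_iff_exp_le hX0]; exact hXe
  obtain ⟨𝒱, h𝒱⟩ : ∃ 𝒱, 𝒱 = (rough 1 ⌊X / 4⌋₊).image (fun u => 4 * u) := ⟨_, rfl⟩
  have hmem : ∀ v ∈ 𝒱, ∃ u, 1 ≤ u ∧ v = 4 * u ∧ (v:ℝ) ≤ X := by
    intro v hv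
    rw [h𝒱, mem_image] at hv
    obtain ⟨u, hu, rfl⟩ := hv
    unfold rough at hu
    rw [mem_filter, mem_Icc] at hu
    refine ⟨u, hu.1.1, rfl, ?_⟩
    have h1 : (u:ℝ) ≤ (⌊X / 4⌋₊ : ℝ) := by exact_mod_cast hu.1.2
    have h2 := Nat.floor_le (by positivity : 0 ≤ X / 4)
    push_cast
    linarith
  have hM := hMV 𝒱 (fun v hv => by
    obtain ⟨u, h1, h2, h3⟩ := hmem v hv
    exact ⟨by omega, h3⟩)
  have hsum : Real.log X / 8 ≤ ∑ v ∈ 𝒱, 1 / (v:ℝ) := by
    rw [h𝒱, sum_image_mul 4 (by norm_num)]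
    have h1 := rough_sum 1 ⌊X / 4⌋₊ le_rfl
    have h2 := log_floor_ge (by linarith : 2 ≤ X / 4)
    rw [Real.log_div (by linarith) (by norm_num)] at h2
    have h3 : Real.log 4 ≤ 2 := by
      have : (4:ℝ) = 2 ^ 2 := by norm_num
      rw [this, Real.log_pow]
      have := Real.log_two_lt_d9
      push_cast
      linarith
    rw [Nat.cast_one, div_one] at h1
    push_cast
    linarith
  have hsub : MV n 𝒱 ⊆ (Icc 1 n).filter (fun m => InD 4 m) := by
    intro m hm
    unfold MV at hm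
    rw [mem_filter] at hm
    obtain ⟨hmI, p, v, hp, hv, hmv, hn⟩ := hm
    rw [mem_filter]
    refine ⟨hmI, by norm_num, ?_, ?_⟩
    · obtain ⟨u, h1, h2, h3⟩ := hmem v hv
      have : m = 4 * (p * u) := by rw [hmv, h2]; ring
      rw [this]
      apply rep4_of
      have := hp.two_le
      nlinarith
    · rw [mem_Icc] at hmI
      obtain ⟨u, h1, h2, h3⟩ := hmem v hv
      have h4 := h23 m p v hp hmv hn hmI.2 (by omega) h3
      intro j hj1 hj2
      interval_cases j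
      · exact h4.1
      · exact h4.2
  have hcard : ((MV n 𝒱).card : ℝ) ≤ (cnt 4 n : ℝ) := by
    unfold cnt
    exact_mod_cast Finset.card_le_card hsub
  refine le_trans ?_ hcard
  refine le_trans ?_ hM
  have hlog0 : 0 < Real.log n := by linarith
  calc 1 / 19200 * (n:ℝ) = n / (8 * Real.log n) * (Real.log X / 8) := by
        rw [hlogX]
        push_cast
        have : Real.log X ≠ 0 := by linarith
        field_simp
        norm_num
    _ ≤ _ := mul_le_mul_of_nonneg_left hsum (by positivity)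

theorem n5_lower : ∃ c : ℝ, 0 < c ∧ ∀ᶠ n : ℕ in atTop, c * n ≤ (cnt 5 n : ℝ) := by
  classical
  obtain ⟨Y0, hY0⟩ := exists_half_primes
  obtain ⟨K0, hK0⟩ := two_pow_pi_le
  -- choice of K
  obtain ⟨K, hKY, hKK, hKexp⟩ : ∃ K : ℕ, Y0 ≤ K ∧ K0 ≤ K ∧
      16 * Real.exp (-((K:ℝ) / 16)) ≤ 1 / (512 * 205440) := by
    have h1 : Tendsto (fun K : ℕ => 16 * Real.exp (-((K:ℝ) / 16))) atTop (nhds (16 * 0)) := by
      apply Tendsto.const_mul
      apply Real.tendsto_exp_neg_atTop_nhds_zero.comp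
      exact tendsto_natCast_atTop_atTop.atTop_div_const (by norm_num)
    rw [mul_zero] at h1
    have h2 := h1.eventually (ge_mem_nhds (by norm_num : (0:ℝ) < 1 / (512 * 205440)))
    obtain ⟨K, hK⟩ := (h2.and ((eventually_ge_atTop Y0).and (eventually_ge_atTop K0))).exists
    exact ⟨K, hK.2.1, hK.2.2, hK.1⟩
  have hKpi : ∀ y : ℕ, K < y →
    (2:ℝ) ^ ((Ioc 0 y).filter Nat.Prime).card ≤ Real.exp ((y:ℝ) / 16) :=
    fun y hy => hK0 y (by omega)
  refine ⟨1 / (512 * 205440), by norm_num, ?_⟩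
  filter_upwards [structural (320 * 107) (by norm_num) Y0 hY0,
    badAll_bound 107 (by norm_num) K hKpi (1 / (512 * 205440)) (by norm_num),
    no23 (6 * (320 * 107)) (by norm_num), MV_card (6 * (320 * 107)) (by norm_num),
    XX_ge (by norm_num : 0 < 6 * (320 * 107)) 1000,
    XX_ge (by norm_num : 0 < 6 * (320 * 107)) (Real.exp 4), log_ge (B := 1),
    eventually_ge_atTop 16] with n hst hbad h23 hMV hX1000 hXe hlog hn8
  have hlogX := log_eq_XX (by norm_num : 0 < 6 * (320 * 107)) n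
  obtain ⟨X, hX⟩ : ∃ X, X = XX (6 * (320 * 107)) n := ⟨_, rfl⟩
  rw [← hX] at hst h23 hMV hX1000 hXe hlogX
  have hX0 : 0 < X := by linarith
  have hlogX4 : 4 ≤ Real.log X := by
    rw [Real.le_log_iff_exp_le hX0]; exact hXe
  obtain ⟨𝒱, h𝒱⟩ : ∃ 𝒱, 𝒱 = ((rough 2 ⌊X / 2⌋₊).filter Squarefree).image (fun u => 2 * u) :=
    ⟨_, rfl⟩
  have hmem : ∀ v ∈ 𝒱, ∃ u, 1 ≤ u ∧ v = 2 * u ∧ (v:ℝ) ≤ X ∧ Squarefree v := by
    intro v hv
    rw [h𝒱, mem_image] at hv
    obtain ⟨u, hu, rfl⟩ := hv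
    unfold rough at hu
    rw [mem_filter, mem_filter, mem_Icc] at hu
    obtain ⟨⟨⟨hu1, hu2⟩, hu3⟩, hu4⟩ := hu
    refine ⟨u, hu1, rfl, ?_, ?_⟩
    · have h1 : (u:ℝ) ≤ (⌊X / 2⌋₊ : ℝ) := by exact_mod_cast hu2
      have h2 := Nat.floor_le (by positivity : 0 ≤ X / 2)
      push_cast
      linarith
    · rw [Nat.squarefree_mul_iff]
      refine ⟨?_, Nat.prime_two.squarefree, hu4⟩
      apply (Nat.Prime.coprime_iff_not_dvd Nat.prime_two).mpr
      intro h2
      have := hu3 2 Nat.prime_two h2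
      omega
  have hM := hMV 𝒱 (fun v hv => by
    obtain ⟨u, h1, h2, h3, _⟩ := hmem v hv
    exact ⟨by omega, h3⟩)
  have hsum : Real.log X / 16 ≤ ∑ v ∈ 𝒱, 1 / (v:ℝ) := by
    rw [h𝒱, sum_image_mul 2 (by norm_num)]
    have h1 := rough_sf_sum 2 ⌊X / 2⌋₊ (by norm_num)
    have h2 := log_floor_ge (by linarith : 2 ≤ X / 2)
    rw [Real.log_div (by linarith) (by norm_num)] at h2
    have h3 := Real.log_two_lt_d9
    push_cast at h1 ⊢
    linarith
  have hsub : MV n 𝒱 \ badAll (320 * 107) K n ⊆ (Icc 1 n).filter (fun m => InD 5 m) := by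
    intro m hm
    rw [Finset.mem_sdiff] at hm
    obtain ⟨hm, hnb⟩ := hm
    unfold MV at hm
    rw [mem_filter] at hm
    obtain ⟨hmI, p, v, hp, hv, hmv, hn⟩ := hm
    obtain ⟨u, h1, h2, h3, hsf⟩ := hmem v hv
    rw [mem_filter]
    refine ⟨hmI, by norm_num, ?_, ?_⟩
    · have : m = 2 * (p * u) := by rw [hmv, h2]; ring
      rw [this]
      apply rep5_of
      omega
    · rw [mem_Icc] at hmI
      have h4 := h23 m p v hp hmv hn hmI.2 (by omega) h3
      intro j hj1 hj2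
      interval_cases j
      · exact h4.1
      · exact h4.2
      · intro hrep
        obtain ⟨a, b, c, hC⟩ := conf4 hrep
        exact hnb (hst K m p v 0 a b c hKY hp hmv hn hmI.2 (by omega) h3 hsf hC (Or.inl rfl))
  have hcard : ((MV n 𝒱).card : ℝ) - ((badAll (320 * 107) K n).card : ℝ) ≤ (cnt 5 n : ℝ) := by
    have h1 : (MV n 𝒱).card ≤ (MV n 𝒱 \ badAll (320 * 107) K n).card +
        (badAll (320 * 107) K n).card := by
      have := Finset.card_sdiff_add_card (MV n 𝒱) (badAll (320 * 107) K n)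
      rw [this]
      exact Finset.card_le_card Finset.subset_union_left
    have h2 := Finset.card_le_card hsub
    have h3 : (MV n 𝒱).card ≤ cnt 5 n + (badAll (320 * 107) K n).card := by
      unfold cnt
      omega
    have h4 : ((MV n 𝒱).card : ℝ) ≤ (cnt 5 n : ℝ) + ((badAll (320 * 107) K n).card : ℝ) := by
      exact_mod_cast h3
    linarith
  refine le_trans ?_ hcard
  have hlog0 : 0 < Real.log n := by linarith
  have hM2 : 1 / (128 * 205440) * (n:ℝ) ≤ ((MV n 𝒱).card : ℝ) := by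
    refine le_trans ?_ hM
    calc 1 / (128 * 205440) * (n:ℝ) = n / (8 * Real.log n) * (Real.log X / 16) := by
          rw [hlogX]
          push_cast
          have : Real.log X ≠ 0 := by linarith
          field_simp
          norm_num
      _ ≤ _ := mul_le_mul_of_nonneg_left hsum (by positivity)
  have hn0 : (0:ℝ) ≤ n := Nat.cast_nonneg n
  have h5 : (400 / ((1920 * 107 : ℕ) : ℝ) ^ 2 + 16 * Real.exp (-((K:ℝ) / 16)) +
      1 / (512 * 205440)) * (n:ℝ) ≤ (3 / (512 * 205440)) * n := by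
    apply mul_le_mul_of_nonneg_right _ hn0
    have : (400:ℝ) / ((1920 * 107 : ℕ) : ℝ) ^ 2 ≤ 1 / (512 * 205440) := by
      push_cast
      norm_num
    linarith
  have h6 := hbad.trans h5
  have h7 : (1:ℝ) / (128 * 205440) * n = 4 / (512 * 205440) * n := by ring
  have h8 : (4:ℝ) / (512 * 205440) * n - 3 / (512 * 205440) * n = 1 / (512 * 205440) * n := by ring
  linarith

theorem n6_lower : ∃ c : ℝ, 0 < c ∧ ∀ᶠ n : ℕ in atTop, c * n ≤ (cnt 6 n : ℝ) := by
  classical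
  obtain ⟨Y0, hY0⟩ := exists_half_primes
  obtain ⟨K0, hK0⟩ := two_pow_pi_le
  -- choice of K
  obtain ⟨K, hKY, hKK, hK1, hKexp⟩ : ∃ K : ℕ, Y0 ≤ K ∧ K0 ≤ K ∧ 1 ≤ K ∧
      16 * Real.exp (-((K:ℝ) / 16)) ≤ 1 / (128 * 51840 * (K:ℝ) ^ 2) := by
    have h1 : ∀ᶠ K : ℕ in atTop, 16 * Real.exp (-((K:ℝ) / 16)) ≤ 1 / (128 * 51840 * (K:ℝ) ^ 2) := by
      have h2 := Real.tendsto_pow_mul_exp_neg_atTop_nhds_zero 2
      have h3 : Tendsto (fun K : ℕ => (K:ℝ) / 16) atTop atTop :=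
        tendsto_natCast_atTop_atTop.atTop_div_const (by norm_num)
      have h4 := (h2.comp h3).eventually (ge_mem_nhds
        (by norm_num : (0:ℝ) < 1 / (128 * 51840 * 16 * 256)))
      filter_upwards [h4, eventually_ge_atTop 1] with K hK hK1
      simp only [Function.comp] at hK
      have hK0 : (0:ℝ) < K := by exact_mod_cast hK1
      rw [le_div_iff₀ (by positivity)]
      have h5 : 16 * Real.exp (-((K:ℝ) / 16)) * (128 * 51840 * (K:ℝ) ^ 2) =
          (128 * 51840 * 16 * 256) * (((K:ℝ) / 16) ^ 2 * Real.exp (-((K:ℝ) / 16))) := by ring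
      rw [h5]
      calc (128 * 51840 * 16 * 256 : ℝ) * (((K:ℝ) / 16) ^ 2 * Real.exp (-((K:ℝ) / 16)))
          ≤ (128 * 51840 * 16 * 256) * (1 / (128 * 51840 * 16 * 256)) :=
            mul_le_mul_of_nonneg_left hK (by norm_num)
        _ = 1 := by norm_num
    obtain ⟨K, hK⟩ := (h1.and ((eventually_ge_atTop Y0).and
      ((eventually_ge_atTop K0).and (eventually_ge_atTop 1)))).exists
    exact ⟨K, hK.2.1, hK.2.2.1, hK.2.2.2, hK.1⟩
  have hKpi : ∀ y : ℕ, K < y →
    (2:ℝ) ^ ((Ioc 0 y).filter Nat.Prime).card ≤ Real.exp ((y:ℝ) / 16) :=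
    fun y hy => hK0 y (by omega)
  have hKR : (1:ℝ) ≤ K := by exact_mod_cast hK1
  have hKR0 : (0:ℝ) < K := by linarith
  obtain ⟨ε, hε⟩ : ∃ ε : ℝ, ε = 1 / (128 * 51840 * (K:ℝ) ^ 2) := ⟨_, rfl⟩
  have hεpos : 0 < ε := by rw [hε]; positivity
  obtain ⟨D, hD⟩ : ∃ D : ℕ, D = 6 * (320 * (27 * K)) := ⟨_, rfl⟩
  have hD300 : 300 ≤ D := by omega
  refine ⟨ε, hεpos, ?_⟩
  filter_upwards [structural (320 * (27 * K)) (by omega) Y0 hY0,
    badAll_bound (27 * K) (by omega) K hKpi ε hεpos,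
    MV_card D (by omega), XX_ge (by omega : 0 < D) 1000,
    XX_ge (by omega : 0 < D) (Real.exp (4 * K + 2)), log_ge (B := 1), four_sq_lt (by omega : 4 ≤ D),
    eventually_ge_atTop 8] with n hst hbad hMV hX1000 hXe hlog h4sq hn8
  rw [← hD] at hst
  have hlogX := log_eq_XX (by omega : 0 < D) n
  obtain ⟨X, hX⟩ : ∃ X, X = XX D n := ⟨_, rfl⟩
  rw [← hX] at hst hMV hX1000 hXe hlogX h4sq
  have hX0 : 0 < X := by linarith
  have hlogXK : 4 * K + 2 ≤ Real.log X := by
    rw [Real.le_log_iff_exp_le hX0]; exact hXe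
  obtain ⟨𝒱, h𝒱⟩ : ∃ 𝒱, 𝒱 = ((rough K ⌊X⌋₊).filter Squarefree).erase 1 := ⟨_, rfl⟩
  have hmem : ∀ v ∈ 𝒱, 2 ≤ v ∧ (v:ℝ) ≤ X ∧ Squarefree v ∧ ∀ q, q.Prime → q ∣ v → K < q := by
    intro v hv
    rw [h𝒱, mem_erase] at hv
    obtain ⟨hv1, hv⟩ := hv
    unfold rough at hv
    rw [mem_filter, mem_filter, mem_Icc] at hv
    obtain ⟨⟨⟨hu1, hu2⟩, hu3⟩, hu4⟩ := hv
    refine ⟨by omega, ?_, hu4, hu3⟩
    have h1 : (v:ℝ) ≤ (⌊X⌋₊ : ℝ) := by exact_mod_cast hu2
    exact h1.trans (Nat.floor_le hX0.le)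
  have hM := hMV 𝒱 (fun v hv => by
    obtain ⟨h1, h2, _⟩ := hmem v hv
    exact ⟨by omega, h2⟩)
  have hsum : Real.log X / (4 * K) ≤ ∑ v ∈ 𝒱, 1 / (v:ℝ) := by
    have h1 := rough_sf_sum K ⌊X⌋₊ hK1
    have h2 := log_floor_ge (by linarith : 2 ≤ X)
    have h1mem : 1 ∈ (rough K ⌊X⌋₊).filter Squarefree := by
      unfold rough
      rw [mem_filter, mem_filter, mem_Icc]
      refine ⟨⟨⟨le_rfl, ?_⟩, ?_⟩, squarefree_one⟩
      · apply Nat.le_floor
        push_cast
        linarith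
      · intro q hq hq1
        exact absurd (Nat.dvd_one.mp hq1) hq.one_lt.ne'
    rw [← Finset.add_sum_erase _ _ h1mem, ← h𝒱] at h1
    have h3 : Real.log X / (4 * K) + 1 ≤ Real.log (⌊X⌋₊ : ℝ) / (2 * K) := by
      rw [div_add_one (by positivity), div_le_div_iff₀ (by positivity) (by positivity)]
      nlinarith
    push_cast at h1
    linarith
  have hsub : MV n 𝒱 \ badAll (320 * (27 * K)) K n ⊆ (Icc 1 n).filter (fun m => InD 6 m) := by
    intro m hm
    rw [Finset.mem_sdiff] at hm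
    obtain ⟨hm, hnb⟩ := hm
    unfold MV at hm
    rw [mem_filter] at hm
    obtain ⟨hmI, p, v, hp, hv, hmv, hn⟩ := hm
    obtain ⟨hv2, hvX, hsf, hrough⟩ := hmem v hv
    rw [mem_filter]
    rw [mem_Icc] at hmI
    have hno : ∀ y a b c, ¬ Conf y a b c m := fun y a b c hC =>
      hnb (hst K m p v y a b c hKY hp hmv hn hmI.2 (by omega) hvX hsf hC (Or.inr hrough))
    refine ⟨mem_Icc.mpr hmI, by norm_num, ?_, ?_⟩
    · have : m = v * p := by rw [hmv, mul_comm]
      rw [this]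
      apply rep6_of hv2
      by_contra hcon
      push Not at hcon
      have h1 : (p:ℝ) ≤ v + 2 := by exact_mod_cast hcon.le
      have h2 : (n:ℝ) < 2 * ((p:ℝ) * v) := by
        have : n < 2 * (p * v) := by rw [← hmv]; exact hn
        exact_mod_cast this
      have h3 : (p:ℝ) * v ≤ (v + 2) * v := mul_le_mul_of_nonneg_right h1 (Nat.cast_nonneg v)
      have h4 : ((v:ℝ) + 2) * v ≤ (X + 2) * X :=
        mul_le_mul (by linarith) hvX (Nat.cast_nonneg v) (by linarith)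
      nlinarith
    · intro j hj1 hj2
      interval_cases j
      · intro hrep
        obtain ⟨c, hC⟩ := conf2 hrep
        exact hno _ _ _ _ hC
      · intro hrep
        obtain ⟨y, c, hC⟩ := conf3 hrep
        exact hno _ _ _ _ hC
      · intro hrep
        obtain ⟨a, b, c, hC⟩ := conf4 hrep
        exact hno _ _ _ _ hC
      · intro hrep
        obtain ⟨y, a, b, c, hC⟩ := conf5 hrep
        exact hno _ _ _ _ hC
  have hcard : ((MV n 𝒱).card : ℝ) - ((badAll (320 * (27 * K)) K n).card : ℝ) ≤ (cnt 6 n : ℝ) := by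
    have h1 : (MV n 𝒱).card ≤ (MV n 𝒱 \ badAll (320 * (27 * K)) K n).card +
        (badAll (320 * (27 * K)) K n).card := by
      have := Finset.card_sdiff_add_card (MV n 𝒱) (badAll (320 * (27 * K)) K n)
      rw [this]
      exact Finset.card_le_card Finset.subset_union_left
    have h2 := Finset.card_le_card hsub
    have h3 : (MV n 𝒱).card ≤ cnt 6 n + (badAll (320 * (27 * K)) K n).card := by
      unfold cnt
      omega
    have h4 : ((MV n 𝒱).card : ℝ) ≤ (cnt 6 n : ℝ) + ((badAll (320 * (27 * K)) K n).card : ℝ) := by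
      exact_mod_cast h3
    linarith
  refine le_trans ?_ hcard
  have hlog0 : 0 < Real.log n := by linarith
  have hDR : (D:ℝ) = 51840 * K := by rw [hD]; push_cast; ring
  have hM2 : 4 * ε * (n:ℝ) ≤ ((MV n 𝒱).card : ℝ) := by
    refine le_trans ?_ hM
    calc 4 * ε * (n:ℝ) = n / (8 * Real.log n) * (Real.log X / (4 * K)) := by
          rw [hlogX, hDR, hε]
          have : Real.log X ≠ 0 := by
            have : (0:ℝ) < 4 * K + 2 := by positivity
            linarith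
          field_simp
          norm_num
      _ ≤ _ := mul_le_mul_of_nonneg_left hsum (by positivity)
  have hn0 : (0:ℝ) ≤ n := Nat.cast_nonneg n
  have h5 : (400 / ((1920 * (27 * K) : ℕ) : ℝ) ^ 2 + 16 * Real.exp (-((K:ℝ) / 16)) + ε) * (n:ℝ) ≤
      (3 * ε) * n := by
    apply mul_le_mul_of_nonneg_right _ hn0
    have h51 : (400:ℝ) / ((1920 * (27 * K) : ℕ) : ℝ) ^ 2 ≤ ε := by
      rw [hε, div_le_div_iff₀ (by positivity) (by positivity)]
      push_cast
      nlinarith [sq_nonneg (K:ℝ)]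
    rw [← hε] at hKexp
    linarith
  have h6 := hbad.trans h5
  linarith

end Pool.Agent.Work.MP_0b7501_nt
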