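import Pool.Agent.Work.MP_0b7501_nt.BTCount

/-!
Mertens upper bound and the number of integers whose large primes have even exponents.
-/

namespace Pool.Agent.Work.MP_0b7501_nt

open Finset

lemma theta_nat_le (z : ℕ) : ∑ q ∈ (Ioc 0 z).filter Nat.Prime, Real.log q ≤ 1.4 * z := by
  have h1 := Chebyshev.theta_le_log4_mul_x (x := (z:ℝ)) (Nat.cast_nonneg z)
  unfold Chebyshev.theta at h1
  rw [Nat.floor_natCast] at h1
  have h2 := log_four_le
  have h3 : Real.log 4 * z ≤ 1.4 * z := mul_le_mul_of_nonneg_right h2 (Nat.cast_nonneg z)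
  linarith

/-- `∏_{q ≤ z} q^{⌊z/q⌋} ≤ z!` in logarithmic form -/
lemma sum_div_log_le (z : ℕ) : ∑ q ∈ (Ioc 0 z).filter Nat.Prime, ((z / q : ℕ) : ℝ) * Real.log q
    ≤ Real.log (z.factorial) := by
  have h1 : ∑ q ∈ (Ioc 0 z).filter Nat.Prime, ((z / q : ℕ) : ℝ) * Real.log q =
      Real.log ((∏ q ∈ (Ioc 0 z).filter Nat.Prime, q ^ (z / q) : ℕ) : ℝ) := by
    push_cast
    rw [Real.log_prod]
    · apply Finset.sum_congr rfl
      intro q _
      rw [Real.log_pow]
    · intro q hq h
      rw [mem_filter] at hq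
      have := hq.2.pos
      have h2 : (0:ℝ) < (q:ℝ) ^ (z / q) := by positivity
      rw [h] at h2
      exact lt_irrefl _ h2
  rw [h1]
  have hdvd : (∏ q ∈ (Ioc 0 z).filter Nat.Prime, q ^ (z / q)) ∣ z.factorial := by
    apply Finset.prod_dvd_of_isRelPrime
    · intro p hp q hq hpq
      simp only [coe_filter, Set.mem_ofPred_eq] at hp hq
      exact Nat.coprime_iff_isRelPrime.mp
        (Nat.Coprime.pow _ _ ((Nat.coprime_primes hp.2 hq.2).mpr hpq))
    · intro q hq
      rw [mem_filter] at hq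
      rw [hq.2.pow_dvd_factorial_iff (Nat.lt_succ_self _)]
      rcases Nat.eq_zero_or_pos (z / q) with h0 | h0
      · rw [h0]; exact Nat.zero_le _
      · have : z / q ^ 1 ≤ ∑ i ∈ Ico 1 (Nat.log q z + 1), z / q ^ i := by
          apply Finset.single_le_sum (f := fun i => z / q ^ i) (fun i _ => Nat.zero_le _)
          rw [mem_Ico]
          refine ⟨le_rfl, ?_⟩
          have : 1 ≤ Nat.log q z := by
            apply Nat.le_log_of_pow_le hq.2.one_lt
            rw [pow_one]
            have := (mem_Ioc.mp hq.1).2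
            exact this
          omega
        rw [pow_one] at this
        exact this
  apply Real.log_le_log
  · have : 0 < ∏ q ∈ (Ioc 0 z).filter Nat.Prime, q ^ (z / q) := by
      apply Nat.pos_of_ne_zero
      intro h0
      rw [h0] at hdvd
      exact Nat.factorial_ne_zero z (zero_dvd_iff.mp hdvd)
    exact_mod_cast this
  · exact_mod_cast Nat.le_of_dvd (Nat.factorial_pos z) hdvd

lemma log_factorial_le (z : ℕ) : Real.log (z.factorial) ≤ z * Real.log z := by
  rcases Nat.eq_zero_or_pos z with h | h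
  · subst h; simp
  · rw [← Real.log_pow]
    apply Real.log_le_log (by exact_mod_cast Nat.factorial_pos z)
    exact_mod_cast Nat.factorial_le_pow z

/-- Mertens upper bound -/
theorem mertens_upper (z : ℕ) (hz : 1 ≤ z) :
    ∑ q ∈ (Ioc 0 z).filter Nat.Prime, Real.log q / q ≤ Real.log z + 1.4 := by
  have h1 := (sum_div_log_le z).trans (log_factorial_le z)
  have h2 := theta_nat_le z
  have hzR : (0:ℝ) < z := by exact_mod_cast hz
  have h3 : z * ∑ q ∈ (Ioc 0 z).filter Nat.Prime, Real.log q / q ≤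
      ∑ q ∈ (Ioc 0 z).filter Nat.Prime, ((z / q : ℕ) : ℝ) * Real.log q +
      ∑ q ∈ (Ioc 0 z).filter Nat.Prime, Real.log q := by
    rw [Finset.mul_sum, ← Finset.sum_add_distrib]
    apply Finset.sum_le_sum
    intro q hq
    rw [mem_filter] at hq
    have hqpos : (0:ℝ) < q := by exact_mod_cast hq.2.pos
    have hlog : 0 ≤ Real.log q := Real.log_nonneg (by exact_mod_cast hq.2.one_lt.le)
    have h4 : (z:ℝ) / q ≤ ((z / q : ℕ) : ℝ) + 1 := by
      rw [div_le_iff₀ hqpos]
      have := Nat.lt_div_mul_add (a := z) hq.2.pos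
      have h5 : z ≤ (z / q + 1) * q := by rw [add_mul, one_mul]; omega
      exact_mod_cast h5
    calc z * (Real.log q / q) = (z / q) * Real.log q := by ring
      _ ≤ (((z / q : ℕ) : ℝ) + 1) * Real.log q := mul_le_mul_of_nonneg_right h4 hlog
      _ = _ := by ring
  have h6 : z * ∑ q ∈ (Ioc 0 z).filter Nat.Prime, Real.log q / q ≤ z * (Real.log z + 1.4) := by
    calc _ ≤ _ := h3
      _ ≤ z * Real.log z + 1.4 * z := add_le_add h1 h2
      _ = _ := by ring
  exact le_of_mul_le_mul_left h6 hzR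

/-- all primes larger than `Z` have even exponent in `N` -/
def SmSq (Z N : ℕ) : Prop := ∀ q : ℕ, q.Prime → Z < q → Even (N.factorization q)

/-- number of multiples of `d` in `[1, n]` -/
lemma card_mult_le (n d : ℕ) (_hd : 0 < d) :
    (((Icc 1 n).filter (fun N => d ∣ N)).card : ℝ) ≤ (n:ℝ) / d := by
  have h := Nat.card_multiples n d
  have h2 : ((Icc 1 n).filter (fun N => d ∣ N)).card ≤ n / d := by
    rw [← Nat.Ioc_filter_dvd_card_eq_div]
    apply Finset.card_le_card
    intro N hN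
    rw [mem_filter, mem_Icc] at hN
    rw [mem_filter, mem_Ioc]
    exact ⟨⟨by omega, hN.1.2⟩, hN.2⟩
  calc (((Icc 1 n).filter (fun N => d ∣ N)).card : ℝ) ≤ ((n / d : ℕ) : ℝ) := by exact_mod_cast h2
    _ ≤ (n:ℝ) / d := Nat.cast_div_le

/-- weight: sum of `log q` over the primes `q ≤ Z` dividing `N` -/
noncomputable def gz (Z N : ℕ) : ℝ :=
  ∑ q ∈ (Ioc 0 Z).filter Nat.Prime, if q ∣ N then Real.log q else 0

lemma log_pos_of_mem {Z q : ℕ} (hq : q ∈ (Ioc 0 Z).filter Nat.Prime) : 0 ≤ Real.log q := by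
  rw [mem_filter] at hq
  exact Real.log_nonneg (by exact_mod_cast hq.2.one_lt.le)

/-- second moment of `gz` -/
lemma gz_second_moment (Z n : ℕ) (hZ : 1 ≤ Z) :
    ∑ N ∈ Icc 1 n, (gz Z N) ^ 2 ≤ 2 * n * (Real.log Z + 1.4) ^ 2 := by
  obtain ⟨S, hS⟩ : ∃ S, S = (Ioc 0 Z).filter Nat.Prime := ⟨_, rfl⟩
  have hlogZ : 0 ≤ Real.log Z := Real.log_nonneg (by exact_mod_cast hZ)
  have h1 : ∑ N ∈ Icc 1 n, (gz Z N) ^ 2 = ∑ q ∈ S, ∑ q' ∈ S, Real.log q * Real.log q' *
      (((Icc 1 n).filter (fun N => q ∣ N ∧ q' ∣ N)).card : ℝ) := by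
    unfold gz
    rw [← hS]
    simp_rw [sq, Finset.sum_mul_sum]
    rw [Finset.sum_comm]
    apply Finset.sum_congr rfl
    intro q _
    rw [Finset.sum_comm]
    apply Finset.sum_congr rfl
    intro q' _
    rw [Finset.card_filter]
    push_cast
    rw [Finset.mul_sum]
    apply Finset.sum_congr rfl
    intro N _
    by_cases ha : q ∣ N <;> by_cases hb : q' ∣ N <;> simp [ha, hb]
  rw [h1]
  have h2 : ∀ q ∈ S, ∀ q' ∈ S, Real.log q * Real.log q' *
      (((Icc 1 n).filter (fun N => q ∣ N ∧ q' ∣ N)).card : ℝ) ≤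
      n * ((Real.log q / q) * (Real.log q' / q')) +
      (if q' = q then n * (Real.log Z * (Real.log q / q)) else 0) := by
    intro q hq q' hq'
    have hlq := log_pos_of_mem (hS ▸ hq)
    have hlq' := log_pos_of_mem (hS ▸ hq')
    rw [hS, mem_filter, mem_Ioc] at hq hq'
    have hqpos : (0:ℝ) < q := by exact_mod_cast hq.2.pos
    have hqpos' : (0:ℝ) < q' := by exact_mod_cast hq'.2.pos
    by_cases h : q' = q
    · subst h
      rw [if_pos rfl]
      simp only [and_self]
      have e1 := card_mult_le n q' hq'.2.pos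
      have e2 : Real.log q' ≤ Real.log Z := by
        apply Real.log_le_log hqpos'
        exact_mod_cast hq'.1.2
      have e3 : Real.log q' * Real.log q' * (((Icc 1 n).filter (fun N => q' ∣ N)).card : ℝ) ≤
          Real.log Z * Real.log q' * (n / q') := by
        apply mul_le_mul (mul_le_mul_of_nonneg_right e2 hlq') e1 (Nat.cast_nonneg _)
        positivity
      have e4 : Real.log Z * Real.log q' * (n / q') = n * (Real.log Z * (Real.log q' / q')) := by
        ring
      have e5 : 0 ≤ n * ((Real.log q' / q') * (Real.log q' / q')) := by positivity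
      linarith
    · rw [if_neg h, add_zero]
      have hcop : Nat.Coprime q q' := (Nat.coprime_primes hq.2 hq'.2).mpr (Ne.symm h)
      have e0 : ((Icc 1 n).filter (fun N => q ∣ N ∧ q' ∣ N)).card ≤
          ((Icc 1 n).filter (fun N => q * q' ∣ N)).card := by
        apply Finset.card_le_card
        intro N hN
        rw [mem_filter] at hN ⊢
        exact ⟨hN.1, hcop.mul_dvd_of_dvd_of_dvd hN.2.1 hN.2.2⟩
      have e1 := card_mult_le n (q * q') (Nat.mul_pos hq.2.pos hq'.2.pos)
      have e2 : (((Icc 1 n).filter (fun N => q ∣ N ∧ q' ∣ N)).card : ℝ) ≤ n / ((q * q' : ℕ) : ℝ) :=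
        le_trans (by exact_mod_cast e0) e1
      calc Real.log q * Real.log q' *
          (((Icc 1 n).filter (fun N => q ∣ N ∧ q' ∣ N)).card : ℝ)
          ≤ Real.log q * Real.log q' * (n / ((q * q' : ℕ) : ℝ)) :=
            mul_le_mul_of_nonneg_left e2 (by positivity)
        _ = n * ((Real.log q / q) * (Real.log q' / q')) := by
            push_cast
            field_simp
  refine (Finset.sum_le_sum fun q hq => Finset.sum_le_sum fun q' hq' => h2 q hq q' hq').trans ?_
  simp_rw [Finset.sum_add_distrib]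
  have h3 : ∑ q ∈ S, ∑ q' ∈ S, (if q' = q then n * (Real.log Z * (Real.log q / q)) else 0)
      = n * (Real.log Z * ∑ q ∈ S, Real.log q / q) := by
    rw [Finset.mul_sum, Finset.mul_sum]
    apply Finset.sum_congr rfl
    intro q hq
    rw [Finset.sum_ite_eq' S q, if_pos hq]
  have h4 : ∑ q ∈ S, ∑ q' ∈ S, n * ((Real.log q / q) * (Real.log q' / q')) =
      n * ((∑ q ∈ S, Real.log q / q) * (∑ q ∈ S, Real.log q / q)) := by
    rw [Finset.sum_mul_sum, Finset.mul_sum]
    simp_rw [Finset.mul_sum]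
  rw [h3, h4]
  have hM : ∑ q ∈ S, Real.log q / q ≤ Real.log Z + 1.4 := by
    rw [hS]; exact mertens_upper Z hZ
  have hM0 : 0 ≤ ∑ q ∈ S, Real.log q / q := by
    apply Finset.sum_nonneg
    intro q hq
    have := log_pos_of_mem (hS ▸ hq)
    positivity
  have e1 : (∑ q ∈ S, Real.log q / q) * (∑ q ∈ S, Real.log q / q) ≤ (Real.log Z + 1.4) ^ 2 := by
    rw [sq]; exact mul_le_mul hM hM hM0 (by linarith)
  have e2 : Real.log Z * ∑ q ∈ S, Real.log q / q ≤ (Real.log Z + 1.4) ^ 2 := by
    rw [sq]; exact mul_le_mul (by linarith) hM hM0 (by linarith)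
  have hn : (0:ℝ) ≤ n := Nat.cast_nonneg n
  calc n * ((∑ q ∈ S, Real.log q / q) * (∑ q ∈ S, Real.log q / q)) +
        n * (Real.log Z * ∑ q ∈ S, Real.log q / q)
      ≤ n * (Real.log Z + 1.4) ^ 2 + n * (Real.log Z + 1.4) ^ 2 :=
        add_le_add (mul_le_mul_of_nonneg_left e1 hn) (mul_le_mul_of_nonneg_left e2 hn)
    _ = 2 * n * (Real.log Z + 1.4) ^ 2 := by ring

open Classical in
/-- number of `N ≤ n` with `x² ∣ N` for some `x > U` -/
lemma card_sq_dvd_le (n U : ℕ) (hU : 1 ≤ U) :
    (((Icc 1 n).filter (fun N => ∃ x, U < x ∧ x ^ 2 ∣ N)).card : ℝ) ≤ (n:ℝ) / U := by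
  have h1 : (Icc 1 n).filter (fun N => ∃ x, U < x ∧ x ^ 2 ∣ N) ⊆
      (Ioc U n).biUnion (fun x => (Icc 1 n).filter (fun N => x ^ 2 ∣ N)) := by
    intro N hN
    rw [mem_filter, mem_Icc] at hN
    obtain ⟨⟨hN1, hN2⟩, x, hx, hd⟩ := hN
    rw [mem_biUnion]
    refine ⟨x, ?_, ?_⟩
    · rw [mem_Ioc]
      refine ⟨hx, ?_⟩
      have := Nat.le_of_dvd (by omega) hd
      have h2 : x ≤ x ^ 2 := Nat.le_self_pow (by norm_num) x
      omega
    · rw [mem_filter, mem_Icc]; exact ⟨⟨hN1, hN2⟩, hd⟩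
  have h2 : (((Icc 1 n).filter (fun N => ∃ x, U < x ∧ x ^ 2 ∣ N)).card : ℝ) ≤
      ∑ x ∈ Ioc U n, (n:ℝ) / (x:ℝ) ^ 2 := by
    calc (((Icc 1 n).filter (fun N => ∃ x, U < x ∧ x ^ 2 ∣ N)).card : ℝ)
        ≤ ((∑ x ∈ Ioc U n, ((Icc 1 n).filter (fun N => x ^ 2 ∣ N)).card : ℕ) : ℝ) := by
          exact_mod_cast (Finset.card_le_card h1).trans Finset.card_biUnion_le
      _ = ∑ x ∈ Ioc U n, (((Icc 1 n).filter (fun N => x ^ 2 ∣ N)).card : ℝ) := by push_cast; rfl
      _ ≤ _ := by
          apply Finset.sum_le_sum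
          intro x hx
          rw [mem_Ioc] at hx
          have := card_mult_le n (x ^ 2) (by have : 0 < x := by omega
                                             positivity)
          push_cast at this
          exact this
  refine h2.trans ?_
  have h3 : ∀ x ∈ Ioc U n, (n:ℝ) / (x:ℝ) ^ 2 ≤ n * (1 / ((x:ℝ) - 1) - 1 / x) := by
    intro x hx
    rw [mem_Ioc] at hx
    have hx1 : (1:ℝ) < x := by exact_mod_cast (by omega : 1 < x)
    have e1 : 1 / ((x:ℝ) - 1) - 1 / x = 1 / (((x:ℝ) - 1) * x) := by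
      have : (x:ℝ) - 1 ≠ 0 := by linarith
      have : (x:ℝ) ≠ 0 := by linarith
      field_simp
      ring
    rw [e1, div_eq_mul_one_div]
    apply mul_le_mul_of_nonneg_left _ (Nat.cast_nonneg n)
    apply one_div_le_one_div_of_le
    · nlinarith
    · nlinarith
  refine (Finset.sum_le_sum h3).trans ?_
  rw [← Finset.mul_sum]
  have h4 : ∀ m : ℕ, U ≤ m → ∑ x ∈ Ioc U m, (1 / ((x:ℝ) - 1) - 1 / x) = 1 / (U:ℝ) - 1 / m := by
    intro m hm
    induction m, hm using Nat.le_induction with
    | base => simp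
    | succ m hm ih =>
      rw [← Finset.insert_Ioc_right_eq_Ioc_add_one (by omega), Finset.sum_insert (by simp), ih]
      push_cast
      ring
  by_cases hUn : U ≤ n
  · rw [h4 n hUn]
    have : (0:ℝ) ≤ 1 / n := by positivity
    calc (n:ℝ) * (1 / U - 1 / n) ≤ n * (1 / U) :=
          mul_le_mul_of_nonneg_left (by linarith) (Nat.cast_nonneg n)
      _ = n / U := by ring
  · rw [Finset.Ioc_eq_empty (by omega), Finset.sum_empty, mul_zero]
    positivity

open Classical in
/-- the number of `N ≤ n` all of whose primes `> Z` have even exponents -/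
theorem smsq_count (Z n U : ℕ) (hZ : 1 ≤ Z) (hU : 1 ≤ U) (hn : U ^ 3 < n) :
    (((Icc 1 n).filter (fun N => SmSq Z N)).card : ℝ) ≤
      2 * n / U + 2 * n * (Real.log Z + 1.4) ^ 2 / (Real.log (n / (U:ℝ) ^ 3)) ^ 2 := by
  have hUR : (0:ℝ) < U := by exact_mod_cast hU
  have hnR : ((U:ℝ)) ^ 3 < n := by exact_mod_cast hn
  have hG : 0 < Real.log (n / (U:ℝ) ^ 3) := by
    apply Real.log_pos
    rw [one_lt_div (by positivity)]; exact hnR
  obtain ⟨G, hGdef⟩ : ∃ G, G = Real.log (n / (U:ℝ) ^ 3) := ⟨_, rfl⟩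
  rw [← hGdef] at hG ⊢
  -- covering by three sets
  have hcover : (Icc 1 n).filter (fun N => SmSq Z N) ⊆
      ((Icc 1 n).filter (fun N => N * U ≤ n) ∪ (Icc 1 n).filter (fun N => ∃ x, U < x ∧ x ^ 2 ∣ N))
      ∪ (Icc 1 n).filter (fun N => G ≤ gz Z N) := by
    intro N hN
    rw [mem_filter, mem_Icc] at hN
    obtain ⟨⟨hN1, hN2⟩, hsm⟩ := hN
    by_cases h1 : N * U ≤ n
    · apply mem_union_left; apply mem_union_left
      rw [mem_filter, mem_Icc]; exact ⟨⟨hN1, hN2⟩, h1⟩
    by_cases h2 : ∃ x, U < x ∧ x ^ 2 ∣ N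
    · apply mem_union_left; apply mem_union_right
      rw [mem_filter, mem_Icc]; exact ⟨⟨hN1, hN2⟩, h2⟩
    apply mem_union_right
    rw [mem_filter, mem_Icc]
    refine ⟨⟨hN1, hN2⟩, ?_⟩
    push Not at h1 h2
    obtain ⟨t, x, hxt, hsf⟩ := Nat.sq_mul_squarefree N
    -- x ^ 2 * t = N
    have hx : x ≤ U := by
      by_contra hcon
      push Not at hcon
      exact h2 x hcon (Dvd.intro _ hxt)
    have ht0 : 0 < t := by
      rcases Nat.eq_zero_or_pos t with h | h
      · subst h; simp at hxt; omega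
      · exact h
    have hx0 : 0 < x := by
      rcases Nat.eq_zero_or_pos x with h | h
      · subst h; simp at hxt; omega
      · exact h
    have h3 : G ≤ Real.log t := by
      rw [hGdef]
      apply Real.log_le_log
      · apply div_pos _ (by positivity)
        have : (0:ℝ) < U ^ 3 := by positivity
        linarith
      · rw [div_le_iff₀ (by positivity)]
        have e1 : (n:ℝ) ≤ N * U := by exact_mod_cast h1.le
        have e2 : (N:ℝ) = (x:ℝ) ^ 2 * t := by exact_mod_cast hxt.symm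
        have e3 : (x:ℝ) ≤ U := by exact_mod_cast hx
        have e4 : (x:ℝ) ^ 2 ≤ (U:ℝ) ^ 2 := pow_le_pow_left₀ (Nat.cast_nonneg _) e3 2
        calc (n:ℝ) ≤ N * U := e1
          _ = (x:ℝ) ^ 2 * t * U := by rw [e2]
          _ ≤ (U:ℝ) ^ 2 * t * U := by
              apply mul_le_mul_of_nonneg_right _ hUR.le
              exact mul_le_mul_of_nonneg_right e4 (Nat.cast_nonneg _)
          _ = t * (U:ℝ) ^ 3 := by ring
    refine h3.trans ?_
    -- log t = sum of log over prime factors
    have h4 : Real.log t = ∑ q ∈ t.primeFactors, Real.log q := by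
      conv_lhs => rw [← Nat.prod_primeFactors_of_squarefree hsf]
      push_cast
      rw [Real.log_prod]
      intro q hq
      have := (Nat.prime_of_mem_primeFactors hq).pos
      exact_mod_cast this.ne'
    rw [h4]
    unfold gz
    rw [← Finset.sum_filter]
    apply Finset.sum_le_sum_of_subset_of_nonneg
    · intro q hq
      have hqp := Nat.prime_of_mem_primeFactors hq
      have hqt := Nat.dvd_of_mem_primeFactors hq
      have hqN : q ∣ N := hqt.trans (Dvd.intro_left _ hxt)
      rw [mem_filter, mem_filter, mem_Ioc]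
      refine ⟨⟨⟨hqp.pos, ?_⟩, hqp⟩, hqN⟩
      by_contra hcon
      push Not at hcon
      have h5 := hsm q hqp hcon
      have h6 : N.factorization q = 2 * x.factorization q + t.factorization q := by
        rw [← hxt, Nat.factorization_mul (by positivity) (by omega), Finsupp.add_apply,
          Nat.factorization_pow, Finsupp.smul_apply, smul_eq_mul]
      have h7 : t.factorization q = 1 := by
        apply le_antisymm
        · exact (Nat.squarefree_iff_factorization_le_one (by omega)).mp hsf q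
        · exact hqp.factorization_pos_of_dvd (by omega) hqt
      rw [h6, h7] at h5
      rw [Nat.even_add_one] at h5
      exact h5 (even_two_mul _)
    · intro q hq _
      rw [mem_filter] at hq
      exact log_pos_of_mem hq.1
  -- bounds for the three sets
  have c1 : (((Icc 1 n).filter (fun N => N * U ≤ n)).card : ℝ) ≤ n / U := by
    have e1 : (Icc 1 n).filter (fun N => N * U ≤ n) ⊆ Icc 1 (n / U) := by
      intro N hN
      rw [mem_filter, mem_Icc] at hN
      rw [mem_Icc]
      exact ⟨hN.1.1, (Nat.le_div_iff_mul_le hU).mpr hN.2⟩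
    have e2 := Finset.card_le_card e1
    rw [Nat.card_Icc, Nat.add_sub_cancel] at e2
    calc (((Icc 1 n).filter (fun N => N * U ≤ n)).card : ℝ) ≤ ((n / U : ℕ) : ℝ) := by
          exact_mod_cast e2
      _ ≤ n / U := Nat.cast_div_le
  have c2 := card_sq_dvd_le n U hU
  have c3 : (((Icc 1 n).filter (fun N => G ≤ gz Z N)).card : ℝ) ≤
      2 * n * (Real.log Z + 1.4) ^ 2 / G ^ 2 := by
    rw [le_div_iff₀ (by positivity)]
    calc (((Icc 1 n).filter (fun N => G ≤ gz Z N)).card : ℝ) * G ^ 2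
        = ∑ N ∈ (Icc 1 n).filter (fun N => G ≤ gz Z N), G ^ 2 := by
          rw [Finset.sum_const, nsmul_eq_mul]
      _ ≤ ∑ N ∈ (Icc 1 n).filter (fun N => G ≤ gz Z N), (gz Z N) ^ 2 := by
          apply Finset.sum_le_sum
          intro N hN
          rw [mem_filter] at hN
          exact pow_le_pow_left₀ hG.le hN.2 2
      _ ≤ ∑ N ∈ Icc 1 n, (gz Z N) ^ 2 := by
          apply Finset.sum_le_sum_of_subset_of_nonneg (Finset.filter_subset _ _)
          intro N _ _
          positivity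
      _ ≤ _ := gz_second_moment Z n hZ
  have h5 := Finset.card_le_card hcover
  have h6 := Finset.card_union_le ((Icc 1 n).filter (fun N => N * U ≤ n) ∪
    (Icc 1 n).filter (fun N => ∃ x, U < x ∧ x ^ 2 ∣ N)) ((Icc 1 n).filter (fun N => G ≤ gz Z N))
  have h7 := Finset.card_union_le ((Icc 1 n).filter (fun N => N * U ≤ n))
    ((Icc 1 n).filter (fun N => ∃ x, U < x ∧ x ^ 2 ∣ N))
  have h8 : (((Icc 1 n).filter (fun N => SmSq Z N)).card : ℝ) ≤
      (((Icc 1 n).filter (fun N => N * U ≤ n)).card : ℝ) +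
      (((Icc 1 n).filter (fun N => ∃ x, U < x ∧ x ^ 2 ∣ N)).card : ℝ) +
      (((Icc 1 n).filter (fun N => G ≤ gz Z N)).card : ℝ) := by
    have : ((Icc 1 n).filter (fun N => SmSq Z N)).card ≤
      ((Icc 1 n).filter (fun N => N * U ≤ n)).card +
      ((Icc 1 n).filter (fun N => ∃ x, U < x ∧ x ^ 2 ∣ N)).card +
      ((Icc 1 n).filter (fun N => G ≤ gz Z N)).card := by omega
    exact_mod_cast this
  have h9 : 2 * (n:ℝ) / U = n / U + n / U := by ring
  rw [h9]
  linarith

/-- squarefree part -/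
lemma exists_sf (j : ℕ) : ∃ t x : ℕ, j = t * x ^ 2 ∧ Squarefree t := by
  obtain ⟨t, x, h, hs⟩ := Nat.sq_mul_squarefree j
  exact ⟨t, x, by rw [← h]; ring, hs⟩

end Pool.Agent.Work.MP_0b7501_nt
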