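import Pool.Agent.Work.MP_0b7501_nt.R2a
import Pool.Agent.Work.MP_0b7501_nt.Mertens
import Pool.Agent.Work.MP_0b7501_nt.Larger

/-!
Three factorials: `y! · (c, m]` is a square. Basic facts.
-/

namespace Pool.Agent.Work.MP_0b7501_nt

open Finset Filter

/-- squarefree part -/
noncomputable def tf (j : ℕ) : ℕ := Classical.choose (exists_sf j)

/-- square root of the square part -/
noncomputable def xf (j : ℕ) : ℕ := Classical.choose (Classical.choose_spec (exists_sf j))

lemma tx_eq (j : ℕ) : j = tf j * xf j ^ 2 :=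
  (Classical.choose_spec (Classical.choose_spec (exists_sf j))).1

lemma tf_sf (j : ℕ) : Squarefree (tf j) :=
  (Classical.choose_spec (Classical.choose_spec (exists_sf j))).2

lemma tf_ne_zero (j : ℕ) : tf j ≠ 0 := (tf_sf j).ne_zero

lemma xf_ne_zero {j : ℕ} (hj : j ≠ 0) : xf j ≠ 0 := by
  intro h0
  have := tx_eq j
  rw [h0] at this
  simp at this
  exact hj this

lemma dvd_of_dvd_tf {q j : ℕ} (h : q ∣ tf j) : q ∣ j := by
  rw [tx_eq j]; exact h.mul_right _

lemma odd_of_dvd_tf {q j : ℕ} (hj : j ≠ 0) (hq : q.Prime) (hd : q ∣ tf j) :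
    Odd (j.factorization q) := by
  have e1 : j.factorization q = (tf j).factorization q + 2 * (xf j).factorization q := by
    conv_lhs => rw [tx_eq j]
    have := xf_ne_zero hj
    rw [Nat.factorization_mul (tf_ne_zero j) (by positivity), Finsupp.add_apply,
      Nat.factorization_pow, Finsupp.smul_apply, smul_eq_mul]
  have e2 : (tf j).factorization q = 1 := by
    apply le_antisymm
    · exact (Nat.squarefree_iff_factorization_le_one (tf_ne_zero j)).mp (tf_sf j) q
    · exact hq.factorization_pos_of_dvd (tf_ne_zero j) hd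
  rw [e1, e2, add_comm]
  exact (even_two_mul _).add_one

/-- primes that must divide the last interval -/
noncomputable def QQ (y L : ℕ) : Finset ℕ :=
  (Ioc L y).filter (fun q => q.Prime ∧ ¬ 2 ∣ ev q 0 y)

noncomputable def Th (y L : ℕ) : ℝ := ∑ q ∈ QQ y L, Real.log q

lemma mem_QQ {y L q : ℕ} : q ∈ QQ y L ↔ (L < q ∧ q ≤ y) ∧ q.Prime ∧ ¬ 2 ∣ ev q 0 y := by
  unfold QQ; rw [mem_filter, mem_Ioc]

lemma QQ_prime {y L q : ℕ} (h : q ∈ QQ y L) : q.Prime := (mem_QQ.mp h).2.1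

lemma QQ_log_nonneg {y L q : ℕ} (h : q ∈ QQ y L) : 0 ≤ Real.log q :=
  Real.log_nonneg (by exact_mod_cast (QQ_prime h).one_lt.le)

lemma Th_le (y L : ℕ) : Th y L ≤ 1.4 * y := by
  refine le_trans ?_ (theta_nat_le y)
  apply Finset.sum_le_sum_of_subset_of_nonneg
  · intro q hq
    rw [mem_QQ] at hq
    rw [mem_filter, mem_Ioc]
    exact ⟨⟨hq.2.1.pos, hq.1.2⟩, hq.2.1⟩
  · intro q hq _
    exact log_pos_of_mem hq

lemma Th_nonneg (y L : ℕ) : 0 ≤ Th y L := Finset.sum_nonneg fun _ h => QQ_log_nonneg h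

lemma ev_odd_of_QQ {y c m q : ℕ} (hC : Conf y c c c m) (hq : q ∈ QQ y (m - c)) :
    ev q c m ≠ 0 := by
  rw [mem_QQ] at hq
  have h1 := hC.par q hq.2.1
  have h2 : ev q c c = 0 := by unfold ev; rw [Finset.Ioc_self, Finset.sum_empty]
  rw [h2, add_zero, even_iff_two_dvd] at h1
  intro h3
  rw [h3, add_zero] at h1
  exact hq.2.2 h1

lemma mod_lt_of_QQ {y c m q : ℕ} (hC : Conf y c c c m) (hq : q ∈ QQ y (m - c)) :
    m % q < m - c := by
  obtain ⟨j, hj, hd⟩ := exists_mult_of_ev (ev_odd_of_QQ hC hq)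
  rw [mem_QQ] at hq
  rw [mem_Ioc] at hj
  obtain ⟨k, rfl⟩ := hd
  have h1 : m = (m - q * k) + q * k := by omega
  rw [h1, Nat.add_mul_mod_self_left, Nat.mod_eq_of_lt (by omega)]
  omega

/-- a prime `> L` dividing a squarefree part is one of the special primes -/
lemma mem_QQ_of_dvd {y c m q j : ℕ} (hC : Conf y c c c m) (hj : j ∈ Ioc c m) (hq : q.Prime)
    (hL : m - c < q) (hd : q ∣ tf j) : q ∈ QQ y (m - c) := by
  have hj' := mem_Ioc.mp hj
  have hodd := odd_of_dvd_tf (by omega) hq hd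
  have e1 : ev q c m = j.factorization q := ev_eq_single hL hj (dvd_of_dvd_tf hd)
  have h1 := hC.par q hq
  have h2 : ev q c c = 0 := by unfold ev; rw [Finset.Ioc_self, Finset.sum_empty]
  rw [h2, add_zero, e1] at h1
  have h3 : ¬ 2 ∣ ev q 0 y := by
    intro h4
    have h5 : Even (ev q 0 y) := even_iff_two_dvd.mpr h4
    rw [Nat.even_add] at h1
    exact (Nat.not_even_iff_odd.mpr hodd) (h1.mp h5)
  rw [mem_QQ]
  refine ⟨⟨hL, ?_⟩, hq, h3⟩
  by_contra h4
  push Not at h4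
  rw [ev_zero_of_lt h4] at h3
  exact h3 (dvd_zero 2)

lemma card_mult_Ioc {a b L q : ℕ} (hL : b - a = L) (hab : a ≤ b) (hq : 0 < q) :
    ((Ioc a b).filter (fun j => q ∣ j)).card ≤ L / q + 1 := by
  have e3 : (Ioc a b).filter (fun j => q ∣ j) ⊆ (Ioc (a / q) (b / q)).image (fun k => q * k) := by
    intro j hj
    rw [mem_filter, mem_Ioc] at hj
    obtain ⟨⟨hj1, hj2⟩, k, rfl⟩ := hj
    rw [mem_image]
    refine ⟨k, ?_, rfl⟩
    rw [mem_Ioc]
    constructor
    · rw [Nat.div_lt_iff_lt_mul hq]; linarith [mul_comm q k]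
    · rw [Nat.le_div_iff_mul_le hq]; linarith [mul_comm q k]
  have e4 := (Finset.card_le_card e3).trans Finset.card_image_le
  rw [Nat.card_Ioc] at e4
  have e5 : b / q ≤ a / q + L / q + 1 := by
    rw [← Nat.lt_succ_iff, Nat.div_lt_iff_lt_mul hq]
    have e1 := Nat.lt_div_mul_add (a := a) hq
    have e2 := Nat.lt_div_mul_add (a := L) hq
    have e3 : (a / q + L / q + 1).succ * q = a / q * q + L / q * q + 2 * q := by
      rw [Nat.succ_eq_add_one]; ring
    rw [e3]; omega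
  have e6 : b / q - a / q ≤ L / q + 1 := by
    rw [Nat.sub_le_iff_le_add]; linarith
  exact e4.trans e6

lemma log_tf (j : ℕ) : Real.log (tf j) = ∑ q ∈ (tf j).primeFactors, Real.log q := by
  conv_lhs => rw [← Nat.prod_primeFactors_of_squarefree (tf_sf j)]
  push_cast
  rw [Real.log_prod]
  intro q hq
  have := (Nat.prime_of_mem_primeFactors hq).pos
  exact_mod_cast this.ne'

lemma log_tf_nonneg (j : ℕ) : 0 ≤ Real.log (tf j) := by
  apply Real.log_nonneg
  have := Nat.pos_of_ne_zero (tf_ne_zero j)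
  exact_mod_cast this

/-- the product of the squarefree parts is small -/
lemma sum_log_tf {y c m : ℕ} (hC : Conf y c c c m) :
    ∑ j ∈ Ioc c m, Real.log (tf j) ≤
      ((m - c : ℕ) : ℝ) * Real.log ((m - c : ℕ) : ℝ) + 1.4 * ((m - c : ℕ) : ℝ) + Th y (m - c) := by
  classical
  have hcm := hC.hcm
  obtain ⟨L, hL⟩ : ∃ L, L = m - c := ⟨_, rfl⟩
  rw [← hL]
  have hsplit : ∀ j ∈ Ioc c m, Real.log (tf j) ≤
      (∑ q ∈ (Ioc 0 L).filter Nat.Prime, if q ∣ j then Real.log q else 0) +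
      ∑ q ∈ QQ y L, if q ∣ j then Real.log q else 0 := by
    intro j hj
    rw [log_tf j, ← Finset.sum_filter_add_sum_filter_not (tf j).primeFactors (fun q => q ≤ L)]
    apply add_le_add
    · rw [← Finset.sum_filter]
      apply Finset.sum_le_sum_of_subset_of_nonneg
      · intro q hq
        rw [mem_filter, Nat.mem_primeFactors] at hq
        rw [mem_filter, mem_filter, mem_Ioc]
        exact ⟨⟨⟨hq.1.1.pos, hq.2⟩, hq.1.1⟩, dvd_of_dvd_tf hq.1.2.1⟩
      · intro q hq _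
        rw [mem_filter] at hq
        exact log_pos_of_mem hq.1
    · rw [← Finset.sum_filter]
      apply Finset.sum_le_sum_of_subset_of_nonneg
      · intro q hq
        rw [mem_filter, Nat.mem_primeFactors] at hq
        push Not at hq
        rw [mem_filter]
        refine ⟨?_, dvd_of_dvd_tf hq.1.2.1⟩
        rw [hL]
        exact mem_QQ_of_dvd hC hj hq.1.1 (by rw [← hL]; exact hq.2) hq.1.2.1
      · intro q hq _
        rw [mem_filter] at hq
        exact QQ_log_nonneg hq.1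
  refine (Finset.sum_le_sum hsplit).trans ?_
  rw [Finset.sum_add_distrib]
  apply add_le_add
  · rw [Finset.sum_comm]
    have e1 : ∀ q ∈ (Ioc 0 L).filter Nat.Prime, ∑ j ∈ Ioc c m, (if q ∣ j then Real.log q else 0) ≤
        ((L / q : ℕ) : ℝ) * Real.log q + Real.log q := by
      intro q hq
      have hlq := log_pos_of_mem hq
      rw [← Finset.sum_filter, Finset.sum_const, nsmul_eq_mul]
      have h1 := card_mult_Ioc hL.symm hcm.le (by rw [mem_filter] at hq; exact hq.2.pos : 0 < q)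
      have h2 : (((Ioc c m).filter (fun j => q ∣ j)).card : ℝ) ≤ ((L / q : ℕ) : ℝ) + 1 := by
        exact_mod_cast h1
      have := mul_le_mul_of_nonneg_right h2 hlq
      linarith
    refine (Finset.sum_le_sum e1).trans ?_
    rw [Finset.sum_add_distrib]
    apply add_le_add
    · exact (sum_div_log_le L).trans (log_factorial_le L)
    · exact theta_nat_le L
  · rw [Finset.sum_comm]
    unfold Th
    apply Finset.sum_le_sum
    intro q hq
    have hlq := QQ_log_nonneg hq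
    rw [← Finset.sum_filter, Finset.sum_const, nsmul_eq_mul]
    have h1 := card_mult_Ioc hL.symm hcm.le ((QQ_prime hq).pos)
    rw [Nat.div_eq_of_lt (mem_QQ.mp hq).1.1, zero_add] at h1
    have h2 : (((Ioc c m).filter (fun j => q ∣ j)).card : ℝ) ≤ 1 := by exact_mod_cast h1
    calc _ ≤ 1 * Real.log q := mul_le_mul_of_nonneg_right h2 hlq
      _ = _ := one_mul _

/-- counting by blocks with the larger sieve -/
lemma sieve_blocks (A : Finset ℕ) (N B : ℕ) (hA : ∀ a ∈ A, a ≤ N) (hB : 1 ≤ B)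
    (S : Finset ℕ) (hS : ∀ q ∈ S, q.Prime) (ρ : ℝ) (hρ : 0 < ρ) (R : ℕ → Finset ℕ)
    (hR : ∀ q ∈ S, ((R q).card : ℝ) ≤ ρ) (hmod : ∀ q ∈ S, ∀ a ∈ A, a % q ∈ R q)
    (W : ℝ) (hW : ∑ q ∈ S, Real.log q ≤ W)
    (h1 : 1 ≤ (∑ q ∈ S, Real.log q) / ρ - Real.log B) :
    (A.card : ℝ) ≤ ((N:ℝ) / B + 1) * W := by
  classical
  have hW0 : 0 ≤ W := by
    refine le_trans (Finset.sum_nonneg fun q hq => ?_) hW
    exact Real.log_nonneg (by exact_mod_cast (hS q hq).one_lt.le)
  have hblock : ∀ k ∈ range (N / B + 1), ((A.filter (fun a => a / B = k)).card : ℝ) ≤ W := by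
    intro k _
    have hls := larger_sieve (A.filter (fun a => a / B = k)) B hB (by
      intro a ha b hb hab
      rw [mem_filter] at ha hb
      have h1 := Nat.div_add_mod a B
      have h2 := Nat.div_add_mod b B
      rw [ha.2] at h1
      rw [hb.2] at h2
      have h3 := Nat.mod_lt b (by omega : 0 < B)
      omega) S hS ρ hρ R hR (by
      intro q hq a ha
      rw [mem_filter] at ha
      exact hmod q hq a ha.1)
    calc ((A.filter (fun a => a / B = k)).card : ℝ)
        = ((A.filter (fun a => a / B = k)).card : ℝ) * 1 := by rw [mul_one]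
      _ ≤ _ := mul_le_mul_of_nonneg_left h1 (Nat.cast_nonneg _)
      _ ≤ ∑ q ∈ S, Real.log q := hls
      _ ≤ W := hW
  have hcard : A.card = ∑ k ∈ range (N / B + 1), (A.filter (fun a => a / B = k)).card := by
    apply Finset.card_eq_sum_card_fiberwise
    intro a ha
    simp only [coe_range, Set.mem_Iio]
    have := Nat.div_le_div_right (c := B) (hA a ha)
    omega
  rw [hcard]
  push_cast
  refine (Finset.sum_le_sum hblock).trans ?_
  rw [Finset.sum_const, card_range, nsmul_eq_mul]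
  apply mul_le_mul_of_nonneg_right _ hW0
  push_cast
  have : ((N / B : ℕ) : ℝ) ≤ (N:ℝ) / B := Nat.cast_div_le
  linarith

/-- spacing of the solutions of `t x² = t' x'² + k` -/
lemma spacing (t t' k N : ℕ) (ht : 1 ≤ t) (ht' : 1 ≤ t') (hk : 1 ≤ k) (A : Finset ℕ)
    (hA : ∀ x ∈ A, ∃ x', t * x ^ 2 = t' * x' ^ 2 + k ∧ t * x ^ 2 ≤ N ∧ N < 4 * (t' * x' ^ 2)) :
    A.card ≤ (4 * k + 1) * (2 * k) := by
  classical
  rcases A.eq_empty_or_nonempty with hE | ⟨x0, hx0⟩
  · subst hE; simp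
  choose! f hf using hA
  obtain ⟨y0, hy0⟩ : ∃ y0, y0 = f x0 := ⟨_, rfl⟩
  obtain ⟨e0, b0, b0'⟩ := hf x0 hx0
  rw [← hy0] at e0 b0'
  have hy0pos : 0 < y0 := by
    rcases Nat.eq_zero_or_pos y0 with h | h
    · rw [h] at b0'; simp at b0'
    · exact h
  have hx0pos : 0 < x0 := by
    rcases Nat.eq_zero_or_pos x0 with h | h
    · rw [h] at e0; simp at e0; omega
    · exact h
  -- the determinant is bounded
  have hdet : ∀ x1 y1 x2 y2 : ℕ, t * x1 ^ 2 = t' * y1 ^ 2 + k → t * x2 ^ 2 = t' * y2 ^ 2 + k →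
      t * x2 ^ 2 ≤ N → N < 4 * (t' * y1 ^ 2) → y1 ≤ y2 → 0 < y1 →
      |(x1:ℤ) * y2 - x2 * y1| ≤ 2 * k := by
    intro x1 y1 x2 y2 h1 h2 h3 h4 h5 h6
    have h7 : y2 < 2 * y1 := by
      by_contra hcon
      push Not at hcon
      have : 4 * (t' * y1 ^ 2) ≤ t' * y2 ^ 2 := by
        calc 4 * (t' * y1 ^ 2) = t' * (2 * y1) ^ 2 := by ring
          _ ≤ t' * y2 ^ 2 := Nat.mul_le_mul_left _ (Nat.pow_le_pow_left hcon 2)
      omega
    have h8 : y1 < t * x1 := by
      by_contra hcon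
      push Not at hcon
      have e1 : t * x1 ^ 2 ≤ (t * x1) ^ 2 := by
        calc t * x1 ^ 2 ≤ t * (t * x1 ^ 2) := Nat.le_mul_of_pos_left _ ht
          _ = (t * x1) ^ 2 := by ring
      have e2 : (t * x1) ^ 2 ≤ y1 ^ 2 := Nat.pow_le_pow_left hcon 2
      have e3 : y1 ^ 2 ≤ t' * y1 ^ 2 := Nat.le_mul_of_pos_left _ ht'
      omega
    have h9 : (t:ℤ) * (x1 * y2 - x2 * y1) * (x1 * y2 + x2 * y1) = k * ((y2:ℤ) ^ 2 - y1 ^ 2) := by
      have e1 : (t:ℤ) * x1 ^ 2 = t' * y1 ^ 2 + k := by exact_mod_cast h1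
      have e2 : (t:ℤ) * x2 ^ 2 = t' * y2 ^ 2 + k := by exact_mod_cast h2
      linear_combination (y2:ℤ) ^ 2 * e1 - (y1:ℤ) ^ 2 * e2
    have hy1 : (0:ℤ) < y1 := by exact_mod_cast h6
    have hy2 : (0:ℤ) < y2 := by
      have : 0 < y2 := by omega
      exact_mod_cast this
    have htZ : (1:ℤ) ≤ t := by exact_mod_cast ht
    have h8Z : (y1:ℤ) < t * x1 := by exact_mod_cast h8
    have h7Z : (y2:ℤ) < 2 * y1 := by exact_mod_cast h7
    have hx1 : (0:ℤ) < x1 := by nlinarith
    have hx2 : (0:ℤ) ≤ x2 := Int.natCast_nonneg _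
    have hkZ : (1:ℤ) ≤ k := by exact_mod_cast hk
    have h10 : |(x1:ℤ) * y2 - x2 * y1| * (t * x1 * y2) ≤ k * y2 ^ 2 := by
      calc |(x1:ℤ) * y2 - x2 * y1| * (t * x1 * y2)
          ≤ |(x1:ℤ) * y2 - x2 * y1| * (t * (x1 * y2 + x2 * y1)) := by
            apply mul_le_mul_of_nonneg_left _ (abs_nonneg _)
            have : (0:ℤ) ≤ t * (x2 * y1) := by positivity
            linarith
        _ = |(t:ℤ) * (x1 * y2 - x2 * y1) * (x1 * y2 + x2 * y1)| := by
            rw [abs_mul, abs_mul, abs_of_nonneg (by linarith : (0:ℤ) ≤ t),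
              abs_of_nonneg (by positivity : (0:ℤ) ≤ x1 * y2 + x2 * y1)]
            ring
        _ = |(k:ℤ) * ((y2:ℤ) ^ 2 - y1 ^ 2)| := by rw [h9]
        _ ≤ k * y2 ^ 2 := by
            rw [abs_mul, abs_of_nonneg (by linarith : (0:ℤ) ≤ k)]
            apply mul_le_mul_of_nonneg_left _ (by linarith)
            rw [abs_le]
            have : (y1:ℤ) ^ 2 ≤ y2 ^ 2 := by
              apply pow_le_pow_left₀ hy1.le
              exact_mod_cast h5
            constructor
            · have : (0:ℤ) ≤ (y2:ℤ) ^ 2 := by positivity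
              linarith
            · have : (0:ℤ) ≤ (y1:ℤ) ^ 2 := by positivity
              linarith
    have h11 : (k:ℤ) * y2 ^ 2 ≤ 2 * k * (t * x1 * y2) := by
      have : (y2:ℤ) ≤ 2 * (t * x1) := by linarith
      calc (k:ℤ) * y2 ^ 2 = k * y2 * y2 := by ring
        _ ≤ k * y2 * (2 * (t * x1)) := mul_le_mul_of_nonneg_left this (by positivity)
        _ = _ := by ring
    have h12 : (0:ℤ) < t * x1 * y2 := by positivity
    exact le_of_mul_le_mul_right (h10.trans h11) h12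
  have hdet2 : ∀ x ∈ A, |(x:ℤ) * y0 - x0 * f x| ≤ 2 * k := by
    intro x hx
    obtain ⟨e1, b1, b1'⟩ := hf x hx
    have hfpos : 0 < f x := by
      rcases Nat.eq_zero_or_pos (f x) with h | h
      · rw [h] at b1'; simp at b1'
      · exact h
    rcases le_total y0 (f x) with h | h
    · have := hdet x0 y0 x (f x) e0 e1 b1 b0' h hy0pos
      rw [abs_sub_comm] at this
      exact this
    · exact hdet x (f x) x0 y0 e1 e0 b0 b1' h hfpos
  -- gcd
  obtain ⟨g, hg⟩ : ∃ g, g = Nat.gcd x0 y0 := ⟨_, rfl⟩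
  have hgpos : 0 < g := by rw [hg]; exact Nat.gcd_pos_of_pos_left _ hx0pos
  obtain ⟨u, hu⟩ : g ∣ x0 := by rw [hg]; exact Nat.gcd_dvd_left _ _
  obtain ⟨u', hu'⟩ : g ∣ y0 := by rw [hg]; exact Nat.gcd_dvd_right _ _
  have hupos : 0 < u := Nat.pos_of_ne_zero (by rintro rfl; omega)
  have hcop : Nat.Coprime u u' := by
    have h1 : Nat.gcd x0 y0 = g * Nat.gcd u u' := by rw [hu, hu', Nat.gcd_mul_left]
    rw [← hg] at h1
    have h2 : g * 1 = g * Nat.gcd u u' := by rw [mul_one]; exact h1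
    exact (Nat.eq_of_mul_eq_mul_left hgpos h2).symm
  have hgk : g ≤ k := by
    have h1 : g ^ 2 ∣ t * x0 ^ 2 := by rw [hu, mul_pow]; exact Dvd.dvd.mul_left (Dvd.intro _ rfl) _
    have h2 : g ^ 2 ∣ t' * y0 ^ 2 := by rw [hu', mul_pow]; exact Dvd.dvd.mul_left (Dvd.intro _ rfl) _
    rw [e0] at h1
    have h3 : g ^ 2 ∣ k := (Nat.dvd_add_right h2).mp h1
    have h4 := Nat.le_of_dvd (by omega) h3
    calc g ≤ g ^ 2 := Nat.le_self_pow (by norm_num) g
      _ ≤ k := h4
  -- injection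
  have hinj : Set.InjOn (fun x : ℕ => ((x:ℤ) * y0 - x0 * f x, x / u)) A := by
    intro x hx z hz hxz
    simp only [Prod.mk.injEq] at hxz
    obtain ⟨h1, h2⟩ := hxz
    have h3 : ((x:ℤ) - z) * u' = u * ((f x : ℤ) - f z) := by
      have h4 : ((x:ℤ) - z) * y0 = x0 * ((f x : ℤ) - f z) := by linarith
      rw [hu, hu'] at h4
      push_cast at h4
      have h5 : (g:ℤ) * (((x:ℤ) - z) * u') = g * (u * ((f x : ℤ) - f z)) := by linarith
      exact mul_left_cancel₀ (by exact_mod_cast hgpos.ne') h5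
    have h4 : (u:ℤ) ∣ ((x:ℤ) - z) := by
      have h5 : (u:ℤ) ∣ ((x:ℤ) - z) * u' := Dvd.intro _ h3.symm
      exact (Int.isCoprime_iff_gcd_eq_one.mpr (by exact_mod_cast hcop)).dvd_of_dvd_mul_right h5
    have h5 : x % u = z % u := by
      have h6 : x ≡ z [MOD u] := by
        apply Nat.ModEq.symm
        exact (Nat.modEq_iff_dvd).mpr (by exact_mod_cast h4)
      exact h6
    have h6 := Nat.div_add_mod x u
    have h7 := Nat.div_add_mod z u
    rw [h2, h5] at h6
    omega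
  have hmaps : ∀ x ∈ A, ((fun x : ℕ => ((x:ℤ) * y0 - x0 * f x, x / u)) x) ∈
      (Icc (-(2 * (k:ℤ))) (2 * k)) ×ˢ (range (2 * g)) := by
    intro x hx
    rw [mem_product, mem_Icc, mem_range]
    obtain ⟨e1, b1, b1'⟩ := hf x hx
    refine ⟨abs_le.mp (hdet2 x hx), ?_⟩
    simp only
    rw [Nat.div_lt_iff_lt_mul hupos]
    by_contra hcon
    push Not at hcon
    have h1 : 2 * x0 ≤ x := by
      calc 2 * x0 = 2 * g * u := by rw [hu]; ring
        _ ≤ x := hcon
    have h2 : 4 * (t * x0 ^ 2) ≤ t * x ^ 2 := by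
      calc 4 * (t * x0 ^ 2) = t * (2 * x0) ^ 2 := by ring
        _ ≤ t * x ^ 2 := Nat.mul_le_mul_left _ (Nat.pow_le_pow_left h1 2)
    omega
  have h1 := Finset.card_le_card_of_injOn _ hmaps hinj
  refine h1.trans ?_
  rw [Finset.card_product, card_range, Int.card_Icc]
  have h2 : (2 * (k:ℤ) + 1 - -(2 * (k:ℤ))).toNat = 4 * k + 1 := by omega
  rw [h2]
  exact Nat.mul_le_mul_left _ (by omega)

end Pool.Agent.Work.MP_0b7501_nt
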