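import Pool.Agent.Work.MP_0b7501_nt.G1
import Pool.Agent.Work.MP_0b7501_nt.Params

/-!
Three factorials: `y! · (c, m]` is a square, short intervals.
-/

namespace Pool.Agent.Work.MP_0b7501_nt

open Finset Filter

lemma two_pow_pi_eps (ε : ℝ) (hε : 0 < ε) : ∃ K0 : ℕ, ∀ y : ℕ, K0 ≤ y →
    (2:ℝ) ^ ((Ioc 0 y).filter Nat.Prime).card ≤ Real.exp (ε * y) := by
  classical
  obtain ⟨K0, hK0⟩ := eventually_atTop.mp ((log_ge (B := 4 / ε)).and
    ((eventually_ge_atTop 1).and
    ((tendsto_natCast_atTop_atTop (R := ℝ)).eventually_ge_atTop ((2 / ε + 1) ^ 2))))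
  refine ⟨K0, fun y hy => ?_⟩
  obtain ⟨hlog, hy1, hysq⟩ := hK0 y hy
  have hypos : (0:ℝ) < y := by exact_mod_cast hy1
  obtain ⟨s, hs⟩ : ∃ s : ℕ, s = Nat.sqrt y := ⟨_, rfl⟩
  have hs1 : s * s ≤ y := by rw [hs]; exact Nat.sqrt_le y
  have hs2 : y < (s + 1) * (s + 1) := by rw [hs]; exact Nat.lt_succ_sqrt y
  have hsle : s ≤ y := by rw [hs]; exact Nat.sqrt_le_self y
  have hsR : (s:ℝ) * s ≤ y := by exact_mod_cast hs1
  have hs2R : (y:ℝ) < ((s:ℝ) + 1) ^ 2 := by
    have : (y:ℝ) < ((s:ℝ) + 1) * (s + 1) := by exact_mod_cast hs2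
    calc (y:ℝ) < ((s:ℝ) + 1) * (s + 1) := this
      _ = _ := by ring
  have hsε : 2 / ε ≤ s := by
    have h1 : 2 / ε + 1 < (s:ℝ) + 1 :=
      lt_of_pow_lt_pow_left₀ 2 (by positivity) (lt_of_le_of_lt hysq hs2R)
    linarith
  have hsplit : ((Ioc 0 y).filter Nat.Prime).card ≤ s + ((Ioc s y).filter Nat.Prime).card := by
    rw [← Ioc_union_Ioc_eq_Ioc (Nat.zero_le s) hsle, filter_union]
    refine (Finset.card_union_le _ _).trans ?_
    have : ((Ioc 0 s).filter Nat.Prime).card ≤ s := by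
      refine (Finset.card_filter_le _ _).trans ?_
      rw [Nat.card_Ioc]; omega
    omega
  have hcount : (((Ioc s y).filter Nat.Prime).card : ℝ) * (Real.log y / 2) ≤ 1.4 * y := by
    have h1 : ∑ q ∈ (Ioc s y).filter Nat.Prime, Real.log q ≤ 1.4 * y := by
      refine le_trans ?_ (theta_nat_le y)
      apply Finset.sum_le_sum_of_subset_of_nonneg
      · apply Finset.filter_subset_filter
        intro j hj
        rw [mem_Ioc] at hj ⊢
        omega
      · intro q hq _
        rw [mem_filter] at hq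
        apply Real.log_nonneg
        exact_mod_cast hq.2.one_lt.le
    refine le_trans ?_ h1
    rw [← nsmul_eq_mul]
    apply Finset.card_nsmul_le_sum
    intro q hq
    rw [mem_filter, mem_Ioc] at hq
    have h2 : y < q * q := lt_of_lt_of_le hs2 (Nat.mul_le_mul hq.1.1 hq.1.1)
    have h3 : (y:ℝ) ≤ (q:ℝ) * q := by exact_mod_cast h2.le
    have hq0 : (0:ℝ) < q := by exact_mod_cast hq.2.pos
    have h4 := Real.log_le_log hypos h3
    rw [Real.log_mul hq0.ne' hq0.ne'] at h4
    linarith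
  have hcount2 : (((Ioc s y).filter Nat.Prime).card : ℝ) ≤ 0.7 * ε * y := by
    have h0 : (0:ℝ) ≤ (((Ioc s y).filter Nat.Prime).card : ℝ) := Nat.cast_nonneg _
    have h1 : (((Ioc s y).filter Nat.Prime).card : ℝ) * (2 / ε) ≤ 1.4 * y := by
      refine le_trans (mul_le_mul_of_nonneg_left ?_ h0) hcount
      have : 2 / ε = (4 / ε) / 2 := by ring
      linarith
    calc (((Ioc s y).filter Nat.Prime).card : ℝ)
        = ((((Ioc s y).filter Nat.Prime).card : ℝ) * (2 / ε)) * (ε / 2) := by field_simp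
      _ ≤ (1.4 * y) * (ε / 2) := mul_le_mul_of_nonneg_right h1 (by positivity)
      _ = _ := by ring
  have hpi : (((Ioc 0 y).filter Nat.Prime).card : ℝ) ≤ 1.2 * ε * y := by
    have h1 : (((Ioc 0 y).filter Nat.Prime).card : ℝ) ≤ s + (((Ioc s y).filter Nat.Prime).card : ℝ) := by
      exact_mod_cast hsplit
    have h2 : (s:ℝ) ≤ 0.5 * ε * y := by
      have h3 : (s:ℝ) * (2 / ε) ≤ y := (mul_le_mul_of_nonneg_left hsε (Nat.cast_nonneg s)).trans hsR
      calc (s:ℝ) = ((s:ℝ) * (2 / ε)) * (ε / 2) := by field_simp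
        _ ≤ y * (ε / 2) := mul_le_mul_of_nonneg_right h3 (by positivity)
        _ = _ := by ring
    linarith
  have h2 : (2:ℝ) = Real.exp (Real.log 2) := (Real.exp_log (by norm_num)).symm
  rw [h2, ← Real.exp_nat_mul]
  apply Real.exp_le_exp.mpr
  have h3 := Real.log_two_lt_d9
  have h4 : (0:ℝ) < Real.log 2 := Real.log_pos (by norm_num)
  have h5 : 0 < ε * y := by positivity
  calc (((Ioc 0 y).filter Nat.Prime).card : ℝ) * Real.log 2 ≤ (1.2 * ε * y) * 0.7 := by
        apply mul_le_mul hpi (by linarith) h4.le (by positivity)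
    _ = 0.84 * (ε * y) := by ring
    _ ≤ _ := by linarith

/-- squarefree numbers all of whose prime factors are `≤ Y` -/
noncomputable def smoothSF (Y : ℕ) : Finset ℕ :=
  ((Ioc 0 Y).filter Nat.Prime).powerset.image (fun S => ∏ q ∈ S, q)

lemma smoothSF_card (Y : ℕ) : (smoothSF Y).card ≤ 2 ^ ((Ioc 0 Y).filter Nat.Prime).card := by
  unfold smoothSF
  exact Finset.card_image_le.trans (le_of_eq (Finset.card_powerset _))

lemma smoothSF_pos {Y t : ℕ} (h : t ∈ smoothSF Y) : 1 ≤ t := by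
  unfold smoothSF at h
  rw [mem_image] at h
  obtain ⟨S, hS, rfl⟩ := h
  have h0 : 0 < ∏ q ∈ S, q := by
    apply Finset.prod_pos
    intro q hq
    have := (mem_powerset.mp hS) hq
    rw [mem_filter] at this
    exact this.2.pos
  exact h0

lemma mem_smoothSF {Y t : ℕ} (hsf : Squarefree t) (h : ∀ q, q.Prime → q ∣ t → q ≤ Y) :
    t ∈ smoothSF Y := by
  unfold smoothSF
  rw [mem_image]
  refine ⟨t.primeFactors, ?_, Nat.prod_primeFactors_of_squarefree hsf⟩
  rw [mem_powerset]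
  intro q hq
  rw [Nat.mem_primeFactors] at hq
  rw [mem_filter, mem_Ioc]
  exact ⟨⟨hq.1.pos, h q hq.1 hq.2.1⟩, hq.1⟩

lemma card_biUnion_real {ι : Type*} (s : Finset ι) (f : ι → Finset ℕ) (W : ℝ)
    (h : ∀ a ∈ s, ((f a).card : ℝ) ≤ W) : ((s.biUnion f).card : ℝ) ≤ s.card * W := by
  calc ((s.biUnion f).card : ℝ) ≤ ∑ a ∈ s, ((f a).card : ℝ) := by
        exact_mod_cast Finset.card_biUnion_le
    _ ≤ ∑ a ∈ s, W := Finset.sum_le_sum h
    _ = _ := by rw [Finset.sum_const, nsmul_eq_mul]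

open Classical in
/-- `m` close to a value `t x² = t' x'² + k` -/
noncomputable def setG2 (n Λ : ℕ) (𝒯 : Finset ℕ) : Finset ℕ :=
  (Icc 1 n).filter (fun m => ∃ t ∈ 𝒯, ∃ t' ∈ 𝒯, ∃ k ∈ Icc 1 Λ, ∃ x x' i : ℕ, i ≤ Λ ∧
    m = t * x ^ 2 + i ∧ t * x ^ 2 = t' * x' ^ 2 + k ∧ n < 4 * (t' * x' ^ 2))

lemma setG2_card (n Λ : ℕ) (𝒯 : Finset ℕ) (h𝒯 : ∀ t ∈ 𝒯, 1 ≤ t) :
    (setG2 n Λ 𝒯).card ≤ 𝒯.card * (𝒯.card * (Λ * (((4 * Λ + 1) * (2 * Λ)) * (Λ + 1)))) := by
  classical
  obtain ⟨A, hAdef⟩ : ∃ A : ℕ → ℕ → ℕ → Finset ℕ, A = fun t t' k => (Icc 1 n).filter (fun x =>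
    ∃ x', t * x ^ 2 = t' * x' ^ 2 + k ∧ t * x ^ 2 ≤ n ∧ n < 4 * (t' * x' ^ 2)) := ⟨_, rfl⟩
  have hsub : setG2 n Λ 𝒯 ⊆ 𝒯.biUnion (fun t => 𝒯.biUnion (fun t' => (Icc 1 Λ).biUnion (fun k =>
      (A t t' k).biUnion (fun x => (range (Λ + 1)).image (fun i => t * x ^ 2 + i))))) := by
    intro m hm
    unfold setG2 at hm
    rw [mem_filter, mem_Icc] at hm
    obtain ⟨⟨hm1, hm2⟩, t, ht, t', ht', k, hk, x, x', i, hi, h1, h2, h3⟩ := hm
    rw [mem_biUnion]; refine ⟨t, ht, ?_⟩
    rw [mem_biUnion]; refine ⟨t', ht', ?_⟩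
    rw [mem_biUnion]; refine ⟨k, hk, ?_⟩
    rw [mem_biUnion]; refine ⟨x, ?_, ?_⟩
    · rw [hAdef]
      simp only
      rw [mem_filter, mem_Icc]
      have ht1 := h𝒯 t ht
      have hx1 : 0 < x := by
        rcases Nat.eq_zero_or_pos x with h | h
        · subst h
          rw [mem_Icc] at hk
          simp at h2
          omega
        · exact h
      refine ⟨⟨hx1, ?_⟩, x', h2, by omega, h3⟩
      calc x ≤ x ^ 2 := Nat.le_self_pow (by norm_num) x
        _ ≤ t * x ^ 2 := Nat.le_mul_of_pos_left _ ht1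
        _ ≤ n := by omega
    · rw [mem_image]
      exact ⟨i, mem_range.mpr (by omega), h1.symm⟩
  refine (Finset.card_le_card hsub).trans ?_
  apply Finset.card_biUnion_le_card_mul
  intro t ht
  apply Finset.card_biUnion_le_card_mul
  intro t' ht'
  have h1 : ((Icc 1 Λ).biUnion (fun k => (A t t' k).biUnion
      (fun x => (range (Λ + 1)).image (fun i => t * x ^ 2 + i)))).card ≤
      (Icc 1 Λ).card * (((4 * Λ + 1) * (2 * Λ)) * (Λ + 1)) := by
    apply Finset.card_biUnion_le_card_mul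
    intro k hk
    rw [mem_Icc] at hk
    have h2 : ((A t t' k).biUnion (fun x => (range (Λ + 1)).image (fun i => t * x ^ 2 + i))).card ≤
        (A t t' k).card * (Λ + 1) := by
      apply Finset.card_biUnion_le_card_mul
      intro x _
      refine Finset.card_image_le.trans ?_
      rw [card_range]
    refine h2.trans ?_
    apply Nat.mul_le_mul_right
    have h3 := spacing t t' k n (h𝒯 t ht) (h𝒯 t' ht') hk.1 (A t t' k) (by
      intro x hx
      rw [hAdef] at hx
      simp only [mem_filter] at hx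
      exact hx.2)
    refine h3.trans ?_
    apply Nat.mul_le_mul
    · omega
    · omega
  refine h1.trans ?_
  rw [Nat.card_Icc, Nat.add_sub_cancel]

lemma mem_setG2 {n Λ m c N1 N2 : ℕ} {𝒯 : Finset ℕ} (hm1 : n < 2 * m) (hm2 : m ≤ n)
    (hΛ : m - c ≤ Λ) (hn : 8 * Λ ≤ n) (h1 : N1 ∈ Ioc c m) (h2 : N2 ∈ Ioc c m) (h12 : N1 < N2)
    (ht1 : tf N1 ∈ 𝒯) (ht2 : tf N2 ∈ 𝒯) : m ∈ setG2 n Λ 𝒯 := by
  classical
  rw [mem_Ioc] at h1 h2
  unfold setG2
  rw [mem_filter, mem_Icc]
  refine ⟨⟨by omega, hm2⟩, tf N2, ht2, tf N1, ht1, N2 - N1, mem_Icc.mpr ⟨by omega, by omega⟩,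
    xf N2, xf N1, m - N2, by omega, ?_, ?_, ?_⟩
  · rw [← tx_eq]; omega
  · rw [← tx_eq, ← tx_eq]; omega
  · rw [← tx_eq]; omega

/-- residues for `x` -/
def Ra (q t i L : ℕ) : Finset ℕ := (range q).filter (fun r => (t * r ^ 2 + i) % q < L)

/-- residues for `t` -/
def Rb (q x i L : ℕ) : Finset ℕ := (range q).filter (fun r => (r * x ^ 2 + i) % q < L)

lemma Ra_card {q t i L : ℕ} (hq : q.Prime) (hqt : ¬ q ∣ t) : (Ra q t i L).card ≤ 2 * L := by
  classical
  unfold Ra
  have h1 := Finset.card_le_mul_card_image (f := fun r => (t * r ^ 2 + i) % q)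
    ((range q).filter (fun r => (t * r ^ 2 + i) % q < L)) 2 (by
    intro a ha
    rcases Finset.eq_empty_or_nonempty (((range q).filter (fun r => (t * r ^ 2 + i) % q < L)).filter
      (fun r => (t * r ^ 2 + i) % q = a)) with hE | ⟨r1, hr1⟩
    · rw [hE]; simp
    · have hsub : ((range q).filter (fun r => (t * r ^ 2 + i) % q < L)).filter
          (fun r => (t * r ^ 2 + i) % q = a) ⊆ {r1, q - r1} := by
        intro r hr
        rw [mem_filter, mem_filter, mem_range] at hr hr1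
        rw [mem_insert, mem_singleton]
        have h2 : t * r ^ 2 + i ≡ t * r1 ^ 2 + i [MOD q] := hr.2.trans hr1.2.symm
        have h3 : t * r ^ 2 ≡ t * r1 ^ 2 [MOD q] := Nat.ModEq.add_right_cancel' i h2
        have h4 : (q:ℤ) ∣ (t:ℤ) * ((r1:ℤ) ^ 2 - r ^ 2) := by
          have := (Nat.modEq_iff_dvd).mp h3
          push_cast at this
          have e : (t:ℤ) * ((r1:ℤ) ^ 2 - r ^ 2) = t * r1 ^ 2 - t * r ^ 2 := by ring
          rw [e]; exact this
        have hqZ : Prime (q:ℤ) := Nat.prime_iff_prime_int.mp hq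
        rcases hqZ.dvd_or_dvd h4 with h5 | h5
        · exact absurd (by exact_mod_cast h5) hqt
        · have h6 : (q:ℤ) ∣ ((r1:ℤ) - r) * (r1 + r) := by
            have e : ((r1:ℤ) - r) * (r1 + r) = (r1:ℤ) ^ 2 - r ^ 2 := by ring
            rw [e]; exact h5
          rcases hqZ.dvd_or_dvd h6 with h7 | h7
          · left
            obtain ⟨k, hk⟩ := h7
            have hk0 : k = 0 := by
              by_contra hk0
              rcases lt_or_gt_of_ne hk0 with h | h
              · have : (q:ℤ) * k ≤ -q := by nlinarith [hq.pos]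
                omega
              · have : (q:ℤ) ≤ q * k := by nlinarith [hq.pos]
                omega
            rw [hk0, mul_zero] at hk
            omega
          · have h8 : q ∣ r1 + r := by exact_mod_cast h7
            obtain ⟨k, hk⟩ := h8
            have hk2 : k < 2 := by
              by_contra hcon
              push Not at hcon
              have : q * 2 ≤ q * k := Nat.mul_le_mul_left q hcon
              omega
            interval_cases k
            · left; omega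
            · right; omega
      exact (Finset.card_le_card hsub).trans Finset.card_le_two)
  refine h1.trans ?_
  apply Nat.mul_le_mul_left
  calc _ ≤ (range L).card := by
        apply Finset.card_le_card
        intro a ha
        rw [mem_image] at ha
        obtain ⟨r, hr, rfl⟩ := ha
        rw [mem_filter] at hr
        exact mem_range.mpr hr.2
    _ = L := card_range L

lemma Rb_card {q x i L : ℕ} (hq : q.Prime) (hqx : ¬ q ∣ x) : (Rb q x i L).card ≤ L := by
  classical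
  unfold Rb
  calc _ ≤ (range L).card := by
        apply Finset.card_le_card_of_injOn (fun r => (r * x ^ 2 + i) % q)
        · intro r hr
          simp only [coe_filter, mem_range, Set.mem_ofPred_eq] at hr
          simp only [coe_range, Set.mem_Iio]
          exact hr.2
        · intro r hr r1 hr1 h
          simp only [coe_filter, mem_range, Set.mem_ofPred_eq] at hr hr1
          simp only at h
          have h2 : r * x ^ 2 + i ≡ r1 * x ^ 2 + i [MOD q] := h
          have h3 : r * x ^ 2 ≡ r1 * x ^ 2 [MOD q] := Nat.ModEq.add_right_cancel' i h2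
          have h4 : Nat.gcd q (x ^ 2) = 1 := by
            rw [← Nat.coprime_iff_gcd_eq_one]
            exact ((Nat.Prime.coprime_iff_not_dvd hq).mpr hqx).pow_right 2
          have h5 : r ≡ r1 [MOD q] := Nat.ModEq.cancel_right_of_coprime h4 h3
          have h6 : r % q = r1 % q := h5
          rw [Nat.mod_eq_of_lt hr.1, Nat.mod_eq_of_lt hr1.1] at h6
          exact h6
    _ = L := card_range L

lemma mem_Ra {q t i L x : ℕ} (hq : 0 < q) (h : (t * x ^ 2 + i) % q < L) : x % q ∈ Ra q t i L := by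
  unfold Ra
  rw [mem_filter, mem_range]
  refine ⟨Nat.mod_lt _ hq, ?_⟩
  have h1 : t * (x % q) ^ 2 + i ≡ t * x ^ 2 + i [MOD q] :=
    Nat.ModEq.add_right i (Nat.ModEq.mul_left t ((Nat.mod_modEq x q).pow 2))
  rw [h1]
  exact h

lemma mem_Rb {q t i L x : ℕ} (hq : 0 < q) (h : (t * x ^ 2 + i) % q < L) : t % q ∈ Rb q x i L := by
  unfold Rb
  rw [mem_filter, mem_range]
  refine ⟨Nat.mod_lt _ hq, ?_⟩
  have h1 : (t % q) * x ^ 2 + i ≡ t * x ^ 2 + i [MOD q] :=
    Nat.ModEq.add_right i (Nat.ModEq.mul_right _ (Nat.mod_modEq t q))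
  rw [h1]
  exact h

lemma sum_not_dvd_ge (y L D : ℕ) (hD : 1 ≤ D) :
    Th y L - Real.log D ≤ ∑ q ∈ (QQ y L).filter (fun q => ¬ q ∣ D), Real.log q := by
  have h1 := sum_log_dvd_le (QQ y L) (fun q hq => QQ_prime hq) D D hD le_rfl
  rw [← Finset.sum_filter] at h1
  have h2 := Finset.sum_filter_add_sum_filter_not (QQ y L) (fun q => q ∣ D) (fun q => Real.log (q:ℝ))
  unfold Th
  linarith

end Pool.Agent.Work.MP_0b7501_nt
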