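import Pool.Agent.Work.MP_0b7501_nt.G2
import Pool.Agent.Work.MP_0b7501_nt.Struct

/-!
Three factorials, short intervals: the two sieve sets.
-/

namespace Pool.Agent.Work.MP_0b7501_nt

open Finset Filter

/-- candidates for `x` -/
noncomputable def Aa (X : ℝ) (L y i t : ℕ) : Finset ℕ :=
  (Icc 1 ⌊X ^ 1000⌋₊).filter (fun x => ∀ q ∈ QQ y L, ¬ q ∣ t → x % q ∈ Ra q t i L)

/-- candidates for `t` -/
noncomputable def Ab (ell : ℝ) (L y i x : ℕ) : Finset ℕ :=
  (Icc 1 ⌊Real.exp (Th y L / L + ell / 1000)⌋₊).filter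
    (fun t => ∀ q ∈ QQ y L, ¬ q ∣ x → t % q ∈ Rb q x i L)

lemma Aa_card {X ell : ℝ} (hell : ell = 2000 * Real.log X) (hell4 : 4000 ≤ ell) (hX : 2 ≤ X)
    {L y i t : ℕ} (hL : 2 ≤ L) (hy : (y:ℝ) ≤ 5 * X * ell) (ht1 : 1 ≤ t)
    (ht : (t:ℝ) ≤ X ^ 20) (hTh : ell * L / 20 ≤ Th y L) :
    ((Aa X L y i t).card : ℝ) ≤ 21 * X ^ 961 * ell := by
  classical
  have hX0 : 0 < X := by linarith
  have hX1 : 1 ≤ X := by linarith
  have hlogX : 0 < Real.log X := by linarith
  have hLR : (2:ℝ) ≤ L := by exact_mod_cast hL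
  have hX40 : 1 ≤ X ^ 40 := one_le_pow₀ hX1
  obtain ⟨B, hB⟩ : ∃ B, B = ⌊X ^ 40⌋₊ := ⟨_, rfl⟩
  have hB1 : 1 ≤ B := by rw [hB]; exact Nat.le_floor (by exact_mod_cast hX40)
  have hBR : (1:ℝ) ≤ B := by exact_mod_cast hB1
  have hBle : (B:ℝ) ≤ X ^ 40 := by rw [hB]; exact Nat.floor_le (by positivity)
  have hBge : X ^ 40 / 2 ≤ B := by
    have h1 := Nat.lt_floor_add_one (X ^ 40)
    rw [← hB] at h1
    linarith
  have hlogB : Real.log B ≤ ell / 50 := by
    have h1 := Real.log_le_log (by linarith) hBle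
    rw [Real.log_pow] at h1
    push_cast at h1
    linarith
  have hlogt : Real.log t ≤ ell / 100 := by
    have ht0 : (0:ℝ) < t := by exact_mod_cast ht1
    have h1 := Real.log_le_log ht0 ht
    rw [Real.log_pow] at h1
    push_cast at h1
    linarith
  have hS := sum_not_dvd_ge y L t ht1
  have hW : ∑ q ∈ (QQ y L).filter (fun q => ¬ q ∣ t), Real.log q ≤ 7 * X * ell := by
    calc ∑ q ∈ (QQ y L).filter (fun q => ¬ q ∣ t), Real.log q ≤ Th y L := by
          apply Finset.sum_le_sum_of_subset_of_nonneg (Finset.filter_subset _ _)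
          intro q hq _
          exact QQ_log_nonneg hq
      _ ≤ 1.4 * y := Th_le y L
      _ ≤ 1.4 * (5 * X * ell) := by linarith
      _ = 7 * X * ell := by ring
  have hmain := sieve_blocks (Aa X L y i t) ⌊X ^ 1000⌋₊ B (by
    intro a ha
    unfold Aa at ha
    rw [mem_filter, mem_Icc] at ha
    exact ha.1.2) hB1 ((QQ y L).filter (fun q => ¬ q ∣ t)) (by
    intro q hq
    rw [mem_filter] at hq
    exact QQ_prime hq.1) (2 * L) (by linarith) (fun q => Ra q t i L) (by
    intro q hq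
    rw [mem_filter] at hq
    exact_mod_cast Ra_card (QQ_prime hq.1) hq.2) (by
    intro q hq a ha
    rw [mem_filter] at hq
    unfold Aa at ha
    rw [mem_filter] at ha
    exact ha.2 q hq.1 hq.2) (7 * X * ell) hW (by
    have h1 : ell / 40 - ell / 400 ≤
        (∑ q ∈ (QQ y L).filter (fun q => ¬ q ∣ t), Real.log q) / (2 * L) := by
      rw [le_div_iff₀ (by linarith)]
      have h2 : (ell / 40 - ell / 400) * (2 * L) = ell * L / 20 - ell * L / 200 := by ring
      have h3 : ell * 2 ≤ ell * L := mul_le_mul_of_nonneg_left hLR (by linarith)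
      rw [h2]
      linarith
    linarith)
  refine hmain.trans ?_
  have h1 : ((⌊X ^ 1000⌋₊ : ℕ) : ℝ) / B ≤ 2 * X ^ 960 := by
    rw [div_le_iff₀ (by linarith)]
    calc ((⌊X ^ 1000⌋₊ : ℕ) : ℝ) ≤ X ^ 1000 := Nat.floor_le (by positivity)
      _ = 2 * X ^ 960 * (X ^ 40 / 2) := by ring
      _ ≤ 2 * X ^ 960 * B := mul_le_mul_of_nonneg_left hBge (by positivity)
  have h2 : (1:ℝ) ≤ X ^ 960 := one_le_pow₀ hX1
  calc (((⌊X ^ 1000⌋₊ : ℕ) : ℝ) / B + 1) * (7 * X * ell) ≤ (3 * X ^ 960) * (7 * X * ell) := by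
        apply mul_le_mul_of_nonneg_right (by linarith)
        positivity
    _ = 21 * X ^ 961 * ell := by ring

lemma Ab_card {X ell : ℝ} (hell : ell = 2000 * Real.log X) (hell4 : 4000 ≤ ell) (hX : 2 ≤ X)
    {L y i x : ℕ} (hL : 2000 ≤ L) (hy : (y:ℝ) ≤ 5 * X * ell) (hx1 : 1 ≤ x)
    (hx : (x:ℝ) ≤ X ^ 1000) (hTh : ell * L / 20 ≤ Th y L) :
    ((Ab ell L y i x).card : ℝ) ≤ 21 * X ^ 4 * ell := by
  classical
  have hX0 : 0 < X := by linarith
  have hX1 : 1 ≤ X := by linarith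
  have hlogX : 0 < Real.log X := by linarith
  have hLR : (2000:ℝ) ≤ L := by exact_mod_cast hL
  have hL0 : (0:ℝ) < L := by linarith
  obtain ⟨μ, hμ⟩ : ∃ μ, μ = Th y L / L := ⟨_, rfl⟩
  have hμ1 : ell / 20 ≤ μ := by
    rw [hμ, le_div_iff₀ hL0]
    linarith
  have hE1 : 1 ≤ Real.exp (μ - ell / 2000) := by
    rw [← Real.exp_zero]
    apply Real.exp_le_exp.mpr
    linarith
  obtain ⟨B, hB⟩ : ∃ B, B = ⌊Real.exp (μ - ell / 2000)⌋₊ := ⟨_, rfl⟩
  have hB1 : 1 ≤ B := by rw [hB]; exact Nat.le_floor (by exact_mod_cast hE1)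
  have hBR : (1:ℝ) ≤ B := by exact_mod_cast hB1
  have hBle : (B:ℝ) ≤ Real.exp (μ - ell / 2000) := by rw [hB]; exact Nat.floor_le (by positivity)
  have hBge : Real.exp (μ - ell / 2000) / 2 ≤ B := by
    have h1 := Nat.lt_floor_add_one (Real.exp (μ - ell / 2000))
    rw [← hB] at h1
    linarith
  have hlogB : Real.log B ≤ μ - ell / 2000 := by
    have h1 := Real.log_le_log (by linarith) hBle
    rwa [Real.log_exp] at h1
  have hlogx : Real.log x ≤ ell / 2 := by
    have hx0 : (0:ℝ) < x := by exact_mod_cast hx1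
    have h1 := Real.log_le_log hx0 hx
    rw [Real.log_pow] at h1
    push_cast at h1
    linarith
  have hS := sum_not_dvd_ge y L x hx1
  have hW : ∑ q ∈ (QQ y L).filter (fun q => ¬ q ∣ x), Real.log q ≤ 7 * X * ell := by
    calc ∑ q ∈ (QQ y L).filter (fun q => ¬ q ∣ x), Real.log q ≤ Th y L := by
          apply Finset.sum_le_sum_of_subset_of_nonneg (Finset.filter_subset _ _)
          intro q hq _
          exact QQ_log_nonneg hq
      _ ≤ 1.4 * y := Th_le y L
      _ ≤ 1.4 * (5 * X * ell) := by linarith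
      _ = 7 * X * ell := by ring
  have hmain := sieve_blocks (Ab ell L y i x) ⌊Real.exp (μ + ell / 1000)⌋₊ B (by
    intro a ha
    unfold Ab at ha
    rw [mem_filter, mem_Icc, ← hμ] at ha
    exact ha.1.2) hB1 ((QQ y L).filter (fun q => ¬ q ∣ x)) (by
    intro q hq
    rw [mem_filter] at hq
    exact QQ_prime hq.1) L (by linarith) (fun q => Rb q x i L) (by
    intro q hq
    rw [mem_filter] at hq
    exact_mod_cast Rb_card (QQ_prime hq.1) hq.2) (by
    intro q hq a ha
    rw [mem_filter] at hq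
    unfold Ab at ha
    rw [mem_filter] at ha
    exact ha.2 q hq.1 hq.2) (7 * X * ell) hW (by
    have h1 : μ - ell / 4000 ≤
        (∑ q ∈ (QQ y L).filter (fun q => ¬ q ∣ x), Real.log q) / L := by
      rw [le_div_iff₀ hL0]
      have h2 : (μ - ell / 4000) * L = Th y L - ell * L / 4000 := by
        rw [hμ, sub_mul, div_mul_cancel₀ _ hL0.ne']; ring
      have h3 : ell * 2000 ≤ ell * L := mul_le_mul_of_nonneg_left hLR (by linarith)
      rw [h2]
      linarith
    linarith)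
  refine hmain.trans ?_
  have h1 : ((⌊Real.exp (μ + ell / 1000)⌋₊ : ℕ) : ℝ) / B ≤ 2 * X ^ 3 := by
    rw [div_le_iff₀ (by linarith)]
    have h2 : Real.exp (μ + ell / 1000) = X ^ 3 * Real.exp (μ - ell / 2000) := by
      have h3 : X ^ 3 = Real.exp (3 * Real.log X) := by
        rw [mul_comm, Real.exp_mul, Real.exp_log hX0]
        norm_cast
      rw [h3, ← Real.exp_add]
      congr 1
      rw [hell]; ring
    calc ((⌊Real.exp (μ + ell / 1000)⌋₊ : ℕ) : ℝ) ≤ Real.exp (μ + ell / 1000) :=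
          Nat.floor_le (by positivity)
      _ = 2 * X ^ 3 * (Real.exp (μ - ell / 2000) / 2) := by rw [h2]; ring
      _ ≤ 2 * X ^ 3 * B := mul_le_mul_of_nonneg_left hBge (by positivity)
  have h2 : (1:ℝ) ≤ X ^ 3 := one_le_pow₀ hX1
  calc (((⌊Real.exp (μ + ell / 1000)⌋₊ : ℕ) : ℝ) / B + 1) * (7 * X * ell)
      ≤ (3 * X ^ 3) * (7 * X * ell) := by
        apply mul_le_mul_of_nonneg_right (by linarith)
        positivity
    _ = 21 * X ^ 4 * ell := by ring

open Classical in
noncomputable def setGa (X ell : ℝ) : Finset ℕ :=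
  (((((Icc 2 ⌊X⌋₊) ×ˢ (range (⌊5 * X * ell⌋₊ + 1))) ×ˢ (range (⌊X⌋₊ + 1))) ×ˢ
    (Icc 1 ⌊X ^ 20⌋₊)).filter (fun p => ell * p.1.1.1 / 20 ≤ Th p.1.1.2 p.1.1.1)).biUnion
    (fun p => (Aa X p.1.1.1 p.1.1.2 p.1.2 p.2).image (fun x => p.2 * x ^ 2 + p.1.2))

open Classical in
noncomputable def setGb (lo : ℕ) (X ell : ℝ) : Finset ℕ :=
  (((((Icc lo ⌊X⌋₊) ×ˢ (range (⌊5 * X * ell⌋₊ + 1))) ×ˢ (range (⌊X⌋₊ + 1))) ×ˢ
    (Icc 1 ⌊X ^ 990⌋₊)).filter (fun p => ell * p.1.1.1 / 20 ≤ Th p.1.1.2 p.1.1.1)).biUnion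
    (fun p => (Ab ell p.1.1.1 p.1.1.2 p.1.2 p.2).image (fun t => t * p.2 ^ 2 + p.1.2))

lemma tuple_card {X ell : ℝ} (hell0 : 0 < ell) (hX1 : 1 ≤ X) (hXe : 1 ≤ X * ell) (lo e : ℕ)
    (hlo : 1 ≤ lo) (P : ((ℕ × ℕ) × ℕ) × ℕ → Prop) [DecidablePred P] :
    ((((((Icc lo ⌊X⌋₊) ×ˢ (range (⌊5 * X * ell⌋₊ + 1))) ×ˢ (range (⌊X⌋₊ + 1))) ×ˢ
        (Icc 1 ⌊X ^ e⌋₊)).filter P).card : ℝ) ≤ X * (6 * X * ell) * (2 * X) * X ^ e := by
  have hX0 : 0 < X := by linarith
  have h0 : (((((Icc lo ⌊X⌋₊) ×ˢ (range (⌊5 * X * ell⌋₊ + 1))) ×ˢ (range (⌊X⌋₊ + 1))) ×ˢ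
        (Icc 1 ⌊X ^ e⌋₊)).filter P).card ≤
        ⌊X⌋₊ * (⌊5 * X * ell⌋₊ + 1) * (⌊X⌋₊ + 1) * ⌊X ^ e⌋₊ := by
    refine (Finset.card_filter_le _ _).trans ?_
    rw [Finset.card_product, Finset.card_product, Finset.card_product, card_range, card_range,
      Nat.card_Icc, Nat.card_Icc, Nat.add_sub_cancel]
    apply Nat.mul_le_mul_right
    apply Nat.mul_le_mul_right
    apply Nat.mul_le_mul_right
    omega
  have h1 : (⌊X⌋₊ : ℝ) ≤ X := Nat.floor_le hX0.le
  have h2 : (⌊5 * X * ell⌋₊ : ℝ) + 1 ≤ 6 * X * ell := by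
    have := Nat.floor_le (by positivity : 0 ≤ 5 * X * ell)
    linarith
  have h3 : (⌊X⌋₊ : ℝ) + 1 ≤ 2 * X := by linarith
  have h4 : ((⌊X ^ e⌋₊ : ℕ) : ℝ) ≤ X ^ e := Nat.floor_le (by positivity)
  refine (Nat.cast_le.mpr h0).trans ?_
  push_cast
  gcongr

lemma setGa_card {X ell : ℝ} (hell : ell = 2000 * Real.log X) (hell4 : 4000 ≤ ell) (hX : 2 ≤ X)
    (hpoly : 10000 * ell ^ 2 ≤ X) : ((setGa X ell).card : ℝ) ≤ X ^ 985 := by
  classical
  have hX0 : 0 < X := by linarith
  have hX1 : 1 ≤ X := by linarith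
  have hell0 : 0 < ell := by linarith
  unfold setGa
  refine (card_biUnion_real _ _ (21 * X ^ 961 * ell) ?_).trans ?_
  · rintro ⟨⟨⟨L, y⟩, i⟩, t⟩ hp
    simp only [mem_filter, mem_product, mem_Icc, mem_range] at hp
    obtain ⟨⟨⟨⟨⟨hL1, hL2⟩, hy⟩, hi⟩, ht1, ht2⟩, hTh⟩ := hp
    refine le_trans (Nat.cast_le.mpr Finset.card_image_le) ?_
    apply Aa_card hell hell4 hX hL1 ?_ ht1 ?_ hTh
    · have : (y:ℝ) ≤ (⌊5 * X * ell⌋₊ : ℝ) := by exact_mod_cast (by omega : y ≤ ⌊5 * X * ell⌋₊)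
      exact this.trans (Nat.floor_le (by positivity))
    · have : (t:ℝ) ≤ (⌊X ^ 20⌋₊ : ℝ) := by exact_mod_cast ht2
      exact this.trans (Nat.floor_le (by positivity))
  · have hXe : 1 ≤ X * ell := by nlinarith
    have hc := tuple_card hell0 hX1 hXe 2 20 (by norm_num)
      (fun p => ell * p.1.1.1 / 20 ≤ Th p.1.1.2 p.1.1.1)
    calc _ ≤ (X * (6 * X * ell) * (2 * X) * X ^ 20) * (21 * X ^ 961 * ell) :=
          mul_le_mul_of_nonneg_right hc (by positivity)
      _ = (252 * ell ^ 2) * X ^ 984 := by ring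
      _ ≤ X * X ^ 984 := by
          apply mul_le_mul_of_nonneg_right _ (by positivity)
          have : 0 ≤ ell ^ 2 := by positivity
          linarith
      _ = X ^ 985 := by ring

lemma setGb_card {X ell : ℝ} (hell : ell = 2000 * Real.log X) (hell4 : 4000 ≤ ell) (hX : 2 ≤ X)
    (hpoly : 10000 * ell ^ 2 ≤ X) (lo : ℕ) (hlo : 2000 ≤ lo) :
    ((setGb lo X ell).card : ℝ) ≤ X ^ 998 := by
  classical
  have hX0 : 0 < X := by linarith
  have hX1 : 1 ≤ X := by linarith
  have hell0 : 0 < ell := by linarith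
  unfold setGb
  refine (card_biUnion_real _ _ (21 * X ^ 4 * ell) ?_).trans ?_
  · rintro ⟨⟨⟨L, y⟩, i⟩, x⟩ hp
    simp only [mem_filter, mem_product, mem_Icc, mem_range] at hp
    obtain ⟨⟨⟨⟨⟨hL1, hL2⟩, hy⟩, hi⟩, hx1, hx2⟩, hTh⟩ := hp
    refine le_trans (Nat.cast_le.mpr Finset.card_image_le) ?_
    apply Ab_card hell hell4 hX (hlo.trans hL1) ?_ hx1 ?_ hTh
    · have : (y:ℝ) ≤ (⌊5 * X * ell⌋₊ : ℝ) := by exact_mod_cast (by omega : y ≤ ⌊5 * X * ell⌋₊)
      exact this.trans (Nat.floor_le (by positivity))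
    · have : (x:ℝ) ≤ (⌊X ^ 990⌋₊ : ℝ) := by exact_mod_cast hx2
      refine this.trans ((Nat.floor_le (by positivity)).trans ?_)
      exact pow_le_pow_right₀ hX1 (by norm_num)
  · have hXe : 1 ≤ X * ell := by nlinarith
    have hc := tuple_card hell0 hX1 hXe lo 990 (by omega)
      (fun p => ell * p.1.1.1 / 20 ≤ Th p.1.1.2 p.1.1.1)
    calc _ ≤ (X * (6 * X * ell) * (2 * X) * X ^ 990) * (21 * X ^ 4 * ell) :=
          mul_le_mul_of_nonneg_right hc (by positivity)
      _ = (252 * ell ^ 2) * X ^ 997 := by ring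
      _ ≤ X * X ^ 997 := by
          apply mul_le_mul_of_nonneg_right _ (by positivity)
          have : 0 ≤ ell ^ 2 := by positivity
          linarith
      _ = X ^ 998 := by ring

open Classical in
/-- short intervals: `2 ≤ L ≤ n^{1/2000}` -/
theorem blockG : ∀ᶠ n : ℕ in atTop,
    (((Ioc (n / 2) n).filter (fun m => ∃ y c, Conf y c c c m ∧ 2 ≤ m - c ∧
      ((m - c : ℕ) : ℝ) ≤ XX 2000 n)).card : ℝ) ≤ 4 * XX 2000 n ^ 998 := by
  classical
  have hD0 : 0 < 2000 := by norm_num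
  obtain ⟨M0, hM0⟩ := eventually_atTop.mp ybound
  obtain ⟨K0, hK0⟩ := two_pow_pi_eps (1 / 160000) (by norm_num)
  filter_upwards [XX_ge hD0 (10 ^ 15), log_ge (B := 10000), log_ge (B := K0),
    polylog_le hD0 10000 2, eventually_ge_atTop (2 * M0 + 2)] with n hXbig hell1 hellK hpoly hnM
  have hXD : XX 2000 n ^ 2000 = n := XX_pow hD0 n
  have hlogX := log_eq_XX hD0 n
  obtain ⟨X, hX⟩ : ∃ X, X = XX 2000 n := ⟨_, rfl⟩
  obtain ⟨ell, hell⟩ : ∃ ell, ell = Real.log n := ⟨_, rfl⟩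
  rw [← hX] at hXbig hpoly hXD hlogX ⊢
  rw [← hell] at hell1 hellK hpoly hlogX
  have hlogX' : ell = 2000 * Real.log X := by rw [hlogX]; norm_num
  have hX0 : 0 < X := by linarith
  have hX1 : 1 ≤ X := by linarith
  have hell0 : 0 < ell := by linarith
  have hnR : (0:ℝ) < n := by rw [← hXD]; positivity
  obtain ⟨Y, hY⟩ : ∃ Y, Y = ⌊8000 * ell⌋₊ := ⟨_, rfl⟩
  obtain ⟨Λ, hΛ⟩ : ∃ Λ, Λ = ⌊X⌋₊ := ⟨_, rfl⟩
  have hΛle : (Λ:ℝ) ≤ X := by rw [hΛ]; exact Nat.floor_le hX0.le
  have h8X : 8 * X ≤ n := by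
    rw [← hXD]
    calc 8 * X ≤ X * X := by nlinarith
      _ = X ^ 2 := by ring
      _ ≤ X ^ 2000 := pow_le_pow_right₀ hX1 (by norm_num)
  have h8Λ : 8 * Λ ≤ n := by
    have : (8:ℝ) * Λ ≤ n := by linarith
    exact_mod_cast this
  have h2000X : (2000:ℝ) ≤ X := by linarith
  have h2000 : 8 * 2000 ≤ n := by
    have : (8:ℝ) * 2000 ≤ n := by linarith
    exact_mod_cast this
  have hsub : (Ioc (n / 2) n).filter (fun m => ∃ y c, Conf y c c c m ∧ 2 ≤ m - c ∧
      ((m - c : ℕ) : ℝ) ≤ X) ⊆ setG2 n 2000 (smoothSF Y) ∪ setG2 n Λ (Icc 1 ⌊X ^ 240⌋₊) ∪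
        setGa X ell ∪ setGb 2000 X ell := by
    intro m hm
    rw [mem_filter, mem_Ioc] at hm
    obtain ⟨⟨hm1, hm2⟩, y, c, hC, hL2, hLX⟩ := hm
    have hcm := hC.hcm
    obtain ⟨L, hL⟩ : ∃ L, L = m - c := ⟨_, rfl⟩
    have hnm : n < 2 * m := by omega
    have hyb := hM0 m (by omega) y c c c hC
    rw [Nat.sub_self, Nat.cast_zero, add_zero] at hyb
    have hsum := sum_log_tf hC
    rw [← hL] at hL2 hLX hyb hsum
    have hLR : (2:ℝ) ≤ L := by exact_mod_cast hL2
    have hL0 : (0:ℝ) < L := by linarith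
    have hlogm : Real.log m ≤ ell := by
      rw [hell]
      apply Real.log_le_log
      · have : 0 < m := by omega
        exact_mod_cast this
      · exact_mod_cast hm2
    have hy : (y:ℝ) ≤ 4 * L * ell := by
      refine hyb.trans ?_
      apply mul_le_mul_of_nonneg_left hlogm (by positivity)
    have hy5 : (y:ℝ) ≤ 5 * X * ell := by
      calc (y:ℝ) ≤ 4 * L * ell := hy
        _ ≤ 4 * X * ell := by
            apply mul_le_mul_of_nonneg_right _ hell0.le
            linarith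
        _ ≤ 5 * X * ell := by
            apply mul_le_mul_of_nonneg_right _ hell0.le
            linarith
    have hmI : m ∈ Ioc c m := mem_Ioc.mpr ⟨hcm, le_rfl⟩
    have hmI1 : m - 1 ∈ Ioc c m := mem_Ioc.mpr ⟨by omega, by omega⟩
    rcases Nat.lt_or_ge L 2000 with hLs | hLs
    · -- bounded L
      have hLsR : (L:ℝ) < 2000 := by exact_mod_cast hLs
      have hsm : ∀ j ∈ Ioc c m, tf j ∈ smoothSF Y := by
        intro j hj
        apply mem_smoothSF (tf_sf j)
        intro q hq hd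
        by_contra hcon
        push Not at hcon
        have hqL : m - c < q := by
          have h1 : (2000:ℝ) ≤ Y := by
            rw [hY]
            have := Nat.lt_floor_add_one (8000 * ell)
            linarith
          have h2 : 2000 ≤ Y := by exact_mod_cast h1
          omega
        have h3 := mem_QQ_of_dvd hC hj hq hqL hd
        rw [mem_QQ] at h3
        have h4 : y ≤ Y := by
          rw [hY]
          apply Nat.le_floor
          calc (y:ℝ) ≤ 4 * L * ell := hy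
            _ ≤ 4 * 2000 * ell := by
                apply mul_le_mul_of_nonneg_right _ hell0.le
                linarith
            _ = 8000 * ell := by ring
        omega
      rw [mem_union, mem_union, mem_union]
      refine Or.inl (Or.inl (Or.inl ?_))
      exact mem_setG2 hnm hm2 (by omega) h2000 hmI1 hmI (by omega) (hsm _ hmI1) (hsm _ hmI)
    · have hLsR : (2000:ℝ) ≤ L := by exact_mod_cast hLs
      have hlogL : Real.log L ≤ ell / 2000 := by
        have h1 := Real.log_le_log hL0 hLX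
        linarith
      by_cases hTh : ell * L / 20 ≤ Th y L
      · -- large Theta
        have havg : ∃ j ∈ Ioc c m, Real.log (tf j) ≤ Th y L / L + ell / 1000 := by
          by_contra hcon
          push Not at hcon
          have h1 : ((Ioc c m).card : ℝ) * (Th y L / L + ell / 1000) <
              ∑ j ∈ Ioc c m, Real.log (tf j) := by
            rw [← nsmul_eq_mul, ← Finset.sum_const]
            exact Finset.sum_lt_sum_of_nonempty ⟨m, hmI⟩ hcon
          rw [Nat.card_Ioc, ← hL] at h1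
          have h2 : (L:ℝ) * (Th y L / L + ell / 1000) = Th y L + L * (ell / 1000) := by
            field_simp
          have h3 : (L:ℝ) * Real.log L + 1.4 * L ≤ L * (ell / 1000) := by
            have h4 : (L:ℝ) * Real.log L + 1.4 * L = L * (Real.log L + 1.4) := by ring
            rw [h4]
            apply mul_le_mul_of_nonneg_left _ hL0.le
            linarith
          linarith
        obtain ⟨j, hj, hlogt⟩ := havg
        have hjI := mem_Ioc.mp hj
        have hj0 : j ≠ 0 := by omega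
        have htpos : 0 < tf j := Nat.pos_of_ne_zero (tf_ne_zero j)
        have hxpos : 0 < xf j := Nat.pos_of_ne_zero (xf_ne_zero hj0)
        have htx := tx_eq j
        have hmeq : m = tf j * xf j ^ 2 + (m - j) := by rw [← htx]; omega
        have hmod : ∀ q ∈ QQ y L, (tf j * xf j ^ 2 + (m - j)) % q < L := by
          intro q hq
          rw [← hmeq, hL]
          exact mod_lt_of_QQ hC (by rw [← hL]; exact hq)
        have htxR : (tf j : ℝ) * (xf j : ℝ) ^ 2 ≤ X ^ 2000 := by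
          rw [hXD]
          have : tf j * xf j ^ 2 ≤ n := by rw [← htx]; omega
          exact_mod_cast this
        have hLfl : L ≤ ⌊X⌋₊ := Nat.le_floor hLX
        have hyfl : y < ⌊5 * X * ell⌋₊ + 1 := Nat.lt_succ_of_le (Nat.le_floor hy5)
        have hifl : m - j < ⌊X⌋₊ + 1 := by omega
        have htR : (1:ℝ) ≤ tf j := by exact_mod_cast htpos
        by_cases ht20 : (tf j : ℝ) ≤ X ^ 20
        · rw [mem_union, mem_union]
          refine Or.inl (Or.inr ?_)
          unfold setGa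
          rw [mem_biUnion]
          refine ⟨(((L, y), m - j), tf j), ?_, ?_⟩
          · simp only [mem_filter, mem_product, mem_Icc, mem_range]
            exact ⟨⟨⟨⟨⟨hL2, hLfl⟩, hyfl⟩, hifl⟩, htpos, Nat.le_floor ht20⟩, hTh⟩
          · rw [mem_image]
            refine ⟨xf j, ?_, hmeq.symm⟩
            unfold Aa
            rw [mem_filter, mem_Icc]
            refine ⟨⟨hxpos, Nat.le_floor ?_⟩, fun q hq _ => mem_Ra (QQ_prime hq).pos (hmod q hq)⟩
            have h1 : (xf j : ℝ) ^ 2 ≤ (X ^ 1000) ^ 2 := by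
              calc (xf j : ℝ) ^ 2 = 1 * (xf j : ℝ) ^ 2 := (one_mul _).symm
                _ ≤ (tf j : ℝ) * (xf j : ℝ) ^ 2 := mul_le_mul_of_nonneg_right htR (by positivity)
                _ ≤ X ^ 2000 := htxR
                _ = (X ^ 1000) ^ 2 := by rw [← pow_mul]
            exact le_of_sq_le_sq h1 (by positivity)
        · push Not at ht20
          rw [mem_union]
          refine Or.inr ?_
          unfold setGb
          rw [mem_biUnion]
          refine ⟨(((L, y), m - j), xf j), ?_, ?_⟩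
          · simp only [mem_filter, mem_product, mem_Icc, mem_range]
            refine ⟨⟨⟨⟨⟨hLs, hLfl⟩, hyfl⟩, hifl⟩, hxpos, Nat.le_floor ?_⟩, hTh⟩
            have h1 : (xf j : ℝ) ^ 2 ≤ (X ^ 990) ^ 2 := by
              have h2 : X ^ 20 * (xf j : ℝ) ^ 2 ≤ X ^ 20 * (X ^ 990) ^ 2 := by
                calc X ^ 20 * (xf j : ℝ) ^ 2 ≤ (tf j : ℝ) * (xf j : ℝ) ^ 2 :=
                      mul_le_mul_of_nonneg_right ht20.le (by positivity)
                  _ ≤ X ^ 2000 := htxR
                  _ = X ^ 20 * (X ^ 990) ^ 2 := by rw [← pow_mul, ← pow_add]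
              exact le_of_mul_le_mul_left h2 (by positivity)
            exact le_of_sq_le_sq h1 (by positivity)
          · rw [mem_image]
            refine ⟨tf j, ?_, hmeq.symm⟩
            unfold Ab
            rw [mem_filter, mem_Icc]
            refine ⟨⟨htpos, Nat.le_floor ?_⟩, fun q hq _ => mem_Rb (QQ_prime hq).pos (hmod q hq)⟩
            rw [← Real.log_le_iff_le_exp (by linarith)]
            exact hlogt
      · -- small Theta: two elements with small squarefree part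
        push Not at hTh
        obtain ⟨G, hG⟩ : ∃ G, G = (Ioc c m).filter (fun j => Real.log (tf j) ≤ 0.12 * ell) :=
          ⟨_, rfl⟩
        have hG2 : 1 < G.card := by
          by_contra hcon
          push Not at hcon
          have h1 := Finset.sum_filter_add_sum_filter_not (Ioc c m)
            (fun j => Real.log (tf j) ≤ 0.12 * ell) (fun j => Real.log (tf j : ℝ))
          have h2 : 0 ≤ ∑ j ∈ (Ioc c m).filter (fun j => Real.log (tf j) ≤ 0.12 * ell),
              Real.log (tf j : ℝ) := Finset.sum_nonneg fun j _ => log_tf_nonneg j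
          have h3 : (((Ioc c m).filter (fun j => ¬ Real.log (tf j) ≤ 0.12 * ell)).card : ℝ) *
              (0.12 * ell) ≤ ∑ j ∈ (Ioc c m).filter (fun j => ¬ Real.log (tf j) ≤ 0.12 * ell),
              Real.log (tf j : ℝ) := by
            rw [← nsmul_eq_mul]
            apply Finset.card_nsmul_le_sum
            intro j hj
            rw [mem_filter] at hj
            push Not at hj
            exact hj.2.le
          have h4 := Finset.card_filter_add_card_filter_not (s := Ioc c m)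
            (fun j => Real.log (tf j) ≤ 0.12 * ell)
          rw [← hG, Nat.card_Ioc, ← hL] at h4
          have h5 : ((L:ℝ) - 1) ≤
              (((Ioc c m).filter (fun j => ¬ Real.log (tf j) ≤ 0.12 * ell)).card : ℝ) := by
            have : L ≤ ((Ioc c m).filter (fun j => ¬ Real.log (tf j) ≤ 0.12 * ell)).card + 1 := by
              omega
            have h6 : (L:ℝ) ≤
              (((Ioc c m).filter (fun j => ¬ Real.log (tf j) ≤ 0.12 * ell)).card : ℝ) + 1 := by
              exact_mod_cast this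
            linarith
          have h6 : ((L:ℝ) - 1) * (0.12 * ell) ≤ L * Real.log L + 1.4 * L + Th y L := by
            refine le_trans (mul_le_mul_of_nonneg_right h5 (by positivity)) ?_
            linarith
          have h7 : (L:ℝ) * Real.log L + 1.4 * L ≤ L * (ell / 1000) := by
            have h8 : (L:ℝ) * Real.log L + 1.4 * L = L * (Real.log L + 1.4) := by ring
            rw [h8]
            apply mul_le_mul_of_nonneg_left _ hL0.le
            linarith
          have h8 : 0 < (L:ℝ) * ell := by positivity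
          have h9 : 2000 * ell ≤ L * ell := mul_le_mul_of_nonneg_right hLsR hell0.le
          nlinarith
        rw [Finset.one_lt_card] at hG2
        obtain ⟨a, ha, b, hb, hab⟩ := hG2
        rw [hG, mem_filter] at ha hb
        have hT : ∀ j, Real.log (tf j) ≤ 0.12 * ell → tf j ∈ Icc 1 ⌊X ^ 240⌋₊ := by
          intro j hj
          rw [mem_Icc]
          have htpos : 0 < tf j := Nat.pos_of_ne_zero (tf_ne_zero j)
          refine ⟨htpos, Nat.le_floor ?_⟩
          rw [← Real.log_le_log_iff (by exact_mod_cast htpos) (by positivity), Real.log_pow]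
          push_cast
          linarith
        rw [mem_union, mem_union, mem_union]
        refine Or.inl (Or.inl (Or.inr ?_))
        have hLΛ : m - c ≤ Λ := by rw [hΛ, ← hL]; exact Nat.le_floor hLX
        rcases lt_or_gt_of_ne hab with h | h
        · exact mem_setG2 hnm hm2 hLΛ h8Λ ha.1 hb.1 h (hT _ ha.2) (hT _ hb.2)
        · exact mem_setG2 hnm hm2 hLΛ h8Λ hb.1 ha.1 h (hT _ hb.2) (hT _ ha.2)
  -- sizes
  have hc3 := setGa_card hlogX' (by linarith) (by linarith) hpoly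
  have hc4 := setGb_card hlogX' (by linarith) (by linarith) hpoly 2000 le_rfl
  have hc1 : ((setG2 n 2000 (smoothSF Y)).card : ℝ) ≤ X ^ 998 := by
    have h1 := setG2_card n 2000 (smoothSF Y) (fun t ht => smoothSF_pos ht)
    have h2 : ((setG2 n 2000 (smoothSF Y)).card : ℝ) ≤ ((smoothSF Y).card : ℝ) ^ 2 * 10 ^ 15 := by
      have h3 : (setG2 n 2000 (smoothSF Y)).card ≤ (smoothSF Y).card ^ 2 * 10 ^ 15 := by
        refine h1.trans ?_
        rw [← mul_assoc, ← sq]
        apply Nat.mul_le_mul_left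
        norm_num
      exact_mod_cast h3
    have h4 : ((smoothSF Y).card : ℝ) ≤ X ^ 100 := by
      have h5 : ((smoothSF Y).card : ℝ) ≤ (2:ℝ) ^ ((Ioc 0 Y).filter Nat.Prime).card := by
        exact_mod_cast smoothSF_card Y
      have h6 : K0 ≤ Y := by
        rw [hY]
        apply Nat.le_floor
        linarith
      have h7 := hK0 Y h6
      have h8 : Real.exp (1 / 160000 * (Y:ℝ)) ≤ X ^ 100 := by
        rw [← Real.le_log_iff_exp_le (by positivity), Real.log_pow]
        have h9 : (Y:ℝ) ≤ 8000 * ell := by rw [hY]; exact Nat.floor_le (by positivity)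
        push_cast
        linarith
      exact h5.trans (h7.trans h8)
    calc ((setG2 n 2000 (smoothSF Y)).card : ℝ) ≤ ((smoothSF Y).card : ℝ) ^ 2 * 10 ^ 15 := h2
      _ ≤ (X ^ 100) ^ 2 * X := by
          apply mul_le_mul _ hXbig (by norm_num) (by positivity)
          exact pow_le_pow_left₀ (Nat.cast_nonneg _) h4 2
      _ = X ^ 201 := by ring
      _ ≤ X ^ 998 := pow_le_pow_right₀ hX1 (by norm_num)
  have hc2 : ((setG2 n Λ (Icc 1 ⌊X ^ 240⌋₊)).card : ℝ) ≤ X ^ 998 := by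
    have h1 := setG2_card n Λ (Icc 1 ⌊X ^ 240⌋₊) (fun t ht => (mem_Icc.mp ht).1)
    rw [Nat.card_Icc, Nat.add_sub_cancel] at h1
    have h2 : ((⌊X ^ 240⌋₊ : ℕ) : ℝ) ≤ X ^ 240 := Nat.floor_le (by positivity)
    calc ((setG2 n Λ (Icc 1 ⌊X ^ 240⌋₊)).card : ℝ)
        ≤ ((⌊X ^ 240⌋₊ * (⌊X ^ 240⌋₊ * (Λ * (((4 * Λ + 1) * (2 * Λ)) * (Λ + 1)))) : ℕ) : ℝ) := by
          exact_mod_cast h1
      _ = (⌊X ^ 240⌋₊ : ℝ) * ((⌊X ^ 240⌋₊ : ℝ) * (Λ * (((4 * Λ + 1) * (2 * Λ)) * (Λ + 1)))) := by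
          push_cast; ring
      _ ≤ X ^ 240 * (X ^ 240 * (X * (((4 * X + 1) * (2 * X)) * (X + 1)))) := by gcongr
      _ ≤ X ^ 240 * (X ^ 240 * (X * (((5 * X) * (2 * X)) * (2 * X)))) := by
          gcongr <;> linarith
      _ = 20 * X ^ 484 := by ring
      _ ≤ X * X ^ 484 := mul_le_mul_of_nonneg_right (by linarith) (by positivity)
      _ = X ^ 485 := by ring
      _ ≤ X ^ 998 := pow_le_pow_right₀ hX1 (by norm_num)
  have hc3' : X ^ 985 ≤ X ^ 998 := pow_le_pow_right₀ hX1 (by norm_num)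
  have hcard : (((Ioc (n / 2) n).filter (fun m => ∃ y c, Conf y c c c m ∧ 2 ≤ m - c ∧
      ((m - c : ℕ) : ℝ) ≤ X)).card : ℝ) ≤ ((setG2 n 2000 (smoothSF Y)).card : ℝ) +
        ((setG2 n Λ (Icc 1 ⌊X ^ 240⌋₊)).card : ℝ) + ((setGa X ell).card : ℝ) +
        ((setGb 2000 X ell).card : ℝ) := by
    have u1 := Finset.card_le_card hsub
    have u2 := Finset.card_union_le (setG2 n 2000 (smoothSF Y) ∪ setG2 n Λ (Icc 1 ⌊X ^ 240⌋₊) ∪
        setGa X ell) (setGb 2000 X ell)
    have u3 := Finset.card_union_le (setG2 n 2000 (smoothSF Y) ∪ setG2 n Λ (Icc 1 ⌊X ^ 240⌋₊))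
        (setGa X ell)
    have u4 := Finset.card_union_le (setG2 n 2000 (smoothSF Y)) (setG2 n Λ (Icc 1 ⌊X ^ 240⌋₊))
    have : ((Ioc (n / 2) n).filter (fun m => ∃ y c, Conf y c c c m ∧ 2 ≤ m - c ∧
      ((m - c : ℕ) : ℝ) ≤ X)).card ≤ (setG2 n 2000 (smoothSF Y)).card +
        (setG2 n Λ (Icc 1 ⌊X ^ 240⌋₊)).card + (setGa X ell).card + (setGb 2000 X ell).card := by omega
    exact_mod_cast this
  linarith

end Pool.Agent.Work.MP_0b7501_nt
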