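import Pool.Agent.Work.MP_0b7501_nt.F4
import Pool.Agent.Work.MP_0b7501_nt.G3
import Pool.Agent.Work.MP_0b7501_nt.Final456

/-!
`N_3(n)` has order `√n`.
-/

namespace Pool.Agent.Work.MP_0b7501_nt

open Finset Filter

lemma dvd_tf_iff {q m : ℕ} (hm : m ≠ 0) (hq : q.Prime) : q ∣ tf m ↔ ¬ Even (m.factorization q) := by
  constructor
  · intro h
    exact Nat.not_even_iff_odd.mpr (odd_of_dvd_tf hm hq h)
  · intro h
    by_contra hd
    apply h
    have e1 : m.factorization q = (tf m).factorization q + 2 * (xf m).factorization q := by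
      conv_lhs => rw [tx_eq m]
      have := xf_ne_zero hm
      rw [Nat.factorization_mul (tf_ne_zero m) (by positivity), Finsupp.add_apply,
        Nat.factorization_pow, Finsupp.smul_apply, smul_eq_mul]
    rw [e1, Nat.factorization_eq_zero_of_not_dvd hd, zero_add]
    exact even_two_mul _

open Classical in
/-- `m` such that `y! m` is a square -/
noncomputable def Ay (y n : ℕ) : Finset ℕ :=
  (Icc 1 n).filter (fun m => ∀ q, q.Prime → Even (ev q 0 y + m.factorization q))

lemma Ay_same {y n m m' : ℕ} (hm : m ∈ Ay y n) (hm' : m' ∈ Ay y n) : tf m = tf m' := by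
  classical
  unfold Ay at hm hm'
  rw [mem_filter, mem_Icc] at hm hm'
  have h0 : m ≠ 0 := by omega
  have h0' : m' ≠ 0 := by omega
  rw [← Nat.prod_primeFactors_of_squarefree (tf_sf m),
    ← Nat.prod_primeFactors_of_squarefree (tf_sf m')]
  congr 1
  ext q
  rw [Nat.mem_primeFactors, Nat.mem_primeFactors]
  constructor
  · rintro ⟨hq, hd, _⟩
    refine ⟨hq, ?_, tf_ne_zero _⟩
    rw [dvd_tf_iff h0' hq]
    rw [dvd_tf_iff h0 hq] at hd
    have h1 := hm.2 q hq
    have h2 := hm'.2 q hq
    rw [Nat.even_add] at h1 h2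
    intro h3
    exact hd (h1.mp (h2.mpr h3))
  · rintro ⟨hq, hd, _⟩
    refine ⟨hq, ?_, tf_ne_zero _⟩
    rw [dvd_tf_iff h0 hq]
    rw [dvd_tf_iff h0' hq] at hd
    have h1 := hm.2 q hq
    have h2 := hm'.2 q hq
    rw [Nat.even_add] at h1 h2
    intro h3
    exact hd (h2.mp (h1.mpr h3))

lemma Ay_card {y n : ℕ} (B : ℝ) (hB : 0 < B) (h : ∀ m ∈ Ay y n, B ^ 2 ≤ tf m) :
    ((Ay y n).card : ℝ) ≤ Real.sqrt n / B := by
  classical
  have h1 : (Ay y n).card ≤ (Icc 1 ⌊Real.sqrt n / B⌋₊).card := by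
    apply Finset.card_le_card_of_injOn xf
    · intro m hm
      rw [Finset.mem_coe] at hm
      have hb := h m hm
      unfold Ay at hm
      rw [mem_filter, mem_Icc] at hm
      have h0 : m ≠ 0 := by omega
      rw [Finset.mem_coe, mem_Icc]
      refine ⟨Nat.pos_of_ne_zero (xf_ne_zero h0), Nat.le_floor ?_⟩
      rw [le_div_iff₀ hB]
      apply Real.le_sqrt_of_sq_le
      rw [mul_pow]
      have h2 : ((tf m : ℝ)) * (xf m : ℝ) ^ 2 ≤ n := by
        have : tf m * xf m ^ 2 ≤ n := by rw [← tx_eq]; exact hm.1.2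
        exact_mod_cast this
      calc (xf m : ℝ) ^ 2 * B ^ 2 ≤ (xf m : ℝ) ^ 2 * tf m :=
            mul_le_mul_of_nonneg_left hb (by positivity)
        _ = (tf m : ℝ) * (xf m : ℝ) ^ 2 := by ring
        _ ≤ n := h2
    · intro m hm m' hm' hx
      have := Ay_same (Finset.mem_coe.mp hm) (Finset.mem_coe.mp hm')
      rw [tx_eq m, tx_eq m', this, hx]
  rw [Nat.card_Icc, Nat.add_sub_cancel] at h1
  calc ((Ay y n).card : ℝ) ≤ (⌊Real.sqrt n / B⌋₊ : ℝ) := by exact_mod_cast h1
    _ ≤ _ := Nat.floor_le (by positivity)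

open Classical in
lemma one_bound : ∃ C : ℝ, 0 < C ∧ ∀ n : ℕ,
    (((Icc 1 n).filter (fun m => ∃ y c, Conf y c c c m ∧ m - c = 1)).card : ℝ) ≤
      C * Real.sqrt n := by
  obtain ⟨Y0, hY0⟩ := exists_half_primes
  refine ⟨Y0 + 18, by positivity, fun n => ?_⟩
  have hsub : (Icc 1 n).filter (fun m => ∃ y c, Conf y c c c m ∧ m - c = 1) ⊆
      (range Y0).biUnion (fun y => Ay y n) ∪ (range (n + 1)).biUnion
        (fun y => if Y0 ≤ y then Ay y n else ∅) := by
    intro m hm
    rw [mem_filter, mem_Icc] at hm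
    obtain ⟨⟨hm1, hm2⟩, y, c, hC, hL⟩ := hm
    have hcm := hC.hcm
    have hya := hC.hya
    have hmem : m ∈ Ay y n := by
      unfold Ay
      rw [mem_filter, mem_Icc]
      refine ⟨⟨hm1, hm2⟩, fun q hq => ?_⟩
      have h1 := hC.par q hq
      rw [ev_self, add_zero] at h1
      have h2 : ev q c m = m.factorization q := by
        unfold ev
        have : Ioc c m = {m} := by ext j; simp only [mem_Ioc, mem_singleton]; omega
        rw [this, Finset.sum_singleton]
      rwa [h2] at h1
    rw [mem_union, mem_biUnion, mem_biUnion]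
    by_cases hy : Y0 ≤ y
    · right
      refine ⟨y, mem_range.mpr (by omega), ?_⟩
      rw [if_pos hy]
      exact hmem
    · left
      exact ⟨y, mem_range.mpr (by omega), hmem⟩
  have h1 : (((range Y0).biUnion (fun y => Ay y n)).card : ℝ) ≤ Y0 * Real.sqrt n := by
    have := card_biUnion_real (range Y0) (fun y => Ay y n) (Real.sqrt n) (by
      intro y _
      have := Ay_card (y := y) (n := n) 1 one_pos (by
        intro m _
        rw [one_pow]
        exact_mod_cast Nat.pos_of_ne_zero (tf_ne_zero m))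
      rwa [div_one] at this)
    rwa [card_range] at this
  have h2 : (((range (n + 1)).biUnion (fun y => if Y0 ≤ y then Ay y n else ∅)).card : ℝ) ≤
      18 * Real.sqrt n := by
    calc (((range (n + 1)).biUnion (fun y => if Y0 ≤ y then Ay y n else ∅)).card : ℝ)
        ≤ ∑ y ∈ range (n + 1), (((if Y0 ≤ y then Ay y n else ∅ : Finset ℕ)).card : ℝ) := by
          exact_mod_cast Finset.card_biUnion_le
      _ ≤ ∑ y ∈ range (n + 1), Real.sqrt n * Real.exp (-((y:ℝ) / 16)) := by
          apply Finset.sum_le_sum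
          intro y _
          by_cases hy : Y0 ≤ y
          · rw [if_pos hy]
            have h3 := Ay_card (y := y) (n := n) (Real.exp ((y:ℝ) / 16)) (Real.exp_pos _) (by
              intro m hm
              have h4 := hY0 y hy
              unfold Ay at hm
              rw [mem_filter, mem_Icc] at hm
              have h0 : m ≠ 0 := by omega
              have h5 : (∏ q ∈ (Ioc (y / 2) y).filter Nat.Prime, q) ∣ tf m := by
                apply Finset.prod_primes_dvd
                · intro q hq; rw [mem_filter] at hq; exact hq.2.prime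
                · intro q hq
                  rw [mem_filter, mem_Ioc] at hq
                  rw [dvd_tf_iff h0 hq.2]
                  have h6 := hm.2 q hq.2
                  rw [ev_short hq.2 hq.2.pos hq.1.2 (by omega)] at h6
                  intro h7
                  rw [Nat.even_add] at h6
                  exact absurd (h6.mpr h7) (by decide)
              have h6 := Nat.le_of_dvd (Nat.pos_of_ne_zero (tf_ne_zero m)) h5
              have h7 : Real.exp ((y:ℝ) / 4) ≤
                  ((∏ q ∈ (Ioc (y / 2) y).filter Nat.Prime, q : ℕ) : ℝ) := by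
                have hpos : (0:ℝ) < ((∏ q ∈ (Ioc (y / 2) y).filter Nat.Prime, q : ℕ) : ℝ) := by
                  have : 0 < ∏ q ∈ (Ioc (y / 2) y).filter Nat.Prime, q := by
                    apply Finset.prod_pos
                    intro q hq
                    rw [mem_filter] at hq
                    exact hq.2.pos
                  exact_mod_cast this
                rw [← Real.le_log_iff_exp_le hpos]
                refine h4.trans (le_of_eq ?_)
                push_cast
                rw [Real.log_prod]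
                intro q hq
                rw [mem_filter] at hq
                exact_mod_cast hq.2.pos.ne'
              calc Real.exp ((y:ℝ) / 16) ^ 2 = Real.exp ((y:ℝ) / 8) := by
                    rw [← Real.exp_nat_mul]; congr 1; push_cast; ring
                _ ≤ Real.exp ((y:ℝ) / 4) := by
                    apply Real.exp_le_exp.mpr
                    have : (0:ℝ) ≤ y := Nat.cast_nonneg y
                    linarith
                _ ≤ ((∏ q ∈ (Ioc (y / 2) y).filter Nat.Prime, q : ℕ) : ℝ) := h7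
                _ ≤ tf m := by exact_mod_cast h6)
            rw [Real.exp_neg, ← div_eq_mul_inv]
            exact h3
          · rw [if_neg hy]
            simp only [card_empty, Nat.cast_zero]
            positivity
      _ = Real.sqrt n * ∑ y ∈ range (n + 1), Real.exp (-((y:ℝ) / 16)) := by rw [Finset.mul_sum]
      _ ≤ Real.sqrt n * 18 := by
          apply mul_le_mul_of_nonneg_left _ (Real.sqrt_nonneg _)
          have h3 : range (n + 1) = insert 0 (Ioc 0 n) := by
            ext y; simp only [mem_range, mem_insert, mem_Ioc]; omega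
          rw [h3, Finset.sum_insert (by simp)]
          have h4 := sum_exp_le 0 n
          simp only [Nat.cast_zero, zero_div, neg_zero, Real.exp_zero] at h4 ⊢
          linarith
      _ = _ := by ring
  have h3 := (Finset.card_le_card hsub).trans (Finset.card_union_le _ _)
  have h4 : (((Icc 1 n).filter (fun m => ∃ y c, Conf y c c c m ∧ m - c = 1)).card : ℝ) ≤
      (((range Y0).biUnion (fun y => Ay y n)).card : ℝ) +
      (((range (n + 1)).biUnion (fun y => if Y0 ≤ y then Ay y n else ∅)).card : ℝ) := by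
    exact_mod_cast h3
  have h5 : ((Y0:ℝ) + 18) * Real.sqrt n = Y0 * Real.sqrt n + 18 * Real.sqrt n := by ring
  linarith

open Classical in
/-- endpoints of configurations with a last interval of length at least two -/
noncomputable def S2 (n : ℕ) : Finset ℕ :=
  (Icc 1 n).filter (fun m => ∃ y c, Conf y c c c m ∧ 2 ≤ m - c)

open Classical in
lemma S2_step : ∀ᶠ n : ℕ in atTop, ((S2 n).card : ℝ) ≤ (S2 (n / 2)).card + 5 * XX 2000 n ^ 998 := by
  filter_upwards [blockG, blockF, XX_ge (by norm_num : 0 < 2000) 1] with n hG hF hX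
  have hsub : S2 n ⊆ S2 (n / 2) ∪ ((Ioc (n / 2) n).filter (fun m => ∃ y c, Conf y c c c m ∧
      2 ≤ m - c ∧ ((m - c : ℕ) : ℝ) ≤ XX 2000 n) ∪ (Ioc (n / 2) n).filter
        (fun m => ∃ y c, Conf y c c c m ∧ XX 2000 n ≤ ((m - c : ℕ) : ℝ))) := by
    intro m hm
    unfold S2 at hm ⊢
    rw [mem_filter, mem_Icc] at hm
    obtain ⟨⟨hm1, hm2⟩, y, c, hC, hL⟩ := hm
    rw [mem_union, mem_union, mem_filter, mem_filter, mem_filter, mem_Icc, mem_Ioc]
    by_cases h1 : m ≤ n / 2
    · exact Or.inl ⟨⟨hm1, h1⟩, y, c, hC, hL⟩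
    · right
      push Not at h1
      rcases le_total ((m - c : ℕ) : ℝ) (XX 2000 n) with h2 | h2
      · exact Or.inl ⟨⟨h1, hm2⟩, y, c, hC, hL, h2⟩
      · exact Or.inr ⟨⟨h1, hm2⟩, y, c, hC, h2⟩
  have u1 := (Finset.card_le_card hsub).trans (Finset.card_union_le _ _)
  have u2 := Finset.card_union_le ((Ioc (n / 2) n).filter (fun m => ∃ y c, Conf y c c c m ∧
      2 ≤ m - c ∧ ((m - c : ℕ) : ℝ) ≤ XX 2000 n)) ((Ioc (n / 2) n).filter
        (fun m => ∃ y c, Conf y c c c m ∧ XX 2000 n ≤ ((m - c : ℕ) : ℝ)))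
  have u3 : ((S2 n).card : ℝ) ≤ (S2 (n / 2)).card +
      (((Ioc (n / 2) n).filter (fun m => ∃ y c, Conf y c c c m ∧
      2 ≤ m - c ∧ ((m - c : ℕ) : ℝ) ≤ XX 2000 n)).card + ((Ioc (n / 2) n).filter
        (fun m => ∃ y c, Conf y c c c m ∧ XX 2000 n ≤ ((m - c : ℕ) : ℝ))).card) := by
    exact_mod_cast u1.trans (Nat.add_le_add_left u2 _)
  have h801 : XX 2000 n ^ 801 ≤ XX 2000 n ^ 998 := pow_le_pow_right₀ hX (by norm_num)
  linarith

lemma S2_bound : ∃ A : ℝ, 0 ≤ A ∧ ∀ n : ℕ,
    ((S2 n).card : ℝ) ≤ A + 20 * (n:ℝ) ^ (0.499 : ℝ) := by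
  classical
  obtain ⟨N0, hN0⟩ := eventually_atTop.mp S2_step
  refine ⟨N0 + 1, by positivity, ?_⟩
  intro n
  induction n using Nat.strong_induction_on with
  | _ n ih =>
    have hpos : (0:ℝ) ≤ (n:ℝ) ^ (0.499 : ℝ) := by positivity
    rcases Nat.lt_or_ge n (N0 + 1) with h | h
    · have h1 : (S2 n).card ≤ n := by
        unfold S2
        refine (Finset.card_filter_le _ _).trans ?_
        rw [Nat.card_Icc, Nat.add_sub_cancel]
      have h2 : ((S2 n).card : ℝ) ≤ n := by exact_mod_cast h1
      have h3 : (n:ℝ) ≤ N0 + 1 := by exact_mod_cast h.le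
      linarith
    · have h1 := hN0 n (by omega)
      have h2 := ih (n / 2) (by omega)
      have h3 : XX 2000 n ^ 998 = (n:ℝ) ^ (0.499 : ℝ) := by
        unfold XX
        rw [← Real.rpow_natCast, ← Real.rpow_mul (Nat.cast_nonneg _)]
        congr 1
        norm_num
      have h4 : ((n / 2 : ℕ) : ℝ) ^ (0.499 : ℝ) ≤ 3 / 4 * (n:ℝ) ^ (0.499 : ℝ) := by
        have h5 : ((n / 2 : ℕ) : ℝ) ≤ (1 / 2) * n := by
          have : ((n / 2 : ℕ) : ℝ) ≤ (n:ℝ) / 2 := Nat.cast_div_le
          linarith
        calc ((n / 2 : ℕ) : ℝ) ^ (0.499 : ℝ) ≤ ((1 / 2) * (n:ℝ)) ^ (0.499 : ℝ) :=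
              Real.rpow_le_rpow (Nat.cast_nonneg _) h5 (by norm_num)
          _ = (1 / 2 : ℝ) ^ (0.499 : ℝ) * (n:ℝ) ^ (0.499 : ℝ) :=
              Real.mul_rpow (by norm_num) (Nat.cast_nonneg _)
          _ ≤ 3 / 4 * (n:ℝ) ^ (0.499 : ℝ) := by
              apply mul_le_mul_of_nonneg_right _ hpos
              rw [← Real.log_le_log_iff (by positivity) (by norm_num), Real.log_rpow (by norm_num)]
              have e1 : Real.log (1 / 2 : ℝ) = - Real.log 2 := by
                rw [one_div, Real.log_inv]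
              have e2 : Real.log (3 / 4 : ℝ) = - Real.log (4 / 3) := by
                rw [← Real.log_inv]; norm_num
              have e3 : Real.log (4 / 3 : ℝ) ≤ 4 / 3 - 1 := Real.log_le_sub_one_of_pos (by norm_num)
              have e4 := Real.log_two_gt_d9
              rw [e1, e2]
              linarith
      rw [h3] at h1
      linarith

theorem n3_upper : ∃ C : ℝ, 0 < C ∧ ∀ᶠ n : ℕ in atTop, (cnt 3 n : ℝ) ≤ C * Real.sqrt n := by
  classical
  obtain ⟨C, hC, h1⟩ := one_bound
  obtain ⟨A, hA, h2⟩ := S2_bound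
  refine ⟨C + A + 20, by positivity, ?_⟩
  filter_upwards [eventually_ge_atTop 1] with n hn
  have hnR : (1:ℝ) ≤ n := by exact_mod_cast hn
  have hsub : (Icc 1 n).filter (fun m => InD 3 m) ⊆
      (Icc 1 n).filter (fun m => ∃ y c, Conf y c c c m ∧ m - c = 1) ∪ S2 n := by
    intro m hm
    rw [mem_filter] at hm
    obtain ⟨hmI, _, hrep, _⟩ := hm
    obtain ⟨y, c, hConf⟩ := conf3 hrep
    have hcm := hConf.hcm
    rw [mem_union]
    rcases Nat.lt_or_ge (m - c) 2 with h | h
    · left
      rw [mem_filter]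
      exact ⟨hmI, y, c, hConf, by omega⟩
    · right
      unfold S2
      rw [mem_filter]
      exact ⟨hmI, y, c, hConf, h⟩
  have h3 := (Finset.card_le_card hsub).trans (Finset.card_union_le _ _)
  have h4 : (cnt 3 n : ℝ) ≤
      (((Icc 1 n).filter (fun m => ∃ y c, Conf y c c c m ∧ m - c = 1)).card : ℝ) +
      ((S2 n).card : ℝ) := by
    unfold cnt
    exact_mod_cast h3
  have h5 : (n:ℝ) ^ (0.499 : ℝ) ≤ Real.sqrt n := by
    rw [Real.sqrt_eq_rpow]
    exact Real.rpow_le_rpow_of_exponent_le hnR (by norm_num)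
  have h6 : 1 ≤ Real.sqrt n := by
    rw [Real.one_le_sqrt]; exact hnR
  have h7 : A * 1 ≤ A * Real.sqrt n := mul_le_mul_of_nonneg_left h6 hA
  have h8 : (C + A + 20) * Real.sqrt n = C * Real.sqrt n + A * Real.sqrt n + 20 * Real.sqrt n := by
    ring
  have h9 := h1 n
  have h10 := h2 n
  linarith

/-- `m = 2 s²` has a representation of length 3 -/
lemma rep3_of {s : ℕ} (hs : 2 ≤ s) : HasRep 3 (2 * s ^ 2) := by
  have h4 : 4 ≤ s ^ 2 := by
    calc 4 = 2 ^ 2 := by norm_num
      _ ≤ s ^ 2 := Nat.pow_le_pow_left hs 2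
  refine ⟨{2, 2 * s ^ 2 - 1, 2 * s ^ 2}, ?_, by simp, ?_, ?_⟩
  · rw [Finset.card_insert_of_notMem, Finset.card_insert_of_notMem, Finset.card_singleton]
    all_goals simp only [mem_insert, mem_singleton]; omega
  · intro a ha
    simp only [mem_insert, mem_singleton] at ha
    omega
  · rw [Finset.prod_insert (by simp only [mem_insert, mem_singleton]; omega),
      Finset.prod_insert (by simp only [mem_singleton]; omega), Finset.prod_singleton,
      fac_succ' (by omega : 1 ≤ 2 * s ^ 2)]
    exact ⟨2 * s * (2 * s ^ 2 - 1).factorial, by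
      rw [Nat.factorial_two]; ring⟩

theorem n3_lower : ∃ c : ℝ, 0 < c ∧ ∀ᶠ n : ℕ in atTop, c * Real.sqrt n ≤ (cnt 3 n : ℝ) := by
  classical
  obtain ⟨A, hA, h2⟩ := S2_bound
  refine ⟨1 / 4, by norm_num, ?_⟩
  -- n^{0.499} is small
  have hsmall : ∀ᶠ n : ℕ in atTop, A + 4 + 20 * (n:ℝ) ^ (0.499 : ℝ) ≤ 1 / 4 * Real.sqrt n := by
    have h3 : Tendsto (fun n : ℕ => (n:ℝ) ^ (0.001 : ℝ)) atTop atTop :=
      (tendsto_rpow_atTop (by norm_num)).comp tendsto_natCast_atTop_atTop
    filter_upwards [h3.eventually_ge_atTop (4 * (A + 24)), eventually_ge_atTop 1] with n hn hn1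
    have hnR : (1:ℝ) ≤ n := by exact_mod_cast hn1
    have h4 : Real.sqrt n = (n:ℝ) ^ (0.499 : ℝ) * (n:ℝ) ^ (0.001 : ℝ) := by
      rw [Real.sqrt_eq_rpow, ← Real.rpow_add (by linarith)]
      congr 1
      norm_num
    have h5 : 1 ≤ (n:ℝ) ^ (0.499 : ℝ) := Real.one_le_rpow hnR (by norm_num)
    have h6 : (n:ℝ) ^ (0.499 : ℝ) * (4 * (A + 24)) ≤ Real.sqrt n := by
      rw [h4]
      exact mul_le_mul_of_nonneg_left hn (by linarith)
    have h7 : (A + 4) * 1 ≤ (A + 4) * (n:ℝ) ^ (0.499 : ℝ) :=
      mul_le_mul_of_nonneg_left h5 (by linarith)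
    linarith
  filter_upwards [hsmall, eventually_ge_atTop 1] with n hs hn1
  obtain ⟨R, hR⟩ : ∃ R, R = ⌊Real.sqrt n / 2⌋₊ := ⟨_, rfl⟩
  have hRle : (R:ℝ) ≤ Real.sqrt n / 2 := by rw [hR]; exact Nat.floor_le (by positivity)
  have hRge : Real.sqrt n / 2 - 1 ≤ R := by
    have := Nat.lt_floor_add_one (Real.sqrt n / 2)
    rw [← hR] at this
    linarith
  have hsub : ((Icc 2 R).image (fun s => 2 * s ^ 2)) \ S2 n ⊆ (Icc 1 n).filter (fun m => InD 3 m) := by
    intro m hm
    rw [Finset.mem_sdiff, mem_image] at hm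
    obtain ⟨⟨s, hs, rfl⟩, hnS⟩ := hm
    rw [mem_Icc] at hs
    have hle : 2 * s ^ 2 ≤ n := by
      have h3 : (s:ℝ) ≤ Real.sqrt n / 2 := le_trans (by exact_mod_cast hs.2) hRle
      have h4 : (s:ℝ) ^ 2 ≤ (Real.sqrt n / 2) ^ 2 := pow_le_pow_left₀ (Nat.cast_nonneg _) h3 2
      rw [div_pow, Real.sq_sqrt (Nat.cast_nonneg _)] at h4
      have h5 : (2:ℝ) * (s:ℝ) ^ 2 ≤ n := by
        have : (0:ℝ) ≤ n := Nat.cast_nonneg n
        linarith
      exact_mod_cast h5
    have hs0 : 0 < s := by omega
    have hpos : 1 ≤ 2 * s ^ 2 := Nat.mul_pos (by norm_num) (pow_pos hs0 2)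
    rw [mem_filter, mem_Icc]
    refine ⟨⟨hpos, hle⟩, by norm_num, rep3_of hs.1, ?_⟩
    intro j hj1 hj2
    interval_cases j
    intro hrep
    obtain ⟨c, hConf⟩ := conf2 hrep
    have hcm := hConf.hcm
    rcases Nat.lt_or_ge (2 * s ^ 2 - c) 2 with h | h
    · -- m would be a square
      have h3 := hConf.par 2 Nat.prime_two
      rw [ev_self, ev_self, zero_add, zero_add] at h3
      have h4 : ev 2 c (2 * s ^ 2) = (2 * s ^ 2).factorization 2 := by
        unfold ev
        have : Ioc c (2 * s ^ 2) = {2 * s ^ 2} := by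
          ext j; simp only [mem_Ioc, mem_singleton]; omega
        rw [this, Finset.sum_singleton]
      rw [h4, Nat.factorization_mul (by norm_num) (by positivity), Finsupp.add_apply,
        Nat.prime_two.factorization_self, Nat.factorization_pow, Finsupp.smul_apply,
        smul_eq_mul] at h3
      rw [Nat.even_iff] at h3
      omega
    · apply hnS
      unfold S2
      rw [mem_filter, mem_Icc]
      exact ⟨⟨hpos, hle⟩, 0, c, hConf, h⟩
  have hcardI : ((Icc 2 R).image (fun s => 2 * s ^ 2)).card = (Icc 2 R).card := by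
    apply Finset.card_image_of_injective
    intro a b h
    simp only at h
    have h3 : a ^ 2 = b ^ 2 := by omega
    exact Nat.pow_left_injective (by norm_num : 2 ≠ 0) h3
  have h3 : ((Icc 2 R).image (fun s => 2 * s ^ 2)).card ≤ cnt 3 n + (S2 n).card := by
    have h4 := Finset.card_sdiff_add_card ((Icc 2 R).image (fun s => 2 * s ^ 2)) (S2 n)
    have h5 := Finset.card_le_card (Finset.subset_union_left
      (s₁ := (Icc 2 R).image (fun s => 2 * s ^ 2)) (s₂ := S2 n))
    have h6 := Finset.card_le_card hsub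
    unfold cnt
    omega
  rw [hcardI, Nat.card_Icc] at h3
  have h4 : (R:ℝ) ≤ (cnt 3 n : ℝ) + ((S2 n).card : ℝ) + 1 := by
    have : R ≤ cnt 3 n + (S2 n).card + 1 := by omega
    exact_mod_cast this
  have h5 := h2 n
  linarith

end Pool.Agent.Work.MP_0b7501_nt
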