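import Pool.Agent.Work.MP_0b7501_nt.Bad4

/-!
The structural theorem: configurations with a large prime factor fall into exceptional sets.
Cases A, G, B.
-/

namespace Pool.Agent.Work.MP_0b7501_nt

open Finset Filter

/-- a configuration with `m = p v` in `(n/2, n]`, and numerical facts -/
structure Setup (D n m p v w y a b c : ℕ) (X ell : ℝ) : Prop where
  hX : XX D n = X
  hell : Real.log n = ell
  X1000 : 1000 ≤ X
  ell1000 : 1000 ≤ ell
  ellX : 1000 * ell ^ 2 ≤ X
  hD : 300 ≤ D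
  hC : Conf y a b c m
  hm : m = p * v
  hp : p.Prime
  hn : n < 2 * m
  hmn : m ≤ n
  hvX : (v:ℝ) ≤ X
  hpv : ¬ p ∣ v
  hpy : y < p
  hpc : m - c < p
  hpb : b - a < p
  hw1 : 1 ≤ w
  hwv : w < v
  hw : p * w ∈ Ioc a b
  hy : (y:ℝ) ≤ 4 * (((m - c : ℕ) : ℝ) + ((b - a : ℕ) : ℝ)) * ell
  hR2 : (max (m - c) (b - a)) ^ 10 < m ^ 9

variable {D n m p v w y a b c : ℕ} {X ell : ℝ}

lemma Setup.ellX' (h : Setup D n m p v w y a b c X ell) : 1000 * ell ≤ X := by
  have h1 := h.ell1000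
  have h2 := h.ellX
  have h3 : ell ≤ ell ^ 2 := by nlinarith
  linarith

/-- case A -/
lemma Setup.caseA (h : Setup D n m p v w y a b c X ell) (h1 : 2 ≤ m - c)
    (h2 : ((m - c : ℕ) : ℝ) ≤ X ^ 8) (h3 : ((b - a : ℕ) : ℝ) ≤ X ^ 8) : m ∈ badA D n := by
  classical
  have hcm := h.hC.hcm
  have hX := h.X1000
  have hellX := h.ellX'
  unfold badA
  rw [mem_filter, mem_Icc, h.hX]
  refine ⟨⟨by omega, h.hmn⟩, ?_⟩
  intro q hq hqZ
  have hqR : X ^ 10 < q := (Nat.floor_lt (by positivity)).mp hqZ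
  have hX8 : (0:ℝ) < X ^ 8 := by positivity
  have hell := h.ell1000
  apply even_of_large h.hC h.hm h.hw1 h.hwv h.hw hq
  · have e1 : (y:ℝ) ≤ X ^ 10 := by
      calc (y:ℝ) ≤ 4 * (((m - c : ℕ) : ℝ) + ((b - a : ℕ) : ℝ)) * ell := h.hy
        _ ≤ 4 * (X ^ 8 + X ^ 8) * ell := by
            apply mul_le_mul_of_nonneg_right _ (by linarith)
            linarith
        _ = (8 * ell) * X ^ 8 := by ring
        _ ≤ (X * X) * X ^ 8 := by
            apply mul_le_mul_of_nonneg_right _ hX8.le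
            nlinarith
        _ = X ^ 10 := by ring
    exact_mod_cast lt_of_le_of_lt e1 hqR
  · have e1 : ((v * ((m - c) + (b - a)) : ℕ) : ℝ) ≤ X ^ 10 := by
      push_cast
      calc (v:ℝ) * (((m - c : ℕ) : ℝ) + ((b - a : ℕ) : ℝ)) ≤ X * (X ^ 8 + X ^ 8) :=
            mul_le_mul h.hvX (by linarith) (by positivity) (by linarith)
        _ = (2 * X) * X ^ 8 := by ring
        _ ≤ (X * X) * X ^ 8 := by
            apply mul_le_mul_of_nonneg_right _ hX8.le
            nlinarith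
        _ = X ^ 10 := by ring
    exact_mod_cast lt_of_le_of_lt e1 hqR
  · omega
  · rw [mul_one]
    intro hd
    have := Nat.le_of_dvd h.hw1 hd
    have := h.hwv
    omega

lemma log_two_Q_nonneg (T Q : ℕ) : 0 ≤ (T:ℝ) / (64 * Real.log (2 * Q)) := by
  rcases Nat.eq_zero_or_pos Q with h | h
  · subst h; simp
  · have : 0 ≤ Real.log (2 * Q) := by
      apply Real.log_nonneg
      have : (1:ℝ) ≤ Q := by exact_mod_cast h
      linarith
    positivity

/-- case G -/
lemma Setup.caseG (h : Setup D n m p v w y a b c X ell) (h1 : X ^ 5 ≤ ((m - c : ℕ) : ℝ))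
    (h2 : ((b - a : ℕ) : ℝ) ≤ X ^ 2 * ((m - c : ℕ) : ℝ)) : m ∈ badG D n := by
  classical
  have hcm := h.hC.hcm
  have hX := h.X1000
  have hX0 : 0 < X := by linarith
  have hellX := h.ellX'
  have hell := h.ell1000
  have hmn := h.hmn
  obtain ⟨L1, hL1⟩ : ∃ L1, L1 = m - c := ⟨_, rfl⟩
  rw [← hL1] at h1 h2
  have hL1pos : 0 < L1 := by omega
  have hX5 : X ≤ X ^ 5 := le_self_pow₀ (by linarith) (by norm_num)
  obtain ⟨s, hs⟩ : ∃ s, s = Nat.log 2 L1 := ⟨_, rfl⟩
  have hsle : 2 ^ s ≤ L1 := by rw [hs]; exact Nat.pow_log_le_self 2 (by omega)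
  have hslt : L1 < 2 ^ (s + 1) := by rw [hs]; exact Nat.lt_pow_succ_log_self (by norm_num) _
  have hsltR : (L1:ℝ) < 2 * (2:ℝ) ^ s := by
    have : (L1:ℝ) < (2:ℝ) ^ (s + 1) := by exact_mod_cast hslt
    rw [pow_succ] at this
    linarith
  have hs1 : 1 ≤ s := by
    by_contra hcon
    have h0 : s = 0 := by omega
    rw [h0] at hslt
    have h3 : L1 ≤ 1 := by norm_num at hslt; omega
    have h4 : (L1:ℝ) ≤ 1 := by exact_mod_cast h3
    linarith
  have hT10 : (2 ^ s) ^ 10 ≤ n ^ 9 := by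
    calc (2 ^ s) ^ 10 ≤ L1 ^ 10 := Nat.pow_le_pow_left hsle 10
      _ ≤ (max (m - c) (b - a)) ^ 10 := Nat.pow_le_pow_left (by rw [hL1]; exact le_max_left _ _) 10
      _ ≤ m ^ 9 := h.hR2.le
      _ ≤ n ^ 9 := Nat.pow_le_pow_left hmn 9
  -- the modulus
  have hv0 : 0 < v := by have := h.hwv; omega
  obtain ⟨g, hg⟩ : ∃ g, g = Nat.gcd v w := ⟨_, rfl⟩
  have hg0 : 0 < g := by rw [hg]; exact Nat.gcd_pos_of_pos_left _ hv0
  have hgv : g ∣ v := by rw [hg]; exact Nat.gcd_dvd_left _ _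
  have hgw : g ∣ w := by rw [hg]; exact Nat.gcd_dvd_right _ _
  obtain ⟨l, hl⟩ : ∃ l, l = v / g := ⟨_, rfl⟩
  have hlv : l * g = v := by rw [hl]; exact Nat.div_mul_cancel hgv
  have hl2 : 2 ≤ l := by
    by_contra hcon
    push Not at hcon
    have h3 : l = 0 ∨ l = 1 := by omega
    rcases h3 with h3 | h3
    · rw [h3, zero_mul] at hlv; omega
    · rw [h3, one_mul] at hlv
      have := Nat.le_of_dvd h.hw1 hgw
      have := h.hwv
      omega
  have hlX : l ≤ ⌊X⌋₊ := by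
    apply Nat.le_floor
    refine le_trans ?_ h.hvX
    have : l ≤ v := by rw [hl]; exact Nat.div_le_self _ _
    exact_mod_cast this
  have hldvd : ∀ i, v ∣ w * i → l ∣ i := by
    intro i hi
    have hcop : Nat.Coprime l (w / g) := by
      rw [hl, hg]
      exact Nat.coprime_div_gcd_div_gcd (by rw [← hg]; exact hg0)
    have h3 : l * g ∣ (w / g * i) * g := by
      rw [hlv]
      have : w / g * i * g = w * i := by
        calc w / g * i * g = (w / g * g) * i := by ring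
          _ = w * i := by rw [Nat.div_mul_cancel hgw]
      rw [this]; exact hi
    have h4 : l ∣ w / g * i := Nat.dvd_of_mul_dvd_mul_right hg0 h3
    exact hcop.dvd_of_dvd_mul_left h4
  unfold badG
  rw [h.hX, mem_biUnion]
  refine ⟨s, ?_, ?_⟩
  · rw [mem_filter]
    refine ⟨two_pow_le_imp (by omega : 2 ^ s ≤ n), ?_, hs1, hT10⟩
    have : (0:ℝ) < 2 ^ s := by positivity
    linarith
  rw [mem_biUnion]
  refine ⟨l, mem_Icc.mpr ⟨hl2, hlX⟩, ?_⟩
  unfold badW
  rw [mem_filter, mem_Icc]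
  refine ⟨⟨by omega, hmn⟩, ?_⟩
  have hempty : wset (2 ^ s) (2 ^ s * (⌊X ^ 5⌋₊ + 1)) l m = ∅ := by
    rw [Finset.eq_empty_iff_forall_notMem]
    intro q hq
    unfold wset at hq
    rw [mem_filter, mem_Ioc] at hq
    obtain ⟨⟨hq1, _⟩, hqp, i, hi, hli, him, hd, hd2⟩ := hq
    -- q is large
    have hqR : (L1:ℝ) * X ^ 5 < 2 * q := by
      have e1 : (((2 ^ s * (⌊X ^ 5⌋₊ + 1) : ℕ)) : ℝ) < q := by exact_mod_cast hq1
      push_cast at e1
      have e2 := Nat.lt_floor_add_one (X ^ 5)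
      have e3 : (2:ℝ) ^ s * X ^ 5 ≤ 2 ^ s * ((⌊X ^ 5⌋₊ : ℝ) + 1) :=
        mul_le_mul_of_nonneg_left e2.le (by positivity)
      have e4 : (L1:ℝ) * X ^ 5 ≤ (2 * (2:ℝ) ^ s) * X ^ 5 :=
        mul_le_mul_of_nonneg_right hsltR.le (by positivity)
      linarith
    have hL1R : (0:ℝ) < L1 := by exact_mod_cast hL1pos
    have hfac := factorization_eq_one hqp (by omega : m - i ≠ 0) hd hd2
    have heven := even_of_large (i := i) h.hC h.hm h.hw1 h.hwv h.hw hqp ?_ ?_ (by omega)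
      (fun hdv => hli (hldvd i hdv))
    · rw [hfac] at heven
      exact absurd heven (by decide)
    · -- y < q
      have e1 : (y:ℝ) ≤ 4 * ((L1:ℝ) + X ^ 2 * L1) * ell := by
        refine h.hy.trans ?_
        rw [← hL1]
        apply mul_le_mul_of_nonneg_right _ (by linarith)
        linarith
      have e2 : 4 * ((L1:ℝ) + X ^ 2 * L1) * ell ≤ L1 * X ^ 5 / 2 := by
        have e3 : 4 * ((L1:ℝ) + X ^ 2 * L1) * ell = L1 * (4 * (1 + X ^ 2) * ell) := by ring
        rw [e3, mul_div_assoc]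
        apply mul_le_mul_of_nonneg_left _ hL1R.le
        have e4 : 1 + X ^ 2 ≤ X ^ 3 := by nlinarith [sq_nonneg X]
        have e5 : 8 * ell ≤ X ^ 2 := by nlinarith
        have e6 : (8 * ell) * (1 + X ^ 2) ≤ X ^ 2 * X ^ 3 :=
          mul_le_mul e5 e4 (by positivity) (by positivity)
        have e7 : X ^ 2 * X ^ 3 = X ^ 5 := by ring
        rw [e7] at e6
        linarith
      have e3 : (y:ℝ) < q := by linarith
      exact_mod_cast e3
    · have e1 : ((v * ((m - c) + (b - a)) : ℕ) : ℝ) ≤ X * (L1 + X ^ 2 * L1) := by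
        push_cast
        rw [← hL1]
        exact mul_le_mul h.hvX (by linarith) (by positivity) (by linarith)
      have e2 : X * (L1 + X ^ 2 * L1) ≤ L1 * X ^ 5 / 2 := by
        have e3 : X * (L1 + X ^ 2 * L1) = L1 * (X * (1 + X ^ 2)) := by ring
        rw [e3, mul_div_assoc]
        apply mul_le_mul_of_nonneg_left _ hL1R.le
        have e4 : 1 + X ^ 2 ≤ X ^ 3 := by nlinarith [sq_nonneg X]
        have e6 : (2 * X) * (1 + X ^ 2) ≤ X ^ 2 * X ^ 3 :=
          mul_le_mul (by nlinarith) e4 (by positivity) (by positivity)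
        have e7 : X ^ 2 * X ^ 3 = X ^ 5 := by ring
        rw [e7] at e6
        linarith
      have e3 : ((v * ((m - c) + (b - a)) : ℕ) : ℝ) < q := by linarith
      exact_mod_cast e3
  rw [hempty, card_empty, Nat.cast_zero]
  exact log_two_Q_nonneg _ _

/-- case B -/
lemma Setup.caseB (h : Setup D n m p v w y a b c X ell) (h1 : X ^ 5 ≤ ((b - a : ℕ) : ℝ))
    (h2 : X ^ 2 * ((m - c : ℕ) : ℝ) ≤ ((b - a : ℕ) : ℝ)) :
    m ∈ lift D n (fun _ => setB D n) := by
  classical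
  have hcm := h.hC.hcm
  have hbc := h.hC.hbc
  have hab := h.hC.hab
  have hX := h.X1000
  have hX0 : 0 < X := by linarith
  have hellX := h.ellX'
  have hell := h.ell1000
  have hmn := h.hmn
  have hw := mem_Ioc.mp h.hw
  obtain ⟨L2, hL2⟩ : ∃ L2, L2 = b - a := ⟨_, rfl⟩
  obtain ⟨L1, hL1⟩ : ∃ L1, L1 = m - c := ⟨_, rfl⟩
  rw [← hL2] at h1 h2
  rw [← hL1] at h2
  have hX5 : X ≤ X ^ 5 := le_self_pow₀ (by linarith) (by norm_num)
  have hL2big : (1000:ℝ) ≤ L2 := by linarith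
  have hL2n : 1000 ≤ L2 := by exact_mod_cast hL2big
  obtain ⟨s, hs⟩ : ∃ s, s = Nat.log 2 (L2 / 2) := ⟨_, rfl⟩
  have hsle : 2 ^ s ≤ L2 / 2 := by rw [hs]; exact Nat.pow_log_le_self 2 (by omega)
  have hslt : L2 / 2 < 2 ^ (s + 1) := by rw [hs]; exact Nat.lt_pow_succ_log_self (by norm_num) _
  have hslt2 : L2 < 4 * 2 ^ s := by rw [pow_succ] at hslt; omega
  obtain ⟨T, hT⟩ : ∃ T, T = 2 ^ s := ⟨_, rfl⟩
  have hTR : (T:ℝ) = (2:ℝ) ^ s := by rw [hT]; push_cast; rfl
  rw [← hT] at hsle hslt2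
  have hsltR : (L2:ℝ) < 4 * T := by exact_mod_cast hslt2
  have hT1 : 1 ≤ T := by rw [hT]; exact Nat.one_le_two_pow
  have hTpos : (0:ℝ) < T := by exact_mod_cast hT1
  have hs1 : 1 ≤ s := by
    by_contra hcon
    have : s = 0 := by omega
    rw [this] at hT
    omega
  have hT10 : T ^ 10 ≤ n ^ 9 := by
    calc T ^ 10 ≤ L2 ^ 10 := Nat.pow_le_pow_left (by omega) 10
      _ ≤ (max (m - c) (b - a)) ^ 10 := Nat.pow_le_pow_left (by rw [hL2]; exact le_max_right _ _) 10
      _ ≤ m ^ 9 := h.hR2.le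
      _ ≤ n ^ 9 := Nat.pow_le_pow_left hmn 9
  obtain ⟨H, hH⟩ : ∃ H, H = ⌈Real.log n ^ 2⌉₊ := ⟨_, rfl⟩
  have hH1 : ell ^ 2 ≤ H := by rw [hH, ← h.hell]; exact Nat.le_ceil _
  have hell2 : (1000:ℝ) ≤ ell ^ 2 := by nlinarith
  have hH1000 : (1000:ℝ) ≤ H := by linarith
  have hH1n : 1000 ≤ H := by exact_mod_cast hH1000
  -- the transfer for a window
  have key : ∀ N : ℕ, N ∈ Icc 1 n → (∀ i < T, N - i ∈ Ioc a b) → N ∈ badW T (T * H) T n := by
    intro N hN hwin
    unfold badW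
    rw [mem_filter]
    refine ⟨hN, ?_⟩
    by_contra hcon
    push Not at hcon
    have hfacts : ∀ q ∈ wset T (T * H) T N, T * H < q ∧ q ≤ 2 * (T * H) ∧ q.Prime ∧
        ∃ j' ∈ Ioc c m, q ∣ j' := by
      intro q hq
      unfold wset at hq
      rw [mem_filter, mem_Ioc] at hq
      obtain ⟨⟨hq1, hq2⟩, hqp, i, hi, _, hiN, hd, hd2⟩ := hq
      refine ⟨hq1, hq2, hqp, ?_⟩
      have hqR : (T:ℝ) * H < q := by exact_mod_cast hq1
      have hyq : y < q := by
        have e1 : (y:ℝ) ≤ 4 * ((L2:ℝ) + L2) * ell := by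
          refine h.hy.trans ?_
          apply mul_le_mul_of_nonneg_right _ (by linarith)
          rw [← hL2, ← hL1]
          have e2 : (L1:ℝ) ≤ X ^ 2 * L1 := by
            have : (1:ℝ) ≤ X ^ 2 := one_le_pow₀ (by linarith)
            have h0 : (0:ℝ) ≤ L1 := Nat.cast_nonneg _
            nlinarith
          linarith
        have e2 : 4 * ((L2:ℝ) + L2) * ell ≤ T * H := by
          calc 4 * ((L2:ℝ) + L2) * ell = (L2:ℝ) * (8 * ell) := by ring
            _ ≤ (4 * T) * (8 * ell) := mul_le_mul_of_nonneg_right hsltR.le (by linarith)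
            _ = T * (32 * ell) := by ring
            _ ≤ T * H := by
                apply mul_le_mul_of_nonneg_left _ hTpos.le
                nlinarith
        have e3 : (y:ℝ) < q := by linarith
        exact_mod_cast e3
      have hbq : b - a < q := by
        rw [← hL2]
        calc L2 < 4 * T := hslt2
          _ ≤ T * H := by rw [mul_comm]; exact Nat.mul_le_mul_left _ (by omega)
          _ < q := hq1
      exact transfer_exact h.hC hqp hyq hbq (hwin i hi) hd hd2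
    have hsum := sum_log_le_interval (wset T (T * H) T N) (fun q hq => (hfacts q hq).2.2.1) c m n
      hmn (fun q hq => (hfacts q hq).2.2.2)
    rw [h.hell, ← hL1] at hsum
    have hTH : 2 ≤ T * H := by
      calc 2 ≤ 1 * H := by omega
        _ ≤ T * H := Nat.mul_le_mul_right _ hT1
    have hTHR : (2:ℝ) ≤ ((T * H : ℕ) : ℝ) := by exact_mod_cast hTH
    have hlogQ : 0 < Real.log ((T * H : ℕ) : ℝ) := Real.log_pos (by linarith)
    have hlow : ((wset T (T * H) T N).card : ℝ) * Real.log ((T * H : ℕ) : ℝ) ≤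
        ∑ q ∈ wset T (T * H) T N, Real.log q := by
      rw [← nsmul_eq_mul, ← Finset.sum_const]
      apply Finset.sum_le_sum
      intro q hq
      apply Real.log_le_log (by linarith)
      exact_mod_cast (hfacts q hq).1.le
    have hlog2Q : Real.log (2 * ((T * H : ℕ) : ℝ)) ≤ 2 * Real.log ((T * H : ℕ) : ℝ) := by
      rw [Real.log_mul (by norm_num) (by linarith)]
      have := Real.log_le_log (by norm_num) hTHR
      linarith
    have hlog2Qpos : 0 < Real.log (2 * ((T * H : ℕ) : ℝ)) := Real.log_pos (by linarith)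
    have h5 : (T:ℝ) < ((wset T (T * H) T N).card : ℝ) * (64 * Real.log (2 * ((T * H : ℕ) : ℝ))) := by
      rwa [div_lt_iff₀ (by positivity)] at hcon
    have h6 : ((wset T (T * H) T N).card : ℝ) * (64 * Real.log (2 * ((T * H : ℕ) : ℝ))) ≤
        128 * (L1 * ell) := by
      calc ((wset T (T * H) T N).card : ℝ) * (64 * Real.log (2 * ((T * H : ℕ) : ℝ)))
          ≤ ((wset T (T * H) T N).card : ℝ) * (64 * (2 * Real.log ((T * H : ℕ) : ℝ))) := by
            apply mul_le_mul_of_nonneg_left _ (Nat.cast_nonneg _)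
            linarith
        _ = 128 * (((wset T (T * H) T N).card : ℝ) * Real.log ((T * H : ℕ) : ℝ)) := by ring
        _ ≤ 128 * (L1 * ell) := by linarith
    -- contradiction
    have h7 : X ^ 2 * (L1:ℝ) < 4 * (128 * (L1 * ell)) := by linarith
    have h8 : 4 * (128 * ((L1:ℝ) * ell)) ≤ X ^ 2 * L1 := by
      have h0 : (0:ℝ) ≤ L1 := Nat.cast_nonneg _
      calc 4 * (128 * ((L1:ℝ) * ell)) = (512 * ell) * L1 := by ring
        _ ≤ X ^ 2 * L1 := by
            apply mul_le_mul_of_nonneg_right _ h0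
            nlinarith
    linarith
  unfold lift
  rw [mem_filter, mem_Icc]
  refine ⟨⟨by omega, hmn⟩, p, v, w, h.hp, h.hm, by have := h.hwv; omega, by rw [h.hX]; exact h.hvX,
    h.hn, ?_⟩
  unfold setB
  rw [mem_filter, mem_Icc, h.hX]
  refine ⟨⟨by omega, by omega⟩, s, ?_, ?_, hs1, by rw [← hT]; exact hT10, ?_⟩
  · apply two_pow_le_imp
    rw [← hT]
    omega
  · rw [← hTR]; linarith
  · rw [← hT, ← hH]
    by_cases hcase : T ≤ p * w - a
    · left
      apply key
      · rw [mem_Icc]; omega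
      · intro i hi; rw [mem_Ioc]; omega
    · right
      apply key
      · rw [mem_Icc]; omega
      · intro i hi; rw [mem_Ioc]; omega

end Pool.Agent.Work.MP_0b7501_nt
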