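import Pool.Agent.Work.MP_0b7501_nt.R1a

/-!
The structural theorem, cases with a last interval of length one.
-/

namespace Pool.Agent.Work.MP_0b7501_nt

open Finset Filter

variable {D n m p v w y a b c : ℕ} {X ell : ℝ}

lemma Setup.mem_lift (h : Setup D n m p v w y a b c X ell) (𝒩 : ℕ → Finset ℕ)
    (hN : p * w ∈ 𝒩 v) : m ∈ lift D n 𝒩 := by
  classical
  have hcm := h.hC.hcm
  unfold lift
  rw [mem_filter, mem_Icc]
  exact ⟨⟨by omega, h.hmn⟩, p, v, w, h.hp, h.hm, by have := h.hwv; omega,
    by rw [h.hX]; exact h.hvX, h.hn, hN⟩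

/-- when the last interval is `{m}` -/
lemma Setup.ev_last (h : Setup D n m p v w y a b c X ell) (h1 : m - c = 1) (q : ℕ) :
    ev q c m = m.factorization q := by
  have hcm := h.hC.hcm
  unfold ev
  have : Ioc c m = {m} := by ext j; simp only [mem_Ioc, mem_singleton]; omega
  rw [this, Finset.sum_singleton]

lemma Setup.fact_m (h : Setup D n m p v w y a b c X ell) {q : ℕ} (hq : q ≠ p) :
    m.factorization q = v.factorization q := by
  have hv0 : v ≠ 0 := by have := h.hwv; omega
  have hp := h.hp
  rw [h.hm, Nat.factorization_mul hp.ne_zero hv0, Finsupp.add_apply]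
  have : p.factorization q = 0 := by
    rw [hp.factorization]
    rw [Finsupp.single_apply, if_neg (Ne.symm hq)]
  rw [this, zero_add]

/-- case E4 -/
lemma Setup.caseE4 (h : Setup D n m p v w y a b c X ell) (h1 : m - c = 1)
    (h2 : ((b - a : ℕ) : ℝ) ≤ X ^ 5) (h3 : ((b - a : ℕ) : ℝ) * ell ≤ 20 * y) :
    m ∈ lift D n (fun v => setE4U D n v) := by
  classical
  have hcm := h.hC.hcm
  have hbc := h.hC.hbc
  have hX := h.X1000
  have hX0 : 0 < X := by linarith
  have hellX := h.ellX'
  have hell := h.ell1000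
  have hw := mem_Ioc.mp h.hw
  have hmn := h.hmn
  apply h.mem_lift
  unfold setE4U
  rw [mem_filter, mem_Icc, h.hX]
  have hL2 : 1 ≤ b - a := by omega
  have hX5 : X ≤ X ^ 5 := le_self_pow₀ (by linarith) (by norm_num)
  refine ⟨⟨by omega, by omega⟩, y, b - a, hL2, h2, ?_, by rw [h.hell]; exact h3, ?_⟩
  · calc (y:ℝ) ≤ 4 * (((m - c : ℕ) : ℝ) + ((b - a : ℕ) : ℝ)) * ell := h.hy
      _ ≤ 4 * (X ^ 5 + X ^ 5) * ell := by
          apply mul_le_mul_of_nonneg_right _ (by linarith)
          rw [h1]; push_cast; linarith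
      _ = (8 * ell) * X ^ 5 := by ring
      _ ≤ X * X ^ 5 := mul_le_mul_of_nonneg_right (by linarith) (by positivity)
      _ = X ^ 6 := by ring
  · unfold setE4
    rw [mem_filter, mem_Icc]
    refine ⟨⟨by omega, by omega⟩, ?_⟩
    intro q hq hq1 hq2 hqv
    have hqp : q ≠ p := by have := h.hpy; omega
    have e1 : ev q 0 y = 1 := ev_short hq hq.pos hq2 (by omega)
    have e2 : ev q c m = 0 := by
      rw [h.ev_last h1, h.fact_m hqp]
      exact Nat.factorization_eq_zero_of_not_dvd hqv
    have e3 := h.hC.par q hq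
    rw [e1, e2] at e3
    have e4 : ev q a b ≠ 0 := by
      intro h0
      rw [h0] at e3
      exact absurd e3 (by decide)
    obtain ⟨j, hj, hd⟩ := exists_mult_of_ev e4
    rw [mem_Ioc] at hj
    exact mem_Rset_of hq.pos hd (by omega) (by omega)

/-- case E1 -/
lemma Setup.caseE1 (h : Setup D n m p v w y a b c X ell) (hsf : Squarefree v) (h1 : m - c = 1)
    (h2 : b - a = 1) (K Y0 : ℕ) (hYK : Y0 ≤ K)
    (hpr : ∀ x : ℕ, Y0 ≤ x → (x:ℝ) / 4 ≤ ∑ q ∈ (Ioc (x / 2) x).filter Nat.Prime, Real.log q)
    (hrough : y = 0 ∨ ∀ q, q.Prime → q ∣ v → K < q) : m ∈ badE1 K n := by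
  classical
  have hcm := h.hC.hcm
  have hbc := h.hC.hbc
  have hya := h.hC.hya
  have hw := mem_Ioc.mp h.hw
  have hmn := h.hmn
  have hw1 := h.hw1
  have hwv := h.hwv
  have hv0 : v ≠ 0 := by omega
  have hw0 : w ≠ 0 := by omega
  have hp := h.hp
  have hb : b = p * w := by omega
  have hab : Ioc a b = {p * w} := by ext j; simp only [mem_Ioc, mem_singleton]; omega
  -- parity statement
  have hpar : ∀ q : ℕ, q.Prime → q ≠ p →
      Even (ev q 0 y + w.factorization q + v.factorization q) := by
    intro q hq hqp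
    have e1 := h.hC.par q hq
    rw [h.ev_last h1, h.fact_m hqp] at e1
    have e2 : ev q a b = w.factorization q := by
      unfold ev
      rw [hab, Finset.sum_singleton, Nat.factorization_mul hp.ne_zero hw0, Finsupp.add_apply]
      have : p.factorization q = 0 := by
        rw [hp.factorization, Finsupp.single_apply, if_neg (Ne.symm hqp)]
      rw [this, zero_add]
    rw [e2] at e1
    exact e1
  have hvsf : ∀ q, q.Prime → q ∣ v → v.factorization q = 1 := by
    intro q hq hd
    apply le_antisymm
    · exact (Nat.squarefree_iff_factorization_le_one hv0).mp hsf q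
    · exact hq.factorization_pos_of_dvd hv0 hd
  have hvp : ∀ q, q ∣ v → q ≠ p := by rintro q hd rfl; exact h.hpv hd
  -- the odd primes of y!
  obtain ⟨Pf, hPf⟩ : ∃ Pf, Pf = ((Ioc 0 y).filter Nat.Prime).filter (fun q => Odd (ev q 0 y)) :=
    ⟨_, rfl⟩
  have hPfm : ∀ q, q ∈ Pf ↔ (0 < q ∧ q ≤ y) ∧ q.Prime ∧ Odd (ev q 0 y) := by
    intro q; rw [hPf, mem_filter, mem_filter, mem_Ioc, and_assoc]
  -- first set of divisors of w
  obtain ⟨A, hA⟩ : ∃ A, A = v.primeFactors.filter (fun q => q ∉ Pf) := ⟨_, rfl⟩
  obtain ⟨B, hB⟩ : ∃ B, B = Pf.filter (fun q => ¬ q ∣ v) := ⟨_, rfl⟩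
  obtain ⟨G, hG⟩ : ∃ G, G = v.primeFactors.filter (fun q => q ∈ Pf) := ⟨_, rfl⟩
  have hdisj : Disjoint A B := by
    rw [Finset.disjoint_left]
    intro q hqA hqB
    rw [hA, mem_filter] at hqA
    rw [hB, mem_filter] at hqB
    exact hqA.2 hqB.1
  have hABdvd : (∏ q ∈ A ∪ B, q) ∣ w := by
    apply Finset.prod_primes_dvd
    · intro q hq
      rw [mem_union] at hq
      rcases hq with hq | hq
      · rw [hA, mem_filter] at hq
        exact (Nat.prime_of_mem_primeFactors hq.1).prime
      · rw [hB, mem_filter, hPfm] at hq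
        exact hq.1.2.1.prime
    · intro q hq
      rw [mem_union] at hq
      rcases hq with hq | hq
      · rw [hA, mem_filter] at hq
        have hqp := Nat.prime_of_mem_primeFactors hq.1
        have hqv := Nat.dvd_of_mem_primeFactors hq.1
        have e1 := hpar q hqp (hvp q hqv)
        rw [hvsf q hqp hqv] at e1
        have e2 : Even (ev q 0 y) := by
          by_contra hodd
          rw [Nat.not_even_iff_odd] at hodd
          apply hq.2
          rw [hPfm]
          refine ⟨⟨hqp.pos, ?_⟩, hqp, hodd⟩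
          by_contra hcon
          push Not at hcon
          rw [ev_zero_of_lt hcon] at hodd
          exact absurd hodd (by decide)
        by_contra hnd
        rw [Nat.factorization_eq_zero_of_not_dvd hnd, add_zero, Nat.even_add_one] at e1
        exact e1 e2
      · rw [hB, mem_filter, hPfm] at hq
        obtain ⟨⟨⟨_, hqy⟩, hqp, hodd⟩, hqv⟩ := hq
        have hqne : q ≠ p := by have := h.hpy; omega
        have e1 := hpar q hqp hqne
        rw [Nat.factorization_eq_zero_of_not_dvd hqv, add_zero] at e1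
        by_contra hnd
        rw [Nat.factorization_eq_zero_of_not_dvd hnd, add_zero] at e1
        exact (Nat.not_even_iff_odd.mpr hodd) e1
  have hABle := Nat.le_of_dvd (by omega) hABdvd
  rw [Finset.prod_union hdisj] at hABle
  have hvprod : v = (∏ q ∈ G, q) * ∏ q ∈ A, q := by
    conv_lhs => rw [← Nat.prod_primeFactors_of_squarefree hsf]
    rw [hG, hA]
    exact (Finset.prod_filter_mul_prod_filter_not _ _ _).symm
  have hApos : 0 < ∏ q ∈ A, q := by
    apply Finset.prod_pos
    intro q hq
    rw [hA, mem_filter] at hq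
    exact (Nat.prime_of_mem_primeFactors hq.1).pos
  have hBlt : ∏ q ∈ B, q < ∏ q ∈ G, q := by
    have e1 : (∏ q ∈ A, q) * ∏ q ∈ B, q < (∏ q ∈ A, q) * ∏ q ∈ G, q := by
      calc (∏ q ∈ A, q) * ∏ q ∈ B, q ≤ w := hABle
        _ < v := hwv
        _ = (∏ q ∈ A, q) * ∏ q ∈ G, q := by rw [mul_comm]; exact hvprod
    exact lt_of_mul_lt_mul_left e1 (Nat.zero_le _)
  have hBpos : 0 < ∏ q ∈ B, q := by
    apply Finset.prod_pos
    intro q hq
    rw [hB, mem_filter, hPfm] at hq
    exact hq.1.2.1.pos
  -- G nonempty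
  have hGne : G.Nonempty := by
    rw [Finset.nonempty_iff_ne_empty]
    intro h0
    rw [h0, Finset.prod_empty] at hBlt
    omega
  obtain ⟨q0, hq0⟩ := hGne
  have hq0' := hq0
  rw [hG, mem_filter, hPfm] at hq0'
  obtain ⟨hq0a, ⟨_, hq0y⟩, hq0p, _⟩ := hq0'
  have hyK : K < y := by
    rcases hrough with hr | hr
    · subst hr; have := hq0p.pos; omega
    · have := hr q0 hq0p (Nat.dvd_of_mem_primeFactors hq0a)
      omega
  -- conclusion
  obtain ⟨g, hg⟩ : ∃ g, g = ∏ q ∈ G, q := ⟨_, rfl⟩
  have hgv : g ∣ v := by rw [hg, hvprod]; exact Dvd.intro _ rfl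
  have hGP : ∀ q ∈ G, q.Prime ∧ q ∈ Pf := by
    intro q hq
    rw [hG, mem_filter] at hq
    exact ⟨Nat.prime_of_mem_primeFactors hq.1, hq.2⟩
  unfold badE1
  rw [mem_filter, mem_Icc]
  refine ⟨⟨by omega, hmn⟩, y, hyK, by omega, g, ?_, hsf.squarefree_of_dvd hgv, ?_, ?_⟩
  · rw [h.hm]; exact hgv.mul_left p
  · intro q hq hqg
    rw [hg, hq.prime.dvd_finsetProd_iff] at hqg
    obtain ⟨r, hr, hqr⟩ := hqg
    have := (Nat.prime_dvd_prime_iff_eq hq (hGP r hr).1).mp hqr
    rw [this]
    exact ((hPfm r).mp (hGP r hr).2).1.2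
  · -- size of g
    have hlogg : (y:ℝ) / 4 < 2 * Real.log g := by
      have e1 := hpr y (by omega)
      have e2 : ∑ q ∈ (Ioc (y / 2) y).filter Nat.Prime, Real.log q ≤ ∑ q ∈ Pf, Real.log q := by
        apply Finset.sum_le_sum_of_subset_of_nonneg
        · intro q hq
          rw [mem_filter, mem_Ioc] at hq
          rw [hPfm]
          refine ⟨⟨hq.2.pos, hq.1.2⟩, hq.2, ?_⟩
          rw [ev_short hq.2 hq.2.pos hq.1.2 (by omega)]
          exact odd_one
        · intro q hq _
          rw [hPfm] at hq
          exact Real.log_nonneg (by exact_mod_cast hq.2.1.one_lt.le)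
      have e3 : ∑ q ∈ Pf, Real.log q = ∑ q ∈ G, Real.log q + ∑ q ∈ B, Real.log q := by
        have hGe : G = Pf.filter (fun q => q ∣ v) := by
          ext q
          rw [hG, mem_filter, mem_filter, Nat.mem_primeFactors, hPfm]
          constructor
          · rintro ⟨⟨a1, a2, _⟩, a3⟩; exact ⟨a3, a2⟩
          · rintro ⟨a3, a2⟩; exact ⟨⟨a3.2.1, a2, hv0⟩, a3⟩
        rw [hGe, hB]
        exact (Finset.sum_filter_add_sum_filter_not _ _ _).symm
      have e4 : ∑ q ∈ G, Real.log q = Real.log g := by
        rw [hg]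
        push_cast
        rw [Real.log_prod]
        intro q hq
        exact_mod_cast (hGP q hq).1.ne_zero
      have e5 : ∑ q ∈ B, Real.log q < Real.log g := by
        have e6 : ∑ q ∈ B, Real.log q = Real.log ((∏ q ∈ B, q : ℕ) : ℝ) := by
          push_cast
          rw [Real.log_prod]
          intro q hq
          rw [hB, mem_filter, hPfm] at hq
          exact_mod_cast hq.1.2.1.ne_zero
        rw [e6]
        apply Real.log_lt_log
        · exact_mod_cast hBpos
        · rw [hg]; exact_mod_cast hBlt
      linarith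
    have hgpos : (0:ℝ) < g := by
      have : 0 < g := Nat.pos_of_dvd_of_pos hgv (by omega)
      exact_mod_cast this
    rw [← Real.lt_log_iff_exp_lt hgpos]
    linarith

/-- case E3 -/
lemma Setup.caseE3 {e : ℕ} (h : Setup (6 * e) n m p v w y a b c X ell) (he : 100 ≤ e)
    (hlX : 1 ≤ Real.log X) (hellX2 : ell = 6 * e * Real.log X)
    (h1 : m - c = 1) (h2 : ((b - a : ℕ) : ℝ) ≤ X ^ 5) (h2' : 2 ≤ b - a)
    (h3 : 20 * (y:ℝ) ≤ ((b - a : ℕ) : ℝ) * ell) :
    m ∈ lift (6 * e) n (fun _ => setE3 (6 * e) e n) := by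
  classical
  have hcm := h.hC.hcm
  have hbc := h.hC.hbc
  have hya := h.hC.hya
  have hX := h.X1000
  have hX0 : 0 < X := by linarith
  have hell := h.ell1000
  have hw := mem_Ioc.mp h.hw
  have hmn := h.hmn
  have hp := h.hp
  have hv0 : v ≠ 0 := by have := h.hwv; omega
  choose tf xf hjf hsf using exists_sf
  obtain ⟨J', hJ'⟩ : ∃ J', J' = (Ioc a b).erase (p * w) := ⟨_, rfl⟩
  obtain ⟨L, hL⟩ : ∃ L, L = b - a := ⟨_, rfl⟩
  have hLR : (2:ℝ) ≤ L := by rw [hL]; exact_mod_cast h2'
  obtain ⟨z, hz⟩ : ∃ z, z = max y L := ⟨_, rfl⟩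
  have hLz : L ≤ z := by rw [hz]; exact le_max_right _ _
  have hyz : y ≤ z := by rw [hz]; exact le_max_left _ _
  have hmemJ : ∀ j ∈ J', j ∈ Ioc a b ∧ j ≠ p * w := by
    intro j hj; rw [hJ', mem_erase] at hj; exact ⟨hj.2, hj.1⟩
  have hjpos : ∀ j ∈ J', j ≠ 0 := by
    intro j hj; have := (hmemJ j hj).1; rw [mem_Ioc] at this; omega
  have htpos : ∀ j ∈ J', tf j ≠ 0 := by
    intro j hj h0
    have := hjf j
    rw [h0, zero_mul] at this
    exact hjpos j hj this
  -- odd exponent
  have hodd : ∀ j ∈ J', ∀ q, q.Prime → q ∣ tf j → Odd (j.factorization q) := by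
    intro j hj q hq hd
    have hx0 : xf j ≠ 0 := by
      intro h0
      have := hjf j
      rw [h0] at this
      simp at this
      exact hjpos j hj this
    have e1 : j.factorization q = (tf j).factorization q + 2 * (xf j).factorization q := by
      conv_lhs => rw [hjf j]
      rw [Nat.factorization_mul (htpos j hj) (by positivity), Finsupp.add_apply,
        Nat.factorization_pow, Finsupp.smul_apply, smul_eq_mul]
    have e2 : (tf j).factorization q = 1 := by
      apply le_antisymm
      · exact (Nat.squarefree_iff_factorization_le_one (htpos j hj)).mp (hsf j) q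
      · exact hq.factorization_pos_of_dvd (htpos j hj) hd
    rw [e1, e2]
    rw [add_comm]
    exact (even_two_mul _).add_one
  have hdj : ∀ j q, q ∣ tf j → q ∣ j := by
    intro j q hd
    rw [hjf j]
    exact hd.mul_right _
  -- primes > z dividing tf j divide v
  have hbig : ∀ j ∈ J', ∀ q, q.Prime → z < q → q ∣ tf j → q ∣ v := by
    intro j hj q hq hzq hd
    have hjm := hmemJ j hj
    have e1 : ev q a b = j.factorization q :=
      ev_eq_single (by omega) hjm.1 (hdj j q hd)
    have e2 : ev q 0 y = 0 := ev_zero_of_lt (by omega)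
    have e3 := h.hC.par q hq
    rw [e2, zero_add, e1, h.ev_last h1] at e3
    have hqp : q ≠ p := by
      rintro rfl
      -- both j and p w are multiples of p in the interval
      have h4 : q ∣ j := hdj j q hd
      have h5 : ev q a b = (q * w).factorization q :=
        ev_eq_single (by omega) h.hw (Dvd.intro _ rfl)
      have hjI := mem_Ioc.mp hjm.1
      rcases lt_or_gt_of_ne hjm.2 with h6 | h6
      · have h7 : q ∣ q * w - j := Nat.dvd_sub (Dvd.intro _ rfl) h4
        have h8 := Nat.le_of_dvd (by omega) h7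
        omega
      · have h7 : q ∣ j - q * w := Nat.dvd_sub h4 (Dvd.intro _ rfl)
        have h8 := Nat.le_of_dvd (by omega) h7
        omega
    rw [h.fact_m hqp] at e3
    by_contra hnd
    rw [Nat.factorization_eq_zero_of_not_dvd hnd, add_zero] at e3
    exact (Nat.not_even_iff_odd.mpr (hodd j hj q hq hd)) e3
  -- log of tf j as a sum
  have hlogt : ∀ j ∈ J', Real.log (tf j) = ∑ q ∈ (tf j).primeFactors, Real.log q := by
    intro j hj
    conv_lhs => rw [← Nat.prod_primeFactors_of_squarefree (hsf j)]
    push_cast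
    rw [Real.log_prod]
    intro q hq
    have := (Nat.prime_of_mem_primeFactors hq).pos
    exact_mod_cast this.ne'
  -- splitting
  have hsplit : ∀ j ∈ J', Real.log (tf j) ≤
      (∑ q ∈ (Ioc 0 z).filter Nat.Prime, if q ∣ j then Real.log q else 0) +
      ∑ q ∈ v.primeFactors, if z < q ∧ q ∣ j then Real.log q else 0 := by
    intro j hj
    rw [hlogt j hj, ← Finset.sum_filter_add_sum_filter_not (tf j).primeFactors (fun q => q ≤ z)]
    apply add_le_add
    · rw [← Finset.sum_filter]
      apply Finset.sum_le_sum_of_subset_of_nonneg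
      · intro q hq
        rw [mem_filter, Nat.mem_primeFactors] at hq
        rw [mem_filter, mem_filter, mem_Ioc]
        exact ⟨⟨⟨hq.1.1.pos, hq.2⟩, hq.1.1⟩, hdj j q hq.1.2.1⟩
      · intro q hq _
        rw [mem_filter] at hq
        exact log_pos_of_mem hq.1
    · rw [← Finset.sum_filter]
      apply Finset.sum_le_sum_of_subset_of_nonneg
      · intro q hq
        rw [mem_filter, Nat.mem_primeFactors] at hq
        rw [mem_filter, Nat.mem_primeFactors]
        push Not at hq
        exact ⟨⟨hq.1.1, hbig j hj q hq.1.1 hq.2 hq.1.2.1, hv0⟩, hq.2, hdj j q hq.1.2.1⟩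
      · intro q hq _
        rw [mem_filter, Nat.mem_primeFactors] at hq
        exact Real.log_nonneg (by exact_mod_cast hq.1.1.one_lt.le)
  have hJsub : J' ⊆ Ioc a b := by rw [hJ']; exact Finset.erase_subset _ _
  -- number of multiples in the interval
  have hmult : ∀ q, 0 < q → ((J'.filter (fun j => q ∣ j)).card : ℝ) ≤ ((L / q : ℕ) : ℝ) + 1 := by
    intro q hq
    have e1 : (J'.filter (fun j => q ∣ j)).card ≤ ((Ioc a b).filter (fun j => q ∣ j)).card :=
      Finset.card_le_card (Finset.filter_subset_filter _ hJsub)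
    have e2 : ((Ioc a b).filter (fun j => q ∣ j)).card ≤ L / q + 1 := by
      have e3 : (Ioc a b).filter (fun j => q ∣ j) ⊆ (Ioc (a / q) (b / q)).image (fun k => q * k) := by
        intro j hj
        rw [mem_filter, mem_Ioc] at hj
        obtain ⟨⟨hj1, hj2⟩, k, rfl⟩ := hj
        rw [mem_image]
        refine ⟨k, ?_, rfl⟩
        rw [mem_Ioc]
        constructor
        · rw [Nat.div_lt_iff_lt_mul hq]; linarith [mul_comm q k]
        · rw [Nat.le_div_iff_mul_le hq]; linarith [mul_comm q k]
      have e4 := (Finset.card_le_card e3).trans Finset.card_image_le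
      rw [Nat.card_Ioc] at e4
      have e5 : b / q ≤ a / q + L / q + 1 := by
        rw [← Nat.lt_succ_iff, Nat.div_lt_iff_lt_mul hq]
        have e1 := Nat.lt_div_mul_add (a := a) hq
        have e2 := Nat.lt_div_mul_add (a := L) hq
        have e3 : (a / q + L / q + 1).succ * q = a / q * q + L / q * q + 2 * q := by
          rw [Nat.succ_eq_add_one]; ring
        rw [e3]; omega
      have e6 : b / q - a / q ≤ L / q + 1 := by
        rw [Nat.sub_le_iff_le_add]; linarith
      exact e4.trans e6
    exact_mod_cast e1.trans e2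
  -- total
  have htot : ∑ j ∈ J', Real.log (tf j) ≤ L * Real.log L + 1.4 * z + Real.log X := by
    refine (Finset.sum_le_sum hsplit).trans ?_
    rw [Finset.sum_add_distrib]
    apply add_le_add
    · rw [Finset.sum_comm]
      have e1 : ∀ q ∈ (Ioc 0 z).filter Nat.Prime, ∑ j ∈ J', (if q ∣ j then Real.log q else 0) ≤
          ((L / q : ℕ) : ℝ) * Real.log q + Real.log q := by
        intro q hq
        have hlq := log_pos_of_mem hq
        rw [← Finset.sum_filter, Finset.sum_const, nsmul_eq_mul]
        have := mul_le_mul_of_nonneg_right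
          (hmult q (by rw [mem_filter] at hq; exact hq.2.pos)) hlq
        linarith
      refine (Finset.sum_le_sum e1).trans ?_
      rw [Finset.sum_add_distrib]
      apply add_le_add
      · have e2 : ∑ q ∈ (Ioc 0 z).filter Nat.Prime, ((L / q : ℕ) : ℝ) * Real.log q ≤
            ∑ q ∈ (Ioc 0 L).filter Nat.Prime, ((L / q : ℕ) : ℝ) * Real.log q := by
          rw [← Finset.sum_filter_add_sum_filter_not ((Ioc 0 z).filter Nat.Prime) (fun q => q ≤ L)]
          have e3 : ∑ q ∈ ((Ioc 0 z).filter Nat.Prime).filter (fun q => ¬ q ≤ L),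
              ((L / q : ℕ) : ℝ) * Real.log q = 0 := by
            apply Finset.sum_eq_zero
            intro q hq
            rw [mem_filter] at hq
            rw [Nat.div_eq_of_lt (not_le.mp hq.2), Nat.cast_zero, zero_mul]
          rw [e3, add_zero]
          apply Finset.sum_le_sum_of_subset_of_nonneg
          · intro q hq
            rw [mem_filter, mem_filter, mem_Ioc] at hq
            rw [mem_filter, mem_Ioc]
            exact ⟨⟨hq.1.1.1, hq.2⟩, hq.1.2⟩
          · intro q hq _
            exact mul_nonneg (Nat.cast_nonneg _) (log_pos_of_mem hq)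
        exact e2.trans ((sum_div_log_le L).trans (log_factorial_le L))
      · exact theta_nat_le z
    · rw [Finset.sum_comm]
      calc ∑ q ∈ v.primeFactors, ∑ j ∈ J', (if z < q ∧ q ∣ j then Real.log q else 0)
          ≤ ∑ q ∈ v.primeFactors, (if q ∣ v then Real.log q else 0) := by
            apply Finset.sum_le_sum
            intro q hq
            rw [Nat.mem_primeFactors] at hq
            have hlq : 0 ≤ Real.log q := Real.log_nonneg (by exact_mod_cast hq.1.one_lt.le)
            rw [if_pos hq.2.1, ← Finset.sum_filter, Finset.sum_const, nsmul_eq_mul]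
            have e1 : ((J'.filter (fun j => z < q ∧ q ∣ j)).card : ℝ) ≤ 1 := by
              by_cases hzq : z < q
              · have e2 : (J'.filter (fun j => z < q ∧ q ∣ j)).card ≤ 1 := by
                  rw [Finset.card_le_one]
                  intro j hj j' hj'
                  rw [mem_filter] at hj hj'
                  have hjI := mem_Ioc.mp (hmemJ j hj.1).1
                  have hjI' := mem_Ioc.mp (hmemJ j' hj'.1).1
                  by_contra hne
                  rcases lt_or_gt_of_ne hne with h6 | h6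
                  · have h8 := Nat.le_of_dvd (by omega) (Nat.dvd_sub hj'.2.2 hj.2.2)
                    omega
                  · have h8 := Nat.le_of_dvd (by omega) (Nat.dvd_sub hj.2.2 hj'.2.2)
                    omega
                exact_mod_cast e2
              · have e2 : J'.filter (fun j => z < q ∧ q ∣ j) = ∅ := by
                  apply Finset.filter_eq_empty_iff.mpr
                  intro j _ hc
                  exact hzq hc.1
                rw [e2, card_empty, Nat.cast_zero]
                norm_num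
            nlinarith
        _ ≤ Real.log v := sum_log_dvd_le _ (fun q hq => Nat.prime_of_mem_primeFactors hq) v v
            (by omega) le_rfl
        _ ≤ Real.log X := by
            apply Real.log_le_log _ h.hvX
            exact_mod_cast (by omega : 0 < v)
  -- there is a small one
  have hcardJ : (J'.card : ℝ) = L - 1 := by
    rw [hJ', Finset.card_erase_of_mem h.hw, Nat.card_Ioc, ← hL, Nat.cast_sub (by omega)]
    simp
  have hsmall : ∃ j ∈ J', Real.log (tf j) ≤ e * Real.log X := by
    by_contra hcon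
    push Not at hcon
    have e1 : ∑ j ∈ J', (e:ℝ) * Real.log X ≤ ∑ j ∈ J', Real.log (tf j) :=
      Finset.sum_le_sum (fun j hj => (hcon j hj).le)
    rw [Finset.sum_const, nsmul_eq_mul, hcardJ] at e1
    have e2 := e1.trans htot
    have hlogL : Real.log L ≤ 5 * Real.log X := by
      have e3 : (L:ℝ) ≤ X ^ 5 := by rw [hL]; exact h2
      have e4 := Real.log_le_log (by linarith) e3
      rw [Real.log_pow] at e4
      exact_mod_cast e4
    have hzle : (z:ℝ) ≤ L * ell / 20 + L := by
      rw [hz]
      push_cast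
      apply max_le
      · rw [← hL] at h3; linarith
      · have : 0 ≤ (L:ℝ) * ell / 20 := by positivity
        linarith
    have heR : (100:ℝ) ≤ e := by exact_mod_cast he
    have e5 : ((L:ℝ) / 2) * (e * Real.log X) ≤ (L - 1) * (e * Real.log X) := by
      apply mul_le_mul_of_nonneg_right _ (by positivity)
      linarith
    have e6 : (L:ℝ) * Real.log L ≤ L * (5 * Real.log X) :=
      mul_le_mul_of_nonneg_left hlogL (by linarith)
    have e7 : Real.log X ≤ L * (Real.log X / 2) := by
      have : 2 * (Real.log X / 2) ≤ L * (Real.log X / 2) :=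
        mul_le_mul_of_nonneg_right hLR (by linarith)
      linarith
    have e8 : (L:ℝ) * (e * Real.log X / 2) ≤ L * (5 * Real.log X + 1.4 * (ell / 20 + 1) +
        Real.log X / 2) := by
      have e9 : (L:ℝ) * (e * Real.log X / 2) = ((L:ℝ) / 2) * (e * Real.log X) := by ring
      have e10 : L * (5 * Real.log X + 1.4 * (ell / 20 + 1) + Real.log X / 2) =
        L * (5 * Real.log X) + 1.4 * (L * ell / 20 + L) + L * (Real.log X / 2) := by ring
      rw [e9, e10]
      linarith
    have e9 := le_of_mul_le_mul_left e8 (by linarith)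
    rw [hellX2] at e9
    have e10 : 1.4 * (6 * (e:ℝ) * Real.log X / 20 + 1) = 0.42 * (e * Real.log X) + 1.4 := by ring
    rw [e10] at e9
    have e11 : 100 * Real.log X ≤ e * Real.log X := mul_le_mul_of_nonneg_right heR (by linarith)
    linarith
  obtain ⟨j, hj, hjlog⟩ := hsmall
  have hjI := mem_Ioc.mp (hmemJ j hj).1
  apply h.mem_lift
  unfold setE3
  rw [mem_filter, mem_Icc, h.hX]
  refine ⟨⟨by omega, by omega⟩, j, ?_, ?_, ?_⟩
  · unfold setJ
    rw [mem_filter, mem_Icc, h.hX]
    refine ⟨⟨by omega, by omega⟩, tf j, xf j, hjf j, ?_⟩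
    have htR : (0:ℝ) < tf j := by
      have := htpos j hj
      exact_mod_cast Nat.pos_of_ne_zero this
    rw [← Real.log_pow] at hjlog
    exact (Real.log_le_log_iff htR (by positivity)).mp hjlog
  · have e1 : b - a ≤ ⌊X ^ 5⌋₊ := Nat.le_floor h2
    omega
  · have e1 : b - a ≤ ⌊X ^ 5⌋₊ := Nat.le_floor h2
    omega

end Pool.Agent.Work.MP_0b7501_nt
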