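import Pool.Agent.Work.MP_0b7501_nt.R1b
import Pool.Agent.Work.MP_0b7501_nt.R2c

/-!
The structural theorem: configurations with a large prime factor fall into exceptional sets.
-/

namespace Pool.Agent.Work.MP_0b7501_nt

open Finset Filter

open Classical in
/-- all exceptional sets together; `D = 6 e` -/
noncomputable def badAll (e K n : ℕ) : Finset ℕ :=
  badA (6 * e) n ∪ badG (6 * e) n ∪ lift (6 * e) n (fun _ => setB (6 * e) n) ∪
    lift (6 * e) n (fun _ => setE3 (6 * e) e n) ∪ lift (6 * e) n (fun v => setE4U (6 * e) n v) ∪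
    badE1 K n

theorem exists_setup (D : ℕ) (hD : 300 ≤ D) :
    ∀ᶠ n : ℕ in atTop, ∀ m p v y a b c : ℕ, p.Prime → m = p * v → n < 2 * m → m ≤ n →
      1 ≤ v → (v:ℝ) ≤ XX D n → Conf y a b c m →
      ∃ w, Setup D n m p v w y a b c (XX D n) (Real.log n) := by
  classical
  have hD0 : 0 < D := by omega
  obtain ⟨M0, hM0⟩ := eventually_atTop.mp (R2.and ybound)
  filter_upwards [XX_ge hD0 1000, log_ge (B := 1000), polylog_le hD0 1000 2,
    four_sq_lt (by omega : 4 ≤ D), eventually_ge_atTop (2 * M0 + 2)] with n hX1000 hell1000 hellX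
    h4sq hnM m p v y a b c hp hm hn hmn hv1 hvX hC
  obtain ⟨X, hX⟩ : ∃ X, X = XX D n := ⟨_, rfl⟩
  obtain ⟨ell, hell⟩ : ∃ ell, ell = Real.log n := ⟨_, rfl⟩
  have hXD : XX D n ^ D = n := XX_pow hD0 n
  rw [← hX] at hX1000 hellX h4sq hvX hXD
  rw [← hell] at hell1000 hellX
  rw [← hX, ← hell]
  obtain ⟨hR2m, hybm⟩ := hM0 m (by omega)
  have hR2 := hR2m y a b c hC
  have hyb := hybm y a b c hC
  have hX0 : 0 < X := by linarith
  have hX1 : 1 ≤ X := by linarith
  have hell0 : 0 < ell := by linarith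
  have hlogm : Real.log m ≤ ell := by
    rw [hell]
    apply Real.log_le_log
    · have : 0 < m := by omega
      exact_mod_cast this
    · exact_mod_cast hmn
  obtain ⟨M, hM⟩ : ∃ M, M = max (m - c) (b - a) := ⟨_, rfl⟩
  rw [← hM] at hR2
  have hM1 : m - c ≤ M := by rw [hM]; exact le_max_left _ _
  have hM2 : b - a ≤ M := by rw [hM]; exact le_max_right _ _
  have hM1R : ((m - c : ℕ) : ℝ) ≤ M := by exact_mod_cast hM1
  have hM2R : ((b - a : ℕ) : ℝ) ≤ M := by exact_mod_cast hM2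
  have hMR0 : (0:ℝ) ≤ M := Nat.cast_nonneg M
  have hy : (y:ℝ) ≤ 4 * (((m - c : ℕ) : ℝ) + ((b - a : ℕ) : ℝ)) * ell := by
    refine hyb.trans ?_
    apply mul_le_mul_of_nonneg_left hlogm
    positivity
  have hy8 : (y:ℝ) ≤ 8 * M * ell := by
    refine hy.trans ?_
    apply mul_le_mul_of_nonneg_right _ hell0.le
    linarith
  have hn0 : 0 < n := by omega
  have hnR : (0:ℝ) < n := by exact_mod_cast hn0
  -- 16 ell X M < n
  have hbig : 16 * ell * X * M < n := by
    have h1 : ((M:ℝ)) ^ 10 < (n:ℝ) ^ 9 := by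
      have h2 : M ^ 10 < n ^ 9 := lt_of_lt_of_le hR2 (Nat.pow_le_pow_left hmn 9)
      exact_mod_cast h2
    have h3 : 16 * ell * X ≤ X ^ 2 := by
      have : 16 * ell ≤ X := by nlinarith
      nlinarith
    have h4 : (X ^ 2) ^ 10 ≤ (n:ℝ) := by
      rw [← hXD, ← pow_mul]
      exact pow_le_pow_right₀ hX1 (by omega)
    have h5 : (X ^ 2 * M) ^ 10 < (n:ℝ) ^ 10 := by
      rw [mul_pow]
      calc (X ^ 2) ^ 10 * (M:ℝ) ^ 10 ≤ (n:ℝ) * (M:ℝ) ^ 10 :=
            mul_le_mul_of_nonneg_right h4 (by positivity)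
        _ < (n:ℝ) * (n:ℝ) ^ 9 := mul_lt_mul_of_pos_left h1 hnR
        _ = (n:ℝ) ^ 10 := by ring
    have h6 : X ^ 2 * M < n := lt_of_pow_lt_pow_left₀ 10 hnR.le h5
    calc 16 * ell * X * M ≤ X ^ 2 * M := mul_le_mul_of_nonneg_right h3 hMR0
      _ < n := h6
  have hpX : (n:ℝ) < 2 * p * X := by
    have h1 : (n:ℝ) < 2 * (p * v) := by
      have : n < 2 * (p * v) := by rw [← hm]; exact hn
      exact_mod_cast this
    have h2 : (p:ℝ) * v ≤ p * X := mul_le_mul_of_nonneg_left hvX (Nat.cast_nonneg p)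
    nlinarith
  have hsmall : ∀ z : ℕ, (z:ℝ) ≤ 8 * M * ell → z < p := by
    intro z hz
    by_contra hcon
    push Not at hcon
    have h1 : (p:ℝ) ≤ z := by exact_mod_cast hcon
    have h2 : 2 * (p:ℝ) * X ≤ 2 * (8 * M * ell) * X := by
      apply mul_le_mul_of_nonneg_right _ hX0.le
      linarith
    have h3 : 2 * (8 * M * ell) * X = 16 * ell * X * M := by ring
    linarith
  have hpy : y < p := hsmall y hy8
  have hMle : (M:ℝ) ≤ 8 * M * ell := by nlinarith
  have hpc : m - c < p := hsmall _ (hM1R.trans hMle)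
  have hpb : b - a < p := hsmall _ (hM2R.trans hMle)
  have hpv : ¬ p ∣ v := by
    intro h
    have h1 : p ≤ v := Nat.le_of_dvd (by omega) h
    have h2 : (p:ℝ) ≤ X := le_trans (by exact_mod_cast h1) hvX
    have h3 : 2 * (p:ℝ) * X ≤ 2 * X * X := by
      apply mul_le_mul_of_nonneg_right _ hX0.le
      linarith
    nlinarith
  obtain ⟨w, hw1, hwv, hw⟩ := exists_w hC hm hp hpv hpy hpc hpb
  exact ⟨w,
    { hX := hX.symm
      hell := hell.symm
      X1000 := hX1000
      ell1000 := hell1000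
      ellX := hellX
      hD := hD
      hC := hC
      hm := hm
      hp := hp
      hn := hn
      hmn := hmn
      hvX := hvX
      hpv := hpv
      hpy := hpy
      hpc := hpc
      hpb := hpb
      hw1 := hw1
      hwv := hwv
      hw := hw
      hy := hy
      hR2 := by rw [← hM]; exact hR2 }⟩

theorem structural (e : ℕ) (he : 100 ≤ e) (Y0 : ℕ) (hY0 : ∀ x : ℕ, Y0 ≤ x →
    (x:ℝ) / 4 ≤ ∑ q ∈ (Ioc (x / 2) x).filter Nat.Prime, Real.log q) :
    ∀ᶠ n : ℕ in atTop, ∀ K m p v y a b c : ℕ, Y0 ≤ K → p.Prime → m = p * v → n < 2 * m → m ≤ n →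
      1 ≤ v → (v:ℝ) ≤ XX (6 * e) n → Squarefree v → Conf y a b c m →
      (y = 0 ∨ ∀ q, q.Prime → q ∣ v → K < q) → m ∈ badAll e K n := by
  classical
  have hD0 : 0 < 6 * e := by omega
  filter_upwards [XX_ge hD0 1000, exists_setup (6 * e) (by omega)] with n hX1000 hset K m p v y a b c
    hYK hp hm hn hmn hv1 hvX hsf hC hrough
  obtain ⟨w, S⟩ := hset m p v y a b c hp hm hn hmn hv1 hvX hC
  have hlogX := log_eq_XX hD0 n
  obtain ⟨X, hX⟩ : ∃ X, X = XX (6 * e) n := ⟨_, rfl⟩
  obtain ⟨ell, hell⟩ : ∃ ell, ell = Real.log n := ⟨_, rfl⟩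
  rw [← hX, ← hell] at S
  rw [← hX] at hX1000 hvX hlogX
  rw [← hell] at hlogX
  have hw := S.hw
  have hX0 : 0 < X := by linarith
  have hX1 : 1 ≤ X := by linarith
  have hcm := hC.hcm
  have hwI := mem_Ioc.mp hw
  have hL2 : 1 ≤ b - a := by omega
  unfold badAll
  simp only [mem_union]
  have hX2 : 1 ≤ X ^ 2 := one_le_pow₀ hX1
  have hX58 : X ^ 5 ≤ X ^ 8 := pow_le_pow_right₀ hX1 (by norm_num)
  rcases Nat.lt_or_ge (m - c) 2 with hL1 | hL1
  · have hL1' : m - c = 1 := by omega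
    by_cases hL2X : ((b - a : ℕ) : ℝ) ≤ X ^ 5
    · rcases Nat.lt_or_ge (b - a) 2 with hL2' | hL2'
      · exact Or.inr (S.caseE1 hsf hL1' (by omega) K Y0 hYK hY0 hrough)
      · by_cases h3 : ((b - a : ℕ) : ℝ) * ell ≤ 20 * y
        · exact Or.inl (Or.inr (S.caseE4 hL1' hL2X h3))
        · push Not at h3
          refine Or.inl (Or.inl (Or.inr (S.caseE3 he ?_ ?_ hL1' hL2X hL2' h3.le)))
          · rw [Real.le_log_iff_exp_le hX0]
            have := Real.exp_one_lt_d9
            linarith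
          · rw [hlogX]; push_cast; ring
    · push Not at hL2X
      rcases le_total (X ^ 2 * ((m - c : ℕ) : ℝ)) ((b - a : ℕ) : ℝ) with h4 | h4
      · exact Or.inl (Or.inl (Or.inl (Or.inr (S.caseB hL2X.le h4))))
      · exfalso
        rw [hL1', Nat.cast_one, mul_one] at h4
        have : X ^ 2 < X ^ 5 := pow_lt_pow_right₀ (by linarith) (by norm_num)
        linarith
  · by_cases h5 : ((m - c : ℕ) : ℝ) ≤ X ^ 8 ∧ ((b - a : ℕ) : ℝ) ≤ X ^ 8
    · exact Or.inl (Or.inl (Or.inl (Or.inl (Or.inl (S.caseA hL1 h5.1 h5.2)))))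
    · rcases le_total (X ^ 2 * ((m - c : ℕ) : ℝ)) ((b - a : ℕ) : ℝ) with h4 | h4
      · -- case B: L2 > X^5
        refine Or.inl (Or.inl (Or.inl (Or.inr (S.caseB ?_ h4))))
        by_contra hcon
        push Not at hcon
        apply h5
        refine ⟨?_, by linarith⟩
        have : ((m - c : ℕ) : ℝ) ≤ X ^ 2 * ((m - c : ℕ) : ℝ) :=
          le_mul_of_one_le_left (Nat.cast_nonneg _) hX2
        linarith
      · -- case G
        refine Or.inl (Or.inl (Or.inl (Or.inl (Or.inr (S.caseG ?_ h4)))))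
        by_contra hcon
        push Not at hcon
        apply h5
        refine ⟨by linarith, ?_⟩
        calc ((b - a : ℕ) : ℝ) ≤ X ^ 2 * ((m - c : ℕ) : ℝ) := h4
          _ ≤ X ^ 2 * X ^ 5 := mul_le_mul_of_nonneg_left hcon.le (by positivity)
          _ = X ^ 7 := by ring
          _ ≤ X ^ 8 := pow_le_pow_right₀ hX1 (by norm_num)

/-- the size of the exceptional sets -/
theorem badAll_bound (f : ℕ) (hf : 7 ≤ f) (K : ℕ) (hK : ∀ y : ℕ, K < y →
    (2:ℝ) ^ ((Ioc 0 y).filter Nat.Prime).card ≤ Real.exp ((y:ℝ) / 16)) (ε : ℝ) (hε : 0 < ε) :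
    ∀ᶠ n : ℕ in atTop, ((badAll (320 * f) K n).card : ℝ) ≤
      (400 / ((1920 * f : ℕ) : ℝ) ^ 2 + 16 * Real.exp (-((K:ℝ) / 16)) + ε) * n := by
  classical
  have hD : 6 * (320 * f) = 1920 * f := by ring
  have h4 := badE4_bound f hf (ε / 4) (by positivity)
  filter_upwards [badA_bound (1920 * f) (by omega), badG_bound (1920 * f) (by omega) (ε / 4)
    (by positivity), badB_bound (1920 * f) (by omega) (ε / 4) (by positivity),
    badE3_bound (320 * f) (by omega) (ε / 4) (by positivity), h4] with n hA hG hB hE3 hE4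
  have hE1 := badE1_bound K n hK
  unfold badAll
  rw [hD] at hE3 ⊢
  have hcard : ((badA (1920 * f) n ∪ badG (1920 * f) n ∪ lift (1920 * f) n (fun _ => setB (1920 * f) n)
      ∪ lift (1920 * f) n (fun _ => setE3 (1920 * f) (320 * f) n) ∪
      lift (1920 * f) n (fun v => setE4U (1920 * f) n v) ∪ badE1 K n).card : ℝ) ≤
      (badA (1920 * f) n).card + (badG (1920 * f) n).card +
      (lift (1920 * f) n (fun _ => setB (1920 * f) n)).card +
      (lift (1920 * f) n (fun _ => setE3 (1920 * f) (320 * f) n)).card +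
      (lift (1920 * f) n (fun v => setE4U (1920 * f) n v)).card + (badE1 K n).card := by
    have u1 := Finset.card_union_le (badA (1920 * f) n ∪ badG (1920 * f) n ∪
      lift (1920 * f) n (fun _ => setB (1920 * f) n)
      ∪ lift (1920 * f) n (fun _ => setE3 (1920 * f) (320 * f) n) ∪
      lift (1920 * f) n (fun v => setE4U (1920 * f) n v)) (badE1 K n)
    have u2 := Finset.card_union_le (badA (1920 * f) n ∪ badG (1920 * f) n ∪
      lift (1920 * f) n (fun _ => setB (1920 * f) n)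
      ∪ lift (1920 * f) n (fun _ => setE3 (1920 * f) (320 * f) n))
      (lift (1920 * f) n (fun v => setE4U (1920 * f) n v))
    have u3 := Finset.card_union_le (badA (1920 * f) n ∪ badG (1920 * f) n ∪
      lift (1920 * f) n (fun _ => setB (1920 * f) n))
      (lift (1920 * f) n (fun _ => setE3 (1920 * f) (320 * f) n))
    have u4 := Finset.card_union_le (badA (1920 * f) n ∪ badG (1920 * f) n)
      (lift (1920 * f) n (fun _ => setB (1920 * f) n))
    have u5 := Finset.card_union_le (badA (1920 * f) n) (badG (1920 * f) n)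
    have : (badA (1920 * f) n ∪ badG (1920 * f) n ∪ lift (1920 * f) n (fun _ => setB (1920 * f) n)
      ∪ lift (1920 * f) n (fun _ => setE3 (1920 * f) (320 * f) n) ∪
      lift (1920 * f) n (fun v => setE4U (1920 * f) n v) ∪ badE1 K n).card ≤
      (badA (1920 * f) n).card + (badG (1920 * f) n).card +
      (lift (1920 * f) n (fun _ => setB (1920 * f) n)).card +
      (lift (1920 * f) n (fun _ => setE3 (1920 * f) (320 * f) n)).card +
      (lift (1920 * f) n (fun v => setE4U (1920 * f) n v)).card + (badE1 K n).card := by omega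
    exact_mod_cast this
  refine hcard.trans ?_
  have e1 : 400 * (n:ℝ) / ((1920 * f : ℕ) : ℝ) ^ 2 = 400 / ((1920 * f : ℕ) : ℝ) ^ 2 * n := by ring
  rw [e1] at hA
  linarith

end Pool.Agent.Work.MP_0b7501_nt
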