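import Pool.Agent.Work.MP_0b7501_nt.BTCount
import Pool.Agent.Work.MP_0b7501_nt.Farey
import Pool.Agent.Work.MP_0b7501_nt.PNT

/-!
Configurations `y! a! b! c! m!` and first restrictions.
-/

namespace Pool.Agent.Work.MP_0b7501_nt

open Finset Filter

/-- `y! · (a! b!) · (c! m!)` is a square, `y ≤ a ≤ b ≤ c < m`, written with exponents -/
structure Conf (y a b c m : ℕ) : Prop where
  hya : y ≤ a
  hab : a ≤ b
  hbc : b ≤ c
  hcm : c < m
  par : ∀ q : ℕ, q.Prime → Even (ev q 0 y + ev q a b + ev q c m)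

noncomputable def PM (P Q lo hi : ℕ) : Finset ℕ :=
  (Ioc P Q).filter (fun q => q.Prime ∧ ∃ j ∈ Ioc lo hi, q ∣ j)

noncomputable def V (P Q lo hi : ℕ) : ℝ := ∑ q ∈ PM P Q lo hi, Real.log q

lemma mem_PM {P Q lo hi q : ℕ} : q ∈ PM P Q lo hi ↔
    (P < q ∧ q ≤ Q) ∧ q.Prime ∧ ∃ j ∈ Ioc lo hi, q ∣ j := by
  unfold PM; rw [mem_filter, mem_Ioc]

lemma PM_log_nonneg {P Q lo hi q : ℕ} (h : q ∈ PM P Q lo hi) : 0 ≤ Real.log q :=
  Real.log_nonneg (by exact_mod_cast (mem_PM.mp h).2.1.one_lt.le)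

lemma V_nonneg (P Q lo hi : ℕ) : 0 ≤ V P Q lo hi :=
  Finset.sum_nonneg fun _ h => PM_log_nonneg h

lemma V_le_of_subset {P Q lo hi P' Q' lo' hi' : ℕ} (h : PM P Q lo hi ⊆ PM P' Q' lo' hi') :
    V P Q lo hi ≤ V P' Q' lo' hi' :=
  Finset.sum_le_sum_of_subset_of_nonneg h fun _ h _ => PM_log_nonneg h

lemma V_mono {P Q lo hi P' Q' lo' hi' : ℕ} (hP : P' ≤ P) (hQ : Q ≤ Q') (hlo : lo' ≤ lo)
    (hhi : hi ≤ hi') : V P Q lo hi ≤ V P' Q' lo' hi' := by
  apply V_le_of_subset
  intro q hq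
  obtain ⟨⟨h1, h2⟩, h3, j, hj, hd⟩ := mem_PM.mp hq
  rw [mem_Ioc] at hj
  exact mem_PM.mpr ⟨⟨by omega, by omega⟩, h3, j, mem_Ioc.mpr ⟨by omega, by omega⟩, hd⟩

lemma V_split {P R Q lo hi : ℕ} (h1 : P ≤ R) (h2 : R ≤ Q) :
    V P Q lo hi = V P R lo hi + V R Q lo hi := by
  unfold V PM
  rw [← Ioc_union_Ioc_eq_Ioc h1 h2, filter_union, sum_union]
  apply Finset.disjoint_filter_filter
  rw [Finset.disjoint_left]
  intro j hj hj'
  rw [mem_Ioc] at hj hj'
  omega

lemma W_eq_V (z lo hi : ℕ) : W z lo hi = V z hi lo hi := rfl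

lemma V_four (m a l P : ℕ) (hm : 2 ≤ m) (hal : a + l ≤ m) (hlP : m ^ 11 ≤ (l * P) ^ 10) :
    V P (4 * P) a (a + l) ≤ 11200 * l := bt_count m a l P hm hal hlP

lemma V_pow (m a l P s : ℕ) (hm : 2 ≤ m) (hal : a + l ≤ m) (hlP : m ^ 11 ≤ (l * P) ^ 10) :
    V P (4 ^ s * P) a (a + l) ≤ s * (11200 * l) := by
  induction s with
  | zero =>
    have : V P (4 ^ 0 * P) a (a + l) = 0 := by
      unfold V PM
      rw [pow_zero, one_mul, Ioc_self, filter_empty, sum_empty]
    rw [this]; simp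
  | succ s ih =>
    have h1 : V P (4 ^ (s + 1) * P) a (a + l) =
        V P (4 ^ s * P) a (a + l) + V (4 ^ s * P) (4 ^ (s + 1) * P) a (a + l) := by
      apply V_split
      · exact Nat.le_mul_of_pos_left _ (by positivity)
      · apply Nat.mul_le_mul_right
        exact Nat.pow_le_pow_right (by norm_num) (Nat.le_succ s)
    have h2 : 4 ^ (s + 1) * P = 4 * (4 ^ s * P) := by ring
    rw [h1, h2]
    have h3 := V_four m a l (4 ^ s * P) hm hal (hlP.trans (Nat.pow_le_pow_left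
      (Nat.mul_le_mul_left _ (Nat.le_mul_of_pos_left _ (by positivity))) 10))
    push_cast
    linarith

lemma ev_short {q lo hi : ℕ} (hq : q.Prime) (h1 : lo < q) (h2 : q ≤ hi) (h3 : hi < 2 * q) :
    ev q lo hi = 1 := by
  unfold ev
  rw [Finset.sum_eq_single_of_mem q (mem_Ioc.mpr ⟨h1, h2⟩)]
  · exact hq.factorization_self
  · intro j hj hne
    apply Nat.factorization_eq_zero_of_not_dvd
    rintro ⟨k, rfl⟩
    rw [mem_Ioc] at hj
    have hk : k < 2 := by
      by_contra hcon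
      push Not at hcon
      have : q * 2 ≤ q * k := Nat.mul_le_mul_left _ hcon
      omega
    interval_cases k
    · omega
    · omega

lemma ev_zero_of_lt {q lo hi : ℕ} (h : hi < q) : ev q lo hi = 0 := by
  apply ev_eq_zero
  intro j hj hd
  rw [mem_Ioc] at hj
  have := Nat.le_of_dvd (by omega) hd
  omega

lemma exists_mult_of_ev {q lo hi : ℕ} (h : ev q lo hi ≠ 0) : ∃ j ∈ Ioc lo hi, q ∣ j := by
  by_contra hcon
  push Not at hcon
  exact h (ev_eq_zero hcon)

/-- Step A: `y` is at most a constant times the longer interval -/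
lemma y_le : ∀ᶠ m : ℕ in atTop, ∀ y a b c, Conf y a b c m →
    m ^ 9 ≤ (max (m - c) (b - a)) ^ 10 → y ≤ 89600 * max (m - c) (b - a) := by
  obtain ⟨Y0, hY0⟩ := eventually_atTop.mp (primes_short (1/2) (by norm_num) (by norm_num))
  filter_upwards [eventually_ge_atTop ((Y0 + 2) ^ 10)] with m hm y a b c hC hL
  set L := max (m - c) (b - a) with hLdef
  by_contra hcon
  push Not at hcon
  have hm2 : 2 ≤ m := by
    have h1 : 2 ^ 10 ≤ (Y0 + 2) ^ 10 := Nat.pow_le_pow_left (by omega) 10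
    omega
  have hL0 : Y0 + 2 ≤ L := by
    by_contra hcon2
    push Not at hcon2
    have h1 : L ^ 10 < (Y0 + 2) ^ 10 := Nat.pow_lt_pow_left hcon2 (by norm_num)
    have h2 : m ≤ m ^ 9 := Nat.le_self_pow (by norm_num) m
    omega
  have hyY : Y0 ≤ y := by omega
  have haL : a + L ≤ m := by
    have := hC.hab; have := hC.hbc; have := hC.hcm
    rcases max_cases (m - c) (b - a) with ⟨h, _⟩ | ⟨h, _⟩ <;> omega
  have h1 := hY0 y hyY (y / 2) (by
    have : ((y / 2 : ℕ) : ℝ) ≤ (y : ℝ) / 2 := Nat.cast_div_le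
    linarith)
  -- conditions
  have hcond : m ^ 11 ≤ (L * (y / 2)) ^ 10 := by
    have e1 : L ≤ y / 2 := by omega
    calc m ^ 11 ≤ m ^ 18 := Nat.pow_le_pow_right (by omega) (by norm_num)
      _ = m ^ 9 * m ^ 9 := by ring
      _ ≤ L ^ 10 * L ^ 10 := Nat.mul_le_mul hL hL
      _ = (L * L) ^ 10 := by ring
      _ ≤ _ := Nat.pow_le_pow_left (Nat.mul_le_mul_left _ e1) 10
  have h2 : ∑ p ∈ (Ioc (y / 2) y).filter Nat.Prime, Real.log p ≤
      V (y / 2) y a (a + L) + V (y / 2) y (m - L) (m - L + L) := by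
    have hsub : (Ioc (y / 2) y).filter Nat.Prime ⊆
        PM (y / 2) y a (a + L) ∪ PM (y / 2) y (m - L) (m - L + L) := by
      intro p hp
      rw [mem_filter, mem_Ioc] at hp
      obtain ⟨⟨hp1, hp2⟩, hpp⟩ := hp
      have e1 : ev p 0 y = 1 := ev_short hpp hpp.pos hp2 (by omega)
      have e2 := hC.par p hpp
      rw [e1] at e2
      have e3 : ev p a b ≠ 0 ∨ ev p c m ≠ 0 := by
        by_contra hcon3
        push Not at hcon3
        rw [hcon3.1, hcon3.2] at e2
        exact absurd e2 (by decide)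
      have := hC.hab
      have := hC.hbc
      have := hC.hcm
      have hLa : b - a ≤ L := le_max_right _ _
      have hLc : m - c ≤ L := le_max_left _ _
      rw [mem_union]
      rcases e3 with e3 | e3
      · left
        obtain ⟨j, hj, hd⟩ := exists_mult_of_ev e3
        rw [mem_Ioc] at hj
        exact mem_PM.mpr ⟨⟨hp1, hp2⟩, hpp, j, mem_Ioc.mpr ⟨by omega, by omega⟩, hd⟩
      · right
        obtain ⟨j, hj, hd⟩ := exists_mult_of_ev e3
        rw [mem_Ioc] at hj
        exact mem_PM.mpr ⟨⟨hp1, hp2⟩, hpp, j, mem_Ioc.mpr ⟨by omega, by omega⟩, hd⟩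
    refine (Finset.sum_le_sum_of_subset_of_nonneg hsub ?_).trans ?_
    · intro q hq _
      rw [mem_union] at hq
      rcases hq with hq | hq <;> exact PM_log_nonneg hq
    · have hun := Finset.sum_union_inter (s₁ := PM (y / 2) y a (a + L))
        (s₂ := PM (y / 2) y (m - L) (m - L + L)) (f := fun q : ℕ => Real.log q)
      have hinter : 0 ≤ ∑ q ∈ PM (y / 2) y a (a + L) ∩ PM (y / 2) y (m - L) (m - L + L),
          Real.log (q : ℝ) := by
        apply Finset.sum_nonneg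
        intro q hq
        exact PM_log_nonneg (mem_inter.mp hq).1
      unfold V
      linarith
  have hy4 : y ≤ 4 * (y / 2) := by omega
  have h3 : V (y / 2) y a (a + L) ≤ 11200 * L :=
    (V_mono le_rfl hy4 le_rfl le_rfl).trans (V_four m a L (y / 2) hm2 haL hcond)
  have h4 : V (y / 2) y (m - L) (m - L + L) ≤ 11200 * L :=
    (V_mono le_rfl hy4 le_rfl le_rfl).trans (V_four m (m - L) L (y / 2) hm2 (by omega) hcond)
  have h5 : (89600 : ℝ) * L < y := by exact_mod_cast hcon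
  linarith

/-- Step B: there is a prime in a short interval before `m`, so `m - c` is small -/
lemma L1_le (ε : ℝ) (hε : 0 < ε) (hε2 : ε ≤ 1 / 2) : ∀ᶠ m : ℕ in atTop, ∀ y a b c,
    Conf y a b c m → ((m - c : ℕ) : ℝ) < ε * m := by
  filter_upwards [primes_short ε hε (by linarith), eventually_gt_atTop 0] with m hm hm0 y a b c hC
  have hmR : (0:ℝ) < m := by exact_mod_cast hm0
  set a0 := ⌊(1 - ε) * m⌋₊ with ha0
  have h1 := hm a0 (Nat.floor_le (by nlinarith))
  have h2 : 0 < ∑ p ∈ (Ioc a0 m).filter Nat.Prime, Real.log p := by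
    have : 0 < ε / 2 * m := by positivity
    linarith
  obtain ⟨p, hp, _⟩ := Finset.exists_ne_zero_of_sum_ne_zero h2.ne'
  rw [mem_filter, mem_Ioc] at hp
  obtain ⟨⟨hp1, hp2⟩, hpp⟩ := hp
  have hpR : (1 - ε) * m < p := by
    have := Nat.lt_floor_add_one ((1 - ε) * m)
    have h3 : ((a0 + 1 : ℕ) : ℝ) ≤ p := by exact_mod_cast hp1
    push_cast at h3
    linarith
  have hpc : p ≤ c := by
    by_contra hcon
    push Not at hcon
    have e1 : ev p c m = 1 := by
      apply ev_short hpp hcon hp2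
      have : (m:ℝ) < 2 * p := by nlinarith
      exact_mod_cast this
    have := hC.hya
    have := hC.hab
    have := hC.hbc
    have e2 : ev p a b = 0 := ev_zero_of_lt (by omega)
    have e3 : ev p 0 y = 0 := ev_zero_of_lt (by omega)
    have e4 := hC.par p hpp
    rw [e1, e2, e3] at e4
    exact absurd e4 (by decide)
  have h3 : ((m - c : ℕ) : ℝ) = m - c := by
    rw [Nat.cast_sub hC.hcm.le]
  rw [h3]
  have h4 : (p:ℝ) ≤ c := by exact_mod_cast hpc
  nlinarith

end Pool.Agent.Work.MP_0b7501_nt
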