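import Pool.Agent.Work.MP_0b7501_nt.R2a

/-!
Step C: the last interval is not much shorter than the middle one.
-/

namespace Pool.Agent.Work.MP_0b7501_nt

open Finset Filter

lemma exp_le_four_pow (x : ℝ) (s : ℕ) (h : x ≤ s) : Real.exp x ≤ 4 ^ s := by
  calc Real.exp x ≤ Real.exp s := Real.exp_le_exp.mpr h
    _ = Real.exp 1 ^ s := by rw [← Real.exp_nat_mul, mul_one]
    _ ≤ 4 ^ s := by
        apply pow_le_pow_left₀ (Real.exp_pos _).le
        have := Real.exp_one_lt_d9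
        linarith

lemma card_primes_mul_log {l m : ℕ} (hl : 2 ≤ l) (hm : 1 ≤ m) (h : m ^ 9 ≤ l ^ 10) :
    (((Ioc 0 l).filter Nat.Prime).card : ℝ) * Real.log m ≤ 78 * l := by
  have h1 := brun_titchmarsh 0 l hl
  rw [zero_add] at h1
  have hlog : 0 < Real.log l := Real.log_pos (by exact_mod_cast (by omega : 1 < l))
  have hmR : (1:ℝ) ≤ m := by exact_mod_cast hm
  have h2 : 9 * Real.log m ≤ 10 * Real.log l := by
    have h3 : ((m:ℝ)) ^ 9 ≤ (l:ℝ) ^ 10 := by exact_mod_cast h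
    have h4 := Real.log_le_log (by positivity) h3
    rw [Real.log_pow, Real.log_pow] at h4
    exact_mod_cast h4
  have h5 : 0 ≤ Real.log m := Real.log_nonneg hmR
  have hl0 : (0:ℝ) < l := by exact_mod_cast (by omega : 0 < l)
  calc (((Ioc 0 l).filter Nat.Prime).card : ℝ) * Real.log m
      ≤ (70 * l / Real.log l) * Real.log m := mul_le_mul_of_nonneg_right h1 h5
    _ = 70 * l * (Real.log m / Real.log l) := by field_simp
    _ ≤ 70 * l * (10 / 9) := by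
        apply mul_le_mul_of_nonneg_left _ (by positivity)
        rw [div_le_div_iff₀ hlog (by norm_num)]
        linarith
    _ ≤ 78 * l := by linarith

lemma sq_ge_of_pow {l m : ℕ} (hm : 1 ≤ m) (h : m ^ 9 ≤ l ^ 10) : m ≤ l ^ 2 := by
  by_contra hcon
  push Not at hcon
  have h1 : (l ^ 2) ^ 5 < m ^ 5 := Nat.pow_lt_pow_left hcon (by norm_num)
  have h2 : m ^ 5 ≤ m ^ 9 := Nat.pow_le_pow_right hm (by norm_num)
  have h3 : (l ^ 2) ^ 5 = l ^ 10 := by ring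
  omega

lemma cond_large {κ : ℝ} {m L l P : ℕ} (hκ : 0 < κ) (hm : 1 ≤ m) (hm1 : (4 / κ) ^ 10 ≤ (m : ℝ))
    (hL : m ^ 9 ≤ L ^ 10) (hl : κ * L ≤ l) (hP : (L:ℝ) / 4 ≤ P) : m ^ 11 ≤ (l * P) ^ 10 := by
  have hm1R : (1:ℝ) ≤ m := by exact_mod_cast hm
  have h1 : (m:ℝ) ^ 11 ≤ ((l:ℝ) * P) ^ 10 := by
    have e1 : κ * L * (L / 4) ≤ (l:ℝ) * P := mul_le_mul hl hP (by positivity) (by positivity)
    have e2 : (κ * L * (L / 4)) ^ 10 ≤ ((l:ℝ) * P) ^ 10 :=
      pow_le_pow_left₀ (by positivity) e1 10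
    refine le_trans ?_ e2
    have e3 : (m:ℝ) ^ 9 ≤ (L:ℝ) ^ 10 := by exact_mod_cast hL
    have e4 : (κ * L * (L / 4)) ^ 10 = (κ / 4) ^ 10 * ((L:ℝ) ^ 10 * (L:ℝ) ^ 10) := by ring
    rw [e4]
    have e5 : (m:ℝ) ^ 9 * (m:ℝ) ^ 9 ≤ (L:ℝ) ^ 10 * (L:ℝ) ^ 10 :=
      mul_le_mul e3 e3 (by positivity) (by positivity)
    have e6 : 1 ≤ (κ / 4) ^ 10 * m := by
      have h5 : (κ / 4) ^ 10 * (4 / κ) ^ 10 = 1 := by
        rw [← mul_pow]
        have : κ / 4 * (4 / κ) = 1 := by field_simp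
        rw [this, one_pow]
      calc (1:ℝ) = (κ / 4) ^ 10 * (4 / κ) ^ 10 := h5.symm
        _ ≤ (κ / 4) ^ 10 * m := mul_le_mul_of_nonneg_left hm1 (by positivity)
    calc (m:ℝ) ^ 11 = 1 * (m:ℝ) ^ 11 := by ring
      _ ≤ ((κ / 4) ^ 10 * m) * (m:ℝ) ^ 11 := mul_le_mul_of_nonneg_right e6 (by positivity)
      _ = (κ / 4) ^ 10 * (m:ℝ) ^ 12 := by ring
      _ ≤ (κ / 4) ^ 10 * (m:ℝ) ^ 18 := by
          apply mul_le_mul_of_nonneg_left _ (by positivity)
          exact pow_le_pow_right₀ hm1R (by norm_num)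
      _ = (κ / 4) ^ 10 * ((m:ℝ) ^ 9 * (m:ℝ) ^ 9) := by ring
      _ ≤ _ := mul_le_mul_of_nonneg_left e5 (by positivity)
  exact_mod_cast h1

lemma cond_sq {m L : ℕ} (hm : 1 ≤ m) (hL : m ^ 9 ≤ L ^ 10) : m ^ 11 ≤ (L * L) ^ 10 := by
  calc m ^ 11 ≤ m ^ 18 := Nat.pow_le_pow_right (by omega) (by norm_num)
    _ = m ^ 9 * m ^ 9 := by ring
    _ ≤ L ^ 10 * L ^ 10 := Nat.mul_le_mul hL hL
    _ = (L * L) ^ 10 := by ring

lemma low_choose {b L : ℕ} (h1 : 1 ≤ L) (h2 : 2 * L ≤ b) :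
    (L:ℝ) * (Real.log (b / L) - 1) ≤ Real.log (b.choose L) := by
  have hL : (0:ℝ) < L := by exact_mod_cast h1
  have h2R : (2:ℝ) * L ≤ b := by exact_mod_cast h2
  have hb : (0:ℝ) < b := by linarith
  refine le_trans ?_ (log_choose_ge b L h1 (by omega))
  apply mul_le_mul_of_nonneg_left _ hL.le
  have e1 : (b / L : ℝ) / 2 ≤ ((b + 1 - L : ℕ) : ℝ) / L := by
    have e2 : ((b + 1 - L : ℕ) : ℝ) = b + 1 - L := by
      rw [Nat.cast_sub (by omega)]; push_cast; ring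
    rw [e2, div_right_comm]
    apply div_le_div_of_nonneg_right _ hL.le
    linarith
  have e3 : Real.log (b / L) - Real.log 2 ≤ Real.log (((b + 1 - L : ℕ) : ℝ) / L) := by
    rw [← Real.log_div (by positivity) (by norm_num)]
    exact Real.log_le_log (by positivity) e1
  have := Real.log_two_lt_d9
  linarith

/-- primes in `(max a (b/2), b]` transfer to the last interval -/
lemma transfer1 {y a b c m l : ℕ} (hC : Conf y a b c m) (hl : m - c ≤ l) :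
    ∑ p ∈ (Ioc (max a (b / 2)) b).filter Nat.Prime, Real.log p ≤
        V (b / 2) (4 * (b / 2)) (m - l) (m - l + l) := by
  have hya := hC.hya
  have hab := hC.hab
  have hbc := hC.hbc
  have hcm := hC.hcm
  have h2 : (Ioc (max a (b / 2)) b).filter Nat.Prime ⊆
      PM (b / 2) (4 * (b / 2)) (m - l) (m - l + l) := by
    intro p hp
    rw [mem_filter, mem_Ioc] at hp
    obtain ⟨⟨hp1, hp2⟩, hpp⟩ := hp
    have hp1a : a < p := lt_of_le_of_lt (le_max_left _ _) hp1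
    have hp1b : b / 2 < p := lt_of_le_of_lt (le_max_right _ _) hp1
    have e1 : ev p a b = 1 := ev_short hpp hp1a hp2 (by omega)
    have e2 : ev p 0 y = 0 := ev_zero_of_lt (by omega)
    have e3 := hC.par p hpp
    rw [e1, e2] at e3
    have e4 : ev p c m ≠ 0 := by
      intro h0
      rw [h0] at e3
      exact absurd e3 (by decide)
    obtain ⟨j, hj, hd⟩ := exists_mult_of_ev e4
    rw [mem_Ioc] at hj
    have hp2' : 2 ≤ p := hpp.two_le
    exact mem_PM.mpr ⟨⟨hp1b, by omega⟩, hpp, j, mem_Ioc.mpr ⟨by omega, by omega⟩, hd⟩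
  apply Finset.sum_le_sum_of_subset_of_nonneg h2
  intro q hq _
  exact PM_log_nonneg hq

/-- large primes dividing the middle interval transfer to the last one -/
lemma transfer2 {y a b c m l z Q : ℕ} (hC : Conf y a b c m) (hl : m - c ≤ l)
    (hz1 : y ≤ z) (hz2 : b - a ≤ z) (hz3 : m ≤ z ^ 2) (hQ : b ≤ Q) :
    V z b a b ≤ V z Q (m - l) (m - l + l) := by
  have hya := hC.hya
  have hab := hC.hab
  have hbc := hC.hbc
  have hcm := hC.hcm
  apply V_le_of_subset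
  intro q hq
  obtain ⟨⟨h1, h2⟩, h3, h4⟩ := mem_PM.mp hq
  have hqsq : b < q ^ 2 := by
    have : z ^ 2 < q ^ 2 := Nat.pow_lt_pow_left h1 (by norm_num)
    omega
  have e1 : ev q a b = 1 := (ev_eq_one_iff h3 (by omega) hqsq).mpr h4
  have e2 : ev q 0 y = 0 := ev_zero_of_lt (by omega)
  have e3 := hC.par q h3
  rw [e1, e2] at e3
  have e4 : ev q c m ≠ 0 := by
    intro h0
    rw [h0] at e3
    exact absurd e3 (by decide)
  obtain ⟨j, hj, hd⟩ := exists_mult_of_ev e4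
  rw [mem_Ioc] at hj
  exact mem_PM.mpr ⟨⟨h1, by omega⟩, h3, j, mem_Ioc.mpr ⟨by omega, by omega⟩, hd⟩

lemma caseC1 {y a b c m L l : ℕ} {κ C6 : ℝ} (hC : Conf y a b c m) (hm : 2 ≤ m) (hLdef : b - a = L)
    (hL2 : 2 ≤ L) (hl1 : m - c ≤ l) (hlm : l ≤ m) (hl2 : (l:ℝ) ≤ 2 * κ * L)
    (hcond : ∀ P : ℕ, (L:ℝ) / 4 ≤ P → m ^ 11 ≤ (l * P) ^ 10)
    (hC6 : 2 ≤ C6) (hκC : κ * C6 = 1 / 100000)
    (hprimes : 1 / C6 / 2 * b ≤ ∑ p ∈ (Ioc (max a (b / 2)) b).filter Nat.Prime, Real.log p) :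
    False := by
  have hLb : L ≤ b := by omega
  have hLbR : (L:ℝ) ≤ b := by exact_mod_cast hLb
  have hL2R : (2:ℝ) ≤ L := by exact_mod_cast hL2
  have hC6pos : 0 < C6 := by linarith
  have h3 := transfer1 hC hl1
  have h4 := V_four m (m - l) l (b / 2) hm (by omega) (hcond (b / 2) (by
    have e1 : b ≤ 2 * (b / 2) + 1 := by omega
    have e2 : (b:ℝ) ≤ 2 * ((b / 2 : ℕ) : ℝ) + 1 := by exact_mod_cast e1
    linarith))
  have h5 : 1 / C6 / 2 * (L:ℝ) ≤ 22400 * κ * L := by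
    have e1 : 1 / C6 / 2 * (L:ℝ) ≤ 1 / C6 / 2 * b :=
      mul_le_mul_of_nonneg_left hLbR (by positivity)
    linarith
  have h6 : 1 / C6 / 2 ≤ 22400 * κ := le_of_mul_le_mul_right h5 (by linarith)
  have h7 : 1 / C6 / 2 * C6 ≤ 22400 * κ * C6 := mul_le_mul_of_nonneg_right h6 hC6pos.le
  have h8 : 1 / C6 / 2 * C6 = 1 / 2 := by field_simp
  rw [h8, mul_assoc, hκC] at h7
  norm_num at h7

lemma caseC2 {y a b c m L l : ℕ} {κ : ℝ} (hC : Conf y a b c m) (hm : 2 ≤ m) (hLdef : b - a = L)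
    (hL2 : 2 ≤ L) (hl1 : m - c ≤ l) (hlm : l ≤ m) (hl2 : (l:ℝ) ≤ 2 * κ * L)
    (hκ : 100000 * κ ≤ 1) (hL : m ^ 9 ≤ L ^ 10) (hy : y ≤ 89600 * L)
    (hcond : ∀ P : ℕ, (L:ℝ) / 4 ≤ P → m ^ 11 ≤ (l * P) ^ 10)
    (hΛ : 134600 ≤ Real.log (b / L)) (hb : 4 ^ 9 * L ≤ b) : False := by
  have hab := hC.hab
  have hbc := hC.hbc
  have hcm := hC.hcm
  obtain ⟨Λ, hΛdef⟩ : ∃ Λ, Λ = Real.log (b / L) := ⟨_, rfl⟩
  rw [← hΛdef] at hΛ
  have hLpos : (0:ℝ) < L := by exact_mod_cast (by omega : 0 < L)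
  have hbpos : (0:ℝ) < b := by exact_mod_cast (by omega : 0 < b)
  have hmL : m ≤ L ^ 2 := sq_ge_of_pow (by omega) hL
  have hW := W_ge (lo := a) (hi := b) hab (by
    rw [hLdef]
    have : L ^ 2 < (L + 1) ^ 2 := Nat.pow_lt_pow_left (by omega) (by norm_num)
    omega)
  rw [hLdef] at hW
  have hlow := low_choose (b := b) (L := L) (by omega) (by omega)
  rw [← hΛdef] at hlow
  have hpi : (((Ioc 0 L).filter Nat.Prime).card : ℝ) * Real.log b ≤ 78 * L := by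
    refine le_trans ?_ (card_primes_mul_log hL2 (by omega : 1 ≤ m) hL)
    apply mul_le_mul_of_nonneg_left _ (Nat.cast_nonneg _)
    apply Real.log_le_log hbpos
    exact_mod_cast (by omega : b ≤ m)
  obtain ⟨z, hz⟩ : ∃ z, z = 4 ^ 9 * L := ⟨_, rfl⟩
  have hLz : L ≤ z := by omega
  have hzb : z ≤ b := by omega
  have hsplit : W L a b = V L z a b + V z b a b := by
    rw [W_eq_V]; exact V_split hLz hzb
  have hV1 : V L z a b ≤ 9 * (11200 * L) := by
    have h1 := V_pow m a L L 9 hm (by omega) (cond_sq (by omega) hL)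
    have h2 : a + L = b := by omega
    rw [h2, ← hz] at h1
    push_cast at h1
    exact h1
  obtain ⟨s, hs⟩ : ∃ s, s = ⌈Λ⌉₊ := ⟨_, rfl⟩
  have hs1 : Λ ≤ s := by rw [hs]; exact Nat.le_ceil _
  have hs2 : (s:ℝ) ≤ Λ + 1 := by rw [hs]; exact (Nat.ceil_lt_add_one (by linarith)).le
  have hbs : b ≤ 4 ^ s * z := by
    have h1 := exp_le_four_pow Λ s hs1
    rw [hΛdef, Real.exp_log (by positivity), div_le_iff₀ hLpos] at h1
    have h2 : b ≤ 4 ^ s * L := by exact_mod_cast h1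
    exact h2.trans (Nat.mul_le_mul_left _ hLz)
  have hzm : m ≤ z ^ 2 := hmL.trans (Nat.pow_le_pow_left hLz 2)
  have hzLR : (L:ℝ) ≤ z := by exact_mod_cast hLz
  have hV2 : V z b a b ≤ s * (11200 * l) :=
    (transfer2 hC hl1 (by omega) (by omega) hzm hbs).trans
      (V_pow m (m - l) l z s hm (by omega) (hcond z (by linarith)))
  have hV2' : V z b a b ≤ (Λ + 1) * (L / 4) := by
    refine hV2.trans ?_
    have e1 : 11200 * (l:ℝ) ≤ L / 4 := by
      have e2 : κ * L * 100000 ≤ L := by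
        calc κ * L * 100000 = (100000 * κ) * L := by ring
          _ ≤ 1 * L := mul_le_mul_of_nonneg_right hκ hLpos.le
          _ = L := one_mul _
      linarith
    exact mul_le_mul hs2 e1 (by positivity) (by linarith)
  rw [hsplit] at hW
  have hfin : (L:ℝ) * (Λ - 1) ≤ L * (78 + 9 * 11200 + (Λ + 1) / 4) := by
    have e1 : (L:ℝ) * (78 + 9 * 11200 + (Λ + 1) / 4) =
      78 * L + 9 * (11200 * L) + (Λ + 1) * (L / 4) := by ring
    rw [e1]
    linarith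
  have hfin2 := le_of_mul_le_mul_left hfin hLpos
  linarith

theorem stepC : ∃ κ : ℝ, 0 < κ ∧ κ ≤ 1 ∧ ∀ᶠ m : ℕ in atTop, ∀ y a b c, Conf y a b c m →
    m ^ 9 ≤ (b - a) ^ 10 → κ * ((b - a : ℕ) : ℝ) ≤ ((m - c : ℕ) : ℝ) := by
  obtain ⟨C6, hC6⟩ : ∃ C6 : ℝ, C6 = Real.exp 134600 := ⟨_, rfl⟩
  have hC6big : (300000:ℝ) ≤ C6 := by
    have h3 : Real.exp 134600 = Real.exp 67300 * Real.exp 67300 := by
      rw [← Real.exp_add]; norm_num
    have h4 : (67300:ℝ) + 1 ≤ Real.exp 67300 := Real.add_one_le_exp _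
    rw [hC6, h3]
    nlinarith
  have hC6pos : 0 < C6 := by linarith
  obtain ⟨κ, hκ⟩ : ∃ κ : ℝ, κ = 1 / (100000 * C6) := ⟨_, rfl⟩
  have hκpos : 0 < κ := by rw [hκ]; positivity
  have hκC : κ * C6 = 1 / 100000 := by rw [hκ]; field_simp
  have hκ1 : 100000 * κ ≤ 1 := by
    have : κ * 1 ≤ κ * C6 := mul_le_mul_of_nonneg_left (by linarith) hκpos.le
    linarith
  refine ⟨κ, hκpos, by linarith, ?_⟩
  obtain ⟨Y1, hY1⟩ := eventually_atTop.mp (primes_short (1 / C6) (by positivity) (by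
    rw [div_le_iff₀ hC6pos]; linarith))
  have hev : ∀ᶠ m : ℕ in atTop, (4 / κ) ^ 10 ≤ (m : ℝ) :=
    tendsto_natCast_atTop_atTop.eventually_ge_atTop _
  have hev2 : ∀ᶠ m : ℕ in atTop, (1 / κ + Y1 + 2) ^ 10 ≤ (m : ℝ) :=
    tendsto_natCast_atTop_atTop.eventually_ge_atTop _
  filter_upwards [hev, hev2, y_le, eventually_ge_atTop 2] with m hm1 hm2 hyle hm3 y a b c hC hL
  have hya := hC.hya
  have hab := hC.hab
  have hbc := hC.hbc
  have hcm := hC.hcm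
  have hm1R : (1:ℝ) ≤ m := by exact_mod_cast (by omega : 1 ≤ m)
  obtain ⟨L2, hL2⟩ : ∃ L2, b - a = L2 := ⟨_, rfl⟩
  rw [hL2] at hL ⊢
  by_contra hcon
  push Not at hcon
  -- L2 is large
  have hL2big : 1 / κ + Y1 + 2 ≤ (L2 : ℝ) := by
    by_contra h1
    push Not at h1
    have h2 : (L2 : ℝ) ^ 10 < (1 / κ + Y1 + 2) ^ 10 :=
      pow_lt_pow_left₀ h1 (Nat.cast_nonneg _) (by norm_num)
    have h3 : (m:ℝ) ^ 9 ≤ (L2:ℝ) ^ 10 := by exact_mod_cast hL
    have h4 : (m:ℝ) ≤ (m:ℝ) ^ 9 := le_self_pow₀ hm1R (by norm_num)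
    linarith
  have hkpos' : 0 < 1 / κ := by positivity
  have hY0 : (0:ℝ) ≤ Y1 := Nat.cast_nonneg _
  have hL2pos : (0:ℝ) < L2 := by linarith
  have hL2two : 2 ≤ L2 := by
    have : (2:ℝ) ≤ L2 := by linarith
    exact_mod_cast this
  have hL2Y : Y1 ≤ L2 := by
    have : (Y1:ℝ) ≤ L2 := by linarith
    exact_mod_cast this
  have hκL2 : 1 ≤ κ * L2 := by
    have : 1 / κ ≤ (L2:ℝ) := by linarith
    rw [div_le_iff₀ hκpos] at this
    linarith
  have hκL2' : 100000 * (κ * L2) ≤ L2 := by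
    calc 100000 * (κ * L2) = (100000 * κ) * L2 := by ring
      _ ≤ 1 * L2 := mul_le_mul_of_nonneg_right hκ1 hL2pos.le
      _ = L2 := one_mul _
  -- the maximum is L2
  have hL1lt : (m - c) < L2 := by
    have : ((m - c : ℕ) : ℝ) < L2 := by linarith
    exact_mod_cast this
  have hmax : max (m - c) (b - a) = L2 := by rw [hL2]; exact max_eq_right hL1lt.le
  have hy := hyle y a b c hC (by rw [hmax]; exact hL)
  rw [hmax] at hy
  -- the auxiliary length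
  obtain ⟨l, hl⟩ : ∃ l, l = ⌈κ * L2⌉₊ := ⟨_, rfl⟩
  have hl1 : κ * L2 ≤ l := by rw [hl]; exact Nat.le_ceil _
  have hl2 : (l:ℝ) ≤ 2 * κ * L2 := by
    have := Nat.ceil_lt_add_one (by positivity : 0 ≤ κ * L2)
    rw [← hl] at this
    linarith
  have hl3 : m - c ≤ l := by
    have : ((m - c : ℕ) : ℝ) ≤ l := by linarith
    exact_mod_cast this
  have hl4 : l ≤ m := by
    have h1 : (l:ℝ) ≤ L2 := by linarith
    have h2 : l ≤ L2 := by exact_mod_cast h1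
    omega
  have hcond : ∀ P : ℕ, (L2:ℝ) / 4 ≤ P → m ^ 11 ≤ (l * P) ^ 10 := by
    intro P hP
    exact cond_large hκpos (by omega) hm1 hL hl1 hP
  have hbL : L2 ≤ b := by omega
  have haR : (a:ℝ) = b - L2 := by
    rw [← hL2, Nat.cast_sub hab]; ring
  by_cases hcase : (b:ℝ) ≤ C6 * L2
  · refine caseC1 hC hm3 hL2 hL2two hl3 hl4 hl2 hcond (by linarith) hκC ?_
    apply hY1 b (by omega) (max a (b / 2))
    push_cast
    apply max_le
    · have e1 : (b:ℝ) / C6 ≤ L2 := by rw [div_le_iff₀ hC6pos]; linarith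
      have e2 : (1 - 1 / C6) * b = b - b / C6 := by ring
      rw [e2, haR]; linarith
    · have e1 : ((b / 2 : ℕ) : ℝ) ≤ (b : ℝ) / 2 := Nat.cast_div_le
      have e2 : 1 / C6 ≤ 1 / 2 := by
        apply one_div_le_one_div_of_le (by norm_num); linarith
      have e3 : (0:ℝ) ≤ b := Nat.cast_nonneg _
      have e4 : (1 / C6) * b ≤ (1 / 2) * b := mul_le_mul_of_nonneg_right e2 e3
      linarith
  · push Not at hcase
    have h1 : 300000 * (L2:ℝ) ≤ b := by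
      have : 300000 * (L2:ℝ) ≤ C6 * L2 := mul_le_mul_of_nonneg_right hC6big hL2pos.le
      linarith
    have hbpos : (0:ℝ) < b := by linarith
    refine caseC2 hC hm3 hL2 hL2two hl3 hl4 hl2 hκ1 hL hy hcond ?_ ?_
    · rw [Real.le_log_iff_exp_le (by positivity), le_div_iff₀ hL2pos, ← hC6]
      exact hcase.le
    · have h2 : 300000 * L2 ≤ b := by exact_mod_cast h1
      omega

end Pool.Agent.Work.MP_0b7501_nt
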