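import Pool.Agent.Work.MP_0b7501_nt.Fejer

/-!
A Tauberian theorem of Wiener-Ikehara type with the Fejer kernel.
-/

namespace Pool.Agent.Work.MP_0b7501_nt

open MeasureTheory Filter Topology Set

lemma limit_identity (h : ℝ → ℝ) (C : ℝ) (hC : ∀ t, |h t| ≤ C) (hm : Measurable h)
    (G : ℂ → ℂ) (hG : ContinuousOn G {s | 0 ≤ s.re})
    (hGL : ∀ s : ℂ, 0 < s.re → lap h s = G s) (l y : ℝ) (hl : 0 < l) :
    ∫ u in (0:ℝ)..1, (1 - u) *
      (Complex.exp (((l * u) * y : ℝ) * Complex.I) * G ((l * u : ℝ) * Complex.I)).re
      = ∫ t in Ioi (0:ℝ), h t * K (l * (y - t)) := by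
  -- a continuous extension of G
  set G' : ℂ → ℂ := fun s => G (⟨max s.re 0, s.im⟩) with hG'
  have hG'c : Continuous G' := by
    apply hG.comp_continuous
    · have : (fun s : ℂ => (⟨max s.re 0, s.im⟩ : ℂ))
          = fun s : ℂ => ((max s.re 0 : ℝ) : ℂ) + (s.im : ℂ) * Complex.I := by
        ext s
        apply Complex.ext <;> simp
      rw [this]
      fun_prop
    · intro s
      simp
  set F : ℝ → ℝ := fun ε => ∫ u in (0:ℝ)..1, (1 - u) *
      (Complex.exp (((l * u) * y : ℝ) * Complex.I) * G' (ε + (l * u : ℝ) * Complex.I)).re with hF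
  have hFc : Continuous F := by
    apply intervalIntegral.continuous_parametric_intervalIntegral_of_continuous'
    simp only [Function.uncurry_def]
    fun_prop
  have hF0 : F 0 = ∫ u in (0:ℝ)..1, (1 - u) *
      (Complex.exp (((l * u) * y : ℝ) * Complex.I) * G ((l * u : ℝ) * Complex.I)).re := by
    apply intervalIntegral.integral_congr
    intro u _
    have : G' ((0:ℝ) + (l * u : ℝ) * Complex.I) = G ((l * u : ℝ) * Complex.I) := by
      simp only [hG']
      congr 1
      apply Complex.ext <;> simp
    simp only [this]
  have hFpos : ∀ ε : ℝ, 0 < ε → F ε = ∫ t in Ioi (0:ℝ), h t * Real.exp (-(ε * t)) *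
      K (l * (y - t)) := by
    intro ε hε
    rw [← main_identity h C hC hm l y ε hε]
    apply intervalIntegral.integral_congr
    intro u _
    have : G' (ε + (l * u : ℝ) * Complex.I) = lap h (ε + (l * u : ℝ) * Complex.I) := by
      rw [hGL _ (by simpa using hε)]
      simp only [hG']
      congr 1
      apply Complex.ext <;> simp [hε.le]
    simp only [this]
  have hKi : Integrable (fun t : ℝ => K (l * (y - t))) := by
    have h1 : Integrable (fun t : ℝ => K (l * t)) := K_int.comp_mul_left' hl.ne'
    exact h1.comp_sub_left y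
  have hlim1 : Tendsto F (𝓝[>] 0) (𝓝 (F 0)) := (hFc.tendsto 0).mono_left nhdsWithin_le_nhds
  have hlim2 : Tendsto F (𝓝[>] 0) (𝓝 (∫ t in Ioi (0:ℝ), h t * K (l * (y - t)))) := by
    have : Tendsto (fun ε : ℝ => ∫ t in Ioi (0:ℝ), h t * Real.exp (-(ε * t)) *
      K (l * (y - t))) (𝓝[>] 0) (𝓝 (∫ t in Ioi (0:ℝ), h t * K (l * (y - t)))) := by
      apply tendsto_integral_filter_of_dominated_convergence (fun t => C * K (l * (y - t)))
      · filter_upwards with ε
        apply Measurable.aestronglyMeasurable
        have := K_cont.measurable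
        fun_prop
      · filter_upwards [self_mem_nhdsWithin] with ε hε
        rw [ae_restrict_iff' measurableSet_Ioi]
        refine Eventually.of_forall fun t ht => ?_
        have hε' : 0 < ε := hε
        have ht' : 0 < t := ht
        rw [norm_mul, norm_mul, Real.norm_eq_abs, Real.norm_eq_abs, Real.norm_eq_abs, Real.abs_exp,
          abs_of_nonneg (K_nonneg _)]
        have e1 : Real.exp (-(ε * t)) ≤ 1 := Real.exp_le_one_iff.mpr (by nlinarith)
        have e2 : |h t| * Real.exp (-(ε * t)) ≤ C * 1 :=
          mul_le_mul (hC t) e1 (Real.exp_pos _).le (le_trans (abs_nonneg _) (hC t))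
        have := mul_le_mul_of_nonneg_right e2 (K_nonneg (l * (y - t)))
        simpa using this
      · exact (hKi.const_mul C).restrict
      · refine Eventually.of_forall fun t => ?_
        have : Tendsto (fun ε : ℝ => h t * Real.exp (-(ε * t)) * K (l * (y - t))) (𝓝 0)
            (𝓝 (h t * Real.exp (-(0 * t)) * K (l * (y - t)))) := by
          apply Continuous.tendsto (f := fun ε : ℝ => h t * Real.exp (-(ε * t)) * K (l * (y - t)))
          fun_prop
        simp only [zero_mul, neg_zero, Real.exp_zero, mul_one] at this
        exact this.mono_left nhdsWithin_le_nhds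
    refine this.congr' ?_
    filter_upwards [self_mem_nhdsWithin] with ε hε
    exact (hFpos ε hε).symm
  rw [← hF0]
  exact tendsto_nhds_unique hlim1 hlim2

lemma rl (G : ℂ → ℂ) (l : ℝ) (hl : 0 < l) (hG : ContinuousOn G {s | 0 ≤ s.re}) :
    Tendsto (fun y : ℝ => ∫ u in (0:ℝ)..1, (1 - u) *
      (Complex.exp (((l * u) * y : ℝ) * Complex.I) * G ((l * u : ℝ) * Complex.I)).re)
      atTop (𝓝 0) := by
  have hGc : Continuous (fun u : ℝ => G ((l * u : ℝ) * Complex.I)) := by
    apply hG.comp_continuous
    · fun_prop
    · intro u; simp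
  set f : ℝ → ℂ := (Ioc (0:ℝ) 1).indicator (fun u : ℝ => ((1 - u : ℝ) : ℂ) *
    G ((l * u : ℝ) * Complex.I)) with hf
  have h1 := Real.tendsto_integral_exp_smul_cocompact f
  have h2 : Tendsto (fun y : ℝ => -(l * y) / (2 * Real.pi)) atTop (cocompact ℝ) := by
    have : Tendsto (fun y : ℝ => -(l * y) / (2 * Real.pi)) atTop atBot := by
      have e : (fun y : ℝ => -(l * y) / (2 * Real.pi)) = fun y => -((l / (2 * Real.pi)) * y) := by
        ext y; ring
      rw [e]
      apply tendsto_neg_atTop_atBot.comp
      exact Tendsto.const_mul_atTop (by positivity) tendsto_id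
    exact this.mono_right atBot_le_cocompact
  have h3 := h1.comp h2
  have h4 := (Complex.continuous_re.tendsto 0).comp h3
  simp only [Complex.zero_re] at h4
  refine h4.congr fun y => ?_
  simp only [Function.comp]
  have h5 : ∀ v : ℝ, Real.fourierChar (-(v * (-(l * y) / (2 * Real.pi)))) • f v
      = (Ioc (0:ℝ) 1).indicator (fun u : ℝ => ((1 - u : ℝ) : ℂ) *
        (Complex.exp (((l * u) * y : ℝ) * Complex.I) * G ((l * u : ℝ) * Complex.I))) v := by
    intro v
    simp only [hf]
    by_cases hv : v ∈ Ioc (0:ℝ) 1
    · rw [indicator_of_mem hv, indicator_of_mem hv]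
      rw [Circle.smul_def, Real.fourierChar_apply, smul_eq_mul]
      have : ((2 * Real.pi * (-(v * (-(l * y) / (2 * Real.pi)))) : ℝ) : ℂ)
          = ((l * v * y : ℝ) : ℂ) := by
        congr 1
        field_simp
      rw [this]
      ring
    · rw [indicator_of_notMem hv, indicator_of_notMem hv, smul_zero]
  simp_rw [h5]
  rw [integral_indicator measurableSet_Ioc]
  rw [intervalIntegral.integral_of_le (by norm_num)]
  have hint : Integrable (fun u : ℝ => ((1 - u : ℝ) : ℂ) *
        (Complex.exp (((l * u) * y : ℝ) * Complex.I) * G ((l * u : ℝ) * Complex.I)))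
        (volume.restrict (Ioc (0:ℝ) 1)) := by
    have : IntegrableOn (fun u : ℝ => ((1 - u : ℝ) : ℂ) *
        (Complex.exp (((l * u) * y : ℝ) * Complex.I) * G ((l * u : ℝ) * Complex.I)))
        (Icc (0:ℝ) 1) := by
      apply Continuous.integrableOn_Icc
      exact Continuous.mul (by fun_prop) (Continuous.mul (by fun_prop) hGc)
    exact this.mono_set Ioc_subset_Icc_self
  have h6 := integral_re hint
  simp only [RCLike.re_to_complex] at h6
  rw [← h6]
  refine setIntegral_congr_fun measurableSet_Ioc fun t _ => ?_
  simp only [Complex.re_ofReal_mul]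

/-- integrability of a bounded function against the kernel -/
lemma integrable_mul_K (g : ℝ → ℝ) (C : ℝ) (hC : ∀ t, |g t| ≤ C) (hm : Measurable g) :
    Integrable (fun v => g v * K v) := by
  refine Integrable.mono' (K_int.const_mul C) ?_ ?_
  · exact (hm.mul K_cont.measurable).aestronglyMeasurable
  · refine Eventually.of_forall fun v => ?_
    rw [norm_mul, Real.norm_eq_abs, Real.norm_eq_abs, abs_of_nonneg (K_nonneg v)]
    exact mul_le_mul_of_nonneg_right (hC v) (K_nonneg v)

lemma smoothed (H : ℝ → ℝ) (C : ℝ) (hH0 : ∀ t, 0 ≤ H t) (hHC : ∀ t, H t ≤ C)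
    (hm : Measurable H)
    (G : ℂ → ℂ) (hG : ContinuousOn G {s | 0 ≤ s.re})
    (hGL : ∀ s : ℂ, 0 < s.re → lap (fun t => H t - 1) s = G s) (l : ℝ) (hl : 0 < l) :
    Tendsto (fun y : ℝ => ∫ v, (if 0 < y - v / l then H (y - v / l) else 1) * K v) atTop
      (𝓝 (∫ v, K v)) := by
  have hC' : ∀ t, |H t - 1| ≤ C + 1 := by
    intro t
    have := hH0 t
    have := hHC t
    rw [abs_le]; constructor <;> linarith
  have h0 := (rl G l hl hG).const_mul l
  rw [mul_zero] at h0
  have h1 := h0.add_const (∫ v, K v)
  rw [zero_add] at h1
  refine h1.congr fun y => ?_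
  rw [limit_identity (fun t => H t - 1) (C + 1) hC' (hm.sub_const 1) G hG hGL l y hl]
  -- rewrite as an integral over the line
  set g : ℝ → ℝ := fun t => if 0 < t then H t - 1 else 0 with hg
  have e1 : ∫ t in Ioi (0:ℝ), (H t - 1) * K (l * (y - t)) = ∫ t, g t * K (l * (y - t)) := by
    rw [← integral_indicator measurableSet_Ioi]
    congr 1
    ext t
    by_cases ht : t ∈ Ioi (0:ℝ)
    · have ht' : 0 < t := ht
      rw [indicator_of_mem ht]
      simp [hg, ht']
    · have ht' : ¬ 0 < t := ht
      rw [indicator_of_notMem ht]
      simp [hg, ht']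
  have e2 : ∫ t, g t * K (l * (y - t)) = ∫ t, g (y - t) * K (l * t) := by
    rw [← integral_sub_left_eq_self (fun t => g t * K (l * (y - t))) volume y]
    simp
  have e3 : l * ∫ t, g (y - t) * K (l * t) = ∫ v, g (y - v / l) * K v := by
    have := Measure.integral_comp_mul_left (fun v => g (y - v / l) * K v) l
    have e4 : ∀ t : ℝ, l * t / l = t := fun t => by field_simp
    simp only [e4] at this
    rw [this, abs_of_pos (inv_pos.mpr hl), smul_eq_mul, ← mul_assoc, mul_inv_cancel₀ hl.ne',
      one_mul]
  rw [e1, e2, e3, ← integral_add]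
  · congr 1
    ext v
    simp only [hg]
    split_ifs <;> ring
  · apply integrable_mul_K _ (C + 1)
    · intro t
      simp only [hg]
      split_ifs
      · exact hC' _
      · simp only [abs_zero]
        linarith [hH0 0, hHC 0]
    · have hgm : Measurable g := by
        apply Measurable.ite measurableSet_Ioi (hm.sub_const 1) measurable_const
      exact hgm.comp (by fun_prop)
  · exact K_int

theorem tauber (H : ℝ → ℝ) (C : ℝ) (hH0 : ∀ t, 0 ≤ H t) (hHC : ∀ t, H t ≤ C)
    (hm : Measurable H)
    (hmono : ∀ s t, 0 ≤ s → s ≤ t → H s * Real.exp s ≤ H t * Real.exp t)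
    (G : ℂ → ℂ) (hG : ContinuousOn G {s | 0 ≤ s.re})
    (hGL : ∀ s : ℂ, 0 < s.re → lap (fun t => H t - 1) s = G s) :
    Tendsto H atTop (𝓝 1) := by
  have hC0 : 0 ≤ C := (hH0 0).trans (hHC 0)
  set κ := ∫ v, K v with hκ
  have hκpos : 0 < κ := K_pos
  -- the truncated integral
  have hR : Tendsto (fun R : ℝ => ∫ v in (-R)..R, K v) atTop (𝓝 κ) :=
    intervalIntegral_tendsto_integral K_int tendsto_neg_atTop_atBot tendsto_id
  have hm' : Measurable (fun t : ℝ => if 0 < t then H t else 1) :=
    Measurable.ite measurableSet_Ioi hm measurable_const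
  have hb' : ∀ t : ℝ, |(if 0 < t then H t else 1)| ≤ C + 1 := by
    intro t
    split_ifs
    · rw [abs_of_nonneg (hH0 t)]; linarith [hHC t]
    · simp; linarith
  have hint : ∀ l y : ℝ, Integrable
      (fun v => (if 0 < y - v / l then H (y - v / l) else 1) * K v) := by
    intro l y
    apply integrable_mul_K _ (C + 1)
    · intro t; exact hb' _
    · exact hm'.comp (f := fun v : ℝ => y - v / l) (by fun_prop)
  -- comparison of H at nearby points
  have hcmp : ∀ s t d : ℝ, 0 ≤ s → s ≤ t → t ≤ s + d → H s * Real.exp (-d) ≤ H t := by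
    intro s t d hs hst htd
    have h1 := hmono s t hs hst
    have h2 : H s * Real.exp (-d) * Real.exp t ≤ H s * Real.exp s := by
      rw [mul_assoc, ← Real.exp_add]
      apply mul_le_mul_of_nonneg_left _ (hH0 s)
      apply Real.exp_le_exp.mpr; linarith
    have h3 : H s * Real.exp (-d) * Real.exp t ≤ H t * Real.exp t := h2.trans h1
    exact le_of_mul_le_mul_right h3 (Real.exp_pos t)
  rw [tendsto_order]
  constructor
  · intro a ha
    -- choose R
    have h1 : Tendsto (fun R : ℝ => a * κ + (C + 1) * (κ - ∫ v in (-R)..R, K v)) atTop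
        (𝓝 (a * κ + (C + 1) * (κ - κ))) := by
      apply Tendsto.const_add
      apply Tendsto.const_mul
      exact tendsto_const_nhds.sub hR
    rw [sub_self, mul_zero, add_zero] at h1
    have h2 : a * κ < κ := by nlinarith
    obtain ⟨R, hR1, hR2⟩ := ((h1.eventually (gt_mem_nhds h2)).and (eventually_gt_atTop 0)).exists
    set κR := ∫ v in (-R)..R, K v with hκR
    -- choose d
    have h3 : Tendsto (fun d : ℝ => |a| * κ * (Real.exp (2 * d) - 1) + (a * κ +
        (C + 1) * (κ - κR))) (𝓝[>] 0) (𝓝 (|a| * κ * (Real.exp (2 * 0) - 1) + (a * κ +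
        (C + 1) * (κ - κR)))) := by
      apply Tendsto.mono_left _ nhdsWithin_le_nhds
      apply Continuous.tendsto (f := fun d : ℝ => |a| * κ * (Real.exp (2 * d) - 1) + (a * κ +
        (C + 1) * (κ - κR)))
      fun_prop
    simp only [mul_zero, Real.exp_zero, sub_self, zero_add] at h3
    obtain ⟨d, hd1, hd2⟩ := ((h3.eventually (gt_mem_nhds hR1)).and self_mem_nhdsWithin).exists
    have hd0 : 0 < d := hd2
    set l := R / d with hl
    have hlpos : 0 < l := div_pos hR2 hd0
    have h4 := smoothed H C hH0 hHC hm G hG hGL l hlpos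
    have h5 : ∀ᶠ y in atTop, (|a| * κ * (Real.exp (2 * d) - 1) + (a * κ + (C + 1) * (κ - κR)))
        < ∫ v, (if 0 < y - v / l then H (y - v / l) else 1) * K v :=
      h4.eventually (lt_mem_nhds hd1)
    have h6 : ∀ᶠ y in atTop, a < H (y + d) := by
      filter_upwards [h5, eventually_gt_atTop (2 * d)] with y hy hyd
      -- upper bound of the integral
      have hup : ∫ v, (if 0 < y - v / l then H (y - v / l) else 1) * K v
          ≤ H (y + d) * Real.exp (2 * d) * κ + (C + 1) * (κ - κR) := by
        have hsplit : ∀ v : ℝ, (if 0 < y - v / l then H (y - v / l) else 1) * K v ≤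
            H (y + d) * Real.exp (2 * d) * K v +
            (C + 1) * (K v - (Ioc (-R) R).indicator K v) := by
          intro v
          have hKv := K_nonneg v
          have hHy := hH0 (y + d)
          by_cases hv : v ∈ Ioc (-R) R
          · rw [indicator_of_mem hv, sub_self, mul_zero, add_zero]
            apply mul_le_mul_of_nonneg_right _ hKv
            have e1 : v / l ≤ d := by
              rw [div_le_iff₀ hlpos, hl]
              have : d * (R / d) = R := by field_simp
              rw [this]; exact hv.2
            have e2 : -d ≤ v / l := by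
              rw [le_div_iff₀ hlpos, hl]
              have : -d * (R / d) = -R := by field_simp
              rw [this]; exact hv.1.le
            have e3 : 0 < y - v / l := by linarith
            rw [if_pos e3]
            have e4 := hcmp (y - v / l) (y + d) (2 * d) e3.le (by linarith) (by linarith)
            rw [Real.exp_neg, ← div_eq_mul_inv, div_le_iff₀ (Real.exp_pos _)] at e4
            exact e4
          · rw [indicator_of_notMem hv, sub_zero]
            have e1 : (if 0 < y - v / l then H (y - v / l) else 1) ≤ C + 1 :=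
              (le_abs_self _).trans (hb' _)
            have e2 := mul_le_mul_of_nonneg_right e1 hKv
            have e3 : 0 ≤ H (y + d) * Real.exp (2 * d) * K v := by positivity
            linarith
        have hi1 : Integrable (fun v => H (y + d) * Real.exp (2 * d) * K v) := K_int.const_mul _
        have hi2 : Integrable (fun v => (C + 1) * (K v - (Ioc (-R) R).indicator K v)) := by
          apply Integrable.const_mul
          exact K_int.sub (K_int.indicator measurableSet_Ioc)
        refine (integral_mono (hint l y) (hi1.add hi2) hsplit).trans ?_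
        simp only [Pi.add_apply]
        rw [integral_add hi1 hi2, integral_const_mul, integral_const_mul,
          integral_sub K_int (K_int.indicator measurableSet_Ioc),
          integral_indicator measurableSet_Ioc, ← intervalIntegral.integral_of_le (by linarith)]
      -- conclude
      have h7 := hy.trans_le hup
      have h8 : |a| * κ * (Real.exp (2 * d) - 1) + a * κ < H (y + d) * Real.exp (2 * d) * κ := by
        linarith
      have h9 : a * Real.exp (2 * d) * κ ≤ |a| * κ * (Real.exp (2 * d) - 1) + a * κ := by
        have e1 : 1 ≤ Real.exp (2 * d) := Real.one_le_exp (by linarith)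
        have e2 : a ≤ |a| := le_abs_self a
        have e3 : 0 ≤ (|a| - a) * (κ * (Real.exp (2 * d) - 1)) :=
          mul_nonneg (by linarith) (mul_nonneg hκpos.le (by linarith))
        nlinarith
      have h10 := h9.trans_lt h8
      have h11 := lt_of_mul_lt_mul_right h10 hκpos.le
      exact lt_of_mul_lt_mul_right h11 (Real.exp_pos _).le
    have h7 := (tendsto_atTop_add_const_right atTop (-d) tendsto_id).eventually h6
    filter_upwards [h7] with y hy
    simpa using hy
  · intro b hb
    have h1 : Tendsto (fun R : ℝ => b * (∫ v in (-R)..R, K v)) atTop (𝓝 (b * κ)) := hR.const_mul b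
    have h2 : κ < b * κ := by nlinarith
    obtain ⟨R, hR1, hR2⟩ := ((h1.eventually (lt_mem_nhds h2)).and (eventually_gt_atTop 0)).exists
    set κR := ∫ v in (-R)..R, K v with hκR
    have h3 : Tendsto (fun d : ℝ => b * κR * Real.exp (-(2 * d))) (𝓝[>] 0)
        (𝓝 (b * κR * Real.exp (-(2 * 0)))) := by
      apply Tendsto.mono_left _ nhdsWithin_le_nhds
      apply Continuous.tendsto (f := fun d : ℝ => b * κR * Real.exp (-(2 * d)))
      fun_prop
    simp only [mul_zero, neg_zero, Real.exp_zero, mul_one] at h3
    obtain ⟨d, hd1, hd2⟩ := ((h3.eventually (lt_mem_nhds hR1)).and self_mem_nhdsWithin).exists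
    have hd0 : 0 < d := hd2
    set l := R / d with hl
    have hlpos : 0 < l := div_pos hR2 hd0
    have h4 := smoothed H C hH0 hHC hm G hG hGL l hlpos
    have h5 : ∀ᶠ y in atTop, ∫ v, (if 0 < y - v / l then H (y - v / l) else 1) * K v
        < b * κR * Real.exp (-(2 * d)) :=
      h4.eventually (gt_mem_nhds hd1)
    have hκR0 : 0 < κR := by
      by_contra hcon
      push Not at hcon
      have : b * κR * Real.exp (-(2 * d)) ≤ 0 := by
        apply mul_nonpos_of_nonpos_of_nonneg _ (Real.exp_pos _).le
        nlinarith
      linarith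
    have h6 : ∀ᶠ y in atTop, H (y - d) < b := by
      filter_upwards [h5, eventually_gt_atTop (2 * d)] with y hy hyd
      have hlow : H (y - d) * Real.exp (-(2 * d)) * κR ≤
          ∫ v, (if 0 < y - v / l then H (y - v / l) else 1) * K v := by
        have hsplit : ∀ v : ℝ, H (y - d) * Real.exp (-(2 * d)) * (Ioc (-R) R).indicator K v ≤
            (if 0 < y - v / l then H (y - v / l) else 1) * K v := by
          intro v
          have hKv := K_nonneg v
          by_cases hv : v ∈ Ioc (-R) R
          · rw [indicator_of_mem hv]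
            apply mul_le_mul_of_nonneg_right _ hKv
            have e1 : v / l ≤ d := by
              rw [div_le_iff₀ hlpos, hl]
              have : d * (R / d) = R := by field_simp
              rw [this]; exact hv.2
            have e2 : -d ≤ v / l := by
              rw [le_div_iff₀ hlpos, hl]
              have : -d * (R / d) = -R := by field_simp
              rw [this]; exact hv.1.le
            have e3 : 0 < y - v / l := by linarith
            rw [if_pos e3]
            exact hcmp (y - d) (y - v / l) (2 * d) (by linarith) (by linarith) (by linarith)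
          · rw [indicator_of_notMem hv, mul_zero]
            apply mul_nonneg _ hKv
            split_ifs
            · exact hH0 _
            · norm_num
        have hi1 : Integrable (fun v => H (y - d) * Real.exp (-(2 * d)) *
            (Ioc (-R) R).indicator K v) := (K_int.indicator measurableSet_Ioc).const_mul _
        refine le_trans (le_of_eq ?_) (integral_mono hi1 (hint l y) hsplit)
        rw [integral_const_mul, integral_indicator measurableSet_Ioc,
          ← intervalIntegral.integral_of_le (by linarith)]
      have h7 := hlow.trans_lt hy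
      have h8 : H (y - d) * (Real.exp (-(2 * d)) * κR) < b * (Real.exp (-(2 * d)) * κR) := by
        calc H (y - d) * (Real.exp (-(2 * d)) * κR)
            = H (y - d) * Real.exp (-(2 * d)) * κR := by ring
          _ < b * κR * Real.exp (-(2 * d)) := h7
          _ = _ := by ring
      exact lt_of_mul_lt_mul_right h8 (by positivity)
    have h7 := (tendsto_atTop_add_const_right atTop d tendsto_id).eventually h6
    filter_upwards [h7] with y hy
    simpa using hy

end Pool.Agent.Work.MP_0b7501_nt
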