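import Mathlib

/-!
A nonnegative weight on the integers which is exactly equidistributed in residue classes to all
moduli `k ≤ M`, is `≥ 1` on `[0, N]`, and has total mass `≤ 16 * max N M` over a period.
-/

namespace Pool.Agent.Work.MP_0b7501_nt

open Finset

noncomputable section

/-- `e(x) = exp (2 π i x)` -/
def ee (x : ℝ) : ℂ := Complex.exp (2 * Real.pi * Complex.I * x)

lemma ee_add (x y : ℝ) : ee (x + y) = ee x * ee y := by
  unfold ee
  rw [← Complex.exp_add]
  congr 1
  push_cast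
  ring

lemma ee_int (n : ℤ) : ee n = 1 := by
  unfold ee
  rw [show (2 * Real.pi * Complex.I * ((n : ℝ) : ℂ)) = n * (2 * Real.pi * Complex.I) by
    push_cast; ring]
  exact Complex.exp_int_mul_two_pi_mul_I n

lemma ee_zero : ee 0 = 1 := by simp [ee]

lemma ee_neg (x : ℝ) : ee (-x) = (starRingEnd ℂ) (ee x) := by
  unfold ee
  rw [← Complex.exp_conj]
  congr 1
  simp only [map_mul, Complex.conj_I, Complex.conj_ofReal, map_ofNat]
  push_cast
  ring

lemma ee_re (x : ℝ) : (ee x).re = Real.cos (2 * Real.pi * x) := by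
  unfold ee
  rw [show (2 * Real.pi * Complex.I * (x : ℂ)) = ((2 * Real.pi * x : ℝ) : ℂ) * Complex.I by
    push_cast; ring]
  rw [Complex.exp_ofReal_mul_I_re]

/-- geometric sums of roots of unity vanish -/
lemma sum_ee_eq_zero (T : ℕ) (hT : 0 < T) (j : ℤ) (hj : ¬ (T : ℤ) ∣ j) :
    ∑ t ∈ range T, ee ((j : ℝ) * t / T) = 0 := by
  have hT' : (T : ℝ) ≠ 0 := by positivity
  have hpow : ∀ t : ℕ, ee ((j : ℝ) * t / T) = (ee ((j : ℝ) / T)) ^ t := by
    intro t
    induction t with
    | zero => simp [ee_zero]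
    | succ t ih =>
      rw [pow_succ, ← ih, ← ee_add]
      congr 1
      push_cast
      ring
  simp_rw [hpow]
  have hne : ee ((j : ℝ) / T) ≠ 1 := by
    intro h
    unfold ee at h
    rw [Complex.exp_eq_one_iff] at h
    obtain ⟨n, hn⟩ := h
    have h2 : (2 * Real.pi * Complex.I) ≠ 0 := Complex.two_pi_I_ne_zero
    have h3 : (((j : ℝ) / T : ℝ) : ℂ) = n := by
      have : (2 * Real.pi * Complex.I) * (((j : ℝ) / T : ℝ) : ℂ) = (2 * Real.pi * Complex.I) * n := by
        rw [hn]; ring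
      exact mul_left_cancel₀ h2 this
    have h4 : ((j : ℝ) / T : ℝ) = n := by exact_mod_cast h3
    rw [div_eq_iff hT'] at h4
    apply hj
    refine ⟨n, ?_⟩
    have : (j : ℝ) = ((n * T : ℤ) : ℝ) := by push_cast; exact h4
    have := Int.cast_injective this
    rw [this]; ring
  rw [geom_sum_eq hne]
  have h1 : ee ((j : ℝ) / T) ^ T = 1 := by
    rw [← hpow T]
    rw [show (j : ℝ) * T / T = ((j : ℤ) : ℝ) by field_simp]
    exact ee_int j
  rw [h1]
  simp

/-- the weight -/
def wt (h D : ℕ) (m : ℕ) : ℝ :=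
  2 / (h : ℝ) ^ 2 * Complex.normSq (∑ x ∈ range h, ee ((x : ℝ) * m / D))

lemma wt_nonneg (h D m : ℕ) : 0 ≤ wt h D m := by
  unfold wt
  exact mul_nonneg (by positivity) (Complex.normSq_nonneg _)

lemma wt_ge_one (h D m : ℕ) (hh : 0 < h) (hD : 0 < D) (hm : 8 * (h * m) ≤ D) :
    1 ≤ wt h D m := by
  unfold wt
  have hD' : (0 : ℝ) < D := by exact_mod_cast hD
  have hh' : (0 : ℝ) < h := by exact_mod_cast hh
  have hre : (h : ℝ) * Real.sqrt (1 / 2) ≤ (∑ x ∈ range h, ee ((x : ℝ) * m / D)).re := by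
    rw [Complex.re_sum]
    have : ∀ x ∈ range h, Real.sqrt (1 / 2) ≤ (ee ((x : ℝ) * m / D)).re := by
      intro x hx
      rw [ee_re]
      have hx' : x < h := mem_range.mp hx
      have hxm : (x : ℝ) * m / D ≤ 1 / 8 := by
        rw [div_le_iff₀ hD']
        have : 8 * (x * m) ≤ D := le_trans (by
          have : x * m ≤ h * m := Nat.mul_le_mul_right _ hx'.le
          omega) hm
        have : (8 : ℝ) * (x * m) ≤ D := by exact_mod_cast this
        linarith
      have hxm0 : 0 ≤ (x : ℝ) * m / D := by positivity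
      have hcos : Real.cos (Real.pi / 4) ≤ Real.cos (2 * Real.pi * ((x : ℝ) * m / D)) := by
        apply Real.cos_le_cos_of_nonneg_of_le_pi
        · positivity
        · linarith [Real.pi_pos]
        · nlinarith [Real.pi_pos]
      rw [Real.cos_pi_div_four] at hcos
      refine le_trans (le_of_eq ?_) hcos
      rw [Real.sqrt_eq_iff_mul_self_eq (by norm_num) (by positivity)]
      have := Real.mul_self_sqrt (show (0 : ℝ) ≤ 2 by norm_num)
      nlinarith
    calc (h : ℝ) * Real.sqrt (1 / 2) = ∑ _x ∈ range h, Real.sqrt (1 / 2) := by simp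
      _ ≤ _ := Finset.sum_le_sum this
  have hns : (h : ℝ) ^ 2 / 2 ≤ Complex.normSq (∑ x ∈ range h, ee ((x : ℝ) * m / D)) := by
    have h1 : ((h : ℝ) * Real.sqrt (1 / 2)) ^ 2 = (h : ℝ) ^ 2 / 2 := by
      rw [mul_pow, Real.sq_sqrt (by norm_num)]; ring
    rw [← h1, Complex.normSq_apply]
    have h2 : 0 ≤ (h : ℝ) * Real.sqrt (1 / 2) := by positivity
    nlinarith [mul_self_nonneg (∑ x ∈ range h, ee ((x : ℝ) * m / D)).im, hre]
  calc (1 : ℝ) = 2 / (h : ℝ) ^ 2 * ((h : ℝ) ^ 2 / 2) := by field_simp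
    _ ≤ _ := by gcongr

/-- exact equidistribution -/
lemma sum_wt (h D k c : ℕ) (hh : 0 < h) (hD : 0 < D) (hk : 0 < k) (hkD : k ∣ D) (hhk : h * k ≤ D) :
    ∑ t ∈ range (D / k), wt h D (c + k * t) = 2 * (D : ℝ) / (h * k) := by
  obtain ⟨T, rfl⟩ := hkD
  have hT : 0 < T := by
    rcases Nat.eq_zero_or_pos T with h0 | h0
    · subst h0; simp at hD
    · exact h0
  rw [Nat.mul_div_cancel_left T hk]
  have hk' : (k : ℝ) ≠ 0 := by positivity
  have hT' : (T : ℝ) ≠ 0 := by positivity
  have hh' : (h : ℝ) ≠ 0 := by positivity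
  have hkey : ((∑ t ∈ range T, Complex.normSq (∑ x ∈ range h,
      ee ((x : ℝ) * ((c + k * t : ℕ) : ℝ) / ((k * T : ℕ) : ℝ))) : ℝ) : ℂ) = (h * T : ℂ) := by
    push_cast
    have h1 : ∀ t : ℕ, (Complex.normSq (∑ x ∈ range h,
        ee ((x : ℝ) * ((c : ℝ) + k * t) / ((k : ℝ) * T))) : ℂ) =
        ∑ x ∈ range h, ∑ x' ∈ range h, ee (((x : ℝ) - x') * c / ((k : ℝ) * T)) *
          ee ((((x : ℤ) - x' : ℤ) : ℝ) * t / T) := by
      intro t
      rw [Complex.normSq_eq_conj_mul_self, map_sum, Finset.sum_mul_sum, Finset.sum_comm]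
      refine Finset.sum_congr rfl fun x _ => Finset.sum_congr rfl fun x' _ => ?_
      rw [← ee_neg, ← ee_add, ← ee_add]
      congr 1
      push_cast
      field_simp
      ring
    simp_rw [h1]
    rw [Finset.sum_comm]
    have h2 : ∀ x ∈ range h, ∑ t ∈ range T, ∑ x' ∈ range h,
        ee (((x : ℝ) - x') * c / ((k : ℝ) * T)) * ee ((((x : ℤ) - x' : ℤ) : ℝ) * t / T) = T := by
      intro x hx
      rw [Finset.sum_comm, Finset.sum_eq_single x]
      · simp [ee_zero]
      · intro x' hx' hne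
        rw [← Finset.mul_sum, sum_ee_eq_zero T hT _ _, mul_zero]
        intro hdvd
        have hx1 := mem_range.mp hx
        have hx2 := mem_range.mp hx'
        have hhT : h ≤ T := by
          have : h * k ≤ T * k := by rw [Nat.mul_comm T k]; exact hhk
          exact Nat.le_of_mul_le_mul_right this hk
        have habs : |((x : ℤ) - x' : ℤ)| < T := by
          rw [abs_lt]; constructor <;> omega
        have := Int.eq_zero_of_abs_lt_dvd hdvd habs
        apply hne
        omega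
      · intro hx'; exact absurd hx hx'
    rw [Finset.sum_congr rfl h2]
    simp
  have hkey' : (∑ t ∈ range T, Complex.normSq (∑ x ∈ range h,
      ee ((x : ℝ) * ((c + k * t : ℕ) : ℝ) / ((k * T : ℕ) : ℝ)))) = (h * T : ℝ) := by
    exact_mod_cast hkey
  unfold wt
  rw [← Finset.mul_sum, hkey']
  push_cast
  field_simp

end

end Pool.Agent.Work.MP_0b7501_nt
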